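import Pool.Agent.Iso79.NTDefs

/-!
# Basic properties of `alt`, `FF`, and the inert primes

Proof notes.
* `alt_eq_prod` : `alt 1 1 x y = ∏ 2 i sin(α/2)` over the root values `x-y`, `x+2y`, `2x+y`
  (that is `-8 i sin sin sin`).
* `inert`: if `k ≡ 2 mod 3` is prime and `k ∣ m² + m n + n²` then `k ∣ m` and `k ∣ n`
  (otherwise `m/n` would be an element of order `3` in `(ℤ/k)ˣ`, whose order is `k - 1 ≡ 1 mod 3`).
-/

open Complex

noncomputable section

namespace Pool.Agent.Iso79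

theorem ee_add (u v : ℝ) : ee (u + v) = ee u * ee v := by
  unfold ee
  rw [← Complex.exp_add]
  congr 1
  push_cast
  ring

theorem ee_two_pi_int (k : ℤ) : ee (2 * Real.pi * k) = 1 := by
  unfold ee
  rw [Complex.exp_eq_one_iff]
  refine ⟨k, ?_⟩
  push_cast
  ring

theorem ee_neg_mul (u : ℝ) : ee u * ee (-u) = 1 := by
  rw [← ee_add, add_neg_cancel]
  unfold ee
  simp

theorem sin_ee (u : ℝ) : ((Real.sin u : ℝ) : ℂ) = (ee (-u) - ee u) * I / 2 := by
  rw [Complex.ofReal_sin, Complex.sin]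
  unfold ee
  congr 3
  · congr 1
    push_cast
    ring
  · congr 1
    ring

theorem alt_eq_prod (x y : ℝ) : alt 1 1 x y =
    -8 * I * (Real.sin ((x - y) / 2) * Real.sin ((x + 2 * y) / 2) *
      Real.sin ((2 * x + y) / 2) : ℝ) := by
  have e1 : (2 * x + y) / 2 = (x - y) / 2 + (x + 2 * y) / 2 := by ring
  have h1 := ee_neg_mul ((x - y) / 2)
  have h2 := ee_neg_mul ((x + 2 * y) / 2)
  rw [Complex.ofReal_mul, Complex.ofReal_mul, sin_ee, sin_ee, sin_ee, e1, neg_add, ee_add, ee_add]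
  have t1 : ee (((1 : ℤ) + (1 : ℤ)) * x + (1 : ℤ) * y) =
      (ee ((x - y) / 2)) ^ 2 * (ee ((x + 2 * y) / 2)) ^ 2 := by
    rw [sq, sq, ← ee_add, ← ee_add, ← ee_add]; congr 1; push_cast; ring
  have t2 : ee ((1 : ℤ) * x + ((1 : ℤ) + (1 : ℤ)) * y) = (ee ((x + 2 * y) / 2)) ^ 2 := by
    rw [sq, ← ee_add]; congr 1; push_cast; ring
  have t3 : ee ((1 : ℤ) * x - (1 : ℤ) * y) = (ee ((x - y) / 2)) ^ 2 := by
    rw [sq, ← ee_add]; congr 1; push_cast; ring
  have t4 : ee (-((1 : ℤ) * x) - ((1 : ℤ) + (1 : ℤ)) * y) = (ee (-((x + 2 * y) / 2))) ^ 2 := by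
    rw [sq, ← ee_add]; congr 1; push_cast; ring
  have t5 : ee (-((1 : ℤ) * x) + (1 : ℤ) * y) = (ee (-((x - y) / 2))) ^ 2 := by
    rw [sq, ← ee_add]; congr 1; push_cast; ring
  have t6 : ee (-(((1 : ℤ) + (1 : ℤ)) * x) - (1 : ℤ) * y) =
      (ee (-((x - y) / 2))) ^ 2 * (ee (-((x + 2 * y) / 2))) ^ 2 := by
    rw [sq, sq, ← ee_add, ← ee_add, ← ee_add]; congr 1; push_cast; ring
  unfold alt
  rw [t1, t2, t3, t4, t5, t6]
  generalize ee ((x - y) / 2) = P at *
  generalize ee (-((x - y) / 2)) = P' at *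
  generalize ee ((x + 2 * y) / 2) = Q at *
  generalize ee (-((x + 2 * y) / 2)) = Q' at *
  have hI : I ^ 2 = -1 := Complex.I_sq
  have hI4 : I ^ 4 = 1 := by
    rw [show (4 : ℕ) = 2 * 2 from rfl, pow_mul, hI]; norm_num
  linear_combination (Q ^ 2 - Q' ^ 2) * h1 + (P ^ 2 - P' ^ 2) * h2 +
    (P' - P) * (Q' - Q) * (P' * Q' - P * Q) * hI4

/-- scaling -/
theorem alt_scale (k m n : ℤ) (x y : ℝ) : alt (k * m) (k * n) x y = alt m n (k * x) (k * y) := by
  unfold alt
  push_cast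
  congr 1
  · congr 1
    · congr 1
      · congr 1
        · congr 1
          · congr 1; ring
          · congr 1; ring
        · congr 1; ring
      · congr 1; ring
    · congr 1; ring
  · congr 1; ring

theorem ee_shift {u v : ℝ} (k : ℤ) (h : u = v + 2 * Real.pi * k) : ee u = ee v := by
  rw [h, ee_add, ee_two_pi_int, mul_one]

/-- periodicity -/
theorem alt_period (m n a b : ℤ) (x y : ℝ) :
    alt m n (x + 2 * Real.pi * a) (y + 2 * Real.pi * b) = alt m n x y := by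
  unfold alt
  congr 1
  · congr 1
    · congr 1
      · congr 1
        · congr 1
          · exact ee_shift ((m + n) * a + n * b) (by push_cast; ring)
          · exact ee_shift (n * a + (m + n) * b) (by push_cast; ring)
        · exact ee_shift (m * a - n * b) (by push_cast; ring)
      · exact ee_shift (-(m * a) - (m + n) * b) (by push_cast; ring)
    · exact ee_shift (-(n * a) + m * b) (by push_cast; ring)
  · exact ee_shift (-((m + n) * a) - m * b) (by push_cast; ring)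

/-- `alt m n (-θ) = - alt n m θ` -/
theorem alt_neg (m n : ℤ) (x y : ℝ) : alt m n (-x) (-y) = -alt n m x y := by
  unfold alt
  have t1 : ee ((m + n) * -x + n * -y) = ee (-((n + m) * x) - n * y) := by congr 1; ring
  have t2 : ee (n * -x + (m + n) * -y) = ee (-(n * x) - (n + m) * y) := by congr 1; ring
  have t3 : ee (m * -x - n * -y) = ee (-(m * x) + n * y) := by congr 1; ring
  have t4 : ee (-(m * -x) - (m + n) * -y) = ee (m * x + (n + m) * y) := by congr 1; ring
  have t5 : ee (-(n * -x) + m * -y) = ee (n * x - m * y) := by congr 1; ring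
  have t6 : ee (-((m + n) * -x) - m * -y) = ee ((n + m) * x + m * y) := by congr 1; ring
  rw [t1, t2, t3, t4, t5, t6]
  ring

theorem FF_neg (N : ℕ) (x y : ℝ) : FF N (-x) (-y) = -FF N x y := by
  unfold FF
  rw [← Finset.sum_neg_distrib]
  refine Finset.sum_equiv (Equiv.prodComm ℕ ℕ) ?_ ?_
  · rintro ⟨m, n⟩
    simp only [shell, Equiv.prodComm_apply, Prod.swap_prod_mk, Finset.mem_filter,
      Finset.mem_product, Finset.mem_range]
    constructor
    · rintro ⟨⟨h1, h2⟩, h3, h4, h5⟩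
      exact ⟨⟨h2, h1⟩, h4, h3, by rw [← h5]; ring⟩
    · rintro ⟨⟨h1, h2⟩, h3, h4, h5⟩
      exact ⟨⟨h2, h1⟩, h4, h3, by rw [← h5]; ring⟩
  · rintro ⟨m, n⟩ _
    exact alt_neg m n x y

theorem FF_period (N : ℕ) (a b : ℤ) (x y : ℝ) :
    FF N (x + 2 * Real.pi * a) (y + 2 * Real.pi * b) = FF N x y :=
  Finset.sum_congr rfl fun _ _ => alt_period _ _ _ _ _ _

theorem continuous_FF (N : ℕ) : Continuous fun p : ℝ × ℝ => FF N p.1 p.2 := by
  unfold FF
  refine continuous_finsetSum _ fun p _ => ?_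
  unfold alt ee
  fun_prop

theorem shell_three : shell 3 = {(1, 1)} := by decide

theorem FF_three (x y : ℝ) : FF 3 x y = alt 1 1 x y := by
  unfold FF
  rw [shell_three, Finset.sum_singleton]
  norm_num

theorem shell_thirteen : shell 13 = {(3, 1), (1, 3)} := by decide

theorem inert {k : ℕ} (hk : k.Prime) (h3 : k % 3 = 2) {m n : ℕ}
    (h : k ∣ m ^ 2 + m * n + n ^ 2) : k ∣ m ∧ k ∣ n := by
  have : Fact k.Prime := ⟨hk⟩
  have h' : (m : ZMod k) ^ 2 + m * n + (n : ZMod k) ^ 2 = 0 := by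
    have := (ZMod.natCast_eq_zero_iff _ _).2 h
    push_cast at this
    exact this
  have hn : (n : ZMod k) = 0 := by
    by_contra hn
    have h1 : ((m : ZMod k) / n) ^ 2 + (m : ZMod k) / n + 1 = 0 := by
      field_simp
      linear_combination h'
    set r := (m : ZMod k) / n with hr
    have h2 : r ^ 3 = 1 := by linear_combination (r - 1) * h1
    have h4 : r ≠ 0 := by
      rintro h4
      rw [h4] at h2
      norm_num at h2
    have h5 : r ^ (k - 1) = 1 := ZMod.pow_card_sub_one_eq_one h4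
    have h6 : k - 1 = 3 * (k / 3) + 1 := by omega
    rw [h6, pow_add, pow_mul, h2, one_pow, one_mul, pow_one] at h5
    rw [h5] at h1
    have h7 : ((3 : ℕ) : ZMod k) = 0 := by
      push_cast
      linear_combination h1
    rw [ZMod.natCast_eq_zero_iff] at h7
    have h8 := (Nat.prime_dvd_prime_iff_eq hk Nat.prime_three).1 h7
    omega
  have hm : (m : ZMod k) = 0 := by
    rw [hn] at h'
    simpa using h'
  exact ⟨(ZMod.natCast_eq_zero_iff _ _).1 hm, (ZMod.natCast_eq_zero_iff _ _).1 hn⟩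

theorem mem_shell {N : ℕ} {p : ℕ × ℕ} :
    p ∈ shell N ↔ Odd p.1 ∧ Odd p.2 ∧ p.1 ^ 2 + p.1 * p.2 + p.2 ^ 2 = N := by
  unfold shell
  rw [Finset.mem_filter, Finset.mem_product, Finset.mem_range, Finset.mem_range]
  constructor
  · exact fun h => h.2
  · intro h
    refine ⟨⟨?_, ?_⟩, h⟩
    · have h1 : p.1 ≤ p.1 ^ 2 := Nat.le_self_pow (by norm_num) _
      have := h.2.2
      omega
    · have h1 : p.2 ≤ p.2 ^ 2 := Nat.le_self_pow (by norm_num) _
      have := h.2.2
      omega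

theorem shell_scale {k : ℕ} (hk : k.Prime) (h3 : k % 3 = 2) (h2 : k ≠ 2) (N : ℕ) :
    shell (N * k ^ 2) = (shell N).image (fun p => (k * p.1, k * p.2)) := by
  have hodd : Odd k := hk.odd_of_ne_two h2
  ext ⟨m, n⟩
  rw [mem_shell, Finset.mem_image]
  constructor
  · rintro ⟨hm, hn, h⟩
    simp only at hm hn h
    obtain ⟨⟨m', rfl⟩, ⟨n', rfl⟩⟩ := inert hk h3 (h.symm ▸ Dvd.intro_left (N * k) (by ring) :
      k ∣ m ^ 2 + m * n + n ^ 2)
    refine ⟨(m', n'), mem_shell.2 ⟨(Nat.odd_mul.1 hm).2, (Nat.odd_mul.1 hn).2, ?_⟩, rfl⟩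
    have hk2 : 0 < k ^ 2 := pow_pos hk.pos 2
    apply Nat.eq_of_mul_eq_mul_right hk2
    rw [← h]
    ring
  · rintro ⟨⟨m', n'⟩, h, he⟩
    rw [mem_shell] at h
    obtain ⟨h4, h5, h6⟩ := h
    simp only [Prod.mk.injEq] at he h4 h5 h6
    obtain ⟨rfl, rfl⟩ := he
    refine ⟨hodd.mul h4, hodd.mul h5, ?_⟩
    rw [← h6]
    ring

theorem FF_scale {k : ℕ} (hk : k.Prime) (h3 : k % 3 = 2) (h2 : k ≠ 2) (N : ℕ) (x y : ℝ) :
    FF (N * k ^ 2) x y = FF N (k * x) (k * y) := by
  unfold FF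
  rw [shell_scale hk h3 h2, Finset.sum_image]
  · refine Finset.sum_congr rfl fun p _ => ?_
    have := alt_scale k p.1 p.2 x y
    push_cast at this ⊢
    exact this
  · rintro ⟨m, n⟩ _ ⟨m', n'⟩ _ h
    simp only [Prod.mk.injEq] at h ⊢
    exact ⟨Nat.eq_of_mul_eq_mul_left hk.pos h.1, Nat.eq_of_mul_eq_mul_left hk.pos h.2⟩

end Pool.Agent.Iso79
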