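import Mathlib

/-! # Takagi factorisation of symmetric unitary matrices -/

open Matrix Complex Polynomial
open scoped Matrix.Norms.L2Operator

noncomputable section

namespace Pool.Agent.Iso79

theorem takagi (S : Matrix (Fin 3) (Fin 3) ℂ) (hu : star S * S = 1) (hu' : S * star S = 1)
    (hs : Sᵀ = S) : ∃ R : Matrix (Fin 3) (Fin 3) ℂ, Rᵀ = R ∧ star R * R = 1 ∧ R * star R = 1 ∧
      R * R = S := by
  have hnorm : IsStarNormal S := ⟨by rw [Commute, SemiconjBy, hu, hu']⟩
  set s : Finset ℂ := (Matrix.finite_spectrum S).toFinset with hsdef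
  have hmem : ∀ z, z ∈ spectrum ℂ S → z ∈ s := fun z hz => by
    rw [hsdef, Set.Finite.mem_toFinset]; exact hz
  set r : ℂ → ℂ := fun z => exp (log z / 2) with hr
  set q : ℂ[X] := Lagrange.interpolate s id r with hq
  have hev : ∀ z ∈ spectrum ℂ S, q.eval z = r z := fun z hz =>
    Lagrange.eval_interpolate_at_node r (fun x _ y _ h => h) (hmem z hz)
  have hone : ∀ z ∈ spectrum ℂ S, ‖z‖ = 1 := by
    intro z hz
    have h1 : S ∈ unitary (Matrix (Fin 3) (Fin 3) ℂ) := ⟨hu, hu'⟩
    have h2 := spectrum.subset_circle_of_unitary (𝕜 := ℂ) h1 hz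
    simpa using h2
  have hr2 : ∀ z ∈ spectrum ℂ S, r z * r z = z := by
    intro z hz
    have hz0 : z ≠ 0 := by
      intro h; have := hone z hz; rw [h, norm_zero] at this; exact zero_ne_one this
    change exp (log z / 2) * exp (log z / 2) = z
    rw [← Complex.exp_add, add_halves, exp_log hz0]
  have hr1 : ∀ z ∈ spectrum ℂ S, star (r z) * r z = 1 := by
    intro z hz
    have h1 : ‖r z‖ * ‖r z‖ = 1 := by rw [← norm_mul, hr2 z hz, hone z hz]
    have h2 : ‖r z‖ ^ 2 = 1 := by rw [sq]; exact h1
    have h3 : star (r z) * r z = ((‖r z‖ ^ 2 : ℝ) : ℂ) := by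
      rw [Complex.star_def, mul_comm, Complex.mul_conj, Complex.normSq_eq_norm_sq]
    rw [h3, h2, ofReal_one]
  have hR : cfc q.eval S = aeval S q := cfc_polynomial q S
  have hcont : ContinuousOn q.eval (spectrum ℂ S) := q.continuous.continuousOn
  have h1 : star (aeval S q) * aeval S q = 1 := by
    rw [← hR, ← cfc_star, ← cfc_mul (fun z => star (q.eval z)) q.eval S]
    rw [← cfc_one ℂ S]
    apply cfc_congr
    intro z hz
    change star (q.eval z) * q.eval z = 1
    rw [hev z hz, hr1 z hz]
  refine ⟨aeval S q, ?_, h1, mul_eq_one_comm.1 h1, ?_⟩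
  · have h2 : ∀ p : ℂ[X], (aeval S p)ᵀ = aeval S p := by
      intro p
      induction p using Polynomial.induction_on with
      | C a => simp [Matrix.algebraMap_eq_diagonal]
      | add p q hp hq => rw [map_add, transpose_add, hp, hq]
      | monomial n a _ =>
        rw [map_mul, aeval_C, map_pow, aeval_X, transpose_mul, transpose_pow, hs,
          Matrix.algebraMap_eq_diagonal, diagonal_transpose]
        have := Algebra.commutes a (S ^ (n + 1))
        rw [Matrix.algebraMap_eq_diagonal] at this
        exact this.symm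
    exact h2 q
  · rw [← hR, ← cfc_mul q.eval q.eval S]
    conv_rhs => rw [← cfc_id ℂ S]
    apply cfc_congr
    intro z hz
    change q.eval z * q.eval z = z
    rw [hev z hz, hr2 z hz]

end Pool.Agent.Iso79
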