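import Pool.Agent.Iso79.Defs
import Pool.Agent.Iso79.Takagi

/-!
# Basic facts on `XX`, `mk`, `tau`, the geodesics and `HasLap`

Proof notes.

* `mk_surj` (Takagi factorisation).  `S = A + i B` with `A, B` real symmetric; `S S̄ = 1` gives
  `A B = B A`, `A² + B² = 1`.  Real symmetric commuting matrices have a common orthonormal real
  eigenbasis (e.g. mathlib `Analysis/InnerProductSpace/JointEigenspace`), so `S = k D kᵀ` with
  `k ∈ O(3)` (replace `k` by `-k` to get `det k = 1`) and `D = diag(d₁,d₂,d₃)`, `|dᵢ| = 1`,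
  `d₁ d₂ d₃ = 1`.  Choose `e₁² = d₁`, `e₂² = d₂`, `e₃ = 1/(e₁ e₂)`; then `e₃² = d₃` and
  `g = k diag(e)` works.  (Alternative: an eigenvector `x` of `S` has `S x̄ = λ x̄` too, so there is
  a real eigenvector; then go to the orthogonal complement.)
* `expP_mem`: `P k` is skew-hermitian, so `exp (s P k)` is unitary; for the determinant
  diagonalise: every `P k` is `u diag(..) u⁻¹` with an explicit real orthogonal `u` (mathlib
  `Matrix.exp_conj`, `Matrix.exp_diagonal`), or use that `det exp` is a homomorphism `ℝ → ℂ`, or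
  compute `exp (s P k)` explicitly from `(P k)³ = - c² P k`.
* `HasLap.congr`: the curve `s ↦ g exp(s P k) gᵀ = mk (g · eP k (s/2))` stays in `XX`, so that the
  second derivatives do not depend on the extension `F`; use `mk_surj` to see that `h` is unique.
* `tau_preserves`: `F (g · gᵀ)`; the curve through `tau g (mk h)` is the image of the curve through
  `mk h`.
-/

open Matrix Complex
open scoped ContDiff

noncomputable section

namespace Pool.Agent.Iso79

attribute [local instance] Matrix.linftyOpNormedRing Matrix.linftyOpNormedAlgebra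

theorem mk_surj (S : XX) : ∃ g : SU3, mk g = S := by
  have hS := S.2.1
  rw [Matrix.mem_specialUnitaryGroup_iff, Matrix.mem_unitaryGroup_iff] at hS
  obtain ⟨R, h1, h2, h3, h4⟩ := takagi S.1 (mul_eq_one_comm.1 hS.1) hS.1 S.2.2
  have h5 : R.det * R.det = 1 := by rw [← det_mul, h4, hS.2]
  have h6 : R.det = 1 ∨ R.det = -1 := mul_self_eq_one_iff.1 h5
  rcases h6 with h6 | h6
  · refine ⟨⟨R, ?_⟩, ?_⟩
    · rw [Matrix.mem_specialUnitaryGroup_iff, Matrix.mem_unitaryGroup_iff]
      exact ⟨h3, h6⟩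
    · apply Subtype.ext
      change R * Rᵀ = S.1
      rw [h1, h4]
  · refine ⟨⟨-R, ?_⟩, ?_⟩
    · rw [Matrix.mem_specialUnitaryGroup_iff, Matrix.mem_unitaryGroup_iff]
      refine ⟨by rw [star_neg, neg_mul_neg, h3], ?_⟩
      rw [det_neg, h6]; norm_num
    · apply Subtype.ext
      change (-R) * (-R)ᵀ = S.1
      rw [transpose_neg, neg_mul_neg, h1, h4]

theorem tau_mk (g h : SU3) : tau g (mk h) = mk (g * h) := by
  apply Subtype.ext
  change g.1 * (h.1 * h.1ᵀ) * g.1ᵀ = (g.1 * h.1) * (g.1 * h.1)ᵀ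
  rw [transpose_mul]; simp only [Matrix.mul_assoc]

theorem tau_mul (g h : SU3) : tau (g * h) = tau g * tau h :=
  Equiv.ext fun S => tauFun_mul g h S

theorem tau_one : tau 1 = 1 := Equiv.ext fun S => tauFun_one S

theorem tau_inv (g : SU3) : tau g⁻¹ = (tau g)⁻¹ := by
  rw [eq_inv_iff_mul_eq_one, ← tau_mul, inv_mul_cancel, tau_one]

/-- symmetric real orthogonal matrices with determinant one -/
def xxOf (M : M3) (h1 : M * star M = 1) (h2 : M.det = 1) (h3 : Mᵀ = M) : XX :=
  ⟨M, by rw [Matrix.mem_specialUnitaryGroup_iff, Matrix.mem_unitaryGroup_iff]; exact ⟨h1, h2⟩, h3⟩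

theorem tau_eq_one {u : SU3} (H : tau u = 1) : u = 1 := by
  have h0 : u.1 * u.1ᵀ = 1 := by
    have h := congrArg Subtype.val (Equiv.congr_fun H (xxOf 1 (by simp) (by simp) (by simp)))
    change u.1 * 1 * u.1ᵀ = 1 at h
    rwa [Matrix.mul_one] at h
  have h0' : u.1ᵀ * u.1 = 1 := mul_eq_one_comm.1 h0
  have hc : ∀ S : XX, u.1 * S.1 = S.1 * u.1 := by
    intro S
    have h : u.1 * S.1 * u.1ᵀ = S.1 := congrArg Subtype.val (Equiv.congr_fun H S)
    calc u.1 * S.1 = u.1 * S.1 * (u.1ᵀ * u.1) := by rw [h0', Matrix.mul_one]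
      _ = S.1 * u.1 := by rw [← Matrix.mul_assoc, h]
  have ha := hc (xxOf !![1, 0, 0; 0, -1, 0; 0, 0, -1]
    (by ext i j; fin_cases i <;> fin_cases j <;>
      simp [Matrix.mul_apply, Fin.sum_univ_three, star_apply])
    (by simp [det_fin_three]) (by ext i j; fin_cases i <;> fin_cases j <;> simp))
  have hb := hc (xxOf !![-1, 0, 0; 0, -1, 0; 0, 0, 1]
    (by ext i j; fin_cases i <;> fin_cases j <;>
      simp [Matrix.mul_apply, Fin.sum_univ_three, star_apply])
    (by simp [det_fin_three]) (by ext i j; fin_cases i <;> fin_cases j <;> simp))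
  have hd := hc (xxOf !![0, 1, 0; 1, 0, 0; 0, 0, -1]
    (by ext i j; fin_cases i <;> fin_cases j <;>
      simp [Matrix.mul_apply, Fin.sum_univ_three, star_apply])
    (by simp [det_fin_three]) (by ext i j; fin_cases i <;> fin_cases j <;> simp))
  have he := hc (xxOf !![-1, 0, 0; 0, 0, 1; 0, 1, 0]
    (by ext i j; fin_cases i <;> fin_cases j <;>
      simp [Matrix.mul_apply, Fin.sum_univ_three, star_apply])
    (by simp [det_fin_three]) (by ext i j; fin_cases i <;> fin_cases j <;> simp))
  unfold xxOf at ha hb hd he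
  have key : ∀ (M : M3), u.1 * M = M * u.1 → ∀ i j,
      u.1 i 0 * M 0 j + u.1 i 1 * M 1 j + u.1 i 2 * M 2 j =
      M i 0 * u.1 0 j + M i 1 * u.1 1 j + M i 2 * u.1 2 j := by
    intro M hM i j
    have h := congrFun (congrFun hM i) j
    rw [Matrix.mul_apply, Matrix.mul_apply, Fin.sum_univ_three, Fin.sum_univ_three] at h
    exact h
  have a01 := key _ ha 0 1
  have a02 := key _ ha 0 2
  have a10 := key _ ha 1 0
  have a20 := key _ ha 2 0
  have b12 := key _ hb 1 2
  have b21 := key _ hb 2 1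
  have d01 := key _ hd 0 1
  have e12 := key _ he 1 2
  simp at a01 a02 a10 a20 b12 b21 d01 e12
  have z01 : u.1 0 1 = 0 := by linear_combination (-1 / 2) * a01
  have z02 : u.1 0 2 = 0 := by linear_combination (-1 / 2) * a02
  have z10 : u.1 1 0 = 0 := by linear_combination (1 / 2) * a10
  have z20 : u.1 2 0 = 0 := by linear_combination (1 / 2) * a20
  have z12 : u.1 1 2 = 0 := by linear_combination (1 / 2) * b12
  have z21 : u.1 2 1 = 0 := by linear_combination (-1 / 2) * b21
  have e1 : u.1 1 1 = u.1 0 0 := d01.symm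
  have e2 : u.1 2 2 = u.1 0 0 := by rw [← e1]; exact e12.symm
  have hdet : u.1.det = 1 := (Matrix.mem_specialUnitaryGroup_iff.1 u.2).2
  rw [det_fin_three] at hdet
  simp only [z01, z02, z10, z20, z12, z21, e1, e2] at hdet
  have h00 := congrFun (congrFun h0 0) 0
  rw [Matrix.mul_apply, Fin.sum_univ_three] at h00
  simp only [transpose_apply, z01, z02, one_apply_eq] at h00
  have hl : u.1 0 0 = 1 := by linear_combination hdet - u.1 0 0 * h00
  apply Subtype.ext
  ext i j
  fin_cases i <;> fin_cases j <;> simp [z01, z02, z10, z20, z12, z21, e1, e2, hl]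

/-- the action of `SU(3)` on `XX` is faithful -/
theorem tau_inj {g h : SU3} (H : tau g = tau h) : g = h := by
  have h1 : tau (g⁻¹ * h) = 1 := by rw [tau_mul, tau_inv, H, inv_mul_cancel]
  have h2 := tau_eq_one h1
  exact (inv_mul_eq_one.1 h2)

theorem exp_add_smul (A : M3) (s t : ℝ) : NormedSpace.exp ((s + t) • A) =
    NormedSpace.exp (s • A) * NormedSpace.exp (t • A) := by
  rw [add_smul]
  exact Matrix.exp_add_of_commute _ _ ((Commute.refl A).smul_left s |>.smul_right t)

theorem det_exp_conj {A U V : M3} {d : Fin 3 → ℂ} (hUV : U * V = 1)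
    (hA : A * U = U * diagonal d) (hd : d 0 + d 1 + d 2 = 0)
    (s : ℝ) : (NormedSpace.exp (s • A)).det = 1 := by
  have hU : IsUnit U := IsUnit.of_mul_eq_one V hUV
  have hV : V = U⁻¹ := (Matrix.inv_eq_right_inv hUV).symm
  have hA' : A = U * diagonal d * V := by rw [← hA, Matrix.mul_assoc, hUV, Matrix.mul_one]
  have h1 : s • A = U * diagonal (fun i => (s : ℂ) * d i) * U⁻¹ := by
    rw [hA', hV]
    have : diagonal (fun i => (s : ℂ) * d i) = s • diagonal d := by
      rw [← diagonal_smul]; congr 1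
    rw [this, Matrix.mul_smul, Matrix.smul_mul]
  rw [h1, Matrix.exp_conj _ _ hU, Matrix.exp_diagonal, det_mul, det_mul, det_diagonal,
    mul_right_comm, ← det_mul, Matrix.mul_nonsing_inv _ ((Matrix.isUnit_iff_isUnit_det U).1 hU),
    det_one, one_mul, Fin.prod_univ_three]
  rw [Pi.coe_exp, Pi.coe_exp, Pi.coe_exp, ← Complex.exp_eq_exp_ℂ, ← Complex.exp_add,
    ← Complex.exp_add, ← mul_add, ← mul_add, hd, mul_zero, Complex.exp_zero]

theorem P_star (k : Fin 5) : star (P k) = -P k := by
  fin_cases k <;>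
  · ext i j
    fin_cases i <;> fin_cases j <;> simp [P, star_apply] <;> ring

theorem expP_mem (k : Fin 5) (s : ℝ) :
    NormedSpace.exp (s • P k) ∈ Matrix.specialUnitaryGroup (Fin 3) ℂ := by
  rw [Matrix.mem_specialUnitaryGroup_iff]
  constructor
  · rw [Matrix.mem_unitaryGroup_iff, star_eq_conjTranspose, ← Matrix.exp_conjTranspose,
      conjTranspose_smul, ← star_eq_conjTranspose (P k), P_star, star_trivial, smul_neg,
      ← neg_smul, ← exp_add_smul, add_neg_cancel, zero_smul, NormedSpace.exp_zero]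
  · fin_cases k
    · refine det_exp_conj (U := 1) (V := 1) (d := (I / (Real.sqrt 2 : ℂ)) • ![1, -1, 0])
        (by simp) ?_ (by simp) s
      ext i j
      fin_cases i <;> fin_cases j <;> simp [P]
    · refine det_exp_conj (U := 1) (V := 1) (d := (I / (Real.sqrt 6 : ℂ)) • ![1, 1, -2])
        (by simp) ?_ (by simp; ring) s
      ext i j
      fin_cases i <;> fin_cases j <;> simp [P]
    · refine det_exp_conj (U := !![1, 1, 0; 1, -1, 0; 0, 0, 1])
        (V := !![1/2, 1/2, 0; 1/2, -1/2, 0; 0, 0, 1]) (d := (I / (Real.sqrt 2 : ℂ)) • ![1, -1, 0])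
        ?_ ?_ (by simp) s
      · ext i j
        rw [Matrix.mul_apply, Fin.sum_univ_three]
        fin_cases i <;> fin_cases j <;> simp <;> norm_num
      · ext i j
        rw [Matrix.mul_apply, Matrix.mul_apply, Fin.sum_univ_three, Fin.sum_univ_three]
        fin_cases i <;> fin_cases j <;> simp [P]
    · refine det_exp_conj (U := !![1, 1, 0; 0, 0, 1; 1, -1, 0])
        (V := !![1/2, 0, 1/2; 1/2, 0, -1/2; 0, 1, 0]) (d := (I / (Real.sqrt 2 : ℂ)) • ![1, -1, 0])
        ?_ ?_ (by simp) s
      · ext i j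
        rw [Matrix.mul_apply, Fin.sum_univ_three]
        fin_cases i <;> fin_cases j <;> simp <;> norm_num
      · ext i j
        rw [Matrix.mul_apply, Matrix.mul_apply, Fin.sum_univ_three, Fin.sum_univ_three]
        fin_cases i <;> fin_cases j <;> simp [P]
    · refine det_exp_conj (U := !![0, 0, 1; 1, 1, 0; 1, -1, 0])
        (V := !![0, 1/2, 1/2; 0, 1/2, -1/2; 1, 0, 0]) (d := (I / (Real.sqrt 2 : ℂ)) • ![1, -1, 0])
        ?_ ?_ (by simp) s
      · ext i j
        rw [Matrix.mul_apply, Fin.sum_univ_three]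
        fin_cases i <;> fin_cases j <;> simp <;> norm_num
      · ext i j
        rw [Matrix.mul_apply, Matrix.mul_apply, Fin.sum_univ_three, Fin.sum_univ_three]
        fin_cases i <;> fin_cases j <;> simp [P]

theorem P_transpose (k : Fin 5) : (P k)ᵀ = P k := by
  fin_cases k <;>
  · ext i j
    fin_cases i <;> fin_cases j <;> simp [P]

theorem expP_transpose (k : Fin 5) (s : ℝ) :
    (NormedSpace.exp (s • P k))ᵀ = NormedSpace.exp (s • P k) := by
  rw [← Matrix.exp_transpose, transpose_smul, P_transpose]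

/-- the one parameter group `exp (s P k)` in `SU(3)` -/
def eP (k : Fin 5) (s : ℝ) : SU3 := ⟨NormedSpace.exp (s • P k), expP_mem k s⟩

theorem eP_add (k : Fin 5) (s t : ℝ) : eP k (s + t) = eP k s * eP k t :=
  Subtype.ext (exp_add_smul (P k) s t)

theorem curve_eq (g : SU3) (k : Fin 5) (s : ℝ) :
    g.1 * NormedSpace.exp (s • P k) * g.1ᵀ = (mk (g * eP k (s / 2))).1 := by
  change _ = (g.1 * NormedSpace.exp ((s / 2) • P k)) * (g.1 * NormedSpace.exp ((s / 2) • P k))ᵀ
  have h : NormedSpace.exp (s • P k) =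
      NormedSpace.exp ((s / 2) • P k) * NormedSpace.exp ((s / 2) • P k) := by
    rw [← exp_add_smul, add_halves]
  rw [transpose_mul, expP_transpose, h]
  simp only [Matrix.mul_assoc]

/-- smoothness of functions on `XX` -/
def Smooth (f : XX → ℂ) : Prop := ∃ F : M3 → ℂ, ContDiff ℝ ∞ F ∧ ∀ S : XX, F S.1 = f S

theorem HasLap.smooth {f h : XX → ℂ} (H : HasLap f h) : Smooth f := by
  obtain ⟨F, h1, h2, _⟩ := H
  exact ⟨F, h1, h2⟩

/-- the Laplacian in terms of the pull-back to `SU(3)` -/
theorem HasLap.eq {f h : XX → ℂ} (H : HasLap f h) (g : SU3) :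
    h (mk g) = ∑ k, iteratedDeriv 2 (fun s : ℝ => f (mk (g * eP k (s / 2)))) 0 := by
  obtain ⟨F, h1, h2, h3⟩ := H
  rw [h3]
  refine Finset.sum_congr rfl fun k _ => ?_
  congr 1
  funext s
  rw [curve_eq, h2]

theorem HasLap.unique {f h h' : XX → ℂ} (H : HasLap f h) (H' : HasLap f h') : h = h' := by
  funext S
  obtain ⟨g, rfl⟩ := mk_surj S
  rw [H.eq, H'.eq]

theorem tau_preserves (g : SU3) : PreservesLap (tau g) := by
  rintro f h ⟨F, h1, h2, h3⟩
  refine ⟨fun M => F (g.1 * M * g.1ᵀ), ?_, fun S => ?_, fun g' => ?_⟩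
  · exact h1.comp ((contDiff_const.mul contDiff_id).mul contDiff_const)
  · exact h2 (tau g S)
  · change h (tau g (mk g')) = _
    rw [tau_mk, h3]
    refine Finset.sum_congr rfl fun k _ => ?_
    congr 1
    funext s
    congr 1
    change (g.1 * g'.1) * _ * (g.1 * g'.1)ᵀ = _
    rw [transpose_mul]; simp only [Matrix.mul_assoc]

instance : TopologicalSpace XX := inferInstanceAs (TopologicalSpace
  {S : M3 // S ∈ Matrix.specialUnitaryGroup (Fin 3) ℂ ∧ Sᵀ = S})

theorem continuous_val : Continuous (fun S : XX => S.1) := continuous_subtype_val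

theorem Smooth.continuous {f : XX → ℂ} (H : Smooth f) : Continuous f := by
  obtain ⟨F, h1, h2⟩ := H
  have h3 : f = F ∘ (fun S : XX => S.1) := funext fun S => (h2 S).symm
  rw [h3]
  exact h1.continuous.comp continuous_val

theorem continuous_mk : Continuous mk := by
  apply Continuous.subtype_mk
  exact (continuous_subtype_val).mul (continuous_subtype_val.matrix_transpose)

theorem isCompact_entries : IsCompact {M : M3 | ∀ i j, ‖M i j‖ ≤ 1} := by
  have h : {M : M3 | ∀ i j, ‖M i j‖ ≤ 1} =
      Set.pi Set.univ (fun _ : Fin 3 => Set.pi Set.univ (fun _ : Fin 3 =>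
        Metric.closedBall (0 : ℂ) 1)) := by
    ext M
    constructor
    · intro h i _ j _
      exact mem_closedBall_zero_iff.2 (h i j)
    · intro h i j
      exact mem_closedBall_zero_iff.1 (h i trivial j trivial)
  rw [h]
  exact isCompact_univ_pi fun _ => isCompact_univ_pi fun _ => isCompact_closedBall 0 1

instance : CompactSpace XX := by
  apply isCompact_iff_compactSpace.1
  apply isCompact_entries.of_isClosed_subset
  · have h1 : {S : M3 | S ∈ Matrix.specialUnitaryGroup (Fin 3) ℂ ∧ Sᵀ = S} =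
        {S : M3 | S * star S = 1} ∩ {S : M3 | S.det = 1} ∩ {S : M3 | Sᵀ = S} := by
      ext S
      simp only [Set.mem_ofPred_eq, Set.mem_inter_iff, Matrix.mem_specialUnitaryGroup_iff,
        Matrix.mem_unitaryGroup_iff]
    have h2 : IsClosed {S : M3 | S ∈ Matrix.specialUnitaryGroup (Fin 3) ℂ ∧ Sᵀ = S} := by
      rw [h1]
      refine ((isClosed_eq ?_ continuous_const).inter (isClosed_eq ?_ continuous_const)).inter
        (isClosed_eq ?_ continuous_id)
      · exact continuous_id.mul continuous_star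
      · exact continuous_id.matrix_det
      · exact continuous_id.matrix_transpose
    exact h2
  · intro S hS i j
    exact entry_norm_bound_of_unitary (Matrix.mem_specialUnitaryGroup_iff.1 hS.1).1 i j

/-- conjugate groups have isomorphic eigenspaces -/
theorem rank_Eig_conj (g : SU3) (Γ : Subgroup (Equiv.Perm XX)) (μ : ℝ) :
    Module.rank ℂ (Eig (Γ.map (MulAut.conj (tau g)).toMonoidHom) μ) =
      Module.rank ℂ (Eig Γ μ) := by
  let e : (XX → ℂ) ≃ₗ[ℂ] (XX → ℂ) := LinearEquiv.funCongrLeft ℂ ℂ (tau g)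
  have he : ∀ f, e f = f ∘ tau g := fun f => rfl
  have key : (Eig (Γ.map (MulAut.conj (tau g)).toMonoidHom) μ).map e.toLinearMap = Eig Γ μ := by
    ext f
    constructor
    · rintro ⟨f', ⟨h1, h2⟩, rfl⟩
      refine ⟨?_, ?_⟩
      · exact tau_preserves g _ _ h1
      · intro γ hγ
        have h3 := h2 (tau g * γ * (tau g)⁻¹) ⟨γ, hγ, rfl⟩
        change (f' ∘ tau g) ∘ γ = f' ∘ tau g
        funext S
        have h4 := congrFun h3 (tau g S)
        simpa [Function.comp_apply, Equiv.Perm.mul_apply] using h4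
    · rintro ⟨h1, h2⟩
      refine ⟨f ∘ tau g⁻¹, ⟨?_, ?_⟩, ?_⟩
      · exact tau_preserves g⁻¹ _ _ h1
      · rintro _ ⟨γ, hγ, rfl⟩
        funext S
        have h4 := congrFun (h2 γ hγ) (tau g⁻¹ S)
        simp only [Function.comp_apply] at h4 ⊢
        rw [← h4]
        congr 1
        change tau g⁻¹ ((tau g * γ * (tau g)⁻¹) S) = _
        rw [tau_inv]
        simp [Equiv.Perm.mul_apply]
      · change (f ∘ tau g⁻¹) ∘ tau g = f
        funext S
        simp only [Function.comp_apply]
        congr 1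
        rw [tau_inv]
        simp
  exact (LinearEquiv.ofSubmodules e _ _ key).rank_eq

end Pool.Agent.Iso79
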