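import Pool.Agent.Iso79.Defs

/-! # The isometry `S ↦ S̄` -/

open Matrix Complex

noncomputable section

namespace Pool.Agent.Iso79

/-- complex conjugation `S ↦ S̄` as a permutation of `XX` -/
def sigma : Equiv.Perm XX where
  toFun S := ⟨S.1.map (starRingEnd ℂ), conj_mem S.2.1, by
    rw [← Matrix.transpose_map, S.2.2]⟩
  invFun S := ⟨S.1.map (starRingEnd ℂ), conj_mem S.2.1, by
    rw [← Matrix.transpose_map, S.2.2]⟩
  left_inv S := by
    apply Subtype.ext; ext i j; simp [Matrix.map_apply]
  right_inv S := by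
    apply Subtype.ext; ext i j; simp [Matrix.map_apply]

theorem sigma_apply (S : XX) : (sigma S).1 = S.1.map (starRingEnd ℂ) := rfl

end Pool.Agent.Iso79
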