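import Pool.Agent.Iso79.Basic
import Pool.Agent.Iso79.Sigma

/-!
# Finite groups of isometries acting freely

Theorem: they are conjugate (by some `tau g`) to `Gam q v1 v2` with admissible `(q, v1, v2)`.

Proof.
(a) For `A ∈ SU(3)`: `det (A - 1) = 0 ↔ tr A ∈ ℝ` (the characteristic polynomial is
`X³ - tr A X² + conj(tr A) X - 1`); if it holds, `A = g diag(1, λ, λ̄) g⁻¹` with `g ∈ SU(3)` and
`tau A` fixes `g S₀ gᵀ`, `S₀ = (-1) ⊕ [[0,1],[1,0]] ∈ XX`.  (`fixed_of_det`)
(b) No element `γ = tau h * sigma` of `Γ` is `≠ 1`: `γ² = tau (h h̄)`; `tr (h h̄)` is real since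
`conj (h h̄) = h̄ h`, so `γ²` has a fixed point, `γ² = 1`, `h h̄ = 1` (`tau_inj`), `h = hᵀ ∈ XX` and
`γ h = h h̄ hᵀ = h`; so `γ = 1`.  Hence every element of `Γ` is a `tau h`.
(c) Let `H = {h | tau h ∈ Γ}`, finite; for `1 ≠ h ∈ H`, `det (h - 1) ≠ 0`.
(d) Let `a, h ∈ H`, `b = h a h⁻¹` commute with `a`.  Then `b = a`: diagonalise `a`, `b`
simultaneously (commuting unitary matrices), `a = diag(α_i)`, `b = diag(β_i)` in an orthonormal
basis `e_i`, `{β_i} = {α_i}` as multisets.  If `b ≠ a`, `a b⁻¹ ≠ 1` has no eigenvalue `1`, so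
`α_i ≠ β_i` for all `i`; hence the `α_i` are distinct and `β` is a cyclic permutation of `α`;
`h` maps the eigenline of `a` for `α_i` to that of `b` for `α_i`, so `h` permutes the lines `ℂ e_i`
cyclically, the characteristic polynomial of `h` is `X³ - det h = X³ - 1`, `h` has the eigenvalue
`1`, `h = 1`, a contradiction.  By `comm_of_conj_eq`, `H` is commutative.
(e) A finite commutative group of unitary matrices is simultaneously diagonalisable by some
`g ∈ SU(3)`; `h ↦` its first diagonal entry is injective on `H` (no eigenvalue `1`), so `H` is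
cyclic of some order `q`, generated by `g diag(ζ^{v₁}, ζ^{v₂}, ζ^{v₃}) g⁻¹`, `ζ = e^{2πi/q}`,
and all `v_i` are prime to `q` (no eigenvalue `1` of the powers `h^k`, `0 < k < q`);
`v₁ + v₂ + v₃ ≡ 0 mod q`.  If `q` were even, the `v_i` would be odd, so would be their sum.
-/

open Matrix Complex

noncomputable section

namespace Pool.Agent.Iso79

/-- `det (A - 1)` of a `3 × 3` matrix -/
theorem det_sub_one (A : M3) :
    (A - 1).det = A.det - A.adjugate.trace + A.trace - 1 := by
  rw [det_fin_three, det_fin_three, adjugate_fin_three, trace_fin_three, trace_fin_three]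
  simp [Matrix.sub_apply]
  ring

theorem SU3_mul_star (A : SU3) : A.1 * star A.1 = 1 :=
  Matrix.mem_unitaryGroup_iff.1 (Matrix.mem_specialUnitaryGroup_iff.1 A.2).1

theorem SU3_star_mul (A : SU3) : star A.1 * A.1 = 1 := mul_eq_one_comm.1 (SU3_mul_star A)

theorem SU3_det (A : SU3) : A.1.det = 1 := (Matrix.mem_specialUnitaryGroup_iff.1 A.2).2

theorem SU3_adjugate (A : SU3) : A.1.adjugate = star A.1 := by
  calc A.1.adjugate = A.1.adjugate * (A.1 * star A.1) := by
        rw [SU3_mul_star, Matrix.mul_one]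
    _ = star A.1 := by
        rw [← Matrix.mul_assoc, adjugate_mul, SU3_det, one_smul, Matrix.one_mul]

theorem det_sub_one_SU3 (A : SU3) : (A.1 - 1).det = A.1.trace - starRingEnd ℂ A.1.trace := by
  rw [det_sub_one, SU3_adjugate, SU3_det]
  have h1 : (star A.1).trace = starRingEnd ℂ A.1.trace := by
    rw [star_eq_conjTranspose, trace_conjTranspose]; rfl
  rw [h1]; ring

theorem det_iff_trace_real (A : SU3) : (A.1 - 1).det = 0 ↔ (A.1.trace).im = 0 := by
  rw [det_sub_one_SU3, sub_eq_zero, eq_comm, Complex.conj_eq_iff_im]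

/-- completion of a unit vector to a special unitary matrix -/
theorem exists_first_col (v : Fin 3 → ℂ) (hv : ∑ i, starRingEnd ℂ (v i) * v i = 1) :
    ∃ g : SU3, ∀ i, g.1 i 0 = v i := by
  classical
  set w : EuclideanSpace ℂ (Fin 3) := WithLp.toLp 2 v with hw
  have hw1 : inner ℂ w w = (1 : ℂ) := by
    rw [PiLp.inner_apply, ← hv]
    refine Finset.sum_congr rfl fun i _ => ?_
    simp [hw, mul_comm, Complex.mul_conj']
  have hw2 : ‖w‖ = 1 := by
    have h1 : ((‖w‖ : ℂ)) ^ 2 = 1 := by rw [← hw1, inner_self_eq_norm_sq_to_K]; rfl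
    have h2 : ‖w‖ ^ 2 = 1 := by exact_mod_cast h1
    nlinarith [norm_nonneg w]
  have hon : Orthonormal ℂ (Set.domRestrict ({0} : Set (Fin 3)) fun _ : Fin 3 => w) := by
    constructor
    · intro i; exact hw2
    · intro i j hij
      exact absurd (Subtype.ext (i.2.trans j.2.symm)) hij
  obtain ⟨b, hb⟩ := hon.exists_orthonormalBasis_extension_of_card_eq (by simp)
  have hb0 : b 0 = w := hb 0 rfl
  let M : M3 := Matrix.of fun i j => b j i
  have hM : star M * M = 1 := by
    ext i j
    rw [Matrix.mul_apply]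
    have h1 := b.inner_eq_ite i j
    rw [PiLp.inner_apply] at h1
    rw [Matrix.one_apply, ← h1]
    refine Finset.sum_congr rfl fun k _ => ?_
    simp [M, Matrix.star_apply, mul_comm]
  have hd : star M.det * M.det = 1 := by
    have := congrArg Matrix.det hM
    rw [det_mul, det_one, star_eq_conjTranspose, det_conjTranspose] at this
    exact this
  let D : M3 := Matrix.diagonal ![1, 1, star M.det]
  have hD : star D * D = 1 := by
    rw [star_eq_conjTranspose, diagonal_conjTranspose, diagonal_mul_diagonal, ← diagonal_one]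
    congr 1
    ext i
    fin_cases i
    · simp
    · simp
    · simp only [Pi.star_apply]
      change star (star M.det) * star M.det = 1
      rw [star_star, mul_comm, hd]
  have hDd : D.det = star M.det := by
    rw [det_diagonal, Fin.prod_univ_three]
    simp
  refine ⟨⟨M * D, ?_⟩, ?_⟩
  · rw [Matrix.mem_specialUnitaryGroup_iff]
    constructor
    · rw [Matrix.mem_unitaryGroup_iff']
      rw [star_mul]
      calc star D * star M * (M * D) = star D * (star M * M) * D := by
            simp only [Matrix.mul_assoc]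
        _ = 1 := by rw [hM, Matrix.mul_one, hD]
    · rw [det_mul, hDd, mul_comm, hd]
  · intro i
    change (M * D) i 0 = v i
    rw [mul_diagonal]
    change b 0 i * 1 = v i
    rw [hb0, mul_one]

/-- the shape of an element of `SU(3)` fixing `e₀` -/
theorem block_shape (C : SU3) (h : ∀ i, C.1 i 0 = (1 : M3) i 0) :
    C.1 = !![1, 0, 0; 0, C.1 1 1, C.1 1 2; 0, - starRingEnd ℂ (C.1 1 2), starRingEnd ℂ (C.1 1 1)] := by
  have h00 : C.1 0 0 = 1 := by rw [h 0]; simp
  have h10 : C.1 1 0 = 0 := by rw [h 1]; simp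
  have h20 : C.1 2 0 = 0 := by rw [h 2]; simp
  -- first row
  have hr := congrFun (congrFun (SU3_mul_star C) 0) 0
  rw [Matrix.mul_apply, Fin.sum_univ_three] at hr
  simp only [Matrix.star_apply, h00, Matrix.one_apply_eq] at hr
  have hr2 : C.1 0 1 * starRingEnd ℂ (C.1 0 1) + C.1 0 2 * starRingEnd ℂ (C.1 0 2) = 0 := by
    have h1 : (1 : ℂ) * star 1 = 1 := by simp
    rw [h1] at hr
    have h2 : C.1 0 1 * star (C.1 0 1) + C.1 0 2 * star (C.1 0 2) = 0 := by
      linear_combination hr
    exact h2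
  rw [Complex.mul_conj, Complex.mul_conj] at hr2
  have hr3 : normSq (C.1 0 1) + normSq (C.1 0 2) = 0 := by exact_mod_cast hr2
  have h01 : C.1 0 1 = 0 := by
    rw [← Complex.normSq_eq_zero]
    linarith [normSq_nonneg (C.1 0 1), normSq_nonneg (C.1 0 2)]
  have h02 : C.1 0 2 = 0 := by
    rw [← Complex.normSq_eq_zero]
    linarith [normSq_nonneg (C.1 0 1), normSq_nonneg (C.1 0 2)]
  have ha := SU3_adjugate C
  rw [adjugate_fin_three] at ha
  have h22 : C.1 2 2 = starRingEnd ℂ (C.1 1 1) := by
    have h1 := congrFun (congrFun ha 1) 1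
    simp only [Matrix.star_apply, h00, h02, h20] at h1
    have h2 : C.1 2 2 = star (C.1 1 1) := by
      rw [← h1]; simp
    exact h2
  have h21 : C.1 2 1 = - starRingEnd ℂ (C.1 1 2) := by
    have h1 := congrFun (congrFun ha 2) 1
    simp only [Matrix.star_apply, h00, h01, h20] at h1
    have h2 : C.1 2 1 = - star (C.1 1 2) := by
      rw [← h1]; simp
    exact h2
  ext i j
  fin_cases i <;> fin_cases j <;> simp [h00, h10, h20, h01, h02, h22, h21]

/-- the fixed point in the case where `1` is an eigenvalue with eigenvector `e₀` -/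
theorem fixed_of_block (C : SU3) (h : ∀ i, C.1 i 0 = (1 : M3) i 0) : ∃ S : XX, tau C S = S := by
  have hC := block_shape C h
  generalize C.1 1 1 = a at hC
  generalize C.1 1 2 = b at hC
  have hdet : a * starRingEnd ℂ a + b * starRingEnd ℂ b = 1 := by
    have h1 := SU3_det C
    rw [hC, det_fin_three] at h1
    simp at h1
    linear_combination h1
  set t : ℂ := (a - starRingEnd ℂ a) / 2 with ht
  have htc : starRingEnd ℂ t = - t := by
    rw [ht, map_div₀, map_sub, Complex.conj_conj]
    have h2 : starRingEnd ℂ (2 : ℂ) = 2 := Complex.conj_ofNat 2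
    rw [h2]; ring
  have ht2 : t ^ 2 = - ((a.im ^ 2 : ℝ) : ℂ) := by
    have h1 : t = a.im * I := by
      rw [ht]
      apply Complex.ext <;> simp
    rw [h1, mul_pow, I_sq]; push_cast; ring
  have hta : a - starRingEnd ℂ a = 2 * t := by rw [ht]; ring
  by_cases hr : normSq b + a.im ^ 2 = 0
  · have hb : b = 0 := by
      rw [← Complex.normSq_eq_zero]
      nlinarith [normSq_nonneg b, sq_nonneg a.im]
    have hy : a.im = 0 := by
      have : a.im ^ 2 = 0 := by nlinarith [normSq_nonneg b, sq_nonneg a.im]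
      exact pow_eq_zero_iff (two_ne_zero) |>.1 this
    have ha : starRingEnd ℂ a = a := Complex.conj_eq_iff_im.2 hy
    rw [ha, hb] at hdet
    simp only [map_zero, mul_zero, add_zero] at hdet
    refine ⟨⟨1, one_mem _, transpose_one⟩, Subtype.ext ?_⟩
    change C.1 * 1 * C.1ᵀ = 1
    rw [Matrix.mul_one, hC, ha, hb]
    ext i j
    rw [Matrix.mul_apply, Fin.sum_univ_three]
    fin_cases i <;> fin_cases j <;> simp [hdet]
  · have hpos : 0 < normSq b + a.im ^ 2 := by
      have h1 := normSq_nonneg b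
      have h2 := sq_nonneg a.im
      rcases lt_or_eq_of_le (add_nonneg h1 h2) with h3 | h3
      · exact h3
      · exact absurd h3.symm hr
    set c : ℂ := (((Real.sqrt (normSq b + a.im ^ 2))⁻¹ : ℝ) : ℂ) with hc
    have hcc : starRingEnd ℂ c = c := Complex.conj_ofReal _
    have hc2 : c ^ 2 * (b * starRingEnd ℂ b - t ^ 2) = 1 := by
      rw [ht2, Complex.mul_conj, hc]
      have h1 : ((Real.sqrt (normSq b + a.im ^ 2))⁻¹) ^ 2 * (normSq b + a.im ^ 2) = 1 := by
        rw [inv_pow, Real.sq_sqrt hpos.le, inv_mul_cancel₀ hpos.ne']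
      have h2 : ((((Real.sqrt (normSq b + a.im ^ 2))⁻¹) ^ 2 * (normSq b + a.im ^ 2) : ℝ) : ℂ) = 1 := by
        rw [h1]; simp
      rw [← h2]; push_cast; ring
    clear_value c t
    let S : M3 := !![1, 0, 0; 0, - (c * b), c * t; 0, c * t, - (c * starRingEnd ℂ b)]
    have hS : S = !![1, 0, 0; 0, - (c * b), c * t; 0, c * t, - (c * starRingEnd ℂ b)] := rfl
    have hSs : star S = !![1, 0, 0; 0, - (c * starRingEnd ℂ b), - (c * t);
        0, - (c * t), - (c * b)] := by
      ext i j
      rw [Matrix.star_apply]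
      change starRingEnd ℂ (S j i) = _
      fin_cases i <;> fin_cases j <;> simp [hS, hcc, htc]
    have hSt : Sᵀ = S := by
      ext i j
      fin_cases i <;> fin_cases j <;> rfl
    have hSu : S * star S = 1 := by
      rw [hSs, hS]
      ext i j
      rw [Matrix.mul_apply, Fin.sum_univ_three]
      fin_cases i <;> fin_cases j <;> simp
      · linear_combination hc2
      · ring
      · ring
      · linear_combination hc2
    have hSd : S.det = 1 := by
      rw [hS, det_fin_three]
      simp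
      linear_combination hc2
    have hSm : S ∈ specialUnitaryGroup (Fin 3) ℂ := by
      rw [mem_specialUnitaryGroup_iff, mem_unitaryGroup_iff]
      exact ⟨hSu, hSd⟩
    refine ⟨⟨S, hSm, hSt⟩, Subtype.ext ?_⟩
    change C.1 * S * C.1ᵀ = S
    have hCt : C.1ᵀ = !![1, 0, 0; 0, a, - starRingEnd ℂ b; 0, b, starRingEnd ℂ a] := by
      rw [hC]
      ext i j
      fin_cases i <;> fin_cases j <;> rfl
    have hCS : C.1 * S = !![1, 0, 0; 0, c * (- (a * b) + t * b), c * (t * a - b * starRingEnd ℂ b);
        0, c * (b * starRingEnd ℂ b + t * starRingEnd ℂ a),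
        c * (- (t * starRingEnd ℂ b) - starRingEnd ℂ a * starRingEnd ℂ b)] := by
      rw [hC, hS]
      ext i j
      rw [Matrix.mul_apply, Fin.sum_univ_three]
      fin_cases i <;> fin_cases j <;> simp <;> ring
    rw [hCS, hCt, hS]
    ext i j
    rw [Matrix.mul_apply, Fin.sum_univ_three]
    fin_cases i <;> fin_cases j <;> simp
    · linear_combination (- c * b * a) * hta - c * b * hdet
    · linear_combination c * b * starRingEnd ℂ b * hta + c * t * hdet
    · linear_combination c * b * starRingEnd ℂ b * hta + c * t * hdet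
    · linear_combination c * starRingEnd ℂ b * starRingEnd ℂ a * hta - c * starRingEnd ℂ b * hdet


theorem fixed_of_det {A : SU3} (h : (A.1 - 1).det = 0) : ∃ S : XX, tau A S = S := by
  obtain ⟨v, hv0, hv⟩ := (Matrix.exists_mulVec_eq_zero_iff (M := A.1 - 1)).2 h
  have hAv : A.1 *ᵥ v = v := by
    rw [Matrix.sub_mulVec, Matrix.one_mulVec, sub_eq_zero] at hv
    exact hv
  -- normalisation
  set n : ℝ := ∑ i, normSq (v i) with hn
  have hnpos : 0 < n := by
    obtain ⟨i, hi⟩ := Function.ne_iff.1 hv0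
    refine Finset.sum_pos' (fun j _ => normSq_nonneg _) ⟨i, Finset.mem_univ _, ?_⟩
    exact normSq_pos.2 hi
  set c : ℂ := (((Real.sqrt n)⁻¹ : ℝ) : ℂ) with hc
  have hcc : starRingEnd ℂ c = c := Complex.conj_ofReal _
  have hc2 : c ^ 2 * (n : ℂ) = 1 := by
    rw [hc]
    have h1 : ((Real.sqrt n)⁻¹) ^ 2 * n = 1 := by
      rw [inv_pow, Real.sq_sqrt hnpos.le, inv_mul_cancel₀ hnpos.ne']
    exact_mod_cast h1
  obtain ⟨g, hg⟩ := exists_first_col (fun i => c * v i) (by
    have h1 : ∀ i, starRingEnd ℂ (c * v i) * (c * v i) = c ^ 2 * ((normSq (v i) : ℝ) : ℂ) := by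
      intro i
      rw [map_mul, hcc, ← Complex.mul_conj]; ring
    rw [Finset.sum_congr rfl fun i _ => h1 i, ← Finset.mul_sum, ← Complex.ofReal_sum, ← hn, hc2])
  have hgcol : ∀ i, (A.1 * g.1) i 0 = g.1 i 0 := by
    intro i
    rw [Matrix.mul_apply]
    have h1 := congrFun hAv i
    rw [Matrix.mulVec, dotProduct] at h1
    calc ∑ j, A.1 i j * g.1 j 0 = ∑ j, A.1 i j * (c * v j) :=
          Finset.sum_congr rfl fun j _ => by rw [hg j]
      _ = c * ∑ j, A.1 i j * v j := by
          rw [Finset.mul_sum]; exact Finset.sum_congr rfl fun j _ => by ring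
      _ = g.1 i 0 := by rw [h1, hg i]
  obtain ⟨S, hS⟩ := fixed_of_block (g⁻¹ * A * g) (by
    intro i
    have h2 : (g⁻¹ * A * g : SU3).1 = star g.1 * (A.1 * g.1) := by
      change star g.1 * A.1 * g.1 = _
      rw [Matrix.mul_assoc]
    rw [h2, ← SU3_star_mul g, Matrix.mul_apply, Matrix.mul_apply]
    exact Finset.sum_congr rfl fun j _ => by rw [hgcol j])
  refine ⟨tau g S, ?_⟩
  have h3 : A * g = g * (g⁻¹ * A * g) := by group
  calc tau A (tau g S) = tau (A * g) S := by rw [tau_mul]; rfl
    _ = tau g (tau (g⁻¹ * A * g) S) := by rw [h3, tau_mul]; rfl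
    _ = tau g S := by rw [hS]

/-- the complex conjugate of an element of `SU(3)` -/
def conjSU (g : SU3) : SU3 := ⟨g.1.map (starRingEnd ℂ), conj_mem g.2⟩

theorem sigma_tau (g : SU3) : sigma * tau g = tau (conjSU g) * sigma := by
  ext S : 1
  apply Subtype.ext
  change (g.1 * S.1 * g.1ᵀ).map (starRingEnd ℂ) =
    g.1.map (starRingEnd ℂ) * S.1.map (starRingEnd ℂ) * (g.1.map (starRingEnd ℂ))ᵀ
  rw [Matrix.map_mul, Matrix.map_mul, Matrix.transpose_map]

theorem sigma_sq : sigma * sigma = 1 := by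
  ext S : 1
  exact sigma.left_inv S

/-- (b) -/
theorem all_tau {Γ : Subgroup (Equiv.Perm XX)} (h1 : ∀ γ ∈ Γ, ∃ g : SU3, γ = tau g ∨
    γ = tau g * sigma) (h2 : ActsFreely Γ) : ∀ γ ∈ Γ, ∃ g : SU3, γ = tau g := by
  intro γ hγ
  obtain ⟨h, rfl | hh⟩ := h1 γ hγ
  · exact ⟨h, rfl⟩
  · have e1 : γ * γ = tau (h * conjSU h) := by
      calc γ * γ = tau h * (sigma * tau h) * sigma := by rw [hh]; simp only [mul_assoc]
        _ = tau h * tau (conjSU h) * (sigma * sigma) := by rw [sigma_tau]; simp only [mul_assoc]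
        _ = tau (h * conjSU h) := by rw [sigma_sq, mul_one, tau_mul]
    have e2 : ((h * conjSU h : SU3).1.trace).im = 0 := by
      rw [← Complex.conj_eq_iff_im]
      change starRingEnd ℂ (trace (h.1 * h.1.map (starRingEnd ℂ))) =
        trace (h.1 * h.1.map (starRingEnd ℂ))
      have h3 : starRingEnd ℂ (trace (h.1 * h.1.map (starRingEnd ℂ))) =
          trace ((h.1 * h.1.map (starRingEnd ℂ)).map (starRingEnd ℂ)) := by
        rw [Matrix.trace, Matrix.trace, map_sum]; rfl
      rw [h3, Matrix.map_mul, Matrix.map_map]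
      have h4 : h.1.map (⇑(starRingEnd ℂ) ∘ ⇑(starRingEnd ℂ)) = h.1 := by
        ext i j; simp
      rw [h4, Matrix.trace_mul_comm]
    obtain ⟨S, hS⟩ := fixed_of_det ((det_iff_trace_real _).2 e2)
    have e3 : γ * γ = 1 := by
      by_contra hne
      exact h2 (γ * γ) (mul_mem hγ hγ) hne S (by rw [e1]; exact hS)
    have e4 : h * conjSU h = 1 := tau_inj (by rw [← e1, e3, tau_one])
    have e5 : h.1 * h.1.map (starRingEnd ℂ) = 1 := congrArg Subtype.val e4
    have e6 : h.1.map (starRingEnd ℂ) = star h.1 := by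
      calc h.1.map (starRingEnd ℂ) = star h.1 * (h.1 * h.1.map (starRingEnd ℂ)) := by
            rw [← Matrix.mul_assoc, SU3_star_mul, Matrix.one_mul]
        _ = star h.1 := by rw [e5, Matrix.mul_one]
    have e7 : h.1ᵀ = h.1 := by
      ext i j
      have h5 := congrFun (congrFun e6 i) j
      rw [Matrix.map_apply, Matrix.star_apply] at h5
      have h6 := congrArg (starRingEnd ℂ) h5
      simp only [Complex.conj_conj] at h6
      rw [transpose_apply, h6]
      exact (Complex.conj_conj _).symm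
    have e8 : γ ⟨h.1, h.2, e7⟩ = ⟨h.1, h.2, e7⟩ := by
      rw [hh]
      apply Subtype.ext
      change h.1 * h.1.map (starRingEnd ℂ) * h.1ᵀ = h.1
      rw [e5, e7, Matrix.one_mul]
    refine ⟨1, ?_⟩
    by_contra hne
    rw [tau_one] at hne
    exact h2 γ hγ hne _ e8

end Pool.Agent.Iso79
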