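import Mathlib

/-!
# A commutativity criterion for finite groups

Theorem: a finite group in which every element commuting with one of its conjugates is equal to it
is commutative.

Proof.  Strong induction on the order; the property passes to subgroups.
* `p`-groups: if `G` is a nontrivial non-commutative `p`-group, `G / Z(G)` is a nontrivial `p`-group,
  so it has a nontrivial centre: there is `a ∉ Z(G)` with `[a, h] ∈ Z(G)` for all `h`; then
  `h a h⁻¹` commutes with `a`, so `h a h⁻¹ = a` for all `h`, a contradiction.
* General case: let `p` be a prime divisor of `|G|`, `S` a Sylow `p`-subgroup, `S ≠ G`.  `S` is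
  commutative by induction; if `h` normalises `S` and `a ∈ S` then `h a h⁻¹ ∈ S` commutes with `a`,
  so `N(S) ≤ C(S)`.  By Burnside's transfer theorem
  (`MonoidHom.ker_transferSylow_isComplement'`) there is a normal complement `K` of `S`;
  `K ≠ G` is commutative by induction, and a commutative normal subgroup is central (`h a h⁻¹ ∈ K`
  commutes with `a`).  So `G = K S` is commutative.
-/

namespace Pool.Agent.Iso79

/-- The property passes to subgroups. -/
theorem prop_subgroup {G : Type*} [Group G]
    (H : ∀ a h : G, Commute a (h * a * h⁻¹) → h * a * h⁻¹ = a) (K : Subgroup G)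
    (a h : K) (hc : Commute a (h * a * h⁻¹)) : h * a * h⁻¹ = a := by
  apply Subtype.ext
  have := H (a : G) (h : G) (by
    have := congrArg (fun x : K => (x : G)) hc.eq
    simpa [Commute, SemiconjBy, mul_assoc] using this)
  simpa using this

/-- The case of `p`-groups. -/
theorem comm_pgroup {G : Type*} [Group G] [Finite G] {p : ℕ} [Fact p.Prime] (hG : IsPGroup p G)
    (H : ∀ a h : G, Commute a (h * a * h⁻¹) → h * a * h⁻¹ = a) (a b : G) : a * b = b * a := by
  by_contra hab
  have hcen : Subgroup.center G ≠ ⊤ := by
    intro h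
    have : a ∈ Subgroup.center G := by rw [h]; trivial
    exact hab (Subgroup.mem_center_iff.1 this b).symm
  have hnt : Nontrivial (G ⧸ Subgroup.center G) := by
    rw [← not_subsingleton_iff_nontrivial]
    intro hs
    exact hcen (QuotientGroup.subsingleton_iff.1 hs)
  have hpq : IsPGroup p (G ⧸ Subgroup.center G) := hG.to_quotient _
  have hnc := hpq.center_nontrivial
  obtain ⟨x, hx⟩ := exists_ne (1 : Subgroup.center (G ⧸ Subgroup.center G))
  obtain ⟨y, hy⟩ := QuotientGroup.mk_surjective (x : G ⧸ Subgroup.center G)
  have hyc : y ∉ Subgroup.center G := by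
    intro h
    apply hx
    apply Subtype.ext
    rw [← hy]
    simpa using h
  apply hyc
  rw [Subgroup.mem_center_iff]
  intro h
  have h1 : (h * y * h⁻¹) * y⁻¹ ∈ Subgroup.center G := by
    rw [← QuotientGroup.eq_one_iff]
    have h2 := Subgroup.mem_center_iff.1 x.2 (h : G ⧸ Subgroup.center G)
    rw [← hy] at h2
    rw [QuotientGroup.mk_mul, QuotientGroup.mk_mul, QuotientGroup.mk_mul, QuotientGroup.mk_inv,
      QuotientGroup.mk_inv, h2]
    group
  have h3 : Commute y (h * y * h⁻¹) := by
    have h4 := Subgroup.mem_center_iff.1 h1 y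
    have h5 : h * y * h⁻¹ = (h * y * h⁻¹ * y⁻¹) * y := by group
    rw [h5]
    unfold Commute SemiconjBy
    rw [← mul_assoc, h4]
  have h6 := H y h h3
  calc h * y = (h * y * h⁻¹) * h := by group
    _ = y * h := by rw [h6]

theorem comm_aux (n : ℕ) : ∀ (G : Type*) [Group G] [Finite G], Nat.card G = n →
    (∀ a h : G, Commute a (h * a * h⁻¹) → h * a * h⁻¹ = a) → ∀ a b : G, a * b = b * a := by
  induction n using Nat.strong_induction_on with
  | _ n ih =>
  intro G _ _ hn H
  have hsub : ∀ K : Subgroup G, K ≠ ⊤ → ∀ x ∈ K, ∀ y ∈ K, x * y = y * x := by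
    intro K hK x hx y hy
    have hlt : Nat.card K < n := by
      rw [← hn]
      have h1 : Nat.card K ≤ Nat.card G := Subgroup.card_le_card_group K
      refine lt_of_le_of_ne h1 fun h => hK (Subgroup.eq_top_of_card_eq K h)
    have := ih _ hlt K rfl (prop_subgroup H K) ⟨x, hx⟩ ⟨y, hy⟩
    exact congrArg Subtype.val this
  by_cases h1 : n = 1
  · intro a b
    have : Subsingleton G := (Nat.card_eq_one_iff_unique.1 (hn.trans h1)).1
    exact Subsingleton.elim _ _
  have hp : n.minFac.Prime := Nat.minFac_prime h1
  set p := n.minFac with hpdef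
  have : Fact p.Prime := ⟨hp⟩
  obtain ⟨S⟩ : Nonempty (Sylow p G) := inferInstance
  by_cases hS : (S : Subgroup G) = ⊤
  · have hG : IsPGroup p G := by
      have h2 := S.isPGroup'
      rw [hS] at h2
      exact h2.of_equiv Subgroup.topEquiv
    exact comm_pgroup hG H
  · have hSc := hsub S hS
    have hN : Subgroup.normalizer (S : Set G) ≤ Subgroup.centralizer (S : Set G) := by
      intro h hh
      rw [Subgroup.mem_centralizer_iff]
      intro a ha
      have h3 : h * a * h⁻¹ ∈ (S : Subgroup G) := (Subgroup.mem_normalizer_iff.1 hh a).1 ha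
      have h4 : h * a * h⁻¹ = a := H a h (hSc a ha _ h3)
      calc a * h = (h * a * h⁻¹) * h := by rw [h4]
        _ = h * a := by group
    have hcompl := MonoidHom.ker_transferSylow_isComplement' S hN
    have hnd := MonoidHom.not_dvd_card_ker_transferSylow S hN
    set K := (MonoidHom.transferSylow S hN).ker with hKdef
    have hK : K ≠ ⊤ := by
      intro h
      apply hnd
      rw [h, Subgroup.card_top, hn]
      exact Nat.minFac_dvd n
    have hKc := hsub K hK
    have hKn : K.Normal := by rw [hKdef]; infer_instance
    have hKz : ∀ k ∈ K, ∀ g : G, g * k = k * g := by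
      intro k hk g
      have h3 : g * k * g⁻¹ ∈ K := hKn.conj_mem k hk g
      have h4 : g * k * g⁻¹ = k := H k g (hKc k hk _ h3)
      calc g * k = (g * k * g⁻¹) * g := by group
        _ = k * g := by rw [h4]
    intro a b
    have hsurj : ∀ g : G, ∃ k ∈ K, ∃ s ∈ (S : Subgroup G), k * s = g := by
      intro g
      obtain ⟨⟨k, s⟩, hks, _⟩ := hcompl.existsUnique g
      exact ⟨k, k.2, s, s.2, hks⟩
    obtain ⟨k, hk, s, hs, rfl⟩ := hsurj a
    obtain ⟨l, hl, t, ht, rfl⟩ := hsurj b
    calc k * s * (l * t) = k * (s * l) * t := by group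
      _ = k * (l * s) * t := by rw [hKz l hl s]
      _ = k * l * (s * t) := by group
      _ = l * k * (t * s) := by rw [hKz l hl k, hSc s hs t ht]
      _ = l * (k * t) * s := by group
      _ = l * (t * k) * s := by rw [hKz k hk t]
      _ = l * t * (k * s) := by group

theorem comm_of_conj_eq {G : Type*} [Group G] [Finite G]
    (H : ∀ a h : G, Commute a (h * a * h⁻¹) → h * a * h⁻¹ = a) (a b : G) : a * b = b * a :=
  comm_aux (Nat.card G) G rfl H a b

end Pool.Agent.Iso79
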