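import Mathlib

/-!
# Definitions for the number theoretic part

Points of the plane `θ₁ + θ₂ + θ₃ = 0` are given by `(x, y) = (θ₁, θ₂)`; integral vectors
`v = (v₁, v₂, v₃)` with sum `0` by `(v1, v2)`.  The root values of `(v1, v2)` are
`v1 - v2`, `v1 + 2 v2`, `2 v1 + v2`.
-/

open Complex

noncomputable section

namespace Pool.Agent.Iso79

/-- `exp (i u)` -/
def ee (u : ℝ) : ℂ := exp (I * u)

/-- the numerator of the Weyl character formula, `∑_w ε(w) e^{i ⟨w(mω₁ + nω₂), θ⟩}` -/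
def alt (m n : ℤ) (x y : ℝ) : ℂ :=
  ee ((m + n) * x + n * y) - ee (n * x + (m + n) * y) - ee (m * x - n * y)
    + ee (-(m * x) - (m + n) * y) + ee (-(n * x) + m * y) - ee (-((m + n) * x) - m * y)

/-- the pairs of odd positive `(m, n)` with `m² + m n + n² = N` -/
def shell (N : ℕ) : Finset (ℕ × ℕ) :=
  (Finset.range (N + 1) ×ˢ Finset.range (N + 1)).filter fun p =>
    Odd p.1 ∧ Odd p.2 ∧ p.1 ^ 2 + p.1 * p.2 + p.2 ^ 2 = N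

/-- `∑_{(m,n) ∈ shell N} alt m n` -/
def FF (N : ℕ) (x y : ℝ) : ℂ := ∑ p ∈ shell N, alt p.1 p.2 x y

/-- the points `θ_j = 2π j v / q` -/
def tj (q : ℕ) (v : ℤ) (j : ℕ) : ℝ := 2 * Real.pi * (j * v) / q

/-- the properties of the traces `χ N` of `SU(3)` on the eigenspaces which are used -/
structure IsChi (χ : ℕ → ℝ → ℝ → ℂ) : Prop where
  cont : ∀ N, Continuous fun p : ℝ × ℝ => χ N p.1 p.2
  rel : ∀ N x y, alt 1 1 x y * χ N x y = FF N x y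

/-- admissible data: `q` odd, `v₁, v₂, v₃` prime to `q` -/
structure Adm (q : ℕ) (v1 v2 : ℤ) : Prop where
  pos : 0 < q
  odd : Odd q
  c1 : IsCoprime v1 (q : ℤ)
  c2 : IsCoprime v2 (q : ℤ)
  c3 : IsCoprime (v1 + v2) (q : ℤ)

/-- the six permutations of `(v₁, v₂, v₃)` (first two coordinates); `0, 3, 4` are cyclic -/
def pm (i : Fin 6) (v1 v2 : ℤ) : ℤ × ℤ :=
  ![(v1, v2), (v2, v1), (v1, -v1 - v2), (-v1 - v2, v1), (v2, -v1 - v2), (-v1 - v2, v2)] i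

/-- `w` is a multiple of a permutation of `v` modulo `q` -/
def Equiv3 (q : ℕ) (v1 v2 w1 w2 : ℤ) : Prop :=
  ∃ u : ℤ, ∃ i : Fin 6, (q : ℤ) ∣ w1 - u * (pm i v1 v2).1 ∧ (q : ℤ) ∣ w2 - u * (pm i v1 v2).2

/-- the trace sum over the cyclic group -/
def Tsum (χ : ℕ → ℝ → ℝ → ℂ) (q : ℕ) (v1 v2 : ℤ) (N : ℕ) : ℂ :=
  ∑ j ∈ Finset.range q, χ N (tj q v1 j) (tj q v2 j)

/-- number of roots `α` with `q ∣ j α(v)` (`0`, `1` or `3`) -/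
def ordj (q : ℕ) (v1 v2 : ℤ) (j : ℕ) : ℕ :=
  (if (q : ℤ) ∣ j * (v1 - v2) then 1 else 0) + (if (q : ℤ) ∣ j * (v1 + 2 * v2) then 1 else 0)
    + (if (q : ℤ) ∣ j * (2 * v1 + v2) then 1 else 0)

/-- the part of the trace sum over the `j` with `ordj = o` -/
def Tpart (χ : ℕ → ℝ → ℝ → ℂ) (q : ℕ) (v1 v2 : ℤ) (o N : ℕ) : ℂ :=
  ∑ j ∈ (Finset.range q).filter (fun j => ordj q v1 v2 j = o), χ N (tj q v1 j) (tj q v2 j)

/-- the information on walls: for `e ∣ q`, `e ∤ 3`, some root value of `v` is divisible by `e` iff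
some root value of `w` is -/
def SameWalls (q : ℕ) (v1 v2 w1 w2 : ℤ) : Prop :=
  ∀ e : ℕ, e ∣ q → ¬ e ∣ 3 →
    (((e : ℤ) ∣ v1 - v2 ∨ (e : ℤ) ∣ v1 + 2 * v2 ∨ (e : ℤ) ∣ 2 * v1 + v2) ↔
      ((e : ℤ) ∣ w1 - w2 ∨ (e : ℤ) ∣ w1 + 2 * w2 ∨ (e : ℤ) ∣ 2 * w1 + w2))

/-! ### The lattice `Λ = ℤ v + q A₂` and the amplitudes -/

/-- membership of `(y1, y2)` in `Λ = ℤ v + q A₂` -/
def inLat (q : ℕ) (v1 v2 : ℤ) (y1 y2 : ℤ) : Prop := (q : ℤ) ∣ v1 * y2 - v2 * y1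

/-- half of the squared norm of `(y1, y2, -y1-y2)` -/
def Nf (y1 y2 : ℤ) : ℤ := y1 ^ 2 + y1 * y2 + y2 ^ 2

/-- no root value is divisible by `q` -/
def Regu (q : ℕ) (y1 y2 : ℤ) : Prop :=
  ¬ (q : ℤ) ∣ y1 - y2 ∧ ¬ (q : ℤ) ∣ y1 + 2 * y2 ∧ ¬ (q : ℤ) ∣ 2 * y1 + y2

/-- trigonometric factor -/
def trg (q : ℕ) (d : ℤ) : ℝ :=
  if Even d then (Int.sign d : ℝ) * Real.sin (Real.pi * d / (2 * q))
  else Real.cos (Real.pi * d / (2 * q))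

/-- amplitude of a lattice vector -/
def Bt (q : ℕ) (y1 y2 : ℤ) : ℝ :=
  (if Even y1 ∧ Even y2 then 1 else -1) / (trg q (y1 - y2) * trg q (y1 + 2 * y2) *
    trg q (2 * y1 + y2))

/-- the vectors `(y1, y2)` with `Nf = k` -/
def boxN (k : ℕ) : Finset (ℤ × ℤ) :=
  (Finset.Icc (-(2 * k : ℤ)) (2 * k) ×ˢ Finset.Icc (-(2 * k : ℤ)) (2 * k)).filter
    fun y => Nf y.1 y.2 = k

open scoped Classical in
/-- the shell sums -/
def SL (q : ℕ) (v1 v2 : ℤ) (k : ℕ) : ℝ :=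
  ∑ y ∈ (boxN k).filter (fun y => inLat q v1 v2 y.1 y.2 ∧ Regu q y.1 y.2), Bt q y.1 y.2

end Pool.Agent.Iso79
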