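import Pool.Agent.Iso79.Inj
import Pool.Agent.Iso79.NTDefs
import Pool.Agent.Iso79.Grp
import Pool.Agent.Iso79.ClassA

/-! # Finite subgroups of `SU(3)` without eigenvalue `1`: (c), (d), (e) of `ClassA.lean` -/

open Matrix Complex

noncomputable section

namespace Pool.Agent.Iso79

open scoped InnerProductSpace in
/-- an operator preserving the inner product has an orthonormal eigenbasis -/
theorem exists_eigen_onb (n : ℕ) : ∀ (E : Type) [NormedAddCommGroup E] [InnerProductSpace ℂ E]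
    [FiniteDimensional ℂ E] (_ : Module.finrank ℂ E = n) (T : E →ₗ[ℂ] E)
    (_ : ∀ x y, ⟪T x, T y⟫_ℂ = ⟪x, y⟫_ℂ),
    ∃ (b : Fin n → E) (l : Fin n → ℂ), Orthonormal ℂ b ∧ ∀ i, T (b i) = l i • b i := by
  induction n with
  | zero =>
    intro E _ _ _ _ T _
    exact ⟨Fin.elim0, Fin.elim0, ⟨fun i => i.elim0, fun i => i.elim0⟩, fun i => i.elim0⟩
  | succ n ih =>
    intro E _ _ _ hn T hT
    have hnt : Nontrivial E := Module.nontrivial_of_finrank_pos (R := ℂ) (by omega)
    obtain ⟨μ, hμ⟩ := Module.End.exists_eigenvalue (K := ℂ) (V := E) T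
    obtain ⟨v, hv⟩ := hμ.exists_hasEigenvector
    have hv0 : v ≠ 0 := hv.2
    have hvT : T v = μ • v := Module.End.mem_eigenspace_iff.1 hv.1
    have hμ0 : μ ≠ 0 := by
      rintro rfl
      have h1 := hT v v
      rw [hvT, zero_smul, inner_self_eq_norm_sq_to_K, inner_self_eq_norm_sq_to_K] at h1
      rw [norm_zero] at h1
      have h2 : (‖v‖ : ℂ) ^ 2 = 0 := by
        have h3 : ((0 : ℝ) : ℂ) ^ 2 = (‖v‖ : ℂ) ^ 2 := h1
        rw [← h3]; simp
      have h3 : (‖v‖ : ℂ) = 0 := by simpa using h2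
      exact hv0 (norm_eq_zero.1 (by exact_mod_cast h3))
    set K : Submodule ℂ E := (ℂ ∙ v)ᗮ with hK
    have hKT : ∀ x ∈ K, T x ∈ K := by
      intro x hx
      rw [hK, Submodule.mem_orthogonal_singleton_iff_inner_right] at hx ⊢
      have h1 := hT v x
      rw [hx, hvT, inner_smul_left] at h1
      rcases mul_eq_zero.1 h1 with h2 | h2
      · exact absurd ((map_eq_zero _).1 h2) hμ0
      · exact h2
    have hKn : Module.finrank ℂ K = n := by
      have : Fact (Module.finrank ℂ E = n + 1) := ⟨hn⟩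
      exact Submodule.finrank_orthogonal_span_singleton hv0
    obtain ⟨b, l, hb, hl⟩ := ih K hKn (T.restrict hKT) (fun x y => hT x y)
    set u : E := (‖v‖⁻¹ : ℂ) • v with hu
    have hu1 : ‖u‖ = 1 := norm_smul_inv_norm hv0
    refine ⟨Fin.cons u (fun i => (b i : E)), Fin.cons μ l, ?_, ?_⟩
    · have hub : ∀ i, ⟪u, (b i : E)⟫_ℂ = 0 := fun i => by
        have h1 : ⟪v, (b i : E)⟫_ℂ = 0 :=
          Submodule.mem_orthogonal_singleton_iff_inner_right.1 (b i).2
        rw [hu, inner_smul_left, h1, mul_zero]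
      have hbu : ∀ i, ⟪(b i : E), u⟫_ℂ = 0 := fun i => by
        rw [← inner_conj_symm, hub, map_zero]
      rw [orthonormal_iff_ite] at hb ⊢
      intro i j
      refine Fin.cases ?_ (fun i => ?_) i <;> refine Fin.cases ?_ (fun j => ?_) j
      · rw [Fin.cons_zero, if_pos rfl, inner_self_eq_norm_sq_to_K, hu1]; simp
      · rw [Fin.cons_zero, Fin.cons_succ, hub, if_neg (Fin.succ_ne_zero j).symm]
      · rw [Fin.cons_zero, Fin.cons_succ, hbu, if_neg (Fin.succ_ne_zero i)]
      · rw [Fin.cons_succ, Fin.cons_succ]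
        have h1 := hb i j
        rw [Submodule.coe_inner] at h1
        rw [h1]
        simp only [Fin.succ_inj]
    · intro i
      refine Fin.cases ?_ (fun i => ?_) i
      · rw [Fin.cons_zero, Fin.cons_zero, hu, map_smul, hvT, smul_comm]
      · rw [Fin.cons_succ, Fin.cons_succ]
        exact congrArg Subtype.val (hl i)

theorem cb_SU3_star_mul (c : SU3) : (c.1)ᴴ * c.1 = 1 := by
  have h1 := c.2
  rw [Matrix.mem_specialUnitaryGroup_iff, Matrix.mem_unitaryGroup_iff'] at h1
  exact h1.1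

theorem cb_SU3_det (c : SU3) : c.1.det = 1 := by
  have h1 := c.2
  rw [Matrix.mem_specialUnitaryGroup_iff] at h1
  exact h1.2

/-- an element of `SU(3)` is diagonalised by an element of `SU(3)` -/
theorem exists_diag (c : SU3) : ∃ (g : SU3) (d : Fin 3 → ℂ), c.1 * g.1 = g.1 * diagonal d := by
  obtain ⟨b, l, hb, hl⟩ := exists_eigen_onb 3 (EuclideanSpace ℂ (Fin 3)) (by simp)
    (Matrix.toEuclideanLin c.1) (by
      intro x y
      have h1 : ∀ z : EuclideanSpace ℂ (Fin 3), (Matrix.toEuclideanLin c.1 z).ofLp =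
        c.1 *ᵥ z.ofLp := fun z => rfl
      rw [EuclideanSpace.inner_eq_star_dotProduct, EuclideanSpace.inner_eq_star_dotProduct, h1, h1,
        Matrix.star_mulVec, dotProduct_comm, ← Matrix.dotProduct_mulVec, Matrix.mulVec_mulVec,
        cb_SU3_star_mul, Matrix.one_mulVec, dotProduct_comm])
  set g₀ : M3 := Matrix.of fun i j => (b j).ofLp i with hg₀
  have hg₀u : g₀ᴴ * g₀ = 1 := by
    ext i j
    have h1 := (orthonormal_iff_ite.1 hb) i j
    rw [EuclideanSpace.inner_eq_star_dotProduct] at h1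
    rw [Matrix.mul_apply, Matrix.one_apply, ← h1]
    refine Finset.sum_congr rfl fun k _ => ?_
    rw [Matrix.conjTranspose_apply, mul_comm]
    rfl
  have hcg : c.1 * g₀ = g₀ * diagonal l := by
    ext i j
    have h1 : c.1 *ᵥ (b j).ofLp = l j • (b j).ofLp := congrArg WithLp.ofLp (hl j)
    have h2 := congrFun h1 i
    rw [Matrix.mul_diagonal]
    rw [Pi.smul_apply, smul_eq_mul, mul_comm] at h2
    exact h2
  have hdet : star g₀.det * g₀.det = 1 := by
    have h1 := congrArg Matrix.det hg₀u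
    rwa [Matrix.det_mul, Matrix.det_conjTranspose, Matrix.det_one] at h1
  have hdet' : g₀.det * star g₀.det = 1 := by rw [mul_comm]; exact hdet
  set w : Fin 3 → ℂ := ![1, 1, star g₀.det] with hw
  have hwu : (diagonal w : M3)ᴴ * diagonal w = 1 := by
    rw [Matrix.diagonal_conjTranspose, Matrix.diagonal_mul_diagonal, ← Matrix.diagonal_one]
    congr 1
    funext i
    fin_cases i
    · simp [hw]
    · simp [hw]
    · simp only [hw, Pi.star_apply]
      change star (star g₀.det) * star g₀.det = 1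
      rw [star_star]; exact hdet'
  have hwd : (diagonal w : M3).det = star g₀.det := by
    rw [Matrix.det_diagonal, Fin.prod_univ_three]
    simp [hw]
  refine ⟨⟨g₀ * diagonal w, ?_⟩, l, ?_⟩
  · rw [Matrix.mem_specialUnitaryGroup_iff, Matrix.mem_unitaryGroup_iff']
    refine ⟨?_, ?_⟩
    · rw [Matrix.star_eq_conjTranspose, Matrix.conjTranspose_mul, Matrix.mul_assoc,
        ← Matrix.mul_assoc _ g₀, hg₀u, Matrix.one_mul, hwu]
    · rw [Matrix.det_mul, hwd, hdet']
  · change c.1 * (g₀ * diagonal w) = g₀ * diagonal w * diagonal l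
    rw [← Matrix.mul_assoc, hcg, Matrix.mul_assoc, Matrix.mul_assoc, Matrix.diagonal_mul_diagonal,
      Matrix.diagonal_mul_diagonal]
    congr 2
    funext i
    exact mul_comm _ _

/-- the diagonal subgroup -/
def DD : Subgroup SU3 where
  carrier := {x | ∀ i j, i ≠ j → x.1 i j = 0}
  one_mem' := fun i j hij => Matrix.one_apply_ne hij
  mul_mem' := by
    intro x y hx hy i j hij
    change (x.1 * y.1) i j = 0
    rw [Matrix.mul_apply]
    refine Finset.sum_eq_zero fun k _ => ?_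
    by_cases h : i = k
    · subst h; rw [hy _ _ hij, mul_zero]
    · rw [hx _ _ h, zero_mul]
  inv_mem' := by
    intro x hx i j hij
    change ((x⁻¹ : SU3) : M3) i j = 0
    have h1 : ((x⁻¹ : SU3) : M3) = (x.1)ᴴ := rfl
    rw [h1, Matrix.conjTranspose_apply, hx _ _ (Ne.symm hij), star_zero]

theorem mem_DD {x : SU3} : x ∈ DD ↔ ∀ i j, i ≠ j → x.1 i j = 0 := Iff.rfl

theorem exists_diag' (c : SU3) : ∃ g : SU3, g⁻¹ * c * g ∈ DD := by
  obtain ⟨g, d, h⟩ := exists_diag c
  refine ⟨g, fun i j hij => ?_⟩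
  change ((g⁻¹ : SU3).1 * c.1 * g.1) i j = 0
  have h1 : (g⁻¹ : SU3).1 = (g.1)ᴴ := rfl
  rw [Matrix.mul_assoc, h, ← Matrix.mul_assoc, h1, cb_SU3_star_mul, Matrix.one_mul,
    Matrix.diagonal_apply_ne _ hij]

theorem det_sub_one_mul (a b : SU3) : ((b * a⁻¹ : SU3).1 - 1).det = (b.1 - a.1).det := by
  have h1 : (b * a⁻¹ : SU3).1 - 1 = (b.1 - a.1) * (a⁻¹ : SU3).1 := by
    rw [Matrix.sub_mul]
    congr 1
    exact (congrArg Subtype.val (mul_inv_cancel a)).symm
  rw [h1, Matrix.det_mul, cb_SU3_det, mul_one]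

/-- the key step of (d): an element of `H` equals its conjugates `h a h⁻¹` if both are powers of
one element -/
theorem key_of_cyclic {H : Subgroup SU3} (hdet : ∀ h ∈ H, h ≠ 1 → (h.1 - 1).det ≠ 0)
    {c a b h : SU3} (ha : a ∈ H) (hb : b ∈ H) (hh : h ∈ H) (hac : a ∈ Subgroup.zpowers c)
    (hbc : b ∈ Subgroup.zpowers c) (hba : b * h = h * a) : b = a := by
  obtain ⟨g, hg⟩ := exists_diag' c
  have hconj : ∀ x ∈ Subgroup.zpowers c, g⁻¹ * x * g ∈ DD := by
    rintro x ⟨n, rfl⟩
    have h1 : g⁻¹ * c ^ n * g = (g⁻¹ * c * g) ^ n := by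
      have h2 := conj_zpow (a := g⁻¹) (b := c) (i := n)
      rw [inv_inv] at h2
      exact h2.symm
    change g⁻¹ * c ^ n * g ∈ DD
    rw [h1]
    exact DD.zpow_mem hg n
  set a' := g⁻¹ * a * g with ha'
  set b' := g⁻¹ * b * g with hb'
  set h' := g⁻¹ * h * g with hh'
  have haD : a' ∈ DD := hconj a hac
  have hbD : b' ∈ DD := hconj b hbc
  have h1 : b' * h' = h' * a' := by
    rw [ha', hb', hh']
    calc g⁻¹ * b * g * (g⁻¹ * h * g) = g⁻¹ * (b * h) * g := by group
      _ = g⁻¹ * (h * a) * g := by rw [hba]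
      _ = _ := by group
  by_contra hne
  have h2 : ∀ i, a'.1 i i ≠ b'.1 i i := by
    intro i hi
    have h3 : (b'.1 - a'.1).det = 0 := by
      apply Matrix.det_eq_zero_of_row_eq_zero i
      intro j
      rw [Matrix.sub_apply]
      by_cases hij : i = j
      · subst hij; rw [hi, sub_self]
      · rw [haD i j hij, hbD i j hij, sub_self]
    have h4 : (b.1 - a.1).det = 0 := by
      have h5 : b'.1 - a'.1 = (g⁻¹ : SU3).1 * (b.1 - a.1) * g.1 := by
        rw [Matrix.mul_sub, Matrix.sub_mul]; rfl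
      rw [h5, Matrix.det_mul, Matrix.det_mul, cb_SU3_det, cb_SU3_det, one_mul, mul_one] at h3
      exact h3
    rw [← det_sub_one_mul] at h4
    exact hdet (b * a⁻¹) (H.mul_mem hb (H.inv_mem ha)) (fun h5 => hne (by
      rwa [mul_inv_eq_one] at h5)) h4
  have h3 : ∀ i, h'.1 i i = 0 := by
    intro i
    have h4 : (b'.1 * h'.1) i i = (h'.1 * a'.1) i i := congrFun (congrFun (congrArg Subtype.val h1) i) i
    rw [Matrix.mul_apply, Matrix.mul_apply, Finset.sum_eq_single i, Finset.sum_eq_single i] at h4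
    · have h5 : h'.1 i i * (b'.1 i i - a'.1 i i) = 0 := by rw [mul_sub, ← h4]; ring
      rcases mul_eq_zero.1 h5 with h6 | h6
      · exact h6
      · exact absurd (sub_eq_zero.1 h6).symm (h2 i)
    · intro k _ hk; rw [haD k i hk, mul_zero]
    · intro hi; exact absurd (Finset.mem_univ i) hi
    · intro k _ hk; rw [hbD i k (Ne.symm hk), zero_mul]
    · intro hi; exact absurd (Finset.mem_univ i) hi
  have h4 : h.1.trace = 0 := by
    have h5 : h'.1.trace = 0 := Finset.sum_eq_zero fun i _ => h3 i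
    have h6 : h'.1.trace = h.1.trace := by
      change ((g⁻¹ : SU3).1 * h.1 * g.1).trace = _
      rw [Matrix.trace_mul_comm, ← Matrix.mul_assoc]
      have h7 : g.1 * (g⁻¹ : SU3).1 = 1 := congrArg Subtype.val (mul_inv_cancel g)
      rw [h7, Matrix.one_mul]
    rw [← h6, h5]
  have h5 : (h.1 - 1).det = 0 := (det_iff_trace_real h).2 (by rw [h4]; rfl)
  have h6 : h = 1 := by
    by_contra h7
    exact hdet h hh h7 h5
  rw [h6, mul_one, one_mul] at hba
  exact hne hba

/-- a commuting family has a common eigenvector -/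
theorem common_ev {ι : Type} (n : ℕ) : ∀ (V : Type) [AddCommGroup V] [Module ℂ V]
    [FiniteDimensional ℂ V] (_ : Module.finrank ℂ V = n) (_ : 0 < n) (T : ι → V →ₗ[ℂ] V)
    (_ : ∀ i j x, T i (T j x) = T j (T i x)), ∃ v : V, v ≠ 0 ∧ ∀ i, ∃ μ : ℂ, T i v = μ • v := by
  induction n using Nat.strong_induction_on with
  | _ n ih =>
    intro V _ _ _ hn hn0 T hT
    have hnt : Nontrivial V := Module.nontrivial_of_finrank_pos (R := ℂ) (by omega)
    by_cases hs : ∀ i, ∃ μ : ℂ, ∀ x, T i x = μ • x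
    · obtain ⟨v, hv⟩ := exists_ne (0 : V)
      exact ⟨v, hv, fun i => (hs i).imp fun μ h => h v⟩
    · push Not at hs
      obtain ⟨i, hi⟩ := hs
      obtain ⟨μ, hμ⟩ := Module.End.exists_eigenvalue (K := ℂ) (V := V) (T i)
      set W : Submodule ℂ V := Module.End.eigenspace (T i) μ with hW
      have hmem : ∀ x, x ∈ W ↔ T i x = μ • x := fun x => Module.End.mem_eigenspace_iff
      have hWT : ∀ j, ∀ x ∈ W, T j x ∈ W := by
        intro j x hx
        rw [hmem] at hx ⊢
        rw [hT, hx, map_smul]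
      have hW0 : W ≠ ⊥ := hμ
      have hW1 : W ≠ ⊤ := by
        intro h
        obtain ⟨x, hx⟩ := hi μ
        exact hx ((hmem x).1 (h ▸ Submodule.mem_top))
      have hlt : Module.finrank ℂ W < n := by
        rw [← hn]; exact Submodule.finrank_lt hW1
      have hpos : 0 < Module.finrank ℂ W := by
        rw [Nat.pos_iff_ne_zero]
        intro h
        exact hW0 (Submodule.finrank_eq_zero.1 h)
      obtain ⟨v, hv, hv'⟩ := ih _ hlt W rfl hpos (fun j => (T j).restrict (hWT j))
        (fun a b x => Subtype.ext (hT a b x))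
      refine ⟨v, fun h => hv (Subtype.ext h), fun j => ?_⟩
      obtain ⟨ν, h⟩ := hv' j
      exact ⟨ν, congrArg Subtype.val h⟩

/-- commutative free groups are cyclic -/
theorem cyclic_of_comm {K : Subgroup SU3} (hfin : Finite K)
    (hdet : ∀ h ∈ K, h ≠ 1 → (h.1 - 1).det ≠ 0) (hc : ∀ a ∈ K, ∀ b ∈ K, a * b = b * a) :
    IsCyclic K := by
  obtain ⟨v, hv, hev⟩ := common_ev 3 (Fin 3 → ℂ) (by simp) (by norm_num)
    (fun h : K => Matrix.mulVecLin h.1.1) (by
      intro a b x
      rw [Matrix.mulVecLin_apply, Matrix.mulVecLin_apply, Matrix.mulVecLin_apply,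
        Matrix.mulVecLin_apply, Matrix.mulVec_mulVec, Matrix.mulVec_mulVec]
      have h1 : a.1.1 * b.1.1 = b.1.1 * a.1.1 := congrArg Subtype.val (hc _ a.2 _ b.2)
      rw [h1])
  choose μ hμ using hev
  have hμ' : ∀ h : K, h.1.1 *ᵥ v = μ h • v := hμ
  have hinj : ∀ x y : ℂ, x • v = y • v → x = y := fun x y h => smul_left_injective ℂ hv h
  let f : K →* ℂ :=
    { toFun := μ
      map_one' := by
        apply hinj
        rw [← hμ', one_smul]
        exact Matrix.one_mulVec v
      map_mul' := by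
        intro a b
        apply hinj
        rw [← hμ']
        have h1 : (a * b : K).1.1 = a.1.1 * b.1.1 := rfl
        rw [h1, ← Matrix.mulVec_mulVec, hμ', Matrix.mulVec_smul, hμ', smul_smul, mul_comm] }
  refine isCyclic_of_injective_ringHom f ((injective_iff_map_eq_one f).2 fun a ha => ?_)
  have h1 : μ a = 1 := ha
  by_contra hne
  refine hdet a.1 a.2 (fun h => hne (Subtype.ext h)) (Matrix.exists_mulVec_eq_zero_iff.1 ⟨v, hv, ?_⟩)
  rw [Matrix.sub_mulVec, hμ', h1, one_smul, Matrix.one_mulVec, sub_self]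

/-- (d) -/
theorem comm_H {H : Subgroup SU3} (hfin : Finite H)
    (hdet : ∀ h ∈ H, h ≠ 1 → (h.1 - 1).det ≠ 0) (a b : H) : a * b = b * a := by
  refine comm_of_conj_eq (fun a h hah => ?_) a b
  set b : H := h * a * h⁻¹ with hb
  set S : Set SU3 := {a.1, b.1} with hS
  have hcomm : a.1 * b.1 = b.1 * a.1 := congrArg Subtype.val hah.eq
  have hSc : ∀ x ∈ S, ∀ y ∈ S, x * y = y * x := by
    rintro x (rfl | rfl) y (rfl | rfl)
    · rfl
    · exact hcomm
    · exact hcomm.symm
    · rfl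
  have hle : Subgroup.closure S ≤ H := by
    rw [Subgroup.closure_le]
    rintro x (rfl | rfl)
    · exact a.2
    · exact b.2
  have hfin' : Finite (Subgroup.closure S) :=
    Finite.of_injective (Subgroup.inclusion hle) (Subgroup.inclusion_injective hle)
  have hcc := Subgroup.isMulCommutative_closure hSc
  have hcyc : IsCyclic (Subgroup.closure S) := cyclic_of_comm hfin' (fun h hh => hdet h (hle hh))
    (fun x hx y hy => congrArg Subtype.val (hcc.is_comm.comm ⟨x, hx⟩ ⟨y, hy⟩))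
  obtain ⟨c, hc⟩ := hcyc.exists_generator
  have hmem : ∀ x, x ∈ S → x ∈ Subgroup.zpowers c.1 := by
    intro x hx
    obtain ⟨n, hn⟩ := hc ⟨x, Subgroup.subset_closure hx⟩
    exact ⟨n, by simpa using congrArg Subtype.val hn⟩
  apply Subtype.ext
  refine key_of_cyclic hdet a.2 b.2 h.2 (hmem _ (Or.inl rfl)) (hmem _ (Or.inr rfl)) ?_
  have h1 : b * h = h * a := by rw [hb]; group
  exact congrArg Subtype.val h1

theorem DD_eq_diagonal {x : SU3} (hx : x ∈ DD) : x.1 = diagonal fun i => x.1 i i := by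
  ext i j
  by_cases hij : i = j
  · subst hij; rw [Matrix.diagonal_apply_eq]
  · rw [Matrix.diagonal_apply_ne _ hij, hx i j hij]

theorem DD_pow {x : SU3} (hx : x ∈ DD) (n : ℕ) :
    (x ^ n : SU3).1 = diagonal fun i => x.1 i i ^ n := by
  have h1 : (x ^ n : SU3).1 = x.1 ^ n := rfl
  rw [h1, DD_eq_diagonal hx, Matrix.diagonal_pow]
  congr 1
  funext i
  rw [Pi.pow_apply, Matrix.diagonal_apply_eq]

/-- (c), (d), (e) -/
theorem class_SU3 {H : Subgroup SU3} (hfin : Finite H)
    (hdet : ∀ h ∈ H, h ≠ 1 → (h.1 - 1).det ≠ 0) : ∃ (q : ℕ) (v1 v2 : ℤ) (g : SU3),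
      Adm q v1 v2 ∧ H = (Subgroup.zpowers (dg (tj q v1 1) (tj q v2 1))).map
        (MulAut.conj g).toMonoidHom := by
  have hcyc : IsCyclic H := cyclic_of_comm hfin hdet (fun a ha b hb =>
    congrArg Subtype.val (comm_H hfin hdet ⟨a, ha⟩ ⟨b, hb⟩))
  obtain ⟨c, hc⟩ := hcyc.exists_generator
  have hH : H = Subgroup.zpowers c.1 := by
    apply le_antisymm
    · intro x hx
      obtain ⟨n, hn⟩ := hc ⟨x, hx⟩
      exact ⟨n, by simpa using congrArg Subtype.val hn⟩
    · rw [Subgroup.zpowers_le]; exact c.2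
  have hof : IsOfFinOrder c.1 := by
    have h1 : IsOfFinOrder c := isOfFinOrder_of_finite c
    exact (Submonoid.isOfFinOrder_coe (H := H.toSubmonoid) (x := c)).2 h1
  set q : ℕ := orderOf c.1 with hq
  have hq0 : 0 < q := hof.orderOf_pos
  obtain ⟨g, hg⟩ := exists_diag' c.1
  set D : SU3 := g⁻¹ * c.1 * g with hD
  have hDn : ∀ n : ℕ, D ^ n = g⁻¹ * c.1 ^ n * g := by
    intro n
    have h2 := conj_pow (a := g⁻¹) (b := c.1) (i := n)
    rw [inv_inv] at h2
    exact h2
  have hDq : D ^ q = 1 := by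
    rw [hDn, hq, pow_orderOf_eq_one]; group
  have hprim : ∀ i, IsPrimitiveRoot (D.1 i i) q := by
    intro i
    refine IsPrimitiveRoot.mk_of_lt _ hq0 ?_ fun l hl hlq h1 => ?_
    · have h1 := DD_pow hg q
      rw [hDq] at h1
      have h2 := congrFun (congrFun h1 i) i
      rw [Matrix.diagonal_apply_eq] at h2
      rw [← h2]; exact Matrix.one_apply_eq i
    · have h2 : c.1 ^ l ≠ 1 := by
        intro h3
        exact absurd (orderOf_dvd_of_pow_eq_one h3) (Nat.not_dvd_of_pos_of_lt hl hlq)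
      refine hdet _ (H.pow_mem c.2 l) h2 ?_
      have h3 : ((D ^ l : SU3).1 - 1).det = 0 := by
        apply Matrix.det_eq_zero_of_row_eq_zero i
        intro j
        rw [DD_pow hg, Matrix.sub_apply]
        by_cases hij : i = j
        · subst hij; rw [Matrix.diagonal_apply_eq, h1, Matrix.one_apply_eq, sub_self]
        · rw [Matrix.diagonal_apply_ne _ hij, Matrix.one_apply_ne hij, sub_self]
      have h4 : (D ^ l : SU3).1 - 1 = (g⁻¹ : SU3).1 * ((c.1 ^ l : SU3).1 - 1) * g.1 := by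
        rw [hDn, Matrix.mul_sub, Matrix.sub_mul, Matrix.mul_one]
        congr 1
        exact (congrArg Subtype.val (inv_mul_cancel g)).symm
      rw [h4, Matrix.det_mul, Matrix.det_mul, cb_SU3_det, cb_SU3_det, one_mul, mul_one] at h3
      exact h3
  set ζ : ℂ := Complex.exp (2 * Real.pi * Complex.I / q) with hζ
  have hζp : IsPrimitiveRoot ζ q := Complex.isPrimitiveRoot_exp q hq0.ne'
  have : NeZero q := ⟨hq0.ne'⟩
  obtain ⟨k, -, hk⟩ := hζp.eq_pow_of_pow_eq_one (hprim 0).pow_eq_one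
  obtain ⟨l, -, hl⟩ := hζp.eq_pow_of_pow_eq_one (hprim 1).pow_eq_one
  have hkc : k.Coprime q := (hζp.pow_iff_coprime hq0 k).1 (hk ▸ hprim 0)
  have hlc : l.Coprime q := (hζp.pow_iff_coprime hq0 l).1 (hl ▸ hprim 1)
  have hprod : D.1 0 0 * D.1 1 1 * D.1 2 2 = 1 := by
    have h1 := cb_SU3_det D
    rwa [DD_eq_diagonal hg, Matrix.det_diagonal, Fin.prod_univ_three] at h1
  have h2 : D.1 2 2 = (ζ ^ (k + l))⁻¹ := by
    rw [pow_add, hk, hl]
    exact eq_inv_of_mul_eq_one_right hprod
  have hklc : (k + l).Coprime q := by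
    have h3 := (hprim 2).inv
    rw [h2, inv_inv] at h3
    exact (hζp.pow_iff_coprime hq0 _).1 h3
  have hexp : ∀ n : ℕ, Complex.exp (Complex.I * (tj q (n : ℤ) 1 : ℝ)) = ζ ^ n := by
    intro n
    rw [hζ, ← Complex.exp_nat_mul]
    congr 1
    unfold tj
    push_cast
    ring
  have hDdg : D = dg (tj q k 1) (tj q l 1) := by
    apply Subtype.ext
    rw [DD_eq_diagonal hg]
    change _ = diagonal _
    congr 1
    funext i
    fin_cases i
    · change D.1 0 0 = Complex.exp _
      rw [hexp, hk]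
    · change D.1 1 1 = Complex.exp _
      rw [hexp, hl]
    · change D.1 2 2 = Complex.exp (-(Complex.I * (((tj q k 1 : ℝ) : ℂ) + ((tj q l 1 : ℝ) : ℂ))))
      rw [h2, Complex.exp_neg, mul_add, Complex.exp_add, hexp, hexp, pow_add]
  refine ⟨q, k, l, g, ⟨hq0, ?_, ?_, ?_, ?_⟩, ?_⟩
  · rw [← Nat.not_even_iff_odd]
    intro he
    have hodd : ∀ n : ℕ, n.Coprime q → n % 2 = 1 := by
      intro n hn
      by_contra h
      have h3 : 2 ∣ n := by omega
      have h4 := Nat.dvd_gcd h3 (even_iff_two_dvd.1 he)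
      rw [hn] at h4
      omega
    have h3 := hodd k hkc
    have h4 := hodd l hlc
    have h5 := hodd _ hklc
    omega
  · exact Nat.isCoprime_iff_coprime.2 hkc
  · exact Nat.isCoprime_iff_coprime.2 hlc
  · exact_mod_cast Nat.isCoprime_iff_coprime.2 hklc
  · rw [MonoidHom.map_zpowers, ← hDdg, hH]
    congr 1
    change c.1 = g * D * g⁻¹
    rw [hD]; group

end Pool.Agent.Iso79
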