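import Pool.Agent.Iso79.Iso
import Pool.Agent.Iso79.ClassA
import Pool.Agent.Iso79.ClassB

/-! # Finite groups of isometries acting freely -/

open Matrix Complex

noncomputable section

namespace Pool.Agent.Iso79

/-- `tau` as a homomorphism -/
def tauHom : SU3 →* Equiv.Perm XX where
  toFun := tau
  map_one' := tau_one
  map_mul' := tau_mul

theorem class_free {Γ : Subgroup (Equiv.Perm XX)} (hfin : Finite Γ)
    (h1 : ∀ γ ∈ Γ, PreservesLap γ) (h2 : ActsFreely Γ) : ∃ (q : ℕ) (v1 v2 : ℤ) (g : SU3),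
      Adm q v1 v2 ∧ Γ = (Gam q v1 v2).map (MulAut.conj (tau g)).toMonoidHom := by
  have h3 : ∀ γ ∈ Γ, ∃ g : SU3, γ = tau g := all_tau (fun γ hγ => iso_class γ (h1 γ hγ)) h2
  set H : Subgroup SU3 := Γ.comap tauHom with hH
  have hΓ : Γ = H.map tauHom := by
    rw [hH, Subgroup.map_comap_eq, eq_comm, inf_eq_right]
    intro γ hγ
    obtain ⟨g, hg⟩ := h3 γ hγ
    exact ⟨g, hg.symm⟩
  have hHfin : Finite H := by
    refine Finite.of_injective (fun h : H => (⟨tau h.1, h.2⟩ : Γ)) fun a b hab => ?_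
    exact Subtype.ext (tau_inj (congrArg Subtype.val hab))
  have hdet : ∀ h ∈ H, h ≠ 1 → (h.1 - 1).det ≠ 0 := by
    intro h hh hne h0
    obtain ⟨S, hS⟩ := fixed_of_det h0
    refine h2 (tau h) hh (fun h4 => hne (tau_inj (h4.trans tau_one.symm))) S hS
  obtain ⟨q, v1, v2, g, hA, hHe⟩ := class_SU3 hHfin hdet
  refine ⟨q, v1, v2, g, hA, ?_⟩
  rw [hΓ, hHe]
  unfold Gam
  rw [MonoidHom.map_zpowers, MonoidHom.map_zpowers, MonoidHom.map_zpowers]
  congr 1
  change tau (g * dg (tj q v1 1) (tj q v2 1) * g⁻¹) = tau g * tau _ * (tau g)⁻¹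
  rw [tau_mul, tau_mul, tau_inv]

end Pool.Agent.Iso79
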