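import Pool.Agent.Iso79.Freud

/-!
# The character of the polynomials of degree `d` (Littlewood's identity for `n = 3`)

`hd d = ∑_{|μ|=2d} dim (Vw μ) t^μ` and
`Δ · hd d = ∑_{λ = (λ₁ ≥ λ₂ ≥ λ₃) even, |λ| = 2 d} a_{λ+δ}`, `δ = (2,1,0)`.
We write `m = λ₁ - λ₂ + 1`, `n = λ₂ - λ₃ + 1` (odd), `l = λ₃`, so `λ + δ = (l+m+n, l+n, l)` and
`3 l = 2 d + 3 - m - 2 n` (then `l` is automatically even).

Proof.  `finrank (Vw μ)` is the number of monomials `x^a` (`a : Sym2 (Fin 3) →₀ ℕ`) of weight `μ`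
(the monomials of weight `μ` are a basis), so `∑_d hd d u^d = ∏_{i≤j} (1 - u t_i t_j)⁻¹` in
`(MvPolynomial (Fin 3) ℤ)⟦u⟧`.  On the other side, with `y₁ = t_1²`, `y₂ = t_1² t_2²`,
`y₃ = (t_1 t_2 t_3)²`,
`∑_{a,b,c≥0} t^{(2a+2b+2c+2, 2b+2c+1, 2c)} u^{a+2b+3c} = t_1² t_2 / ((1-u y₁)(1-u² y₂)(1-u³ y₃))`,
and antisymmetrising over `S_3` gives `∑_d u^d ∑_λ a_{λ+δ}`.  So the claim is the polynomial
identity (multiply by the product of all denominators, `ring`/`decide`):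
`∑_w ε(w) w[ t_1² t_2 /((1-u t_1²)(1-u² t_1² t_2²)(1-u³ t_1² t_2² t_3²)) ]
   = Δ / ∏_{i≤j} (1 - u t_i t_j)`.
(Alternative: multiply the claim by `∏_{i≤j}(1 - u t_i t_j)` and compare coefficients of `u^d`.)
-/

open MvPolynomial

noncomputable section

namespace Pool.Agent.Iso79

/-- the alternant `det (t_i ^ x_j)`, `x = (a, b, c)` -/
def altP (a b c : ℕ) : MvPolynomial (Fin 3) ℤ :=
  X 0 ^ a * X 1 ^ b * X 2 ^ c - X 1 ^ a * X 0 ^ b * X 2 ^ c - X 0 ^ a * X 2 ^ b * X 1 ^ c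
    + X 1 ^ a * X 2 ^ b * X 0 ^ c + X 2 ^ a * X 0 ^ b * X 1 ^ c - X 2 ^ a * X 1 ^ b * X 0 ^ c

/-- the pairs `(m, n)` occurring in degree `d` -/
def Jd (d : ℕ) : Finset (ℕ × ℕ) :=
  (Finset.range (2 * d + 4) ×ˢ Finset.range (2 * d + 4)).filter fun p =>
    Odd p.1 ∧ Odd p.2 ∧ p.1 + 2 * p.2 ≤ 2 * d + 3 ∧ 3 ∣ 2 * d + 3 - (p.1 + 2 * p.2)

/-- `λ₃` -/
def l3 (d : ℕ) (p : ℕ × ℕ) : ℕ := (2 * d + 3 - (p.1 + 2 * p.2)) / 3

/-- the alternant of the pair `(m, n)` in degree `d` -/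
def altJ (d : ℕ) (p : ℕ × ℕ) : MvPolynomial (Fin 3) ℤ :=
  altP (l3 d p + p.1 + p.2) (l3 d p + p.2) (l3 d p)

/-- the character of the polynomials of degree `d` -/
def hd (d : ℕ) : MvPolynomial (Fin 3) ℤ :=
  ∑ μ ∈ wts d, monomial μ (Module.finrank ℂ (Vw μ) : ℤ)

/-! ### geometric series -/

/-- `1 / (1 - y u^k)` -/
def Gk {R : Type*} [CommRing R] (k : ℕ) (y : R) : PowerSeries R :=
  PowerSeries.mk fun n => if k ∣ n then y ^ (n / k) else 0

theorem Gk_mul {R : Type*} [CommRing R] (k : ℕ) (hk : 0 < k) (y : R) :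
    (1 - PowerSeries.C y * PowerSeries.X ^ k) * Gk k y = 1 := by
  ext n
  rw [sub_mul, one_mul, mul_assoc, map_sub, PowerSeries.coeff_C_mul, PowerSeries.coeff_X_pow_mul',
    PowerSeries.coeff_one]
  unfold Gk
  rw [PowerSeries.coeff_mk, PowerSeries.coeff_mk]
  by_cases hn : k ≤ n
  · rw [if_pos hn]
    obtain ⟨m, rfl⟩ := Nat.exists_eq_add_of_le hn
    rw [if_neg (by omega : ¬ (k + m = 0)), Nat.add_sub_cancel_left]
    by_cases hm : k ∣ m
    · rw [if_pos hm, if_pos ((Nat.dvd_add_right (dvd_refl k)).2 hm), Nat.add_div_left _ hk, pow_succ]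
      ring
    · rw [if_neg hm, if_neg (fun h => hm ((Nat.dvd_add_right (dvd_refl k)).1 h))]
      ring
  · rw [if_neg hn]
    by_cases h0 : n = 0
    · subst h0; simp
    · rw [if_neg h0, if_neg (fun h => h0 (Nat.eq_zero_of_dvd_of_lt h (by omega)))]
      ring

/-! ### the character of the polynomial ring -/

theorem mem_anti {d : ℕ} {a : Sym2 (Fin 3) →₀ ℕ} :
    a ∈ (Finset.univ : Finset (Sym2 (Fin 3))).finsuppAntidiag d ↔ ∑ z, a z = d := by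
  rw [Finset.mem_finsuppAntidiag]
  simp

theorem finrank_Vw_card {d : ℕ} {μ : Fin 3 →₀ ℕ} (h : deg3 μ = 2 * d) :
    Module.finrank ℂ (Vw μ) =
      (((Finset.univ : Finset (Sym2 (Fin 3))).finsuppAntidiag d).filter
        fun a => Finsupp.weight wt a = μ).card := by
  classical
  unfold Vw
  rw [weightedHomogeneousSubmodule_eq_finsupp_supported]
  rw [(AddMonoidAlgebra.supportedEquivFinsupp
    {a : Sym2 (Fin 3) →₀ ℕ | Finsupp.weight wt a = μ}).finrank_eq]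
  have hset : {a : Sym2 (Fin 3) →₀ ℕ | Finsupp.weight wt a = μ} =
      ↑(((Finset.univ : Finset (Sym2 (Fin 3))).finsuppAntidiag d).filter
        fun a => Finsupp.weight wt a = μ) := by
    ext a
    simp only [Set.mem_ofPred_eq, Finset.coe_filter, mem_anti]
    constructor
    · intro ha
      refine ⟨?_, ha⟩
      have := deg3_weight a
      rw [ha, h] at this
      omega
    · intro ha
      exact ha.2
  rw [hset, Module.finrank_finsupp_self]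
  simp

theorem hd_eq (d : ℕ) : hd d = ∑ a ∈ (Finset.univ : Finset (Sym2 (Fin 3))).finsuppAntidiag d,
    monomial (Finsupp.weight wt a) 1 := by
  classical
  rw [← Finset.sum_fiberwise_of_maps_to (t := wts d) (g := fun a => Finsupp.weight wt a)]
  · unfold hd
    apply Finset.sum_congr rfl
    intro μ hμ
    rw [finrank_Vw_card (mem_wts.1 hμ)]
    rw [Finset.sum_congr rfl (g := fun _ => monomial μ (1 : ℤ))]
    · rw [Finset.sum_const, ← map_nsmul]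
      simp
    · intro a ha
      rw [(Finset.mem_filter.1 ha).2]
  · intro a ha
    rw [mem_wts, deg3_weight, mem_anti.1 ha]

theorem hd_coeff (d : ℕ) : hd d = PowerSeries.coeff d
    (∏ z : Sym2 (Fin 3), Gk 1 (monomial (wt z) 1 : MvPolynomial (Fin 3) ℤ)) := by
  classical
  rw [PowerSeries.coeff_prod, hd_eq]
  apply Finset.sum_congr rfl
  intro a _
  rw [Finsupp.weight_apply, Finsupp.sum_fintype _ _ (by simp), monomial_sum_one]
  apply Finset.prod_congr rfl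
  intro z _
  unfold Gk
  rw [PowerSeries.coeff_mk, if_pos (one_dvd _), Nat.div_one, monomial_pow, one_pow]

/-! ### the other side -/

theorem altside {R : Type*} [CommRing R] (x y z : R) (d : ℕ) :
    ∑ p ∈ Jd d, x ^ (l3 d p + p.1 + p.2) * y ^ (l3 d p + p.2) * z ^ (l3 d p) =
    PowerSeries.coeff d (PowerSeries.C (x ^ 2 * y) * (Gk 1 (x ^ 2) * Gk 2 (x ^ 2 * y ^ 2)
      * Gk 3 (x ^ 2 * y ^ 2 * z ^ 2))) := by
  rw [PowerSeries.coeff_C_mul, PowerSeries.coeff_mul]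
  simp_rw [PowerSeries.coeff_mul]
  simp_rw [Finset.sum_mul]
  rw [Finset.sum_sigma', Finset.mul_sum]
  apply Finset.sum_of_injOn (fun p : ℕ × ℕ => (⟨((p.1 - 1) / 2 + (p.2 - 1), 3 * (l3 d p / 2)),
    ((p.1 - 1) / 2, p.2 - 1)⟩ : Σ _ : ℕ × ℕ, ℕ × ℕ))
  · intro p hp q hq hpq
    simp only [Sigma.mk.injEq, Prod.mk.injEq, heq_eq_eq] at hpq
    rw [Finset.mem_coe, Jd, Finset.mem_filter] at hp hq
    obtain ⟨_, ⟨a, ha⟩, ⟨b, hb⟩, _⟩ := hp
    obtain ⟨_, ⟨a', ha'⟩, ⟨b', hb'⟩, _⟩ := hq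
    apply Prod.ext <;> omega
  · intro p hp
    rw [Finset.mem_coe, Jd, Finset.mem_filter] at hp
    obtain ⟨_, ⟨a, ha⟩, ⟨b, hb⟩, hle, ⟨c, hc⟩⟩ := hp
    rw [Finset.mem_coe, Finset.mem_sigma, Finset.HasAntidiagonal.mem_antidiagonal,
      Finset.HasAntidiagonal.mem_antidiagonal]
    have : l3 d p = c := by unfold l3; omega
    simp only [this]
    obtain ⟨c', hc'⟩ : ∃ c', c = 2 * c' := ⟨c / 2, by omega⟩
    have e3 : c / 2 = c' := by omega
    have e1 : (p.1 - 1) / 2 = a := by omega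
    rw [e1, e3]
    have h6 : a + (p.2 - 1) + 3 * c' = d := by omega
    exact ⟨h6, trivial⟩
  · rintro ⟨⟨u, v⟩, ⟨r, s⟩⟩ h1 h2
    rw [Finset.mem_sigma, Finset.HasAntidiagonal.mem_antidiagonal,
      Finset.HasAntidiagonal.mem_antidiagonal] at h1
    simp only at h1
    unfold Gk
    simp only [PowerSeries.coeff_mk]
    by_cases h3 : 3 ∣ v
    · by_cases h4 : 2 ∣ s
      · exfalso
        apply h2
        obtain ⟨c, rfl⟩ := h3
        obtain ⟨b, rfl⟩ := h4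
        refine ⟨(2 * r + 1, 2 * b + 1), ?_, ?_⟩
        · rw [Finset.mem_coe, Jd, Finset.mem_filter, Finset.mem_product, Finset.mem_range,
            Finset.mem_range]
          refine ⟨⟨by simp only; omega, by simp only; omega⟩, ⟨r, rfl⟩, ⟨b, rfl⟩,
            by simp only; omega, ⟨2 * c, by simp only; omega⟩⟩
        · have : l3 d (2 * r + 1, 2 * b + 1) = 2 * c := by unfold l3; simp only; omega
          simp only [this, Sigma.mk.injEq, Prod.mk.injEq, heq_eq_eq]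
          omega
      · rw [if_neg h4]; ring
    · rw [if_neg h3]; ring
  · intro p hp
    rw [Jd, Finset.mem_filter] at hp
    obtain ⟨_, ⟨a, ha⟩, ⟨b, hb⟩, hle, ⟨c, hc⟩⟩ := hp
    have h5 : l3 d p = c := by unfold l3; omega
    obtain ⟨c', hc'⟩ : ∃ c', c = 2 * c' := ⟨c / 2, by omega⟩
    unfold Gk
    simp only [PowerSeries.coeff_mk, h5]
    rw [if_pos (one_dvd _), if_pos ⟨b, by omega⟩, if_pos ⟨c / 2, rfl⟩]
    have e1 : (p.1 - 1) / 2 / 1 = a := by omega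
    have e2 : (p.2 - 1) / 2 = b := by omega
    have e3 : 3 * (c / 2) / 3 = c' := by omega
    rw [e1, e2, e3, ha, hb, hc']
    ring

/-- the rational function identity, cleared of denominators -/
theorem ratid {A : Type*} [CommRing A] [IsDomain A] (x y z u : A)
    (g1x g1y g1z g2xy g2xz g2yz g3 h0 h1 h2 h3 h4 h5 : A)
    (e1x : (1 - x ^ 2 * u) * g1x = 1) (e1y : (1 - y ^ 2 * u) * g1y = 1)
    (e1z : (1 - z ^ 2 * u) * g1z = 1)
    (e2xy : (1 - x ^ 2 * y ^ 2 * u ^ 2) * g2xy = 1) (e2xz : (1 - x ^ 2 * z ^ 2 * u ^ 2) * g2xz = 1)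
    (e2yz : (1 - y ^ 2 * z ^ 2 * u ^ 2) * g2yz = 1)
    (e3 : (1 - x ^ 2 * y ^ 2 * z ^ 2 * u ^ 3) * g3 = 1)
    (f0 : (1 - x * x * u) * h0 = 1) (f1 : (1 - x * y * u) * h1 = 1) (f2 : (1 - x * z * u) * h2 = 1)
    (f3 : (1 - y * y * u) * h3 = 1) (f4 : (1 - y * z * u) * h4 = 1)
    (f5 : (1 - z * z * u) * h5 = 1) :
    (x - y) * (x - z) * (y - z) * (h0 * h1 * h2 * h3 * h4 * h5) =
    x ^ 2 * y * (g1x * g2xy * g3) - y ^ 2 * x * (g1y * g2xy * g3) - x ^ 2 * z * (g1x * g2xz * g3)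
      + y ^ 2 * z * (g1y * g2yz * g3) + z ^ 2 * x * (g1z * g2xz * g3)
      - z ^ 2 * y * (g1z * g2yz * g3) := by
  have k0 : h0 = g1x := by
    have : (1 - x ^ 2 * u) ≠ 0 := left_ne_zero_of_mul_eq_one e1x
    apply mul_left_cancel₀ this
    linear_combination f0 - e1x
  have k3 : h3 = g1y := by
    have : (1 - y ^ 2 * u) ≠ 0 := left_ne_zero_of_mul_eq_one e1y
    apply mul_left_cancel₀ this
    linear_combination f3 - e1y
  have k5 : h5 = g1z := by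
    have : (1 - z ^ 2 * u) ≠ 0 := left_ne_zero_of_mul_eq_one e1z
    apply mul_left_cancel₀ this
    linear_combination f5 - e1z
  have k1 : h1 = (1 + x * y * u) * g2xy := by
    have : (1 - x * y * u) ≠ 0 := left_ne_zero_of_mul_eq_one f1
    apply mul_left_cancel₀ this
    linear_combination f1 - e2xy
  have k2 : h2 = (1 + x * z * u) * g2xz := by
    have : (1 - x * z * u) ≠ 0 := left_ne_zero_of_mul_eq_one f2
    apply mul_left_cancel₀ this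
    linear_combination f2 - e2xz
  have k4 : h4 = (1 + y * z * u) * g2yz := by
    have : (1 - y * z * u) ≠ 0 := left_ne_zero_of_mul_eq_one f4
    apply mul_left_cancel₀ this
    linear_combination f4 - e2yz
  rw [k0, k1, k2, k3, k4, k5]
  have L : (x - y) * (x - z) * (y - z) * (g1x * ((1 + x * y * u) * g2xy) *
      ((1 + x * z * u) * g2xz) * g1y * ((1 + y * z * u) * g2yz) * g1z) =
      (g1x * g1y * g1z * g2xy * g2xz * g2yz * g3) * ((x - y) * (x - z) * (y - z) *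
        (1 + x * y * u) * (1 + x * z * u) * (1 + y * z * u) *
        (1 - x ^ 2 * y ^ 2 * z ^ 2 * u ^ 3)) := by
    linear_combination -((x - y) * (x - z) * (y - z) * (g1x * ((1 + x * y * u) * g2xy) *
      ((1 + x * z * u) * g2xz) * g1y * ((1 + y * z * u) * g2yz) * g1z)) * e3
  have T : ∀ (w a g1 g2 g3 b1 c1 b2 c2 b3 c3 b4 c4 : A), b1 * c1 = 1 → b2 * c2 = 1 → b3 * c3 = 1 →
      b4 * c4 = 1 → w * (g1 * g2 * g3) = (g1 * g2 * g3 * c1 * c2 * c3 * c4) * (w * b1 * b2 * b3 * b4) := by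
    intro w a g1 g2 g3 b1 c1 b2 c2 b3 c3 b4 c4 h1 h2 h3 h4
    calc w * (g1 * g2 * g3) = w * (g1 * g2 * g3) * (1 * 1 * 1 * 1) := by ring
      _ = w * (g1 * g2 * g3) * ((b1 * c1) * (b2 * c2) * (b3 * c3) * (b4 * c4)) := by
        rw [h1, h2, h3, h4]
      _ = _ := by ring
  rw [L, T (x ^ 2 * y) 0 g1x g2xy g3 _ _ _ _ _ _ _ _ e1y e1z e2xz e2yz,
    T (y ^ 2 * x) 0 g1y g2xy g3 _ _ _ _ _ _ _ _ e1x e1z e2xz e2yz,
    T (x ^ 2 * z) 0 g1x g2xz g3 _ _ _ _ _ _ _ _ e1y e1z e2xy e2yz,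
    T (y ^ 2 * z) 0 g1y g2yz g3 _ _ _ _ _ _ _ _ e1x e1z e2xy e2xz,
    T (z ^ 2 * x) 0 g1z g2xz g3 _ _ _ _ _ _ _ _ e1x e1y e2xy e2yz,
    T (z ^ 2 * y) 0 g1z g2yz g3 _ _ _ _ _ _ _ _ e1x e1y e2xy e2xz]
  ring

theorem univ_sym2 : (Finset.univ : Finset (Sym2 (Fin 3))) =
    {s(0, 0), s(0, 1), s(0, 2), s(1, 1), s(1, 2), s(2, 2)} := by decide

theorem prod_sym2 {A : Type*} [CommMonoid A] (f : Sym2 (Fin 3) → A) : ∏ z, f z =
    f s(0, 0) * f s(0, 1) * f s(0, 2) * f s(1, 1) * f s(1, 2) * f s(2, 2) := by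
  rw [univ_sym2, Finset.prod_insert (by decide), Finset.prod_insert (by decide),
    Finset.prod_insert (by decide), Finset.prod_insert (by decide), Finset.prod_insert (by decide),
    Finset.prod_singleton]
  simp only [mul_assoc]

theorem monomial_wt (a b : Fin 3) : (monomial (wt s(a, b)) 1 : MvPolynomial (Fin 3) ℤ) =
    X a * X b := by
  rw [wt_mk, X, X, monomial_mul, one_mul]

theorem littlewood (d : ℕ) : vdm * hd d = ∑ p ∈ Jd d, altJ d p := by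
  have G1 : ∀ y : MvPolynomial (Fin 3) ℤ, (1 - PowerSeries.C y * PowerSeries.X) * Gk 1 y = 1 := by
    intro y
    have := Gk_mul 1 one_pos y
    rwa [pow_one] at this
  have G2 : ∀ y : MvPolynomial (Fin 3) ℤ,
      (1 - PowerSeries.C y * PowerSeries.X ^ 2) * Gk 2 y = 1 := fun y => Gk_mul 2 two_pos y
  have G3 : ∀ y : MvPolynomial (Fin 3) ℤ,
      (1 - PowerSeries.C y * PowerSeries.X ^ 3) * Gk 3 y = 1 := fun y => Gk_mul 3 three_pos y
  have key := ratid (A := PowerSeries (MvPolynomial (Fin 3) ℤ)) (PowerSeries.C (X 0))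
    (PowerSeries.C (X 1)) (PowerSeries.C (X 2)) PowerSeries.X
    (Gk 1 (X 0 ^ 2)) (Gk 1 (X 1 ^ 2)) (Gk 1 (X 2 ^ 2)) (Gk 2 (X 0 ^ 2 * X 1 ^ 2))
    (Gk 2 (X 0 ^ 2 * X 2 ^ 2)) (Gk 2 (X 1 ^ 2 * X 2 ^ 2)) (Gk 3 (X 0 ^ 2 * X 1 ^ 2 * X 2 ^ 2))
    (Gk 1 (X 0 * X 0)) (Gk 1 (X 0 * X 1)) (Gk 1 (X 0 * X 2)) (Gk 1 (X 1 * X 1))
    (Gk 1 (X 1 * X 2)) (Gk 1 (X 2 * X 2))
    (by rw [← map_pow]; exact G1 _)
    (by rw [← map_pow]; exact G1 _)
    (by rw [← map_pow]; exact G1 _)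
    (by rw [← map_pow, ← map_pow, ← map_mul]; exact G2 _)
    (by rw [← map_pow, ← map_pow, ← map_mul]; exact G2 _)
    (by rw [← map_pow, ← map_pow, ← map_mul]; exact G2 _)
    (by rw [← map_pow, ← map_pow, ← map_pow, ← map_mul, ← map_mul]; exact G3 _)
    (by rw [← map_mul]; exact G1 _)
    (by rw [← map_mul]; exact G1 _)
    (by rw [← map_mul]; exact G1 _)
    (by rw [← map_mul]; exact G1 _)
    (by rw [← map_mul]; exact G1 _)
    (by rw [← map_mul]; exact G1 _)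
  have h1 := congrArg (PowerSeries.coeff d) key
  have h2 : vdm * hd d = PowerSeries.coeff d ((PowerSeries.C (X 0) - PowerSeries.C (X 1)) *
      (PowerSeries.C (X 0) - PowerSeries.C (X 2)) * (PowerSeries.C (X 1) - PowerSeries.C (X 2)) *
      (Gk 1 (X 0 * X 0) * Gk 1 (X 0 * X 1) * Gk 1 (X 0 * X 2) * Gk 1 (X 1 * X 1) *
      Gk 1 (X 1 * X 2) * Gk 1 (X 2 * X 2))) := by
    rw [← map_sub, ← map_sub, ← map_sub, ← map_mul, ← map_mul, PowerSeries.coeff_C_mul,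
      hd_coeff, prod_sym2]
    simp only [monomial_wt]
    rfl
  rw [h2, h1]
  simp only [map_add, map_sub, ← map_pow, ← map_mul]
  have a1 := altside (X 0 : MvPolynomial (Fin 3) ℤ) (X 1) (X 2) d
  have a2 := altside (X 1 : MvPolynomial (Fin 3) ℤ) (X 0) (X 2) d
  have a3 := altside (X 0 : MvPolynomial (Fin 3) ℤ) (X 2) (X 1) d
  have a4 := altside (X 1 : MvPolynomial (Fin 3) ℤ) (X 2) (X 0) d
  have a5 := altside (X 2 : MvPolynomial (Fin 3) ℤ) (X 0) (X 1) d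
  have a6 := altside (X 2 : MvPolynomial (Fin 3) ℤ) (X 1) (X 0) d
  rw [show (X 1 ^ 2 * X 0 ^ 2 : MvPolynomial (Fin 3) ℤ) = X 0 ^ 2 * X 1 ^ 2 by ring] at a2
  rw [show (X 0 ^ 2 * X 2 ^ 2 * X 1 ^ 2 : MvPolynomial (Fin 3) ℤ) = X 0 ^ 2 * X 1 ^ 2 * X 2 ^ 2 by
    ring] at a3
  rw [show (X 1 ^ 2 * X 2 ^ 2 * X 0 ^ 2 : MvPolynomial (Fin 3) ℤ) = X 0 ^ 2 * X 1 ^ 2 * X 2 ^ 2 by
    ring] at a4
  rw [show (X 2 ^ 2 * X 0 ^ 2 : MvPolynomial (Fin 3) ℤ) = X 0 ^ 2 * X 2 ^ 2 by ring,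
    show (X 0 ^ 2 * X 2 ^ 2 * X 1 ^ 2 : MvPolynomial (Fin 3) ℤ) = X 0 ^ 2 * X 1 ^ 2 * X 2 ^ 2 by
    ring] at a5
  rw [show (X 2 ^ 2 * X 1 ^ 2 : MvPolynomial (Fin 3) ℤ) = X 1 ^ 2 * X 2 ^ 2 by ring,
    show (X 1 ^ 2 * X 2 ^ 2 * X 0 ^ 2 : MvPolynomial (Fin 3) ℤ) = X 0 ^ 2 * X 1 ^ 2 * X 2 ^ 2 by
    ring] at a6
  rw [← a1, ← a2, ← a3, ← a4, ← a5, ← a6, ← Finset.sum_sub_distrib, ← Finset.sum_sub_distrib,
    ← Finset.sum_add_distrib, ← Finset.sum_add_distrib, ← Finset.sum_sub_distrib]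
  rfl

end Pool.Agent.Iso79
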