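import Pool.Agent.Iso79.Diag
import Pool.Agent.Iso79.Littlewood

/-!
# The character of the eigenspaces of the Laplacian on polynomials of degree `d`

Proof.  `∑_c chE c d = hd d` (`finrank_Vw`), so `∑_c Δ · chE c d = ∑_{(m,n) ∈ Jd d} altJ d (m,n)`
(`littlewood`).  By `freud` all monomials `x` of `Δ · chE c d` satisfy `Qx x = 2 (3 - 6 c)`; all
monomials of `altJ d (m,n)` satisfy `Qx x = 2 (m² + m n + n²)`.  Comparing the parts with
`Qx x = 2 N` gives `ch_formula` (for `c = cN N`, i.e. `3 - 6 c = N`), and for `c` not of this form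
`Δ · chE c d = 0`, hence `chE c d = 0` (`mE_zero`; `MvPolynomial` over `ℤ` is a domain).
`EN_stab`: for `2 d + 3 ≥ 3 N + 9` (say) the sets `{(m,n) ∈ Jd d : m²+mn+n² = N}` and
`{(m,n) ∈ Jd (d+3) : ...}` agree and `altJ (d+3) p = (t₁t₂t₃)² altJ d p`, so that
`chE (cN N) (d+3) = (t₁t₂t₃)² chE (cN N) d`; as `p ↦ detP * p` maps `Ec c μ` injectively into
`Ec c (μ + (2,2,2))` (`Cas_detP_mul`, `detP_weight`), it is onto, and `Ec c μ' = 0` for the
weights `μ'` of degree `2 d + 6` which are not `≥ (2,2,2)` (then `p = 0`; take `p' = 0`).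
-/

open Matrix Complex MvPolynomial

noncomputable section

namespace Pool.Agent.Iso79

theorem coeff_chE (c : ℂ) (d : ℕ) (μ : Fin 3 →₀ ℕ) :
    coeff μ (chE c d) = if deg3 μ = 2 * d then (mE c μ : ℤ) else 0 := by
  unfold chE
  rw [coeff_sum]
  by_cases h : deg3 μ = 2 * d
  · rw [if_pos h, Finset.sum_eq_single μ]
    · rw [coeff_monomial, if_pos rfl]
    · intro ν _ hν
      rw [coeff_monomial, if_neg hν]
    · intro h'
      exact absurd (mem_wts.2 h) h'
  · rw [if_neg h]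
    apply Finset.sum_eq_zero
    intro ν hν
    rw [coeff_monomial, if_neg]
    rintro rfl
    exact h (mem_wts.1 hν)

theorem coeff_hd (d : ℕ) (μ : Fin 3 →₀ ℕ) :
    coeff μ (hd d) = if deg3 μ = 2 * d then (Module.finrank ℂ (Vw μ) : ℤ) else 0 := by
  unfold hd
  rw [coeff_sum]
  by_cases h : deg3 μ = 2 * d
  · rw [if_pos h, Finset.sum_eq_single μ]
    · rw [coeff_monomial, if_pos rfl]
    · intro ν _ hν
      rw [coeff_monomial, if_neg hν]
    · intro h'
      exact absurd (mem_wts.2 h) h'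
  · rw [if_neg h]
    apply Finset.sum_eq_zero
    intro ν hν
    rw [coeff_monomial, if_neg]
    rintro rfl
    exact h (mem_wts.1 hν)

/-- the eigenvalues in degree `d` -/
theorem eig_fin (d : ℕ) (c : ℂ) : ∃ s : Finset ℂ, c ∈ s ∧ hd d = ∑ c' ∈ s, chE c' d := by
  classical
  refine ⟨insert c ((wts d).biUnion fun μ => (finite_eig μ).toFinset), Finset.mem_insert_self _ _,
    ?_⟩
  ext μ
  rw [coeff_sum, coeff_hd]
  by_cases h : deg3 μ = 2 * d
  · rw [if_pos h, finrank_Vw μ (insert c ((wts d).biUnion fun μ => (finite_eig μ).toFinset))]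
    · push_cast
      apply Finset.sum_congr rfl
      intro c' _
      rw [coeff_chE, if_pos h]
    · intro c' hc'
      by_contra h'
      apply hc'
      apply Finset.mem_insert_of_mem
      rw [Finset.mem_biUnion]
      exact ⟨μ, mem_wts.2 h, by simpa using h'⟩
  · rw [if_neg h]
    symm
    apply Finset.sum_eq_zero
    intro c' _
    rw [coeff_chE, if_neg h]

/-- the monomials with `Qx x = 2 (3 - 6 c)` in `Δ · hd d` are those of `Δ · chE c d` -/
theorem coeff_vdm_hd (c : ℂ) (d : ℕ) (x : Fin 3 →₀ ℕ) (hx : ((Qx x : ℤ) : ℂ) = 2 * (3 - 6 * c)) :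
    coeff x (vdm * hd d) = coeff x (vdm * chE c d) := by
  obtain ⟨s, hcs, hs⟩ := eig_fin d c
  rw [hs, Finset.mul_sum, coeff_sum, Finset.sum_eq_single c]
  · intro c' _ hc'
    by_contra h
    have := freud c' d x h
    rw [hx] at this
    apply hc'
    linear_combination (1 / 12 : ℂ) * this
  · intro h
    exact absurd hcs h

theorem coeff_mono3 (i j k : Fin 3) (a b c : ℕ) (x : Fin 3 →₀ ℕ)
    (h : coeff x (X i ^ a * X j ^ b * X k ^ c : MvPolynomial (Fin 3) ℤ) ≠ 0) :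
    x = Finsupp.single i a + Finsupp.single j b + Finsupp.single k c := by
  rw [X_pow_eq_monomial, X_pow_eq_monomial, X_pow_eq_monomial, monomial_mul, monomial_mul,
    coeff_monomial] at h
  by_contra h'
  exact h (if_neg fun h'' => h' h''.symm)

theorem altP_coeff {a b c : ℕ} {x : Fin 3 →₀ ℕ} (h : coeff x (altP a b c) ≠ 0) :
    Qx x = ((a : ℤ) - b) ^ 2 + ((a : ℤ) - c) ^ 2 + ((b : ℤ) - c) ^ 2 := by
  have key : ∀ i j k : Fin 3, i ≠ j → i ≠ k → j ≠ k →
      x = Finsupp.single i a + Finsupp.single j b + Finsupp.single k c →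
      Qx x = ((a : ℤ) - b) ^ 2 + ((a : ℤ) - c) ^ 2 + ((b : ℤ) - c) ^ 2 := by
    rintro i j k hij hik hjk rfl
    unfold Qx
    fin_cases i <;> fin_cases j <;> fin_cases k <;> simp_all <;> ring
  unfold altP at h
  simp only [coeff_add, coeff_sub] at h
  by_cases h1 : coeff x (X 0 ^ a * X 1 ^ b * X 2 ^ c : MvPolynomial (Fin 3) ℤ) = 0
  · by_cases h2 : coeff x (X 1 ^ a * X 0 ^ b * X 2 ^ c : MvPolynomial (Fin 3) ℤ) = 0
    · by_cases h3 : coeff x (X 0 ^ a * X 2 ^ b * X 1 ^ c : MvPolynomial (Fin 3) ℤ) = 0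
      · by_cases h4 : coeff x (X 1 ^ a * X 2 ^ b * X 0 ^ c : MvPolynomial (Fin 3) ℤ) = 0
        · by_cases h5 : coeff x (X 2 ^ a * X 0 ^ b * X 1 ^ c : MvPolynomial (Fin 3) ℤ) = 0
          · by_cases h6 : coeff x (X 2 ^ a * X 1 ^ b * X 0 ^ c : MvPolynomial (Fin 3) ℤ) = 0
            · exfalso; apply h; rw [h1, h2, h3, h4, h5, h6]; norm_num
            · exact key 2 1 0 (by decide) (by decide) (by decide) (coeff_mono3 _ _ _ _ _ _ _ h6)
          · exact key 2 0 1 (by decide) (by decide) (by decide) (coeff_mono3 _ _ _ _ _ _ _ h5)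
        · exact key 1 2 0 (by decide) (by decide) (by decide) (coeff_mono3 _ _ _ _ _ _ _ h4)
      · exact key 0 2 1 (by decide) (by decide) (by decide) (coeff_mono3 _ _ _ _ _ _ _ h3)
    · exact key 1 0 2 (by decide) (by decide) (by decide) (coeff_mono3 _ _ _ _ _ _ _ h2)
  · exact key 0 1 2 (by decide) (by decide) (by decide) (coeff_mono3 _ _ _ _ _ _ _ h1)

theorem altJ_coeff {d : ℕ} {p : ℕ × ℕ} {x : Fin 3 →₀ ℕ} (h : coeff x (altJ d p) ≠ 0) :
    Qx x = 2 * ((p.1 : ℤ) ^ 2 + p.1 * p.2 + p.2 ^ 2) := by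
  unfold altJ at h
  rw [altP_coeff h]
  push_cast
  ring

theorem cN_eq (N : ℕ) : (2 * (3 - 6 * cN N) : ℂ) = 2 * (N : ℂ) := by
  unfold cN; ring

theorem ch_formula (N d : ℕ) : vdm * chE (cN N) d =
    ∑ p ∈ (Jd d).filter (fun p => p.1 ^ 2 + p.1 * p.2 + p.2 ^ 2 = N), altJ d p := by
  ext x
  by_cases hx : Qx x = 2 * (N : ℤ)
  · rw [← coeff_vdm_hd (cN N) d x (by rw [hx, cN_eq]; push_cast; rfl), littlewood, coeff_sum,
      coeff_sum, Finset.sum_filter]
    apply Finset.sum_congr rfl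
    intro p _
    split_ifs with hp
    · rfl
    · by_contra h
      have := altJ_coeff h
      rw [hx] at this
      apply hp
      have h2 : (N : ℤ) = (p.1 : ℤ) ^ 2 + p.1 * p.2 + p.2 ^ 2 := by linarith
      exact_mod_cast h2.symm
  · have h1 : coeff x (vdm * chE (cN N) d) = 0 := by
      by_contra h
      have := freud _ d x h
      rw [cN_eq] at this
      apply hx
      exact_mod_cast this
    rw [h1, coeff_sum]
    symm
    apply Finset.sum_eq_zero
    intro p hp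
    by_contra h
    have h2 := altJ_coeff h
    rw [Finset.mem_filter] at hp
    apply hx
    rw [h2, ← hp.2]
    push_cast
    ring

theorem vdm_ne_zero : vdm ≠ 0 := by
  intro h
  have := congrArg (eval (fun i : Fin 3 => ((i : ℕ) : ℤ))) h
  unfold vdm at this
  simp at this

theorem Ec_odd {c : ℂ} {μ : Fin 3 →₀ ℕ} (h : ¬ Even (deg3 μ)) : Ec c μ = ⊥ := by
  rw [Submodule.eq_bot_iff]
  intro p hp
  exact Vw_odd h (mem_Ec.1 hp).1

theorem mE_zero {c : ℂ} (hc : ∀ N : ℕ, c ≠ cN N) (μ : Fin 3 →₀ ℕ) : mE c μ = 0 := by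
  by_cases hμ : Even (deg3 μ)
  · obtain ⟨d, hd⟩ := hμ
    have hd2 : deg3 μ = 2 * d := by omega
    have h0 : vdm * chE c d = 0 := by
      ext x
      rw [coeff_zero]
      by_contra h
      have hQ := freud c d x h
      rw [← coeff_vdm_hd c d x hQ, littlewood, coeff_sum] at h
      obtain ⟨p, _, hp⟩ := Finset.exists_ne_zero_of_sum_ne_zero h
      have h2 := altJ_coeff hp
      apply hc (p.1 ^ 2 + p.1 * p.2 + p.2 ^ 2)
      rw [h2] at hQ
      unfold cN
      push_cast at hQ ⊢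
      linear_combination (1 / 12 : ℂ) * hQ
    have h1 : chE c d = 0 := (mul_eq_zero.1 h0).resolve_left vdm_ne_zero
    have h2 := coeff_chE c d μ
    rw [h1, if_pos hd2, coeff_zero] at h2
    exact_mod_cast h2.symm
  · unfold mE
    rw [Ec_odd hμ]
    simp

/-- the weight `(2,2,2)` -/
def w222 : Fin 3 →₀ ℕ := Finsupp.single 0 2 + Finsupp.single 1 2 + Finsupp.single 2 2

theorem detP_mul_mem {c : ℂ} {μ : Fin 3 →₀ ℕ} {p : Pol} (hp : p ∈ Ec c μ) :
    detP * p ∈ Ec c (μ + w222) := by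
  rw [mem_Ec] at hp ⊢
  refine ⟨?_, ?_⟩
  · have h1 : detP ∈ Vw w222 := detP_weight
    have h2 := hp.1
    unfold Vw at h1 h2 ⊢
    rw [mem_weightedHomogeneousSubmodule] at h1 h2 ⊢
    rw [add_comm]
    exact h1.mul h2
  · by_cases hμ : Even (deg3 μ)
    · obtain ⟨d, hd⟩ := hμ
      have hd2 : deg3 μ = 2 * d := by omega
      rw [Cas_detP_mul (Vw_homog hd2 hp.1), hp.2, mul_smul_comm]
    · rw [Vw_odd hμ hp.1]
      simp

theorem l3_add {d : ℕ} {p : ℕ × ℕ} (h : p.1 + 2 * p.2 ≤ 2 * d + 3) : l3 (d + 3) p = l3 d p + 2 := by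
  unfold l3
  have : 2 * (d + 3) + 3 - (p.1 + 2 * p.2) = (2 * d + 3 - (p.1 + 2 * p.2)) + 3 * 2 := by omega
  rw [this, Nat.add_mul_div_left _ _ (by norm_num)]

theorem altP_add (a b c : ℕ) : altP (a + 2) (b + 2) (c + 2) =
    (X 0 * X 1 * X 2) ^ 2 * altP a b c := by
  unfold altP
  ring

theorem Jd_stab {N d : ℕ} (hd : 3 * N + 6 ≤ 2 * d) :
    (Jd (d + 3)).filter (fun p => p.1 ^ 2 + p.1 * p.2 + p.2 ^ 2 = N) =
    (Jd d).filter (fun p => p.1 ^ 2 + p.1 * p.2 + p.2 ^ 2 = N) := by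
  ext p
  unfold Jd
  simp only [Finset.mem_filter, Finset.mem_product, Finset.mem_range]
  constructor
  · rintro ⟨⟨⟨h1, h2⟩, h3, h4, h5, h6⟩, h7⟩
    have h8 : p.1 ≤ N := by nlinarith
    have h9 : p.2 ≤ N := by nlinarith
    refine ⟨⟨⟨by omega, by omega⟩, h3, h4, by omega, ?_⟩, h7⟩
    omega
  · rintro ⟨⟨⟨h1, h2⟩, h3, h4, h5, h6⟩, h7⟩
    refine ⟨⟨⟨by omega, by omega⟩, h3, h4, by omega, ?_⟩, h7⟩
    omega

theorem chE_stab {N d : ℕ} (hd : 3 * N + 6 ≤ 2 * d) :
    chE (cN N) (d + 3) = (X 0 * X 1 * X 2) ^ 2 * chE (cN N) d := by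
  apply mul_left_cancel₀ vdm_ne_zero
  rw [ch_formula, Jd_stab hd]
  have : vdm * ((X 0 * X 1 * X 2) ^ 2 * chE (cN N) d) =
      (X 0 * X 1 * X 2) ^ 2 * (vdm * chE (cN N) d) := by ring
  rw [this, ch_formula, Finset.mul_sum]
  apply Finset.sum_congr rfl
  intro p hp
  rw [Finset.mem_filter] at hp
  have hp1 := hp.1
  unfold Jd at hp1
  rw [Finset.mem_filter] at hp1
  unfold altJ
  rw [l3_add hp1.2.2.2.1, ← altP_add]
  congr 1 <;> ring

theorem X222 : (X 0 * X 1 * X 2 : MvPolynomial (Fin 3) ℤ) ^ 2 = monomial w222 1 := by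
  unfold w222
  rw [mul_pow, mul_pow, X_pow_eq_monomial, X_pow_eq_monomial, X_pow_eq_monomial, monomial_mul,
    monomial_mul]
  norm_num

theorem deg3_w222 : deg3 w222 = 6 := by
  unfold deg3 w222; simp

theorem detP_ne_zero : detP ≠ 0 := by
  intro h
  have h1 := ev_detP
  rw [h, map_zero] at h1
  have h2 : (0 : ℂ) = 1 := congrFun h1 (mk 1)
  exact zero_ne_one h2

theorem EN_stab {N d : ℕ} (hd : 3 * N + 6 ≤ 2 * d) {μ : Fin 3 →₀ ℕ} (hμ : deg3 μ = 2 * (d + 3))
    {p : Pol} (hp : p ∈ Ec (cN N) μ) :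
    ∃ ν, deg3 ν = 2 * d ∧ ∃ p' ∈ Ec (cN N) ν, p = detP * p' := by
  have hch := congrArg (coeff μ) (chE_stab hd)
  rw [coeff_chE, if_pos hμ, X222, coeff_monomial_mul'] at hch
  by_cases hle : w222 ≤ μ
  · rw [if_pos hle, one_mul] at hch
    obtain ⟨ν, rfl⟩ := exists_add_of_le hle
    rw [add_tsub_cancel_left] at hch
    have hν : deg3 ν = 2 * d := by
      rw [deg3_add, deg3_w222] at hμ; omega
    rw [coeff_chE, if_pos hν] at hch
    refine ⟨ν, hν, ?_⟩
    have hch' : mE (cN N) (w222 + ν) = mE (cN N) ν := by exact_mod_cast hch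
    unfold mE at hch'
    let f : Ec (cN N) ν →ₗ[ℂ] Ec (cN N) (w222 + ν) :=
      { toFun := fun q => ⟨detP * q.1, by rw [add_comm]; exact detP_mul_mem q.2⟩
        map_add' := fun a b => by
          apply Subtype.ext
          simp [mul_add]
        map_smul' := fun a b => by
          apply Subtype.ext
          simp }
    have hf : Function.Injective f := by
      intro a b hab
      have := congrArg Subtype.val hab
      apply Subtype.ext
      exact mul_left_cancel₀ detP_ne_zero this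
    have hs : Function.Surjective f :=
      (LinearMap.injective_iff_surjective_of_finrank_eq_finrank hch'.symm).1 hf
    obtain ⟨q, hq⟩ := hs ⟨p, hp⟩
    exact ⟨q.1, q.2, (congrArg Subtype.val hq).symm⟩
  · rw [if_neg hle] at hch
    have h0 : mE (cN N) μ = 0 := by exact_mod_cast hch
    unfold mE at h0
    have h1 : Ec (cN N) μ = ⊥ := Submodule.finrank_eq_zero.1 h0
    rw [h1, Submodule.mem_bot] at hp
    refine ⟨Finsupp.single 0 (2 * d), ?_, 0, zero_mem _, by rw [hp, mul_zero]⟩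
    unfold deg3
    simp

end Pool.Agent.Iso79
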