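import Mathlib

/-!
# The symmetric space `X = SU(3)/SO(3)`, its Laplacian and its quotients

Model.  `g ↦ g gᵀ` identifies `SU(3)/SO(3)` with the set `XX` of the symmetric matrices in `SU(3)`
(Cartan embedding; `g` acts on `XX` by `S ↦ g S gᵀ`).  The `SU(3)`-invariant Riemannian metric on
`XX` (unique up to a positive constant) is the one induced by the real inner product
`Re tr (A Bᴴ)` of the space of all `3 × 3` complex matrices.

`P 0, …, P 4` is an orthonormal basis of the tangent space `i·Sym₀(ℝ)` of `XX` at `1`; for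
`g ∈ SU(3)` the curves `s ↦ g exp(s P k) gᵀ` are the unit speed geodesics of `XX` through `g gᵀ` in
five orthonormal directions, so that the Laplace–Beltrami operator is
`(Δ f)(g gᵀ) = ∑ k, (d²/ds²) f(g exp(s P k) gᵀ)` at `s = 0`.
-/

open Matrix Complex
open scoped ContDiff

noncomputable section

namespace Pool.Agent.Iso79

attribute [local instance] Matrix.linftyOpNormedRing Matrix.linftyOpNormedAlgebra

/-- `3 × 3` complex matrices -/
abbrev M3 : Type := Matrix (Fin 3) (Fin 3) ℂ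

/-- the group `SU(3)` -/
abbrev SU3 : Type := Matrix.specialUnitaryGroup (Fin 3) ℂ

/-- the symmetric space `SU(3)/SO(3)`: symmetric matrices in `SU(3)` -/
def XX : Type := {S : M3 // S ∈ Matrix.specialUnitaryGroup (Fin 3) ℂ ∧ Sᵀ = S}

theorem transpose_mem {S : M3} (h : S ∈ Matrix.specialUnitaryGroup (Fin 3) ℂ) :
    Sᵀ ∈ Matrix.specialUnitaryGroup (Fin 3) ℂ := by
  rw [Matrix.mem_specialUnitaryGroup_iff, Matrix.mem_unitaryGroup_iff] at h ⊢
  refine ⟨?_, by rw [det_transpose]; exact h.2⟩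
  have h1 : star S * S = 1 := mul_eq_one_comm.1 h.1
  have h2 : star (Sᵀ) = (star S)ᵀ := rfl
  rw [h2, ← transpose_mul, h1, transpose_one]

theorem conj_mem {S : M3} (h : S ∈ Matrix.specialUnitaryGroup (Fin 3) ℂ) :
    S.map (starRingEnd ℂ) ∈ Matrix.specialUnitaryGroup (Fin 3) ℂ := by
  have h1 : S.map (starRingEnd ℂ) = (Sᵀ)ᴴ := by
    ext i j; simp [conjTranspose_apply]
  rw [h1]
  exact (star (⟨Sᵀ, transpose_mem h⟩ : SU3)).2

/-- the projection `SU(3) → SU(3)/SO(3)`, `g ↦ g gᵀ` -/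
def mk (g : SU3) : XX := ⟨g.1 * g.1ᵀ, mul_mem g.2 (transpose_mem g.2), by
  rw [transpose_mul, transpose_transpose]⟩

/-- the isometry `S ↦ g S gᵀ` of `XX` -/
def tauFun (g : SU3) (S : XX) : XX := ⟨g.1 * S.1 * g.1ᵀ,
  mul_mem (mul_mem g.2 S.2.1) (transpose_mem g.2), by
    rw [transpose_mul, transpose_mul, transpose_transpose, S.2.2, Matrix.mul_assoc]⟩

theorem tauFun_mul (g h : SU3) (S : XX) : tauFun (g * h) S = tauFun g (tauFun h S) := by
  apply Subtype.ext
  change (g.1 * h.1) * S.1 * (g.1 * h.1)ᵀ = g.1 * (h.1 * S.1 * h.1ᵀ) * g.1ᵀ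
  rw [transpose_mul]
  simp only [Matrix.mul_assoc]

theorem tauFun_one (S : XX) : tauFun 1 S = S := by
  apply Subtype.ext
  change (1 : M3) * S.1 * (1 : M3)ᵀ = S.1
  rw [transpose_one, Matrix.one_mul, Matrix.mul_one]

/-- the isometry `S ↦ g S gᵀ` as a permutation of `XX` -/
def tau (g : SU3) : Equiv.Perm XX where
  toFun := tauFun g
  invFun := tauFun g⁻¹
  left_inv S := by rw [← tauFun_mul, inv_mul_cancel, tauFun_one]
  right_inv S := by rw [← tauFun_mul, mul_inv_cancel, tauFun_one]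

/-- an orthonormal basis (for `Re tr (A Bᴴ)`) of the tangent space `i·Sym₀(ℝ)` of `XX` at `1` -/
def P : Fin 5 → M3 := ![
  (I / (Real.sqrt 2 : ℂ)) • !![1, 0, 0; 0, -1, 0; 0, 0, 0],
  (I / (Real.sqrt 6 : ℂ)) • !![1, 0, 0; 0, 1, 0; 0, 0, -2],
  (I / (Real.sqrt 2 : ℂ)) • !![0, 1, 0; 1, 0, 0; 0, 0, 0],
  (I / (Real.sqrt 2 : ℂ)) • !![0, 0, 1; 0, 0, 0; 1, 0, 0],
  (I / (Real.sqrt 2 : ℂ)) • !![0, 0, 0; 0, 0, 1; 0, 1, 0]]

/-- `HasLap f h`: the function `f` on `XX` is smooth (the restriction of a smooth function `F` of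
`3 × 3` matrices) and `h` is its image under the Laplace–Beltrami operator -/
def HasLap (f h : XX → ℂ) : Prop := ∃ F : M3 → ℂ, ContDiff ℝ ∞ F ∧ (∀ S : XX, F S.1 = f S) ∧
  ∀ g : SU3, h (mk g) =
    ∑ k, iteratedDeriv 2 (fun s : ℝ => F (g.1 * NormedSpace.exp (s • P k) * g.1ᵀ)) 0

/-- bijections of `XX` which commute with the Laplace–Beltrami operator on smooth functions
(every isometry of the Riemannian manifold `XX` has this property) -/
def PreservesLap (φ : Equiv.Perm XX) : Prop :=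
  ∀ f h : XX → ℂ, HasLap f h → HasLap (f ∘ φ) (h ∘ φ)

theorem two_le_infty : ((2 : ℕ) : WithTop ℕ∞) ≤ ∞ := ENat.LEInfty.out

theorem curve_smooth (g : M3) (A : M3) : ContDiff ℝ ∞
    (fun s : ℝ => g * NormedSpace.exp (s • A) * gᵀ) := by
  have h1 : ContDiff ℝ ∞ (fun X : M3 => NormedSpace.exp X) :=
    contDiff_iff_contDiffAt.2 fun X => (NormedSpace.exp_analytic (𝕂 := ℝ) X).contDiffAt
  have h2 : ContDiff ℝ ∞ (fun s : ℝ => s • A) := contDiff_id.smul contDiff_const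
  exact (contDiff_const.mul (h1.comp h2)).mul contDiff_const

theorem HasLap.add {f h f' h' : XX → ℂ} (H : HasLap f h) (H' : HasLap f' h') :
    HasLap (f + f') (h + h') := by
  obtain ⟨F, hF, h1, h2⟩ := H
  obtain ⟨F', hF', h1', h2'⟩ := H'
  refine ⟨F + F', hF.add hF', fun S => ?_, fun g => ?_⟩
  · rw [Pi.add_apply, Pi.add_apply, h1, h1']
  · rw [Pi.add_apply, h2, h2', ← Finset.sum_add_distrib]
    refine Finset.sum_congr rfl fun k _ => ?_
    have e1 : ContDiff ℝ ∞ (fun s : ℝ => F (g.1 * NormedSpace.exp (s • P k) * g.1ᵀ)) :=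
      hF.comp (curve_smooth g.1 (P k))
    have e2 : ContDiff ℝ ∞ (fun s : ℝ => F' (g.1 * NormedSpace.exp (s • P k) * g.1ᵀ)) :=
      hF'.comp (curve_smooth g.1 (P k))
    exact (iteratedDeriv_fun_add (e1.contDiffAt.of_le two_le_infty)
      (e2.contDiffAt.of_le two_le_infty)).symm

theorem HasLap.smul {f h : XX → ℂ} (c : ℂ) (H : HasLap f h) : HasLap (c • f) (c • h) := by
  obtain ⟨F, hF, h1, h2⟩ := H
  refine ⟨c • F, contDiff_const.smul hF, fun S => ?_, fun g => ?_⟩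
  · rw [Pi.smul_apply, Pi.smul_apply, h1]
  · rw [Pi.smul_apply, h2, Finset.smul_sum]
    refine Finset.sum_congr rfl fun k _ => ?_
    have e1 : ContDiff ℝ ∞ (fun s : ℝ => F (g.1 * NormedSpace.exp (s • P k) * g.1ᵀ)) :=
      hF.comp (curve_smooth g.1 (P k))
    exact (iteratedDeriv_const_smul (e1.contDiffAt.of_le two_le_infty) c).symm

theorem HasLap.zero : HasLap 0 0 :=
  ⟨0, contDiff_const, fun _ => rfl, fun g => by
    have h1 : (fun s : ℝ => (0 : M3 → ℂ) (g.1 * NormedSpace.exp (s • P 0) * g.1ᵀ)) =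
      fun _ => (0 : ℂ) := rfl
    simp⟩

/-- the smooth functions on `XX / Γ` (that is, the `Γ`-invariant smooth functions on `XX`) with
`Δ f = - μ f` -/
def Eig (Γ : Subgroup (Equiv.Perm XX)) (μ : ℝ) : Submodule ℂ (XX → ℂ) where
  carrier := {f | HasLap f (-(μ : ℂ) • f) ∧ ∀ γ ∈ Γ, f ∘ γ = f}
  add_mem' {a b} ha hb := ⟨by rw [smul_add]; exact ha.1.add hb.1, fun γ hγ => by
    funext S; have h1 := congrFun (ha.2 γ hγ) S; have h2 := congrFun (hb.2 γ hγ) S
    simp only [Function.comp_apply, Pi.add_apply] at *; rw [h1, h2]⟩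
  zero_mem' := ⟨by rw [smul_zero]; exact HasLap.zero, fun γ _ => rfl⟩
  smul_mem' c a ha := ⟨by rw [smul_comm]; exact ha.1.smul c, fun γ hγ => by
    funext S; have h1 := congrFun (ha.2 γ hγ) S
    simp only [Function.comp_apply, Pi.smul_apply] at *; rw [h1]⟩

/-- `XX / Γ₁` and `XX / Γ₂` are isospectral: every `μ` has the same multiplicity as an eigenvalue
of the Laplacian -/
def Isospectral (Γ₁ Γ₂ : Subgroup (Equiv.Perm XX)) : Prop :=
  ∀ μ : ℝ, Module.rank ℂ (Eig Γ₁ μ) = Module.rank ℂ (Eig Γ₂ μ)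

/-- `Γ` acts freely on `XX` -/
def ActsFreely (Γ : Subgroup (Equiv.Perm XX)) : Prop := ∀ γ ∈ Γ, γ ≠ 1 → ∀ S : XX, γ S ≠ S

end Pool.Agent.Iso79
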