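import Pool.Agent.Iso79.Haar

/-!
# Polynomials are dense

Proof.  The functions `ev p` form a subalgebra of `C(XX, ℂ)` which is closed under conjugation
(`ev_conj`) and separates points (`ev_xv`), and `XX` is compact: Stone–Weierstrass
(`ContinuousMap.starSubalgebra_topologicalClosure_eq_top_of_separatesPoints`).  Approximate `f`
uniformly by `ev p`: `ip (ev p) f = 0` for all `p` gives `ip f f = 0`.
-/

open Matrix Complex MeasureTheory

noncomputable section

namespace Pool.Agent.Iso79

/-- the polynomial functions as a star subalgebra of the continuous functions -/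
def polAlg : StarSubalgebra ℂ C(XX, ℂ) where
  carrier := {φ | ∃ p : Pol, ∀ S, φ S = ev p S}
  mul_mem' := by
    rintro a b ⟨p, hp⟩ ⟨q, hq⟩
    refine ⟨p * q, fun S => ?_⟩
    rw [ContinuousMap.mul_apply, hp, hq, map_mul, Pi.mul_apply]
  add_mem' := by
    rintro a b ⟨p, hp⟩ ⟨q, hq⟩
    refine ⟨p + q, fun S => ?_⟩
    rw [ContinuousMap.add_apply, hp, hq, map_add, Pi.add_apply]
  algebraMap_mem' r := by
    refine ⟨algebraMap ℂ Pol r, fun S => ?_⟩
    rw [AlgHom.commutes]
    rfl
  star_mem' := by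
    rintro a ⟨p, hp⟩
    obtain ⟨p', hp'⟩ := ev_conj p
    refine ⟨p', fun S => ?_⟩
    rw [ContinuousMap.star_apply, hp, hp']
    rfl

theorem mem_polAlg {φ : C(XX, ℂ)} : φ ∈ polAlg ↔ ∃ p : Pol, ∀ S, φ S = ev p S := Iff.rfl

theorem polAlg_sep : polAlg.SeparatesPoints := by
  intro S T hST
  have hne : S.1 ≠ T.1 := fun h => hST (Subtype.ext h)
  have : ∃ a b, S.1 a b ≠ T.1 a b := by
    by_contra hcon
    push Not at hcon
    exact hne (Matrix.ext hcon)
  obtain ⟨a, b, hab⟩ := this
  refine ⟨ev (xv a b), ⟨⟨ev (xv a b), continuous_ev _⟩, ?_, rfl⟩, ?_⟩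
  · exact ⟨xv a b, fun S => rfl⟩
  · rw [ev_xv, ev_xv]
    exact hab

theorem dn_integrable_cont {F : SU3 → ℂ} (hF : Continuous F) : Integrable F hm :=
  hF.integrable_of_hasCompactSupport (HasCompactSupport.of_compactSpace F)

theorem eq_zero_of_orth {f : XX → ℂ} (hf : Continuous f) (h : ∀ p : Pol, ip (ev p) f = 0) :
    f = 0 := by
  apply ip_self_eq_zero hf
  have hdense := ContinuousMap.starSubalgebra_topologicalClosure_eq_top_of_separatesPoints
    (𝕜 := ℂ) polAlg polAlg_sep
  set f0 : C(XX, ℂ) := ⟨f, hf⟩ with hf0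
  have hmem : f0 ∈ polAlg.topologicalClosure := by rw [hdense]; trivial
  have hmem' : f0 ∈ closure (polAlg : Set C(XX, ℂ)) := hmem
  rw [← norm_eq_zero]
  have hkey : ∀ ε > 0, ‖ip f f‖ ≤ ε * ‖f0‖ := by
    intro ε hε
    obtain ⟨φ, hφ, hdist⟩ := Metric.mem_closure_iff.1 hmem' ε hε
    obtain ⟨p, hp⟩ := hφ
    have e1 : ip f f = ∫ g, starRingEnd ℂ (f (mk g) - ev p (mk g)) * f (mk g) ∂hm := by
      have e2 : ∫ g, starRingEnd ℂ (f (mk g) - ev p (mk g)) * f (mk g) ∂hm =
          ip f f - ip (ev p) f := by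
        unfold ip
        rw [← integral_sub]
        · refine integral_congr_ae (Filter.Eventually.of_forall fun g => ?_)
          simp only [map_sub]
          ring
        · exact dn_integrable_cont ((Complex.continuous_conj.comp (hf.comp continuous_mk)).mul
            (hf.comp continuous_mk))
        · exact dn_integrable_cont ((Complex.continuous_conj.comp
            ((continuous_ev p).comp continuous_mk)).mul (hf.comp continuous_mk))
      rw [e2, h, sub_zero]
    rw [e1]
    have h3 : ∀ g : SU3, ‖starRingEnd ℂ (f (mk g) - ev p (mk g)) * f (mk g)‖ ≤ ε * ‖f0‖ := by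
      intro g
      rw [norm_mul, RCLike.norm_conj]
      have h4 : ‖f (mk g) - ev p (mk g)‖ ≤ ε := by
        have h5 : ‖(f0 - φ) (mk g)‖ ≤ ‖f0 - φ‖ := ContinuousMap.norm_coe_le_norm _ _
        rw [ContinuousMap.sub_apply, hp] at h5
        rw [dist_eq_norm] at hdist
        exact h5.trans hdist.le
      have h6 : ‖f (mk g)‖ ≤ ‖f0‖ := ContinuousMap.norm_coe_le_norm f0 (mk g)
      exact mul_le_mul h4 h6 (norm_nonneg _) hε.le
    have h7 := norm_integral_le_of_norm_le_const (μ := hm) (Filter.Eventually.of_forall h3)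
    simpa using h7
  refine le_antisymm ?_ (norm_nonneg _)
  refine le_of_forall_pos_le_add fun δ hδ => ?_
  have h8 := hkey (δ / (‖f0‖ + 1)) (by positivity)
  refine h8.trans ?_
  rw [zero_add, div_mul_eq_mul_div, div_le_iff₀ (by positivity)]
  nlinarith [norm_nonneg f0]

end Pool.Agent.Iso79
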