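import Pool.Agent.Iso79.Poly

/-!
# The Freudenthal type recursion for eigenspaces of the Laplacian

Let `m(μ) = dim (Ec c μ)` and `ch = ∑_{|μ| = 2d} m(μ) t^μ`.  Put `Δ = ∏_{i<j} (t_i - t_j)`.
Claim: every monomial `t^x` of `Δ · ch` satisfies `∑_{i<j} (x_i - x_j)² = 2 (3 - 6 c)`.

Proof.  `Dd i j` commutes with `Cas` so it maps `Ec c (ν + e_i)` to `Ec c (ν + e_j)`
(`Dd_weight`, `Cas_comm`) and kills `Ec c μ` if `μ i = 0`.  For `i ≠ j` let `A_ij(μ)` be the trace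
of `Dd i j ∘ Dd j i` on `Ec c μ` (first replace an index `j` by `i`, then back).  By `Dd_comm` and
`Dd_diag`, on `Ec c μ`: `Dd i j Dd j i - Dd j i Dd i j = (μ j - μ i)`, so
  `A_ij(μ) - A_ji(μ) = (μ j - μ i) m(μ)`.
By `LinearMap.trace_comp_comm'` (trace of `f ∘ g` = trace of `g ∘ f` for maps between two spaces)
  `A_ji(ν + e_i) = A_ij(ν + e_j)`, and `A_ij(μ) = 0` if `μ j = 0`.
Generating functions `𝒜_ij = ∑_μ A_ij(μ) t^μ` (over `|μ| = 2 d`):
  `t_j 𝒜_ji = t_i 𝒜_ij`   (from the previous line: `∑_ν A_ji(ν+e_i) t^{ν+e_i+e_j}`),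
  `𝒜_ij - 𝒜_ji = (θ_j - θ_i) ch` with `θ_i = t_i ∂_i`,
so `(t_j - t_i) 𝒜_ij = t_j (θ_j - θ_i) ch`, `(t_i - t_j) 𝒜_ji = t_i (θ_i - θ_j) ch` and
  `(t_j - t_i) (𝒜_ij + 𝒜_ji) = (t_j + t_i) (θ_j - θ_i) ch`.
The trace of `Cas = c` (`Cas_on_weight`, `deg = 2 d`) gives, with `c₁ = -4 c + (4/3) d²`,
  `c₁ ch = ∑ θ_i² ch + ∑_{i<j} (𝒜_ij + 𝒜_ji)`.
Multiply by `Δ` and use `L = ∑ θ_i²` (so `L t^x = |x|² t^x`), `L(Δ ch) = Δ L ch + 2 ∑ θ_iΔ θ_i ch
+ (LΔ) ch`, `LΔ = 5 Δ`, `θ_i Δ = Δ ∑_{j≠i} t_i/(t_i - t_j)`, `∑ θ_i ch = 2 d ch`: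
  `L (Δ ch) = (c₁ + 4 d + 5) Δ ch`.
Hence every monomial `x` of `Δ ch` has `|x|² = c₁ + 4 d + 5`, `∑ x_i = 2 d + 3`, and
`∑_{i<j} (x_i - x_j)² = 3 |x|² - (∑ x_i)² = -12 c + 6`.
It is convenient to work over `ℂ` (coefficients in `ℂ`) and to cast at the end; all identities of
the last step are identities of polynomials after multiplication by `Δ`
(each of them can be checked with `ring` after expressing `θ_i` as `X i * pderiv i`).
-/

open MvPolynomial

noncomputable section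

namespace Pool.Agent.Iso79

/-- dimension of `Ec c μ` -/
def mE (c : ℂ) (μ : Fin 3 →₀ ℕ) : ℕ := Module.finrank ℂ (Ec c μ)

/-- the weights of total degree `2 d` -/
def wts (d : ℕ) : Finset (Fin 3 →₀ ℕ) := (Finset.univ : Finset (Fin 3)).finsuppAntidiag (2 * d)

theorem mem_wts {d : ℕ} {μ : Fin 3 →₀ ℕ} : μ ∈ wts d ↔ deg3 μ = 2 * d := by
  unfold wts deg3
  rw [Finset.mem_finsuppAntidiag, Fin.sum_univ_three]
  simp

/-- the character of the eigenspace for `c` in degree `d` -/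
def chE (c : ℂ) (d : ℕ) : MvPolynomial (Fin 3) ℤ := ∑ μ ∈ wts d, monomial μ (mE c μ : ℤ)

/-- the Vandermonde product -/
def vdm : MvPolynomial (Fin 3) ℤ := (X 0 - X 1) * (X 0 - X 2) * (X 1 - X 2)

/-- the quadratic form `∑_{i<j} (x_i - x_j)²` -/
def Qx (x : Fin 3 →₀ ℕ) : ℤ :=
  ((x 0 : ℤ) - x 1) ^ 2 + ((x 0 : ℤ) - x 2) ^ 2 + ((x 1 : ℤ) - x 2) ^ 2

/-! ### Traces -/

instance Ec_finite (c : ℂ) (μ : Fin 3 →₀ ℕ) : FiniteDimensional ℂ (Ec c μ) :=
  Submodule.finiteDimensional_of_le (inf_le_left : Ec c μ ≤ Vw μ)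

theorem Dd_Ec {c : ℂ} {ν : Fin 3 →₀ ℕ} {i j : Fin 3} {p : Pol}
    (hp : p ∈ Ec c (ν + Finsupp.single i 1)) : Dd i j p ∈ Ec c (ν + Finsupp.single j 1) := by
  rw [mem_Ec] at hp ⊢
  refine ⟨Dd_weight hp.1, ?_⟩
  rw [Cas_comm, hp.2, Derivation.map_smul]

theorem exists_split {μ : Fin 3 →₀ ℕ} {i : Fin 3} (h : μ i ≠ 0) :
    ∃ ν, μ = ν + Finsupp.single i 1 := by
  refine ⟨μ - Finsupp.single i 1, ?_⟩
  ext k
  rw [Finsupp.add_apply, Finsupp.tsub_apply]
  by_cases hk : k = i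
  · subst hk
    simp only [Finsupp.single_eq_same]
    omega
  · rw [Finsupp.single_eq_of_ne (by simpa using hk)]
    simp

theorem DD_mem {c : ℂ} {μ : Fin 3 →₀ ℕ} {i j : Fin 3} {p : Pol} (hp : p ∈ Ec c μ) :
    Dd i j (Dd j i p) ∈ Ec c μ := by
  by_cases h : μ j = 0
  · rw [Dd_zero (mem_Ec.1 hp).1 h, map_zero]
    exact zero_mem _
  · obtain ⟨ν, rfl⟩ := exists_split h
    exact Dd_Ec (Dd_Ec hp)

/-- the operator `Dd i j ∘ Dd j i` on `Ec c μ` -/
def Aop (c : ℂ) (i j : Fin 3) (μ : Fin 3 →₀ ℕ) : Ec c μ →ₗ[ℂ] Ec c μ :=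
  ((Dd i j).toLinearMap ∘ₗ (Dd j i).toLinearMap).restrict (fun _ hp => DD_mem hp)

theorem Aop_coe (c : ℂ) (i j : Fin 3) (μ : Fin 3 →₀ ℕ) (p : Ec c μ) :
    (Aop c i j μ p : Pol) = Dd i j (Dd j i p.1) := rfl

/-- its trace -/
def At (c : ℂ) (i j : Fin 3) (μ : Fin 3 →₀ ℕ) : ℂ := LinearMap.trace ℂ (Ec c μ) (Aop c i j μ)

theorem At_zero {c : ℂ} {i j : Fin 3} {μ : Fin 3 →₀ ℕ} (h : μ j = 0) : At c i j μ = 0 := by
  have h1 : Aop c i j μ = 0 := by
    refine LinearMap.ext fun p => Subtype.ext ?_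
    rw [Aop_coe, Dd_zero (mem_Ec.1 p.2).1 h, map_zero]
    rfl
  unfold At
  rw [h1, map_zero]

theorem At_diff (c : ℂ) (i j : Fin 3) (μ : Fin 3 →₀ ℕ) :
    At c i j μ - At c j i μ = ((μ j : ℂ) - μ i) * mE c μ := by
  unfold At
  rw [← map_sub]
  have h1 : Aop c i j μ - Aop c j i μ = ((μ j : ℂ) - μ i) • LinearMap.id := by
    refine LinearMap.ext fun p => Subtype.ext ?_
    rw [LinearMap.sub_apply, LinearMap.smul_apply, LinearMap.id_apply,
      Submodule.coe_sub, Submodule.coe_smul, Aop_coe, Aop_coe, Dd_comm, if_pos rfl, if_pos rfl,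
      Dd_diag (mem_Ec.1 p.2).1, Dd_diag (mem_Ec.1 p.2).1, sub_smul]
  rw [h1, map_smul, LinearMap.trace_id, smul_eq_mul]
  rfl

theorem At_swap (c : ℂ) (i j : Fin 3) (ν : Fin 3 →₀ ℕ) :
    At c j i (ν + Finsupp.single i 1) = At c i j (ν + Finsupp.single j 1) := by
  let f : Ec c (ν + Finsupp.single i 1) →ₗ[ℂ] Ec c (ν + Finsupp.single j 1) :=
    (Dd i j).toLinearMap.restrict (fun _ hp => Dd_Ec hp)
  let g : Ec c (ν + Finsupp.single j 1) →ₗ[ℂ] Ec c (ν + Finsupp.single i 1) :=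
    (Dd j i).toLinearMap.restrict (fun _ hp => Dd_Ec hp)
  have h1 : Aop c j i (ν + Finsupp.single i 1) = g ∘ₗ f := by
    ext p
    rfl
  have h2 : Aop c i j (ν + Finsupp.single j 1) = f ∘ₗ g := by
    ext p
    rfl
  unfold At
  rw [h1, h2]
  exact LinearMap.trace_comp_comm' f g

/-- the scalar by which `∑ Dd i j Dd j i` acts -/
def c1 (c : ℂ) (d : ℕ) : ℂ := -4 * c + 4 / 3 * (d : ℂ) ^ 2

theorem sum_At {c : ℂ} {d : ℕ} {μ : Fin 3 →₀ ℕ} (hμ : deg3 μ = 2 * d) :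
    ∑ i, ∑ j, At c i j μ = c1 c d * mE c μ := by
  have h1 : ∑ i, ∑ j, Aop c i j μ = c1 c d • LinearMap.id := by
    refine LinearMap.ext fun p => Subtype.ext ?_
    have h2 := Cas_on_weight (mem_Ec.1 p.2).1
    rw [(mem_Ec.1 p.2).2] at h2
    have h3 : ((∑ i, ∑ j, Aop c i j μ) p : Pol) = ∑ i, ∑ j, Dd i j (Dd j i p.1) := by
      simp only [LinearMap.sum_apply, Submodule.coe_sum, Aop_coe]
    rw [h3, LinearMap.smul_apply, LinearMap.id_apply, Submodule.coe_smul]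
    have h4 : ((deg3 μ : ℕ) : ℂ) = 2 * d := by rw [hμ]; push_cast; ring
    rw [h4] at h2
    unfold c1
    linear_combination (norm := module) (4 : ℂ) • h2
  have h5 := congrArg (LinearMap.trace ℂ (Ec c μ)) h1
  rw [map_smul, LinearMap.trace_id, smul_eq_mul] at h5
  rw [map_sum] at h5
  simp only [map_sum] at h5
  exact h5

theorem At_self (c : ℂ) (i : Fin 3) (μ : Fin 3 →₀ ℕ) :
    At c i i μ = (μ i : ℂ) ^ 2 * mE c μ := by
  have h1 : Aop c i i μ = ((μ i : ℂ) ^ 2) • LinearMap.id := by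
    refine LinearMap.ext fun p => Subtype.ext ?_
    rw [LinearMap.smul_apply, LinearMap.id_apply, Submodule.coe_smul, Aop_coe,
      Dd_diag (mem_Ec.1 p.2).1, Derivation.map_smul, Dd_diag (mem_Ec.1 p.2).1, smul_smul, sq]
  unfold At
  rw [h1, map_smul, LinearMap.trace_id, smul_eq_mul]
  rfl

/-! ### Generating functions -/

/-- the character over `ℂ` -/
def chC (c : ℂ) (d : ℕ) : MvPolynomial (Fin 3) ℂ := ∑ μ ∈ wts d, monomial μ (mE c μ : ℂ)

/-- the generating function of the traces -/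
def AC (c : ℂ) (i j : Fin 3) (d : ℕ) : MvPolynomial (Fin 3) ℂ :=
  ∑ μ ∈ wts d, monomial μ (At c i j μ)

/-- the Vandermonde product over `ℂ` -/
def vC : MvPolynomial (Fin 3) ℂ := (X 0 - X 1) * (X 0 - X 2) * (X 1 - X 2)

/-- the Euler operators -/
def th (i : Fin 3) : Derivation ℂ (MvPolynomial (Fin 3) ℂ) (MvPolynomial (Fin 3) ℂ) :=
  (X i : MvPolynomial (Fin 3) ℂ) • pderiv i

theorem th_apply (i : Fin 3) (q : MvPolynomial (Fin 3) ℂ) : th i q = X i * pderiv i q := rfl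

theorem th_monomial (i : Fin 3) (μ : Fin 3 →₀ ℕ) (a : ℂ) :
    th i (monomial μ a) = monomial μ ((μ i : ℂ) * a) := by
  rw [th_apply, X_mul_pderiv_monomial, smul_monomial, nsmul_eq_mul]

theorem coeff_th (i : Fin 3) (q : MvPolynomial (Fin 3) ℂ) (x : Fin 3 →₀ ℕ) :
    coeff x (th i q) = (x i : ℂ) * coeff x q := by
  induction q using MvPolynomial.induction_on' with
  | monomial μ a =>
    rw [th_monomial, coeff_monomial, coeff_monomial]
    split_ifs with h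
    · rw [h]
    · rw [mul_zero]
  | add p q hp hq => rw [map_add, coeff_add, coeff_add, hp, hq, mul_add]

theorem th_chC (c : ℂ) (d : ℕ) (i : Fin 3) :
    th i (chC c d) = ∑ μ ∈ wts d, monomial μ ((μ i : ℂ) * mE c μ) := by
  unfold chC
  rw [map_sum]
  exact Finset.sum_congr rfl fun μ _ => th_monomial _ _ _

theorem th_th_chC (c : ℂ) (d : ℕ) (i : Fin 3) :
    th i (th i (chC c d)) = ∑ μ ∈ wts d, monomial μ ((μ i : ℂ) ^ 2 * mE c μ) := by
  rw [th_chC, map_sum]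
  refine Finset.sum_congr rfl fun μ _ => ?_
  rw [th_monomial, ← mul_assoc, sq]

theorem coeff_AC (c : ℂ) (i j : Fin 3) (d : ℕ) (κ : Fin 3 →₀ ℕ) :
    coeff κ (AC c i j d) = if deg3 κ = 2 * d then At c i j κ else 0 := by
  unfold AC
  rw [coeff_sum]
  simp only [coeff_monomial]
  rw [Finset.sum_ite_eq']
  simp only [mem_wts]

theorem deg3_add (μ ν : Fin 3 →₀ ℕ) : deg3 (μ + ν) = deg3 μ + deg3 ν := by
  unfold deg3
  simp only [Finsupp.add_apply]
  ring

theorem deg3_single (i : Fin 3) : deg3 (Finsupp.single i 1) = 1 := by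
  unfold deg3
  fin_cases i <;> simp [Finsupp.single_apply]

theorem rel1 (c : ℂ) (d : ℕ) {i j : Fin 3} (hij : i ≠ j) :
    X j * AC c j i d = X i * AC c i j d := by
  ext κ
  rw [coeff_X_mul', coeff_X_mul', coeff_AC, coeff_AC]
  simp only [Finsupp.mem_support_iff]
  by_cases hj : κ j = 0
  · rw [if_neg (not_not.2 hj : ¬ (κ j ≠ 0))]
    by_cases hi : κ i = 0
    · rw [if_neg (not_not.2 hi : ¬ (κ i ≠ 0))]
    · rw [if_pos hi]
      split_ifs
      · refine (At_zero ?_).symm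
        rw [Finsupp.tsub_apply, hj]
        simp
      · rfl
  · rw [if_pos hj]
    by_cases hi : κ i = 0
    · rw [if_neg (not_not.2 hi : ¬ (κ i ≠ 0))]
      split_ifs
      · refine At_zero ?_
        rw [Finsupp.tsub_apply, hi]
        simp
      · rfl
    · rw [if_pos hi]
      obtain ⟨μ, rfl⟩ := exists_split hj
      have hi' : μ i ≠ 0 := by
        rw [Finsupp.add_apply, Finsupp.single_eq_of_ne hij] at hi
        simpa using hi
      obtain ⟨ν, rfl⟩ := exists_split hi'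
      have e1 : ν + Finsupp.single i 1 + Finsupp.single j 1 - Finsupp.single j 1 =
          ν + Finsupp.single i 1 := add_tsub_cancel_right _ _
      have e2 : ν + Finsupp.single i 1 + Finsupp.single j 1 - Finsupp.single i 1 =
          ν + Finsupp.single j 1 := by
        rw [add_right_comm]
        exact add_tsub_cancel_right _ _
      rw [e1, e2, deg3_add, deg3_add, deg3_single, deg3_single, At_swap]

theorem rel2 (c : ℂ) (d : ℕ) (i j : Fin 3) :
    AC c i j d - AC c j i d = th j (chC c d) - th i (chC c d) := by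
  rw [th_chC, th_chC]
  unfold AC
  rw [← Finset.sum_sub_distrib, ← Finset.sum_sub_distrib]
  refine Finset.sum_congr rfl fun μ _ => ?_
  rw [← map_sub, ← map_sub, At_diff, sub_mul]

theorem rel12 (c : ℂ) (d : ℕ) {i j : Fin 3} (hij : i ≠ j) :
    (X j - X i) * (AC c i j d + AC c j i d) =
      (X i + X j) * (th j (chC c d) - th i (chC c d)) := by
  linear_combination (X i + X j) * rel2 c d i j + (2 : MvPolynomial (Fin 3) ℂ) * rel1 c d hij

theorem rel3 (c : ℂ) (d : ℕ) :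
    C (c1 c d) * chC c d = th 0 (th 0 (chC c d)) + th 1 (th 1 (chC c d)) + th 2 (th 2 (chC c d)) +
      (AC c 0 1 d + AC c 1 0 d) + (AC c 0 2 d + AC c 2 0 d) + (AC c 1 2 d + AC c 2 1 d) := by
  rw [th_th_chC, th_th_chC, th_th_chC]
  unfold AC chC
  rw [Finset.mul_sum]
  simp only [← Finset.sum_add_distrib, C_mul_monomial, ← map_add]
  refine Finset.sum_congr rfl fun μ hμ => ?_
  congr 1
  have h := sum_At (c := c) (mem_wts.1 hμ)
  simp only [Fin.sum_univ_three, At_self] at h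
  linear_combination -h

theorem rel4 (c : ℂ) (d : ℕ) :
    th 0 (chC c d) + th 1 (chC c d) + th 2 (chC c d) = C (2 * (d : ℂ)) * chC c d := by
  rw [th_chC, th_chC, th_chC]
  unfold chC
  rw [Finset.mul_sum]
  simp only [← Finset.sum_add_distrib, C_mul_monomial, ← map_add]
  refine Finset.sum_congr rfl fun μ hμ => ?_
  congr 1
  have h : ((deg3 μ : ℕ) : ℂ) = 2 * d := by
    rw [mem_wts.1 hμ]
    push_cast
    ring
  unfold deg3 at h
  push_cast at h
  linear_combination (mE c μ : ℂ) * h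

theorem th_X_self (i : Fin 3) : th i (X i) = X i := by
  rw [th_apply, pderiv_X_self, mul_one]

theorem th_X_ne {i j : Fin 3} (h : j ≠ i) : th i (X j) = 0 := by
  rw [th_apply, pderiv_X_of_ne h, mul_zero]

theorem th0_vC : th 0 vC = X 0 * (X 0 - X 2) * (X 1 - X 2) + X 0 * (X 0 - X 1) * (X 1 - X 2) := by
  unfold vC
  simp only [Derivation.leibniz, map_sub, th_X_self, th_X_ne (show (1 : Fin 3) ≠ 0 by decide),
    th_X_ne (show (2 : Fin 3) ≠ 0 by decide), smul_eq_mul]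
  ring

theorem th1_vC : th 1 vC = -(X 1 * (X 0 - X 2) * (X 1 - X 2)) + X 1 * (X 0 - X 1) * (X 0 - X 2) := by
  unfold vC
  simp only [Derivation.leibniz, map_sub, th_X_self, th_X_ne (show (0 : Fin 3) ≠ 1 by decide),
    th_X_ne (show (2 : Fin 3) ≠ 1 by decide), smul_eq_mul]
  ring

theorem th2_vC : th 2 vC =
    -(X 2 * (X 0 - X 1) * (X 1 - X 2)) - X 2 * (X 0 - X 1) * (X 0 - X 2) := by
  unfold vC
  simp only [Derivation.leibniz, map_sub, th_X_self, th_X_ne (show (0 : Fin 3) ≠ 2 by decide),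
    th_X_ne (show (1 : Fin 3) ≠ 2 by decide), smul_eq_mul]
  ring

theorem sum_th_vC : th 0 vC + th 1 vC + th 2 vC = 3 * vC := by
  rw [th0_vC, th1_vC, th2_vC]
  unfold vC
  ring

theorem sum_thth_vC : th 0 (th 0 vC) + th 1 (th 1 vC) + th 2 (th 2 vC) = 5 * vC := by
  rw [th0_vC, th1_vC, th2_vC]
  simp only [Derivation.leibniz, map_sub, map_add, map_neg, th_X_self,
    th_X_ne (show (0 : Fin 3) ≠ 2 by decide), th_X_ne (show (1 : Fin 3) ≠ 2 by decide),
    th_X_ne (show (0 : Fin 3) ≠ 1 by decide), th_X_ne (show (2 : Fin 3) ≠ 1 by decide),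
    th_X_ne (show (1 : Fin 3) ≠ 0 by decide), th_X_ne (show (2 : Fin 3) ≠ 0 by decide),
    smul_eq_mul]
  unfold vC
  ring

theorem sum_th (c : ℂ) (d : ℕ) :
    th 0 (vC * chC c d) + th 1 (vC * chC c d) + th 2 (vC * chC c d) =
      C (2 * (d : ℂ) + 3) * (vC * chC c d) := by
  simp only [Derivation.leibniz, smul_eq_mul]
  have h3 : (C (2 * (d : ℂ) + 3) : MvPolynomial (Fin 3) ℂ) = C (2 * (d : ℂ)) + 3 := by
    rw [C_add]
    congr 1
  rw [h3]
  linear_combination vC * rel4 c d + chC c d * sum_th_vC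

theorem sum_thth (c : ℂ) (d : ℕ) :
    th 0 (th 0 (vC * chC c d)) + th 1 (th 1 (vC * chC c d)) + th 2 (th 2 (vC * chC c d)) =
      C (c1 c d + 4 * d + 5) * (vC * chC c d) := by
  simp only [Derivation.leibniz, smul_eq_mul, map_add]
  have h5 : (C (5 : ℂ) : MvPolynomial (Fin 3) ℂ) = 5 := by
    exact map_ofNat C 5
  have h4 : (C (4 * (d : ℂ)) : MvPolynomial (Fin 3) ℂ) = 2 * C (2 * (d : ℂ)) := by
    have : (2 : MvPolynomial (Fin 3) ℂ) = C 2 := (map_ofNat C 2).symm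
    rw [this, ← C_mul]
    congr 1
    ring
  rw [h4, h5]
  have e1 := rel12 c d (show (0 : Fin 3) ≠ 1 by decide)
  have e2 := rel12 c d (show (0 : Fin 3) ≠ 2 by decide)
  have e3 := rel12 c d (show (1 : Fin 3) ≠ 2 by decide)
  have t := sum_thth_vC
  have r3 := rel3 c d
  have r4 := rel4 c d
  have v0 := th0_vC
  have v1 := th1_vC
  have v2 := th2_vC
  have hv : vC = (X 0 - X 1) * (X 0 - X 2) * (X 1 - X 2) := rfl
  linear_combination (-vC) * r3 + chC c d * t + 2 * vC * r4 + 2 * th 0 (chC c d) * v0 +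
    2 * th 1 (chC c d) * v1 + 2 * th 2 (chC c d) * v2 + (X 0 - X 2) * (X 1 - X 2) * e1 +
    (X 0 - X 1) * (X 1 - X 2) * e2 + (X 0 - X 1) * (X 0 - X 2) * e3 -
    ((AC c 0 1 d + AC c 1 0 d) + (AC c 0 2 d + AC c 2 0 d) + (AC c 1 2 d + AC c 2 1 d) +
      2 * (th 0 (chC c d) + th 1 (chC c d) + th 2 (chC c d))) * hv

theorem map_vdm_chE (c : ℂ) (d : ℕ) :
    MvPolynomial.map (Int.castRingHom ℂ) (vdm * chE c d) = vC * chC c d := by
  unfold vdm chE vC chC
  rw [map_mul, map_sum]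
  simp

theorem freud (c : ℂ) (d : ℕ) (x : Fin 3 →₀ ℕ) (h : coeff x (vdm * chE c d) ≠ 0) :
    ((Qx x : ℤ) : ℂ) = 2 * (3 - 6 * c) := by
  have h0 : coeff x (vC * chC c d) ≠ 0 := by
    rw [← map_vdm_chE, coeff_map]
    simpa using h
  have s1 := congrArg (coeff x) (sum_th c d)
  have s2 := congrArg (coeff x) (sum_thth c d)
  simp only [coeff_add, coeff_th, coeff_C_mul] at s1 s2
  have t1 : (x 0 : ℂ) + x 1 + x 2 = 2 * d + 3 := by
    apply mul_right_cancel₀ h0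
    linear_combination s1
  have t2 : (x 0 : ℂ) ^ 2 + (x 1 : ℂ) ^ 2 + (x 2 : ℂ) ^ 2 = c1 c d + 4 * d + 5 := by
    apply mul_right_cancel₀ h0
    linear_combination s2
  unfold c1 at t2
  unfold Qx
  push_cast
  linear_combination 3 * t2 - ((x 0 : ℂ) + x 1 + x 2 + 2 * d + 3) * t1

end Pool.Agent.Iso79
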