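import Pool.Agent.Iso79.LapSymm
import Pool.Agent.Iso79.Freud

/-!
# The Laplacian is diagonalisable on the polynomials of weight `μ`

Proof.  `⟨p, q⟩ = ip (ev p) (ev q)` is a positive definite hermitian form on the finite
dimensional space `Vw μ` (definite: `ip_self_eq_zero`, `ev_inj`, `Vw_homog`, `Vw_odd`), and `Cas`
(`Cas_weight`) is symmetric for it (`ip_lap_symm`, `hasLap_ev`).  So `Vw μ` is the direct sum of the
eigenspaces (`LinearMap.IsSymmetric.orthogonalFamily_eigenspaces`,
`LinearMap.IsSymmetric.direct_sum_isInternal`; build an `InnerProductSpace.Core` on `Vw μ`).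
-/

open Matrix Complex

noncomputable section

namespace Pool.Agent.Iso79

theorem ev_inj_weight {μ : Fin 3 →₀ ℕ} {p : Pol} (hp : p ∈ Vw μ) (h : ev p = 0) : p = 0 := by
  by_cases he : Even (deg3 μ)
  · obtain ⟨d, hd⟩ := he
    exact ev_inj (Vw_homog (d := d) (by rw [hd]; ring) hp) h
  · exact Vw_odd he hp

/-- the operator `Cas` on `Vw μ` -/
def CasW (μ : Fin 3 →₀ ℕ) : Module.End ℂ (Vw μ) := Cas.restrict fun _ hp => Cas_weight hp

theorem CasW_coe (μ : Fin 3 →₀ ℕ) (p : Vw μ) : (CasW μ p : Pol) = Cas p.1 := rfl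

/-- the inner product on `Vw μ` -/
@[instance_reducible]
def coreW (μ : Fin 3 →₀ ℕ) : InnerProductSpace.Core ℂ (Vw μ) where
  inner p q := ip (ev p.1) (ev q.1)
  conj_inner_symm p q := ip_conj _ _
  re_inner_nonneg p := ip_self_re_nonneg _
  add_left p q r := by
    rw [← ip_conj, ← ip_conj (ev r.1) (ev p.1), ← ip_conj (ev r.1) (ev q.1), ← map_add]
    congr 1
    rw [Submodule.coe_add, map_add]
    exact ip_add_right (continuous_ev _) (continuous_ev _) (continuous_ev _)
  smul_left p q r := by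
    rw [← ip_conj, ← ip_conj (ev q.1) (ev p.1), ← map_mul]
    congr 1
    rw [Submodule.coe_smul, map_smul]
    exact ip_smul_right _ _ _
  definite p h := by
    have h1 := ip_self_eq_zero (continuous_ev _) h
    exact Subtype.ext (ev_inj_weight p.2 h1)

theorem iSup_eigenspace (μ : Fin 3 →₀ ℕ) :
    ⨆ c : ℂ, Module.End.eigenspace (CasW μ) c = ⊤ := by
  let _ : NormedAddCommGroup (Vw μ) := @InnerProductSpace.Core.toNormedAddCommGroup ℂ _ _ _ _
    (coreW μ)
  let _ : InnerProductSpace ℂ (Vw μ) := InnerProductSpace.ofCore (coreW μ).toCore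
  have hsym : (CasW μ).IsSymmetric := by
    intro p q
    change ip (ev (CasW μ p : Pol)) (ev q.1) = ip (ev p.1) (ev (CasW μ q : Pol))
    rw [CasW_coe, CasW_coe]
    exact ip_lap_symm (hasLap_ev _) (hasLap_ev _)
  have h := hsym.orthogonalComplement_iSup_eigenspaces_eq_bot
  exact (Submodule.orthogonal_eq_bot_iff).1 h

theorem map_eigenspace (c : ℂ) (μ : Fin 3 →₀ ℕ) :
    (Module.End.eigenspace (CasW μ) c).map (Vw μ).subtype = Ec c μ := by
  ext p
  rw [Submodule.mem_map, mem_Ec]
  constructor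
  · rintro ⟨q, hq, rfl⟩
    refine ⟨q.2, ?_⟩
    have := congrArg Subtype.val (Module.End.mem_eigenspace_iff.1 hq)
    simpa [CasW_coe] using this
  · rintro ⟨h1, h2⟩
    refine ⟨⟨p, h1⟩, ?_, rfl⟩
    rw [Module.End.mem_eigenspace_iff]
    apply Subtype.ext
    rw [CasW_coe]
    exact h2

theorem finrank_eigenspace (c : ℂ) (μ : Fin 3 →₀ ℕ) :
    Module.finrank ℂ (Module.End.eigenspace (CasW μ) c) = mE c μ := by
  unfold mE
  rw [← map_eigenspace, Submodule.finrank_map_subtype_eq]

theorem Cas_diag (μ : Fin 3 →₀ ℕ) : Vw μ ≤ ⨆ c : ℂ, Ec c μ := by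
  have h := congrArg (Submodule.map (Vw μ).subtype) (iSup_eigenspace μ)
  rw [Submodule.map_iSup, Submodule.map_top, Submodule.range_subtype] at h
  rw [← h]
  exact iSup_mono fun c => (map_eigenspace c μ).le

/-- dimensions add up -/
theorem finrank_Vw (μ : Fin 3 →₀ ℕ) (s : Finset ℂ) (hs : ∀ c ∉ s, mE c μ = 0) :
    Module.finrank ℂ (Vw μ) = ∑ c ∈ s, mE c μ := by
  have hbot : ∀ c ∉ s, Module.End.eigenspace (CasW μ) c = ⊥ := by
    intro c hc
    have h := finrank_eigenspace c μ
    rw [hs c hc] at h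
    exact Submodule.finrank_eq_zero.1 h
  have hind := Module.End.eigenspaces_iSupIndep (CasW μ)
  have hind' : iSupIndep fun c : s => Module.End.eigenspace (CasW μ) c.1 :=
    hind.comp Subtype.val_injective
  have htop : ⨆ c : s, Module.End.eigenspace (CasW μ) c.1 = ⊤ := by
    rw [eq_top_iff, ← iSup_eigenspace μ]
    refine iSup_le fun c => ?_
    by_cases hc : c ∈ s
    · exact le_iSup (fun c : s => Module.End.eigenspace (CasW μ) c.1) ⟨c, hc⟩
    · rw [hbot c hc]
      exact bot_le
  have hint : DirectSum.IsInternal fun c : s => Module.End.eigenspace (CasW μ) c.1 :=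
    (DirectSum.isInternal_submodule_iff_iSupIndep_and_iSup_eq_top _).2 ⟨hind', htop⟩
  have e := LinearEquiv.ofBijective (DirectSum.coeLinearMap
    fun c : s => Module.End.eigenspace (CasW μ) c.1) hint
  rw [← e.finrank_eq, Module.finrank_directSum, ← Finset.sum_coe_sort s fun c => mE c μ]
  exact Finset.sum_congr rfl fun c _ => finrank_eigenspace _ _

/-- only finitely many eigenvalues -/
theorem finite_eig (μ : Fin 3 →₀ ℕ) : {c : ℂ | mE c μ ≠ 0}.Finite := by
  have h := WellFoundedGT.finite_ne_bot_of_iSupIndep (Module.End.eigenspaces_iSupIndep (CasW μ))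
  refine h.subset ?_
  intro c hc h1
  apply hc
  rw [← finrank_eigenspace, h1]
  simp

end Pool.Agent.Iso79
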