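import Mathlib

/-!
# The theta function `Ath`, the false theta function `Bth` and their behaviour as `t → 0`

along the path `t = tt τ = τ² + i τ`, `τ → 0⁺`.  Put `u = 1/τ`, `c = 3/4`.

`1/t = (1 - i/τ)/(1 + τ²)`, so `Re (1/t) = 1/(1+τ²)`, `Im (1/t) = -1/(τ(1+τ²))`.

**Ath.** Poisson summation (mathlib `jacobiTheta₂_functional_equation`, or
`Real.tsum_exp_neg_quadratic`/`Complex.tsum_exp_neg_quadratic`):
`Ath η t = (π/t)^{1/2} ∑_l (-1)^l exp(-κ_l/t)`, `κ_l = (η - 2π l)²/4`.  As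
`exp(-κ/t) = exp(-κ/(1+τ²) + iκ/(τ(1+τ²)))`, `exp(-κ/t) - exp(-κ + iκ/τ) → 0` for every `κ`, and both
are bounded by `exp(-κ/2)`; `τ/t → 1/i`.  Dominated convergence (`tendsto_tsum_of_dominated_convergence`).

**Bth.** For `Re t > 0`, `∫_0^∞ v^{-1/2} e^{-c m² v} dv = (π/(c m²))^{1/2}`, so
`Bth a t = (c/π)^{1/2} ∫_0^∞ v^{-1/2} Θ(a, t+v) dv`, `Θ(a,t) = ∑_{m odd} m e^{i m a - c m² t}`.
The part `v ≥ 1` is bounded uniformly in `t` (`|Θ| ≤ ∑ |m| e^{-c m² v}`).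
Poisson summation (`jacobiTheta₂'_functional_equation`, or differentiate the one for
`∑_{m odd} e^{i m a - c m² t} = (1/2)(π/(ct))^{1/2} ∑_l (-1)^l e^{-b_l²/(4ct)}`, `b_l = a - π l`):
`Θ(a,t) = (i/(4ct)) (π/(ct))^{1/2} ∑_l (-1)^l b_l e^{-β_l/t}`, `β_l = b_l²/(4c) = b_l²/3`.
So (absolutely convergent on `[0,1]`)
`Bth a t = O(1) + (i/(4c)) ∑_l (-1)^l b_l ∫_0^1 v^{-1/2} (t+v)^{-3/2} e^{-β_l/(t+v)} dv`.
Substitute `v = τ² w`; `t + τ² w = i τ (1 - i x)`, `x = τ (1+w)`: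
`√τ ∫_0^1 ... dv = i^{-3/2} ∫_0^{1/τ²} w^{-1/2} (1 - i x)^{-3/2} e^{E} dw`,
`E = iβ/(τ(1+x²)) - β(1+w)/(1+x²)`.
* `w ≤ 1/τ - 1` (`x ≤ 1`): the modulus is `≤ w^{-1/2} e^{-β(1+w)/2}`; multiplied by `e^{-iβ/τ}` the
  integrand tends to `w^{-1/2} e^{-β(1+w)}` (as `β/(τ(1+x²)) - β/τ = -βτ(1+w)²/(1+x²) → 0`).
* `1/τ - 1 ≤ w ≤ 1/τ²` (`1 ≤ x ≤ 2/τ`): the modulus is
  `≤ w^{-1/2} x^{-3/2} e^{-β/(2τx)} ≤ 4 β^{-1} e^{-β/8} τ w^{-1/2} x^{-1/2}` (`e^{-y} ≤ 1/y`,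
  `τ x ≤ 2`), whose integral is `O(β^{-1} e^{-β/8} √τ log(1/τ))`.
So `√τ ∫_0^1 … dv = i^{-3/2} e^{iβ/τ} e^{-β} (π/β)^{1/2} + o(1)`, with a bound `C(β^{-1/2} + β^{-1}) e^{-β/8}`
uniform in `τ`, summable against `|b_l|` (`b_l ≠ 0` for all `l`).  Since `|b_l| (π/β_l)^{1/2} = (4πc)^{1/2}`
we get the claim with `cB = (i/(4c)) i^{-3/2} (4πc)^{1/2} ≠ 0`.
-/

open Complex Filter Topology

noncomputable section

namespace Pool.Agent.Iso79

/-- the path -/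
def tt (τ : ℝ) : ℂ := (τ : ℂ) ^ 2 + I * τ

/-- the theta function -/
def Ath (η : ℝ) (t : ℂ) : ℂ := ∑' n : ℤ, exp (I * (n + 1 / 2) * η - t * (n + 1 / 2) ^ 2)

/-- the false theta function -/
def Bth (a : ℝ) (t : ℂ) : ℂ :=
  ∑' n : ℤ, (Int.sign (2 * n + 1) : ℂ) * exp (I * (2 * n + 1) * a - 3 / 4 * t * (2 * n + 1) ^ 2)

/-- limit function for `Ath` -/
def PA (η u : ℝ) : ℂ := ∑' l : ℤ, (-1 : ℂ) ^ l * exp (((η - 2 * Real.pi * l) ^ 2 / 4 : ℝ) * (-1 + I * u))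

/-- limit function for `Bth` -/
def PB (a u : ℝ) : ℂ := ∑' l : ℤ, (-1 : ℂ) ^ l * (SignType.sign (a - Real.pi * l) : ℂ) *
  exp (((a - Real.pi * l) ^ 2 / 3 : ℝ) * (-1 + I * u))

/-- Gaussian sums over the integers converge absolutely -/
theorem summable_gauss (a b c : ℂ) (ha : 0 < a.re) :
    Summable fun n : ℤ => exp (-a * (n : ℂ) ^ 2 + b * n + c) := by
  have hpi : (Real.pi : ℂ) ≠ 0 := by exact_mod_cast Real.pi_ne_zero
  have him : 0 < (I * a / Real.pi).im := by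
    have h1 : (I * a / Real.pi).im = a.re / Real.pi := by
      rw [Complex.div_ofReal_im]
      simp
    rw [h1]
    exact div_pos ha Real.pi_pos
  have h := (summable_jacobiTheta₂_term_iff (b / (2 * Real.pi * I)) (I * a / Real.pi)).2 him
  have h2 := h.mul_left (exp c)
  refine h2.congr fun n => ?_
  rw [jacobiTheta₂_term, ← Complex.exp_add]
  congr 1
  field_simp
  rw [I_sq]
  ring

theorem summable_Ath (η : ℝ) {t : ℂ} (ht : 0 < t.re) :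
    Summable fun n : ℤ => exp (I * (n + 1 / 2) * η - t * (n + 1 / 2) ^ 2) := by
  refine (summable_gauss t (I * η - t) (I * η / 2 - t / 4) ht).congr fun n => ?_
  congr 1
  ring

theorem summable_Bth (a : ℝ) {t : ℂ} (ht : 0 < t.re) : Summable fun n : ℤ =>
    (Int.sign (2 * n + 1) : ℂ) * exp (I * (2 * n + 1) * a - 3 / 4 * t * (2 * n + 1) ^ 2) := by
  have h3 : 0 < (3 * t).re := by
    rw [show (3 : ℂ) = ((3 : ℝ) : ℂ) by norm_num, Complex.re_ofReal_mul]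
    linarith
  have h := (summable_gauss (3 * t) (2 * I * a - 3 * t) (I * a - 3 / 4 * t) h3).norm
  refine Summable.of_norm_bounded h fun n => ?_
  rw [norm_mul]
  have h1 : ‖((Int.sign (2 * n + 1) : ℤ) : ℂ)‖ ≤ 1 := by
    rw [Complex.norm_intCast]
    rcases Int.sign_trichotomy (2 * n + 1) with h | h | h <;> rw [h] <;> simp
  have h2 : exp (I * (2 * n + 1) * a - 3 / 4 * t * (2 * n + 1) ^ 2) =
      exp (-(3 * t) * (n : ℂ) ^ 2 + (2 * I * a - 3 * t) * n + (I * a - 3 / 4 * t)) := by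
    congr 1
    ring
  rw [h2]
  exact mul_le_of_le_one_left (norm_nonneg _) h1

/-- Poisson summation for `Ath` -/
theorem Ath_eq (η : ℝ) {t : ℂ} (ht : 0 < t.re) :
    Ath η t = 1 / (t / Real.pi) ^ (1 / 2 : ℂ) *
      ∑' l : ℤ, (-1 : ℂ) ^ l * exp (-(((η - 2 * Real.pi * l) ^ 2 / 4 : ℝ) : ℂ) / t) := by
  have hpi : (Real.pi : ℂ) ≠ 0 := by exact_mod_cast Real.pi_ne_zero
  have ht0 : t ≠ 0 := by
    rintro rfl
    simp at ht
  have h1 : Ath η t = exp (I * η / 2 - t / 4) *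
      jacobiTheta₂ ((I * η - t) / (2 * Real.pi * I)) (I * t / Real.pi) := by
    rw [Ath, jacobiTheta₂, ← tsum_mul_left]
    refine tsum_congr fun n => ?_
    rw [jacobiTheta₂_term, ← Complex.exp_add]
    congr 1
    field_simp
    rw [I_sq]
    ring
  rw [h1, jacobiTheta₂_functional_equation]
  have h2 : -I * (I * t / Real.pi) = t / Real.pi := by
    field_simp
    rw [I_sq]
    ring
  rw [h2]
  have h3 : exp (I * η / 2 - t / 4) * (1 / (t / Real.pi) ^ (1 / 2 : ℂ) *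
      exp (-Real.pi * I * ((I * η - t) / (2 * Real.pi * I)) ^ 2 / (I * t / Real.pi)) *
      jacobiTheta₂ ((I * η - t) / (2 * Real.pi * I) / (I * t / Real.pi)) (-1 / (I * t / Real.pi))) =
      1 / (t / Real.pi) ^ (1 / 2 : ℂ) * (exp (-(η : ℂ) ^ 2 / (4 * t)) *
      jacobiTheta₂ ((I * η - t) / (2 * Real.pi * I) / (I * t / Real.pi))
        (-1 / (I * t / Real.pi))) := by
    have h4 : exp (-(η : ℂ) ^ 2 / (4 * t)) = exp (I * η / 2 - t / 4) *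
      exp (-Real.pi * I * ((I * η - t) / (2 * Real.pi * I)) ^ 2 / (I * t / Real.pi)) := by
      rw [← Complex.exp_add]
      congr 1
      have hI3 : I ^ 3 = -I := by rw [pow_succ, I_sq]; ring
      field_simp
      ring_nf
      simp only [hI3, I_sq]
      ring
    rw [h4]
    ring
  rw [h3]
  congr 1
  rw [jacobiTheta₂, ← tsum_mul_left]
  refine tsum_congr fun l => ?_
  rw [jacobiTheta₂_term, ← Complex.exp_add]
  have h5 : (-1 : ℂ) ^ l = exp (Real.pi * I * l) := by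
    rw [mul_comm, Complex.exp_int_mul, Complex.exp_pi_mul_I]
  rw [h5, ← Complex.exp_add]
  congr 1
  push_cast
  field_simp
  ring_nf
  simp only [I_sq]
  ring

/-- the numbers `κ_l` -/
def kap (η : ℝ) (l : ℤ) : ℝ := (η - 2 * Real.pi * l) ^ 2 / 4

theorem kap_nonneg (η : ℝ) (l : ℤ) : 0 ≤ kap η l := by rw [kap]; positivity

theorem summable_kap (η : ℝ) : Summable fun l : ℤ => Real.exp (-kap η l / 2) := by
  have h0 : 0 < ((Real.pi : ℂ) ^ 2 / 2).re := by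
    rw [← Complex.ofReal_pow, show ((Real.pi ^ 2 : ℝ) : ℂ) / 2 = ((Real.pi ^ 2 / 2 : ℝ) : ℂ) by
      push_cast; ring, Complex.ofReal_re]
    positivity
  refine (summable_gauss ((Real.pi : ℂ) ^ 2 / 2) (η * Real.pi / 2) (-(η : ℂ) ^ 2 / 8) h0).norm.congr
    fun l => ?_
  have h1 : -((Real.pi : ℂ) ^ 2 / 2) * (l : ℂ) ^ 2 + (η * Real.pi / 2) * l + (-(η : ℂ) ^ 2 / 8) =
      ((-kap η l / 2 : ℝ) : ℂ) := by
    rw [kap]
    push_cast
    ring
  rw [h1, ← Complex.ofReal_exp, Complex.norm_real, Real.norm_of_nonneg (Real.exp_pos _).le]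

theorem div_tt (k : ℝ) {τ : ℝ} (hτ : 0 < τ) :
    -(k : ℂ) / tt τ = ((-k / (1 + τ ^ 2) : ℝ) : ℂ) + I * ((k / (τ * (1 + τ ^ 2)) : ℝ) : ℂ) := by
  have h1 : (τ : ℂ) ≠ 0 := by exact_mod_cast hτ.ne'
  have h2 : (1 + (τ : ℂ) ^ 2) ≠ 0 := by
    have h3 : (0 : ℝ) < 1 + τ ^ 2 := by positivity
    exact_mod_cast h3.ne'
  have h3 : (τ : ℂ) + I ≠ 0 := by
    intro h
    have h4 := congrArg Complex.im h
    simp at h4
  have h4 : tt τ = τ * (τ + I) := by rw [tt]; ring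
  rw [h4]
  push_cast
  field_simp
  ring_nf
  rw [I_sq]
  ring

theorem norm_exp_div_tt (k : ℝ) {τ : ℝ} (hτ : 0 < τ) :
    ‖exp (-(k : ℂ) / tt τ)‖ = Real.exp (-k / (1 + τ ^ 2)) := by
  rw [Complex.norm_exp, div_tt k hτ]
  congr 1
  rw [Complex.add_re, Complex.ofReal_re, Complex.re_mul_ofReal, Complex.I_re, zero_mul, add_zero]

theorem norm_exp_lim (k u : ℝ) : ‖exp ((k : ℂ) * (-1 + I * u))‖ = Real.exp (-k) := by
  rw [Complex.norm_exp]
  congr 1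
  simp

theorem norm_neg_one_zpow' (l : ℤ) : ‖(-1 : ℂ) ^ l‖ = 1 := by
  rw [norm_zpow, norm_neg, norm_one, one_zpow]

theorem term_tendsto (k : ℝ) (hk : 0 ≤ k) :
    Tendsto (fun τ : ℝ => exp (-(k : ℂ) / tt τ) - exp ((k : ℂ) * (-1 + I * ((1 / τ : ℝ) : ℂ))))
      (𝓝[>] 0) (𝓝 0) := by
  have h1 : ∀ τ : ℝ, 0 < τ → exp (-(k : ℂ) / tt τ) - exp ((k : ℂ) * (-1 + I * ((1 / τ : ℝ) : ℂ))) =
      exp ((k : ℂ) * (-1 + I * ((1 / τ : ℝ) : ℂ))) *
        (exp (((k * τ ^ 2 / (1 + τ ^ 2) : ℝ) : ℂ) - I * ((k * τ / (1 + τ ^ 2) : ℝ) : ℂ)) - 1) := by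
    intro τ hτ
    rw [mul_sub, mul_one, ← Complex.exp_add, div_tt k hτ]
    congr 2
    have h1 : (τ : ℂ) ≠ 0 := by exact_mod_cast hτ.ne'
    have h2 : (1 + (τ : ℂ) ^ 2) ≠ 0 := by
      have h3 : (0 : ℝ) < 1 + τ ^ 2 := by positivity
      exact_mod_cast h3.ne'
    push_cast
    field_simp
    ring
  have h2 : Tendsto (fun τ : ℝ =>
      exp (((k * τ ^ 2 / (1 + τ ^ 2) : ℝ) : ℂ) - I * ((k * τ / (1 + τ ^ 2) : ℝ) : ℂ)) - 1)
      (𝓝[>] 0) (𝓝 0) := by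
    have hc : Continuous (fun τ : ℝ =>
        exp (((k * τ ^ 2 / (1 + τ ^ 2) : ℝ) : ℂ) - I * ((k * τ / (1 + τ ^ 2) : ℝ) : ℂ)) - 1) := by
      have ha : Continuous fun τ : ℝ => k * τ ^ 2 / (1 + τ ^ 2) :=
        (continuous_const.mul (continuous_pow 2)).div
          (continuous_const.add (continuous_pow 2)) fun τ => by positivity
      have hb : Continuous fun τ : ℝ => k * τ / (1 + τ ^ 2) :=
        (continuous_const.mul continuous_id).div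
          (continuous_const.add (continuous_pow 2)) fun τ => by positivity
      exact (Complex.continuous_exp.comp ((Complex.continuous_ofReal.comp ha).sub
        (continuous_const.mul (Complex.continuous_ofReal.comp hb)))).sub continuous_const
    have h3 := hc.tendsto 0
    simp only [ne_eq, OfNat.ofNat_ne_zero, not_false_eq_true, zero_pow, mul_zero, zero_div,
      Complex.ofReal_zero, Complex.exp_zero, sub_self] at h3
    exact h3.mono_left nhdsWithin_le_nhds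
  have h4 : Tendsto (fun τ : ℝ => exp ((k : ℂ) * (-1 + I * ((1 / τ : ℝ) : ℂ))) *
        (exp (((k * τ ^ 2 / (1 + τ ^ 2) : ℝ) : ℂ) - I * ((k * τ / (1 + τ ^ 2) : ℝ) : ℂ)) - 1))
      (𝓝[>] 0) (𝓝 0) := by
    rw [tendsto_zero_iff_norm_tendsto_zero] at h2 ⊢
    refine squeeze_zero (fun τ => norm_nonneg _) (fun τ => ?_) h2
    rw [norm_mul, norm_exp_lim]
    exact mul_le_of_le_one_left (norm_nonneg _) (Real.exp_le_one_iff.2 (by linarith))
  refine h4.congr' ?_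
  filter_upwards [self_mem_nhdsWithin] with τ hτ
  exact (h1 τ hτ).symm

/-- the transformed series -/
def SA (η τ : ℝ) : ℂ := ∑' l : ℤ, (-1 : ℂ) ^ l * exp (-((kap η l : ℝ) : ℂ) / tt τ)

theorem norm_SA_term (η : ℝ) {τ : ℝ} (hτ : 0 < τ) (hτ' : τ < 1) (l : ℤ) :
    ‖(-1 : ℂ) ^ l * exp (-((kap η l : ℝ) : ℂ) / tt τ)‖ ≤ Real.exp (-kap η l / 2) := by
  rw [norm_mul, norm_neg_one_zpow', one_mul, norm_exp_div_tt _ hτ]
  refine Real.exp_le_exp.2 ?_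
  rw [neg_div, neg_div, neg_le_neg_iff]
  refine div_le_div_of_nonneg_left (kap_nonneg η l) (by positivity) (by nlinarith)

theorem norm_SA_le (η : ℝ) {τ : ℝ} (hτ : 0 < τ) (hτ' : τ < 1) :
    ‖SA η τ‖ ≤ ∑' l : ℤ, Real.exp (-kap η l / 2) :=
  tsum_of_norm_bounded (summable_kap η).hasSum fun l => norm_SA_term η hτ hτ' l

theorem SA_tendsto (η : ℝ) :
    Tendsto (fun τ : ℝ => SA η τ - PA η (1 / τ)) (𝓝[>] 0) (𝓝 0) := by
  have h1 : Tendsto (fun τ : ℝ => ∑' l : ℤ, ((-1 : ℂ) ^ l * exp (-((kap η l : ℝ) : ℂ) / tt τ) -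
      (-1 : ℂ) ^ l * exp (((kap η l : ℝ) : ℂ) * (-1 + I * ((1 / τ : ℝ) : ℂ)))))
      (𝓝[>] 0) (𝓝 (∑' _ : ℤ, (0 : ℂ))) := by
    refine tendsto_tsum_of_dominated_convergence ((summable_kap η).mul_left 2) (fun l => ?_) ?_
    · have h2 := (term_tendsto (kap η l) (kap_nonneg η l)).const_mul ((-1 : ℂ) ^ l)
      rw [mul_zero] at h2
      refine h2.congr fun τ => ?_
      rw [mul_sub]
    · filter_upwards [Ioo_mem_nhdsGT (show (0 : ℝ) < 1 by norm_num)] with τ hτ l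
      refine (norm_sub_le _ _).trans ?_
      have h3 := norm_SA_term η hτ.1 hτ.2 l
      have h4 : ‖(-1 : ℂ) ^ l * exp (((kap η l : ℝ) : ℂ) * (-1 + I * ((1 / τ : ℝ) : ℂ)))‖ ≤
          Real.exp (-kap η l / 2) := by
        rw [norm_mul, norm_neg_one_zpow', one_mul, norm_exp_lim]
        exact Real.exp_le_exp.2 (by linarith [kap_nonneg η l])
      linarith
  rw [tsum_zero] at h1
  refine h1.congr' ?_
  filter_upwards [Ioo_mem_nhdsGT (show (0 : ℝ) < 1 by norm_num)] with τ hτ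
  rw [Summable.tsum_sub]
  · rw [SA, PA]
    rfl
  · exact Summable.of_norm_bounded (summable_kap η) fun l => norm_SA_term η hτ.1 hτ.2 l
  · refine Summable.of_norm_bounded (summable_kap η) fun l => ?_
    rw [norm_mul, norm_neg_one_zpow', one_mul, norm_exp_lim]
    exact Real.exp_le_exp.2 (by linarith [kap_nonneg η l])

theorem ofReal_mul_cpow {r : ℝ} (hr : 0 < r) {z : ℂ} (hz : z ≠ 0) (s : ℂ) :
    ((r : ℂ) * z) ^ s = (r : ℂ) ^ s * z ^ s := by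
  have hr' : (r : ℂ) ≠ 0 := by exact_mod_cast hr.ne'
  rw [Complex.cpow_def_of_ne_zero (mul_ne_zero hr' hz), Complex.cpow_def_of_ne_zero hr',
    Complex.cpow_def_of_ne_zero hz, Complex.log_ofReal_mul hr hz, ← Complex.exp_add,
    Complex.ofReal_log hr.le]
  congr 1
  ring

theorem add_I_ne_zero (τ : ℝ) : ((τ : ℂ) + I) / Real.pi ≠ 0 := by
  have hpi : (Real.pi : ℂ) ≠ 0 := by exact_mod_cast Real.pi_ne_zero
  refine div_ne_zero (fun h => ?_) hpi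
  have h4 := congrArg Complex.im h
  simp at h4

theorem sqrt_div_tt {τ : ℝ} (hτ : 0 < τ) :
    (Real.sqrt τ : ℂ) * (1 / (tt τ / Real.pi) ^ (1 / 2 : ℂ)) =
      1 / (((τ : ℂ) + I) / Real.pi) ^ (1 / 2 : ℂ) := by
  have h4 : tt τ / Real.pi = (τ : ℂ) * (((τ : ℂ) + I) / Real.pi) := by rw [tt]; ring
  have h5 : (tt τ / Real.pi) ^ (1 / 2 : ℂ) = (τ : ℂ) ^ (1 / 2 : ℂ) *
      (((τ : ℂ) + I) / Real.pi) ^ (1 / 2 : ℂ) := by
    rw [h4]
    exact ofReal_mul_cpow hτ (add_I_ne_zero τ) _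
  have h6 : (τ : ℂ) ^ (1 / 2 : ℂ) = (Real.sqrt τ : ℂ) := by
    rw [Real.sqrt_eq_rpow, Complex.ofReal_cpow hτ.le]
    norm_num
  have h7 : (Real.sqrt τ : ℂ) ≠ 0 := by
    exact_mod_cast (Real.sqrt_pos.2 hτ).ne'
  rw [h5, h6]
  field_simp

theorem Ath_asymp : ∃ cA : ℂ, cA ≠ 0 ∧ ∀ η : ℝ,
    Tendsto (fun τ : ℝ => (Real.sqrt τ : ℂ) * Ath η (tt τ) - cA * PA η (1 / τ)) (𝓝[>] 0) (𝓝 0) := by
  have h0 : (I / Real.pi : ℂ) ≠ 0 := by
    have h := add_I_ne_zero 0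
    rwa [Complex.ofReal_zero, zero_add] at h
  have hcpow : (I / Real.pi : ℂ) ^ (1 / 2 : ℂ) ≠ 0 := by
    rw [Ne, Complex.cpow_eq_zero_iff]
    exact fun h => h0 h.1
  refine ⟨1 / (I / Real.pi : ℂ) ^ (1 / 2 : ℂ), one_div_ne_zero hcpow, fun η => ?_⟩
  have hslit : (I / Real.pi : ℂ) ∈ slitPlane := by
    refine Or.inr ?_
    rw [Complex.div_ofReal_im, Complex.I_im]
    exact (div_pos one_pos Real.pi_pos).ne'
  have hf : Tendsto (fun τ : ℝ => 1 / (((τ : ℂ) + I) / Real.pi) ^ (1 / 2 : ℂ) -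
      1 / (I / Real.pi : ℂ) ^ (1 / 2 : ℂ)) (𝓝[>] 0) (𝓝 0) := by
    have h1 : Tendsto (fun τ : ℝ => ((τ : ℂ) + I) / Real.pi) (𝓝 0) (𝓝 (I / Real.pi)) := by
      have hc : Continuous fun τ : ℝ => ((τ : ℂ) + I) / Real.pi :=
        (Complex.continuous_ofReal.add continuous_const).div_const _
      have h2 := hc.tendsto 0
      simpa using h2
    have h2 : Tendsto (fun τ : ℝ => (((τ : ℂ) + I) / Real.pi) ^ (1 / 2 : ℂ)) (𝓝 0)
        (𝓝 ((I / Real.pi) ^ (1 / 2 : ℂ))) := h1.cpow tendsto_const_nhds hslit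
    have h3 := ((tendsto_const_nhds (x := (1 : ℂ))).div h2 hcpow).sub
      (tendsto_const_nhds (x := 1 / (I / Real.pi : ℂ) ^ (1 / 2 : ℂ)))
    rw [sub_self] at h3
    exact h3.mono_left nhdsWithin_le_nhds
  have hS := SA_tendsto η
  have h1 : Tendsto (fun τ : ℝ => (1 / (((τ : ℂ) + I) / Real.pi) ^ (1 / 2 : ℂ) -
      1 / (I / Real.pi : ℂ) ^ (1 / 2 : ℂ)) * SA η τ) (𝓝[>] 0) (𝓝 0) := by
    rw [tendsto_zero_iff_norm_tendsto_zero] at hf ⊢
    have h2 := hf.mul_const (∑' l : ℤ, Real.exp (-kap η l / 2))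
    rw [zero_mul] at h2
    refine squeeze_zero' (Eventually.of_forall fun τ => norm_nonneg _) ?_ h2
    filter_upwards [Ioo_mem_nhdsGT (show (0 : ℝ) < 1 by norm_num)] with τ hτ
    rw [norm_mul]
    exact mul_le_mul_of_nonneg_left (norm_SA_le η hτ.1 hτ.2) (norm_nonneg _)
  have h2 := h1.add (hS.const_mul (1 / (I / Real.pi : ℂ) ^ (1 / 2 : ℂ)))
  rw [mul_zero, add_zero] at h2
  refine h2.congr' ?_
  filter_upwards [self_mem_nhdsWithin] with τ hτ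
  have hre : 0 < (tt τ).re := by
    have h3 : (tt τ).re = τ ^ 2 := by
      rw [tt, ← Complex.ofReal_pow, Complex.add_re, Complex.ofReal_re, Complex.re_mul_ofReal,
        Complex.I_re, zero_mul, add_zero]
    rw [h3]
    exact pow_pos hτ 2
  rw [Ath_eq η hre, ← mul_assoc, sqrt_div_tt hτ]
  have h3 : (∑' l : ℤ, (-1 : ℂ) ^ l * exp (-(((η - 2 * Real.pi * l) ^ 2 / 4 : ℝ) : ℂ) / tt τ)) =
      SA η τ := rfl
  rw [h3]
  ring

end Pool.Agent.Iso79
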