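import Pool.Agent.Iso79.AltBasic
import Pool.Agent.Iso79.Theta

/-!
# Factorisation of the generating function of `FF N`

`∑_N FF N x y e^{-tN} = (1/2) [A(-x-y) B((x-y)/2) + A(x) B((x+2y)/2) + A(y) B((-2x-y)/2)]`.

Proof.  For `(p, r) ∈ ℤ²` put `T(p,r) = e^{i((p+r)x + r y)} e^{-t(p²+pr+r²)}` (absolutely summable) and
`s(k) = sign k` if `k` is odd, `s(k) = 0` if `k` is even.
Left side: `∑_{m,n>0 odd} alt m n x y e^{-t(m²+mn+n²)}`; the six terms of `alt m n` are
`± e^{i((p+r)x+ry)}` for `(p, r) = (m,n), (-m,m+n), (m+n,-n), (n,-m-n), (-m-n,m), (-n,-m)` with the signs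
`+,-,-,+,+,-`.  The six images are disjoint; the coefficient of `T(p,r)` is
`ε(p,r) = sign(p) sign(r) sign(p+r)` if `(p, r)` is in one of the images, i.e. if `p, r, p+r ≠ 0` and
the one of `p, r, p + r` with the largest absolute value is even and the other two are odd.
Right side: `A(-x-y) B((x-y)/2)`: `B`-index `p` odd, `A`-index `n' ∈ ℤ + 1/2`, `r = -n' - p/2`: it is
`∑_{p odd, r} s(p) T(p,r)`; similarly `A(x) B((x+2y)/2) = ∑ s(r) T(p,r)` and
`A(y) B((-2x-y)/2) = ∑ s(-(p+r)) T(p,r)`.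
So the claim is `coefficient(p,r) = (1/2)(s(p) + s(r) + s(-(p+r)))` for all `(p,r) ∈ ℤ²`, a finite case
distinction on parities and signs.
-/

open Complex

noncomputable section

namespace Pool.Agent.Iso79

namespace FactAux

/-- `sign a` for odd `a`, `0` for even `a` -/
def so (a : ℤ) : ℤ := if a % 2 = 1 then (if 0 < a then 1 else -1) else 0

/-- the indicator function of the pairs of odd positive integers -/
def pp (a b : ℤ) : ℤ := if 0 < a ∧ 0 < b ∧ a % 2 = 1 ∧ b % 2 = 1 then 1 else 0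

theorem so_pp (p r : ℤ) : so p + so r + so (-(p + r)) =
    2 * (pp p r - pp (-p) (p + r) - pp (p + r) (-r) + pp (-p - r) p + pp r (-p - r)
      - pp (-r) (-p)) := by
  unfold so pp
  have a3 : (-(p + r)) % 2 = (p + r) % 2 := by omega
  have a4 : (-p) % 2 = p % 2 := by omega
  have a5 : (-r) % 2 = r % 2 := by omega
  have a7 : (-p - r) % 2 = (p + r) % 2 := by omega
  rw [a3, a4, a5, a7]
  rcases Int.emod_two_eq_zero_or_one p with hp | hp <;>
  rcases Int.emod_two_eq_zero_or_one r with hr | hr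
  · have h6 : (p + r) % 2 = 0 := by omega
    simp only [hp, hr, h6, zero_ne_one, and_false, if_false]
    norm_num
  · have h6 : (p + r) % 2 = 1 := by omega
    simp only [hp, hr, h6, zero_ne_one, and_false, false_and, if_false, and_true, if_true,
      true_and]
    rcases lt_trichotomy r 0 with h1 | h1 | h1
    · rcases lt_trichotomy (p + r) 0 with h2 | h2 | h2
      · rw [if_neg (by omega), if_pos (by omega), if_neg (by omega), if_neg (by omega)]; norm_num
      · omega
      · rw [if_neg (by omega), if_neg (by omega), if_pos (by omega), if_neg (by omega)]; norm_num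
    · omega
    · rcases lt_trichotomy (p + r) 0 with h2 | h2 | h2
      · rw [if_pos (by omega), if_pos (by omega), if_neg (by omega), if_pos (by omega)]; norm_num
      · omega
      · rw [if_pos (by omega), if_neg (by omega), if_neg (by omega), if_neg (by omega)]; norm_num
  · have h6 : (p + r) % 2 = 1 := by omega
    simp only [hp, hr, h6, zero_ne_one, and_false, false_and, if_false, and_true, if_true,
      true_and]
    rcases lt_trichotomy p 0 with h1 | h1 | h1
    · rcases lt_trichotomy (p + r) 0 with h2 | h2 | h2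
      · rw [if_neg (by omega), if_pos (by omega), if_neg (by omega), if_neg (by omega)]; norm_num
      · omega
      · rw [if_neg (by omega), if_neg (by omega), if_pos (by omega), if_neg (by omega)]; norm_num
    · omega
    · rcases lt_trichotomy (p + r) 0 with h2 | h2 | h2
      · rw [if_pos (by omega), if_pos (by omega), if_neg (by omega), if_pos (by omega)]; norm_num
      · omega
      · rw [if_pos (by omega), if_neg (by omega), if_neg (by omega), if_neg (by omega)]; norm_num
  · have h6 : (p + r) % 2 = 0 := by omega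
    simp only [hp, hr, h6, zero_ne_one, and_false, false_and, if_false, and_true, if_true,
      true_and]
    rcases lt_trichotomy p 0 with h1 | h1 | h1
    · rcases lt_trichotomy r 0 with h2 | h2 | h2
      · rw [if_neg (by omega), if_neg (by omega), if_neg (by omega), if_pos (by omega)]; norm_num
      · omega
      · rw [if_neg (by omega), if_pos (by omega), if_neg (by omega), if_neg (by omega)]; norm_num
    · omega
    · rcases lt_trichotomy r 0 with h2 | h2 | h2
      · rw [if_pos (by omega), if_neg (by omega), if_neg (by omega), if_neg (by omega)]; norm_num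
      · omega
      · rw [if_pos (by omega), if_pos (by omega), if_pos (by omega), if_neg (by omega)]; norm_num

/-- the general term -/
def T (x y : ℝ) (t : ℂ) (w : ℤ × ℤ) : ℂ :=
  ee ((w.1 + w.2) * x + w.2 * y) * exp (-t * (Nf w.1 w.2 : ℂ))

theorem so_odd (m : ℤ) : so (2 * m + 1) = (2 * m + 1).sign := by
  unfold so
  rw [if_pos (by omega)]
  split_ifs with h
  · rw [Int.sign_eq_one_of_pos h]
  · rw [Int.sign_eq_neg_one_of_neg (by omega)]

theorem prod_hasSum (η a : ℝ) {t : ℂ} (ht : 0 < t.re) :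
    HasSum (fun z : ℤ × ℤ => exp (I * (z.1 + 1 / 2) * η - t * (z.1 + 1 / 2) ^ 2) *
      ((Int.sign (2 * z.2 + 1) : ℂ) * exp (I * (2 * z.2 + 1) * a - 3 / 4 * t * (2 * z.2 + 1) ^ 2)))
      (Ath η t * Bth a t) := by
  have h1 := (summable_Ath η ht).norm
  have h2 := (summable_Bth a ht).norm
  unfold Ath Bth
  rw [tsum_mul_tsum_of_summable_norm h1 h2]
  exact (summable_mul_of_summable_norm h1 h2).hasSum

theorem hs_one (x y : ℝ) {t : ℂ} (ht : 0 < t.re) :
    HasSum (fun w : ℤ × ℤ => (so w.1 : ℂ) * T x y t w) (Ath (-x - y) t * Bth ((x - y) / 2) t) := by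
  have hinj : Function.Injective (fun z : ℤ × ℤ => (2 * z.2 + 1, -z.1 - z.2 - 1)) := by
    intro z z' h
    simp only [Prod.mk.injEq] at h
    ext <;> omega
  rw [← hinj.hasSum_iff]
  · convert prod_hasSum (-x - y) ((x - y) / 2) ht using 1
    funext z
    obtain ⟨n, m⟩ := z
    simp only [Function.comp]
    rw [so_odd]
    unfold T ee Nf
    rw [mul_left_comm (exp _), ← Complex.exp_add, ← Complex.exp_add]
    congr 2
    push_cast
    ring
  · intro w hw
    have : so w.1 = 0 := by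
      unfold so
      rw [if_neg]
      intro h
      apply hw
      refine ⟨(-w.2 - w.1 / 2 - 1, w.1 / 2), ?_⟩
      ext <;> simp only <;> omega
    rw [this]; simp

theorem hs_two (x y : ℝ) {t : ℂ} (ht : 0 < t.re) :
    HasSum (fun w : ℤ × ℤ => (so w.2 : ℂ) * T x y t w) (Ath x t * Bth ((x + 2 * y) / 2) t) := by
  have hinj : Function.Injective (fun z : ℤ × ℤ => (z.1 - z.2, 2 * z.2 + 1)) := by
    intro z z' h
    simp only [Prod.mk.injEq] at h
    ext <;> omega
  rw [← hinj.hasSum_iff]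
  · convert prod_hasSum x ((x + 2 * y) / 2) ht using 1
    funext z
    obtain ⟨n, m⟩ := z
    simp only [Function.comp]
    rw [so_odd]
    unfold T ee Nf
    rw [mul_left_comm (exp _), ← Complex.exp_add, ← Complex.exp_add]
    congr 2
    push_cast
    ring
  · intro w hw
    have : so w.2 = 0 := by
      unfold so
      rw [if_neg]
      intro h
      apply hw
      refine ⟨(w.1 + w.2 / 2, w.2 / 2), ?_⟩
      ext <;> simp only <;> omega
    rw [this]; simp

theorem hs_three (x y : ℝ) {t : ℂ} (ht : 0 < t.re) :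
    HasSum (fun w : ℤ × ℤ => (so (-(w.1 + w.2)) : ℂ) * T x y t w)
      (Ath y t * Bth ((-2 * x - y) / 2) t) := by
  have hinj : Function.Injective (fun z : ℤ × ℤ => (-z.1 - z.2 - 1, z.1 - z.2)) := by
    intro z z' h
    simp only [Prod.mk.injEq] at h
    ext <;> omega
  rw [← hinj.hasSum_iff]
  · convert prod_hasSum y ((-2 * x - y) / 2) ht using 1
    funext z
    obtain ⟨n, m⟩ := z
    simp only [Function.comp]
    rw [show -(-n - m - 1 + (n - m)) = 2 * m + 1 by ring, so_odd]
    unfold T ee Nf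
    rw [mul_left_comm (exp _), ← Complex.exp_add, ← Complex.exp_add]
    congr 2
    push_cast
    ring
  · intro w hw
    have : so (-(w.1 + w.2)) = 0 := by
      unfold so
      rw [if_neg]
      intro h
      apply hw
      refine ⟨(w.2 + (-(w.1 + w.2)) / 2, (-(w.1 + w.2)) / 2), ?_⟩
      ext <;> simp only <;> omega
    rw [this]; simp

theorem mem_boxN {k : ℕ} {y : ℤ × ℤ} : y ∈ boxN k ↔ Nf y.1 y.2 = k := by
  unfold boxN
  rw [Finset.mem_filter, Finset.mem_product, Finset.mem_Icc, Finset.mem_Icc]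
  refine ⟨fun h => h.2, fun h => ⟨?_, h⟩⟩
  unfold Nf at h
  have hk : (0 : ℤ) ≤ k := by positivity
  have h1 : 3 * y.1 ^ 2 ≤ 4 * k := by nlinarith [sq_nonneg (y.1 + 2 * y.2)]
  have h2 : 3 * y.2 ^ 2 ≤ 4 * k := by nlinarith [sq_nonneg (2 * y.1 + y.2)]
  have hk2 : (k : ℤ) ≤ k ^ 2 := by
    have : (0 : ℤ) ≤ k * (k - 1) := by
      rcases Nat.eq_zero_or_pos k with h | h
      · subst h; norm_num
      · have : (1 : ℤ) ≤ k := by exact_mod_cast h
        exact mul_nonneg hk (by linarith)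
    nlinarith
  have key : ∀ z : ℤ, 3 * z ^ 2 ≤ 4 * k → -(2 * (k : ℤ)) ≤ z ∧ z ≤ 2 * k := by
    intro z hz
    have h3 : z ^ 2 ≤ (2 * (k : ℤ)) ^ 2 := by nlinarith [sq_nonneg z]
    exact abs_le.1 (abs_le_of_sq_le_sq h3 (by linarith))
  exact ⟨key _ h1, key _ h2⟩

theorem Nf_nonneg (a b : ℤ) : 0 ≤ Nf a b := by
  unfold Nf; nlinarith [sq_nonneg (2 * a + b), sq_nonneg b]

theorem sum_boxN_bij (N : ℕ) (f : ℤ × ℤ → ℂ) (σ τ : ℤ × ℤ → ℤ × ℤ)
    (hσ : ∀ w, Nf (σ w).1 (σ w).2 = Nf w.1 w.2) (hτ : ∀ w, Nf (τ w).1 (τ w).2 = Nf w.1 w.2)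
    (h1 : ∀ w, σ (τ w) = w) (h2 : ∀ w, τ (σ w) = w) :
    ∑ w ∈ boxN N, f w = ∑ w ∈ boxN N, f (τ w) := by
  refine Finset.sum_nbij' σ τ ?_ ?_ ?_ ?_ ?_
  · intro w hw
    rw [mem_boxN] at hw ⊢
    rw [hσ, hw]
  · intro w hw
    rw [mem_boxN] at hw ⊢
    rw [hτ, hw]
  · intro w _
    exact h2 w
  · intro w _
    exact h1 w
  · intro w _
    rw [h2]

/-- the exponential `e^{i((p+r)x + ry)}` -/
def E (x y : ℝ) (w : ℤ × ℤ) : ℂ := ee ((w.1 + w.2) * x + w.2 * y)

theorem alt_E (m n : ℤ) (x y : ℝ) : alt m n x y = E x y (m, n) - E x y (-m, m + n) -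
    E x y (m + n, -n) + E x y (n, -m - n) + E x y (-m - n, m) - E x y (-n, -m) := by
  unfold alt E
  push_cast
  congr 1
  · congr 1
    · congr 1
      · congr 1
        · congr 1
          congr 1
          ring
        · congr 1
          ring
      · congr 1
        ring
    · congr 1
      ring
  · congr 1
    ring

theorem sum_shell (N : ℕ) (g : ℤ → ℤ → ℂ) :
    ∑ p ∈ shell N, g p.1 p.2 = ∑ w ∈ boxN N, (pp w.1 w.2 : ℂ) * g w.1 w.2 := by
  have h1 : ∑ w ∈ boxN N, (pp w.1 w.2 : ℂ) * g w.1 w.2 =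
      ∑ w ∈ (boxN N).filter (fun w => 0 < w.1 ∧ 0 < w.2 ∧ w.1 % 2 = 1 ∧ w.2 % 2 = 1),
        g w.1 w.2 := by
    rw [Finset.sum_filter]
    refine Finset.sum_congr rfl fun w _ => ?_
    unfold pp
    split_ifs <;> simp
  rw [h1]
  refine Finset.sum_nbij' (fun p => ((p.1 : ℤ), (p.2 : ℤ))) (fun w => (w.1.toNat, w.2.toNat))
    ?_ ?_ ?_ ?_ ?_
  · intro p hp
    unfold shell at hp
    rw [Finset.mem_filter] at hp ⊢
    obtain ⟨-, ho1, ho2, hN⟩ := hp
    rw [mem_boxN]
    rw [Nat.odd_iff] at ho1 ho2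
    refine ⟨?_, ?_, ?_, ?_, ?_⟩
    · unfold Nf; dsimp only; exact_mod_cast hN
    · dsimp only; omega
    · dsimp only; omega
    · dsimp only; omega
    · dsimp only; omega
  · intro w hw
    rw [Finset.mem_filter, mem_boxN] at hw
    obtain ⟨hN, p1, p2, o1, o2⟩ := hw
    unfold shell
    obtain ⟨a, b⟩ := w
    dsimp only at *
    obtain ⟨m, rfl⟩ := Int.eq_ofNat_of_zero_le p1.le
    obtain ⟨n, rfl⟩ := Int.eq_ofNat_of_zero_le p2.le
    unfold Nf at hN
    have hN' : m ^ 2 + m * n + n ^ 2 = N := by exact_mod_cast hN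
    have hm : 0 < m := by omega
    have hn : 0 < n := by omega
    rw [Finset.mem_filter, Finset.mem_product, Finset.mem_range, Finset.mem_range]
    simp only [Int.toNat_natCast]
    refine ⟨⟨?_, ?_⟩, ?_, ?_, hN'⟩
    · nlinarith
    · nlinarith
    · rw [Nat.odd_iff]; omega
    · rw [Nat.odd_iff]; omega
  · intro p _
    simp
  · intro w hw
    rw [Finset.mem_filter] at hw
    ext
    · exact Int.toNat_of_nonneg hw.2.1.le
    · exact Int.toNat_of_nonneg hw.2.2.1.le
  · intro p _
    rfl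

theorem FF_eq (N : ℕ) (x y : ℝ) : FF N x y =
    ∑ w ∈ boxN N, 1 / 2 * ((so w.1 : ℂ) + so w.2 + so (-(w.1 + w.2))) * E x y w := by
  unfold FF
  rw [sum_shell N (fun m n => alt m n x y)]
  have e : ∀ w : ℤ × ℤ, (pp w.1 w.2 : ℂ) * alt w.1 w.2 x y =
      (pp w.1 w.2 : ℂ) * E x y (w.1, w.2) - (pp w.1 w.2 : ℂ) * E x y (-w.1, w.1 + w.2) -
      (pp w.1 w.2 : ℂ) * E x y (w.1 + w.2, -w.2) + (pp w.1 w.2 : ℂ) * E x y (w.2, -w.1 - w.2) +
      (pp w.1 w.2 : ℂ) * E x y (-w.1 - w.2, w.1) - (pp w.1 w.2 : ℂ) * E x y (-w.2, -w.1) := by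
    intro w
    rw [alt_E]; ring
  simp only [e, Finset.sum_sub_distrib, Finset.sum_add_distrib]
  rw [sum_boxN_bij N (fun w => (pp w.1 w.2 : ℂ) * E x y (-w.1, w.1 + w.2))
      (fun w => (-w.1, w.1 + w.2)) (fun w => (-w.1, w.1 + w.2))
      (fun w => by unfold Nf; ring) (fun w => by unfold Nf; ring)
      (fun w => by ext <;> dsimp only <;> ring) (fun w => by ext <;> dsimp only <;> ring),
    sum_boxN_bij N (fun w => (pp w.1 w.2 : ℂ) * E x y (w.1 + w.2, -w.2))
      (fun w => (w.1 + w.2, -w.2)) (fun w => (w.1 + w.2, -w.2))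
      (fun w => by unfold Nf; ring) (fun w => by unfold Nf; ring)
      (fun w => by ext <;> dsimp only <;> ring) (fun w => by ext <;> dsimp only <;> ring),
    sum_boxN_bij N (fun w => (pp w.1 w.2 : ℂ) * E x y (w.2, -w.1 - w.2))
      (fun w => (w.2, -w.1 - w.2)) (fun w => (-w.1 - w.2, w.1))
      (fun w => by unfold Nf; ring) (fun w => by unfold Nf; ring)
      (fun w => by ext <;> dsimp only <;> ring) (fun w => by ext <;> dsimp only <;> ring),
    sum_boxN_bij N (fun w => (pp w.1 w.2 : ℂ) * E x y (-w.1 - w.2, w.1))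
      (fun w => (-w.1 - w.2, w.1)) (fun w => (w.2, -w.1 - w.2))
      (fun w => by unfold Nf; ring) (fun w => by unfold Nf; ring)
      (fun w => by ext <;> dsimp only <;> ring) (fun w => by ext <;> dsimp only <;> ring),
    sum_boxN_bij N (fun w => (pp w.1 w.2 : ℂ) * E x y (-w.2, -w.1))
      (fun w => (-w.2, -w.1)) (fun w => (-w.2, -w.1))
      (fun w => by unfold Nf; ring) (fun w => by unfold Nf; ring)
      (fun w => by ext <;> dsimp only <;> ring) (fun w => by ext <;> dsimp only <;> ring)]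
  simp only [← Finset.sum_sub_distrib, ← Finset.sum_add_distrib]
  refine Finset.sum_congr rfl fun w _ => ?_
  obtain ⟨p, r⟩ := w
  dsimp only
  have h := so_pp p r
  have h' : ((so p : ℂ) + so r + so (-(p + r))) = 2 * ((pp p r : ℂ) - pp (-p) (p + r) -
      pp (p + r) (-r) + pp (-p - r) p + pp r (-p - r) - pp (-r) (-p)) := by exact_mod_cast h
  rw [h']
  rw [show (-(-p), -p + (p + r)) = (p, r) by ext <;> dsimp only <;> ring,
    show (p + r + -r, -(-r)) = (p, r) by ext <;> dsimp only <;> ring,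
    show (p, -(-p - r) - p) = (p, r) by ext <;> dsimp only <;> ring,
    show (-r - (-p - r), r) = (p, r) by ext <;> dsimp only <;> ring,
    show (-(-p), -(-r)) = (p, r) by ext <;> dsimp only <;> ring]
  ring

end FactAux

open FactAux in
theorem hasSum_FF (x y : ℝ) {t : ℂ} (ht : 0 < t.re) :
    HasSum (fun N : ℕ => FF N x y * exp (-t * N))
      (1 / 2 * (Ath (-x - y) t * Bth ((x - y) / 2) t + Ath x t * Bth ((x + 2 * y) / 2) t +
        Ath y t * Bth ((-2 * x - y) / 2) t)) := by
  have h1 := (((hs_one x y ht).add (hs_two x y ht)).add (hs_three x y ht)).mul_left (1 / 2)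
  have h2 := h1.tsum_fiberwise (fun w : ℤ × ℤ => (Nf w.1 w.2).toNat)
  have key : ∀ N : ℕ, FF N x y * exp (-t * N) =
      ∑' b : ((fun w : ℤ × ℤ => (Nf w.1 w.2).toNat) ⁻¹' {N} : Set (ℤ × ℤ)),
        1 / 2 * ((so b.1.1 : ℂ) * T x y t b.1 + (so b.1.2 : ℂ) * T x y t b.1 +
          (so (-(b.1.1 + b.1.2)) : ℂ) * T x y t b.1) := by
    intro N
    have h3 : (fun w : ℤ × ℤ => (Nf w.1 w.2).toNat) ⁻¹' {N} = ↑(boxN N) := by
      ext w
      rw [Set.mem_preimage, Set.mem_singleton_iff, Finset.mem_coe, mem_boxN]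
      have := Nf_nonneg w.1 w.2
      omega
    rw [h3, Finset.tsum_subtype' (boxN N) (fun w : ℤ × ℤ => 1 / 2 * ((so w.1 : ℂ) * T x y t w +
      (so w.2 : ℂ) * T x y t w + (so (-(w.1 + w.2)) : ℂ) * T x y t w)), FF_eq, Finset.sum_mul]
    refine Finset.sum_congr rfl fun w hw => ?_
    rw [mem_boxN] at hw
    unfold T E
    rw [hw]
    push_cast
    ring
  rw [show (fun N : ℕ => FF N x y * exp (-t * N)) = _ from funext key]
  exact h2

end Pool.Agent.Iso79
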