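import Pool.Agent.Iso79.Spec

/-!
# Permuting and multiplying `v` gives a conjugate group
-/

open Matrix Complex

noncomputable section

namespace Pool.Agent.Iso79

/-- signed permutation matrices of determinant `1` -/
def pmat (i : Fin 6) : M3 :=
  ![1, !![0, -1, 0; -1, 0, 0; 0, 0, -1], !![-1, 0, 0; 0, 0, -1; 0, -1, 0],
    !![0, 0, 1; 1, 0, 0; 0, 1, 0], !![0, 1, 0; 0, 0, 1; 1, 0, 0],
    !![0, 0, -1; 0, -1, 0; -1, 0, 0]] i

theorem pmat_mem (i : Fin 6) : pmat i ∈ Matrix.specialUnitaryGroup (Fin 3) ℂ := by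
  rw [Matrix.mem_specialUnitaryGroup_iff, Matrix.mem_unitaryGroup_iff]
  fin_cases i
  · refine ⟨?_, ?_⟩
    · simp [pmat]
    · simp [pmat]
  all_goals
    refine ⟨?_, ?_⟩
    · ext a b
      fin_cases a <;> fin_cases b <;>
        simp [pmat, Matrix.mul_apply, Fin.sum_univ_three, Matrix.star_apply]
    · simp [pmat, Matrix.det_fin_three]

/-- the real version of `pm` -/
def pmr (i : Fin 6) (x y : ℝ) : ℝ × ℝ :=
  ![(x, y), (y, x), (x, -x - y), (-x - y, x), (y, -x - y), (-x - y, y)] i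

theorem pmat_dg (i : Fin 6) (x y : ℝ) :
    pmat i * (dg x y).1 = (dg (pmr i x y).1 (pmr i x y).2).1 * pmat i := by
  have e1 : ∀ a b : ℝ, (dg a b).1 = diagonal ![exp (I * a), exp (I * b), exp (-(I * (a + b)))] :=
    fun a b => rfl
  rw [e1, e1]
  ext a b
  fin_cases i <;> fin_cases a <;> fin_cases b <;>
    simp [pmat, pmr, Matrix.mul_diagonal, Matrix.diagonal_mul] <;> ring_nf

/-- the permutation matrices as elements of `SU(3)` -/
def pg (i : Fin 6) : SU3 := ⟨pmat i, pmat_mem i⟩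

theorem pg_dg (i : Fin 6) (x y : ℝ) :
    pg i * dg x y = dg (pmr i x y).1 (pmr i x y).2 * pg i := Subtype.ext (pmat_dg i x y)

/-- the diagonal torus as a homomorphism -/
def dgHom : Multiplicative (ℝ × ℝ) →* SU3 where
  toFun p := dg p.toAdd.1 p.toAdd.2
  map_one' := by
    apply Subtype.ext
    change diagonal ![exp (I * ((0 : ℝ) : ℂ)), exp (I * ((0 : ℝ) : ℂ)),
      exp (-(I * (((0 : ℝ) : ℂ) + ((0 : ℝ) : ℂ))))] = (1 : M3)
    ext a b
    fin_cases a <;> fin_cases b <;> simp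
  map_mul' p r := by
    apply Subtype.ext
    change diagonal ![exp (I * ((p.toAdd.1 + r.toAdd.1 : ℝ) : ℂ)),
        exp (I * ((p.toAdd.2 + r.toAdd.2 : ℝ) : ℂ)),
        exp (-(I * (((p.toAdd.1 + r.toAdd.1 : ℝ) : ℂ) + ((p.toAdd.2 + r.toAdd.2 : ℝ) : ℂ))))] =
      diagonal ![exp (I * ((p.toAdd.1 : ℝ) : ℂ)), exp (I * ((p.toAdd.2 : ℝ) : ℂ)),
        exp (-(I * (((p.toAdd.1 : ℝ) : ℂ) + ((p.toAdd.2 : ℝ) : ℂ))))] *
      diagonal ![exp (I * ((r.toAdd.1 : ℝ) : ℂ)), exp (I * ((r.toAdd.2 : ℝ) : ℂ)),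
        exp (-(I * (((r.toAdd.1 : ℝ) : ℂ) + ((r.toAdd.2 : ℝ) : ℂ))))]
    rw [diagonal_mul_diagonal]
    congr 1
    funext a
    fin_cases a
    · simp only [Fin.zero_eta, Matrix.cons_val_zero]
      rw [← Complex.exp_add]; congr 1; push_cast; ring
    · simp only [Fin.mk_one, Matrix.cons_val_one, Matrix.cons_val_zero]
      rw [← Complex.exp_add]; congr 1; push_cast; ring
    · simp only [Fin.reduceFinMk, Matrix.cons_val_two, Matrix.tail_cons, Matrix.head_cons]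
      rw [← Complex.exp_add]; congr 1; push_cast; ring

theorem dg_eq_hom (x y : ℝ) : dg x y = dgHom (Multiplicative.ofAdd (x, y)) := rfl

theorem dg_add (x y x' y' : ℝ) : dg (x + x') (y + y') = dg x y * dg x' y' := by
  rw [dg_eq_hom, dg_eq_hom, dg_eq_hom, ← map_mul]; rfl

theorem dg_zpow (x y : ℝ) (n : ℤ) : dg x y ^ n = dg (n * x) (n * y) := by
  rw [dg_eq_hom, dg_eq_hom, ← map_zpow]
  congr 1
  rw [← ofAdd_zsmul]
  congr 1
  simp [Prod.smul_mk]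

theorem exp_I_two_pi_int (k : ℤ) : exp (I * ((2 * Real.pi * k : ℝ) : ℂ)) = 1 := by
  have : I * ((2 * Real.pi * k : ℝ) : ℂ) = k * (2 * Real.pi * I) := by push_cast; ring
  rw [this, Complex.exp_int_mul_two_pi_mul_I]

theorem dg_period (a b : ℤ) : dg (2 * Real.pi * a) (2 * Real.pi * b) = 1 := by
  apply Subtype.ext
  change diagonal ![exp (I * ((2 * Real.pi * a : ℝ) : ℂ)), exp (I * ((2 * Real.pi * b : ℝ) : ℂ)),
      exp (-(I * (((2 * Real.pi * a : ℝ) : ℂ) + ((2 * Real.pi * b : ℝ) : ℂ))))] = (1 : M3)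
  have h3 : exp (-(I * (((2 * Real.pi * a : ℝ) : ℂ) + ((2 * Real.pi * b : ℝ) : ℂ)))) = 1 := by
    have : -(I * (((2 * Real.pi * a : ℝ) : ℂ) + ((2 * Real.pi * b : ℝ) : ℂ))) =
        I * ((2 * Real.pi * ((-a - b : ℤ) : ℝ) : ℝ) : ℂ) := by push_cast; ring
    rw [this, exp_I_two_pi_int]
  rw [h3, exp_I_two_pi_int, exp_I_two_pi_int]
  ext c d
  fin_cases c <;> fin_cases d <;> simp

/-- the generator of the group -/
def gen (q : ℕ) (v1 v2 : ℤ) : SU3 := dg (tj q v1 1) (tj q v2 1)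

theorem Gam_eq (q : ℕ) (v1 v2 : ℤ) : Gam q v1 v2 = Subgroup.zpowers (tau (gen q v1 v2)) := rfl

theorem gen_zpow {q : ℕ} (hq : 0 < q) {v1 v2 w1 w2 u : ℤ} (h1 : (q : ℤ) ∣ w1 - u * v1)
    (h2 : (q : ℤ) ∣ w2 - u * v2) : gen q w1 w2 = gen q v1 v2 ^ u := by
  obtain ⟨k1, hk1⟩ := h1
  obtain ⟨k2, hk2⟩ := h2
  have hq' : (q : ℝ) ≠ 0 := by exact_mod_cast hq.ne'
  unfold gen
  rw [dg_zpow]
  have e1 : tj q w1 1 = u * tj q v1 1 + 2 * Real.pi * k1 := by
    unfold tj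
    have : (w1 : ℝ) = u * v1 + q * k1 := by
      have : w1 = u * v1 + q * k1 := by linarith
      exact_mod_cast this
    rw [this, Nat.cast_one]; field_simp
  have e2 : tj q w2 1 = u * tj q v2 1 + 2 * Real.pi * k2 := by
    unfold tj
    have : (w2 : ℝ) = u * v2 + q * k2 := by
      have : w2 = u * v2 + q * k2 := by linarith
      exact_mod_cast this
    rw [this, Nat.cast_one]; field_simp
  rw [e1, e2, dg_add, dg_period, mul_one]

theorem gen_pow_q {q : ℕ} (hq : 0 < q) (v1 v2 : ℤ) : gen q v1 v2 ^ (q : ℤ) = 1 := by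
  have := gen_zpow hq (v1 := v1) (v2 := v2) (w1 := 0) (w2 := 0) (u := q)
    (by simp) (by simp)
  rw [← this]
  unfold gen
  have h0 : tj q 0 1 = 2 * Real.pi * ((0 : ℤ) : ℝ) := by unfold tj; simp
  rw [h0, dg_period]

theorem tau_zpow (H1 : tau 1 = 1) (Hm : ∀ g h : SU3, tau (g * h) = tau g * tau h) (g : SU3)
    (n : ℤ) : tau (g ^ n) = tau g ^ n :=
  map_zpow (⟨⟨tau, H1⟩, Hm⟩ : SU3 →* Equiv.Perm XX) g n

theorem Gam_mul {q : ℕ} (hq : 0 < q) {v1 v2 w1 w2 u : ℤ} (hu : IsCoprime u (q : ℤ))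
    (h1 : (q : ℤ) ∣ w1 - u * v1) (h2 : (q : ℤ) ∣ w2 - u * v2) : Gam q w1 w2 = Gam q v1 v2 := by
  rw [Gam_eq, Gam_eq]
  apply le_antisymm
  · rw [Subgroup.zpowers_le, gen_zpow hq h1 h2, tau_zpow tau_one tau_mul]
    exact Subgroup.zpow_mem_zpowers _ _
  · rw [Subgroup.zpowers_le]
    obtain ⟨a, b, hab⟩ := hu
    have e : gen q v1 v2 = gen q w1 w2 ^ a := by
      rw [gen_zpow hq h1 h2, ← _root_.zpow_mul]
      have e1 : gen q v1 v2 = gen q v1 v2 ^ (a * u + b * q) := by rw [hab, zpow_one]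
      conv_lhs => rw [e1]
      rw [_root_.zpow_add, mul_comm b (q : ℤ), _root_.zpow_mul (gen q v1 v2) (q : ℤ) b, gen_pow_q hq, _root_.one_zpow,
        mul_one, mul_comm a u]
    rw [e, tau_zpow tau_one tau_mul]
    exact Subgroup.zpow_mem_zpowers _ _

theorem gen_pm (q : ℕ) (i : Fin 6) (v1 v2 : ℤ) :
    gen q (pm i v1 v2).1 (pm i v1 v2).2 = pg i * gen q v1 v2 * (pg i)⁻¹ := by
  unfold gen
  rw [pg_dg, mul_inv_cancel_right]
  congr 1
  · fin_cases i <;> simp [pm, pmr, tj] <;> ring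
  · fin_cases i <;> simp [pm, pmr, tj] <;> ring

theorem Gam_pm (q : ℕ) (i : Fin 6) (v1 v2 : ℤ) : Gam q (pm i v1 v2).1 (pm i v1 v2).2 =
    (Gam q v1 v2).map (MulAut.conj (tau (pg i))).toMonoidHom := by
  rw [Gam_eq, Gam_eq, MonoidHom.map_zpowers, gen_pm, tau_mul, tau_mul, tau_inv]
  rfl

/-- a multiple of a permutation of `v` gives a conjugate group -/
theorem Gam_conj {q : ℕ} {v1 v2 w1 w2 : ℤ} (hA : Adm q v1 v2) (hA' : Adm q w1 w2)
    (h : Equiv3 q v1 v2 w1 w2) :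
    ∃ g : SU3, Gam q w1 w2 = (Gam q v1 v2).map (MulAut.conj (tau g)).toMonoidHom := by
  obtain ⟨u, i, h1, h2⟩ := h
  refine ⟨pg i, ?_⟩
  rw [← Gam_pm]
  refine Gam_mul hA.pos ?_ h1 h2
  obtain ⟨k, hk⟩ := h1
  have e : w1 = u * (pm i v1 v2).1 + q * k := by linarith
  have h3 := hA'.c1
  rw [e] at h3
  have h4 : IsCoprime (u * (pm i v1 v2).1) (q : ℤ) := (IsCoprime.add_mul_left_left_iff).1 h3
  exact h4.of_mul_left_left

end Pool.Agent.Iso79
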