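import Pool.Agent.Iso79.LatCommon

/-! # The generic case, see `LatCommon.lean` -/

open Complex

noncomputable section

namespace Pool.Agent.Iso79

theorem gen_Bf_pm (i : Fin 6) (a1 a2 b1 b2 : ℤ) :
    Bf (pm i a1 a2).1 (pm i a1 a2).2 (pm i b1 b2).1 (pm i b1 b2).2 = Bf a1 a2 b1 b2 := by
  fin_cases i <;> simp [pm, Bf] <;> ring

theorem gen_det_pm (i : Fin 6) (a1 a2 b1 b2 : ℤ) :
    ((pm i a1 a2).1 * (pm i b1 b2).2 - (pm i a1 a2).2 * (pm i b1 b2).1) ^ 2 =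
      (a1 * b2 - a2 * b1) ^ 2 := by
  fin_cases i <;> simp [pm] <;> ring

theorem gen_pm_comb (i : Fin 6) (m n a1 a2 b1 b2 : ℤ) :
    pm i (m * a1 + n * b1) (m * a2 + n * b2) =
      (m * (pm i a1 a2).1 + n * (pm i b1 b2).1, m * (pm i a1 a2).2 + n * (pm i b1 b2).2) := by
  fin_cases i <;> simp [pm] <;> ring_nf

/-- an inverse of `pm i` -/
theorem gen_pm_inv (i : Fin 6) : ∃ j : Fin 6, ∀ y1 y2 : ℤ,
    pm i (pm j y1 y2).1 (pm j y1 y2).2 = (y1, y2) ∧ pm j (pm i y1 y2).1 (pm i y1 y2).2 = (y1, y2) := by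
  fin_cases i
  · exact ⟨0, fun y1 y2 => by simp [pm]⟩
  · exact ⟨1, fun y1 y2 => by simp [pm]⟩
  · exact ⟨2, fun y1 y2 => by simp [pm]⟩
  · exact ⟨4, fun y1 y2 => by simp [pm]; ring⟩
  · exact ⟨3, fun y1 y2 => by simp [pm]; ring⟩
  · exact ⟨5, fun y1 y2 => by simp [pm]⟩

theorem gen_RB_pm {q : ℕ} {v1 v2 a1 a2 b1 b2 : ℤ} (h : RB q v1 v2 a1 a2 b1 b2) (i : Fin 6) :
    RB q (pm i v1 v2).1 (pm i v1 v2).2 (pm i a1 a2).1 (pm i a1 a2).2
      (pm i b1 b2).1 (pm i b1 b2).2 := by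
  refine ⟨(inLat_pm i a1 a2).2 h.ha, (inLat_pm i b1 b2).2 h.hb, ?_, ?_, ?_, ?_, ?_, ?_⟩
  · rw [gen_det_pm]; exact h.det
  · rw [gen_Bf_pm]; exact h.C0
  · rw [gen_Bf_pm, Nf_pm]; exact h.C1
  · rw [Nf_pm, Nf_pm]; exact h.AB
  · rw [Nf_pm]; exact h.A0
  · intro y1 y2 hy
    obtain ⟨j, hj⟩ := gen_pm_inv i
    have e := (hj y1 y2).1
    have hy' : inLat q (pm i v1 v2).1 (pm i v1 v2).2 (pm i (pm j y1 y2).1 (pm j y1 y2).2).1
        (pm i (pm j y1 y2).1 (pm j y1 y2).2).2 := by rw [e]; exact hy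
    rw [inLat_pm] at hy'
    obtain ⟨m, n, h1, h2⟩ := h.span _ _ hy'
    refine ⟨m, n, ?_⟩
    have e2 := gen_pm_comb i m n a1 a2 b1 b2
    rw [← h1, ← h2, e] at e2
    exact ⟨congrArg Prod.fst e2, congrArg Prod.snd e2⟩

theorem gen_RB_neg {q : ℕ} {v1 v2 a1 a2 b1 b2 : ℤ} (h : RB q v1 v2 a1 a2 b1 b2) :
    RB q v1 v2 (-a1) (-a2) (-b1) (-b2) := by
  refine ⟨inLat_neg h.ha, inLat_neg h.hb, ?_, ?_, ?_, ?_, ?_, ?_⟩
  · have := h.det; nlinarith
  · have := h.C0; unfold Bf at *; nlinarith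
  · have := h.C1; unfold Bf Nf at *; nlinarith
  · have := h.AB; unfold Nf at *; nlinarith
  · have := h.A0; unfold Nf at *; nlinarith
  · intro y1 y2 hy
    obtain ⟨m, n, h1, h2⟩ := h.span y1 y2 hy
    exact ⟨-m, -n, by rw [h1]; ring, by rw [h2]; ring⟩

/-- `Nf (-y) = Nf y` -/
theorem gen_Nf_neg (y1 y2 : ℤ) : Nf (-y1) (-y2) = Nf y1 y2 := by unfold Nf; ring

/-- the vectors of norm `Nf a` are `± a` if `Nf a < Nf b` -/
theorem gen_eq_of_Nf {q : ℕ} {v1 v2 a1 a2 b1 b2 : ℤ} (h : RB q v1 v2 a1 a2 b1 b2)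
    (h1 : Nf a1 a2 < Nf b1 b2) {y1 y2 : ℤ} (hy : inLat q v1 v2 y1 y2)
    (hN : Nf y1 y2 = Nf a1 a2) : (y1 = a1 ∧ y2 = a2) ∨ (y1 = -a1 ∧ y2 = -a2) := by
  obtain ⟨m, n, e1, e2⟩ := h.span y1 y2 hy
  have e3 : Nf y1 y2 = m ^ 2 * Nf a1 a2 + m * n * Bf a1 a2 b1 b2 + n ^ 2 * Nf b1 b2 := by
    rw [e1, e2, Nf_comb]
  by_cases hn : n = 0
  · subst hn
    have hA := h.A0
    have h4 : (m ^ 2 - 1) * Nf a1 a2 = 0 := by rw [hN] at e3; linarith
    rcases mul_eq_zero.1 h4 with h5 | h5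
    · have h6 : (m - 1) * (m + 1) = 0 := by linarith
      rcases mul_eq_zero.1 h6 with h7 | h7
      · left; have : m = 1 := by linarith
        subst this; constructor <;> simp [e1, e2]
      · right; have : m = -1 := by linarith
        subst this; constructor <;> simp [e1, e2]
    · omega
  · have := h.le_of_not_mul (m := m) hn
    rw [← e3] at this
    omega

/-- reduction to a common first vector -/
theorem gen_common {q : ℕ} (hq : 29 ≤ q) {v1 v2 w1 w2 a1 a2 b1 b2 c1 c2 d1 d2 : ℤ}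
    (hA : Adm q v1 v2) (hA' : Adm q w1 w2) (hS : SameWalls q v1 v2 w1 w2)
    (hSL : ∀ k, SL q v1 v2 k = SL q w1 w2 k)
    (h : RB q v1 v2 a1 a2 b1 b2) (h' : RB q w1 w2 c1 c2 d1 d2)
    (h1 : Nf a1 a2 < Nf b1 b2) (h2 : Nf c1 c2 < Nf d1 d2) : Orb a1 a2 c1 c2 := by
  have hAA := A_eq hq hA hA' hS hSL h h'
  have key : ∀ {y1 y2 z1 z2 : ℤ}, ((z1 = y1 ∧ z2 = y2) ∨ (z1 = -y1 ∧ z2 = -y2)) →
      Orb y1 y2 z1 z2 := by
    rintro y1 y2 z1 z2 (⟨rfl, rfl⟩ | ⟨rfl, rfl⟩)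
    · exact ⟨0, Or.inl rfl⟩
    · exact ⟨0, Or.inr (by simp [pm])⟩
  by_cases hc : inLat q v1 v2 c1 c2
  · exact key (gen_eq_of_Nf h h1 hc hAA.symm)
  by_cases ha : inLat q w1 w2 a1 a2
  · rcases gen_eq_of_Nf h' h2 ha hAA with ⟨e1, e2⟩ | ⟨e1, e2⟩
    · exact key (Or.inl ⟨e1.symm, e2.symm⟩)
    · exact key (Or.inr ⟨by omega, by omega⟩)
  have hA0 := h.A0
  have hle := A_le h
  obtain ⟨k, hk⟩ := Int.eq_ofNat_of_zero_le hA0.le
  have hk0 : 0 < k := by omega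
  have hkq : 16 * (k : ℤ) < (q : ℤ) ^ 2 := by
    have : (k : ℤ) ≤ q := by omega
    have hq' : (29 : ℤ) ≤ q := by exact_mod_cast hq
    nlinarith
  refine identify hA hA' hS hk0 hkq (hSL k) (y1 := a1) (y2 := a2) (z1 := c1) (z2 := c2)
    ?_ ?_ hk (by omega) h.ha h'.ha ha hc ?_ ?_
  · have := RB.mt hA h (m := 1) (n := 0) (by decide)
    simpa using this
  · have := RB.mt hA' h' (m := 1) (n := 0) (by decide)
    simpa using this
  · intro x1 x2 hx hxv _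
    exact gen_eq_of_Nf h h1 hxv (by omega)
  · intro x1 x2 hx hxw _
    exact gen_eq_of_Nf h' h2 hxw (by omega)

/-- if `Λ_w` is generated by vectors of (a permutation of) `Λ_v` we are done -/
theorem gen_of_basis {q : ℕ} {v1 v2 w1 w2 a1 a2 d1 d2 : ℤ} (hA : Adm q v1 v2) (hA' : Adm q w1 w2)
    (h' : RB q w1 w2 a1 a2 d1 d2) (i : Fin 6)
    (ha : inLat q (pm i v1 v2).1 (pm i v1 v2).2 a1 a2)
    (hd : inLat q (pm i v1 v2).1 (pm i v1 v2).2 d1 d2) : Equiv3 q v1 v2 w1 w2 := by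
  obtain ⟨m, n, e1, e2⟩ := h'.span w1 w2 (by unfold inLat; rw [mul_comm, sub_self]; exact dvd_zero _)
  refine equiv3_of_lat hA hA' i ?_
  rw [e1, e2]
  exact inLat_add (inLat_smul m ha) (inLat_smul n hd)

/-- vectors of `Nf = Nf b` outside `ℤ a`, with `m, n` coordinates -/
theorem gen_abs_n {A B C m n : ℤ} (hA : 0 < A) (hC : 0 ≤ C) (hCA : C ≤ A) (hAB : A < B)
    (hN : m ^ 2 * A + m * n * C + n ^ 2 * B = B) (hn : n ≠ 0) : n = 1 ∨ n = -1 := by
  by_contra hcon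
  push Not at hcon
  have h1 : 4 ≤ n ^ 2 := by
    have : 2 ≤ n ∨ n ≤ -2 := by omega
    rcases this with h | h <;> nlinarith
  have h2 : (2 * A * m + C * n) ^ 2 + (4 * A * B - C ^ 2) * n ^ 2 = 4 * A * B := by
    linear_combination (4 * A) * hN
  have h3 : 0 ≤ (2 * A * m + C * n) ^ 2 := sq_nonneg _
  have h4 : A ^ 2 < A * B := by nlinarith
  have h5 : C ^ 2 ≤ A ^ 2 := by nlinarith
  have h6 : 0 ≤ 4 * A * B - C ^ 2 := by nlinarith
  have h7 : (4 * A * B - C ^ 2) * 4 ≤ (4 * A * B - C ^ 2) * n ^ 2 :=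
    mul_le_mul_of_nonneg_left h1 h6
  nlinarith

theorem gen_ne_mul {q : ℕ} (hq : 0 < q) {v1 v2 a1 a2 b1 b2 : ℤ} (h : RB q v1 v2 a1 a2 b1 b2)
    (m : ℤ) : ¬ (b1 = m * a1 ∧ b2 = m * a2) := by
  rintro ⟨e1, e2⟩
  have h1 := h.det
  rw [e1, e2] at h1
  have h2 : (a1 * (m * a2) - a2 * (m * a1)) ^ 2 = 0 := by ring
  rw [h2] at h1
  have : (q : ℤ) = 0 := by
    have h3 := h1.symm
    exact pow_eq_zero_iff (two_ne_zero) |>.1 h3
  omega

/-- the second minimum cannot be smaller -/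
theorem gen_B_le {q : ℕ} {v1 v2 w1 w2 a1 a2 b1 b2 d1 d2 : ℤ}
    (hA : Adm q v1 v2) (hA' : Adm q w1 w2) (hS : SameWalls q v1 v2 w1 w2)
    (hSL : ∀ k, SL q v1 v2 k = SL q w1 w2 k)
    (h : RB q v1 v2 a1 a2 b1 b2) (h' : RB q w1 w2 a1 a2 d1 d2)
    (h1 : Nf a1 a2 < Nf b1 b2) (hB : 16 * Nf b1 b2 < (q : ℤ) ^ 2) : Nf d1 d2 ≤ Nf b1 b2 := by
  by_contra hcon
  push Not at hcon
  have hA0 := h.A0
  obtain ⟨k, hk⟩ := Int.eq_ofNat_of_zero_le (hA0.trans h1).le
  have hkk : Nf b1 b2 = (k : ℤ) := hk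
  have h3 : inLat q w1 w2 b1 b2 := by
    refine detect hA hA' hS (k := k) (by omega) (by rw [← hkk]; exact hB) (hSL k) ?_ ?_ hk h.hb
    · intro y1 y2 hy hyw
      obtain ⟨m, n, e1, e2⟩ := h'.span y1 y2 hyw
      by_cases hn : n = 0
      · subst hn
        rw [zero_mul, add_zero] at e1 e2
        rw [e1, e2]
        exact inLat_smul m h.ha
      · have := h'.le_of_not_mul (m := m) hn
        rw [← Nf_comb, ← e1, ← e2, hy] at this
        omega
    · intro y1 y2 hy hyv hyw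
      obtain ⟨m, n, e1, e2⟩ := h.span y1 y2 hyv
      have hn : n ≠ 0 := by
        rintro rfl
        rw [zero_mul, add_zero] at e1 e2
        exact hyw (by rw [e1, e2]; exact inLat_smul m h'.ha)
      have e3 : m ^ 2 * Nf a1 a2 + m * n * Bf a1 a2 b1 b2 + n ^ 2 * Nf b1 b2 = Nf b1 b2 := by
        rw [← Nf_comb, ← e1, ← e2, hy, hkk]
      have h4 := gen_abs_n hA0 h.C0 h.C1 h1 e3 hn
      rw [e1, e2]
      refine RB.mt hA h ?_
      rintro ⟨-, hev⟩
      rcases h4 with rfl | rfl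
      · exact absurd hev (by decide)
      · exact absurd hev (by decide)
  obtain ⟨m, n, e1, e2⟩ := h'.span b1 b2 h3
  have hn : n ≠ 0 := by
    rintro rfl
    rw [zero_mul, add_zero] at e1 e2
    exact gen_ne_mul hA.pos h m ⟨e1, e2⟩
  have := h'.le_of_not_mul (m := m) hn
  rw [← Nf_comb, ← e1, ← e2] at this
  omega

/-- a vector is determined by its inner product and determinant with `a` -/
theorem gen_eq_of {a1 a2 y1 y2 z1 z2 : ℤ} (hA : 0 < Nf a1 a2)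
    (h1 : Bf a1 a2 y1 y2 = Bf a1 a2 z1 z2) (h2 : a1 * y2 - a2 * y1 = a1 * z2 - a2 * z1) :
    y1 = z1 ∧ y2 = z2 := by
  have e1 : 2 * Nf a1 a2 * (y1 - z1) = 0 := by
    unfold Nf Bf at *
    linear_combination a1 * h1 - (a1 + 2 * a2) * h2
  have e2 : 2 * Nf a1 a2 * (y2 - z2) = 0 := by
    unfold Nf Bf at *
    linear_combination a2 * h1 + (2 * a1 + a2) * h2
  constructor
  · rcases mul_eq_zero.1 e1 with h | h
    · omega
    · omega
  · rcases mul_eq_zero.1 e2 with h | h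
    · omega
    · omega

theorem gen_B_bound {q : ℕ} (hq : 29 ≤ q) {v1 v2 a1 a2 b1 b2 : ℤ}
    (h : RB q v1 v2 a1 a2 b1 b2) (h27 : 27 ≤ Nf a1 a2) : 16 * Nf b1 b2 < (q : ℤ) ^ 2 := by
  have hle := A_le h
  have hG := Gram_det a1 a2 b1 b2
  rw [h.det] at hG
  have h1 := h.C0
  have h2 := h.C1
  have h3 := h.A0
  have hq' : (29 : ℤ) ≤ q := by exact_mod_cast hq
  generalize Nf a1 a2 = A at *
  generalize Nf b1 b2 = B at *
  generalize Bf a1 a2 b1 b2 = C at *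
  generalize (q : ℤ) = Q at *
  have h4 : C ^ 2 ≤ A ^ 2 := by nlinarith
  have h5 : 16 * B * A ≤ 12 * Q ^ 2 + 4 * A ^ 2 := by nlinarith
  have h6 : 12 * Q ^ 2 + 4 * A ^ 2 < Q ^ 2 * A := by
    have e1 : 4 * A ^ 2 ≤ 4 * A * Q := by nlinarith
    have e2 : 29 * (Q * (A - 12)) ≤ Q * (Q * (A - 12)) :=
      mul_le_mul_of_nonneg_right hq' (mul_nonneg (by omega) (by omega))
    have e3 : 0 < 25 * (Q * A) - 348 * Q := by nlinarith
    nlinarith
  have h7 : 16 * B * A < Q ^ 2 * A := lt_of_le_of_lt h5 h6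
  exact lt_of_mul_lt_mul_right h7 h3.le

theorem gen_C_eq {q : ℕ} {v1 v2 w1 w2 a1 a2 b1 b2 d1 d2 : ℤ}
    (h : RB q v1 v2 a1 a2 b1 b2) (h' : RB q w1 w2 a1 a2 d1 d2) (hB : Nf b1 b2 = Nf d1 d2) :
    Bf a1 a2 b1 b2 = Bf a1 a2 d1 d2 := by
  have hG := Gram_det a1 a2 b1 b2
  have hG' := Gram_det a1 a2 d1 d2
  rw [h.det] at hG
  rw [h'.det] at hG'
  rw [← hB] at hG'
  have h1 : Bf a1 a2 b1 b2 ^ 2 = Bf a1 a2 d1 d2 ^ 2 := by linarith
  exact (pow_left_inj₀ h.C0 h'.C0 two_ne_zero).1 h1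

/-- the vectors with `Nf = Nf b` outside `ℤ a` are `± b` if `0 < C < A` -/
theorem gen_uniq {q : ℕ} {v1 v2 a1 a2 b1 b2 : ℤ} (h : RB q v1 v2 a1 a2 b1 b2)
    (h1 : Nf a1 a2 < Nf b1 b2) (hC : 0 < Bf a1 a2 b1 b2) (hCA : Bf a1 a2 b1 b2 < Nf a1 a2)
    {y1 y2 : ℤ} (hy : inLat q v1 v2 y1 y2) (hN : Nf y1 y2 = Nf b1 b2)
    (hne : ∀ m : ℤ, ¬ (y1 = m * a1 ∧ y2 = m * a2)) :
    (y1 = b1 ∧ y2 = b2) ∨ (y1 = -b1 ∧ y2 = -b2) := by
  obtain ⟨m, n, e1, e2⟩ := h.span y1 y2 hy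
  have hn : n ≠ 0 := by
    rintro rfl
    rw [zero_mul, add_zero] at e1 e2
    exact hne m ⟨e1, e2⟩
  have e3 : m ^ 2 * Nf a1 a2 + m * n * Bf a1 a2 b1 b2 + n ^ 2 * Nf b1 b2 = Nf b1 b2 := by
    rw [← Nf_comb, ← e1, ← e2, hN]
  have h4 := gen_abs_n h.A0 h.C0 h.C1 h1 e3 hn
  have hm : m = 0 := by
    have hA0 := h.A0
    generalize Nf a1 a2 = A at *
    generalize Bf a1 a2 b1 b2 = C at *
    generalize Nf b1 b2 = B at *
    rcases h4 with rfl | rfl
    · have h5 : m * (m * A + C) = 0 := by linarith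
      rcases mul_eq_zero.1 h5 with h6 | h6
      · exact h6
      · exfalso
        have : m < 0 := by nlinarith
        have : m ≤ -1 := by omega
        nlinarith
    · have h5 : m * (m * A - C) = 0 := by linarith
      rcases mul_eq_zero.1 h5 with h6 | h6
      · exact h6
      · exfalso
        have : 0 < m := by nlinarith
        have : 1 ≤ m := by omega
        nlinarith
  subst hm
  rcases h4 with rfl | rfl
  · left; constructor
    · rw [e1]; ring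
    · rw [e2]; ring
  · right; constructor
    · rw [e1]; ring
    · rw [e2]; ring

/-- a reflection `g = ± pm i` with `g b = d` fixes `a` if `A d = C a - A b`, `C ≠ 0` -/
theorem gen_refl {a1 a2 b1 b2 d1 d2 ε : ℤ} {A C : ℤ} (hA : 0 < A) (_hAN : A = Nf a1 a2)
    (hCB : C = Bf a1 a2 b1 b2) (hC : 0 < C) (hCA : C < A) (hAB : A < Nf b1 b2)
    (hε : ε = 1 ∨ ε = -1)
    (hr1 : A * d1 = C * a1 - A * b1) (hr2 : A * d2 = C * a2 - A * b2)
    (hdet : a1 * b2 - a2 * b1 ≠ 0) (i : Fin 6)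
    (h1 : ε * d1 = (pm i b1 b2).1) (h2 : ε * d2 = (pm i b1 b2).2) :
    (pm i a1 a2).1 = ε * a1 ∧ (pm i a1 a2).2 = ε * a2 := by
  have hB0 : 0 < Nf b1 b2 := hA.trans hAB
  -- `A Bf (b, d) = C² - 2 A B`
  have hbd : A * Bf b1 b2 d1 d2 = C ^ 2 - 2 * A * Nf b1 b2 := by
    have : A * Bf b1 b2 d1 d2 = Bf b1 b2 (A * d1) (A * d2) := by unfold Bf; ring
    rw [this, hr1, hr2, hCB]
    unfold Bf Nf; ring
  have hCsq : C ^ 2 < A * Nf b1 b2 := by nlinarith
  have hε2 : ε ^ 2 = 1 := by rcases hε with rfl | rfl <;> norm_num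
  have hC0 : C ≠ 0 := hC.ne'
  have hA0 : A ≠ 0 := hA.ne'
  -- rotations are impossible
  have hrot : ∀ r : ℤ, ε * Bf b1 b2 d1 d2 = -r * Nf b1 b2 → r = 1 → False := by
    rintro r e rfl
    have e1 : Bf b1 b2 d1 d2 = -ε * Nf b1 b2 := by
      have : ε * (ε * Bf b1 b2 d1 d2) = ε * (-1 * Nf b1 b2) := by rw [e]
      have e3 : ε * (ε * Bf b1 b2 d1 d2) = ε ^ 2 * Bf b1 b2 d1 d2 := by ring
      rw [e3, hε2] at this
      linarith
    rw [e1] at hbd
    rcases hε with rfl | rfl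
    · nlinarith
    · nlinarith
  -- the reflections
  have hfix : ∀ {x y : ℤ}, C * x = C * (ε * y) → x = ε * y := fun {x y} e =>
    mul_left_cancel₀ hC0 e
  fin_cases i
  · -- identity
    exfalso
    simp only [pm] at h1 h2
    simp at h1 h2
    have e1 : A * (a1 * b2 - a2 * b1) * (ε + 1) = 0 := by
      have k1 : A * (ε * d1) = A * b1 := by rw [h1]
      have k2 : A * (ε * d2) = A * b2 := by rw [h2]
      have k1' : ε * (C * a1 - A * b1) = A * b1 := by rw [← hr1]; linarith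
      have k2' : ε * (C * a2 - A * b2) = A * b2 := by rw [← hr2]; linarith
      linear_combination a2 * k1' - a1 * k2'
    have e2 : ε = -1 := by
      rcases mul_eq_zero.1 e1 with h | h
      · exact absurd h (mul_ne_zero hA0 hdet)
      · omega
    subst e2
    have k1' : C * a1 = 0 := by
      have : A * (-1 * d1) = A * b1 := by rw [h1]
      linarith
    have k2' : C * a2 = 0 := by
      have : A * (-1 * d2) = A * b2 := by rw [h2]
      linarith
    have z1 : a1 = 0 := by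
      rcases mul_eq_zero.1 k1' with h | h
      · exact absurd h hC0
      · exact h
    have z2 : a2 = 0 := by
      rcases mul_eq_zero.1 k2' with h | h
      · exact absurd h hC0
      · exact h
    rw [z1, z2] at hdet
    simp at hdet
  · simp only [pm] at h1 h2 ⊢
    simp at h1 h2 ⊢
    constructor
    · apply hfix
      have k1 : C * a1 = A * d1 + A * b1 := by linarith
      have k2 : C * a2 = A * d2 + A * b2 := by linarith
      rw [k2]
      have : C * (ε * a1) = ε * (C * a1) := by ring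
      rw [this, k1]
      have e1 : d2 = ε * b1 := by
        have : ε * (ε * d2) = ε * b1 := by rw [h2]
        have e3 : ε * (ε * d2) = ε ^ 2 * d2 := by ring
        rw [e3, hε2] at this; linarith
      rw [e1]
      linear_combination -A * h1
    · apply hfix
      have k1 : C * a1 = A * d1 + A * b1 := by linarith
      have k2 : C * a2 = A * d2 + A * b2 := by linarith
      rw [k1]
      have : C * (ε * a2) = ε * (C * a2) := by ring
      rw [this, k2]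
      have e1 : d1 = ε * b2 := by
        have : ε * (ε * d1) = ε * b2 := by rw [h1]
        have e3 : ε * (ε * d1) = ε ^ 2 * d1 := by ring
        rw [e3, hε2] at this; linarith
      rw [e1]
      linear_combination -A * h2
  · simp only [pm] at h1 h2 ⊢
    simp at h1 h2 ⊢
    have k1 : C * a1 = A * d1 + A * b1 := by linarith
    have k2 : C * a2 = A * d2 + A * b2 := by linarith
    rcases hε with rfl | rfl
    · have e1 : d1 = b1 := by linarith
      have e2 : d2 = -b1 - b2 := by linarith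
      rw [e1] at k1; rw [e2] at k2
      refine ⟨by ring, hfix ?_⟩
      linear_combination -k1 - 2 * k2
    · have e1 : d1 = -b1 := by linarith
      have e2 : d2 = b1 + b2 := by linarith
      rw [e1] at k1; rw [e2] at k2
      refine ⟨hfix ?_, hfix ?_⟩
      · linear_combination 2 * k1
      · linear_combination -k1
  · refine (hrot 1 ?_ rfl).elim
    simp only [pm] at h1 h2
    simp at h1 h2
    have : ε * Bf b1 b2 d1 d2 = Bf b1 b2 (ε * d1) (ε * d2) := by unfold Bf; ring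
    rw [this, h1, h2]
    unfold Bf Nf; ring
  · refine (hrot 1 ?_ rfl).elim
    simp only [pm] at h1 h2
    simp at h1 h2
    have : ε * Bf b1 b2 d1 d2 = Bf b1 b2 (ε * d1) (ε * d2) := by unfold Bf; ring
    rw [this, h1, h2]
    unfold Bf Nf; ring
  · simp only [pm] at h1 h2 ⊢
    simp at h1 h2 ⊢
    have k1 : C * a1 = A * d1 + A * b1 := by linarith
    have k2 : C * a2 = A * d2 + A * b2 := by linarith
    rcases hε with rfl | rfl
    · have e1 : d1 = -b1 - b2 := by linarith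
      have e2 : d2 = b2 := by linarith
      rw [e1] at k1; rw [e2] at k2
      refine ⟨hfix ?_, by ring⟩
      linear_combination -2 * k1 - k2
    · have e1 : d1 = b1 + b2 := by linarith
      have e2 : d2 = -b2 := by linarith
      rw [e1] at k1; rw [e2] at k2
      refine ⟨hfix ?_, hfix ?_⟩
      · linear_combination -k2
      · linear_combination 2 * k2

/-- the case of a common first vector -/
theorem gen_same {q : ℕ} (hq : 29 ≤ q) {v1 v2 w1 w2 a1 a2 b1 b2 d1 d2 : ℤ}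
    (hA : Adm q v1 v2) (hA' : Adm q w1 w2) (hS : SameWalls q v1 v2 w1 w2)
    (hSL : ∀ k, SL q v1 v2 k = SL q w1 w2 k)
    (h : RB q v1 v2 a1 a2 b1 b2) (h' : RB q w1 w2 a1 a2 d1 d2)
    (h1 : Nf a1 a2 < Nf b1 b2) (h2 : Nf a1 a2 < Nf d1 d2) : Equiv3 q v1 v2 w1 w2 := by
  by_cases hp : ∀ p : ℕ, p.Prime → p ∣ q → ¬ ((p : ℤ) ∣ a1 ∧ (p : ℤ) ∣ a2)
  · exact eq_of_primitive hA hA' h.ha h'.ha hp
  push Not at hp
  obtain ⟨p, hp, hpq, hpa⟩ := hp
  have hAq := A_le h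
  have hq' : (29 : ℤ) ≤ q := by exact_mod_cast hq
  have h27 := Nf_ge_of_not_primitive hA h.ha h.A0 (by nlinarith) hp hpq hpa
  have hB := gen_B_bound hq h h27
  have hB' := gen_B_bound hq h' h27
  have e1 : Nf d1 d2 ≤ Nf b1 b2 := gen_B_le hA hA' hS hSL h h' h1 hB
  have e2 : Nf b1 b2 ≤ Nf d1 d2 := gen_B_le hA' hA hS.symm (fun k => (hSL k).symm) h' h h2 hB'
  have hBB : Nf b1 b2 = Nf d1 d2 := le_antisymm e2 e1
  have hCC := gen_C_eq h h' hBB
  -- `d ∈ Λ_v` is enough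
  have fin1 : inLat q v1 v2 d1 d2 → Equiv3 q v1 v2 w1 w2 := fun hd =>
    gen_of_basis hA hA' h' 0 (by simpa [pm] using h.ha) (by simpa [pm] using hd)
  have fin2 : inLat q w1 w2 b1 b2 → Equiv3 q v1 v2 w1 w2 := fun hb =>
    equiv3_symm hA' hA
      (gen_of_basis hA' hA h 0 (by simpa [pm] using h'.ha) (by simpa [pm] using hb))
  by_cases hd : inLat q v1 v2 d1 d2
  · exact fin1 hd
  by_cases hb : inLat q w1 w2 b1 b2
  · exact fin2 hb
  -- the determinants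
  have hdd : (a1 * b2 - a2 * b1) ^ 2 = (a1 * d2 - a2 * d1) ^ 2 := by rw [h.det, h'.det]
  have hA0 := h.A0
  rcases sq_eq_sq_iff_eq_or_eq_neg.1 hdd with hD | hD
  · obtain ⟨f1, f2⟩ := gen_eq_of hA0 hCC hD
    exact fin1 (by rw [← f1, ← f2]; exact h.hb)
  -- `A d = C a - A b`
  obtain ⟨r1, r2⟩ : Nf a1 a2 * d1 = Bf a1 a2 b1 b2 * a1 - Nf a1 a2 * b1 ∧
      Nf a1 a2 * d2 = Bf a1 a2 b1 b2 * a2 - Nf a1 a2 * b2 := by
    refine gen_eq_of hA0 ?_ ?_
    · have k1 : Bf a1 a2 (Nf a1 a2 * d1) (Nf a1 a2 * d2) = Nf a1 a2 * Bf a1 a2 d1 d2 := by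
        unfold Bf; ring
      have k2 : ∀ c : ℤ, Bf a1 a2 (c * a1 - Nf a1 a2 * b1) (c * a2 - Nf a1 a2 * b2) =
          2 * c * Nf a1 a2 - Nf a1 a2 * Bf a1 a2 b1 b2 := by
        intro c; unfold Bf Nf; ring
      rw [k1, k2, ← hCC]; ring
    · linear_combination Nf a1 a2 * hD
  rcases h.C0.eq_or_lt with hC | hC
  · -- `C = 0`
    refine fin1 ?_
    have s1 : d1 = -b1 := by
      rw [← hC] at r1
      have : Nf a1 a2 * d1 = Nf a1 a2 * (-b1) := by linarith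
      exact mul_left_cancel₀ hA0.ne' this
    have s2 : d2 = -b2 := by
      rw [← hC] at r2
      have : Nf a1 a2 * d2 = Nf a1 a2 * (-b2) := by linarith
      exact mul_left_cancel₀ hA0.ne' this
    rw [s1, s2]
    exact inLat_neg h.hb
  rcases h.C1.eq_or_lt with hCA | hCA
  · -- `C = A`
    refine fin1 ?_
    have s1 : d1 = a1 + -b1 := by
      rw [hCA] at r1
      have : Nf a1 a2 * d1 = Nf a1 a2 * (a1 + -b1) := by linarith
      exact mul_left_cancel₀ hA0.ne' this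
    have s2 : d2 = a2 + -b2 := by
      rw [hCA] at r2
      have : Nf a1 a2 * d2 = Nf a1 a2 * (a2 + -b2) := by linarith
      exact mul_left_cancel₀ hA0.ne' this
    rw [s1, s2]
    exact inLat_add h.ha (inLat_neg h.hb)
  -- the general case
  have hC' : 0 < Bf a1 a2 d1 d2 := by rw [← hCC]; exact hC
  have hCA' : Bf a1 a2 d1 d2 < Nf a1 a2 := by rw [← hCC]; exact hCA
  obtain ⟨k, hk⟩ := Int.eq_ofNat_of_zero_le (hA0.trans h1).le
  have hkk : Nf b1 b2 = (k : ℤ) := hk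
  have hOrb : Orb b1 b2 d1 d2 := by
    refine identify hA hA' hS (k := k) (by omega) (by rw [← hkk]; exact hB) (hSL k)
      (y1 := b1) (y2 := b2) (z1 := d1) (z2 := d2) ?_ ?_ hkk (by omega) h.hb h'.hb hb hd ?_ ?_
    · have := RB.mt hA h (m := 0) (n := 1) (by decide)
      simpa using this
    · have := RB.mt hA' h' (m := 0) (n := 1) (by decide)
      simpa using this
    · intro x1 x2 hx hxv hxw
      refine gen_uniq h h1 hC hCA hxv (by omega) ?_
      rintro m ⟨f1, f2⟩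
      exact hxw (by rw [f1, f2]; exact inLat_smul m h'.ha)
    · intro x1 x2 hx hxw hxv
      refine gen_uniq h' h2 hC' hCA' hxw (by omega) ?_
      rintro m ⟨f1, f2⟩
      exact hxv (by rw [f1, f2]; exact inLat_smul m h.ha)
  have hdet : a1 * b2 - a2 * b1 ≠ 0 := by
    intro h0
    have := h.det
    rw [h0] at this
    nlinarith
  obtain ⟨i, hi | hi⟩ := hOrb
  · have i1 : 1 * d1 = (pm i b1 b2).1 := by rw [← hi]; ring
    have i2 : 1 * d2 = (pm i b1 b2).2 := by rw [← hi]; ring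
    obtain ⟨j1, j2⟩ := gen_refl hA0 rfl rfl hC hCA h1 (Or.inl rfl) r1 r2 hdet i i1 i2
    refine gen_of_basis hA hA' h' i ?_ ?_
    · have := (inLat_pm (q := q) (v1 := v1) (v2 := v2) i a1 a2).2 h.ha
      rw [j1, j2, one_mul, one_mul] at this
      exact this
    · have := (inLat_pm (q := q) (v1 := v1) (v2 := v2) i b1 b2).2 h.hb
      rw [← i1, ← i2, one_mul, one_mul] at this
      exact this
  · have i1 : -1 * d1 = (pm i b1 b2).1 := by rw [← hi]; ring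
    have i2 : -1 * d2 = (pm i b1 b2).2 := by rw [← hi]; ring
    obtain ⟨j1, j2⟩ := gen_refl hA0 rfl rfl hC hCA h1 (Or.inr rfl) r1 r2 hdet i i1 i2
    refine gen_of_basis hA hA' h' i ?_ ?_
    · have := inLat_neg ((inLat_pm (q := q) (v1 := v1) (v2 := v2) i a1 a2).2 h.ha)
      rw [j1, j2, neg_one_mul, neg_one_mul, neg_neg, neg_neg] at this
      exact this
    · have := inLat_neg ((inLat_pm (q := q) (v1 := v1) (v2 := v2) i b1 b2).2 h.hb)
      rw [← i1, ← i2, neg_one_mul, neg_one_mul, neg_neg, neg_neg] at this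
      exact this

/-- generic case -/
theorem lat_gen {q : ℕ} (hq : 29 ≤ q) {v1 v2 w1 w2 a1 a2 b1 b2 c1 c2 d1 d2 : ℤ}
    (hA : Adm q v1 v2) (hA' : Adm q w1 w2) (hS : SameWalls q v1 v2 w1 w2)
    (hSL : ∀ k, SL q v1 v2 k = SL q w1 w2 k)
    (h : RB q v1 v2 a1 a2 b1 b2) (h' : RB q w1 w2 c1 c2 d1 d2)
    (h1 : Nf a1 a2 < Nf b1 b2) (h2 : Nf c1 c2 < Nf d1 d2) : Equiv3 q v1 v2 w1 w2 := by
  obtain ⟨i, hi⟩ := gen_common hq hA hA' hS hSL h h' h1 h2
  have hR := gen_RB_pm h i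
  have hAi := Adm_pm hA i
  have hSi := SameWalls_pm hS i
  have hSLi : ∀ k, SL q (pm i v1 v2).1 (pm i v1 v2).2 k = SL q w1 w2 k := fun k => by
    rw [SL_pm, hSL]
  refine equiv3_pm i ?_
  rcases hi with hi | hi
  · rw [← hi] at hR
    refine gen_same hq hAi hA' hSi hSLi hR h' ?_ h2
    rw [Nf_pm]
    have : Nf c1 c2 = Nf a1 a2 := by
      have := Nf_pm i a1 a2
      rw [← hi] at this
      exact this
    rw [this]; exact h1
  · rw [← hi] at hR
    have hR' := gen_RB_neg hR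
    simp only [neg_neg] at hR'
    refine gen_same hq hAi hA' hSi hSLi hR' h' ?_ h2
    rw [gen_Nf_neg, Nf_pm]
    have : Nf c1 c2 = Nf a1 a2 := by
      have := Nf_pm i a1 a2
      rw [← hi] at this
      rw [gen_Nf_neg] at this
      exact this
    rw [this]; exact h1

end Pool.Agent.Iso79
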