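import Pool.Agent.Iso79.LatHR
import Pool.Agent.Iso79.LatGen

/-! # The lattice theorem for `q ≥ 29` -/

open Complex

noncomputable section

namespace Pool.Agent.Iso79

theorem lat_main {q : ℕ} (hq : 29 ≤ q) {v1 v2 w1 w2 : ℤ} (hA : Adm q v1 v2) (hA' : Adm q w1 w2)
    (hS : SameWalls q v1 v2 w1 w2) (hSL : ∀ k, SL q v1 v2 k = SL q w1 w2 k) :
    Equiv3 q v1 v2 w1 w2 := by
  obtain ⟨a1, a2, b1, b2, h⟩ := reduced_basis hA
  obtain ⟨c1, c2, d1, d2, h'⟩ := reduced_basis hA'
  rcases h.AB.eq_or_lt with e | e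
  · rcases h.C1.eq_or_lt with f | f
    · exact lat_hex hq hA hA' hS hSL h h' e f
    · exact lat_rhomb hq hA hA' hS hSL h h' e f
  · rcases h'.AB.eq_or_lt with e' | e'
    · refine equiv3_symm hA' hA ?_
      rcases h'.C1.eq_or_lt with f | f
      · exact lat_hex hq hA' hA hS.symm (fun k => (hSL k).symm) h' h e' f
      · exact lat_rhomb hq hA' hA hS.symm (fun k => (hSL k).symm) h' h e' f
    · exact lat_gen hq hA hA' hS hSL h h' e e'

end Pool.Agent.Iso79
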