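import Pool.Agent.Iso79.LatRed

/-!
# The lattice theorem for `q ≤ 27`

Proof.  For odd `q ≤ 27` the classes of admissible `v` under multiples and permutations are
separated by the walls, and (for `q ≥ 13`) by `SL q v 7 ≠ 0` and (for `q ≥ 17`) `SL q v 13 ≠ 0`,
which say that `Λ_v` contains a permutation of `± (1,2,-3)`, resp. `± (1,3,-4)` (all the vectors with
`Nf = 7` or `13` have negative amplitude, `Bt_neg`).  We normalise `v₁ = w₁ = 1` by multiplying with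
units; the remaining finite check is done by the kernel.
-/

open Complex

noncomputable section

namespace Pool.Agent.Iso79

namespace Small

/-- the vectors with `Nf = 7` -/
def L7 : List (ℤ × ℤ) := [(1, 2), (2, 1), (1, -3), (-3, 1), (2, -3), (-3, 2),
  (-1, -2), (-2, -1), (-1, 3), (3, -1), (-2, 3), (3, -2)]

/-- the vectors with `Nf = 13` -/
def L13 : List (ℤ × ℤ) := [(1, 3), (3, 1), (1, -4), (-4, 1), (3, -4), (-4, 3),
  (-1, -3), (-3, -1), (-1, 4), (4, -1), (-3, 4), (4, -3)]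

theorem mem_L7 {y1 y2 : ℤ} : Nf y1 y2 = 7 ↔ (y1, y2) ∈ L7 := by
  constructor
  · intro h
    unfold Nf at h
    have a1 : y1 ≤ 3 := by nlinarith [sq_nonneg (2 * y2 + y1)]
    have a2 : -3 ≤ y1 := by nlinarith [sq_nonneg (2 * y2 + y1)]
    have b1 : y2 ≤ 3 := by nlinarith [sq_nonneg (2 * y1 + y2)]
    have b2 : -3 ≤ y2 := by nlinarith [sq_nonneg (2 * y1 + y2)]
    interval_cases y1 <;> interval_cases y2 <;> simp_all [L7]
  · intro h
    simp only [L7, List.mem_cons, Prod.mk.injEq, List.not_mem_nil, or_false] at h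
    rcases h with ⟨rfl, rfl⟩ | ⟨rfl, rfl⟩ | ⟨rfl, rfl⟩ | ⟨rfl, rfl⟩ | ⟨rfl, rfl⟩ | ⟨rfl, rfl⟩ |
      ⟨rfl, rfl⟩ | ⟨rfl, rfl⟩ | ⟨rfl, rfl⟩ | ⟨rfl, rfl⟩ | ⟨rfl, rfl⟩ | ⟨rfl, rfl⟩ <;> rfl

theorem mem_L13 {y1 y2 : ℤ} : Nf y1 y2 = 13 ↔ (y1, y2) ∈ L13 := by
  constructor
  · intro h
    unfold Nf at h
    have a1 : y1 ≤ 4 := by nlinarith [sq_nonneg (2 * y2 + y1)]
    have a2 : -4 ≤ y1 := by nlinarith [sq_nonneg (2 * y2 + y1)]
    have b1 : y2 ≤ 4 := by nlinarith [sq_nonneg (2 * y1 + y2)]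
    have b2 : -4 ≤ y2 := by nlinarith [sq_nonneg (2 * y1 + y2)]
    interval_cases y1 <;> interval_cases y2 <;> simp_all [L13]
  · intro h
    simp only [L13, List.mem_cons, Prod.mk.injEq, List.not_mem_nil, or_false] at h
    rcases h with ⟨rfl, rfl⟩ | ⟨rfl, rfl⟩ | ⟨rfl, rfl⟩ | ⟨rfl, rfl⟩ | ⟨rfl, rfl⟩ | ⟨rfl, rfl⟩ |
      ⟨rfl, rfl⟩ | ⟨rfl, rfl⟩ | ⟨rfl, rfl⟩ | ⟨rfl, rfl⟩ | ⟨rfl, rfl⟩ | ⟨rfl, rfl⟩ <;> rfl

theorem not_wall_of {k : ℤ} (hk : ¬ (3 : ℤ) ∣ k) {y1 y2 : ℤ} (h : Nf y1 y2 = k) : ¬ Wall y1 y2 := by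
  rintro (h1 | h1 | h1)
  · apply hk; rw [← h]
    have : y1 = y2 := by linarith
    subst this; exact ⟨y1 ^ 2, by unfold Nf; ring⟩
  · apply hk; rw [← h]
    have : y1 = -2 * y2 := by linarith
    subst this; exact ⟨y2 ^ 2, by unfold Nf; ring⟩
  · apply hk; rw [← h]
    have : y2 = -2 * y1 := by linarith
    subst this; exact ⟨y1 ^ 2, by unfold Nf; ring⟩

theorem mt_of {k : ℤ} (hk : ¬ Even k) {y1 y2 : ℤ} (h : Nf y1 y2 = k) : MT y1 y2 := by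
  rintro ⟨⟨a, rfl⟩, ⟨b, rfl⟩⟩
  apply hk; rw [← h]
  exact ⟨2 * (a ^ 2 + a * b + b ^ 2), by unfold Nf; ring⟩

theorem flag_iff {q : ℕ} {k : ℕ} (h3 : ¬ (3 : ℤ) ∣ k) (h2 : ¬ Even (k : ℤ))
    (h16 : 16 * (k : ℤ) < (q : ℤ) ^ 2) (v1 v2 : ℤ) :
    SL q v1 v2 k = 0 ↔ ∀ y1 y2, Nf y1 y2 = k → ¬ inLat q v1 v2 y1 y2 := by
  classical
  have hneg : ∀ y ∈ (boxN k).filter (fun y => inLat q v1 v2 y.1 y.2 ∧ Regu q y.1 y.2),
      Bt q y.1 y.2 < 0 := by
    intro y hy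
    have hN : Nf y.1 y.2 = k := (Finset.mem_filter.1 (Finset.mem_filter.1 hy).1).2
    exact Bt_neg (mt_of h2 hN) (by rw [hN]; exact h16) (not_wall_of h3 hN)
  constructor
  · intro h y1 y2 hN hL
    have hk1 : (1 : ℤ) ≤ k := by
      rcases Nat.eq_zero_or_pos k with h0 | h0
      · subst h0; exact absurd (dvd_zero _) h3
      · exact_mod_cast h0
    have hb : (y1, y2) ∈ (boxN k).filter (fun y => inLat q v1 v2 y.1 y.2 ∧ Regu q y.1 y.2) := by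
      refine Finset.mem_filter.2 ⟨Finset.mem_filter.2 ⟨Finset.mem_product.2
        ⟨Finset.mem_Icc.2 ⟨?_, ?_⟩, Finset.mem_Icc.2 ⟨?_, ?_⟩⟩, hN⟩, hL,
        (regu_iff (by rw [hN]; exact h16)).2 (not_wall_of h3 hN)⟩
      all_goals
        unfold Nf at hN
        simp only
        nlinarith [sq_nonneg (2 * y2 + y1), sq_nonneg (2 * y1 + y2)]
    have h4 : SL q v1 v2 k < 0 := by
      unfold SL
      exact Finset.sum_neg (fun y hy => hneg y (by convert hy)) ⟨(y1, y2), by convert hb⟩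
    linarith
  · intro h
    unfold SL
    refine Finset.sum_eq_zero fun y hy => ?_
    have hN : Nf y.1 y.2 = k := (Finset.mem_filter.1 (Finset.mem_filter.1 hy).1).2
    exact absurd (Finset.mem_filter.1 hy).2.1 (h _ _ hN)

/-! ### The finite check -/

/-- the coordinates of `pm i 1 b` -/
def p1 (i : ℕ) (b : ℤ) : ℤ :=
  match i with
  | 0 => 1 | 1 => b | 2 => 1 | 3 => -1 - b | 4 => b | _ => -1 - b

def p2 (i : ℕ) (b : ℤ) : ℤ :=
  match i with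
  | 0 => b | 1 => 1 | 2 => -1 - b | 3 => 1 | 4 => -1 - b | _ => b

def dv (q x : ℤ) : Bool := x % q == 0

def wallB (e : ℤ) (b : ℤ) : Bool := dv e (1 - b) || dv e (1 + 2 * b) || dv e (2 + b)

def flB (L : List (ℤ × ℤ)) (q b : ℤ) : Bool := L.any fun y => dv q (y.2 - b * y.1)

def equivB (q b c : ℕ) : Bool := (List.range q).any fun u => (List.range 6).any fun i =>
  dv q (1 - u * p1 i b) && dv q (c - u * p2 i b)

/-- the hypotheses -/
def hypB (q b c : ℕ) : Bool := Nat.gcd b q == 1 && Nat.gcd (b + 1) q == 1 &&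
  Nat.gcd c q == 1 && Nat.gcd (c + 1) q == 1 &&
  ((List.range (q + 1)).all fun e => !(q % e == 0 && !(3 % e == 0)) || (wallB e b == wallB e c)) &&
  (q < 11 || (flB L7 q b == flB L7 q c)) && (q < 15 || (flB L13 q b == flB L13 q c))

def checkB (q : ℕ) : Bool := (List.range q).all fun b => (List.range q).all fun c =>
  !hypB q b c || equivB q b c

set_option maxRecDepth 100000 in
theorem check_all : ((List.range 14).all fun m => checkB (2 * m + 1)) = true := by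
  decide +kernel

theorem dv_iff {q x : ℤ} : dv q x = true ↔ q ∣ x := by
  unfold dv; rw [beq_iff_eq]; exact Int.dvd_iff_emod_eq_zero.symm

theorem pm_one (i : Fin 6) (b : ℤ) : pm i 1 b = (p1 i b, p2 i b) := by
  fin_cases i <;> simp [pm, p1, p2]

theorem equivB_spec {q b c : ℕ} (h : equivB q b c = true) : ∃ u : ℤ, ∃ i : Fin 6,
    (q : ℤ) ∣ 1 - u * (pm i 1 b).1 ∧ (q : ℤ) ∣ c - u * (pm i 1 b).2 := by
  unfold equivB at h
  rw [List.any_eq_true] at h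
  obtain ⟨u, -, h⟩ := h
  rw [List.any_eq_true] at h
  obtain ⟨i, hi, h⟩ := h
  rw [List.mem_range] at hi
  rw [Bool.and_eq_true, dv_iff, dv_iff] at h
  exact ⟨u, ⟨i, hi⟩, by rw [pm_one]; exact h.1, by rw [pm_one]; exact h.2⟩

/-- normalisation of an admissible vector -/
structure Nrm (q : ℕ) (v1 v2 : ℤ) (u : ℤ) (b : ℕ) : Prop where
  lt : b < q
  hu : (q : ℤ) ∣ u * v1 - 1
  hb : (q : ℤ) ∣ u * v2 - b

theorem exists_nrm {q : ℕ} {v1 v2 : ℤ} (hA : Adm q v1 v2) : ∃ u b, Nrm q v1 v2 u b := by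
  obtain ⟨u, t, h⟩ := hA.c1
  have hq : (0 : ℤ) < q := by exact_mod_cast hA.pos
  have h0 : 0 ≤ (u * v2) % q := Int.emod_nonneg _ hq.ne'
  have h1 : (u * v2) % q < q := Int.emod_lt_of_pos _ hq
  have h2 : (((u * v2) % q).toNat : ℤ) = (u * v2) % q := Int.toNat_of_nonneg h0
  refine ⟨u, ((u * v2) % q).toNat, by omega, ⟨-t, by linarith⟩, ?_⟩
  rw [h2]
  exact Int.dvd_self_sub_emod

variable {q : ℕ} {v1 v2 u : ℤ} {b : ℕ}

/-- `q ∣ v2 - v1 b` -/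
theorem Nrm.snd_dvd (h : Nrm q v1 v2 u b) : (q : ℤ) ∣ v2 - v1 * b := by
  obtain ⟨s, hs⟩ := h.hu
  obtain ⟨t, ht⟩ := h.hb
  exact ⟨-s * v2 + t * v1, by linear_combination (-v2) * hs + v1 * ht⟩

theorem Nrm.copr (h : Nrm q v1 v2 u b) {e : ℤ} (he : e ∣ q) : IsCoprime e v1 := by
  obtain ⟨s, hs⟩ := h.hu
  obtain ⟨t, ht⟩ := he
  exact ⟨-(t * s), u, by linear_combination hs + s * ht⟩

/-- linear forms -/
theorem Nrm.form (h : Nrm q v1 v2 u b) {e : ℤ} (he : e ∣ q) (x y : ℤ) :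
    e ∣ x * v1 + y * v2 ↔ e ∣ x + y * b := by
  have h1 : e ∣ v2 - v1 * b := he.trans h.snd_dvd
  have e1 : x * v1 + y * v2 = v1 * (x + y * b) + y * (v2 - v1 * b) := by ring
  rw [e1]
  constructor
  · intro h2
    exact (h.copr he).dvd_of_dvd_mul_left ((Int.dvd_add_left (Dvd.dvd.mul_left h1 y)).1 h2)
  · intro h2
    exact dvd_add (Dvd.dvd.mul_left h2 v1) (Dvd.dvd.mul_left h1 y)

theorem Nrm.inLat_iff (h : Nrm q v1 v2 u b) (y1 y2 : ℤ) :
    inLat q v1 v2 y1 y2 ↔ (q : ℤ) ∣ y2 - b * y1 := by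
  unfold inLat
  have e1 : v1 * y2 - v2 * y1 = y2 * v1 + (-y1) * v2 := by ring
  have e2 : y2 - b * y1 = y2 + -y1 * b := by ring
  rw [e1, h.form dvd_rfl, e2]

theorem Nrm.wallB_iff (h : Nrm q v1 v2 u b) {e : ℤ} (he : e ∣ q) :
    wallB e b = true ↔ (e ∣ v1 - v2 ∨ e ∣ v1 + 2 * v2 ∨ e ∣ 2 * v1 + v2) := by
  unfold wallB
  rw [Bool.or_eq_true, Bool.or_eq_true, dv_iff, dv_iff, dv_iff]
  have e1 : v1 - v2 = 1 * v1 + (-1) * v2 := by ring
  have e2 : v1 + 2 * v2 = 1 * v1 + 2 * v2 := by ring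
  have e3 : 2 * v1 + v2 = 2 * v1 + 1 * v2 := by ring
  rw [e1, e2, e3, h.form he, h.form he, h.form he, or_assoc]
  have f1 : (1 : ℤ) + -1 * b = 1 - b := by ring
  have f3 : (2 : ℤ) + 1 * b = 2 + b := by ring
  rw [f1, f3]

theorem Nrm.gcd1 (h : Nrm q v1 v2 u b) (hA : Adm q v1 v2) : Nat.gcd b q = 1 := by
  have h1 : IsCoprime (b : ℤ) (q : ℤ) := by
    obtain ⟨s, t, hst⟩ := hA.c2
    obtain ⟨m, hm⟩ := h.snd_dvd
    exact ⟨s * v1, t + s * m, by linear_combination hst - s * hm⟩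
  exact Nat.isCoprime_iff_coprime.1 h1

theorem Nrm.gcd2 (h : Nrm q v1 v2 u b) (hA : Adm q v1 v2) : Nat.gcd (b + 1) q = 1 := by
  have h1 : IsCoprime ((b + 1 : ℕ) : ℤ) (q : ℤ) := by
    obtain ⟨s, t, hst⟩ := hA.c3
    obtain ⟨m, hm⟩ := h.snd_dvd
    exact ⟨s * v1, t + s * m, by push_cast; linear_combination hst - s * hm⟩
  exact Nat.isCoprime_iff_coprime.1 h1

theorem Nrm.flB_iff (h : Nrm q v1 v2 u b) {L : List (ℤ × ℤ)} {k : ℕ}
    (hL : ∀ y1 y2 : ℤ, Nf y1 y2 = k ↔ (y1, y2) ∈ L) (h3 : ¬ (3 : ℤ) ∣ k) (h2 : ¬ Even (k : ℤ))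
    (h16 : 16 * (k : ℤ) < (q : ℤ) ^ 2) : flB L q b = true ↔ ¬ SL q v1 v2 k = 0 := by
  rw [flag_iff h3 h2 h16]
  unfold flB
  rw [List.any_eq_true]
  push Not
  constructor
  · rintro ⟨⟨y1, y2⟩, hy, h4⟩
    rw [dv_iff] at h4
    exact ⟨y1, y2, (hL _ _).2 hy, (h.inLat_iff y1 y2).2 h4⟩
  · rintro ⟨y1, y2, hy, h4⟩
    exact ⟨(y1, y2), (hL _ _).1 hy, by rw [dv_iff]; exact (h.inLat_iff y1 y2).1 h4⟩

theorem pm_lin (i : Fin 6) (s a b : ℤ) : pm i (s * a) (s * b) = (s * (pm i a b).1, s * (pm i a b).2) := by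
  fin_cases i <;> simp [pm] <;> ring

theorem pm_congr (i : Fin 6) {m a b a' b' : ℤ} (h1 : m ∣ a - a') (h2 : m ∣ b - b') :
    m ∣ (pm i a b).1 - (pm i a' b').1 ∧ m ∣ (pm i a b).2 - (pm i a' b').2 := by
  obtain ⟨s, hs⟩ := h1
  obtain ⟨t, ht⟩ := h2
  have e1 : a = a' + m * s := by linarith
  have e2 : b = b' + m * t := by linarith
  subst e1 e2
  fin_cases i
  · exact ⟨⟨s, by simp [pm]⟩, ⟨t, by simp [pm]⟩⟩
  · exact ⟨⟨t, by simp [pm]⟩, ⟨s, by simp [pm]⟩⟩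
  · exact ⟨⟨s, by simp [pm]⟩, ⟨-s - t, by simp [pm]; ring⟩⟩
  · exact ⟨⟨-s - t, by simp [pm]; ring⟩, ⟨s, by simp [pm]⟩⟩
  · exact ⟨⟨t, by simp [pm]⟩, ⟨-s - t, by simp [pm]; ring⟩⟩
  · exact ⟨⟨-s - t, by simp [pm]; ring⟩, ⟨t, by simp [pm]⟩⟩

end Small

open Small in
theorem lat_small {q : ℕ} (hq : q < 29) {v1 v2 w1 w2 : ℤ} (hA : Adm q v1 v2) (hA' : Adm q w1 w2)
    (hS : SameWalls q v1 v2 w1 w2) (hSL : ∀ k, SL q v1 v2 k = SL q w1 w2 k) :
    Equiv3 q v1 v2 w1 w2 := by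
  obtain ⟨u, b, hb⟩ := exists_nrm hA
  obtain ⟨u', c, hc⟩ := exists_nrm hA'
  have hq16 : ∀ k m : ℕ, 16 * k < m ^ 2 → m ≤ q → 16 * (k : ℤ) < (q : ℤ) ^ 2 := by
    intro k m h1 h2
    have h3 : m ^ 2 ≤ q ^ 2 := Nat.pow_le_pow_left h2 2
    exact_mod_cast h1.trans_le h3
  have hyp : hypB q b c = true := by
    unfold hypB
    simp only [Bool.and_eq_true, Bool.or_eq_true, List.all_eq_true, beq_iff_eq, decide_eq_true_eq]
    refine ⟨⟨⟨⟨⟨⟨hb.gcd1 hA, hb.gcd2 hA⟩, hc.gcd1 hA'⟩, hc.gcd2 hA'⟩, ?_⟩, ?_⟩, ?_⟩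
    · intro e he
      by_cases h1 : (q % e == 0 && !(3 % e == 0)) = true
      · right
        rw [Bool.and_eq_true, Bool.not_eq_true', beq_iff_eq, beq_eq_false_iff_ne] at h1
        have h2 : e ∣ q := Nat.dvd_of_mod_eq_zero h1.1
        have h3 : ¬ e ∣ 3 := fun h => h1.2 (Nat.mod_eq_zero_of_dvd h)
        have h4 : (e : ℤ) ∣ q := by exact_mod_cast h2
        rw [Bool.eq_iff_iff, hb.wallB_iff h4, hc.wallB_iff h4]
        exact hS e h2 h3
      · left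
        rw [Bool.not_eq_true] at h1
        rw [h1]; rfl
    · rcases lt_or_ge q 11 with h | h
      · exact Or.inl h
      · right
        have h16 := hq16 7 11 (by norm_num) h
        rw [Bool.eq_iff_iff, hb.flB_iff (k := 7) (fun _ _ => mem_L7) (by norm_num) (by decide) h16,
          hc.flB_iff (k := 7) (fun _ _ => mem_L7) (by norm_num) (by decide) h16, hSL]
    · rcases lt_or_ge q 15 with h | h
      · exact Or.inl h
      · right
        have h16 := hq16 13 15 (by norm_num) h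
        rw [Bool.eq_iff_iff, hb.flB_iff (k := 13) (fun _ _ => mem_L13) (by norm_num) (by decide) h16,
          hc.flB_iff (k := 13) (fun _ _ => mem_L13) (by norm_num) (by decide) h16, hSL]
  have hcheck : checkB q = true := by
    have h1 := check_all
    rw [List.all_eq_true] at h1
    obtain ⟨m, hm⟩ := hA.odd
    rw [hm]
    exact h1 m (List.mem_range.2 (by omega))
  have heq : equivB q b c = true := by
    unfold checkB at hcheck
    rw [List.all_eq_true] at hcheck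
    have h1 := hcheck b (List.mem_range.2 hb.lt)
    rw [List.all_eq_true] at h1
    have h2 := h1 c (List.mem_range.2 hc.lt)
    rw [hyp] at h2
    simpa using h2
  obtain ⟨s, i, h1, h2⟩ := equivB_spec heq
  -- `pm i (1, b) ≡ u pm i v`
  have h3 := pm_congr i (m := q) (a := u * v1) (b := u * v2) (a' := 1) (b' := b) hb.hu hb.hb
  rw [pm_lin] at h3
  refine ⟨w1 * s * u, i, ?_, ?_⟩
  · -- w1 - w1 s u pm₁ = w1 (1 - s pm₁(1,b)) - w1 s (u pm₁ - pm₁(1,b))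
    have e : w1 - w1 * s * u * (pm i v1 v2).1 = w1 * (1 - s * (pm i 1 b).1) -
        w1 * s * (u * (pm i v1 v2).1 - (pm i 1 b).1) := by ring
    rw [e]
    exact dvd_sub (Dvd.dvd.mul_left h1 _) (Dvd.dvd.mul_left h3.1 _)
  · have e : w2 - w1 * s * u * (pm i v1 v2).2 = (w2 - w1 * c) + w1 * (c - s * (pm i 1 b).2) -
        w1 * s * (u * (pm i v1 v2).2 - (pm i 1 b).2) := by ring
    rw [e]
    exact dvd_sub (dvd_add hc.snd_dvd (Dvd.dvd.mul_left h2 _)) (Dvd.dvd.mul_left h3.2 _)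

end Pool.Agent.Iso79
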