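import Pool.Agent.Iso79.ThetaB

/-!
# Extraction of the coefficients

`mean_value`: an absolutely convergent almost periodic series which tends to `0` at infinity has
vanishing (grouped) coefficients.  Proof: `(1/U) ∫_0^U P(u) e^{-iuω} du → ∑_{ω_i = ω} C_i` by dominated
convergence (the mean of `e^{iuδ}` is `1` for `δ = 0` and tends to `0` otherwise), and it also tends to
`0` because `P(u) → 0`.

`an_main`: `τ ∑_i c_i Ath Bth = ∑_i c_i (cA PA + o(1)) (cB PB + o(1))`, `PA`, `PB` are bounded in `u`,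
so `∑_i c_i PA(η_i, u) PB(a_i, u) → 0` as `u → ∞`; expand the product of the two absolutely
convergent series and apply `mean_value` to the index set `ι × ℤ × ℤ`; divide by
`e^{-ω}` (all the coefficients with frequency `ω` contain the factor `e^{-ω}`).
-/

open Complex Filter Topology

noncomputable section

namespace Pool.Agent.Iso79

theorem cesaro_exp (θ : ℝ) (hθ : exp (I * θ) ≠ 1) :
    Tendsto (fun N : ℕ => ((N : ℝ)⁻¹) • ∑ n ∈ Finset.range N, exp (I * (n * θ))) atTop (𝓝 0) := by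
  have h1 : ∀ N : ℕ, ∑ n ∈ Finset.range N, exp (I * (n * θ)) =
      ((exp (I * θ)) ^ N - 1) / (exp (I * θ) - 1) := by
    intro N
    rw [← geom_sum_eq hθ]
    refine Finset.sum_congr rfl fun n _ => ?_
    rw [← Complex.exp_nat_mul]
    congr 1
    ring
  have hn : ∀ N : ℕ, ‖exp (I * θ) ^ N‖ = 1 := by
    intro N
    rw [norm_pow, mul_comm, Complex.norm_exp_ofReal_mul_I, one_pow]
  rw [tendsto_zero_iff_norm_tendsto_zero]
  have h2 : Tendsto (fun N : ℕ => ((N : ℝ)⁻¹) * (2 / ‖exp (I * θ) - 1‖)) atTop (𝓝 0) := by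
    have h3 := (tendsto_inv_atTop_nhds_zero_nat (𝕜 := ℝ)).mul_const (2 / ‖exp (I * θ) - 1‖)
    rwa [zero_mul] at h3
  refine squeeze_zero (fun N => norm_nonneg _) (fun N => ?_) h2
  rw [norm_smul, h1, norm_div, Real.norm_of_nonneg (by positivity)]
  refine mul_le_mul_of_nonneg_left ?_ (by positivity)
  refine div_le_div_of_nonneg_right ?_ (norm_nonneg _)
  refine (norm_sub_le _ _).trans ?_
  rw [hn, norm_one]
  norm_num

theorem exp_ne_one_of_small {θ : ℝ} (h0 : θ ≠ 0) (h1 : |θ| ≤ 1) : exp (I * θ) ≠ 1 := by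
  intro h
  rw [Complex.exp_eq_one_iff] at h
  obtain ⟨n, hn⟩ := h
  have h2 : (θ : ℂ) = ((n * (2 * Real.pi) : ℝ) : ℂ) := by
    have h3 : I * (θ : ℂ) = I * ((n * (2 * Real.pi) : ℝ) : ℂ) := by
      rw [hn]; push_cast; ring
    exact mul_left_cancel₀ I_ne_zero h3
  have h3 : θ = n * (2 * Real.pi) := by exact_mod_cast h2
  have hn0 : n ≠ 0 := by
    rintro rfl
    apply h0
    rw [h3]; simp
  have h4 : (1 : ℝ) ≤ |(n : ℝ)| := by
    have := Int.one_le_abs hn0
    exact_mod_cast this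
  rw [h3, abs_mul, abs_of_pos (show (0 : ℝ) < 2 * Real.pi by positivity)] at h1
  have h5 := Real.pi_gt_three
  nlinarith

theorem mean_value {κ : Type*} (C : κ → ℂ) (w : κ → ℝ) (hC : Summable fun i => ‖C i‖)
    (h : Tendsto (fun u : ℝ => ∑' i, C i * exp (I * (u * w i))) atTop (𝓝 0)) (ω : ℝ) :
    ∑' i, (if w i = ω then C i else 0) = 0 := by
  classical
  have hbound : ∀ (f : κ → ℂ) (s : Finset κ), (∀ i, ‖f i‖ ≤ ‖C i‖) →
      ‖(∑' i, f i) - ∑ i ∈ s, f i‖ ≤ ∑' i : {x // x ∉ s}, ‖C i‖ := by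
    intro f s hf
    have hfs : Summable f := Summable.of_norm_bounded hC hf
    rw [← hfs.sum_add_tsum_subtype_compl s, add_sub_cancel_left]
    exact tsum_of_norm_bounded (hC.subtype _).hasSum fun i => hf i
  have hnorm : ∀ x : ℝ, ‖exp (I * x)‖ = 1 := fun x => by
    rw [mul_comm, Complex.norm_exp_ofReal_mul_I]
  refine norm_le_zero_iff.1 (le_of_forall_pos_le_add fun ε hε => ?_)
  obtain ⟨s, hs⟩ := ((tendsto_order.1 (tendsto_tsum_compl_atTop_zero fun i => ‖C i‖)).2 (ε / 2)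
    (by positivity)).exists
  set e' : ℝ := ∑' i : {x // x ∉ s}, ‖C i‖ with he'
  -- the finite part is small
  obtain ⟨δ, hδ, hδ'⟩ : ∃ δ : ℝ, 0 < δ ∧ ∀ i ∈ s, w i ≠ ω →
      exp (I * ((δ * (w i - ω) : ℝ) : ℂ)) ≠ 1 := by
    have hpos : 0 < 1 + ∑ i ∈ s, |w i - ω| :=
      add_pos_of_pos_of_nonneg one_pos (Finset.sum_nonneg fun i _ => abs_nonneg _)
    refine ⟨(1 + ∑ i ∈ s, |w i - ω|)⁻¹, inv_pos.2 hpos, fun i hi hne => ?_⟩
    refine exp_ne_one_of_small (mul_ne_zero (inv_ne_zero hpos.ne') (sub_ne_zero.2 hne)) ?_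
    rw [abs_mul, abs_of_pos (inv_pos.2 hpos), inv_mul_le_iff₀ hpos, mul_one]
    have h1 : |w i - ω| ≤ ∑ i ∈ s, |w i - ω| :=
      Finset.single_le_sum (f := fun i => |w i - ω|) (fun i _ => abs_nonneg _) hi
    linarith
  have hseq : Tendsto (fun n : ℕ => (∑' i, C i * exp (I * (((n * δ : ℝ) : ℂ) * w i))) *
      exp (I * ((-(n * δ * ω) : ℝ) : ℂ))) atTop (𝓝 0) := by
    have h1 : Tendsto (fun n : ℕ => (n : ℝ) * δ) atTop atTop :=
      tendsto_natCast_atTop_atTop.atTop_mul_const hδ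
    have h2 := h.comp h1
    rw [tendsto_zero_iff_norm_tendsto_zero] at h2 ⊢
    refine h2.congr fun n => ?_
    rw [norm_mul, hnorm, mul_one]
    rfl
  have hb := hseq.cesaro_smul
  have hg : Tendsto (fun N : ℕ => ((N : ℝ)⁻¹) • ∑ n ∈ Finset.range N, ∑ i ∈ s,
      C i * exp (I * (n * ((δ * (w i - ω) : ℝ) : ℂ)))) atTop
      (𝓝 (∑ i ∈ s, if w i = ω then C i else 0)) := by
    have h1 : ∀ i ∈ s, Tendsto (fun N : ℕ => C i * (((N : ℝ)⁻¹) • ∑ n ∈ Finset.range N,
        exp (I * (n * ((δ * (w i - ω) : ℝ) : ℂ))))) atTop (𝓝 (if w i = ω then C i else 0)) := by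
      intro i hi
      by_cases hwi : w i = ω
      · rw [if_pos hwi]
        refine tendsto_const_nhds.congr' ?_
        filter_upwards [eventually_gt_atTop 0] with N hN
        rw [hwi]
        simp only [sub_self, mul_zero, Complex.ofReal_zero, Complex.exp_zero, Finset.sum_const,
          Finset.card_range, nsmul_eq_mul, mul_one]
        rw [Complex.real_smul]
        push_cast
        rw [inv_mul_cancel₀ (by exact_mod_cast hN.ne'), mul_one]
      · rw [if_neg hwi]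
        have h2 := (cesaro_exp _ (hδ' i hi hwi)).const_mul (C i)
        rwa [mul_zero] at h2
    refine (tendsto_finsetSum s h1).congr fun N => ?_
    rw [Finset.sum_comm, Finset.smul_sum]
    refine Finset.sum_congr rfl fun i _ => ?_
    rw [mul_smul_comm, Finset.mul_sum]
  have hdiff : ∀ N : ℕ, ‖((N : ℝ)⁻¹) • ∑ n ∈ Finset.range N, ∑ i ∈ s,
      C i * exp (I * (n * ((δ * (w i - ω) : ℝ) : ℂ))) -
      ((N : ℝ)⁻¹) • ∑ n ∈ Finset.range N, (∑' i, C i * exp (I * (((n * δ : ℝ) : ℂ) * w i))) *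
      exp (I * ((-(n * δ * ω) : ℝ) : ℂ))‖ ≤ e' := by
    intro N
    have he0 : 0 ≤ e' := tsum_nonneg fun i => norm_nonneg _
    rw [← smul_sub, ← Finset.sum_sub_distrib, norm_smul, Real.norm_of_nonneg (by positivity)]
    have h1 : ‖∑ n ∈ Finset.range N, ((∑ i ∈ s,
        C i * exp (I * (n * ((δ * (w i - ω) : ℝ) : ℂ)))) -
        (∑' i, C i * exp (I * (((n * δ : ℝ) : ℂ) * w i))) *
          exp (I * ((-(n * δ * ω) : ℝ) : ℂ)))‖ ≤ N * e' := by
      refine (norm_sum_le _ _).trans ?_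
      have h2 : ∀ n ∈ Finset.range N, ‖(∑ i ∈ s,
          C i * exp (I * (n * ((δ * (w i - ω) : ℝ) : ℂ)))) -
          (∑' i, C i * exp (I * (((n * δ : ℝ) : ℂ) * w i))) *
            exp (I * ((-(n * δ * ω) : ℝ) : ℂ))‖ ≤ e' := by
        intro n _
        have h3 : (∑ i ∈ s, C i * exp (I * (n * ((δ * (w i - ω) : ℝ) : ℂ)))) =
            (∑ i ∈ s, C i * exp (I * (((n * δ : ℝ) : ℂ) * w i))) *
              exp (I * ((-(n * δ * ω) : ℝ) : ℂ)) := by
          rw [Finset.sum_mul]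
          refine Finset.sum_congr rfl fun i _ => ?_
          rw [mul_assoc, ← Complex.exp_add]
          congr 2
          push_cast
          ring
        rw [h3, ← sub_mul, norm_mul, hnorm, mul_one, norm_sub_rev]
        refine hbound _ s fun i => ?_
        rw [norm_mul, ← Complex.ofReal_mul, hnorm, mul_one]
      refine (Finset.sum_le_sum h2).trans ?_
      rw [Finset.sum_const, Finset.card_range, nsmul_eq_mul]
    by_cases hN : N = 0
    · subst hN
      simpa using he0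
    · have hN' : (0 : ℝ) < N := by exact_mod_cast Nat.pos_of_ne_zero hN
      rw [inv_mul_le_iff₀ hN']
      exact h1
  have hlim : ‖(∑ i ∈ s, if w i = ω then C i else 0) - 0‖ ≤ e' :=
    le_of_tendsto (hg.sub hb).norm (Eventually.of_forall hdiff)
  rw [sub_zero] at hlim
  have hT := hbound (fun i => if w i = ω then C i else 0) s fun i => by
    split_ifs
    · exact le_rfl
    · rw [norm_zero]; exact norm_nonneg _
  calc ‖∑' i, (if w i = ω then C i else 0)‖ = ‖((∑' i, (if w i = ω then C i else 0)) -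
        ∑ i ∈ s, if w i = ω then C i else 0) + ∑ i ∈ s, if w i = ω then C i else 0‖ := by
        rw [sub_add_cancel]
    _ ≤ e' + e' := (norm_add_le _ _).trans (add_le_add hT hlim)
    _ ≤ 0 + ε := by linarith

/-- the frequency of `(l, l')` -/
def freq (η a : ℝ) (p : ℤ × ℤ) : ℝ :=
  (η - 2 * Real.pi * p.1) ^ 2 / 4 + (a - Real.pi * p.2) ^ 2 / 3

/-- the terms of the product of the limit functions -/
def ptm (η a : ℝ) (p : ℤ × ℤ) : ℂ :=
  (-1 : ℂ) ^ (p.1 + p.2) * (SignType.sign (a - Real.pi * p.2) : ℂ) *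
    ((Real.exp (-freq η a p) : ℝ) : ℂ)

theorem norm_sign_le (x : ℝ) : ‖((SignType.sign x : SignType) : ℂ)‖ ≤ 1 := by
  rcases lt_trichotomy x 0 with h | h | h
  · rw [sign_neg h]; simp
  · rw [h]; simp
  · rw [sign_pos h]; simp

theorem summable_PA (η u : ℝ) : Summable fun l : ℤ =>
    ‖(-1 : ℂ) ^ l * exp (((η - 2 * Real.pi * l) ^ 2 / 4 : ℝ) * (-1 + I * u))‖ := by
  refine Summable.of_nonneg_of_le (fun l => norm_nonneg _) (fun l => ?_) (summable_kap η)
  have h1 : ‖(-1 : ℂ) ^ l * exp (((η - 2 * Real.pi * l) ^ 2 / 4 : ℝ) * (-1 + I * u))‖ =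
      Real.exp (-kap η l) := by
    rw [norm_mul, norm_neg_one_zpow', one_mul]
    exact norm_exp_lim (kap η l) u
  rw [h1]
  exact Real.exp_le_exp.2 (by linarith [kap_nonneg η l])

theorem summable_bet (a : ℝ) : Summable fun l : ℤ => Real.exp (-((a - Real.pi * l) ^ 2 / 3)) := by
  have h0 : 0 < ((Real.pi : ℂ) ^ 2 / 3).re := by
    rw [← Complex.ofReal_pow, show ((Real.pi ^ 2 : ℝ) : ℂ) / 3 = ((Real.pi ^ 2 / 3 : ℝ) : ℂ) by
      push_cast; ring, Complex.ofReal_re]
    positivity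
  refine (summable_gauss ((Real.pi : ℂ) ^ 2 / 3) (2 * a * Real.pi / 3) (-(a : ℂ) ^ 2 / 3) h0).norm.congr
    fun l => ?_
  have h1 : -((Real.pi : ℂ) ^ 2 / 3) * (l : ℂ) ^ 2 + (2 * a * Real.pi / 3) * l +
      (-(a : ℂ) ^ 2 / 3) = ((-((a - Real.pi * l) ^ 2 / 3) : ℝ) : ℂ) := by
    push_cast
    ring
  rw [h1, ← Complex.ofReal_exp, Complex.norm_real, Real.norm_of_nonneg (Real.exp_pos _).le]

theorem norm_PB_term (a u : ℝ) (l : ℤ) : ‖(-1 : ℂ) ^ l *
    (SignType.sign (a - Real.pi * l) : ℂ) *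
      exp (((a - Real.pi * l) ^ 2 / 3 : ℝ) * (-1 + I * u))‖ ≤
      Real.exp (-((a - Real.pi * l) ^ 2 / 3)) := by
  rw [norm_mul, norm_mul, norm_neg_one_zpow', one_mul, norm_exp_lim]
  exact mul_le_of_le_one_left (Real.exp_pos _).le (norm_sign_le _)

theorem summable_PB (a u : ℝ) : Summable fun l : ℤ => ‖(-1 : ℂ) ^ l *
    (SignType.sign (a - Real.pi * l) : ℂ) *
      exp (((a - Real.pi * l) ^ 2 / 3 : ℝ) * (-1 + I * u))‖ :=
  Summable.of_nonneg_of_le (fun _ => norm_nonneg _) (norm_PB_term a u) (summable_bet a)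

theorem norm_PA_le (η u : ℝ) : ‖PA η u‖ ≤ ∑' l : ℤ, Real.exp (-kap η l / 2) := by
  refine tsum_of_norm_bounded (summable_kap η).hasSum fun l => ?_
  rw [norm_mul, norm_neg_one_zpow', one_mul]
  refine (norm_exp_lim (kap η l) u).le.trans ?_
  exact Real.exp_le_exp.2 (by linarith [kap_nonneg η l])

theorem norm_PB_le (a u : ℝ) : ‖PB a u‖ ≤ ∑' l : ℤ, Real.exp (-((a - Real.pi * l) ^ 2 / 3)) :=
  tsum_of_norm_bounded (summable_bet a).hasSum (norm_PB_term a u)

theorem PA_mul_PB (η a u : ℝ) : PA η u * PB a u =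
    ∑' p : ℤ × ℤ, ptm η a p * exp (I * (u * freq η a p)) := by
  rw [PA, PB, tsum_mul_tsum_of_summable_norm (summable_PA η u) (summable_PB a u)]
  refine tsum_congr fun p => ?_
  have h1 : exp (((η - 2 * Real.pi * p.1) ^ 2 / 4 : ℝ) * (-1 + I * u)) *
      exp (((a - Real.pi * p.2) ^ 2 / 3 : ℝ) * (-1 + I * u)) =
      ((Real.exp (-freq η a p) : ℝ) : ℂ) * exp (I * (u * freq η a p)) := by
    rw [Complex.ofReal_exp, ← Complex.exp_add, ← Complex.exp_add, freq]
    congr 1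
    push_cast
    ring
  rw [ptm, zpow_add₀ (by norm_num : (-1 : ℂ) ≠ 0)]
  calc (-1 : ℂ) ^ p.1 * exp (((η - 2 * Real.pi * p.1) ^ 2 / 4 : ℝ) * (-1 + I * u)) *
        ((-1) ^ p.2 * (SignType.sign (a - Real.pi * p.2) : ℂ) *
          exp (((a - Real.pi * p.2) ^ 2 / 3 : ℝ) * (-1 + I * u)))
      = (-1 : ℂ) ^ p.1 * (-1) ^ p.2 * (SignType.sign (a - Real.pi * p.2) : ℂ) *
        (exp (((η - 2 * Real.pi * p.1) ^ 2 / 4 : ℝ) * (-1 + I * u)) *
          exp (((a - Real.pi * p.2) ^ 2 / 3 : ℝ) * (-1 + I * u))) := by ring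
    _ = _ := by rw [h1]; ring

theorem summable_ptm (η a : ℝ) : Summable fun p : ℤ × ℤ => ‖ptm η a p‖ := by
  have h := (summable_PA η 0).mul_of_nonneg (summable_PB a 0) (fun _ => norm_nonneg _)
    (fun _ => norm_nonneg _)
  refine h.congr fun p => ?_
  rw [← norm_mul]
  have h1 : exp (((η - 2 * Real.pi * p.1) ^ 2 / 4 : ℝ) * (-1 + I * ((0 : ℝ) : ℂ))) *
      exp (((a - Real.pi * p.2) ^ 2 / 3 : ℝ) * (-1 + I * ((0 : ℝ) : ℂ))) =
      ((Real.exp (-freq η a p) : ℝ) : ℂ) := by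
    rw [Complex.ofReal_exp, ← Complex.exp_add, freq]
    congr 1
    push_cast
    ring
  congr 1
  rw [ptm, zpow_add₀ (by norm_num : (-1 : ℂ) ≠ 0), ← h1]
  ring

theorem an_main {ι : Type*} [Fintype ι] (c : ι → ℂ) (η a : ι → ℝ)
    (ha : ∀ i, ∀ k : ℤ, a i ≠ Real.pi * k)
    (h : ∀ t : ℂ, 0 < t.re → ∑ i, c i * (Ath (η i) t * Bth (a i) t) = 0) (ω : ℝ) :
    ∑ i, c i * ∑' p : ℤ × ℤ, (if freq (η i) (a i) p = ω then
      (-1 : ℂ) ^ (p.1 + p.2) * (SignType.sign (a i - Real.pi * p.2) : ℂ) else 0) = 0 := by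
  obtain ⟨cA, hcA, HA⟩ := Ath_asymp
  obtain ⟨cB, hcB, HB⟩ := Bth_asymp
  -- the product of the asymptotic expansions
  have hprod : ∀ i, Tendsto (fun τ : ℝ => c i * (((Real.sqrt τ : ℂ) * Ath (η i) (tt τ)) *
      ((Real.sqrt τ : ℂ) * Bth (a i) (tt τ))) -
      c i * ((cA * PA (η i) (1 / τ)) * (cB * PB (a i) (1 / τ)))) (𝓝[>] 0) (𝓝 0) := by
    intro i
    have hA := HA (η i)
    have hB := HB (a i) (ha i)
    have h1 : Tendsto (fun τ : ℝ => ((Real.sqrt τ : ℂ) * Ath (η i) (tt τ) -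
        cA * PA (η i) (1 / τ)) * (cB * PB (a i) (1 / τ))) (𝓝[>] 0) (𝓝 0) := by
      rw [tendsto_zero_iff_norm_tendsto_zero] at hA ⊢
      have h2 := hA.mul_const (‖cB‖ * ∑' l : ℤ, Real.exp (-((a i - Real.pi * l) ^ 2 / 3)))
      rw [zero_mul] at h2
      refine squeeze_zero (fun τ => norm_nonneg _) (fun τ => ?_) h2
      rw [norm_mul, norm_mul cB]
      exact mul_le_mul_of_nonneg_left (mul_le_mul_of_nonneg_left (norm_PB_le _ _) (norm_nonneg _))
        (norm_nonneg _)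
    have h2 : Tendsto (fun τ : ℝ => (cA * PA (η i) (1 / τ)) * ((Real.sqrt τ : ℂ) *
        Bth (a i) (tt τ) - cB * PB (a i) (1 / τ))) (𝓝[>] 0) (𝓝 0) := by
      have hB' := hB
      rw [tendsto_zero_iff_norm_tendsto_zero] at hB' ⊢
      have h3 := hB'.const_mul (‖cA‖ * ∑' l : ℤ, Real.exp (-kap (η i) l / 2))
      rw [mul_zero] at h3
      refine squeeze_zero (fun τ => norm_nonneg _) (fun τ => ?_) h3
      rw [norm_mul, norm_mul cA]
      exact mul_le_mul_of_nonneg_right (mul_le_mul_of_nonneg_left (norm_PA_le _ _) (norm_nonneg _))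
        (norm_nonneg _)
    have h3 := hA.mul hB
    have h4 := (((h1.add h2).add h3).const_mul (c i))
    simp only [mul_zero, add_zero] at h4
    refine h4.congr fun τ => ?_
    ring
  have hsum := tendsto_finsetSum Finset.univ fun i _ => hprod i
  simp only [Finset.sum_const_zero] at hsum
  have hlim : Tendsto (fun τ : ℝ => ∑ i, c i * (PA (η i) (1 / τ) * PB (a i) (1 / τ)))
      (𝓝[>] 0) (𝓝 0) := by
    have h1 := hsum.const_mul (-(cA * cB)⁻¹)
    rw [mul_zero] at h1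
    refine h1.congr' ?_
    filter_upwards [self_mem_nhdsWithin] with τ hτ
    have hre : 0 < (tt τ).re := by
      have h3 : (tt τ).re = τ ^ 2 := by
        rw [tt, ← Complex.ofReal_pow, Complex.add_re, Complex.ofReal_re, Complex.re_mul_ofReal,
          Complex.I_re, zero_mul, add_zero]
      rw [h3]
      exact pow_pos hτ 2
    have h2 : ∑ i, c i * (((Real.sqrt τ : ℂ) * Ath (η i) (tt τ)) *
        ((Real.sqrt τ : ℂ) * Bth (a i) (tt τ))) = 0 := by
      have h3 : ∀ i, c i * (((Real.sqrt τ : ℂ) * Ath (η i) (tt τ)) *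
          ((Real.sqrt τ : ℂ) * Bth (a i) (tt τ))) = ((Real.sqrt τ : ℂ) * (Real.sqrt τ : ℂ)) *
          (c i * (Ath (η i) (tt τ) * Bth (a i) (tt τ))) := fun i => by ring
      simp only [h3]
      rw [← Finset.mul_sum, h (tt τ) hre, mul_zero]
    rw [Finset.sum_sub_distrib, h2, zero_sub, neg_mul_neg, Finset.mul_sum]
    refine Finset.sum_congr rfl fun i _ => ?_
    have h5 : cA * cB ≠ 0 := mul_ne_zero hcA hcB
    field_simp
  have hu : Tendsto (fun u : ℝ => ∑ i, c i * (PA (η i) u * PB (a i) u)) atTop (𝓝 0) := by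
    have h1 := hlim.comp tendsto_inv_atTop_nhdsGT_zero
    refine h1.congr fun u => ?_
    simp only [Function.comp_apply, one_div, inv_inv]
  have hfin : ∀ i, Summable fun p : ℤ × ℤ => ‖c i * ptm (η i) (a i) p‖ := fun i => by
    refine ((summable_ptm (η i) (a i)).mul_left ‖c i‖).congr fun p => ?_
    rw [norm_mul]
  have hC : Summable fun q : ι × (ℤ × ℤ) => ‖c q.1 * ptm (η q.1) (a q.1) q.2‖ := by
    rw [summable_prod_of_nonneg (fun q => norm_nonneg _)]
    exact ⟨hfin, Summable.of_finite⟩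
  have hP : ∀ u : ℝ, ∑' q : ι × (ℤ × ℤ), (c q.1 * ptm (η q.1) (a q.1) q.2) *
      exp (I * (u * freq (η q.1) (a q.1) q.2)) = ∑ i, c i * (PA (η i) u * PB (a i) u) := by
    intro u
    have hs : Summable fun q : ι × (ℤ × ℤ) => (c q.1 * ptm (η q.1) (a q.1) q.2) *
        exp (I * (u * freq (η q.1) (a q.1) q.2)) := by
      refine Summable.of_norm_bounded hC fun q => ?_
      rw [norm_mul, ← Complex.ofReal_mul, mul_comm I, Complex.norm_exp_ofReal_mul_I, mul_one]
    rw [hs.tsum_prod, tsum_fintype]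
    refine Finset.sum_congr rfl fun i _ => ?_
    rw [PA_mul_PB, ← tsum_mul_left]
    exact tsum_congr fun p => mul_assoc _ _ _
  have hmv := mean_value (fun q : ι × (ℤ × ℤ) => c q.1 * ptm (η q.1) (a q.1) q.2)
    (fun q => freq (η q.1) (a q.1) q.2) hC (hu.congr fun u => (hP u).symm) ω
  have hs' : Summable fun q : ι × (ℤ × ℤ) => if freq (η q.1) (a q.1) q.2 = ω then
      c q.1 * ptm (η q.1) (a q.1) q.2 else 0 := by
    refine Summable.of_norm_bounded hC fun q => ?_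
    split_ifs
    · exact le_rfl
    · rw [norm_zero]; exact norm_nonneg _
  rw [hs'.tsum_prod, tsum_fintype] at hmv
  have hexp : ((Real.exp (-ω) : ℝ) : ℂ) ≠ 0 := by exact_mod_cast (Real.exp_pos _).ne'
  refine (mul_eq_zero.1 (?_ : ((Real.exp (-ω) : ℝ) : ℂ) * _ = 0)).resolve_left hexp
  rw [Finset.mul_sum]
  refine Eq.trans (Finset.sum_congr rfl fun i _ => ?_) hmv
  rw [← mul_assoc, ← tsum_mul_left]
  refine tsum_congr fun p => ?_
  dsimp only
  split_ifs with hf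
  · rw [ptm, hf]
    ring
  · rw [mul_zero]

end Pool.Agent.Iso79
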