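import Pool.Agent.Iso79.Fact
import Pool.Agent.Iso79.Mean
import Pool.Agent.Iso79.AltBasic

/-!
# From the regular part of the trace sums to the shell sums of the lattice

Proof of `SL_eq`.  Let `Reg = {j < q : ordj q v j = 0}`.  For `j ∈ Reg`, `Δ_j := alt 1 1 θ_j ≠ 0` and
`χ N θ_j = FF N θ_j / Δ_j`.  By `hasSum_FF`, for `Re t > 0`,
`∑_N Tpart χ q v 0 N e^{-tN} = ∑_{j ∈ Reg} (1/(2Δ_j)) ∑_{c=1,2,3} Ath(η_{j,c}) Bth(a_{j,c})` with
`(η, a) = (θ₃, (θ₁-θ₂)/2), (θ₁, (θ₂-θ₃)/2), (θ₂, (θ₃-θ₁)/2)`, `θ₃ = -θ₁-θ₂`; `a ∉ π ℤ` as `j` is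
regular.  Apply `an_main` to the difference of the systems for `v` and `w`.
For `ω = π² k/(3 q²)` the inner sum is over the `(l, l')` with `freq = ω`.  Given `(j, c, l, l')`, e.g.
`c = 1`: put `y = (y₁,y₂,y₃) = (2 j v₁ + q(l-l'), 2 j v₂ + q(l+l'), 2 j v₃ - 2 q l)`, so that
`θ₃ - 2πl = (π/q) y₃`, `(θ₁-θ₂)/2 - π l' = (π/2q)(y₁-y₂)` and
`freq = (π²/q²)(y₃²/4 + (y₁-y₂)²/12) = (π²/(3q²)) Nf y`; `y ∈ Λ` is regular, `y₃` is even.
Conversely a regular `y ∈ Λ` with `y₃` even comes from exactly one `(j, l, l')`, `j ∈ Reg`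
(`j` with `y ≡ 2 j v mod q`).  For `c = 2, 3` permute cyclically.
So the sum becomes `∑_{y ∈ Λ regular, Nf y = k} C_y`,
`C_y = ∑_{c : y_c even} (1/(2Δ_j)) (-1)^{l+l'} sign(y_a - y_b)` (`(a,b,c)` cyclic), and the claim is
`C_y = (i/16) Bt q y`:
* `Δ_j = -8 i ∏ sin(α(θ_j)/2)` (`alt_eq_prod`, roots `y₁-y₂`, `y₂-y₃`, `y₁-y₃`), and
  `α(θ_j)/2 = π α(y)/(2q) - π α(X)/2`, where `y = 2 j v + q X`, `X ≡ y mod 2`;
* all `y_c` even: `(-1)^{l+l'} = 1` for the three `c`, the three signs add up to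
  `sign(y₁-y₂)+sign(y₂-y₃)+sign(y₃-y₁) = sign(y₁-y₂) sign(y₂-y₃) sign(y₁-y₃)`, and
  `Δ_j = -8 i ∏ sin(π α(y)/2q)` (the sign is `(-1)^{(α₁₂+α₂₃+α₁₃)(X)/2} = (-1)^{α₁₃(X)} = 1`);
* only `y_c` even: `(-1)^{l+l'} = -1`, and `Δ_j = -8 i sin(πα/2q) cos(πβ/2q) cos(πγ/2q)` up to the
  orientation of the roots, with `α` the root `y_a - y_b` (even) and `β, γ` the two odd ones.
(Numerically checked.)
-/

open Complex

noncomputable section

namespace Pool.Agent.Iso79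

namespace TransAux


theorem dvd_iff_half {q : ℕ} (hq : Odd q) {a b : ℤ} (h : (q : ℤ) ∣ a - 2 * b) :
    (q : ℤ) ∣ a ↔ (q : ℤ) ∣ b := by
  have hc : IsCoprime (q : ℤ) 2 := by
    have h1 : Nat.Coprime q 2 := (Nat.coprime_two_right).2 hq
    exact_mod_cast Nat.isCoprime_iff_coprime.2 h1
  have h2 : (q : ℤ) ∣ 2 * b ↔ (q : ℤ) ∣ b :=
    ⟨fun h => hc.dvd_of_dvd_mul_left h, fun h => h.mul_left 2⟩
  rw [← h2]
  constructor
  · intro h3
    have := dvd_sub h3 h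
    rwa [show a - (a - 2 * b) = 2 * b by ring] at this
  · intro h3
    have := dvd_add h h3
    rwa [show a - 2 * b + 2 * b = a by ring] at this

end TransAux

open TransAux

/-- the constant of the pointwise comparison: contribution of a regular lattice vector -/
theorem regular_iff_ordj {q : ℕ} {v1 v2 : ℤ} (hA : Adm q v1 v2) {y1 y2 : ℤ} {j : ℕ}
    (h1 : (q : ℤ) ∣ y1 - 2 * j * v1) (h2 : (q : ℤ) ∣ y2 - 2 * j * v2) :
    Regu q y1 y2 ↔ ordj q v1 v2 j = 0 := by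
  have e1 : (q : ℤ) ∣ y1 - y2 ↔ (q : ℤ) ∣ j * (v1 - v2) := dvd_iff_half hA.odd (by
    have := dvd_sub h1 h2
    rwa [show y1 - 2 * j * v1 - (y2 - 2 * j * v2) = y1 - y2 - 2 * (j * (v1 - v2)) by ring] at this)
  have e2 : (q : ℤ) ∣ y1 + 2 * y2 ↔ (q : ℤ) ∣ j * (v1 + 2 * v2) := dvd_iff_half hA.odd (by
    have := dvd_add h1 (h2.mul_left 2)
    rwa [show y1 - 2 * j * v1 + 2 * (y2 - 2 * j * v2) = y1 + 2 * y2 - 2 * (j * (v1 + 2 * v2)) by
      ring] at this)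
  have e3 : (q : ℤ) ∣ 2 * y1 + y2 ↔ (q : ℤ) ∣ j * (2 * v1 + v2) := dvd_iff_half hA.odd (by
    have := dvd_add (h1.mul_left 2) h2
    rwa [show 2 * (y1 - 2 * j * v1) + (y2 - 2 * j * v2) = 2 * y1 + y2 - 2 * (j * (2 * v1 + v2)) by
      ring] at this)
  unfold Regu ordj
  rw [e1, e2, e3]
  by_cases c1 : (q : ℤ) ∣ j * (v1 - v2) <;> by_cases c2 : (q : ℤ) ∣ j * (v1 + 2 * v2) <;>
    by_cases c3 : (q : ℤ) ∣ j * (2 * v1 + v2) <;> simp [c1, c2, c3]

namespace TransAux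

theorem ordj_zero_iff {q : ℕ} {v1 v2 : ℤ} {j : ℕ} : ordj q v1 v2 j = 0 ↔
    ¬ (q : ℤ) ∣ j * (v1 - v2) ∧ ¬ (q : ℤ) ∣ j * (v1 + 2 * v2) ∧ ¬ (q : ℤ) ∣ j * (2 * v1 + v2) := by
  unfold ordj
  by_cases c1 : (q : ℤ) ∣ j * (v1 - v2) <;> by_cases c2 : (q : ℤ) ∣ j * (v1 + 2 * v2) <;>
    by_cases c3 : (q : ℤ) ∣ j * (2 * v1 + v2) <;> simp [c1, c2, c3]

theorem sin_pi_div_ne {q : ℕ} (hq : 0 < q) {d : ℤ} (h : ¬ (q : ℤ) ∣ d) :
    Real.sin (Real.pi * d / q) ≠ 0 := by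
  intro h0
  rw [Real.sin_eq_zero_iff] at h0
  obtain ⟨n, hn⟩ := h0
  apply h
  have hq' : (q : ℝ) ≠ 0 := by positivity
  refine ⟨n, ?_⟩
  have h1 : (n : ℝ) * q = d := by
    field_simp at hn
    nlinarith [Real.pi_pos, hn]
  have h2 : (n : ℤ) * q = d := by exact_mod_cast h1
  rw [← h2]; ring

/-- the product of the three sines at `θ_j` -/
def PP (q : ℕ) (v1 v2 : ℤ) (j : ℕ) : ℝ :=
  Real.sin (Real.pi * ((j * (v1 - v2) : ℤ) : ℝ) / q) *
    Real.sin (Real.pi * ((j * (v1 + 2 * v2) : ℤ) : ℝ) / q) *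
      Real.sin (Real.pi * ((j * (2 * v1 + v2) : ℤ) : ℝ) / q)

theorem alt_tj {q : ℕ} (hq : 0 < q) (v1 v2 : ℤ) (j : ℕ) :
    alt 1 1 (tj q v1 j) (tj q v2 j) = -8 * I * (PP q v1 v2 j : ℝ) := by
  have hq' : (q : ℝ) ≠ 0 := by positivity
  rw [alt_eq_prod, PP]
  congr 3
  · congr 2
    · unfold tj; push_cast; field_simp
    · unfold tj; push_cast; field_simp
  · unfold tj; push_cast; field_simp

theorem PP_ne {q : ℕ} (hq : 0 < q) {v1 v2 : ℤ} {j : ℕ} (h : ordj q v1 v2 j = 0) :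
    PP q v1 v2 j ≠ 0 := by
  rw [ordj_zero_iff] at h
  exact mul_ne_zero (mul_ne_zero (sin_pi_div_ne hq h.1) (sin_pi_div_ne hq h.2.1))
    (sin_pi_div_ne hq h.2.2)

theorem sin_shift_even (u : ℝ) (n : ℤ) :
    Real.sin (u - Real.pi * ((2 * n : ℤ) : ℝ) / 2) = (-1) ^ n * Real.sin u := by
  rw [show u - Real.pi * ((2 * n : ℤ) : ℝ) / 2 = u - n * Real.pi by push_cast; ring]
  exact Real.sin_sub_int_mul_pi u n

theorem sin_shift_odd (u : ℝ) (n : ℤ) :
    Real.sin (u - Real.pi * ((2 * n + 1 : ℤ) : ℝ) / 2) = -((-1) ^ n * Real.cos u) := by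
  rw [show u - Real.pi * ((2 * n + 1 : ℤ) : ℝ) / 2 = (u - n * Real.pi) - Real.pi / 2 by
    push_cast; ring, Real.sin_sub_pi_div_two, Real.cos_sub_int_mul_pi]


/-- the coefficient of the lattice vector `y` -/
def EE (y1 y2 : ℤ) : ℝ :=
  (if Even (y1 + y2) then (if Even y2 then 1 else -1) * ((y1 - y2).sign : ℝ) else 0) +
  (if Even y1 then (if Even (y1 + y2) then 1 else -1) * ((y1 + 2 * y2).sign : ℝ) else 0) +
  (if Even y2 then (if Even y1 then 1 else -1) * ((-2 * y1 - y2).sign : ℝ) else 0)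

/-- the product of the trigonometric factors -/
def TT (q : ℕ) (y1 y2 : ℤ) : ℝ :=
  trg q (y1 - y2) * trg q (y1 + 2 * y2) * trg q (2 * y1 + y2)

theorem arg_shift {q : ℕ} (hq : 0 < q) (a d m : ℤ) (h : d = 2 * a + q * m) :
    Real.pi * (a : ℝ) / q = Real.pi * (d : ℝ) / (2 * q) - Real.pi * (m : ℝ) / 2 := by
  have hq' : (q : ℝ) ≠ 0 := by positivity
  subst h
  push_cast
  field_simp
  ring

theorem even_iff_of_odd {q : ℕ} (hq : Odd q) {y a X : ℤ} (h : y = 2 * a + q * X) :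
    Even y ↔ Even X := by
  subst h
  have hq2 : Odd (q : ℤ) := by exact_mod_cast hq
  rw [Int.even_add, Int.even_mul]
  have h1 : ¬ Even (q : ℤ) := Int.not_even_iff_odd.2 hq2
  simp only [even_two, true_or, true_iff, Int.even_mul, h1, false_or]

theorem sign_cases {a b : ℤ} (ha : a ≠ 0) (hb : b ≠ 0) (hab : a + b ≠ 0) :
    (((a.sign : ℝ) + (b.sign : ℝ) - ((a + b).sign : ℝ)) * ((a.sign : ℝ) * (b.sign : ℝ) *
      ((a + b).sign : ℝ)) = 1) := by
  rcases lt_or_gt_of_ne ha with h1 | h1 <;> rcases lt_or_gt_of_ne hb with h2 | h2 <;>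
    rcases lt_or_gt_of_ne hab with h3 | h3 <;>
    first
    | (exfalso; omega)
    | (simp only [Int.sign_eq_one_of_pos, Int.sign_eq_neg_one_of_neg, h1, h2, h3]; norm_num)

theorem sign_sq {a : ℤ} (ha : a ≠ 0) : (a.sign : ℝ) * (a.sign : ℝ) = 1 := by
  rcases lt_or_gt_of_ne ha with h1 | h1
  · rw [Int.sign_eq_neg_one_of_neg h1]; norm_num
  · rw [Int.sign_eq_one_of_pos h1]; norm_num

theorem EE_mul_TT {q : ℕ} (hq : Odd q) {v1 v2 : ℤ} {j : ℕ} {X1 X2 y1 y2 : ℤ}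
    (hy1 : y1 = 2 * (j * v1) + q * X1) (hy2 : y2 = 2 * (j * v2) + q * X2)
    (n1 : y1 - y2 ≠ 0) (n2 : y1 + 2 * y2 ≠ 0) (n3 : 2 * y1 + y2 ≠ 0) :
    EE y1 y2 * TT q y1 y2 = (if Even y1 ∧ Even y2 then 1 else -1) * PP q v1 v2 j := by
  have hq0 : 0 < q := hq.pos
  have a1 := arg_shift hq0 (j * (v1 - v2)) (y1 - y2) (X1 - X2) (by rw [hy1, hy2]; ring)
  have a2 := arg_shift hq0 (j * (v1 + 2 * v2)) (y1 + 2 * y2) (X1 + 2 * X2) (by
    rw [hy1, hy2]; ring)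
  have a3 := arg_shift hq0 (j * (2 * v1 + v2)) (2 * y1 + y2) (2 * X1 + X2) (by
    rw [hy1, hy2]; ring)
  have p1 := even_iff_of_odd hq hy1
  have p2 := even_iff_of_odd hq hy2
  unfold PP
  rw [a1, a2, a3]
  unfold EE TT trg
  have hneg : (-2 * y1 - y2).sign = -(2 * y1 + y2).sign := by
    rw [show -2 * y1 - y2 = -(2 * y1 + y2) by ring, Int.sign_neg]
  rw [hneg]
  set u1 := Real.pi * ((y1 - y2 : ℤ) : ℝ) / (2 * q) with hu1
  set u2 := Real.pi * ((y1 + 2 * y2 : ℤ) : ℝ) / (2 * q) with hu2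
  set u3 := Real.pi * ((2 * y1 + y2 : ℤ) : ℝ) / (2 * q) with hu3
  rcases Int.even_or_odd' X1 with ⟨a, ha | ha⟩ <;> rcases Int.even_or_odd' X2 with ⟨b, hb | hb⟩
  · -- all even
    have q1 : Even y1 := p1.2 ⟨a, by rw [ha]; ring⟩
    have q2 : Even y2 := p2.2 ⟨b, by rw [hb]; ring⟩
    have r1 : Even (y1 - y2) := q1.sub q2
    have r2 : Even (y1 + 2 * y2) := q1.add (q2.mul_left 2)
    have r3 : Even (2 * y1 + y2) := (q1.mul_left 2).add q2
    have r4 : Even (y1 + y2) := q1.add q2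
    simp only [q1, q2, r1, r2, r3, r4, if_true, and_self]
    rw [show X1 - X2 = 2 * (a - b) by rw [ha, hb]; ring,
      show X1 + 2 * X2 = 2 * (a + 2 * b) by rw [ha, hb]; ring,
      show 2 * X1 + X2 = 2 * (2 * a + b) by rw [ha, hb]; ring,
      sin_shift_even, sin_shift_even, sin_shift_even]
    have hs := sign_cases n1 n2 (by rwa [show y1 - y2 + (y1 + 2 * y2) = 2 * y1 + y2 by ring])
    rw [show y1 - y2 + (y1 + 2 * y2) = 2 * y1 + y2 by ring] at hs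
    have hz : ((-1 : ℝ) ^ (a - b)) * (-1) ^ (a + 2 * b) * (-1) ^ (2 * a + b) = 1 := by
      rw [← zpow_add₀ (by norm_num), ← zpow_add₀ (by norm_num),
        show a - b + (a + 2 * b) + (2 * a + b) = 2 * (2 * a + b) by ring]
      exact Even.neg_one_zpow ⟨2 * a + b, by ring⟩
    push_cast
    linear_combination (Real.sin u1 * Real.sin u2 * Real.sin u3) * hs -
      (Real.sin u1 * Real.sin u2 * Real.sin u3) * hz
  · -- X1 even, X2 odd
    have q1 : Even y1 := p1.2 ⟨a, by rw [ha]; ring⟩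
    have q2 : ¬ Even y2 := fun h => by
      have := p2.1 h
      rw [hb] at this
      exact (Int.not_even_iff_odd.2 ⟨b, rfl⟩) this
    have r1 : ¬ Even (y1 - y2) := fun h => q2 (by
      have := q1.sub h; rwa [show y1 - (y1 - y2) = y2 by ring] at this)
    have r2 : Even (y1 + 2 * y2) := q1.add (even_two_mul _)
    have r3 : ¬ Even (2 * y1 + y2) := fun h => q2 (by
      have := h.sub (even_two_mul y1); rwa [show 2 * y1 + y2 - 2 * y1 = y2 by ring] at this)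
    have r4 : ¬ Even (y1 + y2) := fun h => q2 (by
      have := h.sub q1; rwa [show y1 + y2 - y1 = y2 by ring] at this)
    simp only [q1, q2, r1, r2, r3, r4, if_true, if_false, and_false]
    rw [show X1 - X2 = 2 * (a - b - 1) + 1 by rw [ha, hb]; ring,
      show X1 + 2 * X2 = 2 * (a + 2 * b + 1) by rw [ha, hb]; ring,
      show 2 * X1 + X2 = 2 * (2 * a + b) + 1 by rw [ha, hb]; ring,
      sin_shift_even, sin_shift_odd, sin_shift_odd]
    have hs := sign_sq n2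
    have hz : ((-1 : ℝ) ^ (a - b - 1)) * (-1) ^ (a + 2 * b + 1) * (-1) ^ (2 * a + b) = 1 := by
      rw [← zpow_add₀ (by norm_num), ← zpow_add₀ (by norm_num),
        show a - b - 1 + (a + 2 * b + 1) + (2 * a + b) = 2 * (2 * a + b) by ring]
      exact Even.neg_one_zpow ⟨2 * a + b, by ring⟩
    linear_combination (-(Real.cos u1 * Real.sin u2 * Real.cos u3)) * hs +
      (Real.cos u1 * Real.sin u2 * Real.cos u3) * hz
  · -- X1 odd, X2 even
    have q1 : ¬ Even y1 := fun h => by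
      have := p1.1 h
      rw [ha] at this
      exact (Int.not_even_iff_odd.2 ⟨a, rfl⟩) this
    have q2 : Even y2 := p2.2 ⟨b, by rw [hb]; ring⟩
    have r1 : ¬ Even (y1 - y2) := fun h => q1 (by
      have := h.add q2; rwa [show y1 - y2 + y2 = y1 by ring] at this)
    have r2 : ¬ Even (y1 + 2 * y2) := fun h => q1 (by
      have := h.sub (even_two_mul y2); rwa [show y1 + 2 * y2 - 2 * y2 = y1 by ring] at this)
    have r3 : Even (2 * y1 + y2) := (even_two_mul _).add q2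
    have r4 : ¬ Even (y1 + y2) := fun h => q1 (by
      have := h.sub q2; rwa [show y1 + y2 - y2 = y1 by ring] at this)
    simp only [q1, q2, r1, r2, r3, r4, if_true, if_false, false_and]
    rw [show X1 - X2 = 2 * (a - b) + 1 by rw [ha, hb]; ring,
      show X1 + 2 * X2 = 2 * (a + 2 * b) + 1 by rw [ha, hb]; ring,
      show 2 * X1 + X2 = 2 * (2 * a + b + 1) by rw [ha, hb]; ring,
      sin_shift_even, sin_shift_odd, sin_shift_odd]
    have hs := sign_sq n3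
    have hz : ((-1 : ℝ) ^ (a - b)) * (-1) ^ (a + 2 * b) * (-1) ^ (2 * a + b + 1) = -1 := by
      rw [← zpow_add₀ (by norm_num), ← zpow_add₀ (by norm_num),
        show a - b + (a + 2 * b) + (2 * a + b + 1) = 2 * (2 * a + b) + 1 by ring]
      exact Odd.neg_one_zpow ⟨2 * a + b, by ring⟩
    push_cast
    linear_combination (Real.cos u1 * Real.cos u2 * Real.sin u3) * hs +
      (Real.cos u1 * Real.cos u2 * Real.sin u3) * hz
  · -- both odd
    have q1 : ¬ Even y1 := fun h => by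
      have := p1.1 h
      rw [ha] at this
      exact (Int.not_even_iff_odd.2 ⟨a, rfl⟩) this
    have q2 : ¬ Even y2 := fun h => by
      have := p2.1 h
      rw [hb] at this
      exact (Int.not_even_iff_odd.2 ⟨b, rfl⟩) this
    have o1 := Int.not_even_iff_odd.1 q1
    have o2 := Int.not_even_iff_odd.1 q2
    have r1 : Even (y1 - y2) := o1.sub_odd o2
    have r2 : ¬ Even (y1 + 2 * y2) := fun h => q1 (by
      have := h.sub (even_two_mul y2); rwa [show y1 + 2 * y2 - 2 * y2 = y1 by ring] at this)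
    have r3 : ¬ Even (2 * y1 + y2) := fun h => q2 (by
      have := h.sub (even_two_mul y1); rwa [show 2 * y1 + y2 - 2 * y1 = y2 by ring] at this)
    have r4 : Even (y1 + y2) := o1.add_odd o2
    simp only [q1, q2, r1, r2, r3, r4, if_true, if_false, false_and]
    rw [show X1 - X2 = 2 * (a - b) by rw [ha, hb]; ring,
      show X1 + 2 * X2 = 2 * (a + 2 * b + 1) + 1 by rw [ha, hb]; ring,
      show 2 * X1 + X2 = 2 * (2 * a + b + 1) + 1 by rw [ha, hb]; ring,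
      sin_shift_even, sin_shift_odd, sin_shift_odd]
    have hs := sign_sq n1
    have hz : ((-1 : ℝ) ^ (a - b)) * (-1) ^ (a + 2 * b + 1) * (-1) ^ (2 * a + b + 1) = 1 := by
      rw [← zpow_add₀ (by norm_num), ← zpow_add₀ (by norm_num),
        show a - b + (a + 2 * b + 1) + (2 * a + b + 1) = 2 * (2 * a + b + 1) by ring]
      exact Even.neg_one_zpow ⟨2 * a + b + 1, by ring⟩
    linear_combination (-(Real.sin u1 * Real.cos u2 * Real.cos u3)) * hs +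
      (Real.sin u1 * Real.cos u2 * Real.cos u3) * hz

theorem TT_ne {q : ℕ} (hq : 0 < q) {y1 y2 : ℤ} (h : Regu q y1 y2) : TT q y1 y2 ≠ 0 := by
  have key : ∀ d : ℤ, ¬ (q : ℤ) ∣ d → trg q d ≠ 0 := by
    intro d hd
    have hq' : (q : ℝ) ≠ 0 := by positivity
    have hd0 : d ≠ 0 := fun h => hd (h ▸ dvd_zero _)
    unfold trg
    split_ifs with he
    · refine mul_ne_zero (by exact_mod_cast (mt Int.sign_eq_zero_iff_zero.1 hd0)) ?_
      obtain ⟨e, he⟩ := he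
      have h2 : ¬ (q : ℤ) ∣ e := fun h => hd (he ▸ dvd_add h h)
      have h3 := sin_pi_div_ne hq h2
      rwa [show Real.pi * (d : ℝ) / (2 * q) = Real.pi * (e : ℝ) / q by
        rw [he]; push_cast; field_simp; ring]
    · rw [Int.not_even_iff_odd] at he
      intro h0
      rw [Real.cos_eq_zero_iff] at h0
      obtain ⟨n, hn⟩ := h0
      apply hd
      have h1 : ((2 * n + 1 : ℤ) : ℝ) * q = d := by
        push_cast
        field_simp at hn
        nlinarith [Real.pi_pos, hn]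
      have h2 : (2 * n + 1 : ℤ) * q = d := by exact_mod_cast h1
      exact ⟨2 * n + 1, by rw [← h2]; ring⟩
  exact mul_ne_zero (mul_ne_zero (key _ h.1) (key _ h.2.1)) (key _ h.2.2)

/-- pointwise comparison -/
theorem EE_div_PP {q : ℕ} {v1 v2 : ℤ} (hA : Adm q v1 v2) {j : ℕ} {y1 y2 : ℤ}
    (h1 : (q : ℤ) ∣ y1 - 2 * j * v1) (h2 : (q : ℤ) ∣ y2 - 2 * j * v2)
    (hj : ordj q v1 v2 j = 0) : EE y1 y2 / PP q v1 v2 j = Bt q y1 y2 := by
  have hR := (regular_iff_ordj hA h1 h2).2 hj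
  obtain ⟨X1, hX1⟩ := h1
  obtain ⟨X2, hX2⟩ := h2
  have hP := PP_ne hA.pos hj
  have hT := TT_ne hA.pos hR
  have key := EE_mul_TT hA.odd (v1 := v1) (v2 := v2) (j := j) (X1 := X1) (X2 := X2) (y1 := y1)
    (y2 := y2) (by linear_combination hX1) (by linear_combination hX2)
    (fun h => hR.1 (h ▸ dvd_zero _)) (fun h => hR.2.1 (h ▸ dvd_zero _))
    (fun h => hR.2.2 (h ▸ dvd_zero _))
  unfold Bt
  change EE y1 y2 / PP q v1 v2 j = (if Even y1 ∧ Even y2 then 1 else -1) / TT q y1 y2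
  rw [div_eq_div_iff hP hT, key]


/-- the inner sum at the frequency `ω` -/
def SS (q : ℕ) (v1 v2 : ℤ) (j : ℕ) (ω : ℝ) : ℂ :=
  ∑' p : ℤ × ℤ, (if freq (tj q (-v1 - v2) j) ((tj q v1 j - tj q v2 j) / 2) p = ω then
    (-1 : ℂ) ^ (p.1 + p.2) *
      (SignType.sign ((tj q v1 j - tj q v2 j) / 2 - Real.pi * p.2) : ℂ) else 0)

/-- the parametrisation of the lattice vectors with even third coordinate -/
def psi (q : ℕ) (v1 v2 : ℤ) (j : ℕ) (p : ℤ × ℤ) : ℤ × ℤ :=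
  (2 * j * v1 + q * (p.1 - p.2), 2 * j * v2 + q * (p.1 + p.2))

theorem psi_inj {q : ℕ} (hq : 0 < q) (v1 v2 : ℤ) (j : ℕ) :
    Function.Injective (psi q v1 v2 j) := by
  intro p p' h
  simp only [psi, Prod.mk.injEq] at h
  have hq' : (q : ℤ) ≠ 0 := by positivity
  have e1 : p.1 - p.2 = p'.1 - p'.2 := mul_left_cancel₀ hq' (by linear_combination h.1)
  have e2 : p.1 + p.2 = p'.1 + p'.2 := mul_left_cancel₀ hq' (by linear_combination h.2)
  ext <;> omega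

theorem freq_psi {q : ℕ} (hq : 0 < q) (v1 v2 : ℤ) (j : ℕ) (p : ℤ × ℤ) :
    freq (tj q (-v1 - v2) j) ((tj q v1 j - tj q v2 j) / 2) p =
      Real.pi ^ 2 * (Nf (psi q v1 v2 j p).1 (psi q v1 v2 j p).2 : ℝ) / (3 * q ^ 2) := by
  have hq' : (q : ℝ) ≠ 0 := by positivity
  unfold freq tj Nf psi
  push_cast
  field_simp
  ring

theorem sign_psi {q : ℕ} (hq : 0 < q) (v1 v2 : ℤ) (j : ℕ) (p : ℤ × ℤ) :
    (SignType.sign ((tj q v1 j - tj q v2 j) / 2 - Real.pi * p.2) : ℂ) =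
      (((psi q v1 v2 j p).1 - (psi q v1 v2 j p).2).sign : ℂ) := by
  have hq' : (q : ℝ) ≠ 0 := by positivity
  have e1 : (tj q v1 j - tj q v2 j) / 2 - Real.pi * p.2 =
      Real.pi / (2 * q) * (((psi q v1 v2 j p).1 - (psi q v1 v2 j p).2 : ℤ) : ℝ) := by
    unfold tj psi
    push_cast
    field_simp
    ring
  have hr : 0 < Real.pi / (2 * q) := by positivity
  rw [e1, sign_mul, sign_pos hr, one_mul]
  generalize (psi q v1 v2 j p).1 - (psi q v1 v2 j p).2 = d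
  rcases lt_trichotomy d 0 with h | h | h
  · rw [Int.sign_eq_neg_one_of_neg h, sign_neg (by exact_mod_cast h)]; norm_num
  · subst h; norm_num
  · rw [Int.sign_eq_one_of_pos h, sign_pos (by exact_mod_cast h)]; norm_num

theorem neg_one_psi {q : ℕ} (hq : Odd q) (v1 v2 : ℤ) (j : ℕ) (p : ℤ × ℤ) :
    (-1 : ℂ) ^ (p.1 + p.2) = if Even (psi q v1 v2 j p).2 then 1 else -1 := by
  have h := even_iff_of_odd hq (y := (psi q v1 v2 j p).2) (a := j * v2) (X := p.1 + p.2)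
    (by unfold psi; ring)
  by_cases he : Even (p.1 + p.2)
  · rw [if_pos (h.2 he), Even.neg_one_zpow he]
  · rw [if_neg (fun h' => he (h.1 h')), Odd.neg_one_zpow (Int.not_even_iff_odd.1 he)]

theorem mem_boxN {k : ℕ} {y : ℤ × ℤ} : y ∈ boxN k ↔ Nf y.1 y.2 = k := by
  unfold boxN
  rw [Finset.mem_filter, Finset.mem_product, Finset.mem_Icc, Finset.mem_Icc]
  refine ⟨fun h => h.2, fun h => ⟨?_, h⟩⟩
  unfold Nf at h
  have hk : (0 : ℤ) ≤ k := by positivity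
  have h1 : 3 * y.1 ^ 2 ≤ 4 * k := by nlinarith [sq_nonneg (y.1 + 2 * y.2)]
  have h2 : 3 * y.2 ^ 2 ≤ 4 * k := by nlinarith [sq_nonneg (2 * y.1 + y.2)]
  have hk2 : (k : ℤ) ≤ k ^ 2 := by
    have : (0 : ℤ) ≤ k * (k - 1) := by
      rcases Nat.eq_zero_or_pos k with h | h
      · subst h; norm_num
      · have : (1 : ℤ) ≤ k := by exact_mod_cast h
        exact mul_nonneg hk (by linarith)
    nlinarith
  have key : ∀ z : ℤ, 3 * z ^ 2 ≤ 4 * k → -(2 * (k : ℤ)) ≤ z ∧ z ≤ 2 * k := by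
    intro z hz
    have h3 : z ^ 2 ≤ (2 * (k : ℤ)) ^ 2 := by nlinarith [sq_nonneg z]
    exact abs_le.1 (abs_le_of_sq_le_sq h3 (by linarith))
  exact ⟨key _ h1, key _ h2⟩

open scoped Classical in
theorem SS_eq {q : ℕ} (hq : Odd q) (v1 v2 : ℤ) (j k : ℕ) :
    SS q v1 v2 j (Real.pi ^ 2 * k / (3 * q ^ 2)) =
      ∑ y ∈ boxN k, (if (q : ℤ) ∣ y.1 - 2 * j * v1 ∧ (q : ℤ) ∣ y.2 - 2 * j * v2 ∧
        Even (y.1 + y.2) then (if Even y.2 then 1 else -1) * ((y.1 - y.2).sign : ℂ) else 0) := by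
  have hq0 := hq.pos
  have hq' : (q : ℤ) ≠ 0 := by positivity
  set g : ℤ × ℤ → ℂ := fun y => if Nf y.1 y.2 = k ∧ (q : ℤ) ∣ y.1 - 2 * j * v1 ∧
    (q : ℤ) ∣ y.2 - 2 * j * v2 ∧ Even (y.1 + y.2) then
      (if Even y.2 then 1 else -1) * ((y.1 - y.2).sign : ℂ) else 0 with hg
  have hsupp : Function.support g ⊆ Set.range (psi q v1 v2 j) := by
    intro y hy
    have hc : Nf y.1 y.2 = k ∧ (q : ℤ) ∣ y.1 - 2 * j * v1 ∧
        (q : ℤ) ∣ y.2 - 2 * j * v2 ∧ Even (y.1 + y.2) := by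
      by_contra hc
      exact hy (if_neg hc)
    obtain ⟨-, ⟨X1, hX1⟩, ⟨X2, hX2⟩, he⟩ := hc
    have hX : Even (X1 + X2) := (even_iff_of_odd hq (y := y.1 + y.2) (a := j * (v1 + v2))
      (X := X1 + X2) (by linear_combination hX1 + hX2)).1 he
    obtain ⟨l, hl⟩ := hX
    refine ⟨(l, X2 - l), ?_⟩
    unfold psi
    ext
    · simp only
      have : l - (X2 - l) = X1 := by omega
      rw [this]; linear_combination -hX1
    · simp only
      have : l + (X2 - l) = X2 := by omega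
      rw [this]; linear_combination -hX2
  have h1 : SS q v1 v2 j (Real.pi ^ 2 * k / (3 * q ^ 2)) = ∑' p, g (psi q v1 v2 j p) := by
    unfold SS
    refine tsum_congr fun p => ?_
    rw [freq_psi hq0, sign_psi hq0, neg_one_psi hq]
    have hq3 : (q : ℝ) ≠ 0 := by positivity
    have hiff : (Real.pi ^ 2 * (Nf (psi q v1 v2 j p).1 (psi q v1 v2 j p).2 : ℝ) / (3 * q ^ 2) =
        Real.pi ^ 2 * k / (3 * q ^ 2)) ↔ Nf (psi q v1 v2 j p).1 (psi q v1 v2 j p).2 = k := by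
      rw [div_left_inj' (by positivity), mul_right_inj' (by positivity)]
      exact_mod_cast Iff.rfl
    have hd1 : (q : ℤ) ∣ (psi q v1 v2 j p).1 - 2 * j * v1 := ⟨p.1 - p.2, by unfold psi; ring⟩
    have hd2 : (q : ℤ) ∣ (psi q v1 v2 j p).2 - 2 * j * v2 := ⟨p.1 + p.2, by unfold psi; ring⟩
    have hd3 : Even ((psi q v1 v2 j p).1 + (psi q v1 v2 j p).2) :=
      ⟨j * (v1 + v2) + q * p.1, by unfold psi; ring⟩
    simp only [hg, hiff]
    by_cases hN : Nf (psi q v1 v2 j p).1 (psi q v1 v2 j p).2 = k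
    · have hall := And.intro hN (And.intro hd1 (And.intro hd2 hd3))
      rw [if_pos hN, if_pos hall]
    · rw [if_neg hN, if_neg fun h : _ ∧ _ => hN h.1]
  rw [h1, (psi_inj hq0 v1 v2 j).tsum_eq hsupp, tsum_eq_sum (s := boxN k)]
  · refine Finset.sum_congr rfl fun y hy => ?_
    rw [mem_boxN] at hy
    simp only [hg]
    by_cases hc : (q : ℤ) ∣ y.1 - 2 * j * v1 ∧ (q : ℤ) ∣ y.2 - 2 * j * v2 ∧ Even (y.1 + y.2)
    · rw [if_pos hc, if_pos (And.intro hy hc)]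
    · rw [if_neg hc, if_neg (fun h : _ ∧ _ => hc h.2)]
  · intro y hy
    exact if_neg fun h => hy (mem_boxN.2 h.1)

/-- reparametrisation of the sum over a shell -/
theorem sum_boxN_rot (k : ℕ) (f : ℤ → ℤ → ℂ) :
    ∑ y ∈ boxN k, f y.1 y.2 = ∑ y ∈ boxN k, f y.2 (-y.1 - y.2) := by
  refine (Finset.sum_nbij' (fun y => (y.2, -y.1 - y.2)) (fun y => (-y.1 - y.2, y.1)) ?_ ?_ ?_ ?_
    ?_).symm
  · intro y hy
    rw [mem_boxN] at hy ⊢
    rw [← hy]; unfold Nf; ring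
  · intro y hy
    rw [mem_boxN] at hy ⊢
    rw [← hy]; unfold Nf; ring
  · intro y _
    refine Prod.ext ?_ rfl
    dsimp only
    ring
  · intro y _
    refine Prod.ext rfl ?_
    dsimp only
    ring
  · intro y _
    rfl


open scoped Classical in
theorem three_SS {q : ℕ} (hq : Odd q) (v1 v2 : ℤ) (j k : ℕ) :
    SS q v1 v2 j (Real.pi ^ 2 * k / (3 * q ^ 2)) +
      SS q v2 (-v1 - v2) j (Real.pi ^ 2 * k / (3 * q ^ 2)) +
      SS q (-v1 - v2) v1 j (Real.pi ^ 2 * k / (3 * q ^ 2)) =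
    ∑ y ∈ boxN k, (if (q : ℤ) ∣ y.1 - 2 * j * v1 ∧ (q : ℤ) ∣ y.2 - 2 * j * v2 then
      (EE y.1 y.2 : ℂ) else 0) := by
  rw [SS_eq hq, SS_eq hq, SS_eq hq]
  rw [sum_boxN_rot k (fun a b => if (q : ℤ) ∣ a - 2 * j * v2 ∧ (q : ℤ) ∣ b - 2 * j * (-v1 - v2) ∧
    Even (a + b) then (if Even b then 1 else -1) * ((a - b).sign : ℂ) else 0)]
  rw [sum_boxN_rot k (fun a b => if (q : ℤ) ∣ a - 2 * j * (-v1 - v2) ∧ (q : ℤ) ∣ b - 2 * j * v1 ∧
    Even (a + b) then (if Even b then 1 else -1) * ((a - b).sign : ℂ) else 0)]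
  rw [sum_boxN_rot k (fun a b => if (q : ℤ) ∣ b - 2 * j * (-v1 - v2) ∧
    (q : ℤ) ∣ (-a - b) - 2 * j * v1 ∧
    Even (b + (-a - b)) then (if Even (-a - b) then 1 else -1) * ((b - (-a - b)).sign : ℂ) else 0)]
  rw [← Finset.sum_add_distrib, ← Finset.sum_add_distrib]
  refine Finset.sum_congr rfl fun y _ => ?_
  obtain ⟨y1, y2⟩ := y
  dsimp only
  have e1 : Even (y2 + (-y1 - y2)) ↔ Even y1 := by
    rw [show y2 + (-y1 - y2) = -y1 by ring, even_neg]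
  have e2 : Even (-y1 - y2) ↔ Even (y1 + y2) := by
    rw [show -y1 - y2 = -(y1 + y2) by ring, even_neg]
  have e3 : -y2 - (-y1 - y2) = y1 := by ring
  have e4 : Even (-y1 - y2 + y1) ↔ Even y2 := by
    rw [show -y1 - y2 + y1 = -y2 by ring, even_neg]
  have e5 : y2 - (-y1 - y2) = y1 + 2 * y2 := by ring
  have e6 : -y1 - y2 - y1 = -2 * y1 - y2 := by ring
  simp only [e3, e1, e2, e4, e5, e6]
  have d3 : (q : ℤ) ∣ y1 - 2 * j * v1 → (q : ℤ) ∣ y2 - 2 * j * v2 →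
      (q : ℤ) ∣ -y1 - y2 - 2 * j * (-v1 - v2) := fun h1 h2 => by
    have := (dvd_add h1 h2).neg_right
    rwa [show -(y1 - 2 * j * v1 + (y2 - 2 * j * v2)) = -y1 - y2 - 2 * j * (-v1 - v2) by ring]
      at this
  have d1 : (q : ℤ) ∣ y2 - 2 * j * v2 → (q : ℤ) ∣ -y1 - y2 - 2 * j * (-v1 - v2) →
      (q : ℤ) ∣ y1 - 2 * j * v1 := fun h1 h2 => by
    have := (dvd_add h1 h2).neg_right
    rwa [show -(y2 - 2 * j * v2 + (-y1 - y2 - 2 * j * (-v1 - v2))) = y1 - 2 * j * v1 by ring]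
      at this
  have d2 : (q : ℤ) ∣ -y1 - y2 - 2 * j * (-v1 - v2) → (q : ℤ) ∣ y1 - 2 * j * v1 →
      (q : ℤ) ∣ y2 - 2 * j * v2 := fun h1 h2 => by
    have := (dvd_add h1 h2).neg_right
    rwa [show -(-y1 - y2 - 2 * j * (-v1 - v2) + (y1 - 2 * j * v1)) = y2 - 2 * j * v2 by ring]
      at this
  by_cases h1 : (q : ℤ) ∣ y1 - 2 * j * v1
  · by_cases h2 : (q : ℤ) ∣ y2 - 2 * j * v2
    · have h3 := d3 h1 h2
      simp only [h1, h2, h3, true_and, and_self, if_true]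
      unfold EE
      rw [Complex.ofReal_add, Complex.ofReal_add]
      congr 1
      · congr 1 <;> split_ifs <;> push_cast <;> rfl
      · split_ifs <;> push_cast <;> rfl
    · have h3 : ¬ (q : ℤ) ∣ -y1 - y2 - 2 * j * (-v1 - v2) := fun h => h2 (d2 h h1)
      simp only [h1, h2, h3, true_and, false_and, and_false, if_false, add_zero]
  · by_cases h2 : (q : ℤ) ∣ y2 - 2 * j * v2
    · have h3 : ¬ (q : ℤ) ∣ -y1 - y2 - 2 * j * (-v1 - v2) := fun h => h1 (d1 h2 h)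
      simp only [h1, h2, h3, true_and, false_and, and_false, if_false, add_zero]
    · simp only [h1, h2, false_and, and_false, if_false, add_zero]

theorem exists_j {q : ℕ} {v1 v2 : ℤ} (hA : Adm q v1 v2) {y1 y2 : ℤ} (h : inLat q v1 v2 y1 y2) :
    ∃ j ∈ Finset.range q, (q : ℤ) ∣ y1 - 2 * j * v1 ∧ (q : ℤ) ∣ y2 - 2 * j * v2 := by
  have hc2 : IsCoprime (2 : ℤ) q := by
    have h1 : Nat.Coprime 2 q := (Nat.coprime_two_left).2 hA.odd
    exact_mod_cast Nat.isCoprime_iff_coprime.2 h1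
  obtain ⟨a, b, hab⟩ := hc2.mul_left hA.c1
  have hq0 : (0 : ℤ) < q := by exact_mod_cast hA.pos
  have hpos := Int.emod_nonneg (a * y1) hq0.ne'
  have hlt := Int.emod_lt_of_pos (a * y1) hq0
  obtain ⟨j, hj⟩ := Int.eq_ofNat_of_zero_le hpos
  have hj1 : (q : ℤ) ∣ y1 - 2 * j * v1 := by
    have h1 : (q : ℤ) ∣ a * y1 - j := by
      rw [← hj]
      exact Int.dvd_self_sub_emod
    have h2 : (q : ℤ) ∣ 2 * v1 * (a * y1 - j) + b * q * y1 :=
      dvd_add (h1.mul_left _) ⟨b * y1, by ring⟩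
    rwa [show 2 * v1 * (a * y1 - j) + b * q * y1 = y1 - 2 * j * v1 by
      linear_combination y1 * hab] at h2
  refine ⟨j, Finset.mem_range.2 (by rw [hj] at hlt; exact_mod_cast hlt), hj1, ?_⟩
  have h3 : (q : ℤ) ∣ v1 * (y2 - 2 * j * v2) := by
    have := dvd_add h (hj1.mul_left v2)
    rwa [show v1 * y2 - v2 * y1 + v2 * (y1 - 2 * j * v1) = v1 * (y2 - 2 * j * v2) by ring] at this
  exact hA.c1.symm.dvd_of_dvd_mul_left h3

theorem unique_j {q : ℕ} {v1 v2 : ℤ} (hA : Adm q v1 v2) {y1 : ℤ} {j j' : ℕ}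
    (hj : j ∈ Finset.range q) (hj' : j' ∈ Finset.range q)
    (h : (q : ℤ) ∣ y1 - 2 * j * v1) (h' : (q : ℤ) ∣ y1 - 2 * j' * v1) : j = j' := by
  have hc2 : IsCoprime (2 : ℤ) q := by
    have h1 : Nat.Coprime 2 q := (Nat.coprime_two_left).2 hA.odd
    exact_mod_cast Nat.isCoprime_iff_coprime.2 h1
  have hc := (hc2.mul_left hA.c1).symm
  have h1 : (q : ℤ) ∣ (2 * v1) * ((j' : ℤ) - j) := by
    have := dvd_sub h h'
    rwa [show y1 - 2 * j * v1 - (y1 - 2 * j' * v1) = (2 * v1) * ((j' : ℤ) - j) by ring] at this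
  have h2 := hc.dvd_of_dvd_mul_left h1
  rw [Finset.mem_range] at hj hj'
  obtain ⟨c, hcc⟩ := h2
  have hq0 : (0 : ℤ) < q := by exact_mod_cast hA.pos
  have hc0 : c = 0 := by
    by_contra hne
    rcases lt_or_gt_of_ne hne with h3 | h3
    · have : (q : ℤ) * c ≤ q * (-1) := mul_le_mul_of_nonneg_left (by omega) hq0.le
      omega
    · have : (q : ℤ) * 1 ≤ q * c := mul_le_mul_of_nonneg_left (by omega) hq0.le
      omega
  rw [hc0, mul_zero] at hcc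
  omega

open scoped Classical in
/-- the sum over the regular `j` for a lattice vector -/
theorem sum_reg {q : ℕ} {v1 v2 : ℤ} (hA : Adm q v1 v2) (y1 y2 : ℤ) (C : ℂ) :
    ∑ j ∈ (Finset.range q).filter (fun j => ordj q v1 v2 j = 0),
      (if (q : ℤ) ∣ y1 - 2 * j * v1 ∧ (q : ℤ) ∣ y2 - 2 * j * v2 then C else 0) =
    if inLat q v1 v2 y1 y2 ∧ Regu q y1 y2 then C else 0 := by
  by_cases h : inLat q v1 v2 y1 y2 ∧ Regu q y1 y2
  · obtain ⟨j, hj, h1, h2⟩ := exists_j hA h.1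
    rw [if_pos h, Finset.sum_eq_single j]
    · rw [if_pos (And.intro h1 h2)]
    · intro j' hj' hne
      refine if_neg fun h' : _ ∧ _ => hne ?_
      exact unique_j hA (Finset.mem_filter.1 hj').1 hj h'.1 h1
    · intro hn
      exact absurd (Finset.mem_filter.2 ⟨hj, (regular_iff_ordj hA h1 h2).1 h.2⟩) hn
  · rw [if_neg h]
    refine Finset.sum_eq_zero fun j hj => if_neg fun h' : _ ∧ _ => h ⟨?_, ?_⟩
    · unfold inLat
      have := dvd_sub (h'.2.mul_left v1) (h'.1.mul_left v2)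
      rwa [show v1 * (y2 - 2 * j * v2) - v2 * (y1 - 2 * j * v1) = v1 * y2 - v2 * y1 by ring]
        at this
    · exact (regular_iff_ordj hA h'.1 h'.2).2 (Finset.mem_filter.1 hj).2

open scoped Classical in
/-- the whole sum at the frequency `π² k / (3 q²)` -/
theorem sum_SS {q : ℕ} {v1 v2 : ℤ} (hA : Adm q v1 v2) (k : ℕ) :
    ∑ j ∈ (Finset.range q).filter (fun j => ordj q v1 v2 j = 0),
      (alt 1 1 (tj q v1 j) (tj q v2 j))⁻¹ * (SS q v1 v2 j (Real.pi ^ 2 * k / (3 * q ^ 2)) +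
      SS q v2 (-v1 - v2) j (Real.pi ^ 2 * k / (3 * q ^ 2)) +
      SS q (-v1 - v2) v1 j (Real.pi ^ 2 * k / (3 * q ^ 2))) = I / 8 * (SL q v1 v2 k : ℂ) := by
  have h0 : SL q v1 v2 k = ∑ y ∈ boxN k, (if inLat q v1 v2 y.1 y.2 ∧ Regu q y.1 y.2 then
      Bt q y.1 y.2 else 0) := by
    unfold SL; rw [Finset.sum_filter]
  rw [h0, Complex.ofReal_sum, Finset.mul_sum]
  have h1 : ∀ y ∈ boxN k, I / 8 * (((if inLat q v1 v2 y.1 y.2 ∧ Regu q y.1 y.2 then
      Bt q y.1 y.2 else 0 : ℝ)) : ℂ) =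
      ∑ j ∈ (Finset.range q).filter (fun j => ordj q v1 v2 j = 0),
      (if (q : ℤ) ∣ y.1 - 2 * j * v1 ∧ (q : ℤ) ∣ y.2 - 2 * j * v2 then
        I / 8 * (Bt q y.1 y.2 : ℂ) else 0) := by
    intro y _
    rw [sum_reg hA]
    split_ifs <;> simp
  rw [Finset.sum_congr rfl h1, Finset.sum_comm]
  refine Finset.sum_congr rfl fun j hj => ?_
  rw [three_SS hA.odd, Finset.mul_sum]
  refine Finset.sum_congr rfl fun y _ => ?_
  by_cases h : (q : ℤ) ∣ y.1 - 2 * j * v1 ∧ (q : ℤ) ∣ y.2 - 2 * j * v2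
  · rw [if_pos h, if_pos h]
    have hj0 := (Finset.mem_filter.1 hj).2
    have hP := PP_ne hA.pos hj0
    rw [← EE_div_PP hA h.1 h.2 hj0, alt_tj hA.pos]
    have hP' : ((PP q v1 v2 j : ℝ) : ℂ) ≠ 0 := by exact_mod_cast hP
    push_cast
    field_simp
    rw [I_sq]
    ring
  · rw [if_neg h, if_neg h, mul_zero]


/-- `χ N θ_j = FF N θ_j / Δ_j` summed over the regular `j` -/
theorem Tpart_eq {χ : ℕ → ℝ → ℝ → ℂ} (H : IsChi χ) {q : ℕ} (hq : 0 < q) (v1 v2 : ℤ) (N : ℕ) :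
    Tpart χ q v1 v2 0 N = ∑ j ∈ (Finset.range q).filter (fun j => ordj q v1 v2 j = 0),
      (alt 1 1 (tj q v1 j) (tj q v2 j))⁻¹ * FF N (tj q v1 j) (tj q v2 j) := by
  unfold Tpart
  refine Finset.sum_congr rfl fun j hj => ?_
  have hP := PP_ne hq (Finset.mem_filter.1 hj).2
  have hne : alt 1 1 (tj q v1 j) (tj q v2 j) ≠ 0 := by
    rw [alt_tj hq]
    refine mul_ne_zero (mul_ne_zero (by norm_num) I_ne_zero) (by exact_mod_cast hP)
  rw [← H.rel, inv_mul_cancel_left₀ hne]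

/-- the sum of the three products at `θ_j` -/
def Phi (q : ℕ) (v1 v2 : ℤ) (t : ℂ) : ℂ :=
  ∑ j ∈ (Finset.range q).filter (fun j => ordj q v1 v2 j = 0),
    (alt 1 1 (tj q v1 j) (tj q v2 j))⁻¹ *
      (Ath (tj q (-v1 - v2) j) t * Bth ((tj q v1 j - tj q v2 j) / 2) t +
       Ath (tj q (-v2 - (-v1 - v2)) j) t * Bth ((tj q v2 j - tj q (-v1 - v2) j) / 2) t +
       Ath (tj q (-(-v1 - v2) - v1) j) t * Bth ((tj q (-v1 - v2) j - tj q v1 j) / 2) t)

theorem hasSum_Phi {χ : ℕ → ℝ → ℝ → ℂ} (H : IsChi χ) {q : ℕ} (hq : 0 < q) (v1 v2 : ℤ) {t : ℂ}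
    (ht : 0 < t.re) :
    HasSum (fun N : ℕ => Tpart χ q v1 v2 0 N * exp (-t * N)) (1 / 2 * Phi q v1 v2 t) := by
  have h1 : ∀ j : ℕ, HasSum (fun N : ℕ => (alt 1 1 (tj q v1 j) (tj q v2 j))⁻¹ *
      (FF N (tj q v1 j) (tj q v2 j) * exp (-t * N)))
      ((alt 1 1 (tj q v1 j) (tj q v2 j))⁻¹ * (1 / 2 *
      (Ath (tj q (-v1 - v2) j) t * Bth ((tj q v1 j - tj q v2 j) / 2) t +
       Ath (tj q (-v2 - (-v1 - v2)) j) t * Bth ((tj q v2 j - tj q (-v1 - v2) j) / 2) t +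
       Ath (tj q (-(-v1 - v2) - v1) j) t * Bth ((tj q (-v1 - v2) j - tj q v1 j) / 2) t))) := by
    intro j
    refine HasSum.mul_left _ ?_
    have h2 := hasSum_FF (tj q v1 j) (tj q v2 j) ht
    have hq' : (q : ℝ) ≠ 0 := by positivity
    have e1 : -(tj q v1 j) - tj q v2 j = tj q (-v1 - v2) j := by
      unfold tj; push_cast; field_simp
    have e2 : tj q v1 j = tj q (-v2 - (-v1 - v2)) j := by
      rw [show -v2 - (-v1 - v2) = v1 by ring]
    have e3 : tj q v2 j = tj q (-(-v1 - v2) - v1) j := by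
      rw [show -(-v1 - v2) - v1 = v2 by ring]
    rw [e1, show (tj q v1 j + 2 * tj q v2 j) / 2 = (tj q v2 j - tj q (-v1 - v2) j) / 2 by
      rw [← e1]; ring, show (-2 * tj q v1 j - tj q v2 j) / 2 =
        (tj q (-v1 - v2) j - tj q v1 j) / 2 by rw [← e1]; ring] at h2
    rw [← e2, ← e3]
    exact h2
  have h3 := hasSum_sum (s := (Finset.range q).filter (fun j => ordj q v1 v2 j = 0))
    (fun j _ => h1 j)
  unfold Phi
  rw [Finset.mul_sum]
  convert h3 using 1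
  · funext N
    rw [Tpart_eq H hq, Finset.sum_mul]
    exact Finset.sum_congr rfl fun j _ => by ring
  · exact Finset.sum_congr rfl fun j _ => by ring

theorem ne_pi {q : ℕ} (hq : 0 < q) {v1 v2 : ℤ} {j : ℕ} (h : ¬ (q : ℤ) ∣ j * (v1 - v2)) (k : ℤ) :
    (tj q v1 j - tj q v2 j) / 2 ≠ Real.pi * k := by
  intro h0
  apply h
  refine ⟨k, ?_⟩
  have hq' : (q : ℝ) ≠ 0 := by positivity
  have h1 : ((j : ℝ) * (v1 - v2)) = q * k := by
    unfold tj at h0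
    field_simp at h0
    nlinarith [Real.pi_pos, h0]
  exact_mod_cast h1

end TransAux

theorem SL_eq {χ : ℕ → ℝ → ℝ → ℂ} (H : IsChi χ) {q : ℕ} {v1 v2 w1 w2 : ℤ}
    (hA : Adm q v1 v2) (hA' : Adm q w1 w2)
    (h0 : ∀ N, Tpart χ q v1 v2 0 N = Tpart χ q w1 w2 0 N) (k : ℕ) :
    SL q v1 v2 k = SL q w1 w2 k := by
  have hq := hA.pos
  have hPhi : ∀ t : ℂ, 0 < t.re → Phi q v1 v2 t = Phi q w1 w2 t := by
    intro t ht
    have a1 := hasSum_Phi H hq v1 v2 ht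
    have a2 := hasSum_Phi H hq w1 w2 ht
    simp only [h0] at a1
    have := a1.unique a2
    linear_combination 2 * this
  set Rv := (Finset.range q).filter (fun j => ordj q v1 v2 j = 0) with hRv
  set Rw := (Finset.range q).filter (fun j => ordj q w1 w2 j = 0) with hRw
  let V : Fin 3 → ℤ × ℤ := ![(v1, v2), (v2, -v1 - v2), (-v1 - v2, v1)]
  let W : Fin 3 → ℤ × ℤ := ![(w1, w2), (w2, -w1 - w2), (-w1 - w2, w1)]
  let c : (↥Rv × Fin 3) ⊕ (↥Rw × Fin 3) → ℂ :=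
    Sum.elim (fun i => (alt 1 1 (tj q v1 i.1) (tj q v2 i.1))⁻¹)
      (fun i => -(alt 1 1 (tj q w1 i.1) (tj q w2 i.1))⁻¹)
  let η : (↥Rv × Fin 3) ⊕ (↥Rw × Fin 3) → ℝ :=
    Sum.elim (fun i => tj q (-(V i.2).1 - (V i.2).2) i.1)
      (fun i => tj q (-(W i.2).1 - (W i.2).2) i.1)
  let a : (↥Rv × Fin 3) ⊕ (↥Rw × Fin 3) → ℝ :=
    Sum.elim (fun i => (tj q (V i.2).1 i.1 - tj q (V i.2).2 i.1) / 2)
      (fun i => (tj q (W i.2).1 i.1 - tj q (W i.2).2 i.1) / 2)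
  have ha : ∀ i, ∀ k : ℤ, a i ≠ Real.pi * k := by
    have key : ∀ (u1 u2 : ℤ) (j : ℕ), ordj q u1 u2 j = 0 → ∀ (m : Fin 3) (k : ℤ),
        (tj q (![(u1, u2), (u2, -u1 - u2), (-u1 - u2, u1)] m).1 j -
          tj q (![(u1, u2), (u2, -u1 - u2), (-u1 - u2, u1)] m).2 j) / 2 ≠ Real.pi * k := by
      intro u1 u2 j hj m k
      rw [ordj_zero_iff] at hj
      fin_cases m
      · exact ne_pi hq hj.1 k
      · refine ne_pi (v1 := u2) (v2 := -u1 - u2) hq ?_ k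
        rw [show u2 - (-u1 - u2) = u1 + 2 * u2 by ring]
        exact hj.2.1
      · refine ne_pi (v1 := -u1 - u2) (v2 := u1) hq ?_ k
        rw [show -u1 - u2 - u1 = -(2 * u1 + u2) by ring, mul_neg, dvd_neg]
        exact hj.2.2
    rintro (i | i) k
    · exact key v1 v2 i.1 (Finset.mem_filter.1 i.1.2).2 i.2 k
    · exact key w1 w2 i.1 (Finset.mem_filter.1 i.1.2).2 i.2 k
  have hzero : ∀ t : ℂ, 0 < t.re → ∑ i, c i * (Ath (η i) t * Bth (a i) t) = 0 := by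
    intro t ht
    rw [Fintype.sum_sum_type, Fintype.sum_prod_type, Fintype.sum_prod_type]
    simp only [Fin.sum_univ_three]
    have e1 := Finset.sum_coe_sort Rv (fun j => (alt 1 1 (tj q v1 j) (tj q v2 j))⁻¹ *
      (Ath (tj q (-v1 - v2) j) t * Bth ((tj q v1 j - tj q v2 j) / 2) t) +
      (alt 1 1 (tj q v1 j) (tj q v2 j))⁻¹ * (Ath (tj q (-v2 - (-v1 - v2)) j) t *
        Bth ((tj q v2 j - tj q (-v1 - v2) j) / 2) t) +
      (alt 1 1 (tj q v1 j) (tj q v2 j))⁻¹ * (Ath (tj q (-(-v1 - v2) - v1) j) t *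
        Bth ((tj q (-v1 - v2) j - tj q v1 j) / 2) t))
    have e2 := Finset.sum_coe_sort Rw (fun j => -(alt 1 1 (tj q w1 j) (tj q w2 j))⁻¹ *
      (Ath (tj q (-w1 - w2) j) t * Bth ((tj q w1 j - tj q w2 j) / 2) t) +
      -(alt 1 1 (tj q w1 j) (tj q w2 j))⁻¹ * (Ath (tj q (-w2 - (-w1 - w2)) j) t *
        Bth ((tj q w2 j - tj q (-w1 - w2) j) / 2) t) +
      -(alt 1 1 (tj q w1 j) (tj q w2 j))⁻¹ * (Ath (tj q (-(-w1 - w2) - w1) j) t *
        Bth ((tj q (-w1 - w2) j - tj q w1 j) / 2) t))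
    have e3 := hPhi t ht
    refine (congrArg₂ (· + ·) e1 e2).trans ?_
    have e4 : Phi q v1 v2 t + -Phi q w1 w2 t = 0 := by rw [e3]; ring
    refine Eq.trans (congrArg₂ (· + ·) ?_ ?_) e4
    · unfold Phi
      exact Finset.sum_congr rfl fun j _ => by ring
    · unfold Phi
      rw [← Finset.sum_neg_distrib]
      exact Finset.sum_congr rfl fun j _ => by ring
  have hmain := an_main c η a ha hzero (Real.pi ^ 2 * k / (3 * q ^ 2))
  rw [Fintype.sum_sum_type, Fintype.sum_prod_type, Fintype.sum_prod_type] at hmain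
  simp only [Fin.sum_univ_three] at hmain
  have e1 := Finset.sum_coe_sort Rv (fun j => (alt 1 1 (tj q v1 j) (tj q v2 j))⁻¹ *
      SS q v1 v2 j (Real.pi ^ 2 * k / (3 * q ^ 2)) +
      (alt 1 1 (tj q v1 j) (tj q v2 j))⁻¹ *
      SS q v2 (-v1 - v2) j (Real.pi ^ 2 * k / (3 * q ^ 2)) +
      (alt 1 1 (tj q v1 j) (tj q v2 j))⁻¹ *
      SS q (-v1 - v2) v1 j (Real.pi ^ 2 * k / (3 * q ^ 2)))
  have e2 := Finset.sum_coe_sort Rw (fun j => -(alt 1 1 (tj q w1 j) (tj q w2 j))⁻¹ *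
      SS q w1 w2 j (Real.pi ^ 2 * k / (3 * q ^ 2)) +
      -(alt 1 1 (tj q w1 j) (tj q w2 j))⁻¹ *
      SS q w2 (-w1 - w2) j (Real.pi ^ 2 * k / (3 * q ^ 2)) +
      -(alt 1 1 (tj q w1 j) (tj q w2 j))⁻¹ *
      SS q (-w1 - w2) w1 j (Real.pi ^ 2 * k / (3 * q ^ 2)))
  have h5 := (congrArg₂ (· + ·) e1 e2).symm.trans hmain
  have f1 := sum_SS hA k
  have f2 := sum_SS hA' k
  have h6 : I / 8 * (((SL q v1 v2 k : ℝ) : ℂ) - (SL q w1 w2 k : ℝ)) = 0 := by
    rw [mul_sub, ← f1, ← f2, sub_eq_add_neg, ← Finset.sum_neg_distrib]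
    refine Eq.trans (congrArg₂ (· + ·) ?_ ?_) h5
    · exact Finset.sum_congr rfl fun j _ => by ring
    · exact Finset.sum_congr rfl fun j _ => by ring
  have h7 : ((SL q v1 v2 k : ℝ) : ℂ) - (SL q w1 w2 k : ℝ) = 0 := by
    rcases mul_eq_zero.1 h6 with h | h
    · exact absurd h (by simp)
    · exact h
  exact_mod_cast sub_eq_zero.1 h7

end Pool.Agent.Iso79
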