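import Mathlib

/-!
# A lemma on three pairwise coprime divisors

Proof.  Write `H' = h'₁h'₂h'₃`.
(a) Let `h i ≠ 1, 3`.  Put `D = gcd(h i, H') = ∏ gcd(h i, h' j)`.  For every unit `r` mod `q` with
`r ≡ 1 mod H'` we have `r ≡ ± 1 mod h i`; such `r` give all the units `≡ 1 mod D` modulo `h i`
(Chinese remainder theorem).  So the kernel of `(ℤ/h i)ˣ → (ℤ/D)ˣ` is contained in `{1, -1}`.
If `D > 1` then `-1` is not in the kernel (`D` odd), so `φ(h i) = φ(D)`, `D = h i`.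
If `D = 1` then `φ(h i) ≤ 2`, `h i ∈ {1, 3}`: excluded.  So `h i = D` divides `H'`.
(Concretely: if a prime power `p^a` exactly divides `h i` and `p^b` exactly divides `H'` with
`b < a`, take `r ≡ 1` modulo the prime-to-`p` part of `q` and `r ≡ 1 + p^{a-1}` mod `p^a` if
`a ≥ 2`, resp. `r ≡ 2` mod `p` if `a = 1`, `p ≥ 5`, resp. `r ≡ -1 mod 3` if `p^a = 3` - here `r ≡ 1`
modulo `h i / 3 > 1`.)
(b) Let `d_j = gcd(h i, h' j)`, `h i = d₁ d₂ d₃`.  Take `r ≡ -1` mod (the part of `q` made of the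
primes dividing `h' j`), `r ≡ 1` mod the rest; then `r ≡ ±1 mod h i` implies that `d_j = 1` or
`h i = d_j`.  So `h i ∣ h' j` for exactly one `j`.
(c) By symmetry: for `h i ∉ {1, 3}` there is `j` with `h i ∣ h' j`, `h' j ∉ {1,3}`, so
`h' j ∣ h i'` and `h i ∣ h i'`, so `i = i'` by coprimality, and `h i = h' j`.
So the multisets of the `h i ∉ {1,3}` and of the `h' j ∉ {1,3}` agree; the others are `1`, except
for at most one `3`; by `hsum` the number of `3`s is the same.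
-/

namespace Pool.Agent.Iso79

namespace LemCAux

/-- units can be lifted -/
theorem lift_unit {q L : ℕ} (hq : 0 < q) (hL : L ∣ q) {x : ℤ} (hx : IsCoprime x (L : ℤ)) :
    ∃ r : ℤ, IsCoprime r (q : ℤ) ∧ (L : ℤ) ∣ r - x := by
  have : NeZero q := ⟨hq.ne'⟩
  have hL0 : L ≠ 0 := fun h => hq.ne' (by rw [h] at hL; exact Nat.eq_zero_of_zero_dvd hL)
  have : NeZero L := ⟨hL0⟩
  have hu : IsUnit (x : ZMod L) := (ZMod.coe_int_isUnit_iff_isCoprime x L).2 hx.symm
  obtain ⟨u, hu⟩ := hu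
  obtain ⟨w, hw⟩ := ZMod.unitsMap_surjective hL u
  refine ⟨((w : ZMod q).val : ℤ), ?_, ?_⟩
  · have h1 : IsUnit ((((w : ZMod q).val : ℤ)) : ZMod q) := by
      rw [Int.cast_natCast, ZMod.natCast_zmod_val]
      exact w.isUnit
    exact ((ZMod.coe_int_isUnit_iff_isCoprime _ q).1 h1).symm
  · rw [← ZMod.intCast_eq_intCast_iff_dvd_sub, ← hu, ← hw, ZMod.unitsMap_val]
    rw [Int.cast_natCast, ZMod.natCast_val]

theorem odd_dvd_two {q D : ℕ} (hq : Odd q) (hD : D ∣ q) {r : ℤ} (h1 : (D : ℤ) ∣ r - 1)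
    (h2 : (D : ℤ) ∣ r + 1) : D = 1 := by
  have h3 := dvd_sub h2 h1
  have e : r + 1 - (r - 1) = 2 := by ring
  rw [e] at h3
  have h4 : D ∣ 2 := by exact_mod_cast h3
  rcases (Nat.dvd_prime Nat.prime_two).1 h4 with h5 | h5
  · exact h5
  · exfalso
    rw [h5] at hD
    exact (Nat.not_even_iff_odd.2 hq) (even_iff_two_dvd.2 hD)

/-- `r ≡ s mod n`, `r ≡ 1 mod H`, `r` prime to `q` -/
theorem crt {q : ℕ} (hq : 0 < q) {n H : ℕ} (hn : n ∣ q) (hH : H ∣ q) {s : ℤ}
    (hs : IsCoprime s (n : ℤ)) (hs1 : ((Nat.gcd n H : ℕ) : ℤ) ∣ s - 1) :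
    ∃ r : ℤ, IsCoprime r (q : ℤ) ∧ (n : ℤ) ∣ r - s ∧ (H : ℤ) ∣ r - 1 := by
  obtain ⟨k, hk⟩ := hs1
  have hb := Nat.gcd_eq_gcd_ab n H
  set x := Nat.gcdA n H
  set y := Nat.gcdB n H
  let r0 : ℤ := 1 + H * (y * k)
  have e1 : r0 = s - n * (x * k) := by
    have : s = 1 + ((n : ℤ) * x + H * y) * k := by
      rw [← hb]; linarith
    simp only [r0]
    rw [this]; ring
  have c1 : IsCoprime r0 (n : ℤ) := by
    rw [e1, sub_eq_add_neg, ← mul_neg]
    exact hs.add_mul_left_left _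
  have c2 : IsCoprime r0 (H : ℤ) := isCoprime_one_left.add_mul_left_left _
  have c3 : IsCoprime r0 ((Nat.lcm n H : ℕ) : ℤ) := by
    have h1 : ((Nat.lcm n H : ℕ) : ℤ) ∣ (n : ℤ) * H := by
      exact_mod_cast Nat.lcm_dvd_mul n H
    exact (c1.mul_right c2).of_isCoprime_of_dvd_right h1
  obtain ⟨r, hr, hr1⟩ := lift_unit hq (Nat.lcm_dvd hn hH) c3
  refine ⟨r, hr, ?_, ?_⟩
  · have h1 : (n : ℤ) ∣ r - r0 :=
      (by exact_mod_cast Nat.dvd_lcm_left n H : (n : ℤ) ∣ ((Nat.lcm n H : ℕ) : ℤ)).trans hr1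
    have h2 : r - s = (r - r0) - n * (x * k) := by rw [e1]; ring
    rw [h2]
    exact dvd_sub h1 (dvd_mul_right _ _)
  · have h1 : (H : ℤ) ∣ r - r0 :=
      (by exact_mod_cast Nat.dvd_lcm_right n H : (H : ℤ) ∣ ((Nat.lcm n H : ℕ) : ℤ)).trans hr1
    have h2 : r - 1 = (r - r0) + H * (y * k) := by simp only [r0]; ring
    rw [h2]
    exact dvd_add h1 (dvd_mul_right _ _)

theorem step1 {q : ℕ} (hq : Odd q) {n H : ℕ} (hn : n ∣ q) (hH : H ∣ q) (h1 : n ≠ 1) (h3 : n ≠ 3)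
    (hR : ∀ r : ℤ, IsCoprime r (q : ℤ) → (H : ℤ) ∣ r - 1 →
      (n : ℤ) ∣ r - 1 ∨ (n : ℤ) ∣ r + 1) : n ∣ H := by
  have hq0 : 0 < q := hq.pos
  have hn0 : 0 < n := Nat.pos_of_dvd_of_pos hn hq0
  have hnodd : Odd n := Odd.of_dvd_nat hq hn
  by_contra hcon
  set D := Nat.gcd n H with hD
  have hDn : D ∣ n := Nat.gcd_dvd_left n H
  have hDH : D ∣ H := Nat.gcd_dvd_right n H
  have hne : ¬ n ∣ D := fun h => hcon (h.trans hDH)
  -- the general consequence
  have key : ∀ s : ℤ, IsCoprime s (n : ℤ) → (D : ℤ) ∣ s - 1 →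
      ((n : ℤ) ∣ s - 1 ∨ (n : ℤ) ∣ s + 1) := by
    intro s hs hs1
    obtain ⟨r, hr, hrn, hrH⟩ := crt hq0 hn hH hs hs1
    rcases hR r hr hrH with h | h
    · left
      have := dvd_sub h hrn
      rwa [sub_sub_sub_cancel_left] at this
    · right
      have := dvd_sub h hrn
      have e : r + 1 - (r - s) = s + 1 := by ring
      rwa [e] at this
  by_cases hD1 : D = 1
  · have c2 : IsCoprime (2 : ℤ) (n : ℤ) := by
      rw [Int.isCoprime_iff_gcd_eq_one]
      exact (Nat.coprime_two_left.2 hnodd)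
    rcases key 2 c2 (by rw [hD1]; norm_num) with h | h
    · have : (n : ℤ) ∣ 1 := by simpa using h
      have h5 : n ∣ 1 := by exact_mod_cast this
      exact h1 (Nat.dvd_one.1 h5)
    · have : (n : ℤ) ∣ 3 := by
        have e : (2 : ℤ) + 1 = 3 := by norm_num
        rwa [e] at h
      have h5 : n ∣ 3 := by exact_mod_cast this
      rcases (Nat.dvd_prime Nat.prime_three).1 h5 with h6 | h6
      · exact h1 h6
      · exact h3 h6
  · have key2 : ∀ s : ℤ, IsCoprime s (n : ℤ) → (D : ℤ) ∣ s - 1 → (n : ℤ) ∣ s - 1 := by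
      intro s hs hs1
      rcases key s hs hs1 with h | h
      · exact h
      · exfalso
        exact hD1 (odd_dvd_two hq (hDn.trans hn) hs1
          ((by exact_mod_cast hDn : (D : ℤ) ∣ (n : ℤ)).trans h))
    by_cases hp : ∀ p : ℕ, p.Prime → p ∣ n → p ∣ D
    · have c1 : IsCoprime (1 + D : ℤ) (n : ℤ) := by
        have h5 : Nat.Coprime (1 + D) n := by
          apply Nat.Coprime.symm
          apply Nat.coprime_of_dvd
          intro p hpp hpn hpd
          have h6 := hp p hpp hpn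
          have h7 : p ∣ 1 := (Nat.dvd_add_left h6).1 hpd
          exact hpp.one_lt.ne' (Nat.dvd_one.1 h7)
        have h8 : IsCoprime ((1 + D : ℕ) : ℤ) (n : ℤ) := Nat.isCoprime_iff_coprime.2 h5
        push_cast at h8
        exact h8
      have h9 := key2 _ c1 (by rw [add_sub_cancel_left])
      rw [add_sub_cancel_left] at h9
      exact hne (by exact_mod_cast h9)
    · push Not at hp
      obtain ⟨p, hpp, hpn, hpD⟩ := hp
      obtain ⟨a, m, hpm, hnm⟩ := Nat.exists_eq_pow_mul_and_not_dvd hn0.ne' p hpp.ne_one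
      have ha : a ≠ 0 := by
        rintro rfl
        rw [pow_zero, one_mul] at hnm
        rw [hnm] at hpn
        exact hpm hpn
      have hcop : Nat.Coprime (p ^ a) m :=
        Nat.Coprime.pow_left _ ((Nat.Prime.coprime_iff_not_dvd hpp).2 hpm)
      have hDm : D ∣ m := by
        have h5 : Nat.Coprime D (p ^ a) :=
          (Nat.Coprime.pow_left _ ((Nat.Prime.coprime_iff_not_dvd hpp).2 hpD)).symm
        rw [hnm] at hDn
        exact h5.dvd_of_dvd_mul_left hDn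
      obtain ⟨x, y, hxy⟩ := (Nat.isCoprime_iff_coprime.2 hcop : IsCoprime ((p ^ a : ℕ) : ℤ) (m : ℤ))
      let s : ℤ := 1 + m * y
      have es : s = 2 + (p ^ a : ℕ) * (-x) := by
        simp only [s]
        linarith
      have hp2 : p ≠ 2 := by
        rintro rfl
        exact (Nat.not_even_iff_odd.2 hnodd) (even_iff_two_dvd.2 hpn)
      have cs1 : IsCoprime s ((p ^ a : ℕ) : ℤ) := by
        rw [es]
        apply IsCoprime.add_mul_left_left
        have h5 : Nat.Coprime 2 (p ^ a) :=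
          Nat.Coprime.pow_right _ ((Nat.coprime_primes Nat.prime_two hpp).2 (Ne.symm hp2))
        exact_mod_cast Nat.isCoprime_iff_coprime.2 h5
      have cs2 : IsCoprime s (m : ℤ) := isCoprime_one_left.add_mul_left_left _
      have cs : IsCoprime s (n : ℤ) := by
        rw [hnm]
        push_cast
        have := cs1.mul_right cs2
        push_cast at this
        exact this
      have h6 : (D : ℤ) ∣ s - 1 := by
        have e : s - 1 = m * y := by simp only [s]; ring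
        rw [e]
        exact (by exact_mod_cast hDm : (D : ℤ) ∣ (m : ℤ)).mul_right y
      have h7 := key2 s cs h6
      have h8 : ((p ^ a : ℕ) : ℤ) ∣ s - 1 := by
        refine Dvd.dvd.trans ?_ h7
        rw [hnm]
        push_cast
        exact dvd_mul_right _ _
      have h9 : ((p ^ a : ℕ) : ℤ) ∣ 1 := by
        have h10 : ((p ^ a : ℕ) : ℤ) ∣ s - 1 + (p ^ a : ℕ) * x := dvd_add h8 (dvd_mul_right _ _)
        have e : s - 1 + (p ^ a : ℕ) * x = 1 := by rw [es]; ring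
        rwa [e] at h10
      have h10 : p ^ a ∣ 1 := by exact_mod_cast h9
      have h11 : p ∣ 1 := (dvd_pow_self p ha).trans h10
      exact hpp.one_lt.ne' (Nat.dvd_one.1 h11)

theorem step2a {q : ℕ} (hq : Odd q) {n a b c : ℕ} (ha : a ∣ q) (hb : b ∣ q) (hc : c ∣ q)
    (hab : Nat.Coprime a b) (hac : Nat.Coprime a c) (hbc : Nat.Coprime b c)
    (hR : ∀ r : ℤ, IsCoprime r (q : ℤ) → ((a : ℤ) ∣ r - 1 ∨ (a : ℤ) ∣ r + 1) →
      ((b : ℤ) ∣ r - 1 ∨ (b : ℤ) ∣ r + 1) → ((c : ℤ) ∣ r - 1 ∨ (c : ℤ) ∣ r + 1) →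
      ((n : ℤ) ∣ r - 1 ∨ (n : ℤ) ∣ r + 1)) : Nat.gcd n a = 1 ∨ Nat.gcd n b = 1 := by
  have habc : Nat.Coprime a (b * c) := Nat.Coprime.mul_right hab hac
  have hd : a * (b * c) ∣ q :=
    habc.mul_dvd_of_dvd_of_dvd ha (hbc.mul_dvd_of_dvd_of_dvd hb hc)
  obtain ⟨x, y, hxy⟩ := (Nat.isCoprime_iff_coprime.2 habc : IsCoprime (a : ℤ) ((b * c : ℕ) : ℤ))
  let r0 : ℤ := 1 + (b * c : ℕ) * (-2 * y)
  have e0 : r0 = -1 + a * (2 * x) := by
    simp only [r0]
    linarith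
  have c1 : IsCoprime r0 (a : ℤ) := by
    rw [e0]
    exact isCoprime_one_left.neg_left.add_mul_left_left _
  have c2 : IsCoprime r0 ((b * c : ℕ) : ℤ) := isCoprime_one_left.add_mul_left_left _
  have c3 : IsCoprime r0 ((a * (b * c) : ℕ) : ℤ) := by
    push_cast at c2 ⊢
    exact c1.mul_right c2
  obtain ⟨r, hr, hr1⟩ := lift_unit hq.pos hd c3
  have ra : (a : ℤ) ∣ r + 1 := by
    have h1 : (a : ℤ) ∣ r - r0 := by
      refine Dvd.dvd.trans ?_ hr1
      push_cast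
      exact dvd_mul_right _ _
    have e : r + 1 = (r - r0) + a * (2 * x) := by rw [e0]; ring
    rw [e]
    exact dvd_add h1 (dvd_mul_right _ _)
  have rbc : ((b * c : ℕ) : ℤ) ∣ r - 1 := by
    have h1 : ((b * c : ℕ) : ℤ) ∣ r - r0 := by
      refine Dvd.dvd.trans ?_ hr1
      push_cast
      exact dvd_mul_left _ _
    have e : r - 1 = (r - r0) + (b * c : ℕ) * (-2 * y) := by simp only [r0]; ring
    rw [e]
    exact dvd_add h1 (dvd_mul_right _ _)
  have rb : (b : ℤ) ∣ r - 1 := by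
    refine Dvd.dvd.trans ?_ rbc
    push_cast
    exact dvd_mul_right _ _
  have rc : (c : ℤ) ∣ r - 1 := by
    refine Dvd.dvd.trans ?_ rbc
    push_cast
    exact dvd_mul_left _ _
  rcases hR r hr (Or.inr ra) (Or.inl rb) (Or.inl rc) with h | h
  · left
    refine odd_dvd_two hq ((Nat.gcd_dvd_right n a).trans ha) (r := r) ?_ ?_
    · exact (by exact_mod_cast Nat.gcd_dvd_left n a :
        ((Nat.gcd n a : ℕ) : ℤ) ∣ (n : ℤ)).trans h
    · exact (by exact_mod_cast Nat.gcd_dvd_right n a :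
        ((Nat.gcd n a : ℕ) : ℤ) ∣ (a : ℤ)).trans ra
  · right
    refine odd_dvd_two hq ((Nat.gcd_dvd_right n b).trans hb) (r := r) ?_ ?_
    · exact (by exact_mod_cast Nat.gcd_dvd_right n b :
        ((Nat.gcd n b : ℕ) : ℤ) ∣ (b : ℤ)).trans rb
    · exact (by exact_mod_cast Nat.gcd_dvd_left n b :
        ((Nat.gcd n b : ℕ) : ℤ) ∣ (n : ℤ)).trans h

theorem step2 {q : ℕ} (hq : Odd q) {n a b c : ℕ} (ha : a ∣ q) (hb : b ∣ q) (hc : c ∣ q)
    (hab : Nat.Coprime a b) (hac : Nat.Coprime a c) (hbc : Nat.Coprime b c)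
    (hn : n ∣ a * (b * c))
    (hR : ∀ r : ℤ, IsCoprime r (q : ℤ) → ((a : ℤ) ∣ r - 1 ∨ (a : ℤ) ∣ r + 1) →
      ((b : ℤ) ∣ r - 1 ∨ (b : ℤ) ∣ r + 1) → ((c : ℤ) ∣ r - 1 ∨ (c : ℤ) ∣ r + 1) →
      ((n : ℤ) ∣ r - 1 ∨ (n : ℤ) ∣ r + 1)) : n ∣ a ∨ n ∣ b ∨ n ∣ c := by
  have k1 := step2a hq ha hb hc hab hac hbc hR
  have k2 := step2a hq ha hc hb hac hab hbc.symm (fun r h1 h2 h3 h4 => hR r h1 h2 h4 h3)
  have k3 := step2a hq hb hc ha hbc hab.symm hac.symm (fun r h1 h2 h3 h4 => hR r h1 h4 h2 h3)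
  have hn' : n = Nat.gcd n a * (Nat.gcd n b * Nat.gcd n c) := by
    rw [← Nat.Coprime.gcd_mul n hbc, ← Nat.Coprime.gcd_mul n (Nat.Coprime.mul_right hab hac)]
    exact (Nat.gcd_eq_left hn).symm
  by_cases x1 : Nat.gcd n a = 1
  · rcases k3 with h | h
    · right; right
      rw [x1, h, one_mul, one_mul] at hn'
      rw [hn']
      exact Nat.gcd_dvd_right n c
    · right; left
      rw [x1, h, one_mul, mul_one] at hn'
      rw [hn']
      exact Nat.gcd_dvd_right n b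
  · left
    have y1 := k1.resolve_left x1
    have z1 := k2.resolve_left x1
    rw [y1, z1, mul_one, mul_one] at hn'
    rw [hn']
    exact Nat.gcd_dvd_right n a

theorem main1 {q : ℕ} (hq : Odd q) (h h' : Fin 3 → ℕ) (hd : ∀ i, h i ∣ q) (hd' : ∀ i, h' i ∣ q)
    (hc' : ∀ i j, i ≠ j → Nat.Coprime (h' i) (h' j))
    (hR : ∀ r : ℤ, IsCoprime r (q : ℤ) → (∀ i, (h' i : ℤ) ∣ r - 1 ∨ (h' i : ℤ) ∣ r + 1) →
      ∀ i, (h i : ℤ) ∣ r - 1 ∨ (h i : ℤ) ∣ r + 1) (i : Fin 3) (h1 : h i ≠ 1) (h3 : h i ≠ 3) :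
    ∃ j, h i ∣ h' j := by
  have c01 := hc' 0 1 (by decide)
  have c02 := hc' 0 2 (by decide)
  have c12 := hc' 1 2 (by decide)
  have hH : h' 0 * (h' 1 * h' 2) ∣ q :=
    (Nat.Coprime.mul_right c01 c02).mul_dvd_of_dvd_of_dvd (hd' 0)
      (c12.mul_dvd_of_dvd_of_dvd (hd' 1) (hd' 2))
  have s1 : h i ∣ h' 0 * (h' 1 * h' 2) := by
    apply step1 hq (hd i) hH h1 h3
    intro r hr hrH
    apply hR r hr
    intro j
    left
    refine Dvd.dvd.trans ?_ hrH
    refine Int.natCast_dvd_natCast.2 ?_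
    fin_cases j
    · exact Dvd.intro (h' 1 * h' 2) rfl
    · exact ⟨h' 0 * h' 2, by change h' 0 * (h' 1 * h' 2) = h' 1 * (h' 0 * h' 2); ring⟩
    · exact ⟨h' 0 * h' 1, by change h' 0 * (h' 1 * h' 2) = h' 2 * (h' 0 * h' 1); ring⟩
  have s2 := step2 hq (hd' 0) (hd' 1) (hd' 2) c01 c02 c12 s1 (fun r hr a0 a1 a2 =>
    hR r hr (fun j => by
      fin_cases j
      · exact a0
      · exact a1
      · exact a2) i)
  rcases s2 with s | s | s
  · exact ⟨0, s⟩
  · exact ⟨1, s⟩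
  · exact ⟨2, s⟩

/-- the non trivial values agree -/
theorem main2 (h h' : Fin 3 → ℕ)
    (hc : ∀ i j, i ≠ j → Nat.Coprime (h i) (h j))
    (H1 : ∀ i, h i ≠ 1 → h i ≠ 3 → ∃ j, h i ∣ h' j)
    (H2 : ∀ i, h' i ≠ 1 → h' i ≠ 3 → ∃ j, h' i ∣ h j) (i : Fin 3) (h1 : h i ≠ 1)
    (h3 : h i ≠ 3) : ∃ j, h i = h' j := by
  obtain ⟨j, hj⟩ := H1 i h1 h3
  have j1 : h' j ≠ 1 := fun e => h1 (Nat.dvd_one.1 (e ▸ hj))
  have j3 : h' j ≠ 3 := fun e => by
    rw [e] at hj
    rcases (Nat.dvd_prime Nat.prime_three).1 hj with h6 | h6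
    · exact h1 h6
    · exact h3 h6
  obtain ⟨i', hi'⟩ := H2 j j1 j3
  have : i = i' := by
    by_contra hne
    have h5 := hc i i' hne
    exact h1 (Nat.Coprime.eq_one_of_dvd h5 (hj.trans hi'))
  subst this
  exact ⟨j, Nat.dvd_antisymm hj hi'⟩

theorem inj_on (h : Fin 3 → ℕ) (hc : ∀ i j, i ≠ j → Nat.Coprime (h i) (h j)) :
    Set.InjOn h ((Finset.univ.filter fun i => h i ≠ 1) : Finset (Fin 3)) := by
  intro a ha b _ hab
  by_contra hne
  have h5 := hc a b hne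
  rw [← hab] at h5
  rw [Finset.mem_coe, Finset.mem_filter] at ha
  exact ha.2 ((Nat.coprime_self _).1 h5)

end LemCAux

open LemCAux

theorem lemC {q : ℕ} (hq : Odd q) (h h' : Fin 3 → ℕ) (hd : ∀ i, h i ∣ q) (hd' : ∀ i, h' i ∣ q)
    (hc : ∀ i j, i ≠ j → Nat.Coprime (h i) (h j)) (hc' : ∀ i j, i ≠ j → Nat.Coprime (h' i) (h' j))
    (hsum : ∑ i, h i = ∑ i, h' i)
    (hR : ∀ r : ℤ, IsCoprime r (q : ℤ) → ((∀ i, (h i : ℤ) ∣ r - 1 ∨ (h i : ℤ) ∣ r + 1) ↔
      ∀ i, (h' i : ℤ) ∣ r - 1 ∨ (h' i : ℤ) ∣ r + 1)) :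
    (∀ i, ∃ j, h i = h' j) ∧ ∀ j, ∃ i, h' j = h i := by
  have M1 : ∀ i, h i ≠ 1 → h i ≠ 3 → ∃ j, h i ∣ h' j := fun i =>
    main1 hq h h' hd hd' hc' (fun r hr => (hR r hr).2) i
  have M2 : ∀ i, h' i ≠ 1 → h' i ≠ 3 → ∃ j, h' i ∣ h j := fun i =>
    main1 hq h' h hd' hd hc (fun r hr => (hR r hr).1) i
  have N1 := main2 h h' hc M1 M2
  have N2 := main2 h' h hc' M2 M1
  -- the sets of nontrivial indices
  set A : Finset (Fin 3) := Finset.univ.filter fun i => h i ≠ 1 ∧ h i ≠ 3 with hA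
  set A' : Finset (Fin 3) := Finset.univ.filter fun i => h' i ≠ 1 ∧ h' i ≠ 3 with hA'
  have I1 : Set.InjOn h A := (inj_on h hc).mono (by
    intro x hx
    rw [Finset.mem_coe, hA, Finset.mem_filter] at hx
    rw [Finset.mem_coe, Finset.mem_filter]
    exact ⟨hx.1, hx.2.1⟩)
  have I2 : Set.InjOn h' A' := (inj_on h' hc').mono (by
    intro x hx
    rw [Finset.mem_coe, hA', Finset.mem_filter] at hx
    rw [Finset.mem_coe, Finset.mem_filter]
    exact ⟨hx.1, hx.2.1⟩)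
  have himg : A.image h = A'.image h' := by
    ext x
    rw [Finset.mem_image, Finset.mem_image]
    constructor
    · rintro ⟨i, hi, rfl⟩
      rw [hA, Finset.mem_filter] at hi
      obtain ⟨j, hj⟩ := N1 i hi.2.1 hi.2.2
      refine ⟨j, ?_, hj.symm⟩
      rw [hA', Finset.mem_filter, ← hj]
      exact ⟨Finset.mem_univ _, hi.2⟩
    · rintro ⟨i, hi, rfl⟩
      rw [hA', Finset.mem_filter] at hi
      obtain ⟨j, hj⟩ := N2 i hi.2.1 hi.2.2
      refine ⟨j, ?_, hj.symm⟩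
      rw [hA, Finset.mem_filter, ← hj]
      exact ⟨Finset.mem_univ _, hi.2⟩
  have hcardA : A.card = A'.card := by
    rw [← Finset.card_image_of_injOn I1, himg, Finset.card_image_of_injOn I2]
  have hsumA : ∑ i ∈ A, h i = ∑ i ∈ A', h' i := by
    have e1 : ∑ x ∈ A.image h, x = ∑ i ∈ A, h i := Finset.sum_image I1
    have e2 : ∑ x ∈ A'.image h', x = ∑ i ∈ A', h' i := Finset.sum_image I2
    rw [← e1, ← e2, himg]
  -- decomposition of the sums
  have dec : ∀ f : Fin 3 → ℕ,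
      ∑ i, f i = (∑ i ∈ Finset.univ.filter (fun i => f i ≠ 1 ∧ f i ≠ 3), f i) +
        (Finset.univ.filter fun i => f i = 1).card +
        3 * (Finset.univ.filter fun i => f i = 3).card := by
    intro f
    rw [Finset.sum_filter, Finset.card_filter, Finset.card_filter, Finset.mul_sum,
      ← Finset.sum_add_distrib, ← Finset.sum_add_distrib]
    apply Finset.sum_congr rfl
    intro i _
    by_cases e1 : f i = 1
    · simp [e1]
    · by_cases e3 : f i = 3
      · simp [e3]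
      · simp [e1, e3]
  have dec2 : ∀ f : Fin 3 → ℕ,
      3 = (Finset.univ.filter (fun i => f i ≠ 1 ∧ f i ≠ 3)).card +
        (Finset.univ.filter fun i => f i = 1).card +
        (Finset.univ.filter fun i => f i = 3).card := by
    intro f
    rw [Finset.card_filter, Finset.card_filter, Finset.card_filter,
      ← Finset.sum_add_distrib, ← Finset.sum_add_distrib]
    have e : (3 : ℕ) = ∑ _i : Fin 3, 1 := by simp
    refine e.trans ?_
    apply Finset.sum_congr rfl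
    intro i _
    by_cases e1 : f i = 1
    · simp [e1]
    · by_cases e3 : f i = 3
      · simp [e3]
      · simp [e1, e3]
  have D1 := dec h
  have D1' := dec h'
  have D2 := dec2 h
  have D2' := dec2 h'
  rw [← hA] at D1 D2
  rw [← hA'] at D1' D2'
  have C3 : (Finset.univ.filter fun i => h i = 3).card =
      (Finset.univ.filter fun i => h' i = 3).card := by omega
  have C1 : (Finset.univ.filter fun i => h i = 1).card =
      (Finset.univ.filter fun i => h' i = 1).card := by omega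
  have ex : ∀ (f g : Fin 3 → ℕ) (c : ℕ), (Finset.univ.filter fun i => f i = c).card =
      (Finset.univ.filter fun i => g i = c).card → ∀ i, f i = c → ∃ j, f i = g j := by
    intro f g c hcard i hi
    have h1 : 0 < (Finset.univ.filter fun i => g i = c).card := by
      rw [← hcard]
      exact Finset.card_pos.2 ⟨i, by rw [Finset.mem_filter]; exact ⟨Finset.mem_univ _, hi⟩⟩
    obtain ⟨j, hj⟩ := Finset.card_pos.1 h1
    rw [Finset.mem_filter] at hj
    exact ⟨j, by rw [hi, hj.2]⟩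
  refine ⟨fun i => ?_, fun i => ?_⟩
  · by_cases e1 : h i = 1
    · exact ex h h' 1 C1 i e1
    · by_cases e3 : h i = 3
      · exact ex h h' 3 C3 i e3
      · exact N1 i e1 e3
  · by_cases e1 : h' i = 1
    · exact ex h' h 1 C1.symm i e1
    · by_cases e3 : h' i = 3
      · exact ex h' h 3 C3.symm i e3
      · exact N2 i e1 e3

end Pool.Agent.Iso79
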