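import Pool.Agent.Iso79.Parts
import Pool.Agent.Iso79.LemC

/-!
# The walls are determined by the spectrum

`W_r(j) = wfac q r j (v1-v2) * wfac q r j (v1+2v2) * wfac q r j (2v1+v2)`.

`wall_sum`: for `r` prime to `q` (and `r ≡ 2 mod 3` if `3 ∣ q`) there are infinitely many primes
`k ≡ r mod q`, `k ≡ 2 mod 3` (Dirichlet for the modulus `3 q` or `q`), for which
`Tsum χ q v (3k²) = k³ |Cen| + k ∑_{j wall} W_r(j) + const`, const independent of `k`
(`chi3_scale_central`, `chi3_scale_wall`, `chi3_scale_reg`, `ordj_cases`).  Compare coefficients.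

`wall_amgm`: the set `{j : q ∣ j α(v), ¬ q ∣ 3 j}` (`α` a root) is stable under multiplication by `r`
modulo `q`; on it, with `x(j) = sin²(π j β(v)/q) > 0` (`β` another root;
`j β(v) ≡ ± 3 j v_a mod q`, `a` an index of `α`) `W_r(j) = x(r j)/x(j)`, and the product of these
over the set is `1`.  By AM-GM the sum is at least the number of elements, with equality iff
`x(r j) = x(j)` for all `j` in the set, iff (take `j = q/D`, `D = gcd(α(v), q)`)
`D ∣ 3 (r - 1)` or `D ∣ 3 (r + 1)`.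
The number of elements of the set is `D - gcd(q, 3)`.

`same_walls`: put `D_α = gcd(α(v), q)`, `h_α = D_α / gcd(q,3)` for the three roots; they are pairwise
coprime: if `p^a` divides two root values of `v` then it divides `3 v_1`.  `wall_sum` for `r = -1`
gives `∑ h_α = ∑ h'_α`, `wall_amgm` gives `hR` (for `3 ∣ q` use `r` or `-r`), then `lemC`.
-/

open Complex

noncomputable section

namespace Pool.Agent.Iso79

/-- the product of the wall factors -/
def Wr (q : ℕ) (v1 v2 r : ℤ) (j : ℕ) : ℝ :=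
  wfac q r j (v1 - v2) * wfac q r j (v1 + 2 * v2) * wfac q r j (2 * v1 + v2)

/-- the wall elements -/
def wallSet (q : ℕ) (v1 v2 : ℤ) : Finset ℕ :=
  (Finset.range q).filter fun j => ordj q v1 v2 j = 1


/-! ### Preliminaries -/

namespace WallsAux

/-- `1` on the multiples of `q`, `|sin (π m / q)|` elsewhere -/
def gg (q : ℕ) (m : ℤ) : ℝ := if (q : ℤ) ∣ m then 1 else |Real.sin (Real.pi * m / q)|

theorem sin_ne {q : ℕ} (hq : 0 < q) {m : ℤ} (h : ¬ (q : ℤ) ∣ m) :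
    Real.sin (Real.pi * m / q) ≠ 0 := by
  intro h0
  rw [Real.sin_eq_zero_iff] at h0
  obtain ⟨n, hn⟩ := h0
  apply h
  refine ⟨n, ?_⟩
  have hq' : (q : ℝ) ≠ 0 := by exact_mod_cast hq.ne'
  have hpi := Real.pi_ne_zero
  have h1 : (m : ℝ) = q * n := by
    field_simp at hn
    linarith
  exact_mod_cast h1

theorem gg_pos {q : ℕ} (hq : 0 < q) (m : ℤ) : 0 < gg q m := by
  unfold gg
  split_ifs with h
  · exact one_pos
  · exact abs_pos.2 (sin_ne hq h)

theorem gg_neg (q : ℕ) (m : ℤ) : gg q (-m) = gg q m := by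
  unfold gg
  simp only [Int.dvd_neg]
  split_ifs
  · rfl
  · push_cast
    rw [mul_neg, neg_div, Real.sin_neg, abs_neg]

theorem gg_congr {q : ℕ} (hq : 0 < q) {m m' : ℤ} (h : (q : ℤ) ∣ m - m') :
    gg q m = gg q m' := by
  obtain ⟨t, ht⟩ := h
  have hm : m = m' + q * t := by linarith
  subst hm
  unfold gg
  have h1 : ((q : ℤ) ∣ m' + q * t) ↔ (q : ℤ) ∣ m' := by
    rw [Int.dvd_add_left (dvd_mul_right _ _)]
  simp only [h1]
  split_ifs
  · rfl
  · have hq' : (q : ℝ) ≠ 0 := by exact_mod_cast hq.ne'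
    push_cast
    have : Real.pi * ((m' : ℝ) + q * t) / q = Real.pi * m' / q + t * Real.pi := by
      field_simp
    rw [this, Real.sin_add_int_mul_pi, abs_mul]
    have h2 : |((-1 : ℝ)) ^ t| = 1 := by
      rw [abs_zpow, abs_neg, abs_one, one_zpow]
    rw [h2, one_mul]

theorem gg_eq_iff {q : ℕ} (hq : 0 < q) {m m' : ℤ} (h : ¬ (q : ℤ) ∣ m) (h' : ¬ (q : ℤ) ∣ m') :
    gg q m = gg q m' ↔ (q : ℤ) ∣ m - m' ∨ (q : ℤ) ∣ m + m' := by
  have hq' : (q : ℝ) ≠ 0 := by exact_mod_cast hq.ne'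
  have hpi := Real.pi_ne_zero
  constructor
  · intro he
    unfold gg at he
    rw [if_neg h, if_neg h'] at he
    have h2 : Real.sin (Real.pi * m / q) ^ 2 = Real.sin (Real.pi * m' / q) ^ 2 := by
      rw [← sq_abs, he, sq_abs]
    have h3 : Real.cos (2 * (Real.pi * m / q)) = Real.cos (2 * (Real.pi * m' / q)) := by
      rw [Real.cos_two_mul, Real.cos_two_mul, Real.cos_sq', Real.cos_sq', h2]
    rw [Real.cos_eq_cos_iff] at h3
    obtain ⟨n, hn | hn⟩ := h3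
    · left
      refine ⟨-n, ?_⟩
      have h4 : (m' : ℝ) = n * q + m := by
        field_simp at hn
        linarith
      have h5 : m' = n * q + m := by exact_mod_cast h4
      rw [h5]; ring
    · right
      refine ⟨n, ?_⟩
      have h4 : (m' : ℝ) = n * q - m := by
        field_simp at hn
        linarith
      have h5 : m' = n * q - m := by exact_mod_cast h4
      rw [h5]; ring
  · rintro (h1 | h1)
    · exact gg_congr hq h1
    · rw [← gg_neg q m']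
      exact gg_congr hq (by rwa [sub_neg_eq_add])

theorem dvd_mul_iff {q : ℕ} {r : ℤ} (hr : IsCoprime r (q : ℤ)) (m : ℤ) :
    (q : ℤ) ∣ r * m ↔ (q : ℤ) ∣ m :=
  ⟨fun h => hr.symm.dvd_of_dvd_mul_left h, fun h => h.mul_left r⟩

theorem wfac_eq {q : ℕ} {r : ℤ} (hr : IsCoprime r (q : ℤ)) (j : ℕ) (a : ℤ) :
    wfac q r j a = gg q (r * (j * a)) / gg q (j * a) := by
  unfold wfac gg
  simp only [dvd_mul_iff hr]
  split_ifs
  · simp
  · push_cast
    rfl

/-- the product over the three roots -/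
def Xf (q : ℕ) (v1 v2 m : ℤ) : ℝ :=
  gg q (m * (v1 - v2)) * gg q (m * (v1 + 2 * v2)) * gg q (m * (2 * v1 + v2))

theorem Xf_pos {q : ℕ} (hq : 0 < q) (v1 v2 m : ℤ) : 0 < Xf q v1 v2 m :=
  mul_pos (mul_pos (gg_pos hq _) (gg_pos hq _)) (gg_pos hq _)

theorem Wr_eq {q : ℕ} {r : ℤ} (hr : IsCoprime r (q : ℤ)) (v1 v2 : ℤ) (j : ℕ) :
    Wr q v1 v2 r j = Xf q v1 v2 (r * j) / Xf q v1 v2 j := by
  unfold Wr Xf
  rw [wfac_eq hr, wfac_eq hr, wfac_eq hr, mul_assoc r, mul_assoc r, mul_assoc r]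
  ring

theorem Xf_congr {q : ℕ} (hq : 0 < q) (v1 v2 : ℤ) {m m' : ℤ} (h : (q : ℤ) ∣ m - m') :
    Xf q v1 v2 m = Xf q v1 v2 m' := by
  unfold Xf
  rw [gg_congr hq (m := m * (v1 - v2)) (m' := m' * (v1 - v2)),
    gg_congr hq (m := m * (v1 + 2 * v2)) (m' := m' * (v1 + 2 * v2)),
    gg_congr hq (m := m * (2 * v1 + v2)) (m' := m' * (2 * v1 + v2))]
  · rw [← sub_mul]; exact h.mul_right _
  · rw [← sub_mul]; exact h.mul_right _
  · rw [← sub_mul]; exact h.mul_right _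

theorem not_three_dvd {q : ℕ} (h3 : 3 ∣ q) {v : ℤ} (h : IsCoprime v (q : ℤ)) : ¬ (3 : ℤ) ∣ v := by
  intro h1
  have h2 : (3 : ℤ) ∣ q := by exact_mod_cast h3
  have h4 := h.isUnit_of_dvd' h1 h2
  rw [Int.isUnit_iff] at h4
  omega

theorem dvd_of_three_mul {q : ℕ} {v1 v2 : ℤ} (hA : Adm q v1 v2) {j : ℤ} (h : (q : ℤ) ∣ 3 * j) :
    (q : ℤ) ∣ j * (v1 - v2) ∧ (q : ℤ) ∣ j * (v1 + 2 * v2) ∧ (q : ℤ) ∣ j * (2 * v1 + v2) := by
  by_cases h3 : 3 ∣ q
  · have n1 := not_three_dvd h3 hA.c1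
    have n2 := not_three_dvd h3 hA.c2
    have n3 := not_three_dvd h3 hA.c3
    have m1 : v1 % 3 = 1 ∨ v1 % 3 = 2 := by omega
    have m2 : v2 % 3 = 1 ∨ v2 % 3 = 2 := by omega
    have m3 : v1 % 3 = v2 % 3 := by
      rcases m1 with m1 | m1 <;> rcases m2 with m2 | m2 <;> omega
    obtain ⟨t1, ht1⟩ : (3 : ℤ) ∣ v1 - v2 := by omega
    obtain ⟨t2, ht2⟩ : (3 : ℤ) ∣ v1 + 2 * v2 := by omega
    obtain ⟨t3, ht3⟩ : (3 : ℤ) ∣ 2 * v1 + v2 := by omega
    rw [ht1, ht2, ht3]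
    refine ⟨?_, ?_, ?_⟩
    · have : j * (3 * t1) = 3 * j * t1 := by ring
      rw [this]; exact h.mul_right _
    · have : j * (3 * t2) = 3 * j * t2 := by ring
      rw [this]; exact h.mul_right _
    · have : j * (3 * t3) = 3 * j * t3 := by ring
      rw [this]; exact h.mul_right _
  · have hc : IsCoprime (q : ℤ) 3 := by
      rw [Int.isCoprime_iff_gcd_eq_one]
      have : Nat.Coprime q 3 := ((Nat.Prime.coprime_iff_not_dvd Nat.prime_three).2 h3).symm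
      exact this
    have hj := hc.dvd_of_dvd_mul_left h
    exact ⟨hj.mul_right _, hj.mul_right _, hj.mul_right _⟩

theorem dvd_three {q : ℕ} {v j : ℤ} (hv : IsCoprime v (q : ℤ)) (h : (q : ℤ) ∣ 3 * j * v) :
    (q : ℤ) ∣ 3 * j := hv.symm.dvd_of_dvd_mul_right h

theorem ordj_three_iff {q : ℕ} {v1 v2 : ℤ} (hA : Adm q v1 v2) (j : ℕ) :
    ordj q v1 v2 j = 3 ↔ (q : ℤ) ∣ 3 * (j : ℤ) := by
  constructor
  · intro h
    unfold ordj at h
    have h1 : (q : ℤ) ∣ j * (v1 - v2) := by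
      by_contra hn
      rw [if_neg hn] at h
      split_ifs at h <;> omega
    have h3 : (q : ℤ) ∣ j * (2 * v1 + v2) := by
      by_contra hn
      rw [if_neg hn] at h
      split_ifs at h <;> omega
    apply dvd_three hA.c1
    have : 3 * (j : ℤ) * v1 = j * (v1 - v2) + j * (2 * v1 + v2) := by ring
    rw [this]
    exact dvd_add h1 h3
  · intro h
    obtain ⟨h1, h2, h3⟩ := dvd_of_three_mul hA h
    unfold ordj
    rw [if_pos h1, if_pos h2, if_pos h3]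

theorem ordj_one_iff {q : ℕ} {v1 v2 : ℤ} (hA : Adm q v1 v2) (j : ℕ) :
    ordj q v1 v2 j = 1 ↔ ¬ (q : ℤ) ∣ 3 * (j : ℤ) ∧ ((q : ℤ) ∣ j * (v1 - v2) ∨
      (q : ℤ) ∣ j * (v1 + 2 * v2) ∨ (q : ℤ) ∣ j * (2 * v1 + v2)) := by
  constructor
  · intro h
    refine ⟨fun h3 => ?_, ?_⟩
    · rw [← ordj_three_iff hA] at h3
      omega
    · by_contra hn
      rw [not_or, not_or] at hn
      unfold ordj at h
      rw [if_neg hn.1, if_neg hn.2.1, if_neg hn.2.2] at h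
      omega
  · rintro ⟨h3, h⟩
    rcases ordj_cases hA j with h0 | h1 | h2
    · exfalso
      unfold ordj at h0
      rcases h with h | h | h
      · rw [if_pos h] at h0; omega
      · rw [if_pos h] at h0; omega
      · rw [if_pos h] at h0; omega
    · exact h1
    · exact absurd ((ordj_three_iff hA j).1 h2) h3

/-- multiplication by `r` modulo `q` -/
def sg (q : ℕ) (r : ℤ) (j : ℕ) : ℕ := ((r * j) % (q : ℤ)).toNat

theorem sg_cast {q : ℕ} (hq : 0 < q) (r : ℤ) (j : ℕ) : ((sg q r j : ℕ) : ℤ) = (r * j) % (q : ℤ) := by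
  unfold sg
  rw [Int.toNat_of_nonneg]
  exact Int.emod_nonneg _ (by exact_mod_cast hq.ne')

theorem sg_lt {q : ℕ} (hq : 0 < q) (r : ℤ) (j : ℕ) : sg q r j < q := by
  have h := Int.emod_lt_of_pos (r * j) (by exact_mod_cast hq : (0 : ℤ) < q)
  rw [← sg_cast hq] at h
  exact_mod_cast h

theorem sg_dvd {q : ℕ} (hq : 0 < q) (r : ℤ) (j : ℕ) : (q : ℤ) ∣ r * j - (sg q r j : ℤ) := by
  rw [sg_cast hq]
  exact Int.dvd_self_sub_emod

theorem dvd_sg_iff {q : ℕ} (hq : 0 < q) {r : ℤ} (hr : IsCoprime r (q : ℤ)) (j : ℕ) (a : ℤ) :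
    (q : ℤ) ∣ (sg q r j : ℤ) * a ↔ (q : ℤ) ∣ j * a := by
  rw [← dvd_mul_iff hr (j * a)]
  have h := (sg_dvd hq r j).mul_right a
  rw [sub_mul, mul_assoc] at h
  constructor
  · intro h1
    have := dvd_add h h1
    rwa [sub_add_cancel] at this
  · intro h1
    have := dvd_sub h1 h
    rwa [sub_sub_cancel] at this

theorem ordj_sg {q : ℕ} (hq : 0 < q) {r : ℤ} (hr : IsCoprime r (q : ℤ)) (v1 v2 : ℤ) (j : ℕ) :
    ordj q v1 v2 (sg q r j) = ordj q v1 v2 j := by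
  unfold ordj
  simp only [dvd_sg_iff hq hr]

theorem sg_inj {q : ℕ} (hq : 0 < q) {r : ℤ} (hr : IsCoprime r (q : ℤ)) {j j' : ℕ}
    (hj : j < q) (hj' : j' < q) (h : sg q r j = sg q r j') : j = j' := by
  have h1 := sg_dvd hq r j
  have h2 := sg_dvd hq r j'
  rw [h] at h1
  have h3 := dvd_sub h1 h2
  rw [sub_sub_sub_cancel_right, ← mul_sub, dvd_mul_iff hr] at h3
  have h4 : (j : ℤ) - j' = 0 := by
    apply Int.eq_zero_of_abs_lt_dvd h3
    rw [abs_lt]
    constructor <;> omega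
  omega

theorem image_sg {q : ℕ} (hq : 0 < q) {r : ℤ} (hr : IsCoprime r (q : ℤ)) (v1 v2 : ℤ) :
    (wallSet q v1 v2).image (sg q r) = wallSet q v1 v2 := by
  apply Finset.eq_of_subset_of_card_le
  · intro x hx
    rw [Finset.mem_image] at hx
    obtain ⟨j, hj, rfl⟩ := hx
    unfold wallSet at hj ⊢
    rw [Finset.mem_filter, Finset.mem_range] at hj ⊢
    exact ⟨sg_lt hq r j, by rw [ordj_sg hq hr]; exact hj.2⟩
  · rw [Finset.card_image_of_injOn]
    intro a ha b hb hab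
    have ha' := Finset.mem_coe.1 ha
    have hb' := Finset.mem_coe.1 hb
    unfold wallSet at ha' hb'
    rw [Finset.mem_filter, Finset.mem_range] at ha' hb'
    exact sg_inj hq hr ha'.1 hb'.1 hab

theorem prod_Wr {q : ℕ} (hq : 0 < q) {r : ℤ} (hr : IsCoprime r (q : ℤ)) (v1 v2 : ℤ) :
    ∏ j ∈ wallSet q v1 v2, Wr q v1 v2 r j = 1 := by
  have h1 : ∏ j ∈ wallSet q v1 v2, Xf q v1 v2 (r * j) = ∏ j ∈ wallSet q v1 v2, Xf q v1 v2 j := by
    have h2 : ∏ j ∈ wallSet q v1 v2, Xf q v1 v2 (r * j) =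
        ∏ j ∈ wallSet q v1 v2, Xf q v1 v2 (sg q r j : ℕ) :=
      Finset.prod_congr rfl fun j _ => Xf_congr hq v1 v2 (sg_dvd hq r j)
    rw [h2]
    have h3 : ∏ j ∈ (wallSet q v1 v2).image (sg q r), Xf q v1 v2 (j : ℕ) =
        ∏ j ∈ wallSet q v1 v2, Xf q v1 v2 (sg q r j : ℕ) := by
      rw [Finset.prod_image]
      intro a ha b hb hab
      unfold wallSet at ha hb
      rw [Finset.mem_coe, Finset.mem_filter, Finset.mem_range] at ha hb
      exact sg_inj hq hr ha.1 hb.1 hab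
    rw [← h3, image_sg hq hr]
  have h4 : ∏ j ∈ wallSet q v1 v2, Wr q v1 v2 r j =
      (∏ j ∈ wallSet q v1 v2, Xf q v1 v2 (r * j)) / ∏ j ∈ wallSet q v1 v2, Xf q v1 v2 j := by
    rw [← Finset.prod_div_distrib]
    exact Finset.prod_congr rfl fun j _ => Wr_eq hr v1 v2 j
  rw [h4, h1, div_self]
  exact (Finset.prod_pos fun j _ => Xf_pos hq _ _ _).ne'

theorem Wr_pos {q : ℕ} (hq : 0 < q) {r : ℤ} (hr : IsCoprime r (q : ℤ)) (v1 v2 : ℤ) (j : ℕ) :
    0 < Wr q v1 v2 r j := by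
  rw [Wr_eq hr]
  exact div_pos (Xf_pos hq _ _ _) (Xf_pos hq _ _ _)

theorem amgm {ι : Type*} (s : Finset ι) (y : ι → ℝ) (hy : ∀ j ∈ s, 0 < y j)
    (hp : ∏ j ∈ s, y j = 1) :
    (s.card : ℝ) ≤ ∑ j ∈ s, y j ∧ (∑ j ∈ s, y j = s.card ↔ ∀ j ∈ s, y j = 1) := by
  have h0 : ∑ j ∈ s, Real.log (y j) = 0 := by
    rw [← Real.log_prod (fun j hj => (hy j hj).ne'), hp, Real.log_one]
  have h1 : ∑ j ∈ s, (y j - 1 - Real.log (y j)) = ∑ j ∈ s, y j - s.card := by
    rw [Finset.sum_sub_distrib, Finset.sum_sub_distrib, h0]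
    simp
  have h2 : ∀ j ∈ s, 0 ≤ y j - 1 - Real.log (y j) := fun j hj => by
    have := Real.log_le_sub_one_of_pos (hy j hj)
    linarith
  have h3 := Finset.sum_nonneg h2
  refine ⟨by linarith, ?_, ?_⟩
  · intro h
    have h4 : ∑ j ∈ s, (y j - 1 - Real.log (y j)) = 0 := by rw [h1, h, sub_self]
    rw [Finset.sum_eq_zero_iff_of_nonneg h2] at h4
    intro j hj
    by_contra hne
    have := Real.log_lt_sub_one_of_pos (hy j hj) hne
    have := h4 j hj
    linarith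
  · intro h
    rw [Finset.sum_congr rfl h]
    simp

theorem gg_dvd {q : ℕ} {m : ℤ} (h : (q : ℤ) ∣ m) : gg q m = 1 := by
  unfold gg
  rw [if_pos h]

theorem core {q : ℕ} (hq : 0 < q) {r : ℤ} (hr : IsCoprime r (q : ℤ)) {m : ℤ}
    (h : ¬ (q : ℤ) ∣ m) : gg q (r * m) / gg q m * (gg q (r * m) / gg q m) = 1 ↔
      (q : ℤ) ∣ m * (r - 1) ∨ (q : ℤ) ∣ m * (r + 1) := by
  have h1 : ¬ (q : ℤ) ∣ r * m := fun h2 => h ((dvd_mul_iff hr m).1 h2)
  have h2 := gg_eq_iff hq h1 h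
  have e1 : r * m - m = m * (r - 1) := by ring
  have e2 : r * m + m = m * (r + 1) := by ring
  rw [e1, e2] at h2
  rw [← h2]
  have p1 := gg_pos hq (r * m)
  have p2 := gg_pos hq m
  constructor
  · intro h3
    have h4 : gg q (r * m) / gg q m = 1 := by
      have h5 : (gg q (r * m) / gg q m) * (gg q (r * m) / gg q m) = 1 * 1 := by rw [h3, one_mul]
      exact (mul_self_inj (div_pos p1 p2).le zero_le_one).1 h5
    exact (div_eq_one_iff_eq p2.ne').1 h4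
  · intro h3
    rw [h3, div_self p2.ne', one_mul]

theorem cop_iff {q : ℕ} {v : ℤ} (hv : IsCoprime v (q : ℤ)) (j s : ℤ) {m : ℤ}
    (h : (q : ℤ) ∣ m - 3 * j * v ∨ (q : ℤ) ∣ m + 3 * j * v) :
    (q : ℤ) ∣ m * s ↔ (q : ℤ) ∣ 3 * j * s := by
  have h1 : (q : ℤ) ∣ 3 * j * v * s ↔ (q : ℤ) ∣ 3 * j * s := by
    have e : 3 * j * v * s = v * (3 * j * s) := by ring
    rw [e, dvd_mul_iff hv]
  rw [← h1]
  rcases h with h | h
  · have h2 := h.mul_right s
    rw [sub_mul] at h2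
    constructor
    · intro h3
      have := dvd_sub h3 h2
      rwa [sub_sub_cancel] at this
    · intro h3
      have := dvd_add h2 h3
      rwa [sub_add_cancel] at this
  · have h2 := h.mul_right s
    rw [add_mul] at h2
    constructor
    · intro h3
      have := dvd_sub h2 h3
      rwa [add_sub_cancel_left] at this
    · intro h3
      have := dvd_sub h2 h3
      rwa [add_sub_cancel_right] at this

theorem Wr_eq_one_iff {q : ℕ} {v1 v2 : ℤ} (hA : Adm q v1 v2) {r : ℤ} (hr : IsCoprime r (q : ℤ))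
    {j : ℕ} (hj : ordj q v1 v2 j = 1) :
    Wr q v1 v2 r j = 1 ↔ (q : ℤ) ∣ 3 * j * (r - 1) ∨ (q : ℤ) ∣ 3 * j * (r + 1) := by
  have hq := hA.pos
  rw [ordj_one_iff hA] at hj
  obtain ⟨hn, hj⟩ := hj
  unfold Wr
  rw [wfac_eq hr, wfac_eq hr, wfac_eq hr]
  rcases hj with h | h | h
  · -- `m = j (2 v1 + v2)`
    have c1 : gg q (j * (v1 + 2 * v2)) = gg q (j * (2 * v1 + v2)) := by
      rw [← gg_congr hq]
      have : (j : ℤ) * (2 * v1 + v2) - j * (v1 + 2 * v2) = j * (v1 - v2) := by ring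
      rw [this]; exact h
    have c2 : gg q (r * (j * (v1 + 2 * v2))) = gg q (r * (j * (2 * v1 + v2))) := by
      rw [← gg_congr hq]
      have : r * ((j : ℤ) * (2 * v1 + v2)) - r * (j * (v1 + 2 * v2)) = r * (j * (v1 - v2)) := by
        ring
      rw [this]; exact h.mul_left r
    have c3 : (q : ℤ) ∣ j * (2 * v1 + v2) - 3 * j * v1 := by
      have : (j : ℤ) * (2 * v1 + v2) - 3 * j * v1 = -(j * (v1 - v2)) := by ring
      rw [this]; exact (Int.dvd_neg).2 h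
    have c4 : ¬ (q : ℤ) ∣ j * (2 * v1 + v2) := fun h4 => hn (dvd_three hA.c1 (by
      have := dvd_sub h4 c3
      rwa [sub_sub_cancel] at this))
    rw [gg_dvd h, gg_dvd (h.mul_left r), c1, c2, div_one, one_mul, core hq hr c4,
      cop_iff hA.c1 j (r - 1) (Or.inl c3), cop_iff hA.c1 j (r + 1) (Or.inl c3)]
  · -- `m = j (v1 - v2)`
    have c1 : gg q (j * (2 * v1 + v2)) = gg q (j * (v1 - v2)) := by
      apply gg_congr hq
      have : (j : ℤ) * (2 * v1 + v2) - j * (v1 - v2) = j * (v1 + 2 * v2) := by ring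
      rw [this]; exact h
    have c2 : gg q (r * (j * (2 * v1 + v2))) = gg q (r * (j * (v1 - v2))) := by
      apply gg_congr hq
      have : r * ((j : ℤ) * (2 * v1 + v2)) - r * (j * (v1 - v2)) = r * (j * (v1 + 2 * v2)) := by
        ring
      rw [this]; exact h.mul_left r
    have c3 : (q : ℤ) ∣ j * (v1 - v2) + 3 * j * v2 := by
      have : (j : ℤ) * (v1 - v2) + 3 * j * v2 = j * (v1 + 2 * v2) := by ring
      rw [this]; exact h
    have c4 : ¬ (q : ℤ) ∣ j * (v1 - v2) := fun h4 => hn (dvd_three hA.c2 (by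
      have := dvd_sub c3 h4
      rwa [add_sub_cancel_left] at this))
    rw [gg_dvd h, gg_dvd (h.mul_left r), c1, c2, div_one, mul_one, core hq hr c4,
      cop_iff hA.c2 j (r - 1) (Or.inr c3), cop_iff hA.c2 j (r + 1) (Or.inr c3)]
  · -- `m = j (v1 - v2)`
    have c1 : gg q (j * (v1 + 2 * v2)) = gg q (j * (v1 - v2)) := by
      rw [← gg_neg q (j * (v1 - v2))]
      apply gg_congr hq
      have : (j : ℤ) * (v1 + 2 * v2) - -(j * (v1 - v2)) = j * (2 * v1 + v2) := by ring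
      rw [this]; exact h
    have c2 : gg q (r * (j * (v1 + 2 * v2))) = gg q (r * (j * (v1 - v2))) := by
      rw [← gg_neg q (r * (j * (v1 - v2)))]
      apply gg_congr hq
      have : r * ((j : ℤ) * (v1 + 2 * v2)) - -(r * (j * (v1 - v2))) = r * (j * (2 * v1 + v2)) := by
        ring
      rw [this]; exact h.mul_left r
    have c3 : (q : ℤ) ∣ j * (v1 - v2) - 3 * j * v1 := by
      have : (j : ℤ) * (v1 - v2) - 3 * j * v1 = -(j * (2 * v1 + v2)) := by ring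
      rw [this]; exact (Int.dvd_neg).2 h
    have c4 : ¬ (q : ℤ) ∣ j * (v1 - v2) := fun h4 => hn (dvd_three hA.c1 (by
      have := dvd_sub h4 c3
      rwa [sub_sub_cancel] at this))
    rw [gg_dvd h, gg_dvd (h.mul_left r), c1, c2, div_one, mul_one, core hq hr c4,
      cop_iff hA.c1 j (r - 1) (Or.inl c3), cop_iff hA.c1 j (r + 1) (Or.inl c3)]

theorem dvd_mul_gcd {q : ℕ} {j a : ℤ} (h : (q : ℤ) ∣ j * a) : (q : ℤ) ∣ j * (Int.gcd a q : ℤ) := by
  rw [Int.gcd_eq_gcd_ab]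
  have e : j * (a * Int.gcdA a q + q * Int.gcdB a q) =
      j * a * Int.gcdA a q + q * (j * Int.gcdB a q) := by ring
  rw [e]
  exact dvd_add (h.mul_right _) (dvd_mul_right _ _)

theorem all_iff {q : ℕ} {v1 v2 : ℤ} (hA : Adm q v1 v2) (r : ℤ) :
    (∀ j ∈ wallSet q v1 v2, (q : ℤ) ∣ 3 * j * (r - 1) ∨ (q : ℤ) ∣ 3 * j * (r + 1)) ↔
      ∀ a ∈ [v1 - v2, v1 + 2 * v2, 2 * v1 + v2],
        ((Int.gcd a q : ℤ) ∣ 3 * (r - 1) ∨ (Int.gcd a q : ℤ) ∣ 3 * (r + 1)) := by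
  have hq := hA.pos
  have hroot : ∀ a ∈ [v1 - v2, v1 + 2 * v2, 2 * v1 + v2], ∀ j : ℕ, (q : ℤ) ∣ j * a →
      ((q : ℤ) ∣ j * (v1 - v2) ∨ (q : ℤ) ∣ j * (v1 + 2 * v2) ∨ (q : ℤ) ∣ j * (2 * v1 + v2)) := by
    intro a ha j hja
    simp only [List.mem_cons, List.not_mem_nil, or_false] at ha
    rcases ha with rfl | rfl | rfl
    · exact Or.inl hja
    · exact Or.inr (Or.inl hja)
    · exact Or.inr (Or.inr hja)
  constructor
  · intro H a ha
    by_cases h3 : (Int.gcd a q : ℤ) ∣ 3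
    · exact Or.inl (h3.mul_right _)
    · obtain ⟨e, he⟩ := (Int.gcd_dvd_right a (q : ℤ) : ((Int.gcd a q : ℕ) : ℤ) ∣ q)
      have hD0 : 0 < Int.gcd a q := Int.gcd_pos_of_ne_zero_right _ (by exact_mod_cast hq.ne')
      have hD1 : Int.gcd a q ≠ 1 := by
        intro h1
        rw [h1] at h3
        exact h3 (by norm_num)
      have he0 : 0 < e := by
        by_contra hcon
        have h5 : (Int.gcd a q : ℤ) * e ≤ 0 :=
          mul_nonpos_of_nonneg_of_nonpos (by positivity) (by omega)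
        rw [← he] at h5
        have : (0 : ℤ) < q := by exact_mod_cast hq
        omega
      obtain ⟨e', rfl⟩ : ∃ e' : ℕ, e = e' := ⟨e.toNat, by rw [Int.toNat_of_nonneg he0.le]⟩
      have heq : q = Int.gcd a q * e' := by exact_mod_cast he
      have hlt : e' < q := by
        have h6 : 2 ≤ Int.gcd a q := by omega
        have h7 : 0 < e' := by exact_mod_cast he0
        calc e' < 2 * e' := by omega
          _ ≤ Int.gcd a q * e' := Nat.mul_le_mul_right _ h6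
          _ = q := heq.symm
      have hea : (q : ℤ) ∣ e' * a := by
        rw [he, mul_comm]
        exact mul_dvd_mul_left _ (Int.gcd_dvd_left a (q : ℤ))
      have hcancel : ∀ t : ℤ, (q : ℤ) ∣ e' * t → (Int.gcd a q : ℤ) ∣ t := by
        intro t ht
        rw [he, mul_comm] at ht
        exact (mul_dvd_mul_iff_left he0.ne').1 ht
      have hmem : e' ∈ wallSet q v1 v2 := by
        unfold wallSet
        rw [Finset.mem_filter, Finset.mem_range, ordj_one_iff hA]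
        refine ⟨hlt, fun h7 => h3 (hcancel 3 (by rwa [mul_comm])), hroot a ha e' hea⟩
      rcases H e' hmem with h8 | h8
      · left
        apply hcancel
        have e3 : (e' : ℤ) * (3 * (r - 1)) = 3 * e' * (r - 1) := by ring
        rw [e3]; exact h8
      · right
        apply hcancel
        have e3 : (e' : ℤ) * (3 * (r + 1)) = 3 * e' * (r + 1) := by ring
        rw [e3]; exact h8
  · intro H j hj
    unfold wallSet at hj
    rw [Finset.mem_filter, ordj_one_iff hA] at hj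
    obtain ⟨_, _, hj⟩ := hj
    have key : ∀ a ∈ [v1 - v2, v1 + 2 * v2, 2 * v1 + v2], (q : ℤ) ∣ j * a →
        ((q : ℤ) ∣ 3 * j * (r - 1) ∨ (q : ℤ) ∣ 3 * j * (r + 1)) := by
      intro a ha hja
      have h1 := dvd_mul_gcd hja
      rcases H a ha with h2 | h2
      · left
        have := h1.trans (mul_dvd_mul_left (j : ℤ) h2)
        have e3 : (j : ℤ) * (3 * (r - 1)) = 3 * j * (r - 1) := by ring
        rwa [e3] at this
      · right
        have := h1.trans (mul_dvd_mul_left (j : ℤ) h2)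
        have e3 : (j : ℤ) * (3 * (r + 1)) = 3 * j * (r + 1) := by ring
        rwa [e3] at this
    rcases hj with h | h | h
    · exact key _ (by simp) h
    · exact key _ (by simp) h
    · exact key _ (by simp) h

/-- number of `j < q` with `q ∣ j a` -/
theorem card_dvd {q : ℕ} (hq : 0 < q) (a : ℤ) :
    ((Finset.range q).filter fun j : ℕ => (q : ℤ) ∣ j * a).card = Int.gcd a q := by
  obtain ⟨e, he⟩ := (Int.gcd_dvd_right a (q : ℤ) : ((Int.gcd a q : ℕ) : ℤ) ∣ q)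
  have hD0 : 0 < Int.gcd a q := Int.gcd_pos_of_ne_zero_right _ (by exact_mod_cast hq.ne')
  have he0 : 0 < e := by
    by_contra hcon
    have h5 : (Int.gcd a q : ℤ) * e ≤ 0 :=
      mul_nonpos_of_nonneg_of_nonpos (by positivity) (by omega)
    rw [← he] at h5
    have : (0 : ℤ) < q := by exact_mod_cast hq
    omega
  obtain ⟨e', rfl⟩ : ∃ e' : ℕ, e = e' := ⟨e.toNat, by rw [Int.toNat_of_nonneg he0.le]⟩
  have he0' : 0 < e' := by exact_mod_cast he0
  have heq : q = Int.gcd a q * e' := by exact_mod_cast he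
  have himg : ((Finset.range q).filter fun j : ℕ => (q : ℤ) ∣ j * a) =
      (Finset.range (Int.gcd a q)).image (fun t => t * e') := by
    ext j
    rw [Finset.mem_filter, Finset.mem_range, Finset.mem_image]
    constructor
    · rintro ⟨hj, hja⟩
      have h1 := dvd_mul_gcd hja
      have h2 : (e' : ℤ) ∣ j := by
        have hne : (Int.gcd a q : ℤ) ≠ 0 := by exact_mod_cast hD0.ne'
        have h3 : (e' : ℤ) * (Int.gcd a q : ℤ) ∣ j * (Int.gcd a q : ℤ) := by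
          have h4 : (e' : ℤ) * (Int.gcd a q : ℤ) = q := by rw [mul_comm]; exact he.symm
          rw [h4]
          exact h1
        exact (mul_dvd_mul_iff_right hne).1 h3
      have h3 : e' ∣ j := by exact_mod_cast h2
      obtain ⟨t, rfl⟩ := h3
      refine ⟨t, ?_, by ring⟩
      rw [Finset.mem_range]
      by_contra hcon
      rw [not_lt] at hcon
      have : q ≤ e' * t := by
        calc q = Int.gcd a q * e' := heq
          _ ≤ t * e' := Nat.mul_le_mul_right _ hcon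
          _ = e' * t := mul_comm _ _
      omega
    · rintro ⟨t, ht, rfl⟩
      rw [Finset.mem_range] at ht
      refine ⟨?_, ?_⟩
      · calc t * e' < Int.gcd a q * e' := Nat.mul_lt_mul_of_pos_right ht he0'
          _ = q := heq.symm
      · obtain ⟨a', ha'⟩ := Int.gcd_dvd_left a (q : ℤ)
        refine ⟨t * a', ?_⟩
        have h9 : ((t * e' : ℕ) : ℤ) * a = t * e' * ((Int.gcd a q : ℤ) * a') := by
          rw [← ha']; push_cast; ring
        rw [h9]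
        conv_rhs => rw [he]
        ring
  rw [himg, Finset.card_image_of_injective, Finset.card_range]
  intro x y hxy
  exact Nat.eq_of_mul_eq_mul_right he0' hxy

theorem card_cen {q : ℕ} {v1 v2 : ℤ} (hA : Adm q v1 v2) :
    ((Finset.range q).filter fun j => ordj q v1 v2 j = 3).card = Nat.gcd q 3 := by
  have h : ((Finset.range q).filter fun j => ordj q v1 v2 j = 3) =
      (Finset.range q).filter fun j : ℕ => (q : ℤ) ∣ j * 3 := by
    apply Finset.filter_congr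
    intro j _
    rw [ordj_three_iff hA, mul_comm]
  rw [h, card_dvd hA.pos, Int.gcd_comm]
  rfl

theorem exists_prime {q : ℕ} (hq : 0 < q) {r : ℤ} (hr : IsCoprime r (q : ℤ))
    (hr3 : 3 ∣ q → r % 3 = 2) (n : ℕ) :
    ∃ k > n, k.Prime ∧ k % 3 = 2 ∧ (q : ℤ) ∣ k - r := by
  by_cases h3 : 3 ∣ q
  · have : NeZero q := ⟨hq.ne'⟩
    have hu : IsUnit (r : ZMod q) := (ZMod.coe_int_isUnit_iff_isCoprime r q).2 hr.symm
    obtain ⟨p, hp, hpp, hpr⟩ := Nat.forall_exists_prime_gt_and_eq_mod hu n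
    have h1 : (q : ℤ) ∣ p - r := by
      have h2 : ((r : ℤ) : ZMod q) = ((p : ℤ) : ZMod q) := by
        rw [← hpr]; push_cast; rfl
      exact (ZMod.intCast_eq_intCast_iff_dvd_sub r p q).1 h2
    refine ⟨p, hp, hpp, ?_, h1⟩
    have h4 : (3 : ℤ) ∣ p - r := (by exact_mod_cast h3 : (3 : ℤ) ∣ q).trans h1
    have h5 := hr3 h3
    omega
  · have hc : IsCoprime (q : ℤ) 3 := by
      rw [Int.isCoprime_iff_gcd_eq_one]
      have : Nat.Coprime q 3 := ((Nat.Prime.coprime_iff_not_dvd Nat.prime_three).2 h3).symm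
      exact this
    obtain ⟨x, y, hxy⟩ := hc
    let r' : ℤ := r * (y * 3) + 2 * (x * q)
    have e1 : r' - r = q * (2 * x - r * x) := by
      have h1 : y * 3 = 1 - x * q := by linarith
      simp only [r', h1]
      ring
    have e2 : r' - 2 = 3 * (r * y - 2 * y) := by
      have h1 : x * q = 1 - y * 3 := by linarith
      simp only [r', h1]
      ring
    have hcr : IsCoprime r' (q : ℤ) := by
      have : r' = r + q * (2 * x - r * x) := by linarith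
      rw [this]
      exact hr.add_mul_left_left _
    have hc3 : IsCoprime r' 3 := by
      have : r' = 2 + 3 * (r * y - 2 * y) := by linarith
      rw [this]
      exact IsCoprime.add_mul_left_left (by norm_num) _
    have hcc : IsCoprime r' ((3 * q : ℕ) : ℤ) := by
      push_cast
      exact hc3.mul_right hcr
    have : NeZero (3 * q) := ⟨by omega⟩
    have hu : IsUnit (r' : ZMod (3 * q)) :=
      (ZMod.coe_int_isUnit_iff_isCoprime r' (3 * q)).2 hcc.symm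
    obtain ⟨p, hp, hpp, hpr⟩ := Nat.forall_exists_prime_gt_and_eq_mod hu n
    have h1 : ((3 * q : ℕ) : ℤ) ∣ p - r' := by
      have h2 : ((r' : ℤ) : ZMod (3 * q)) = ((p : ℤ) : ZMod (3 * q)) := by
        rw [← hpr]; push_cast; rfl
      exact (ZMod.intCast_eq_intCast_iff_dvd_sub r' p (3 * q)).1 h2
    push_cast at h1
    refine ⟨p, hp, hpp, ?_, ?_⟩
    · have h4 : (3 : ℤ) ∣ p - r' := (dvd_mul_right _ _).trans h1
      have h5 : (3 : ℤ) ∣ r' - 2 := ⟨_, e2⟩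
      omega
    · have h4 : (q : ℤ) ∣ p - r' := (dvd_mul_left _ _).trans h1
      have h5 : (q : ℤ) ∣ r' - r := ⟨_, e1⟩
      have := dvd_add h4 h5
      rwa [sub_add_sub_cancel] at this

theorem Tsum_eq {χ : ℕ → ℝ → ℝ → ℂ} {q : ℕ} {v1 v2 : ℤ} (hA : Adm q v1 v2) (N : ℕ) :
    Tsum χ q v1 v2 N = Tpart χ q v1 v2 0 N + Tpart χ q v1 v2 1 N + Tpart χ q v1 v2 3 N := by
  unfold Tsum Tpart
  rw [Finset.sum_filter, Finset.sum_filter, Finset.sum_filter, ← Finset.sum_add_distrib,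
    ← Finset.sum_add_distrib]
  apply Finset.sum_congr rfl
  intro j _
  rcases ordj_cases hA j with h | h | h <;> rw [h] <;> simp

theorem Tsum_scale {χ : ℕ → ℝ → ℝ → ℂ} (H : IsChi χ) {q : ℕ} {v1 v2 : ℤ} (hA : Adm q v1 v2)
    {k : ℕ} (hk : k.Prime) (hk3 : k % 3 = 2) (hk2 : k ≠ 2) {r : ℤ} (hr : IsCoprime r (q : ℤ))
    (hkr : (q : ℤ) ∣ k - r) :
    Tsum χ q v1 v2 (3 * k ^ 2) = Tpart χ q v1 v2 0 (3 * k ^ 2) +
      (((k : ℝ) * ∑ j ∈ wallSet q v1 v2, Wr q v1 v2 r j : ℝ) : ℂ) + (Nat.gcd q 3 : ℂ) * k ^ 3 := by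
  rw [Tsum_eq hA]
  congr 1
  · congr 1
    unfold Tpart
    rw [Finset.mul_sum, Complex.ofReal_sum]
    apply Finset.sum_congr rfl
    intro j hj
    rw [Finset.mem_filter] at hj
    rw [chi3_scale_wall H hA hk hk3 hk2 hr hkr hj.2]
    rfl
  · unfold Tpart
    rw [Finset.sum_congr rfl (g := fun _ => (k : ℂ) ^ 3), Finset.sum_const, card_cen hA,
      nsmul_eq_mul]
    intro j hj
    rw [Finset.mem_filter] at hj
    exact chi3_scale_central H hA hk hk3 hk2 hj.2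

/-- the three divisors `gcd(α(v), q)` -/
def DD (q : ℕ) (v1 v2 : ℤ) (i : Fin 3) : ℕ :=
  Int.gcd (![v1 - v2, v1 + 2 * v2, 2 * v1 + v2] i) q

theorem three_dvd_root {q : ℕ} {v1 v2 : ℤ} (hA : Adm q v1 v2) (h3 : 3 ∣ q) (i : Fin 3) :
    (3 : ℤ) ∣ ![v1 - v2, v1 + 2 * v2, 2 * v1 + v2] i := by
  have n1 := not_three_dvd h3 hA.c1
  have n2 := not_three_dvd h3 hA.c2
  have n3 := not_three_dvd h3 hA.c3
  have m1 : v1 % 3 = 1 ∨ v1 % 3 = 2 := by omega
  have m2 : v2 % 3 = 1 ∨ v2 % 3 = 2 := by omega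
  have m3 : v1 % 3 = v2 % 3 := by
    rcases m1 with m1 | m1 <;> rcases m2 with m2 | m2 <;> omega
  fin_cases i
  · change (3 : ℤ) ∣ v1 - v2; omega
  · change (3 : ℤ) ∣ v1 + 2 * v2; omega
  · change (3 : ℤ) ∣ 2 * v1 + v2; omega

theorem g_dvd_DD {q : ℕ} {v1 v2 : ℤ} (hA : Adm q v1 v2) (i : Fin 3) :
    Nat.gcd q 3 ∣ DD q v1 v2 i := by
  unfold DD
  have hq : (Nat.gcd q 3 : ℕ) ∣ q := Nat.gcd_dvd_left q 3
  have hg : ((Nat.gcd q 3 : ℕ) : ℤ) ∣ ![v1 - v2, v1 + 2 * v2, 2 * v1 + v2] i := by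
    by_cases h3 : 3 ∣ q
    · rw [Nat.gcd_eq_right h3]
      exact three_dvd_root hA h3 i
    · have : Nat.gcd q 3 = 1 := ((Nat.Prime.coprime_iff_not_dvd Nat.prime_three).2 h3).symm
      rw [this]
      exact one_dvd _
  have := Int.dvd_coe_gcd hg (by exact_mod_cast hq : ((Nat.gcd q 3 : ℕ) : ℤ) ∣ (q : ℤ))
  exact_mod_cast this

/-- `h_α` -/
def hh (q : ℕ) (v1 v2 : ℤ) (i : Fin 3) : ℕ := DD q v1 v2 i / Nat.gcd q 3

theorem DD_eq {q : ℕ} {v1 v2 : ℤ} (hA : Adm q v1 v2) (i : Fin 3) :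
    DD q v1 v2 i = Nat.gcd q 3 * hh q v1 v2 i := (Nat.mul_div_cancel' (g_dvd_DD hA i)).symm

theorem DD_dvd (q : ℕ) (v1 v2 : ℤ) (i : Fin 3) : DD q v1 v2 i ∣ q := by
  have := Int.gcd_dvd_right (![v1 - v2, v1 + 2 * v2, 2 * v1 + v2] i) (q : ℤ)
  exact_mod_cast this

theorem hh_dvd {q : ℕ} {v1 v2 : ℤ} (hA : Adm q v1 v2) (i : Fin 3) : hh q v1 v2 i ∣ q :=
  (Dvd.intro_left _ (DD_eq hA i).symm).trans (DD_dvd q v1 v2 i)

theorem DD_dvd_root (q : ℕ) (v1 v2 : ℤ) (i : Fin 3) :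
    (DD q v1 v2 i : ℤ) ∣ ![v1 - v2, v1 + 2 * v2, 2 * v1 + v2] i := Int.gcd_dvd_left _ _

theorem two_roots {q : ℕ} {v1 v2 : ℤ} (hA : Adm q v1 v2) {i j : Fin 3} (hij : i ≠ j) {e : ℤ}
    (he : e ∣ (q : ℤ)) (h1 : e ∣ ![v1 - v2, v1 + 2 * v2, 2 * v1 + v2] i)
    (h2 : e ∣ ![v1 - v2, v1 + 2 * v2, 2 * v1 + v2] j) : e ∣ 3 := by
  have c1 : IsCoprime e v1 := (hA.c1.of_isCoprime_of_dvd_right he).symm
  have c2 : IsCoprime e v2 := (hA.c2.of_isCoprime_of_dvd_right he).symm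
  have c3 : IsCoprime e (v1 + v2) := (hA.c3.of_isCoprime_of_dvd_right he).symm
  have k1 : e ∣ v1 - v2 → e ∣ 2 * v1 + v2 → e ∣ 3 := fun a b => by
    have := dvd_add a b
    have e1 : v1 - v2 + (2 * v1 + v2) = 3 * v1 := by ring
    rw [e1] at this
    exact c1.dvd_of_dvd_mul_right this
  have k2 : e ∣ v1 - v2 → e ∣ v1 + 2 * v2 → e ∣ 3 := fun a b => by
    have := dvd_sub b a
    have e1 : v1 + 2 * v2 - (v1 - v2) = 3 * v2 := by ring
    rw [e1] at this
    exact c2.dvd_of_dvd_mul_right this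
  have k3 : e ∣ v1 + 2 * v2 → e ∣ 2 * v1 + v2 → e ∣ 3 := fun a b => by
    have := dvd_add a b
    have e1 : v1 + 2 * v2 + (2 * v1 + v2) = 3 * (v1 + v2) := by ring
    rw [e1] at this
    exact c3.dvd_of_dvd_mul_right this
  fin_cases i <;> fin_cases j
  · exact absurd rfl hij
  · exact k2 h1 h2
  · exact k1 h1 h2
  · exact k2 h2 h1
  · exact absurd rfl hij
  · exact k3 h1 h2
  · exact k1 h2 h1
  · exact k3 h2 h1
  · exact absurd rfl hij

theorem hh_coprime {q : ℕ} {v1 v2 : ℤ} (hA : Adm q v1 v2) {i j : Fin 3} (hij : i ≠ j) :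
    Nat.Coprime (hh q v1 v2 i) (hh q v1 v2 j) := by
  set d := Nat.gcd (hh q v1 v2 i) (hh q v1 v2 j) with hd
  set g := Nat.gcd q 3 with hg
  have h1 : g * d ∣ DD q v1 v2 i := by
    rw [DD_eq hA i]
    exact mul_dvd_mul_left _ (Nat.gcd_dvd_left _ _)
  have h2 : g * d ∣ DD q v1 v2 j := by
    rw [DD_eq hA j]
    exact mul_dvd_mul_left _ (Nat.gcd_dvd_right _ _)
  have h3 : ((g * d : ℕ) : ℤ) ∣ 3 := by
    apply two_roots hA hij
    · exact_mod_cast h1.trans (DD_dvd q v1 v2 i)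
    · exact (by exact_mod_cast h1 : ((g * d : ℕ) : ℤ) ∣ (DD q v1 v2 i : ℤ)).trans
        (DD_dvd_root q v1 v2 i)
    · exact (by exact_mod_cast h2 : ((g * d : ℕ) : ℤ) ∣ (DD q v1 v2 j : ℤ)).trans
        (DD_dvd_root q v1 v2 j)
  have h4 : g * d ∣ 3 := by exact_mod_cast h3
  have h5 : d ∣ q := (Nat.gcd_dvd_left _ _).trans (hh_dvd hA i)
  change d = 1
  by_cases hq3 : 3 ∣ q
  · have hg3 : g = 3 := Nat.gcd_eq_right hq3
    rw [hg3] at h4
    have := Nat.le_of_dvd (by norm_num) h4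
    have hd0 : d ≠ 0 := by
      intro h0
      rw [h0, mul_zero] at h4
      exact absurd (Nat.eq_zero_of_zero_dvd h4) (by norm_num)
    omega
  · have h6 : d ∣ 3 := (Dvd.intro_left _ rfl).trans h4
    rcases (Nat.dvd_prime Nat.prime_three).1 h6 with h7 | h7
    · exact h7
    · rw [h7] at h5
      exact absurd h5 hq3

theorem DD_three_iff {q : ℕ} {v1 v2 : ℤ} (hA : Adm q v1 v2) (i : Fin 3) (s : ℤ) :
    (DD q v1 v2 i : ℤ) ∣ 3 * s ↔ (hh q v1 v2 i : ℤ) ∣ s := by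
  rw [DD_eq hA i]
  by_cases hq3 : 3 ∣ q
  · rw [Nat.gcd_eq_right hq3]
    push_cast
    exact mul_dvd_mul_iff_left (by norm_num)
  · have hg : Nat.gcd q 3 = 1 := ((Nat.Prime.coprime_iff_not_dvd Nat.prime_three).2 hq3).symm
    rw [hg, one_mul]
    have hc : IsCoprime (hh q v1 v2 i : ℤ) 3 := by
      rw [Int.isCoprime_iff_gcd_eq_one]
      have h1 : Nat.Coprime q 3 := hg
      exact Nat.Coprime.coprime_dvd_left (hh_dvd hA i) h1
    exact ⟨fun h => hc.dvd_of_dvd_mul_left h, fun h => h.mul_left 3⟩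

theorem roots_iff {q : ℕ} {v1 v2 : ℤ} (hA : Adm q v1 v2) (r : ℤ) :
    (∀ a ∈ [v1 - v2, v1 + 2 * v2, 2 * v1 + v2],
        ((Int.gcd a q : ℤ) ∣ 3 * (r - 1) ∨ (Int.gcd a q : ℤ) ∣ 3 * (r + 1))) ↔
      ∀ i, (hh q v1 v2 i : ℤ) ∣ r - 1 ∨ (hh q v1 v2 i : ℤ) ∣ r + 1 := by
  have h : ∀ i, ((hh q v1 v2 i : ℤ) ∣ r - 1 ∨ (hh q v1 v2 i : ℤ) ∣ r + 1) ↔
      ((DD q v1 v2 i : ℤ) ∣ 3 * (r - 1) ∨ (DD q v1 v2 i : ℤ) ∣ 3 * (r + 1)) := fun i => by
    rw [DD_three_iff hA, DD_three_iff hA]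
  simp only [h, Fin.forall_fin_succ, List.mem_cons, List.not_mem_nil, or_false,
    forall_eq_or_imp, forall_eq, IsEmpty.forall_iff, and_true]
  rfl

theorem neg_iff (q : ℕ) (v1 v2 : ℤ) (r : ℤ) :
    (∀ i, (hh q v1 v2 i : ℤ) ∣ -r - 1 ∨ (hh q v1 v2 i : ℤ) ∣ -r + 1) ↔
      ∀ i, (hh q v1 v2 i : ℤ) ∣ r - 1 ∨ (hh q v1 v2 i : ℤ) ∣ r + 1 := by
  apply forall_congr'
  intro i
  have e1 : -r - 1 = -(r + 1) := by ring
  have e2 : -r + 1 = -(r - 1) := by ring
  rw [e1, e2, Int.dvd_neg, Int.dvd_neg, or_comm]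

theorem Wr_neg_one {q : ℕ} (hq : 0 < q) (v1 v2 : ℤ) (j : ℕ) : Wr q v1 v2 (-1) j = 1 := by
  have hr : IsCoprime (-1 : ℤ) (q : ℤ) := isCoprime_one_left.neg_left
  unfold Wr
  rw [wfac_eq hr, wfac_eq hr, wfac_eq hr, neg_one_mul, neg_one_mul, neg_one_mul, gg_neg, gg_neg,
    gg_neg, div_self (gg_pos hq _).ne', div_self (gg_pos hq _).ne', div_self (gg_pos hq _).ne']
  norm_num

end WallsAux

open WallsAux

theorem wall_sum {χ : ℕ → ℝ → ℝ → ℂ} (H : IsChi χ) {q : ℕ} {v1 v2 w1 w2 : ℤ}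
    (hA : Adm q v1 v2) (hA' : Adm q w1 w2) (hiso : ∀ N, Tsum χ q v1 v2 N = Tsum χ q w1 w2 N)
    {r : ℤ} (hr : IsCoprime r (q : ℤ)) (hr3 : 3 ∣ q → r % 3 = 2) :
    ∑ j ∈ wallSet q v1 v2, Wr q v1 v2 r j = ∑ j ∈ wallSet q w1 w2, Wr q w1 w2 r j := by
  obtain ⟨k, hk2, hk, hk3, hkr⟩ := exists_prime hA.pos hr hr3 2
  obtain ⟨l, hl2, hl, hl3, hlr⟩ := exists_prime hA.pos hr hr3 k
  have hk2' : k ≠ 2 := by omega
  have hl2' : l ≠ 2 := by omega
  have hkl : (q : ℤ) ∣ (k : ℤ) - l := by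
    have := dvd_sub hkr hlr
    rwa [sub_sub_sub_cancel_right] at this
  have e1 := hiso (3 * k ^ 2)
  have e2 := hiso (3 * l ^ 2)
  rw [Tsum_scale H hA hk hk3 hk2' hr hkr, Tsum_scale H hA' hk hk3 hk2' hr hkr] at e1
  rw [Tsum_scale H hA hl hl3 hl2' hr hlr, Tsum_scale H hA' hl hl3 hl2' hr hlr] at e2
  have c1 : Tpart χ q v1 v2 0 (3 * k ^ 2) = Tpart χ q v1 v2 0 (3 * l ^ 2) := by
    unfold Tpart
    apply Finset.sum_congr rfl
    intro j hj
    rw [Finset.mem_filter] at hj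
    exact chi3_scale_reg H hA hk hk3 hk2' hl hl3 hl2' hkl hj.2
  have c2 : Tpart χ q w1 w2 0 (3 * k ^ 2) = Tpart χ q w1 w2 0 (3 * l ^ 2) := by
    unfold Tpart
    apply Finset.sum_congr rfl
    intro j hj
    rw [Finset.mem_filter] at hj
    exact chi3_scale_reg H hA' hk hk3 hk2' hl hl3 hl2' hkl hj.2
  rw [c1, c2] at e1
  set W := ∑ j ∈ wallSet q v1 v2, Wr q v1 v2 r j
  set W' := ∑ j ∈ wallSet q w1 w2, Wr q w1 w2 r j
  have e3 : (((k : ℝ) - l) * (W - W') : ℝ) = 0 := by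
    have e4 : ((((k : ℝ) - l) * (W - W') : ℝ) : ℂ) = 0 := by
      push_cast at e1 e2 ⊢
      linear_combination e1 - e2
    exact_mod_cast e4
  rcases mul_eq_zero.1 e3 with h | h
  · exfalso
    have h5 : (k : ℝ) = l := by linarith
    have h6 : k = l := by exact_mod_cast h5
    omega
  · linarith

theorem wall_amgm {q : ℕ} {v1 v2 : ℤ} (hA : Adm q v1 v2) {r : ℤ} (hr : IsCoprime r (q : ℤ)) :
    ((wallSet q v1 v2).card : ℝ) ≤ ∑ j ∈ wallSet q v1 v2, Wr q v1 v2 r j ∧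
    (∑ j ∈ wallSet q v1 v2, Wr q v1 v2 r j = (wallSet q v1 v2).card ↔
      ∀ a ∈ [v1 - v2, v1 + 2 * v2, 2 * v1 + v2],
        ((Int.gcd a q : ℤ) ∣ 3 * (r - 1) ∨ (Int.gcd a q : ℤ) ∣ 3 * (r + 1))) := by
  obtain ⟨h1, h2⟩ := amgm (wallSet q v1 v2) (fun j => Wr q v1 v2 r j)
    (fun j _ => Wr_pos hA.pos hr v1 v2 j) (prod_Wr hA.pos hr v1 v2)
  refine ⟨h1, ?_⟩
  rw [h2, ← all_iff hA r]
  apply forall_congr'
  intro j
  apply forall_congr'
  intro hj
  unfold wallSet at hj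
  rw [Finset.mem_filter] at hj
  exact Wr_eq_one_iff hA hr hj.2

theorem wall_card {q : ℕ} {v1 v2 : ℤ} (hA : Adm q v1 v2) :
    (wallSet q v1 v2).card + 3 * Nat.gcd q 3 =
      Int.gcd (v1 - v2) q + Int.gcd (v1 + 2 * v2) q + Int.gcd (2 * v1 + v2) q := by
  have hq := hA.pos
  have h1 : ∑ j ∈ Finset.range q, ordj q v1 v2 j =
      Int.gcd (v1 - v2) q + Int.gcd (v1 + 2 * v2) q + Int.gcd (2 * v1 + v2) q := by
    unfold ordj
    rw [Finset.sum_add_distrib, Finset.sum_add_distrib, ← Finset.card_filter,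
      ← Finset.card_filter, ← Finset.card_filter, card_dvd hq, card_dvd hq, card_dvd hq]
  have h2 : ∑ j ∈ Finset.range q, ordj q v1 v2 j =
      (wallSet q v1 v2).card + 3 * Nat.gcd q 3 := by
    rw [← card_cen hA]
    unfold wallSet
    rw [Finset.card_filter, Finset.card_filter, Finset.mul_sum, ← Finset.sum_add_distrib]
    apply Finset.sum_congr rfl
    intro j _
    rcases ordj_cases hA j with h | h | h <;> rw [h] <;> simp
  rw [← h2, h1]

theorem same_walls {χ : ℕ → ℝ → ℝ → ℂ} (H : IsChi χ) {q : ℕ} {v1 v2 w1 w2 : ℤ}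
    (hA : Adm q v1 v2) (hA' : Adm q w1 w2) (hiso : ∀ N, Tsum χ q v1 v2 N = Tsum χ q w1 w2 N) :
    SameWalls q v1 v2 w1 w2 := by
  have hq := hA.pos
  -- the numbers of wall elements agree
  have hcard : (wallSet q v1 v2).card = (wallSet q w1 w2).card := by
    have h1 := wall_sum H hA hA' hiso (r := -1) isCoprime_one_left.neg_left (fun _ => by norm_num)
    rw [Finset.sum_congr rfl fun j _ => Wr_neg_one hq v1 v2 j,
      Finset.sum_congr rfl fun j _ => Wr_neg_one hq w1 w2 j] at h1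
    simp only [Finset.sum_const, nsmul_eq_mul, mul_one] at h1
    exact_mod_cast h1
  -- the hypotheses of `lemC`
  have hsum : ∑ i, hh q v1 v2 i = ∑ i, hh q w1 w2 i := by
    have h1 := wall_card hA
    have h2 := wall_card hA'
    rw [hcard] at h1
    have h3 : ∑ i, DD q v1 v2 i = ∑ i, DD q w1 w2 i := by
      rw [Fin.sum_univ_three, Fin.sum_univ_three]
      exact h1.symm.trans h2
    simp only [DD_eq hA, DD_eq hA'] at h3
    rw [← Finset.mul_sum, ← Finset.mul_sum] at h3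
    exact Nat.eq_of_mul_eq_mul_left (Nat.gcd_pos_of_pos_left _ hq) h3
  have key : ∀ r : ℤ, IsCoprime r (q : ℤ) → (3 ∣ q → r % 3 = 2) →
      ((∀ i, (hh q v1 v2 i : ℤ) ∣ r - 1 ∨ (hh q v1 v2 i : ℤ) ∣ r + 1) ↔
      ∀ i, (hh q w1 w2 i : ℤ) ∣ r - 1 ∨ (hh q w1 w2 i : ℤ) ∣ r + 1) := by
    intro r hr hr3
    have h1 := wall_sum H hA hA' hiso hr hr3
    rw [← roots_iff hA, ← roots_iff hA', ← (wall_amgm hA hr).2, ← (wall_amgm hA' hr).2, h1, hcard]
  have hR : ∀ r : ℤ, IsCoprime r (q : ℤ) →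
      ((∀ i, (hh q v1 v2 i : ℤ) ∣ r - 1 ∨ (hh q v1 v2 i : ℤ) ∣ r + 1) ↔
      ∀ i, (hh q w1 w2 i : ℤ) ∣ r - 1 ∨ (hh q w1 w2 i : ℤ) ∣ r + 1) := by
    intro r hr
    by_cases h3 : 3 ∣ q
    · have hn := not_three_dvd h3 hr
      have h4 : r % 3 = 1 ∨ r % 3 = 2 := by omega
      rcases h4 with h4 | h4
      · rw [← neg_iff q v1 v2 r, ← neg_iff q w1 w2 r]
        exact key (-r) hr.neg_left (fun _ => by omega)
      · exact key r hr (fun _ => h4)
    · exact key r hr (fun h => absurd h h3)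
  obtain ⟨hL1, hL2⟩ := lemC hA.odd (hh q v1 v2) (hh q w1 w2) (hh_dvd hA) (hh_dvd hA')
    (fun i j hij => hh_coprime hA hij) (fun i j hij => hh_coprime hA' hij) hsum hR
  have trans : ∀ {a1 a2 b1 b2 : ℤ}, Adm q a1 a2 → Adm q b1 b2 →
      (∀ i, ∃ j, hh q a1 a2 i = hh q b1 b2 j) → ∀ e : ℕ, e ∣ q →
      ((e : ℤ) ∣ a1 - a2 ∨ (e : ℤ) ∣ a1 + 2 * a2 ∨ (e : ℤ) ∣ 2 * a1 + a2) →
      ((e : ℤ) ∣ b1 - b2 ∨ (e : ℤ) ∣ b1 + 2 * b2 ∨ (e : ℤ) ∣ 2 * b1 + b2) := by
    intro a1 a2 b1 b2 hAa hAb hL e he h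
    have h1 : ∃ i : Fin 3, (e : ℤ) ∣ ![a1 - a2, a1 + 2 * a2, 2 * a1 + a2] i := by
      rcases h with h | h | h
      · exact ⟨0, h⟩
      · exact ⟨1, h⟩
      · exact ⟨2, h⟩
    obtain ⟨i, hi⟩ := h1
    have h2 : (e : ℤ) ∣ (DD q a1 a2 i : ℤ) :=
      Int.dvd_coe_gcd hi (by exact_mod_cast he)
    obtain ⟨j, hj⟩ := hL i
    rw [DD_eq hAa, hj, ← DD_eq hAb] at h2
    have h3 := h2.trans (DD_dvd_root q b1 b2 j)
    fin_cases j
    · exact Or.inl h3
    · exact Or.inr (Or.inl h3)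
    · exact Or.inr (Or.inr h3)
  intro e he _
  refine ⟨trans hA hA' hL1 e he, trans hA' hA (fun i => ?_) e he⟩
  obtain ⟨j, hj⟩ := hL2 i
  exact ⟨j, hj⟩

end Pool.Agent.Iso79
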