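import Pool.Agent.Iso79.Class
import Pool.Agent.Iso79.Walls
import Pool.Agent.Iso79.Trans
import Pool.Agent.Iso79.LatMain
import Pool.Agent.Iso79.Small
import Pool.Agent.Iso79.GamConj

/-!
# Isospectral manifolds covered by `SU(3)/SO(3)` are isometric
-/

open Matrix Complex

noncomputable section

namespace Pool.Agent.Iso79

theorem nt_main {χ : ℕ → ℝ → ℝ → ℂ} (H : IsChi χ) {q q' : ℕ} {v1 v2 w1 w2 : ℤ}
    (hA : Adm q v1 v2) (hA' : Adm q' w1 w2)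
    (hiso : ∀ N, (q' : ℂ) * Tsum χ q v1 v2 N = (q : ℂ) * Tsum χ q' w1 w2 N) :
    q = q' ∧ Equiv3 q v1 v2 w1 w2 := by
  obtain rfl := order_eq H hA hA' hiso
  have hq : (q : ℂ) ≠ 0 := by exact_mod_cast hA.pos.ne'
  have h1 : ∀ N, Tsum χ q v1 v2 N = Tsum χ q w1 w2 N := fun N => mul_left_cancel₀ hq (hiso N)
  have h2 : ∀ N, Tpart χ q v1 v2 0 N = Tpart χ q w1 w2 0 N := fun N =>
    mul_left_cancel₀ hq (parts_eq H hA hA' hiso N).1
  have h3 := same_walls H hA hA' h1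
  have h4 := SL_eq H hA hA' h2
  refine ⟨rfl, ?_⟩
  rcases lt_or_ge q 29 with h | h
  · exact lat_small h hA hA' h3 h4
  · exact lat_main h hA hA' h3 h4

theorem main (Γ₁ Γ₂ : Subgroup (Equiv.Perm XX)) (hf₁ : Finite Γ₁) (hf₂ : Finite Γ₂)
    (hi₁ : ∀ γ ∈ Γ₁, PreservesLap γ) (hi₂ : ∀ γ ∈ Γ₂, PreservesLap γ)
    (ha₁ : ActsFreely Γ₁) (ha₂ : ActsFreely Γ₂) (hs : Isospectral Γ₁ Γ₂) :
    ∃ g : SU3, Γ₂ = Γ₁.map (MulAut.conj (tau g)).toMonoidHom := by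
  obtain ⟨q, v1, v2, g, hA, e⟩ := class_free hf₁ hi₁ ha₁
  obtain ⟨q', w1, w2, g', hA', e'⟩ := class_free hf₂ hi₂ ha₂
  have hiso : ∀ N, (q' : ℂ) * Tsum chi q v1 v2 N = (q : ℂ) * Tsum chi q' w1 w2 N := by
    intro N
    obtain ⟨r, h1, h2⟩ := rank_Eig q hA.pos v1 v2 N
    obtain ⟨r', h1', h2'⟩ := rank_Eig q' hA'.pos w1 w2 N
    have h3 := hs (((N : ℝ) - 3) / 6)
    rw [e, e', rank_Eig_conj, rank_Eig_conj, h1, h1'] at h3
    have h4 : r = r' := by exact_mod_cast h3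
    rw [← h2, ← h2', h4]
    ring
  obtain ⟨rfl, h⟩ := nt_main chi_isChi hA hA' hiso
  obtain ⟨g₀, hg₀⟩ := Gam_conj hA hA' h
  refine ⟨g' * g₀ * g⁻¹, ?_⟩
  rw [e', hg₀, e, Subgroup.map_map, Subgroup.map_map]
  congr 1
  ext γ : 1
  simp only [tau_mul, tau_inv, MonoidHom.coe_comp, Function.comp_apply, MulEquiv.toMonoidHom_eq_coe,
    MonoidHom.coe_coe, MulAut.conj_apply]
  group

end Pool.Agent.Iso79
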