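import Pool.Agent.Iso79.Inj

/-!
# The `L²` inner product on functions on `XX`

`ip f h = ∫_{SU(3)} conj (f (g gᵀ)) h (g gᵀ) dg`.  Haar measure of the compact group `SU(3)` is left
and right invariant (mathlib: compact groups are unimodular,
`MeasureTheory.Measure.IsMulRightInvariant` for Haar measures of compact groups; or use
`IsMulLeftInvariant` together with the inversion; any right invariant finite Borel measure which is
positive on open sets is enough - it may be convenient to *define* `hm` as the push-forward of the
Haar measure under `g ↦ g⁻¹`).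
-/

open Matrix Complex MeasureTheory
open scoped ContDiff

noncomputable section

namespace Pool.Agent.Iso79

attribute [local instance] Matrix.linftyOpNormedRing Matrix.linftyOpNormedAlgebra

instance : IsTopologicalGroup SU3 where
  continuous_mul := continuous_mul
  continuous_inv := Continuous.subtype_mk (continuous_star.comp continuous_subtype_val) _

theorem isClosed_SU3 : IsClosed {A : M3 | A ∈ Matrix.specialUnitaryGroup (Fin 3) ℂ} := by
  have h : {A : M3 | A ∈ Matrix.specialUnitaryGroup (Fin 3) ℂ} =
      {A : M3 | A * star A = 1} ∩ {A : M3 | A.det = 1} := by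
    ext A
    simp only [Set.mem_ofPred_eq, Matrix.mem_specialUnitaryGroup_iff, Matrix.mem_unitaryGroup_iff,
      Set.mem_inter_iff]
  rw [h]
  have h1 : Continuous fun A : M3 => A * star A := by
    exact continuous_id.mul continuous_star
  have h2 : Continuous fun A : M3 => A.det := Continuous.matrix_det continuous_id
  exact (isClosed_eq h1 continuous_const).inter (isClosed_eq h2 continuous_const)

theorem isCompact_SU3 : IsCompact {A : M3 | A ∈ Matrix.specialUnitaryGroup (Fin 3) ℂ} := by
  have h1 : IsCompact (Set.pi Set.univ fun _ : Fin 3 => Set.pi Set.univ fun _ : Fin 3 =>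
      Metric.closedBall (0 : ℂ) 1) :=
    isCompact_univ_pi fun _ => isCompact_univ_pi fun _ => isCompact_closedBall _ _
  refine IsCompact.of_isClosed_subset h1 isClosed_SU3 ?_
  intro A hA i _ j _
  exact mem_closedBall_zero_iff.2 (entry_norm_bound_of_unitary hA.1 i j)

instance : CompactSpace SU3 := isCompact_iff_compactSpace.1 isCompact_SU3

instance : MeasurableSpace SU3 := borel SU3

instance : BorelSpace SU3 := ⟨rfl⟩

theorem exists_hm : ∃ m : Measure SU3, IsProbabilityMeasure m ∧ m.IsOpenPosMeasure ∧
    ∀ (h : SU3) (F : SU3 → ℂ), Continuous F → ∫ g, F (g * h) ∂m = ∫ g, F g ∂m := by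
  have h0 : (Measure.haarMeasure (⊤ : TopologicalSpace.PositiveCompacts SU3)) Set.univ = 1 := by
    have := Measure.haarMeasure_self (K₀ := (⊤ : TopologicalSpace.PositiveCompacts SU3))
    simpa using this
  set μ : Measure SU3 := Measure.haarMeasure (⊤ : TopologicalSpace.PositiveCompacts SU3) with hμ
  refine ⟨μ.inv, ⟨?_⟩, ?_, ?_⟩
  · rw [Measure.inv_apply]
    simpa using h0
  · infer_instance
  · intro h F _
    exact integral_mul_right_eq_self F h

/-- a right invariant probability measure on `SU(3)` -/
def hm : Measure SU3 := exists_hm.choose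

instance : IsProbabilityMeasure hm := exists_hm.choose_spec.1

instance : hm.IsOpenPosMeasure := exists_hm.choose_spec.2.1

theorem hm_right (h : SU3) (F : SU3 → ℂ) (hF : Continuous F) :
    ∫ g, F (g * h) ∂hm = ∫ g, F g ∂hm := exists_hm.choose_spec.2.2 h F hF

/-- the `L²` inner product -/
def ip (f h : XX → ℂ) : ℂ := ∫ g, starRingEnd ℂ (f (mk g)) * h (mk g) ∂hm

theorem ip_add_right {f h h' : XX → ℂ} (hf : Continuous f) (hh : Continuous h)
    (hh' : Continuous h') : ip f (h + h') = ip f h + ip f h' := by
  have i1 : Integrable (fun g : SU3 => starRingEnd ℂ (f (mk g)) * h (mk g)) hm :=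
    ((continuous_conj.comp (hf.comp continuous_mk)).mul
      (hh.comp continuous_mk)).integrable_of_hasCompactSupport (HasCompactSupport.of_compactSpace _)
  have i2 : Integrable (fun g : SU3 => starRingEnd ℂ (f (mk g)) * h' (mk g)) hm :=
    ((continuous_conj.comp (hf.comp continuous_mk)).mul
      (hh'.comp continuous_mk)).integrable_of_hasCompactSupport (HasCompactSupport.of_compactSpace _)
  unfold ip
  rw [← integral_add i1 i2]
  refine integral_congr_ae (Filter.Eventually.of_forall fun g => ?_)
  simp only [Pi.add_apply]
  ring

theorem ip_smul_right (c : ℂ) (f h : XX → ℂ) : ip f (c • h) = c * ip f h := by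
  unfold ip
  rw [← integral_const_mul]
  refine integral_congr_ae (Filter.Eventually.of_forall fun g => ?_)
  simp only [Pi.smul_apply, smul_eq_mul]
  ring

theorem ip_conj (f h : XX → ℂ) : starRingEnd ℂ (ip f h) = ip h f := by
  unfold ip
  rw [← integral_conj]
  refine integral_congr_ae (Filter.Eventually.of_forall fun g => ?_)
  simp only [map_mul, Complex.conj_conj]
  ring

theorem ip_self_eq (f : XX → ℂ) : ip f f = ((∫ g, Complex.normSq (f (mk g)) ∂hm : ℝ) : ℂ) := by
  unfold ip
  rw [← integral_complex_ofReal]
  refine integral_congr_ae (Filter.Eventually.of_forall fun g => ?_)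
  exact Complex.normSq_eq_conj_mul_self.symm

theorem ip_self_re_nonneg (f : XX → ℂ) : 0 ≤ (ip f f).re := by
  rw [ip_self_eq, Complex.ofReal_re]
  exact integral_nonneg fun g => Complex.normSq_nonneg _

theorem ip_self_eq_zero {f : XX → ℂ} (hf : Continuous f) (h : ip f f = 0) : f = 0 := by
  rw [ip_self_eq, Complex.ofReal_eq_zero] at h
  have hc : Continuous fun g : SU3 => Complex.normSq (f (mk g)) :=
    Complex.continuous_normSq.comp (hf.comp continuous_mk)
  have hi : Integrable (fun g : SU3 => Complex.normSq (f (mk g))) hm :=
    hc.integrable_of_hasCompactSupport (HasCompactSupport.of_compactSpace _)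
  rw [integral_eq_zero_iff_of_nonneg (fun g => Complex.normSq_nonneg _) hi] at h
  have h2 : (fun g : SU3 => Complex.normSq (f (mk g))) = 0 :=
    (Continuous.ae_eq_iff_eq hm hc continuous_const).1 h
  funext S
  obtain ⟨g, rfl⟩ := mk_surj S
  have := congrFun h2 g
  simpa using this

theorem continuous_ev (p : Pol) : Continuous (ev p) := by
  have h1 : ev p = fun S : XX => MvPolynomial.eval (fun z : Sym2 (Fin 3) =>
      Sym2.lift ⟨fun a b => (S.1 a b + S.1 b a) / 2, fun a b =>
        congrArg (· / 2) (add_comm (S.1 a b) (S.1 b a))⟩ z) p := by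
    funext S
    rfl
  rw [h1]
  refine (MvPolynomial.continuous_eval p).comp (continuous_pi fun z => ?_)
  induction z using Sym2.ind with
  | _ a b =>
    simp only [Sym2.lift_mk]
    have hval : Continuous fun S : XX => S.1 := continuous_subtype_val
    have ha : ∀ a b : Fin 3, Continuous fun S : XX => S.1 a b := fun a b =>
      (continuous_apply_apply a b).comp hval
    exact ((ha a b).add (ha b a)).div_const 2

end Pool.Agent.Iso79
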