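import Mathlib

/-!
# Polynomials in the entries of a symmetric `3 × 3` matrix, polarisation operators, Casimir

`Pol` is the polynomial ring in the six variables `x_ab = x_ba`; `Dd i j` is the derivation with
`Dd i j x_ab = δ_{ai} x_{jb} + δ_{bi} x_{aj}` (that is, `S ↦ E_ij S + S E_ijᵀ` on coordinate
functions).  For `D_Z = ∑ Z_ij Dd i j` one has `[D_Z, D_W] = - D_{[Z,W]}`.

Proof notes.  Two derivations agree when they agree on the variables (`MvPolynomial.derivation_ext`
/ `derivation_eq_of_forall_mem_vars`); commutators of derivations are derivations (`⁅D₁, D₂⁆`).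
`Cas_comm`: from `Dd_comm`, `∑_{kl} (Dd k l) (Dd l k)` commutes with all `Dd i j`, and `TT` is
central.
-/

open MvPolynomial

noncomputable section

namespace Pool.Agent.Iso79

/-- polynomials in the entries of a symmetric `3 × 3` matrix -/
abbrev Pol : Type := MvPolynomial (Sym2 (Fin 3)) ℂ

/-- the coordinate function `S ↦ S a b` -/
def xv (a b : Fin 3) : Pol := X s(a, b)

theorem xv_symm (a b : Fin 3) : xv a b = xv b a := by
  unfold xv; rw [Sym2.eq_swap]

/-- the image of the variables under the polarisation operators -/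
def dv (i j : Fin 3) (z : Sym2 (Fin 3)) : Pol :=
  Sym2.lift ⟨fun a b => (if a = i then xv j b else 0) + (if b = i then xv a j else 0), by
    intro a b
    change (if a = i then xv j b else 0) + (if b = i then xv a j else 0) =
      (if b = i then xv j a else 0) + (if a = i then xv b j else 0)
    rw [add_comm, xv_symm a j, xv_symm j b]⟩ z

/-- the polarisation operators -/
def Dd (i j : Fin 3) : Derivation ℂ Pol Pol := mkDerivation ℂ (dv i j)

theorem Dd_xv (i j a b : Fin 3) : Dd i j (xv a b) =
    (if a = i then xv j b else 0) + (if b = i then xv a j else 0) := by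
  unfold Dd; conv_lhs => rw [xv]
  rw [mkDerivation_X]
  rfl

/-- the trace operator (twice the degree) -/
def TT : Pol →ₗ[ℂ] Pol := ∑ i, (Dd i i).toLinearMap

/-- the Laplacian on polynomials -/
def Cas : Pol →ₗ[ℂ] Pol :=
  -(1 / 4 : ℂ) • ((∑ i, ∑ j, (Dd i j).toLinearMap ∘ₗ (Dd j i).toLinearMap) -
    (1 / 3 : ℂ) • (TT ∘ₗ TT))

theorem Dd_comm (i j k l : Fin 3) (p : Pol) : Dd i j (Dd k l p) - Dd k l (Dd i j p) =
    (if l = i then Dd k j p else 0) - (if j = k then Dd i l p else 0) := by
  have h : ⁅Dd i j, Dd k l⁆ = (if l = i then Dd k j else 0) - (if j = k then Dd i l else 0) := by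
    apply derivation_ext
    intro z
    induction z using Sym2.ind with
    | _ a b =>
      rw [Derivation.commutator_apply]
      have hx : (X s(a, b) : Pol) = xv a b := rfl
      rw [hx, Dd_xv, Dd_xv, Derivation.sub_apply]
      have e1 : (if l = i then Dd k j else 0 : Derivation ℂ Pol Pol) (xv a b) =
          if l = i then ((if a = k then xv j b else 0) + (if b = k then xv a j else 0)) else 0 := by
        split_ifs with h1 h2 h3 <;> simp [Dd_xv, *]
      have e2 : (if j = k then Dd i l else 0 : Derivation ℂ Pol Pol) (xv a b) =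
          if j = k then ((if a = i then xv l b else 0) + (if b = i then xv a l else 0)) else 0 := by
        split_ifs with h1 h2 h3 <;> simp [Dd_xv, *]
      rw [e1, e2, map_add, map_add]
      have e3 : ∀ (i j : Fin 3) (c : Prop) [Decidable c] (q : Pol), Dd i j (if c then q else 0) =
          if c then Dd i j q else 0 := by
        intro i j c _ q
        split_ifs <;> simp
      rw [e3, e3, e3, e3, Dd_xv, Dd_xv, Dd_xv, Dd_xv, xv_symm j l]
      split_ifs <;> ring
  have h2 := congrArg (fun D : Derivation ℂ Pol Pol => D p) h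
  simp only [Derivation.commutator_apply, Derivation.sub_apply] at h2
  rw [h2]
  congr 1 <;> split_ifs <;> simp

theorem TT_apply (p : Pol) : TT p = ∑ i, Dd i i p := by
  unfold TT
  rw [LinearMap.sum_apply]
  rfl

theorem Cas_apply (p : Pol) : Cas p =
    -(1 / 4 : ℂ) • ((∑ i, ∑ j, Dd i j (Dd j i p)) - (1 / 3 : ℂ) • TT (TT p)) := by
  unfold Cas
  rw [LinearMap.smul_apply, LinearMap.sub_apply, LinearMap.sum_apply, LinearMap.smul_apply]
  simp_rw [LinearMap.sum_apply]
  rfl

theorem TT_comm (i j : Fin 3) (p : Pol) : TT (Dd i j p) = Dd i j (TT p) := by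
  rw [TT_apply, TT_apply, map_sum, ← sub_eq_zero, ← Finset.sum_sub_distrib]
  simp_rw [Dd_comm]
  rw [Finset.sum_sub_distrib]
  simp

theorem Cas_comm (i j : Fin 3) (p : Pol) : Cas (Dd i j p) = Dd i j (Cas p) := by
  have h : ∀ k l, Dd k l (Dd l k (Dd i j p)) = Dd i j (Dd k l (Dd l k p)) -
      ((if l = i then Dd k j (Dd l k p) else 0) - (if j = k then Dd i l (Dd l k p) else 0)) -
      ((if k = i then Dd k l (Dd l j p) else 0) - (if j = l then Dd k l (Dd i k p) else 0)) := by
    intro k l
    have h1 := Dd_comm i j l k p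
    have h2 := Dd_comm i j k l (Dd l k p)
    have h3 := congrArg (Dd k l) h1
    rw [map_sub, map_sub] at h3
    have e3 : ∀ (c : Prop) [Decidable c] (q : Pol), Dd k l (if c then q else 0) =
          if c then Dd k l q else 0 := by
      intro c _ q
      split_ifs <;> simp
    rw [e3, e3] at h3
    rw [← h2, ← h3]
    ring
  rw [Cas_apply, Cas_apply, TT_comm, TT_comm, Derivation.map_smul, map_sub, Derivation.map_smul,
    map_sum]
  congr 2
  simp_rw [h, map_sum, Finset.sum_sub_distrib]
  simp only [Finset.sum_ite_eq, Finset.sum_ite_eq', Finset.mem_univ, if_true]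
  have e4 : ∀ (c : Fin 3 → Prop) [∀ k, Decidable (c k)] (q : Fin 3 → Fin 3 → Pol),
      (∑ k, ∑ l, if c k then q k l else 0) = ∑ k, if c k then ∑ l, q k l else 0 := by
    intro c _ q
    apply Finset.sum_congr rfl
    intro k _
    split_ifs <;> simp
  rw [e4, e4]
  simp only [Finset.sum_ite_eq, Finset.sum_ite_eq', Finset.mem_univ, if_true]
  ring

/-- weights of the variables: `x_ab` has weight `e_a + e_b` -/
def wt (z : Sym2 (Fin 3)) : Fin 3 →₀ ℕ :=
  Sym2.lift ⟨fun a b => Finsupp.single a 1 + Finsupp.single b 1, fun _ _ => add_comm _ _⟩ z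

theorem wt_mk (a b : Fin 3) : wt s(a, b) = Finsupp.single a 1 + Finsupp.single b 1 := rfl

/-- polynomials of weight `μ` (for the torus `S ↦ t S t`) -/
def Vw (μ : Fin 3 →₀ ℕ) : Submodule ℂ Pol := weightedHomogeneousSubmodule ℂ wt μ

/-- the total degree of a weight -/
def deg3 (μ : Fin 3 →₀ ℕ) : ℕ := μ 0 + μ 1 + μ 2

theorem mem_Vw {μ : Fin 3 →₀ ℕ} {p : Pol} :
    p ∈ Vw μ ↔ ∀ a, coeff a p ≠ 0 → Finsupp.weight wt a = μ := Iff.rfl

theorem deg3_wt (z : Sym2 (Fin 3)) : deg3 (wt z) = 2 := by
  induction z using Sym2.ind with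
  | _ a b =>
    rw [wt_mk]
    unfold deg3
    fin_cases a <;> fin_cases b <;> simp

theorem deg3_weight (a : Sym2 (Fin 3) →₀ ℕ) : deg3 (Finsupp.weight wt a) = 2 * ∑ z, a z := by
  rw [Finsupp.weight_apply, Finsupp.sum_fintype _ _ (by simp)]
  have h : ∀ s : Finset (Sym2 (Fin 3)), deg3 (∑ z ∈ s, a z • wt z) = 2 * ∑ z ∈ s, a z := by
    intro s
    classical
    induction s using Finset.induction_on with
    | empty => simp [deg3]
    | insert z s hz ih =>
      rw [Finset.sum_insert hz, Finset.sum_insert hz, mul_add, ← ih, mul_comm 2 (a z), ← deg3_wt z]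
      unfold deg3
      simp only [Finsupp.add_apply, Finsupp.smul_apply, smul_eq_mul]
      ring
  exact h _

theorem Vw_homog {μ : Fin 3 →₀ ℕ} {d : ℕ} (h : deg3 μ = 2 * d) {p : Pol} (hp : p ∈ Vw μ) :
    p.IsHomogeneous d := by
  intro a ha
  have h1 := mem_Vw.1 hp a ha
  have h2 := deg3_weight a
  rw [h1, h] at h2
  rw [Finsupp.weight_apply, Finsupp.sum_fintype _ _ (by simp)]
  simp only [Pi.one_apply, smul_eq_mul, mul_one]
  omega

theorem Vw_odd {μ : Fin 3 →₀ ℕ} (h : ¬ Even (deg3 μ)) {p : Pol} (hp : p ∈ Vw μ) : p = 0 := by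
  ext a
  rw [coeff_zero]
  by_contra ha
  have h1 := mem_Vw.1 hp a ha
  have h2 := deg3_weight a
  rw [h1] at h2
  exact h ⟨∑ z, a z, by omega⟩

instance Vw_finite (μ : Fin 3 →₀ ℕ) : FiniteDimensional ℂ (Vw μ) := by
  classical
  have hfin : {a : Sym2 (Fin 3) →₀ ℕ | Finsupp.weight wt a = μ}.Finite := by
    apply Set.Finite.subset
      ((Finset.univ : Finset (Sym2 (Fin 3))).finsuppAntidiag (deg3 μ / 2)).finite_toSet
    intro a ha
    rw [Finset.mem_coe, Finset.mem_finsuppAntidiag]
    have h2 := deg3_weight a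
    rw [Set.mem_ofPred_eq] at ha
    rw [ha] at h2
    refine ⟨?_, by simp⟩
    change ∑ z, a z = _
    omega
  unfold Vw
  rw [weightedHomogeneousSubmodule_eq_finsupp_supported]
  have := hfin.to_subtype
  exact Module.Finite.of_basis (basisRestrictSupport ℂ {a | Finsupp.weight wt a = μ})

theorem dv_diag (i : Fin 3) (z : Sym2 (Fin 3)) : dv i i z = ((wt z i : ℕ) : ℂ) • (X z : Pol) := by
  induction z using Sym2.ind with
  | _ a b =>
    rw [wt_mk]
    change (if a = i then xv i b else 0) + (if b = i then xv a i else 0) = _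
    rw [Finsupp.add_apply, Finsupp.single_apply, Finsupp.single_apply]
    have hx : (X s(a, b) : Pol) = xv a b := rfl
    rw [hx]
    split_ifs with h1 h2 h2
    · subst h1; subst h2; norm_num; rw [two_smul]
    · subst h1; simp
    · subst h2; simp
    · simp

theorem Dd_monomial (i j : Fin 3) (a : Sym2 (Fin 3) →₀ ℕ) (c : ℂ) : Dd i j (monomial a c) =
    c • ∑ z, monomial (a - Finsupp.single z 1) (a z : ℂ) * dv i j z := by
  unfold Dd
  rw [mkDerivation_monomial, Finsupp.sum_fintype]
  · rfl
  · intro z; simp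

theorem Dd_diag {μ : Fin 3 →₀ ℕ} {p : Pol} (hp : p ∈ Vw μ) (i : Fin 3) :
    Dd i i p = (μ i : ℂ) • p := by
  conv_lhs => rw [← support_sum_monomial_coeff p]
  conv_rhs => rw [← support_sum_monomial_coeff p]
  rw [map_sum, Finset.smul_sum]
  apply Finset.sum_congr rfl
  intro a ha
  have h1 := mem_Vw.1 hp a (mem_support_iff.1 ha)
  rw [Dd_monomial, ← h1, Finsupp.weight_apply, Finsupp.sum_fintype _ _ (by simp)]
  have h2 : ∀ z, monomial (a - Finsupp.single z 1) (a z : ℂ) * dv i i z =
      ((a z * wt z i : ℕ) : ℂ) • (monomial a 1 : Pol) := by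
    intro z
    rw [dv_diag, X, mul_smul_comm, monomial_mul]
    by_cases hz : a z = 0
    · simp [hz]
    · have : a - Finsupp.single z 1 + Finsupp.single z 1 = a := by
        apply tsub_add_cancel_of_le
        rw [Finsupp.single_le_iff]
        omega
      rw [this, smul_monomial, smul_monomial]
      congr 1
      simp
      ring
  simp_rw [h2]
  rw [← Finset.sum_smul, Finsupp.finsetSum_apply]
  simp only [Finsupp.smul_apply, smul_eq_mul]
  rw [smul_monomial, smul_monomial, smul_monomial]
  congr 1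
  push_cast
  simp
  ring

/-- the weights occurring in `Dd i j p` -/
theorem Dd_supp {κ : Fin 3 →₀ ℕ} {i j : Fin 3} {p : Pol} (hp : p ∈ Vw κ) {b : Sym2 (Fin 3) →₀ ℕ}
    (hb : coeff b (Dd i j p) ≠ 0) :
    Finsupp.weight wt b + Finsupp.single i 1 = κ + Finsupp.single j 1 := by
  classical
  rw [← support_sum_monomial_coeff p, map_sum, coeff_sum] at hb
  obtain ⟨a, ha, hab⟩ := Finset.exists_ne_zero_of_sum_ne_zero hb
  have h1 := mem_Vw.1 hp a (mem_support_iff.1 ha)
  rw [Dd_monomial, coeff_smul, coeff_sum] at hab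
  obtain ⟨z, _, hz⟩ := Finset.exists_ne_zero_of_sum_ne_zero (right_ne_zero_of_mul hab)
  have hz2 : b ∈ (monomial (a - Finsupp.single z 1) (a z : ℂ) * dv i j z).support :=
    mem_support_iff.2 hz
  obtain ⟨b1, hb1, b2, hb2, hbb⟩ := Finset.mem_add.1 (support_mul _ _ hz2)
  have haz : a z ≠ 0 := by
    intro h
    rw [h] at hb1
    simp at hb1
  have hb1' : b1 = a - Finsupp.single z 1 := by
    have := support_monomial_subset hb1
    simpa using this
  have hz3 : Finsupp.weight wt b2 + Finsupp.single i 1 = wt z + Finsupp.single j 1 := by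
    induction z using Sym2.ind with
    | _ c e =>
      have h3 : b2 ∈ ((if c = i then xv j e else 0) + (if e = i then xv c j else 0) :
        Pol).support := hb2
      rw [mem_support_iff, coeff_add] at h3
      rw [wt_mk]
      by_cases h4 : coeff b2 (if c = i then xv j e else 0 : Pol) = 0
      · rw [h4, zero_add] at h3
        split_ifs at h3 with h5
        · unfold xv X at h3
          rw [coeff_monomial] at h3
          split_ifs at h3 with h6
          · rw [← h6, Finsupp.weight_single, wt_mk, h5]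
            simp only [one_smul]
            abel
          · exact absurd rfl h3
        · simp at h3
      · split_ifs at h4 with h5
        · unfold xv X at h4
          rw [coeff_monomial] at h4
          split_ifs at h4 with h6
          · rw [← h6, Finsupp.weight_single, wt_mk, h5]
            simp only [one_smul]
            abel
          · exact absurd rfl h4
        · simp at h4
  have h7 : Finsupp.weight wt b1 + wt z = κ := by
    rw [hb1', ← h1]
    have : a = (a - Finsupp.single z 1) + Finsupp.single z 1 := by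
      symm
      apply tsub_add_cancel_of_le
      rw [Finsupp.single_le_iff]
      omega
    conv_rhs => rw [this, map_add, Finsupp.weight_single, one_smul]
  rw [← hbb, map_add, ← h7, add_assoc, hz3, add_assoc]

theorem Dd_weight {ν : Fin 3 →₀ ℕ} {i j : Fin 3} {p : Pol}
    (hp : p ∈ Vw (ν + Finsupp.single i 1)) : Dd i j p ∈ Vw (ν + Finsupp.single j 1) := by
  rw [mem_Vw]
  intro a ha
  have := Dd_supp hp ha
  rw [add_right_comm] at this
  exact add_right_cancel this

theorem Dd_zero {μ : Fin 3 →₀ ℕ} {i j : Fin 3} {p : Pol} (hp : p ∈ Vw μ) (h : μ i = 0) :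
    Dd i j p = 0 := by
  by_cases hij : i = j
  · subst hij
    rw [Dd_diag hp, h]
    simp
  · ext a
    rw [coeff_zero]
    by_contra ha
    have := DFunLike.congr_fun (Dd_supp hp ha) i
    rw [Finsupp.add_apply, Finsupp.add_apply, h, Finsupp.single_eq_same,
      Finsupp.single_eq_of_ne hij] at this
    omega

theorem Dd_Dd_weight {μ : Fin 3 →₀ ℕ} {p : Pol} (hp : p ∈ Vw μ) (i j : Fin 3) :
    Dd i j (Dd j i p) ∈ Vw μ := by
  by_cases h : μ j = 0
  · rw [Dd_zero hp h, map_zero]
    exact zero_mem _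
  · have h2 : μ = (μ - Finsupp.single j 1) + Finsupp.single j 1 := by
      symm
      apply tsub_add_cancel_of_le
      rw [Finsupp.single_le_iff]
      omega
    rw [h2] at hp ⊢
    exact Dd_weight (Dd_weight hp)

theorem TT_on_weight {μ : Fin 3 →₀ ℕ} {p : Pol} (hp : p ∈ Vw μ) : TT p = (deg3 μ : ℂ) • p := by
  rw [TT_apply, Fin.sum_univ_three, Dd_diag hp, Dd_diag hp, Dd_diag hp, ← add_smul, ← add_smul]
  unfold deg3
  push_cast
  rfl

/-- `Cas` in terms of the weight: `Cas p = -(1/4) (∑_{ij} Dd i j (Dd j i p) - (1/3) (deg μ)² p)` -/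
theorem Cas_on_weight {μ : Fin 3 →₀ ℕ} {p : Pol} (hp : p ∈ Vw μ) : Cas p =
    -(1 / 4 : ℂ) • ((∑ i, ∑ j, Dd i j (Dd j i p)) - ((deg3 μ : ℂ) ^ 2 / 3) • p) := by
  rw [Cas_apply, TT_on_weight hp, map_smul, TT_on_weight hp, smul_smul, smul_smul]
  congr 3
  ring

theorem Cas_weight {μ : Fin 3 →₀ ℕ} {p : Pol} (hp : p ∈ Vw μ) : Cas p ∈ Vw μ := by
  rw [Cas_on_weight hp]
  apply Submodule.smul_mem
  apply Submodule.sub_mem
  · apply Submodule.sum_mem
    intro i _
    apply Submodule.sum_mem
    intro j _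
    exact Dd_Dd_weight hp i j
  · exact Submodule.smul_mem _ _ hp

/-- the polynomials of weight `μ` in the eigenspace of the Laplacian for `c` -/
def Ec (c : ℂ) (μ : Fin 3 →₀ ℕ) : Submodule ℂ Pol :=
  Vw μ ⊓ LinearMap.ker (Cas - c • LinearMap.id)

theorem mem_Ec {c : ℂ} {μ : Fin 3 →₀ ℕ} {p : Pol} : p ∈ Ec c μ ↔ p ∈ Vw μ ∧ Cas p = c • p := by
  unfold Ec
  rw [Submodule.mem_inf, LinearMap.mem_ker, LinearMap.sub_apply, LinearMap.smul_apply,
    LinearMap.id_apply, sub_eq_zero]

/-- the eigenvalue `-(N - 3)/6` -/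
def cN (N : ℕ) : ℂ := -(((N : ℂ) - 3) / 6)

end Pool.Agent.Iso79
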