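import Pool.Agent.Iso79.Basic
import Pool.Agent.Iso79.Poly

/-!
# Evaluation of polynomials on `XX`; injectivity on homogeneous polynomials

Proof of `ev_inj`.  Let `p` be homogeneous of degree `d` with `p = 0` on `XX`.  For a symmetric
unitary matrix `S` with `det S = u` choose `w` with `w³ = u⁻¹`, `|w| = 1`; then `w S ∈ XX`, so
`p(S) = w^{-d} p(w S) = 0`.  For a real symmetric matrix `A`, `S = (1 + i A)(1 - i A)⁻¹` is
symmetric and unitary, so `p((1 + i A) adj(1 - i A)) = det(1 - iA)^d p(S) = 0`; this is a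
polynomial identity in the six real entries of `A`, so it holds for all complex symmetric `A`
(`MvPolynomial.funext_set` or a polynomial vanishing on `ℝ⁶` is zero).  If `S` is complex symmetric
and `det (1 + S) ≠ 0`, take `i A = (S - 1)(S + 1)⁻¹` (symmetric), `1 - iA = 2 (S+1)⁻¹`,
`1 + i A = 2 S (S+1)⁻¹`: then `S = (1 + i A)(1 - i A)⁻¹` and `p(S) = 0`.  So the polynomial
`p · det(1 + S)` vanishes identically and `p = 0`.
-/

open Matrix Complex
open scoped ComplexOrder

noncomputable section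

namespace Pool.Agent.Iso79

/-- evaluation of a polynomial at a matrix (symmetrised) -/
def evM (S : M3) : Pol →ₐ[ℂ] ℂ := MvPolynomial.aeval fun z : Sym2 (Fin 3) =>
  Sym2.lift ⟨fun a b => (S a b + S b a) / 2, fun a b =>
    congrArg (· / 2) (add_comm (S a b) (S b a))⟩ z

theorem evM_xv (S : M3) (a b : Fin 3) : evM S (xv a b) = (S a b + S b a) / 2 := by
  unfold evM xv; rw [MvPolynomial.aeval_X]; rfl

/-- the function on `XX` given by a polynomial -/
def ev : Pol →ₐ[ℂ] (XX → ℂ) := AlgHom.pi fun S => evM S.1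

theorem ev_apply (p : Pol) (S : XX) : ev p S = evM S.1 p := rfl

theorem XX_symm (S : XX) (a b : Fin 3) : S.1 b a = S.1 a b := congrFun (congrFun S.2.2 a) b

theorem ev_xv (a b : Fin 3) (S : XX) : ev (xv a b) S = S.1 a b := by
  rw [ev_apply, evM_xv, XX_symm]; ring

/-- the matrix with the entries given by a point -/
def mat (x : Sym2 (Fin 3) → ℂ) : M3 := of fun a b => x s(a, b)

theorem evM_mat (x : Sym2 (Fin 3) → ℂ) (p : Pol) : evM (mat x) p = MvPolynomial.eval x p := by
  have h : evM (mat x) = MvPolynomial.aeval x := by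
    refine MvPolynomial.algHom_ext fun z => ?_
    induction z using Sym2.inductionOn with | hf a b => ?_
    rw [MvPolynomial.aeval_X]
    change evM (mat x) (xv a b) = _
    rw [evM_xv]
    change (x s(a, b) + x s(b, a)) / 2 = _
    rw [Sym2.eq_swap (a := b)]
    ring
  rw [h]
  rfl

/-- values after rescaling the variables -/
theorem evM_scale (S S' : M3) (c : Sym2 (Fin 3) → ℂ) (K : ℂ) (p : Pol)
    (h : ∀ a b, evM S' (xv a b) = c s(a, b) * evM S (xv a b))
    (hK : ∀ m ∈ p.support, ∏ z, c z ^ m z = K) : evM S' p = K * evM S p := by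
  have hX : ∀ z, evM S' (MvPolynomial.X z) = c z * evM S (MvPolynomial.X z) := by
    intro z
    induction z using Sym2.inductionOn with | hf a b => exact h a b
  have key : ∀ T : M3, evM T p = ∑ m ∈ p.support, p.coeff m * ∏ z, evM T (MvPolynomial.X z) ^ m z := by
    intro T
    have h1 : evM T p = MvPolynomial.eval₂ (algebraMap ℂ ℂ) (fun z => evM T (MvPolynomial.X z)) p := by
      rw [← MvPolynomial.aeval_def]
      congr 1
      refine MvPolynomial.algHom_ext fun z => ?_
      rw [MvPolynomial.aeval_X]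
    rw [h1, MvPolynomial.eval₂_eq']
    rfl
  rw [key, key, Finset.mul_sum]
  refine Finset.sum_congr rfl fun m hm => ?_
  have h2 : ∏ z, evM S' (MvPolynomial.X z) ^ m z =
      K * ∏ z, evM S (MvPolynomial.X z) ^ m z := by
    rw [← hK m hm, ← Finset.prod_mul_distrib]
    refine Finset.prod_congr rfl fun z _ => ?_
    rw [hX, mul_pow]
  rw [h2]
  ring

theorem evM_smul {d : ℕ} {p : Pol} (hp : p.IsHomogeneous d) (w : ℂ) (S : M3) :
    evM (w • S) p = w ^ d * evM S p := by
  refine evM_scale S (w • S) (fun _ => w) (w ^ d) p (fun a b => ?_) (fun m hm => ?_)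
  · rw [evM_xv, evM_xv]
    simp only [Matrix.smul_apply, smul_eq_mul]
    ring
  · have h1 := hp (MvPolynomial.mem_support_iff.1 hm)
    rw [Finset.prod_pow_eq_pow_sum]
    congr 1
    rw [Finsupp.weight_apply, Finsupp.sum_fintype _ _ (fun _ => by simp)] at h1
    simpa using h1

/-- step 1: symmetric unitary matrices -/
theorem evM_unitary {d : ℕ} {p : Pol} (hp : p.IsHomogeneous d) (h : ev p = 0) (S : M3)
    (hS : S ∈ Matrix.unitaryGroup (Fin 3) ℂ) (hS' : Sᵀ = S) : evM S p = 0 := by
  have hdet : ‖S.det‖ = 1 := by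
    have h1 := (Matrix.mem_unitaryGroup_iff.1 hS)
    have h2 := congrArg Matrix.det h1
    rw [det_mul, det_one, star_eq_conjTranspose, det_conjTranspose] at h2
    have h3 : ‖S.det‖ * ‖S.det‖ = 1 := by
      have h4 := congrArg norm h2
      rwa [norm_mul, norm_star, norm_one] at h4
    nlinarith [norm_nonneg S.det]
  -- a cube root of the inverse of the determinant
  obtain ⟨w, hw⟩ : ∃ w : ℂ, w ^ 3 = (S.det)⁻¹ := IsAlgClosed.exists_pow_nat_eq _ (by norm_num)
  have hw1 : ‖w‖ = 1 := by
    have h1 := congrArg norm hw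
    rw [norm_pow, norm_inv, hdet, inv_one] at h1
    exact (pow_eq_one_iff_of_nonneg (norm_nonneg w) (by norm_num)).1 h1
  have hw0 : w ≠ 0 := by
    rintro rfl
    rw [norm_zero] at hw1
    exact zero_ne_one hw1
  have hdet0 : S.det ≠ 0 := by
    intro h0
    rw [h0, norm_zero] at hdet
    exact zero_ne_one hdet
  have hwS : w • S ∈ Matrix.specialUnitaryGroup (Fin 3) ℂ := by
    rw [Matrix.mem_specialUnitaryGroup_iff, Matrix.mem_unitaryGroup_iff]
    refine ⟨?_, ?_⟩
    · have h1 := (Matrix.mem_unitaryGroup_iff.1 hS)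
      rw [star_smul, smul_mul_smul_comm, h1]
      have h2 : w * star w = 1 := by
        change w * starRingEnd ℂ w = 1
        rw [Complex.mul_conj, Complex.normSq_eq_norm_sq, hw1]
        norm_num
      rw [h2, one_smul]
    · rw [det_smul, Fintype.card_fin, hw, inv_mul_cancel₀ hdet0]
  have h1 := congrFun h (⟨w • S, hwS, by rw [transpose_smul, hS']⟩ : XX)
  change evM (w • S) p = 0 at h1
  rw [evM_smul hp] at h1
  exact (mul_eq_zero.1 h1).resolve_left (pow_ne_zero _ hw0)

/-- the Cayley transform without denominators -/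
def cay (B : M3) : M3 := (1 + B) * (1 - B).adjugate

theorem cay_eq {B : M3} (hB : (1 - B).det ≠ 0) :
    cay B = (1 - B).det • ((1 + B) * (1 - B)⁻¹) := by
  rw [cay, Matrix.inv_def, Ring.inverse_eq_inv', mul_smul_comm, smul_smul, mul_inv_cancel₀ hB,
    one_smul]

/-- step 2: Cayley transforms of skew-hermitian symmetric matrices -/
theorem evM_cay_real {d : ℕ} {p : Pol} (hp : p.IsHomogeneous d) (h : ev p = 0) {B : M3}
    (hB : Bᵀ = B) (hB' : Bᴴ = -B) : evM (cay B) p = 0 := by
  have h1 : (1 - B)ᴴ = 1 + B := by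
    rw [conjTranspose_sub, conjTranspose_one, hB', sub_neg_eq_add]
  have h2 : (1 + B)ᴴ = 1 - B := by
    rw [conjTranspose_add, conjTranspose_one, hB', sub_eq_add_neg]
  -- `1 - B` is invertible
  have hdet : (1 - B).det ≠ 0 := by
    have h3 : ((1 - B)ᴴ * (1 - B)).PosDef := by
      have h4 : (1 - B)ᴴ * (1 - B) = 1 + Bᴴ * B := by
        rw [h1, hB', Matrix.mul_sub, Matrix.mul_one, Matrix.add_mul, Matrix.one_mul, Matrix.neg_mul]
        abel
      rw [h4]
      exact Matrix.PosDef.one.add_posSemidef (posSemidef_conjTranspose_mul_self B)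
    have h4 := h3.det_pos.ne'
    rw [det_mul] at h4
    exact right_ne_zero_of_mul h4
  have hu : IsUnit (1 - B).det := isUnit_iff_ne_zero.2 hdet
  have hcomm : (1 + B) * (1 - B) = (1 - B) * (1 + B) := by
    rw [Matrix.mul_sub, Matrix.mul_add, Matrix.mul_one, Matrix.mul_one, Matrix.add_mul,
      Matrix.sub_mul, Matrix.one_mul]
    abel
  have hinv : (1 - B)⁻¹ * (1 - B) = 1 := Matrix.nonsing_inv_mul _ hu
  have hinv' : (1 - B) * (1 - B)⁻¹ = 1 := Matrix.mul_nonsing_inv _ hu
  have hcomm' : (1 + B) * (1 - B)⁻¹ = (1 - B)⁻¹ * (1 + B) := by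
    calc (1 + B) * (1 - B)⁻¹ = (1 - B)⁻¹ * ((1 - B) * (1 + B)) * (1 - B)⁻¹ := by
          rw [← Matrix.mul_assoc, hinv, Matrix.one_mul]
      _ = (1 - B)⁻¹ * ((1 + B) * (1 - B)) * (1 - B)⁻¹ := by rw [hcomm]
      _ = (1 - B)⁻¹ * (1 + B) := by
          rw [Matrix.mul_assoc, Matrix.mul_assoc, hinv', Matrix.mul_one]
  rw [cay_eq hdet, evM_smul hp]
  refine mul_eq_zero_of_right _ (evM_unitary hp h _ ?_ ?_)
  · rw [Matrix.mem_unitaryGroup_iff', star_eq_conjTranspose, conjTranspose_mul,
      conjTranspose_nonsing_inv, h1, h2]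
    have hdet' : (1 + B).det ≠ 0 := by
      have h5 : (1 + B).det = star (1 - B).det := by rw [← h1, det_conjTranspose]
      rw [h5]
      exact star_ne_zero.2 hdet
    have hinv2 : (1 + B)⁻¹ * (1 + B) = 1 :=
      Matrix.nonsing_inv_mul _ (isUnit_iff_ne_zero.2 hdet')
    calc (1 + B)⁻¹ * (1 - B) * ((1 + B) * (1 - B)⁻¹)
        = (1 + B)⁻¹ * ((1 - B) * (1 + B)) * (1 - B)⁻¹ := by simp only [Matrix.mul_assoc]
      _ = (1 + B)⁻¹ * ((1 + B) * (1 - B)) * (1 - B)⁻¹ := by rw [hcomm]
      _ = ((1 + B)⁻¹ * (1 + B)) * ((1 - B) * (1 - B)⁻¹) := by simp only [Matrix.mul_assoc]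
      _ = 1 := by rw [hinv2, hinv', Matrix.one_mul]
  · rw [transpose_mul, transpose_nonsing_inv, transpose_sub, transpose_add, transpose_one, hB,
      hcomm']

/-- the generic symmetric matrix -/
def gmat : Matrix (Fin 3) (Fin 3) Pol := of fun a b => xv a b

theorem gmat_map (S : M3) (hS : Sᵀ = S) : gmat.map (evM S) = S := by
  ext a b
  rw [Matrix.map_apply, gmat, of_apply, evM_xv]
  have h : S b a = S a b := congrFun (congrFun hS a) b
  rw [h]
  ring

/-- the generic Cayley transform -/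
def gcay : Matrix (Fin 3) (Fin 3) Pol := (1 + gmat) * (1 - gmat).adjugate

theorem gcay_map (S : M3) (hS : Sᵀ = S) : gcay.map (evM S) = cay S := by
  have h1 : gcay.map (evM S) = (evM S).mapMatrix gcay := rfl
  have h2 : (evM S).mapMatrix gmat = S := gmat_map S hS
  rw [h1, gcay, map_mul, AlgHom.map_adjugate, map_add, map_sub, map_one, h2, cay]

theorem mat_symm (x : Sym2 (Fin 3) → ℂ) : (mat x)ᵀ = mat x := by
  ext a b
  change x s(b, a) = x s(a, b)
  rw [Sym2.eq_swap]

/-- step 3: Cayley transforms of all symmetric matrices -/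
theorem evM_cay {d : ℕ} {p : Pol} (hp : p.IsHomogeneous d) (h : ev p = 0)
    (x : Sym2 (Fin 3) → ℂ) : evM (cay (mat x)) p = 0 := by
  let q : Pol := MvPolynomial.aeval (fun z : Sym2 (Fin 3) => Sym2.lift ⟨fun a b =>
    MvPolynomial.C (1 / 2 : ℂ) * (gcay a b + gcay b a), fun a b =>
      congrArg (MvPolynomial.C (1 / 2 : ℂ) * ·) (add_comm (gcay a b) (gcay b a))⟩ z) p
  have hq : ∀ x : Sym2 (Fin 3) → ℂ, MvPolynomial.eval x q = evM (cay (mat x)) p := by
    intro x
    have h1 : (evM (mat x)).comp (MvPolynomial.aeval (fun z : Sym2 (Fin 3) => Sym2.lift ⟨fun a b =>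
        MvPolynomial.C (1 / 2 : ℂ) * (gcay a b + gcay b a), fun a b =>
          congrArg (MvPolynomial.C (1 / 2 : ℂ) * ·) (add_comm (gcay a b) (gcay b a))⟩ z)) =
        evM (cay (mat x)) := by
      refine MvPolynomial.algHom_ext fun z => ?_
      induction z using Sym2.inductionOn with | hf a b => ?_
      rw [AlgHom.comp_apply, MvPolynomial.aeval_X]
      change evM (mat x) (MvPolynomial.C (1 / 2 : ℂ) * (gcay a b + gcay b a)) =
        evM (cay (mat x)) (xv a b)
      have h2 : ∀ a b, evM (mat x) (gcay a b) = cay (mat x) a b := fun a b => by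
        rw [← gcay_map (mat x) (mat_symm x)]; rfl
      rw [evM_xv, map_mul, map_add, h2, h2]
      have h3 : evM (mat x) (MvPolynomial.C (1 / 2 : ℂ)) = 1 / 2 := by
        rw [evM_mat, MvPolynomial.eval_C]
      rw [h3]
      ring
    rw [← evM_mat, ← h1]
    rfl
  have hq0 : q = 0 := by
    refine MvPolynomial.funext_set (fun _ => Set.range fun r : ℝ => I * (r : ℂ)) (fun _ => ?_)
      fun x hx => ?_
    · refine Set.infinite_range_of_injective fun r r' hr => ?_
      exact_mod_cast mul_left_cancel₀ I_ne_zero hr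
    · rw [hq, map_zero]
      refine evM_cay_real hp h (mat_symm x) ?_
      ext a b
      rw [conjTranspose_apply, Matrix.neg_apply]
      change star (x s(b, a)) = -x s(a, b)
      rw [Sym2.eq_swap]
      obtain ⟨r, hr⟩ := hx s(a, b) (Set.mem_univ _)
      dsimp only at hr
      rw [← hr]
      change starRingEnd ℂ (I * r) = _
      rw [map_mul, Complex.conj_I, Complex.conj_ofReal]
      ring
  rw [← hq, hq0, map_zero]

theorem ev_inj {d : ℕ} {p : Pol} (hp : p.IsHomogeneous d) (h : ev p = 0) : p = 0 := by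
  have hdP : ∀ x : Sym2 (Fin 3) → ℂ, MvPolynomial.eval x (1 + gmat).det = (1 + mat x).det := by
    intro x
    rw [← evM_mat, AlgHom.map_det]
    congr 1
    rw [map_add, map_one]
    congr 1
    exact gmat_map (mat x) (mat_symm x)
  have h1 : p * (1 + gmat).det = 0 := by
    refine MvPolynomial.funext fun x => ?_
    rw [map_mul, map_zero, hdP]
    by_cases hdet : (1 + mat x).det = 0
    · rw [hdet, mul_zero]
    · have hu : IsUnit (1 + mat x).det := isUnit_iff_ne_zero.2 hdet
      set S := mat x with hS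
      have hSt : Sᵀ = S := mat_symm x
      set B : M3 := (S - 1) * (1 + S)⁻¹ with hBdef
      have hinv : (1 + S)⁻¹ * (1 + S) = 1 := Matrix.nonsing_inv_mul _ hu
      have hinv' : (1 + S) * (1 + S)⁻¹ = 1 := Matrix.mul_nonsing_inv _ hu
      have hcomm : (S - 1) * (1 + S) = (1 + S) * (S - 1) := by
        rw [Matrix.mul_add, Matrix.mul_sub, Matrix.mul_one, Matrix.mul_one, Matrix.sub_mul,
          Matrix.add_mul, Matrix.one_mul]
        abel
      have hcomm' : (S - 1) * (1 + S)⁻¹ = (1 + S)⁻¹ * (S - 1) := by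
        calc (S - 1) * (1 + S)⁻¹ = (1 + S)⁻¹ * ((1 + S) * (S - 1)) * (1 + S)⁻¹ := by
              rw [← Matrix.mul_assoc, hinv, Matrix.one_mul]
          _ = (1 + S)⁻¹ * ((S - 1) * (1 + S)) * (1 + S)⁻¹ := by rw [hcomm]
          _ = (1 + S)⁻¹ * (S - 1) := by
              rw [Matrix.mul_assoc, Matrix.mul_assoc, hinv', Matrix.mul_one]
      have hBt : Bᵀ = B := by
        rw [hBdef, transpose_mul, transpose_nonsing_inv, transpose_sub, transpose_add,
          transpose_one, hSt, hcomm']
      have e1 : 1 - B = (2 : ℂ) • (1 + S)⁻¹ := by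
        calc 1 - B = (1 + S) * (1 + S)⁻¹ - (S - 1) * (1 + S)⁻¹ := by rw [hinv']
          _ = ((1 + S) - (S - 1)) * (1 + S)⁻¹ := (Matrix.sub_mul _ _ _).symm
          _ = (2 : ℂ) • (1 + S)⁻¹ := by
              have h3 : (1 + S) - (S - 1) = (2 : ℂ) • (1 : M3) := by
                rw [two_smul]; abel
              rw [h3, smul_mul_assoc, Matrix.one_mul]
      have e2 : 1 + B = S * (1 - B) := by
        have h3 : 1 + B = ((1 + S) + (S - 1)) * (1 + S)⁻¹ := by
          rw [Matrix.add_mul, hinv']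
        have h4 : (1 + S) + (S - 1) = (2 : ℂ) • S := by rw [two_smul]; abel
        rw [h3, h4, e1, smul_mul_assoc, mul_smul_comm]
      have hdB : (1 - B).det ≠ 0 := by
        rw [e1, det_smul]
        refine mul_ne_zero (pow_ne_zero _ two_ne_zero) ?_
        rw [det_nonsing_inv, Ring.inverse_eq_inv']
        exact inv_ne_zero hdet
      have hcay : cay B = (1 - B).det • S := by
        rw [cay, e2, Matrix.mul_assoc, Matrix.mul_adjugate, mul_smul_comm, Matrix.mul_one]
      have h5 : evM (cay B) p = 0 := by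
        have h6 : B = mat fun z => Sym2.lift ⟨fun a b => (B a b + B b a) / 2, fun a b =>
            congrArg (· / 2) (add_comm (B a b) (B b a))⟩ z := by
          ext a b
          change B a b = (B a b + B b a) / 2
          have h7 : B b a = B a b := congrFun (congrFun hBt a) b
          rw [h7]
          ring
        rw [h6]
        exact evM_cay hp h _
      rw [hcay, evM_smul hp] at h5
      have h6 := (mul_eq_zero.1 h5).resolve_left (pow_ne_zero _ hdB)
      rw [hS, evM_mat] at h6
      rw [h6, zero_mul]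
  refine (mul_eq_zero.1 h1).resolve_right fun h0 => ?_
  have h2 := hdP 0
  rw [h0, map_zero] at h2
  have h3 : mat 0 = 0 := rfl
  rw [h3, add_zero, det_one] at h2
  exact zero_ne_one h2

/-- the determinant as a polynomial -/
def detP : Pol := xv 0 0 * xv 1 1 * xv 2 2 + 2 * xv 0 1 * xv 1 2 * xv 0 2
  - xv 0 0 * xv 1 2 ^ 2 - xv 1 1 * xv 0 2 ^ 2 - xv 2 2 * xv 0 1 ^ 2

theorem ev_detP : ev detP = 1 := by
  funext S
  have hdet : S.1.det = 1 := (Matrix.mem_specialUnitaryGroup_iff.1 S.2.1).2
  rw [Matrix.det_fin_three, XX_symm S 0 1, XX_symm S 0 2, XX_symm S 1 2] at hdet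
  have h2 : ev (2 : Pol) S = 2 := by rw [ev_apply, map_ofNat]
  have h3 : ev detP S = ev (xv 0 0) S * ev (xv 1 1) S * ev (xv 2 2) S +
      ev 2 S * ev (xv 0 1) S * ev (xv 1 2) S * ev (xv 0 2) S -
      ev (xv 0 0) S * ev (xv 1 2) S ^ 2 - ev (xv 1 1) S * ev (xv 0 2) S ^ 2 -
      ev (xv 2 2) S * ev (xv 0 1) S ^ 2 := by
    simp only [detP, ev_apply, map_add, map_sub, map_mul, map_pow]
  rw [h3, h2]
  simp only [ev_xv, Pi.one_apply]
  linear_combination hdet

theorem xv_weight (a b : Fin 3) :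
    MvPolynomial.IsWeightedHomogeneous wt (xv a b) (Finsupp.single a 1 + Finsupp.single b 1) :=
  MvPolynomial.isWeightedHomogeneous_X ℂ wt s(a, b)

theorem detP_weight : detP ∈ Vw (Finsupp.single 0 2 + Finsupp.single 1 2 + Finsupp.single 2 2) := by
  have hc : ∀ (μ ν : Fin 3 →₀ ℕ) (p : Pol), μ = ν → MvPolynomial.IsWeightedHomogeneous wt p μ →
      MvPolynomial.IsWeightedHomogeneous wt p ν := fun μ ν p h hp => h ▸ hp
  have h2 : MvPolynomial.IsWeightedHomogeneous wt (2 : Pol) (0 : Fin 3 →₀ ℕ) := by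
    have h3 : (2 : Pol) = MvPolynomial.C (2 : ℂ) := by rw [map_ofNat]
    rw [h3]
    exact MvPolynomial.isWeightedHomogeneous_C wt _
  change MvPolynomial.IsWeightedHomogeneous wt detP _
  refine MvPolynomial.IsWeightedHomogeneous.sub (MvPolynomial.IsWeightedHomogeneous.sub
    (MvPolynomial.IsWeightedHomogeneous.sub (MvPolynomial.IsWeightedHomogeneous.add ?_ ?_) ?_) ?_) ?_
  · refine hc _ _ _ ?_ (((xv_weight 0 0).mul (xv_weight 1 1)).mul (xv_weight 2 2))
    ext i; fin_cases i <;> simp
  · refine hc _ _ _ ?_ (((h2.mul (xv_weight 0 1)).mul (xv_weight 1 2)).mul (xv_weight 0 2))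
    ext i; fin_cases i <;> simp
  · refine hc _ _ _ ?_ ((xv_weight 0 0).mul ((xv_weight 1 2).pow 2))
    ext i; fin_cases i <;> simp
  · refine hc _ _ _ ?_ ((xv_weight 1 1).mul ((xv_weight 0 2).pow 2))
    ext i; fin_cases i <;> simp
  · refine hc _ _ _ ?_ ((xv_weight 2 2).mul ((xv_weight 0 1).pow 2))
    ext i; fin_cases i <;> simp

/-- the complex conjugate of a polynomial function on `XX` is a polynomial function
(`S̄ = S⁻¹ = adj S`) -/
theorem ev_conj (p : Pol) : ∃ p' : Pol, ∀ S, ev p' S = starRingEnd ℂ (ev p S) := by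
  induction p using MvPolynomial.induction_on with
  | C a => exact ⟨MvPolynomial.C (starRingEnd ℂ a), fun S => by
      rw [ev_apply, ev_apply, MvPolynomial.algHom_C, MvPolynomial.algHom_C]; rfl⟩
  | add p q hp hq =>
    obtain ⟨p', hp'⟩ := hp
    obtain ⟨q', hq'⟩ := hq
    refine ⟨p' + q', fun S => ?_⟩
    rw [map_add, map_add, Pi.add_apply, Pi.add_apply, hp', hq', map_add]
  | mul_X p z hp =>
    obtain ⟨p', hp'⟩ := hp
    induction z using Sym2.inductionOn with | hf a b => ?_
    refine ⟨p' * gmat.adjugate a b, fun S => ?_⟩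
    rw [map_mul, map_mul, Pi.mul_apply, Pi.mul_apply, hp', map_mul]
    congr 1
    change ev (gmat.adjugate a b) S = starRingEnd ℂ (ev (xv a b) S)
    rw [ev_xv, ev_apply]
    have h1 : evM S.1 (gmat.adjugate a b) = (S.1).adjugate a b := by
      have h2 : (evM S.1).mapMatrix gmat = S.1 := gmat_map S.1 S.2.2
      have h3 := AlgHom.map_adjugate (evM S.1) gmat
      rw [h2] at h3
      rw [← h3]
      rfl
    rw [h1]
    have hS := Matrix.mem_specialUnitaryGroup_iff.1 S.2.1
    have h2 : (S.1).adjugate = (S.1)ᴴ := by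
      have h3 : star S.1 * S.1 = 1 := Matrix.mem_unitaryGroup_iff'.1 hS.1
      calc (S.1).adjugate = (star S.1 * S.1) * (S.1).adjugate := by rw [h3, Matrix.one_mul]
        _ = star S.1 := by
            rw [Matrix.mul_assoc, Matrix.mul_adjugate, hS.2, one_smul, Matrix.mul_one]
    rw [h2, conjTranspose_apply, XX_symm]
    rfl

/-- torus action: polynomials of weight `μ` -/
def dg (x y : ℝ) : SU3 := ⟨diagonal ![exp (I * x), exp (I * y), exp (-(I * (x + y)))], by
  rw [Matrix.mem_specialUnitaryGroup_iff, Matrix.mem_unitaryGroup_iff]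
  refine ⟨?_, ?_⟩
  · rw [star_eq_conjTranspose, diagonal_conjTranspose, diagonal_mul_diagonal, ← diagonal_one]
    congr 1
    funext i
    fin_cases i <;>
      simp [← Complex.exp_conj, ← Complex.exp_add]
  · rw [det_diagonal, Fin.prod_univ_three]
    change exp (I * x) * exp (I * y) * exp (-(I * (x + y))) = 1
    rw [← Complex.exp_add, ← Complex.exp_add, ← Complex.exp_zero]
    congr 1
    ring⟩

theorem ev_dg {μ : Fin 3 →₀ ℕ} {p : Pol} (hp : p ∈ Vw μ) (x y : ℝ) :
    ev p ∘ tau (dg x y) = exp (I * (μ 0 * x + μ 1 * y - μ 2 * (x + y))) • ev p := by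
  funext S
  rw [Function.comp_apply, Pi.smul_apply, smul_eq_mul, ev_apply, ev_apply]
  set dd : Fin 3 → ℂ := ![exp (I * x), exp (I * y), exp (-(I * (x + y)))] with hdd
  refine evM_scale S.1 _ (fun z => ∏ i, dd i ^ (wt z i)) _ p (fun a b => ?_) (fun m hm => ?_)
  · have h1 : (tau (dg x y) S).1 = diagonal dd * S.1 * (diagonal dd)ᵀ := rfl
    have h2 : ∀ a b, (tau (dg x y) S).1 a b = dd a * S.1 a b * dd b := by
      intro a b
      rw [h1, diagonal_transpose, Matrix.mul_diagonal, Matrix.diagonal_mul]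
    have h3 : ∏ i, dd i ^ (wt s(a, b) i) = dd a * dd b := by
      rw [wt_mk]
      simp only [Finsupp.add_apply, pow_add, Finset.prod_mul_distrib]
      rw [Finset.prod_eq_single a, Finset.prod_eq_single b]
      · simp
      · intro i _ hi
        rw [Finsupp.single_eq_of_ne hi, pow_zero]
      · intro h; exact absurd (Finset.mem_univ b) h
      · intro i _ hi
        rw [Finsupp.single_eq_of_ne hi, pow_zero]
      · intro h; exact absurd (Finset.mem_univ a) h
    rw [evM_xv, evM_xv, h2, h2, h3]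
    ring
  · have h1 := hp (MvPolynomial.mem_support_iff.1 hm)
    rw [Finsupp.weight_apply, Finsupp.sum_fintype _ _ (fun _ => by simp)] at h1
    have h2 : ∏ z, (∏ i, dd i ^ (wt z i)) ^ m z = ∏ i, dd i ^ (μ i) := by
      simp only [← Finset.prod_pow]
      rw [Finset.prod_comm]
      refine Finset.prod_congr rfl fun i _ => ?_
      simp only [← pow_mul]
      rw [Finset.prod_pow_eq_pow_sum]
      congr 1
      rw [← h1, Finsupp.finsetSum_apply]
      refine Finset.sum_congr rfl fun z _ => ?_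
      rw [Finsupp.smul_apply, smul_eq_mul, mul_comm]
    rw [h2, Fin.prod_univ_three]
    change exp (I * x) ^ μ 0 * exp (I * y) ^ μ 1 * exp (-(I * (x + y))) ^ μ 2 = _
    rw [← Complex.exp_nat_mul, ← Complex.exp_nat_mul, ← Complex.exp_nat_mul, ← Complex.exp_add,
      ← Complex.exp_add]
    congr 1
    ring

end Pool.Agent.Iso79
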