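import Pool.Agent.Iso79.Inj
import Pool.Agent.Iso79.Sigma

/-! # Linear bijections of `XX`: see steps (4)-(6) in the documentation of `IsoA.lean` -/

open Matrix Complex

noncomputable section

namespace Pool.Agent.Iso79

/-- the entry `(i, j)` of `A S` as a linear form in the entries of a symmetric matrix `S` -/
def alf (A : M3 →ₗ[ℂ] M3) (i j : Fin 3) : Pol :=
  ∑ a, ∑ b, MvPolynomial.C (A (Matrix.single a b 1) i j) * xv a b

theorem xv_hom (a b : Fin 3) : (xv a b).IsHomogeneous 1 := MvPolynomial.isHomogeneous_X _ _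

theorem alf_hom (A : M3 →ₗ[ℂ] M3) (i j : Fin 3) : (alf A i j).IsHomogeneous 1 := by
  unfold alf
  refine MvPolynomial.IsHomogeneous.sum _ _ _ fun a _ =>
    MvPolynomial.IsHomogeneous.sum _ _ _ fun b _ => ?_
  exact (xv_hom a b).C_mul _

theorem lin_apply (A : M3 →ₗ[ℂ] M3) (S : M3) (i j : Fin 3) :
    A S i j = ∑ a, ∑ b, S a b * A (Matrix.single a b 1) i j := by
  conv_lhs => rw [Matrix.matrix_eq_sum_single S]
  rw [map_sum, Matrix.sum_apply]
  refine Finset.sum_congr rfl fun a _ => ?_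
  rw [map_sum, Matrix.sum_apply]
  refine Finset.sum_congr rfl fun b _ => ?_
  have h1 : Matrix.single a b (S a b) = S a b • Matrix.single a b (1 : ℂ) := by
    rw [Matrix.smul_single, smul_eq_mul, mul_one]
  rw [h1, map_smul, Matrix.smul_apply, smul_eq_mul]

theorem evM_xv' {S : M3} (hS : Sᵀ = S) (a b : Fin 3) : evM S (xv a b) = S a b := by
  rw [evM_xv]
  have h1 : S b a = S a b := congrFun (congrFun hS a) b
  rw [h1]; ring

theorem evM_alf (A : M3 →ₗ[ℂ] M3) {S : M3} (hS : Sᵀ = S) (i j : Fin 3) :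
    evM S (alf A i j) = A S i j := by
  unfold alf
  rw [lin_apply, map_sum]
  refine Finset.sum_congr rfl fun a _ => ?_
  rw [map_sum]
  refine Finset.sum_congr rfl fun b _ => ?_
  rw [map_mul, evM_xv' hS, MvPolynomial.algHom_C, mul_comm]
  rfl

theorem poly_zero {d : ℕ} {p : Pol} (hp : p.IsHomogeneous d) (h : ∀ S : XX, evM S.1 p = 0) :
    p = 0 := ev_inj hp (funext h)

theorem XX_adj (S : XX) : S.1.adjugate = S.1.map (starRingEnd ℂ) := by
  have h1 := S.2.1
  rw [Matrix.mem_specialUnitaryGroup_iff, Matrix.mem_unitaryGroup_iff] at h1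
  have h2 : star S.1 = S.1.map (starRingEnd ℂ) := by
    ext i j
    rw [Matrix.star_apply, Matrix.map_apply]
    have h3 : S.1 j i = S.1 i j := congrFun (congrFun S.2.2 i) j
    rw [h3]; rfl
  rw [← h2]
  calc S.1.adjugate = S.1.adjugate * (S.1 * star S.1) := by rw [h1.1, Matrix.mul_one]
    _ = star S.1 := by rw [← Matrix.mul_assoc, Matrix.adjugate_mul, h1.2, one_smul, Matrix.one_mul]

/-- `A` preserves the symmetric matrices -/
theorem lin_symm {φ : Equiv.Perm XX} {A : M3 →ₗ[ℂ] M3} (h : ∀ S : XX, (φ S).1 = A S.1)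
    {S : M3} (hS : Sᵀ = S) : (A S)ᵀ = A S := by
  ext i j
  have h1 : alf A j i - alf A i j = 0 := by
    refine poly_zero ((alf_hom A j i).sub (alf_hom A i j)) fun T => ?_
    rw [map_sub, evM_alf A T.2.2, evM_alf A T.2.2, ← h, sub_eq_zero]
    exact congrFun (congrFun (φ T).2.2 i) j
  have h2 := congrArg (evM S) h1
  rw [map_sub, evM_alf A hS, evM_alf A hS, map_zero, sub_eq_zero] at h2
  exact h2

theorem hom_det {M : Matrix (Fin 3) (Fin 3) Pol} (hM : ∀ i j, (M i j).IsHomogeneous 1) :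
    M.det.IsHomogeneous 3 := by
  rw [Matrix.det_fin_three]
  have h3 : ∀ a b c d e f : Fin 3, (M a b * M c d * M e f).IsHomogeneous 3 := fun a b c d e f =>
    ((hM a b).mul (hM c d)).mul (hM e f)
  exact (((((h3 _ _ _ _ _ _).sub (h3 _ _ _ _ _ _)).sub (h3 _ _ _ _ _ _)).add
    (h3 _ _ _ _ _ _)).add (h3 _ _ _ _ _ _)).sub (h3 _ _ _ _ _ _)

theorem hom_adj {M : Matrix (Fin 3) (Fin 3) Pol} (hM : ∀ i j, (M i j).IsHomogeneous 1)
    (i j : Fin 3) : (M.adjugate i j).IsHomogeneous 2 := by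
  have h3 : ∀ a b c d : Fin 3, (M a b * M c d).IsHomogeneous 2 := fun a b c d =>
    (hM a b).mul (hM c d)
  rw [Matrix.adjugate_fin_three]
  fin_cases i <;> fin_cases j <;> simp <;>
    first
      | exact (h3 _ _ _ _).sub (h3 _ _ _ _)
      | exact (h3 _ _ _ _).neg.add (h3 _ _ _ _)

theorem evM_det (S : M3) (M : Matrix (Fin 3) (Fin 3) Pol) :
    evM S M.det = (M.map (evM S)).det := AlgHom.map_det _ _

theorem evM_adj (S : M3) (M : Matrix (Fin 3) (Fin 3) Pol) (i j : Fin 3) :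
    evM S (M.adjugate i j) = (M.map (evM S)).adjugate i j := by
  have h1 := AlgHom.map_adjugate (evM S) M
  exact congrFun (congrFun h1 i) j

/-- `A` preserves the determinant of symmetric matrices -/
theorem lin_det {φ : Equiv.Perm XX} {A : M3 →ₗ[ℂ] M3} (h : ∀ S : XX, (φ S).1 = A S.1)
    {S : M3} (hS : Sᵀ = S) : (A S).det = S.det := by
  have e1 : ∀ {T : M3}, Tᵀ = T → (Matrix.of (alf A)).map (evM T) = A T := fun hT =>
    Matrix.ext fun i j => evM_alf A hT i j
  have e2 : ∀ {T : M3}, Tᵀ = T → (Matrix.of xv).map (evM T) = T := fun hT =>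
    Matrix.ext fun i j => evM_xv' hT i j
  have h1 : (Matrix.of (alf A)).det - (Matrix.of xv).det = 0 := by
    refine poly_zero ((hom_det (alf_hom A)).sub (hom_det xv_hom)) fun T => ?_
    rw [map_sub, evM_det, evM_det, e1 T.2.2, e2 T.2.2, ← h,
      (Matrix.mem_specialUnitaryGroup_iff.1 (φ T).2.1).2,
      (Matrix.mem_specialUnitaryGroup_iff.1 T.2.1).2, sub_self]
  have h2 := congrArg (evM S) h1
  rw [map_sub, evM_det, evM_det, e1 hS, e2 hS, map_zero, sub_eq_zero] at h2
  exact h2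

/-- `A` maps matrices of rank `≤ 1` to such matrices -/
theorem lin_adj {φ : Equiv.Perm XX} {A : M3 →ₗ[ℂ] M3} (h : ∀ S : XX, (φ S).1 = A S.1)
    {S : M3} (hS : Sᵀ = S) (h0 : S.adjugate = 0) : (A S).adjugate = 0 := by
  have e1 : ∀ {T : M3}, Tᵀ = T → (Matrix.of (alf A)).map (evM T) = A T := fun hT =>
    Matrix.ext fun i j => evM_alf A hT i j
  have e2 : ∀ {T : M3}, Tᵀ = T → (Matrix.of xv).map (evM T) = T := fun hT =>
    Matrix.ext fun i j => evM_xv' hT i j
  ext i j
  have h1 : (Matrix.of (alf A)).adjugate i j - ∑ a, ∑ b,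
      MvPolynomial.C (starRingEnd ℂ (A (Matrix.single a b 1) i j)) *
        (Matrix.of xv).adjugate a b = 0 := by
    refine poly_zero (d := 2) ((hom_adj (alf_hom A) i j).sub (MvPolynomial.IsHomogeneous.sum _ _ _
      fun a _ => MvPolynomial.IsHomogeneous.sum _ _ _ fun b _ => (hom_adj xv_hom a b).C_mul _))
      fun T => ?_
    rw [map_sub, evM_adj, e1 T.2.2, ← h, XX_adj, Matrix.map_apply, h, lin_apply, map_sum, map_sum,
      sub_eq_zero]
    refine Finset.sum_congr rfl fun a _ => ?_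
    rw [map_sum, map_sum]
    refine Finset.sum_congr rfl fun b _ => ?_
    rw [map_mul, map_mul, evM_adj, e2 T.2.2, XX_adj, Matrix.map_apply, MvPolynomial.algHom_C,
      mul_comm]
    rfl
  have h2 := congrArg (evM S) h1
  rw [map_sub, evM_adj, e1 hS, map_zero, sub_eq_zero, map_sum] at h2
  rw [h2, Matrix.zero_apply]
  refine Finset.sum_eq_zero fun a _ => ?_
  rw [map_sum]
  refine Finset.sum_eq_zero fun b _ => ?_
  rw [map_mul, evM_adj, e2 hS, h0, Matrix.zero_apply, mul_zero]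

/-- symmetric matrices of rank `≤ 1` -/
theorem rank_one {R : M3} (hR : Rᵀ = R) (h0 : R.adjugate = 0) :
    ∃ w : Fin 3 → ℂ, R = Matrix.vecMulVec w w := by
  have hs : ∀ i j, R j i = R i j := fun i j => congrFun (congrFun hR i) j
  have h10 := hs 0 1
  have h20 := hs 0 2
  have h21 := hs 1 2
  rw [Matrix.adjugate_fin_three] at h0
  have e00 := congrFun (congrFun h0 0) 0
  have e01 := congrFun (congrFun h0 0) 1
  have e02 := congrFun (congrFun h0 0) 2
  have e11 := congrFun (congrFun h0 1) 1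
  have e12 := congrFun (congrFun h0 1) 2
  have e22 := congrFun (congrFun h0 2) 2
  simp only [Matrix.of_apply, Matrix.cons_val', Matrix.cons_val_zero, Matrix.cons_val_one,
    Matrix.cons_val, Matrix.zero_apply, h10, h20, h21] at e00 e01 e02 e11 e12 e22
  have hm : ∀ i k l, R k l * R i i = R k i * R i l := by
    intro i k l
    fin_cases i <;> fin_cases k <;> fin_cases l <;>
      simp only [Fin.zero_eta, Fin.mk_one, Fin.reduceFinMk, h10, h20, h21] <;>
      first
        | ring1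
        | linear_combination e00
        | linear_combination e01
        | linear_combination e02
        | linear_combination e11
        | linear_combination e12
        | linear_combination e22
        | linear_combination -e00
        | linear_combination -e01
        | linear_combination -e02
        | linear_combination -e11
        | linear_combination -e12
  by_cases hd : ∃ i, R i i ≠ 0
  · obtain ⟨i, hi⟩ := hd
    obtain ⟨s, hs2⟩ := IsAlgClosed.exists_pow_nat_eq (R i i) (n := 2) (by norm_num)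
    have hs0 : s ≠ 0 := by
      rintro rfl
      rw [zero_pow two_ne_zero] at hs2
      exact hi hs2.symm
    refine ⟨fun k => R k i / s, ?_⟩
    ext k l
    rw [Matrix.vecMulVec_apply, div_mul_div_comm, ← sq, hs2, eq_div_iff hi, hm, hs l i]
  · push Not at hd
    refine ⟨0, ?_⟩
    ext k l
    rw [Matrix.vecMulVec_apply]
    have h2 : R k l * R k l = R k k * R l l := by
      rw [hm l k k, hs k l]
    rw [hd, hd, mul_zero] at h2
    simpa using h2

theorem vec_symm (x : Fin 3 → ℂ) : (Matrix.vecMulVec x x)ᵀ = Matrix.vecMulVec x x := by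
  ext i j
  rw [Matrix.transpose_apply, Matrix.vecMulVec_apply, Matrix.vecMulVec_apply, mul_comm]

theorem vec_adj (x : Fin 3 → ℂ) : (Matrix.vecMulVec x x).adjugate = 0 := by
  rw [Matrix.adjugate_fin_three]
  ext i j
  fin_cases i <;> fin_cases j <;> simp [Matrix.vecMulVec_apply] <;> ring1

theorem minor_lemma {a b c p q r : ℂ} (h : ∀ s t : ℂ,
    (s ^ 2 + s * t * a) * (t ^ 2 + s * t * b) = (s * t * p) ^ 2 ∧
    (s ^ 2 + s * t * a) * (s * t * c) = (s * t * q) ^ 2 ∧
    (t ^ 2 + s * t * b) * (s * t * c) = (s * t * r) ^ 2) :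
    a = 0 ∧ b = 0 ∧ c = 0 ∧ q = 0 ∧ r = 0 ∧ p ^ 2 = 1 := by
  obtain ⟨h1, h2, h3⟩ := h 1 1
  obtain ⟨h1', h2', h3'⟩ := h 1 (-1)
  obtain ⟨h1'', -, -⟩ := h 1 2
  have hab : a + b = 0 := by linear_combination (h1 - h1') / 2
  have hp : 1 + a * b = p ^ 2 := by linear_combination (h1 + h1') / 2
  have ha : a = 0 := by linear_combination (h1'' - 4 * hp - 2 * hab) / 6
  have hb : b = 0 := by linear_combination hab - ha
  have hc : c = 0 := by linear_combination (h2 - h2') / 2
  have hq : q ^ 2 = 0 := by linear_combination -h2 + (1 + a) * hc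
  have hr : r ^ 2 = 0 := by linear_combination -h3 + (1 + b) * hc
  refine ⟨ha, hb, hc, pow_eq_zero_iff two_ne_zero |>.1 hq, pow_eq_zero_iff two_ne_zero |>.1 hr, ?_⟩
  rw [← hp, ha]; ring

theorem vecMulVec_expand (x : Fin 3 → ℂ) : Matrix.vecMulVec x x =
    x 0 ^ 2 • Matrix.single 0 0 (1 : ℂ) + x 1 ^ 2 • Matrix.single 1 1 (1 : ℂ) +
      x 2 ^ 2 • Matrix.single 2 2 (1 : ℂ) +
      (x 0 * x 1) • (Matrix.single 0 1 (1 : ℂ) + Matrix.single 1 0 (1 : ℂ)) +
      (x 0 * x 2) • (Matrix.single 0 2 (1 : ℂ) + Matrix.single 2 0 (1 : ℂ)) +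
      (x 1 * x 2) • (Matrix.single 1 2 (1 : ℂ) + Matrix.single 2 1 (1 : ℂ)) := by
  ext i j
  fin_cases i <;> fin_cases j <;> simp [Matrix.vecMulVec_apply] <;> ring1

theorem symm_expand {S : M3} (hS : Sᵀ = S) : S =
    S 0 0 • Matrix.single 0 0 (1 : ℂ) + S 1 1 • Matrix.single 1 1 (1 : ℂ) +
      S 2 2 • Matrix.single 2 2 (1 : ℂ) +
      S 0 1 • (Matrix.single 0 1 (1 : ℂ) + Matrix.single 1 0 (1 : ℂ)) +
      S 0 2 • (Matrix.single 0 2 (1 : ℂ) + Matrix.single 2 0 (1 : ℂ)) +
      S 1 2 • (Matrix.single 1 2 (1 : ℂ) + Matrix.single 2 1 (1 : ℂ)) := by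
  have hs : ∀ i j, S j i = S i j := fun i j => congrFun (congrFun hS i) j
  ext i j
  fin_cases i <;> fin_cases j <;> simp [hs 0 1, hs 0 2, hs 1 2]

/-- step (5): normalised form -/
theorem norm_form {A : M3 →ₗ[ℂ] M3}
    (hE : ∀ i, A (Matrix.single i i 1) = Matrix.single i i 1)
    (hw : ∀ x : Fin 3 → ℂ, ∃ w, A (Matrix.vecMulVec x x) = Matrix.vecMulVec w w) :
    ∃ D : M3, ∀ S : M3, Sᵀ = S → A S = D * S * Dᵀ := by
  set B01 := A (Matrix.single 0 1 (1 : ℂ) + Matrix.single 1 0 (1 : ℂ)) with hB01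
  set B02 := A (Matrix.single 0 2 (1 : ℂ) + Matrix.single 2 0 (1 : ℂ)) with hB02
  set B12 := A (Matrix.single 1 2 (1 : ℂ) + Matrix.single 2 1 (1 : ℂ)) with hB12
  have hF : ∀ x : Fin 3 → ℂ, ∃ w : Fin 3 → ℂ, ∀ i j,
      x 0 ^ 2 * Matrix.single 0 0 (1 : ℂ) i j + x 1 ^ 2 * Matrix.single 1 1 (1 : ℂ) i j +
      x 2 ^ 2 * Matrix.single 2 2 (1 : ℂ) i j + (x 0 * x 1) * B01 i j + (x 0 * x 2) * B02 i j +
      (x 1 * x 2) * B12 i j = w i * w j := by
    intro x
    obtain ⟨w, hw'⟩ := hw x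
    refine ⟨w, fun i j => ?_⟩
    rw [vecMulVec_expand] at hw'
    simp only [map_add, map_smul, hE] at hw'
    have h1 := congrFun (congrFun hw' i) j
    rw [Matrix.vecMulVec_apply] at h1
    rw [← h1, hB01, hB02, hB12]
    simp only [map_add, Matrix.add_apply, Matrix.smul_apply, smul_eq_mul]
  have hsym : ∀ i j, B01 j i = B01 i j ∧ B02 j i = B02 i j ∧ B12 j i = B12 i j := by
    intro i j
    obtain ⟨w, h1⟩ := hF ![1, 1, 0]
    obtain ⟨w', h2⟩ := hF ![1, 0, 1]
    obtain ⟨w'', h3⟩ := hF ![0, 1, 1]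
    have h1a := h1 i j
    have h1b := h1 j i
    have h2a := h2 i j
    have h2b := h2 j i
    have h3a := h3 i j
    have h3b := h3 j i
    have hsg : ∀ k, Matrix.single k k (1 : ℂ) j i = Matrix.single k k (1 : ℂ) i j := by
      intro k
      rw [Matrix.single_apply, Matrix.single_apply]
      simp only [and_comm]
    simp only [Matrix.cons_val_zero, Matrix.cons_val_one, Matrix.cons_val, hsg] at h1a h1b h2a h2b h3a h3b
    refine ⟨?_, ?_, ?_⟩
    · linear_combination h1b - h1a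
    · linear_combination h2b - h2a
    · linear_combination h3b - h3a
  obtain ⟨a00, a11, a22, a02, a12, a01⟩ := minor_lemma (a := B01 0 0) (b := B01 1 1) (c := B01 2 2)
    (p := B01 0 1) (q := B01 0 2) (r := B01 1 2) (by
      intro s t
      obtain ⟨w, hw⟩ := hF ![s, t, 0]
      have h00 := hw 0 0
      have h11 := hw 1 1
      have h22 := hw 2 2
      have h01 := hw 0 1
      have h02 := hw 0 2
      have h12 := hw 1 2
      simp at h00 h11 h22 h01 h02 h12
      refine ⟨?_, ?_, ?_⟩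
      · rw [h00, h11, h01]; ring
      · rw [h00, h22, h02]; ring
      · rw [h11, h22, h12]; ring)
  obtain ⟨b00, b22, b11, b01, b21, b02⟩ := minor_lemma (a := B02 0 0) (b := B02 2 2) (c := B02 1 1)
    (p := B02 0 2) (q := B02 0 1) (r := B02 1 2) (by
      intro s t
      obtain ⟨w, hw⟩ := hF ![s, 0, t]
      have h00 := hw 0 0
      have h11 := hw 1 1
      have h22 := hw 2 2
      have h01 := hw 0 1
      have h02 := hw 0 2
      have h12 := hw 1 2
      simp at h00 h11 h22 h01 h02 h12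
      refine ⟨?_, ?_, ?_⟩
      · rw [h00, h22, h02]; ring
      · rw [h00, h11, h01]; ring
      · rw [h22, h11, h12]; ring)
  obtain ⟨c11, c22, c00, c01, c02, c12⟩ := minor_lemma (a := B12 1 1) (b := B12 2 2) (c := B12 0 0)
    (p := B12 1 2) (q := B12 0 1) (r := B12 0 2) (by
      intro s t
      obtain ⟨w, hw⟩ := hF ![0, s, t]
      have h00 := hw 0 0
      have h11 := hw 1 1
      have h22 := hw 2 2
      have h01 := hw 0 1
      have h02 := hw 0 2
      have h12 := hw 1 2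
      simp at h00 h11 h22 h01 h02 h12
      refine ⟨?_, ?_, ?_⟩
      · rw [h11, h22, h12]; ring
      · rw [h11, h00, h01]; ring
      · rw [h22, h00, h02]; ring)
  have hlast : B12 1 2 = B01 0 1 * B02 0 2 := by
    obtain ⟨w, hw⟩ := hF ![1, 1, 1]
    have h00 := hw 0 0
    have h01 := hw 0 1
    have h02 := hw 0 2
    have h12 := hw 1 2
    simp at h00 h01 h02 h12
    simp only [a00, b00, c00, add_zero] at h00
    simp only [b01, c01, add_zero] at h01
    simp only [a02, c02, add_zero, zero_add] at h02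
    simp only [a12, b21, zero_add] at h12
    rw [h01, h02, h12]
    linear_combination (w 1 * w 2) * h00
  refine ⟨diagonal ![1, B01 0 1, B02 0 2], fun S hS => ?_⟩
  have hs : ∀ i j, S j i = S i j := fun i j => congrFun (congrFun hS i) j
  have hAS : A S = S 0 0 • Matrix.single 0 0 (1 : ℂ) + S 1 1 • Matrix.single 1 1 (1 : ℂ) +
      S 2 2 • Matrix.single 2 2 (1 : ℂ) + S 0 1 • B01 + S 0 2 • B02 + S 1 2 • B12 := by
    conv_lhs => rw [symm_expand hS]
    rw [map_add, map_add, map_add, map_add, map_add, map_smul, map_smul, map_smul, map_smul,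
      map_smul, map_smul, hE, hE, hE]
  rw [hAS, Matrix.diagonal_transpose]
  have g1 := hsym 0 1
  have g2 := hsym 0 2
  have g3 := hsym 1 2
  ext i j
  rw [Matrix.mul_diagonal, Matrix.diagonal_mul]
  simp only [Matrix.add_apply, Matrix.smul_apply, smul_eq_mul]
  fin_cases i <;> fin_cases j <;>
    simp [a00, a11, a22, a02, a12, b00, b11, b22, b01, b21, c00, c11, c22, c01, c02, g1, g2, g3,
      hlast, hs 0 1, hs 0 2, hs 1 2]
  all_goals first
    | ring1
    | linear_combination (-(S 1 1)) * a01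
    | linear_combination (-(S 2 2)) * b02

/-- an element of `XX` with distinct eigenvalues -/
def T1 : XX := ⟨diagonal ![1, I, -I], by
  rw [Matrix.mem_specialUnitaryGroup_iff, Matrix.mem_unitaryGroup_iff]
  refine ⟨?_, ?_⟩
  · rw [star_eq_conjTranspose, diagonal_conjTranspose, diagonal_mul_diagonal, ← diagonal_one]
    congr 1
    funext i
    fin_cases i <;> simp
  · rw [det_diagonal, Fin.prod_univ_three]; simp, Matrix.diagonal_transpose _⟩

def T2 : XX := ⟨!![0, 1, 0; 1, 0, 0; 0, 0, -1], by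
  rw [Matrix.mem_specialUnitaryGroup_iff, Matrix.mem_unitaryGroup_iff]
  refine ⟨?_, ?_⟩
  · ext i j
    rw [Matrix.mul_apply, Fin.sum_univ_three]
    fin_cases i <;> fin_cases j <;> simp [Matrix.star_apply]
  · rw [Matrix.det_fin_three]; simp, by
  ext i j; fin_cases i <;> fin_cases j <;> simp⟩

def T3 : XX := ⟨!![-1, 0, 0; 0, 0, 1; 0, 1, 0], by
  rw [Matrix.mem_specialUnitaryGroup_iff, Matrix.mem_unitaryGroup_iff]
  refine ⟨?_, ?_⟩
  · ext i j
    rw [Matrix.mul_apply, Fin.sum_univ_three]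
    fin_cases i <;> fin_cases j <;> simp [Matrix.star_apply]
  · rw [Matrix.det_fin_three]; simp, by
  ext i j; fin_cases i <;> fin_cases j <;> simp⟩

/-- matrices commuting with `XX` are scalar -/
theorem scalar_of_comm {N : M3} (h : ∀ S : XX, S.1 * N = N * S.1) : N = N 0 0 • (1 : M3) := by
  have h1 := h T1
  have h2 := h T2
  have h3 := h T3
  have hoff : ∀ i j, i ≠ j → N i j = 0 := by
    intro i j hij
    have h4 := congrFun (congrFun h1 i) j
    change (diagonal ![1, I, -I] * N) i j = (N * diagonal ![1, I, -I]) i j at h4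
    rw [Matrix.mul_diagonal, Matrix.diagonal_mul] at h4
    have h5 : (![1, I, -I] i - ![1, I, -I] j : ℂ) * N i j = 0 := by
      rw [sub_mul, h4]; ring
    rcases mul_eq_zero.1 h5 with h6 | h6
    · exfalso
      have hI : (I : ℂ) ≠ 1 := by
        intro h; have := congrArg Complex.im h; simp at this
      have hI' : (I : ℂ) ≠ -1 := by
        intro h; have := congrArg Complex.im h; simp at this
      have hI'' : (I : ℂ) ≠ 0 := Complex.I_ne_zero
      fin_cases i <;> fin_cases j <;> first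
        | exact hij rfl
        | (simp at h6; done)
        | (simp at h6
           first
             | exact hI (by linear_combination -h6)
             | exact hI (by linear_combination h6)
             | exact hI' (by linear_combination h6)
             | exact hI' (by linear_combination -h6)
             | exact hI'' (by linear_combination h6 / 2)
             | exact hI'' (by linear_combination -h6 / 2))
    · exact h6
  have h01 : N 1 1 = N 0 0 := by
    have h4 := congrFun (congrFun h2 0) 1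
    rw [Matrix.mul_apply, Matrix.mul_apply, Fin.sum_univ_three, Fin.sum_univ_three] at h4
    simpa [T2] using h4
  have h12 : N 2 2 = N 1 1 := by
    have h4 := congrFun (congrFun h3 1) 2
    rw [Matrix.mul_apply, Matrix.mul_apply, Fin.sum_univ_three, Fin.sum_univ_three] at h4
    simpa [T3] using h4
  ext i j
  rw [Matrix.smul_apply, smul_eq_mul]
  by_cases hij : i = j
  · subst hij
    rw [Matrix.one_apply_eq, mul_one]
    fin_cases i
    · rfl
    · exact h01
    · exact h12.trans h01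
  · rw [hoff i j hij, Matrix.one_apply_ne hij, mul_zero]

/-- step (6) -/
theorem step6 {φ : Equiv.Perm XX} {Q : M3} (h : ∀ S : XX, (φ S).1 = Q * S.1 * Qᵀ) :
    ∃ g : SU3, φ = tau g := by
  have hone : (1 : M3) ∈ Matrix.specialUnitaryGroup (Fin 3) ℂ := one_mem _
  set S1 : XX := ⟨1, hone, Matrix.transpose_one⟩ with hS1
  have hdet : Q.det * Q.det = 1 := by
    have h1 := congrArg Matrix.det (h S1)
    rw [Matrix.det_mul, Matrix.det_mul, Matrix.det_transpose] at h1
    have h2 : (φ S1).1.det = 1 := (Matrix.mem_specialUnitaryGroup_iff.1 (φ S1).2.1).2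
    have h3 : S1.1.det = 1 := Matrix.det_one
    rw [h2, h3, mul_one] at h1
    exact h1.symm
  have hQu : IsUnit Q.det := IsUnit.of_mul_eq_one _ hdet
  set N : M3 := Qᵀ * (Qᵀ)ᴴ with hN
  have hSN : ∀ S : XX, S.1 * N * S.1ᴴ = Q⁻¹ * (Qᴴ)⁻¹ := by
    intro S
    have h1 := (Matrix.mem_unitaryGroup_iff.1 (Matrix.mem_specialUnitaryGroup_iff.1 (φ S).2.1).1)
    rw [h, star_eq_conjTranspose, Matrix.conjTranspose_mul, Matrix.conjTranspose_mul] at h1
    have hQ1 : Q⁻¹ * Q = 1 := Matrix.nonsing_inv_mul _ hQu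
    have hQ2 : Qᴴ * (Qᴴ)⁻¹ = 1 := Matrix.mul_nonsing_inv _ (by
      rw [Matrix.det_conjTranspose]; exact hQu.star)
    calc S.1 * N * S.1ᴴ = (Q⁻¹ * Q) * (S.1 * N * S.1ᴴ) * (Qᴴ * (Qᴴ)⁻¹) := by
          rw [hQ1, hQ2, Matrix.one_mul, Matrix.mul_one]
      _ = Q⁻¹ * (Q * S.1 * Qᵀ * ((Qᵀ)ᴴ * (S.1ᴴ * Qᴴ))) * (Qᴴ)⁻¹ := by
          rw [hN]; simp only [Matrix.mul_assoc]
      _ = _ := by rw [h1, Matrix.mul_one]
  have hN1 : N = Q⁻¹ * (Qᴴ)⁻¹ := by
    have h1 := hSN S1
    change 1 * N * (1 : M3)ᴴ = _ at h1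
    rwa [Matrix.one_mul, Matrix.conjTranspose_one, Matrix.mul_one] at h1
  have hcomm : ∀ S : XX, S.1 * N = N * S.1 := by
    intro S
    have h1 : S.1ᴴ * S.1 = 1 :=
      Matrix.mem_unitaryGroup_iff'.1 (Matrix.mem_specialUnitaryGroup_iff.1 S.2.1).1
    calc S.1 * N = S.1 * N * (S.1ᴴ * S.1) := by rw [h1, Matrix.mul_one]
      _ = S.1 * N * S.1ᴴ * S.1 := by simp only [Matrix.mul_assoc]
      _ = N * S.1 := by rw [hSN, ← hN1]
  have hNs := scalar_of_comm hcomm
  -- the scalar is a nonnegative real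
  obtain ⟨r, hr0, hr⟩ : ∃ r : ℝ, 0 ≤ r ∧ N 0 0 = r := by
    refine ⟨∑ k, ‖Qᵀ 0 k‖ ^ 2, Finset.sum_nonneg fun k _ => sq_nonneg _, ?_⟩
    rw [hN, Matrix.mul_apply]
    push_cast
    refine Finset.sum_congr rfl fun k _ => ?_
    rw [Matrix.conjTranspose_apply]
    exact Complex.mul_conj' _
  have hr3 : r ^ 3 = 1 := by
    have h1 : N.det = 1 := by
      rw [hN, Matrix.det_mul, Matrix.det_conjTranspose, Matrix.det_transpose]
      have h2 : ‖Q.det‖ = 1 := by
        have h3 := congrArg norm hdet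
        rw [norm_mul, norm_one] at h3
        nlinarith [norm_nonneg Q.det]
      have h3 : Q.det * star Q.det = (‖Q.det‖ : ℂ) ^ 2 := Complex.mul_conj' _
      rw [h3, h2]; simp
    rw [hNs, Matrix.det_smul, Matrix.det_one, mul_one, Fintype.card_fin, hr] at h1
    exact_mod_cast h1
  have hr1 : r = 1 := by
    nlinarith [sq_nonneg (r - 1), sq_nonneg (r + 1), sq_nonneg r]
  have hN2 : Qᵀ * (Qᵀ)ᴴ = 1 := by
    rw [← hN, hNs, hr, hr1]; simp
  have hQU : Q ∈ Matrix.unitaryGroup (Fin 3) ℂ := by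
    rw [Matrix.mem_unitaryGroup_iff', star_eq_conjTranspose]
    have h1 := congrArg Matrix.transpose hN2
    rw [Matrix.transpose_mul, Matrix.transpose_transpose, Matrix.transpose_one] at h1
    have h2 : ((Qᵀ)ᴴ)ᵀ = Qᴴ := by
      ext i j; rfl
    rwa [h2] at h1
  rcases mul_self_eq_one_iff.1 hdet with hd | hd
  · refine ⟨⟨Q, Matrix.mem_specialUnitaryGroup_iff.2 ⟨hQU, hd⟩⟩, Equiv.ext fun S => ?_⟩
    exact Subtype.ext (h S)
  · have hQU' : -Q ∈ Matrix.unitaryGroup (Fin 3) ℂ := by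
      rw [Matrix.mem_unitaryGroup_iff] at hQU ⊢
      rw [star_neg, neg_mul_neg, hQU]
    refine ⟨⟨-Q, Matrix.mem_specialUnitaryGroup_iff.2 ⟨hQU', ?_⟩⟩, Equiv.ext fun S => ?_⟩
    · rw [Matrix.det_neg, Fintype.card_fin, hd]; norm_num
    · apply Subtype.ext
      rw [h S]
      change _ = -Q * S.1 * (-Q)ᵀ
      rw [Matrix.transpose_neg, Matrix.neg_mul, _root_.neg_mul_neg]

/-- steps (4)-(6) -/
theorem linear_preserver (φ : Equiv.Perm XX) (A : M3 →ₗ[ℂ] M3)
    (h : ∀ S : XX, (φ S).1 = A S.1) : ∃ g : SU3, φ = tau g := by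
  have hsg : ∀ i : Fin 3, Matrix.vecMulVec (Pi.single i (1 : ℂ)) (Pi.single i (1 : ℂ)) =
      Matrix.single i i (1 : ℂ) := by
    intro i
    ext a b
    rw [Matrix.vecMulVec_apply]
    fin_cases i <;> fin_cases a <;> fin_cases b <;> simp
  have hy : ∀ i : Fin 3, ∃ w : Fin 3 → ℂ, A (Matrix.single i i 1) = Matrix.vecMulVec w w := by
    intro i
    rw [← hsg]
    exact rank_one (lin_symm h (vec_symm _)) (lin_adj h (vec_symm _) (vec_adj _))
  choose y hy using hy
  set Y : M3 := Matrix.of fun a i => y i a with hY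
  have hYE : ∀ i : Fin 3, Matrix.vecMulVec (y i) (y i) = Y * Matrix.single i i 1 * Yᵀ := by
    intro i
    ext a b
    rw [Matrix.vecMulVec_apply, Matrix.mul_apply, Finset.sum_eq_single i]
    · simp [hY]
    · intro k _ hk
      rw [Matrix.mul_single_apply_of_ne _ _ _ _ _ hk, zero_mul]
    · intro hi; exact absurd (Finset.mem_univ i) hi
  have hone : (1 : M3) = ∑ i, Matrix.single i i 1 := by
    ext a b
    fin_cases a <;> fin_cases b <;> simp [Fin.sum_univ_three]
  have hdet : Y.det * Y.det = 1 := by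
    have h1 := lin_det h (S := 1) Matrix.transpose_one
    have h2 : A 1 = Y * Yᵀ := by
      rw [hone, map_sum]
      simp only [hy, hYE]
      rw [← Finset.sum_mul, ← Finset.mul_sum, ← hone, Matrix.mul_one]
    rwa [h2, Matrix.det_mul, Matrix.det_transpose, Matrix.det_one] at h1
  have hYu : IsUnit Y.det := IsUnit.of_mul_eq_one _ hdet
  have hY1 : Y⁻¹ * Y = 1 := Matrix.nonsing_inv_mul _ hYu
  have hY2 : Y * Y⁻¹ = 1 := Matrix.mul_nonsing_inv _ hYu
  have hY3 : Yᵀ * (Y⁻¹)ᵀ = 1 := by rw [← Matrix.transpose_mul, hY1, Matrix.transpose_one]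
  have hY4 : (Y⁻¹)ᵀ * Yᵀ = 1 := by rw [← Matrix.transpose_mul, hY2, Matrix.transpose_one]
  set B : M3 →ₗ[ℂ] M3 := (LinearMap.mulLeft ℂ Y⁻¹) ∘ₗ (LinearMap.mulRight ℂ (Y⁻¹)ᵀ) ∘ₗ A with hB
  have hBa : ∀ S, B S = Y⁻¹ * (A S * (Y⁻¹)ᵀ) := fun S => rfl
  obtain ⟨D, hD⟩ := norm_form (A := B) (by
    intro i
    rw [hBa, hy, hYE]
    calc Y⁻¹ * (Y * Matrix.single i i 1 * Yᵀ * (Y⁻¹)ᵀ) =
        (Y⁻¹ * Y) * Matrix.single i i 1 * (Yᵀ * (Y⁻¹)ᵀ) := by simp only [Matrix.mul_assoc]
      _ = _ := by rw [hY1, hY3, Matrix.one_mul, Matrix.mul_one]) (by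
    intro x
    rw [hBa]
    apply rank_one
    · rw [Matrix.transpose_mul, Matrix.transpose_mul, Matrix.transpose_transpose,
        lin_symm h (vec_symm x), Matrix.mul_assoc]
    · rw [Matrix.adjugate_mul_distrib, Matrix.adjugate_mul_distrib,
        lin_adj h (vec_symm x) (vec_adj x), Matrix.mul_zero, Matrix.zero_mul])
  refine step6 (Q := Y * D) fun S => ?_
  rw [h]
  have h1 := hD S.1 S.2.2
  rw [hBa] at h1
  calc A S.1 = (Y * Y⁻¹) * A S.1 * ((Y⁻¹)ᵀ * Yᵀ) := by
        rw [hY2, hY4, Matrix.one_mul, Matrix.mul_one]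
    _ = Y * (Y⁻¹ * (A S.1 * (Y⁻¹)ᵀ)) * Yᵀ := by simp only [Matrix.mul_assoc]
    _ = Y * (D * S.1 * Dᵀ) * Yᵀ := by rw [h1]
    _ = Y * D * S.1 * (Y * D)ᵀ := by rw [Matrix.transpose_mul]; simp only [Matrix.mul_assoc]

end Pool.Agent.Iso79
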