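import Pool.Agent.Iso79.IsoA
import Pool.Agent.Iso79.IsoB

/-! # Bijections of `XX` which commute with the Laplacian -/

open Matrix Complex

noncomputable section

namespace Pool.Agent.Iso79

theorem iso_class (φ : Equiv.Perm XX) (h : PreservesLap φ) :
    ∃ g : SU3, φ = tau g ∨ φ = tau g * sigma := by
  rcases iso_linear φ h with ⟨A, hA⟩ | ⟨A, hA⟩
  · obtain ⟨g, hg⟩ := linear_preserver φ A hA
    exact ⟨g, Or.inl hg⟩
  · obtain ⟨g, hg⟩ := linear_preserver (φ * sigma) A hA
    refine ⟨g, Or.inr ?_⟩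
    have h2 : sigma * sigma = 1 := Equiv.ext fun S => sigma.left_inv S
    rw [← hg, mul_assoc, h2, mul_one]

end Pool.Agent.Iso79
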