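import Pool.Agent.Iso79.Poly

/-!
# The Casimir operator on products of two linear or adjugate forms (auxiliary for `IsoA`)
-/

open MvPolynomial

noncomputable section

namespace Pool.Agent.Iso79.IA

/-- the entries of the adjugate matrix -/
def AP (a b : Fin 3) : Pol := xv (a + 1) (b + 1) * xv (a + 2) (b + 2) -
  xv (a + 1) (b + 2) * xv (a + 2) (b + 1)

/-- Kronecker symbol -/
def kr (a b : Fin 3) : Pol := if a = b then 1 else 0

theorem xv10 : xv 1 0 = xv 0 1 := xv_symm _ _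
theorem xv20 : xv 2 0 = xv 0 2 := xv_symm _ _
theorem xv21 : xv 2 1 = xv 1 2 := xv_symm _ _

theorem AP_symm (a b : Fin 3) : AP a b = AP b a := by
  unfold AP
  rw [xv_symm (b + 1) (a + 1), xv_symm (b + 2) (a + 2), xv_symm (b + 1) (a + 2),
    xv_symm (b + 2) (a + 1)]
  ring

set_option maxHeartbeats 4000000 in
theorem Dd_AP (i j c d : Fin 3) : Dd i j (AP c d) =
    2 * kr i j * AP c d - kr j c * AP i d - kr j d * AP c i := by
  fin_cases i <;> fin_cases j <;> fin_cases c <;> fin_cases d <;>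
    simp [AP, kr, Dd_xv, Derivation.leibniz, xv10, xv20, xv21] <;> ring

theorem Dd_xv' (i j a b : Fin 3) : Dd i j (xv a b) = kr a i * xv j b + kr b i * xv a j := by
  rw [Dd_xv]; unfold kr
  split_ifs <;> simp

theorem TT_apply (p : Pol) : TT p = ∑ i, Dd i i p := by
  simp [TT, LinearMap.sum_apply]

theorem Cas_apply (p : Pol) : Cas p = -(1 / 4 : ℂ) • ((∑ i, ∑ j, Dd i j (Dd j i p)) -
    (1 / 3 : ℂ) • TT (TT p)) := by
  simp [Cas, LinearMap.sum_apply]

theorem TT_mul (f g : Pol) : TT (f * g) = TT f * g + f * TT g := by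
  rw [TT_apply, TT_apply, TT_apply, Finset.sum_mul, Finset.mul_sum, ← Finset.sum_add_distrib]
  refine Finset.sum_congr rfl fun i _ => ?_
  rw [Derivation.leibniz]
  simp only [smul_eq_mul]
  ring

/-- the symmetric part of the Casimir operator on a product -/
def Gam2 (f g : Pol) : Pol := -(1 / 4 : ℂ) • (2 * (∑ i, ∑ j, Dd i j f * Dd j i g) -
    (2 / 3 : ℂ) • (TT f * TT g))

theorem Cas_mul (f g : Pol) : Cas (f * g) = Cas f * g + f * Cas g + Gam2 f g := by
  have h1 : ∑ i, ∑ j, Dd i j (Dd j i (f * g)) = (∑ i, ∑ j, Dd i j (Dd j i f)) * g +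
      f * (∑ i, ∑ j, Dd i j (Dd j i g)) + 2 * (∑ i, ∑ j, Dd i j f * Dd j i g) := by
    have h2 : ∑ i, ∑ j, Dd i j f * Dd j i g = ∑ i, ∑ j, Dd j i f * Dd i j g := by
      rw [Finset.sum_comm]
    have h3 : ∀ i j, Dd i j (Dd j i (f * g)) = Dd i j (Dd j i f) * g + f * Dd i j (Dd j i g) +
        Dd i j f * Dd j i g + Dd j i f * Dd i j g := by
      intro i j
      simp only [Derivation.leibniz, map_add, smul_eq_mul]
      ring
    have e1 : ∑ i, ∑ j, Dd i j (Dd j i f) * g = (∑ i, ∑ j, Dd i j (Dd j i f)) * g := by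
      simp only [Finset.sum_mul]
    have e2 : ∑ i, ∑ j, f * Dd i j (Dd j i g) = f * (∑ i, ∑ j, Dd i j (Dd j i g)) := by
      simp only [Finset.mul_sum]
    simp only [h3, Finset.sum_add_distrib]
    rw [← h2, e1, e2, two_mul]
    ring
  rw [Cas_apply, Cas_apply, Cas_apply, Gam2, h1, TT_mul, map_add, TT_mul, TT_mul]
  simp only [MvPolynomial.smul_eq_C_mul]
  have h4 : (C (2 / 3 : ℂ) : Pol) = 2 * C (1 / 3 : ℂ) := by
    rw [← map_ofNat C, ← C_mul]; norm_num
  rw [h4]
  ring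

/-- one quarter -/
def uq : Pol := C (1 / 4 : ℂ)
/-- one third -/
def vt : Pol := C (1 / 3 : ℂ)

theorem huq : 4 * uq = 1 := by
  unfold uq; rw [← map_ofNat C, ← C_mul]; norm_num

theorem hvt : 3 * vt = 1 := by
  unfold vt; rw [← map_ofNat C, ← C_mul]; norm_num

theorem smul_vt (n : ℕ) (p : Pol) : ((n : ℂ) / 3) • p = n * vt * p := by
  rw [MvPolynomial.smul_eq_C_mul]
  unfold vt
  rw [← map_natCast (C : ℂ →+* Pol), ← C_mul]
  congr 3
  ring

theorem neg_smul_vt (n : ℕ) (p : Pol) : (-((n : ℂ) / 3)) • p = -(n * vt * p) := by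
  rw [neg_smul, smul_vt]

theorem Cas_apply' (p : Pol) : Cas p = -(uq * ((∑ i, ∑ j, Dd i j (Dd j i p)) -
    vt * TT (TT p))) := by
  rw [Cas_apply, neg_smul, MvPolynomial.smul_eq_C_mul, MvPolynomial.smul_eq_C_mul]
  rfl

theorem Gam2_apply (f g : Pol) : Gam2 f g = -(uq * (2 * (∑ i, ∑ j, Dd i j f * Dd j i g) -
    2 * vt * (TT f * TT g))) := by
  rw [Gam2, neg_smul, MvPolynomial.smul_eq_C_mul, MvPolynomial.smul_eq_C_mul]
  have h4 : (C (2 / 3 : ℂ) : Pol) = 2 * vt := by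
    unfold vt
    rw [← map_ofNat C, ← C_mul]; norm_num
  rw [h4]
  rfl

theorem TT_two (p : Pol) (n : ℕ) : TT ((n : Pol) * p) = n * TT p := by
  rw [← nsmul_eq_mul, map_nsmul, nsmul_eq_mul]

theorem AP10 : AP 1 0 = AP 0 1 := AP_symm _ _
theorem AP20 : AP 2 0 = AP 0 2 := AP_symm _ _
theorem AP21 : AP 2 1 = AP 1 2 := AP_symm _ _

theorem TT_xv (a b : Fin 3) : TT (xv a b) = 2 * xv a b := by
  rw [TT_apply]
  simp only [Dd_xv', kr, ite_mul, one_mul, zero_mul, Finset.sum_add_distrib, Finset.sum_ite_eq,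
    Finset.mem_univ, if_true]
  ring

theorem TT_AP (a b : Fin 3) : TT (AP a b) = 4 * AP a b := by
  rw [TT_apply]
  simp only [Dd_AP, kr, Finset.sum_sub_distrib, ite_mul, mul_ite, one_mul, zero_mul, mul_one,
    mul_zero, Finset.sum_ite_eq, Finset.mem_univ, if_true]
  simp
  ring

theorem Cas_xv (a b : Fin 3) : Cas (xv a b) = -(5 * vt * xv a b) := by
  have h1 : ∑ i, ∑ j, Dd i j (Dd j i (xv a b)) = 8 * xv a b := by
    simp only [Dd_xv', kr, Fin.sum_univ_three]
    fin_cases a <;> fin_cases b <;> simp [Dd_xv', kr, xv10, xv20, xv21] <;> ring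
  have h2 := TT_two (xv a b) 2
  rw [Nat.cast_ofNat] at h2
  rw [Cas_apply', TT_xv, h2, TT_xv, h1]
  linear_combination (-(2 * xv a b) + vt * xv a b) * huq + 2 * xv a b * hvt

theorem Dd_two (i j : Fin 3) : Dd i j (2 : Pol) = 0 := by
  have := (Dd i j).map_natCast 2
  rwa [Nat.cast_ofNat] at this

theorem Cas_AP (a b : Fin 3) : Cas (AP a b) = -(5 * vt * AP a b) := by
  have h1 : ∑ i, ∑ j, Dd i j (Dd j i (AP a b)) = 12 * AP a b := by
    simp only [Fin.sum_univ_three]
    fin_cases a <;> fin_cases b <;>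
      simp [Dd_AP, kr, Derivation.leibniz, AP10, AP20, AP21, Dd_two] <;> ring
  have h2 := TT_two (AP a b) 4
  rw [Nat.cast_ofNat] at h2
  rw [Cas_apply', TT_AP, h2, TT_AP, h1]
  linear_combination (-(3 * AP a b) + 4 * vt * AP a b) * huq + 3 * AP a b * hvt

theorem Gam_xx (a b c d : Fin 3) : Gam2 (xv a b) (xv c d) =
    2 * vt * (xv a b * xv c d) - (xv a d * xv b c + xv a c * xv b d) := by
  have h1 : ∑ i, ∑ j, Dd i j (xv a b) * Dd j i (xv c d) =
      2 * (xv a d * xv b c + xv a c * xv b d) := by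
    simp only [Dd_xv', kr, Fin.sum_univ_three]
    fin_cases a <;> fin_cases b <;> fin_cases c <;> fin_cases d <;>
      simp [xv10, xv20, xv21] <;> ring
  rw [Gam2_apply, h1, TT_xv, TT_xv]
  linear_combination (-(xv a d * xv b c + xv a c * xv b d) + 2 * vt * (xv a b * xv c d)) * huq

theorem Gam_aa (a b c d : Fin 3) : Gam2 (AP a b) (AP c d) =
    2 * vt * (AP a b * AP c d) - (AP a d * AP b c + AP a c * AP b d) := by
  have h1 : ∑ i, ∑ j, Dd i j (AP a b) * Dd j i (AP c d) =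
      4 * (AP a b * AP c d) + 2 * (AP a d * AP b c + AP a c * AP b d) := by
    simp only [Dd_AP, kr, Fin.sum_univ_three]
    fin_cases a <;> fin_cases b <;> fin_cases c <;> fin_cases d <;>
      simp [AP10, AP20, AP21] <;> ring
  rw [Gam2_apply, h1, TT_AP, TT_AP]
  linear_combination (-(2 * (AP a b * AP c d) + (AP a d * AP b c + AP a c * AP b d)) +
    8 * vt * (AP a b * AP c d)) * huq + 2 * (AP a b * AP c d) * hvt

/-- the determinant -/
def dP : Pol := xv 0 0 * xv 1 1 * xv 2 2 + 2 * xv 0 1 * xv 1 2 * xv 0 2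
  - xv 0 0 * xv 1 2 ^ 2 - xv 1 1 * xv 0 2 ^ 2 - xv 2 2 * xv 0 1 ^ 2

theorem Gam_xa (a b c d : Fin 3) : Gam2 (xv a b) (AP c d) =
    -(2 * vt * (xv a b * AP c d)) + (kr a c * kr b d + kr a d * kr b c) * dP := by
  have h1 : ∑ i, ∑ j, Dd i j (xv a b) * Dd j i (AP c d) =
      4 * (xv a b * AP c d) - 2 * ((kr a c * kr b d + kr a d * kr b c) * dP) := by
    simp only [Dd_xv', Dd_AP, kr, Fin.sum_univ_three]
    fin_cases a <;> fin_cases b <;> fin_cases c <;> fin_cases d <;>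
      simp [AP, dP, xv10, xv20, xv21] <;> ring
  rw [Gam2_apply, h1, TT_xv, TT_AP]
  linear_combination (-(2 * (xv a b * AP c d)) + (kr a c * kr b d + kr a d * kr b c) * dP +
    4 * vt * (xv a b * AP c d)) * huq + 2 * (xv a b * AP c d) * hvt

theorem Cas_vt (p : Pol) : Cas (vt * p) = vt * Cas p := by
  unfold vt
  rw [← MvPolynomial.smul_eq_C_mul, map_smul, MvPolynomial.smul_eq_C_mul]

theorem Cas_nat (n : ℕ) (p : Pol) : Cas ((n : Pol) * p) = n * Cas p := by
  rw [← nsmul_eq_mul, map_nsmul, nsmul_eq_mul]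

theorem Cas_xx (a b c d : Fin 3) : Cas (xv a b * xv c d) =
    -(8 * vt * (xv a b * xv c d)) - (xv a d * xv b c + xv a c * xv b d) := by
  rw [Cas_mul, Cas_xv, Cas_xv, Gam_xx]
  ring

theorem Cas_aa (a b c d : Fin 3) : Cas (AP a b * AP c d) =
    -(8 * vt * (AP a b * AP c d)) - (AP a d * AP b c + AP a c * AP b d) := by
  rw [Cas_mul, Cas_AP, Cas_AP, Gam_aa]
  ring

theorem Cas_xa (a b c d : Fin 3) : Cas (xv a b * AP c d) =
    -(4 * (xv a b * AP c d)) + (kr a c * kr b d + kr a d * kr b c) * dP := by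
  rw [Cas_mul, Cas_xv, Cas_AP, Gam_xa]
  linear_combination (-4 * (xv a b * AP c d)) * hvt

/-- `(Cas - cN 31) (Cas - cN 13)` -/
def Tt : Pol →ₗ[ℂ] Pol :=
  (Cas + (14 / 3 : ℂ) • LinearMap.id) ∘ₗ (Cas + (5 / 3 : ℂ) • LinearMap.id)

theorem Tt_apply (p : Pol) : Tt p = Cas (Cas p + 5 * vt * p) + 14 * vt * (Cas p + 5 * vt * p) := by
  have h5 := smul_vt 5
  have h14 := smul_vt 14
  simp only [Nat.cast_ofNat] at h5 h14
  simp only [Tt, LinearMap.comp_apply, LinearMap.add_apply, LinearMap.smul_apply,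
    LinearMap.id_apply, h5, h14]

theorem Tt_xx (a b c d : Fin 3) : Tt (xv a b * xv c d) = 0 := by
  have h1 : Cas (xv a b * xv c d) + 5 * vt * (xv a b * xv c d) =
      -(xv a b * xv c d + xv a d * xv b c + xv a c * xv b d) := by
    rw [Cas_xx]
    linear_combination (-(xv a b * xv c d)) * hvt
  rw [Tt_apply, h1, map_neg, map_add, map_add, Cas_xx, Cas_xx, Cas_xx]
  rw [xv_symm d c, xv_symm d b, xv_symm c b]
  linear_combination (-2 * (xv a b * xv c d + xv a d * xv b c + xv a c * xv b d)) * hvt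

theorem Tt_aa (a b c d : Fin 3) : Tt (AP a b * AP c d) = 0 := by
  have h1 : Cas (AP a b * AP c d) + 5 * vt * (AP a b * AP c d) =
      -(AP a b * AP c d + AP a d * AP b c + AP a c * AP b d) := by
    rw [Cas_aa]
    linear_combination (-(AP a b * AP c d)) * hvt
  rw [Tt_apply, h1, map_neg, map_add, map_add, Cas_aa, Cas_aa, Cas_aa]
  rw [AP_symm d c, AP_symm d b, AP_symm c b]
  linear_combination (-2 * (AP a b * AP c d + AP a d * AP b c + AP a c * AP b d)) * hvt

/-- linear forms -/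
def LP (c : Matrix (Fin 3) (Fin 3) ℂ) : Pol := ∑ a, ∑ b, c a b • xv a b

/-- linear forms in the entries of the adjugate matrix -/
def QP (c : Matrix (Fin 3) (Fin 3) ℂ) : Pol := ∑ a, ∑ b, c a b • AP a b

theorem Tt_LL (c c' : Matrix (Fin 3) (Fin 3) ℂ) : Tt (LP c * LP c') = 0 := by
  simp only [LP, Finset.sum_mul, Finset.mul_sum, smul_mul_smul_comm, map_sum, map_smul, Tt_xx,
    smul_zero, Finset.sum_const_zero]

theorem Tt_QQ (c c' : Matrix (Fin 3) (Fin 3) ℂ) : Tt (QP c * QP c') = 0 := by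
  simp only [QP, Finset.sum_mul, Finset.mul_sum, smul_mul_smul_comm, map_sum, map_smul, Tt_aa,
    smul_zero, Finset.sum_const_zero]

/-- the pairing of a linear form and an adjugate form -/
def KP (c c' : Matrix (Fin 3) (Fin 3) ℂ) : ℂ := ∑ a, ∑ b, c a b * (c' a b + c' b a)

theorem Cas_LQ (c c' : Matrix (Fin 3) (Fin 3) ℂ) :
    Cas (LP c * QP c') = -(4 * (LP c * QP c')) + KP c c' • dP := by
  have h1 : LP c * QP c' = ∑ a, ∑ b, ∑ a', ∑ b', (c a b * c' a' b') • (xv a b * AP a' b') := by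
    rw [LP, Finset.sum_mul]
    refine Finset.sum_congr rfl fun a _ => ?_
    rw [Finset.sum_mul]
    refine Finset.sum_congr rfl fun b _ => ?_
    rw [QP, Finset.mul_sum]
    refine Finset.sum_congr rfl fun a' _ => ?_
    rw [Finset.mul_sum]
    refine Finset.sum_congr rfl fun b' _ => ?_
    rw [smul_mul_smul_comm]
  have h2 : KP c c' • dP = ∑ a, ∑ b, ∑ a', ∑ b', (c a b * c' a' b') •
      ((kr a a' * kr b b' + kr a b' * kr b a') * dP) := by
    simp only [KP, Finset.sum_smul]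
    refine Finset.sum_congr rfl fun a _ => Finset.sum_congr rfl fun b _ => ?_
    simp only [add_mul, smul_add, Finset.sum_add_distrib, kr, ite_mul, mul_ite, one_mul, mul_one,
      zero_mul, mul_zero, smul_ite, smul_zero]
    simp only [Finset.sum_ite_eq, Finset.sum_ite_irrel, Finset.sum_const_zero, Finset.mem_univ,
      if_true, mul_add, add_smul]
  rw [h2, h1, Finset.mul_sum]
  simp only [Finset.mul_sum, map_sum, map_smul, Cas_xa, ← Finset.sum_neg_distrib,
    ← Finset.sum_add_distrib, smul_add, smul_neg, mul_smul_comm]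

end Pool.Agent.Iso79.IA
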