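import Pool.Agent.Iso79.Spec
import Pool.Agent.Iso79.Sigma
import Pool.Agent.Iso79.IsoAPoly

/-!
# Bijections of `XX` which commute with the Laplacian

Theorem: they are `S ↦ g S gᵀ` or `S ↦ g S̄ gᵀ`, `g ∈ SU(3)`.

Proof.
(1) The functions `S_ij` and `S̄_ij` are eigenfunctions for `cN 13` (`Cas (xv i j) = cN 13 • xv i j`,
`hasLap_ev`; for `S̄_ij = adj(S)_ij` use `ev` of the quadratic polynomial `adj`), so
`S_ij ∘ φ` is an eigenfunction for `cN 13`, and by `eig13` `(φ S)_ij = a_ij(S) + b_ij(S̄)` with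
linear forms `a_ij, b_ij` on symmetric matrices.
(2) For each linear form `f = ∑ c_ij S_ij ∘ φ = a + b̄` (`a` a linear form in `S`, `b̄` one in `S̄`):
`a = 0` or `b̄ = 0` as functions on `XX`.  Indeed for any two linear forms `x, x'` in `S`,
`(Δ - cN 31)(Δ - cN 13)(x x') = 0` (`Cas` on quadratic polynomials; it is enough to check
`(Cas - cN 31)(Cas - cN 13) (xv a b * xv c d) = 0`, `decide`-like finite check or from `Dd` formulas),
similarly for two linear forms in `S̄` (complex conjugation commutes with `Δ`), whereas for a linear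
form `a` in `S` and `b̄` in `S̄` one has `(Δ - cN 27) (Δ - cN 3) (a b̄) = 0`, `cN 3 = 0`
(`a b̄` is a cubic polynomial in `S`).  Apply this to `(x ∘ φ)² = a² + 2 a b̄ + b̄²`, `x` linear in
`S`: `(Δ - cN 31)(Δ - cN 13)` kills `(x ∘ φ)² = x² ∘ φ`, `a²` and `b̄²`, hence `a b̄`; with
`(Δ - cN 27)(Δ - cN 3)(a b̄) = 0` and as the four numbers are distinct, `a b̄ = 0` on `XX`.
`b̄(S) = β(adj S)`; `a · β(adj)` is a homogeneous cubic polynomial, so it is the zero polynomial
(`ev_inj`) and one of the factors is zero (for `β(adj S) = 0` as a polynomial: `β = 0` on `XX`).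
(3) A linear map from the space of linear forms `x` in `S` into `V ⊕ V̄` with image in `V ∪ V̄`
has its image in `V` or in `V̄` (`Subgroup`/`Submodule` is not a union of two proper ones).
Composing `φ` with `sigma` in the second case, `φ S = A S` for a `ℂ`-linear map `A` of symmetric
matrices.
(4) `det (A S) = det S` for all complex symmetric `S` (true on `XX`; both are homogeneous cubic
polynomials, `ev_inj`), and `adj (A S) = conj (A (conj (adj S)))` for all symmetric `S` (true on
`XX` since `adj T = T̄` there; homogeneous quadratic, `ev_inj`).  So `A` maps matrices with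
`adj = 0` (rank `≤ 1`, i.e. `x xᵀ`) to such matrices.
(5) `A (e_i e_iᵀ) = y_i y_iᵀ`; `det (∑ y_i y_iᵀ) = det (A 1) = 1`, so `Y = (y_1 y_2 y_3)` is
invertible.  Put `A' S = Y⁻¹ (A S) Y⁻ᵀ`, `A' (E_ii) = E_ii`, `B_ij = A' (E_ij + E_ji)`.
All `2 × 2` minors of `A' (x xᵀ) = ∑ x_i² E_ii + ∑_{i<j} x_i x_j B_ij` vanish for all `x`:
with `x = (x_1, x_2, 0)` one gets that `B_12 = ε_12 (E_12 + E_21)`, `ε_12 = ±1` (compare
coefficients), similarly `B_13, B_23`, and from the minor (rows 1,2; columns 1,3)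
`ε_23 = ε_12 ε_13`.  So `A' S = D S D`, `D = diag(1, ε_12, ε_13)` and `A S = Q S Qᵀ`, `Q = Y D`.
(6) `Q` is unitary: `Q S Qᵀ ∈ XX` for all `S ∈ XX`; with `M = Qᴴ Q` this gives
`S M̄ S⁻¹ = M⁻¹` for all `S ∈ XX`; `S = 1` gives `M̄ = M⁻¹`, so `M̄` commutes with all `S ∈ XX`
and is a scalar `λ > 0`, `λ² = 1`.  `det Q = ±1`; replace `Q` by `-Q`.
-/

open Matrix Complex
open scoped ContDiff

noncomputable section

namespace Pool.Agent.Iso79

namespace IA

section sigma

attribute [local instance] Matrix.linftyOpNormedRing Matrix.linftyOpNormedAlgebra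

/-- complex conjugation of matrices as a real-linear map -/
def conjL : M3 →ₗ[ℝ] M3 where
  toFun M := M.map (starRingEnd ℂ)
  map_add' M N := by ext i j; simp [Matrix.map_apply]
  map_smul' c M := by ext i j; simp [Matrix.map_apply]

theorem conjL_apply (M : M3) : conjL M = M.map (starRingEnd ℂ) := rfl

theorem conj_smooth : ContDiff ℝ ∞ (fun M : M3 => M.map (starRingEnd ℂ)) := by
  have h := (LinearMap.toContinuousLinearMap conjL).contDiff (n := ∞)
  exact h

theorem conj_P (k : Fin 5) : (P k).map (starRingEnd ℂ) = -P k := by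
  ext i j
  have h2 : (starRingEnd ℂ) 2 = 2 := Complex.conj_ofNat 2
  fin_cases k <;> fin_cases i <;> fin_cases j <;> simp [P, neg_div, h2]

theorem conj_exp (k : Fin 5) (s : ℝ) : (NormedSpace.exp (s • P k)).map (starRingEnd ℂ) =
    NormedSpace.exp ((-s) • P k) := by
  have h1 : ∀ M : M3, M.map (starRingEnd ℂ) = (Mᵀ)ᴴ := by
    intro M; ext i j; simp [conjTranspose_apply]
  rw [h1, ← Matrix.exp_transpose, ← Matrix.exp_conjTranspose, ← h1]
  congr 1
  have h2 := conjL.map_smul s (P k)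
  rw [conjL_apply, conjL_apply, conj_P] at h2
  rw [h2, smul_neg, neg_smul]

end sigma

end IA

section sigma

attribute [local instance] Matrix.linftyOpNormedRing Matrix.linftyOpNormedAlgebra

open IA in
theorem sigma_preserves : PreservesLap sigma := by
  rintro f h ⟨F, hF, h1, h2⟩
  refine ⟨fun M => F (M.map (starRingEnd ℂ)), hF.comp conj_smooth, fun S => h1 (sigma S),
    fun g => ?_⟩
  have h3 : sigma (mk g) = mk ⟨g.1.map (starRingEnd ℂ), conj_mem g.2⟩ := by
    apply Subtype.ext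
    rw [sigma_apply]
    change (g.1 * g.1ᵀ).map (starRingEnd ℂ) = g.1.map (starRingEnd ℂ) * (g.1.map (starRingEnd ℂ))ᵀ
    rw [Matrix.map_mul, Matrix.transpose_map]
  rw [Function.comp_apply, h3, h2]
  refine Finset.sum_congr rfl fun k _ => ?_
  have h4 : ∀ s : ℝ, (g.1 * NormedSpace.exp (s • P k) * g.1ᵀ).map (starRingEnd ℂ) =
      g.1.map (starRingEnd ℂ) * NormedSpace.exp ((-s) • P k) * (g.1.map (starRingEnd ℂ))ᵀ := by
    intro s
    rw [Matrix.map_mul, Matrix.map_mul, conj_exp, Matrix.transpose_map]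
  simp only [h4]
  have h5 := iteratedDeriv_comp_neg 2 (fun s : ℝ => F (g.1.map (starRingEnd ℂ) *
    NormedSpace.exp (s • P k) * (g.1.map (starRingEnd ℂ))ᵀ)) 0
  rw [h5]
  simp

end sigma

namespace IA

theorem Cas_one : Cas 1 = 0 := by
  have h1 : TT 1 = 0 := by
    rw [TT_apply]
    simp
  rw [Cas_apply', h1]
  simp

theorem Cas_dP : Cas dP = 0 := by
  have h1 : dP = detP * 1 := by rw [mul_one]; rfl
  rw [h1, Cas_detP_mul (MvPolynomial.isHomogeneous_one _ _), Cas_one, mul_zero]

theorem Cas_LP (c : M3) : Cas (LP c) = cN 13 • LP c := by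
  have h1 : ∀ p : Pol, -(5 * vt * p) = cN 13 • p := by
    intro p
    have h5 := neg_smul_vt 5 p
    simp only [Nat.cast_ofNat] at h5
    rw [← h5]
    congr 1
    unfold cN
    norm_num
  simp only [LP, map_sum, map_smul, Cas_xv, h1, Finset.smul_sum]
  refine Finset.sum_congr rfl fun a _ => Finset.sum_congr rfl fun b _ => ?_
  rw [smul_comm]

theorem ev_LP (c : M3) (S : XX) : ev (LP c) S = ∑ a, ∑ b, c a b * S.1 a b := by
  simp only [LP, map_sum, map_smul, Finset.sum_apply, Pi.smul_apply, smul_eq_mul, ev_xv]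

theorem conj_eq_adj (S : XX) : S.1.map (starRingEnd ℂ) = S.1.adjugate := by
  have h1 := S.2.1
  rw [Matrix.mem_specialUnitaryGroup_iff, Matrix.mem_unitaryGroup_iff] at h1
  have h2 : star S.1 = S.1.map (starRingEnd ℂ) := by
    rw [star_eq_conjTranspose, Matrix.conjTranspose, S.2.2]
    rfl
  have h3 : S.1 * S.1.adjugate = 1 := by rw [Matrix.mul_adjugate, h1.2, one_smul]
  have h4 : S.1.adjugate * S.1 = 1 := by rw [Matrix.adjugate_mul, h1.2, one_smul]
  rw [← h2]
  calc star S.1 = (S.1.adjugate * S.1) * star S.1 := by rw [h4, Matrix.one_mul]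
    _ = S.1.adjugate * (S.1 * star S.1) := by rw [Matrix.mul_assoc]
    _ = S.1.adjugate := by rw [h1.1, Matrix.mul_one]

theorem ev_AP (a b : Fin 3) (S : XX) : ev (AP a b) S = starRingEnd ℂ (S.1 a b) := by
  have h1 : starRingEnd ℂ (S.1 a b) = S.1.adjugate a b := by
    rw [← conj_eq_adj]; rfl
  have hs : ∀ i j, S.1 i j = S.1 j i := fun i j => by
    conv_lhs => rw [← S.2.2]
    rfl
  rw [h1, Matrix.adjugate_fin_three]
  have e1 := hs 1 0
  have e2 := hs 2 0
  have e3 := hs 2 1
  fin_cases a <;> fin_cases b <;>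
    simp [AP, ev_xv, e1, e2, e3] <;> ring

theorem ev_QP (c : M3) (S : XX) : ev (QP c) S = ∑ a, ∑ b, c a b * starRingEnd ℂ (S.1 a b) := by
  simp only [QP, map_sum, map_smul, Finset.sum_apply, Pi.smul_apply, smul_eq_mul, ev_AP]

theorem ev_Cas_comp {φ : Equiv.Perm XX} (h : PreservesLap φ) {p q : Pol}
    (hpq : ev p ∘ φ = ev q) : ev (Cas p) ∘ φ = ev (Cas q) := by
  have h1 := h _ _ (hasLap_ev p)
  rw [hpq] at h1
  exact h1.unique (hasLap_ev q)

theorem ev_lin_comp {φ : Equiv.Perm XX} {p q p' q' : Pol} (c : ℂ)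
    (hpq : ev p ∘ φ = ev q) (hpq' : ev p' ∘ φ = ev q') :
    ev (p + c • p') ∘ φ = ev (q + c • q') := by
  rw [map_add, map_add, map_smul, map_smul, ← hpq, ← hpq']
  rfl

theorem ev_Tt_comp {φ : Equiv.Perm XX} (h : PreservesLap φ) {p q : Pol}
    (hpq : ev p ∘ φ = ev q) : ev (Tt p) ∘ φ = ev (Tt q) := by
  have h1 : ev (Cas p + (5 / 3 : ℂ) • p) ∘ φ = ev (Cas q + (5 / 3 : ℂ) • q) :=
    ev_lin_comp _ (ev_Cas_comp h hpq) hpq
  exact ev_lin_comp _ (ev_Cas_comp h h1) h1

theorem LP_homog (c : M3) : (LP c).IsHomogeneous 1 := by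
  unfold LP
  refine MvPolynomial.IsHomogeneous.sum _ _ _ fun a _ =>
    MvPolynomial.IsHomogeneous.sum _ _ _ fun b _ => ?_
  rw [MvPolynomial.smul_eq_C_mul]
  exact (MvPolynomial.isHomogeneous_X _ _).C_mul _

theorem QP_homog (c : M3) : (QP c).IsHomogeneous 2 := by
  unfold QP
  refine MvPolynomial.IsHomogeneous.sum _ _ _ fun a _ =>
    MvPolynomial.IsHomogeneous.sum _ _ _ fun b _ => ?_
  rw [MvPolynomial.smul_eq_C_mul]
  refine MvPolynomial.IsHomogeneous.C_mul ?_ _
  unfold AP xv
  exact ((MvPolynomial.isHomogeneous_X ℂ _).mul (MvPolynomial.isHomogeneous_X ℂ _)).sub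
    ((MvPolynomial.isHomogeneous_X ℂ _).mul (MvPolynomial.isHomogeneous_X ℂ _))

theorem dP_homog : dP.IsHomogeneous 3 := by
  refine Vw_homog ?_ detP_weight
  simp [deg3]

theorem Tt_LQ (c c' : M3) : Tt (LP c * QP c') =
    (-(14 / 9) : ℂ) • (LP c * QP c') + (7 / 3 * KP c c') • dP := by
  have h4 : (4 : Pol) * (LP c * QP c') = (4 : ℂ) • (LP c * QP c') := by
    rw [MvPolynomial.smul_eq_C_mul]; rfl
  have h1 : Cas (LP c * QP c') = -((4 : ℂ) • (LP c * QP c')) + KP c c' • dP := by
    rw [Cas_LQ, h4]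
  simp only [Tt, LinearMap.comp_apply, LinearMap.add_apply, LinearMap.smul_apply,
    LinearMap.id_apply, map_add, map_neg, map_smul, h1, Cas_dP]
  module

theorem LQ_zero (c c' : M3) (h : ev (Tt (LP c * QP c')) = 0) : LP c * QP c' = 0 := by
  have hh : (LP c * QP c').IsHomogeneous 3 := (LP_homog c).mul (QP_homog c')
  have h1 : Tt (LP c * QP c') = 0 := by
    refine ev_inj (d := 3) ?_ h
    rw [Tt_LQ, MvPolynomial.smul_eq_C_mul, MvPolynomial.smul_eq_C_mul]
    exact (hh.C_mul _).add (dP_homog.C_mul _)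
  rw [Tt_LQ] at h1
  have h2 : LP c * QP c' = (3 / 2 * KP c c') • dP := by
    have h3 : LP c * QP c' - (3 / 2 * KP c c') • dP = (-(9 / 14) : ℂ) •
        ((-(14 / 9) : ℂ) • (LP c * QP c') + (7 / 3 * KP c c') • dP) := by module
    rw [h1, smul_zero] at h3
    exact sub_eq_zero.1 h3
  have h3 : Cas (LP c * QP c') = 0 := by rw [h2, map_smul, Cas_dP, smul_zero]
  have h4 : (4 : Pol) * (LP c * QP c') = (4 : ℂ) • (LP c * QP c') := by
    rw [MvPolynomial.smul_eq_C_mul]; rfl
  rw [Cas_LQ, h4, h2] at h3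
  have h5 : (3 / 2 * KP c c') • dP = (-(3 / 10) : ℂ) •
      (-((4 : ℂ) • (3 / 2 * KP c c') • dP) + KP c c' • dP) := by module
  rw [h2, h5, h3, smul_zero]

theorem key_step {φ : Equiv.Perm XX} (h : PreservesLap φ) {C A B : M3}
    (H : ev (LP C) ∘ φ = ev (LP A + QP B)) : LP A = 0 ∨ QP B = 0 := by
  have h1 : ev (LP C * LP C) ∘ φ = ev ((LP A + QP B) * (LP A + QP B)) := by
    rw [map_mul, map_mul, ← H]
    rfl
  have h2 := ev_Tt_comp h h1
  have h3 : (LP A + QP B) * (LP A + QP B) = LP A * LP A + (LP A * QP B + LP A * QP B) +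
      QP B * QP B := by ring
  rw [h3, Tt_LL, map_add, map_add, map_add, Tt_LL, Tt_QQ, zero_add, map_zero,
    add_zero, map_add, map_add] at h2
  have h4 : ev (Tt (LP A * QP B)) = 0 := by
    funext S
    have h5 := congrFun h2 S
    simp only [Function.comp_apply, Pi.zero_apply, Pi.add_apply] at h5
    rw [Pi.zero_apply]
    linear_combination (-(1 / 2) : ℂ) * h5
  exact mul_eq_zero.1 (LQ_zero A B h4)

theorem eig_form {f : XX → ℂ} (hf : HasLap f (cN 13 • f)) :
    ∃ A B : M3, f = ev (LP A + QP B) := by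
  obtain ⟨A, B, h⟩ := eig13 hf
  refine ⟨A, B, ?_⟩
  funext S
  have hs : ∀ i j, S.1 i j = S.1 j i := fun i j => by
    conv_lhs => rw [← S.2.2]
    rfl
  rw [h S, map_add, Pi.add_apply, ev_LP, ev_QP]
  congr 1
  · rw [Matrix.trace]
    simp only [Matrix.diag_apply, Matrix.mul_apply]
    refine Finset.sum_congr rfl fun a _ => Finset.sum_congr rfl fun b _ => ?_
    rw [hs b a]
  · rw [Matrix.trace]
    simp only [Matrix.diag_apply, Matrix.mul_apply, Matrix.map_apply]
    refine Finset.sum_congr rfl fun a _ => Finset.sum_congr rfl fun b _ => ?_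
    rw [hs b a]

/-- the linear combination of a family of matrices -/
def cmb (A : Fin 3 → Fin 3 → M3) : M3 →ₗ[ℂ] M3 where
  toFun C := ∑ i, ∑ j, C i j • A i j
  map_add' C D := by
    simp only [Matrix.add_apply, add_smul, Finset.sum_add_distrib]
  map_smul' c C := by
    simp only [Matrix.smul_apply, smul_eq_mul, mul_smul, Finset.smul_sum, RingHom.id_apply]

/-- `LP` as a linear map -/
def LPl : M3 →ₗ[ℂ] Pol where
  toFun := LP
  map_add' C D := by
    simp only [LP, Matrix.add_apply, add_smul, Finset.sum_add_distrib]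
  map_smul' c C := by
    simp only [LP, Matrix.smul_apply, smul_eq_mul, mul_smul, Finset.smul_sum, RingHom.id_apply]

/-- `QP` as a linear map -/
def QPl : M3 →ₗ[ℂ] Pol where
  toFun := QP
  map_add' C D := by
    simp only [QP, Matrix.add_apply, add_smul, Finset.sum_add_distrib]
  map_smul' c C := by
    simp only [QP, Matrix.smul_apply, smul_eq_mul, mul_smul, Finset.smul_sum, RingHom.id_apply]

/-- the matrix with entries `∑ A i j a b * M a b` -/
def tens (A : Fin 3 → Fin 3 → M3) : M3 →ₗ[ℂ] M3 where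
  toFun M := Matrix.of fun i j => ∑ a, ∑ b, A i j a b * M a b
  map_add' C D := by
    ext i j
    simp only [Matrix.add_apply, Matrix.of_apply, mul_add, Finset.sum_add_distrib]
  map_smul' c C := by
    ext i j
    simp only [Matrix.smul_apply, Matrix.of_apply, smul_eq_mul, Finset.mul_sum, RingHom.id_apply]
    refine Finset.sum_congr rfl fun a _ => Finset.sum_congr rfl fun b _ => ?_
    ring

theorem cmb_single (A : Fin 3 → Fin 3 → M3) (i j : Fin 3) :
    cmb A (Matrix.single i j 1) = A i j := by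
  change ∑ k, ∑ l, (Matrix.single i j (1 : ℂ)) k l • A k l = A i j
  rw [Finset.sum_eq_single i, Finset.sum_eq_single j]
  · rw [Matrix.single_apply_same, one_smul]
  · intro b _ hb
    rw [Matrix.single_apply_of_ne (h := fun hh => hb hh.2.symm), zero_smul]
  · intro hh; exact absurd (Finset.mem_univ _) hh
  · intro b _ hb
    refine Finset.sum_eq_zero fun l _ => ?_
    rw [Matrix.single_apply_of_ne (h := fun hh => hb hh.1.symm), zero_smul]
  · intro hh; exact absurd (Finset.mem_univ _) hh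

theorem union_two {U V : Submodule ℂ M3} (h : ∀ C, C ∈ U ∨ C ∈ V) :
    (∀ C, C ∈ U) ∨ (∀ C, C ∈ V) := by
  by_contra hcon
  push Not at hcon
  obtain ⟨⟨x, hx⟩, ⟨y, hy⟩⟩ := hcon
  have hx' : x ∈ V := (h x).resolve_left hx
  have hy' : y ∈ U := (h y).resolve_right hy
  rcases h (x + y) with h1 | h1
  · exact hx (by simpa using U.sub_mem h1 hy')
  · exact hy (by simpa using V.sub_mem h1 hx')

end IA

open IA in
/-- steps (1)-(3) -/
theorem iso_linear (φ : Equiv.Perm XX) (h : PreservesLap φ) :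
    (∃ A : M3 →ₗ[ℂ] M3, ∀ S : XX, (φ S).1 = A S.1) ∨
      ∃ A : M3 →ₗ[ℂ] M3, ∀ S : XX, (φ (sigma S)).1 = A S.1 := by
  have h0 : ∀ c : M3, ∃ A B : M3, ev (LP c) ∘ φ = ev (LP A + QP B) := by
    intro c
    apply eig_form
    have h1 := hasLap_ev (LP c)
    rw [Cas_LP, map_smul] at h1
    exact h _ _ h1
  have h1 : ∀ i j : Fin 3, ∃ A B : M3, ∀ S : XX, (φ S).1 i j = ev (LP A + QP B) S := by
    intro i j
    obtain ⟨A, B, hAB⟩ := h0 (Matrix.single i j 1)
    refine ⟨A, B, fun S => ?_⟩
    rw [← hAB, Function.comp_apply, ev_LP]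
    rw [Finset.sum_eq_single i, Finset.sum_eq_single j]
    · rw [Matrix.single_apply_same, one_mul]
    · intro b _ hb
      rw [Matrix.single_apply_of_ne (h := fun hh => hb hh.2.symm), zero_mul]
    · intro hh; exact absurd (Finset.mem_univ _) hh
    · intro b _ hb
      refine Finset.sum_eq_zero fun l _ => ?_
      rw [Matrix.single_apply_of_ne (h := fun hh => hb hh.1.symm), zero_mul]
    · intro hh; exact absurd (Finset.mem_univ _) hh
  choose A B hAB using h1
  have h2 : ∀ C : M3, ev (LP C) ∘ φ = ev (LP (cmb A C) + QP (cmb B C)) := by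
    intro C
    funext S
    have e1 : LP (cmb A C) = ∑ i, ∑ j, C i j • LP (A i j) := by
      change LPl (∑ i, ∑ j, C i j • A i j) = _
      simp only [map_sum, map_smul]
      rfl
    have e2 : QP (cmb B C) = ∑ i, ∑ j, C i j • QP (B i j) := by
      change QPl (∑ i, ∑ j, C i j • B i j) = _
      simp only [map_sum, map_smul]
      rfl
    rw [Function.comp_apply, ev_LP, e1, e2]
    simp only [hAB, map_add, map_sum, map_smul, Pi.add_apply, Finset.sum_apply, Pi.smul_apply,
      smul_eq_mul, mul_add, Finset.sum_add_distrib]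
  have h3 : ∀ C, C ∈ LinearMap.ker (LPl ∘ₗ cmb A) ∨ C ∈ LinearMap.ker (QPl ∘ₗ cmb B) := by
    intro C
    rw [LinearMap.mem_ker, LinearMap.mem_ker]
    exact key_step h (h2 C)
  rcases union_two h3 with h4 | h4
  · right
    refine ⟨tens B, fun S => ?_⟩
    ext i j
    have h5 : LP (A i j) = 0 := by
      have := h4 (Matrix.single i j 1)
      rw [LinearMap.mem_ker, LinearMap.comp_apply, cmb_single] at this
      exact this
    rw [hAB, h5, zero_add, ev_QP]
    change _ = ∑ a, ∑ b, B i j a b * S.1 a b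
    refine Finset.sum_congr rfl fun a _ => Finset.sum_congr rfl fun b _ => ?_
    rw [sigma_apply, Matrix.map_apply, Complex.conj_conj]
  · left
    refine ⟨tens A, fun S => ?_⟩
    ext i j
    have h5 : QP (B i j) = 0 := by
      have := h4 (Matrix.single i j 1)
      rw [LinearMap.mem_ker, LinearMap.comp_apply, cmb_single] at this
      exact this
    rw [hAB, h5, add_zero, ev_LP]
    rfl

end Pool.Agent.Iso79
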