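import Pool.Agent.Iso79.Defs

/-!
# Isometries of the Riemannian manifold `XX = SU(3)/SO(3)`

A Riemannian isometry is a diffeomorphism which preserves the length of tangent vectors, that is,
of the velocity vectors of smooth curves.
-/

open Matrix Complex
open scoped ContDiff

noncomputable section

namespace Pool.Agent.Iso79

attribute [local instance] Matrix.linftyOpNormedRing Matrix.linftyOpNormedAlgebra

/-- the squared length `Re tr (A Aᴴ)` of a tangent vector `A` of `XX` -/
def nsq (A : M3) : ℝ := (Matrix.trace (A * Aᴴ)).re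

/-- Riemannian isometries of `XX`: bijections which are smooth in both directions and preserve the
length of the velocity vectors of smooth curves -/
structure IsIsom (φ : Equiv.Perm XX) : Prop where
  smooth : ∃ Φ : M3 → M3, ContDiff ℝ ∞ Φ ∧ ∀ S : XX, Φ S.1 = (φ S).1
  smooth_symm : ∃ Φ : M3 → M3, ContDiff ℝ ∞ Φ ∧ ∀ S : XX, Φ S.1 = (φ.symm S).1
  speed : ∀ c : ℝ → XX, ContDiff ℝ ∞ (fun s => (c s).1) →
    ∀ s, nsq (deriv (fun s => (φ (c s)).1) s) = nsq (deriv (fun s => (c s).1) s)

end Pool.Agent.Iso79
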