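import Pool.Agent.Iso79.Basic
import Pool.Agent.Iso79.IsomDefs

/-!
# Riemannian isometries of `XX` commute with the Laplacian

Let `Φ` be a smooth extension of the isometry `φ`, `p = g gᵀ`, `u_k = g P_k gᵀ`,
`A_jk = D²Φ_p(u_j, u_k) + DΦ_p(g (P_j P_k + P_k P_j)/2 gᵀ)`.  For `a = g exp(s P_j / 2)` the vectors
`DΦ_{a aᵀ} (a P_k aᵀ)`, `k = 0, …, 4`, are orthonormal; the derivative at `s = 0` gives
`⟨A_jk, DΦ u_l⟩ + ⟨DΦ u_k, A_jl⟩ = 0`; as `A` is symmetric, `⟨A_jk, DΦ u_l⟩ = 0`.  So the acceleration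
`A_kk` of the curve `Φ(g exp(s P_k) gᵀ)` is normal, hence equal to the one of the geodesic with the
same velocity, and the sum of the second derivatives along five orthonormal geodesics does not
depend on the orthonormal basis.
-/

open Matrix Complex
open scoped ContDiff

noncomputable section

namespace Pool.Agent.Iso79

attribute [local instance] Matrix.linftyOpNormedRing Matrix.linftyOpNormedAlgebra

/-! ### The inner product of matrices -/

/-- the inner product `Re tr (A Bᴴ)` -/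
def mip (A B : M3) : ℝ := (Matrix.trace (A * Bᴴ)).re

theorem nsq_eq (A : M3) : nsq A = mip A A := rfl

theorem mip_add_left (A A' B : M3) : mip (A + A') B = mip A B + mip A' B := by
  simp [mip, Matrix.add_mul]

theorem mip_add_right (A B B' : M3) : mip A (B + B') = mip A B + mip A B' := by
  simp [mip, Matrix.mul_add]

theorem mip_smul_left (c : ℝ) (A B : M3) : mip (c • A) B = c * mip A B := by
  simp [mip]

theorem mip_smul_right (c : ℝ) (A B : M3) : mip A (c • B) = c * mip A B := by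
  simp [mip, conjTranspose_smul]

theorem mip_comm (A B : M3) : mip A B = mip B A := by
  unfold mip
  have h : B * Aᴴ = (A * Bᴴ)ᴴ := by rw [conjTranspose_mul, conjTranspose_conjTranspose]
  rw [h, trace_conjTranspose]
  simp

theorem mip_zero_left (B : M3) : mip 0 B = 0 := by simp [mip]

theorem mip_zero_right (A : M3) : mip A 0 = 0 := by simp [mip]

theorem nsq_add (A B : M3) : nsq (A + B) = nsq A + nsq B + 2 * mip A B := by
  rw [nsq_eq, nsq_eq, nsq_eq, mip_add_left, mip_add_right, mip_add_right, mip_comm B A]; ring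

theorem su_star_mul (g : SU3) : g.1ᴴ * g.1 = 1 := by
  have := (Matrix.mem_specialUnitaryGroup_iff.1 g.2).1
  exact Matrix.mem_unitaryGroup_iff'.1 this

theorem su_mul_star (g : SU3) : g.1 * g.1ᴴ = 1 := by
  have := (Matrix.mem_specialUnitaryGroup_iff.1 g.2).1
  exact Matrix.mem_unitaryGroup_iff.1 this

theorem su_tr_bar (g : SU3) : g.1ᵀ * (g.1ᵀ)ᴴ = 1 := by
  have h := su_star_mul g
  have h2 : (g.1ᵀ)ᴴ = (g.1ᴴ)ᵀ := rfl
  rw [h2, ← transpose_mul, h, transpose_one]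

theorem mip_conj (g : SU3) (A B : M3) : mip (g.1 * A * g.1ᵀ) (g.1 * B * g.1ᵀ) = mip A B := by
  unfold mip
  rw [conjTranspose_mul, conjTranspose_mul]
  have h1 : g.1 * A * g.1ᵀ * ((g.1ᵀ)ᴴ * (Bᴴ * g.1ᴴ)) = g.1 * (A * Bᴴ * g.1ᴴ) := by
    calc g.1 * A * g.1ᵀ * ((g.1ᵀ)ᴴ * (Bᴴ * g.1ᴴ))
        = g.1 * A * (g.1ᵀ * (g.1ᵀ)ᴴ) * (Bᴴ * g.1ᴴ) := by simp only [Matrix.mul_assoc]
      _ = g.1 * (A * Bᴴ * g.1ᴴ) := by rw [su_tr_bar, Matrix.mul_one]; simp only [Matrix.mul_assoc]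
  rw [h1, trace_mul_comm, Matrix.mul_assoc, su_star_mul, Matrix.mul_one]

theorem nsq_conj (g : SU3) (A : M3) : nsq (g.1 * A * g.1ᵀ) = nsq A := mip_conj g A A

/-! ### Derivatives -/

/-- the conjugate transpose as a real linear map -/
def ctL : M3 →ₗ[ℝ] M3 where
  toFun A := Aᴴ
  map_add' := conjTranspose_add
  map_smul' c A := by rw [conjTranspose_smul]; simp

/-- real part of the trace as a real linear map -/
def rtL : M3 →ₗ[ℝ] ℝ where
  toFun A := (trace A).re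
  map_add' A B := by rw [trace_add, Complex.add_re]
  map_smul' c A := by rw [trace_smul]; simp

theorem hasDerivAt_mip {a b : ℝ → M3} {a' b' : M3} {s : ℝ} (ha : HasDerivAt a a' s)
    (hb : HasDerivAt b b' s) :
    HasDerivAt (fun r => mip (a r) (b r)) (mip a' (b s) + mip (a s) b') s := by
  have h1 : HasDerivAt (fun r => (b r)ᴴ) b'ᴴ s :=
    (LinearMap.toContinuousLinearMap ctL).hasFDerivAt.comp_hasDerivAt s hb
  have h2 := ha.mul h1
  have h3 := (LinearMap.toContinuousLinearMap rtL).hasFDerivAt.comp_hasDerivAt s h2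
  refine h3.congr_deriv ?_
  change (trace (a' * (b s)ᴴ + a s * b'ᴴ)).re = _
  rw [trace_add, Complex.add_re]; rfl

theorem hasDerivAt_expP (k : Fin 5) (s : ℝ) :
    HasDerivAt (fun r : ℝ => NormedSpace.exp (r • P k)) (NormedSpace.exp (s • P k) * P k) s :=
  hasDerivAt_exp_smul_const (𝕂 := ℝ) (P k) s

theorem expP_zero (k : Fin 5) : NormedSpace.exp ((0 : ℝ) • P k) = 1 := by
  rw [zero_smul, NormedSpace.exp_zero]

/-! ### The tangent space at `1` -/

/-- tangent vectors of `XX` at `1` -/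
structure IsT (U : M3) : Prop where
  skew : Uᴴ = -U
  symm : Uᵀ = U
  tr : trace U = 0

theorem isT_P (k : Fin 5) : IsT (P k) := by
  refine ⟨P_star k, P_transpose k, ?_⟩
  fin_cases k <;> (simp [P, trace_fin_three]; try ring)

theorem IsT.form {U : M3} (h : IsT U) : ∃ a b c d e : ℝ, U = !![I * a, I * b, I * c;
    I * b, I * d, I * e; I * c, I * e, I * (-a - d)] := by
  have hs : ∀ i j, U i j = U j i := fun i j => congrFun (congrFun h.symm j) i
  have hk : ∀ i j, (starRingEnd ℂ) (U j i) = -U i j := fun i j => congrFun (congrFun h.skew i) j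
  have hre : ∀ i j, (U i j).re = 0 := by
    intro i j
    have h1 := hk i j
    rw [hs j i] at h1
    have h2 := congrArg Complex.re h1
    simp at h2
    linarith
  have hf : ∀ i j, U i j = I * ((U i j).im : ℂ) := by
    intro i j
    apply Complex.ext
    · simp [hre]
    · simp
  have ht := h.tr
  rw [trace_fin_three] at ht
  refine ⟨(U 0 0).im, (U 0 1).im, (U 0 2).im, (U 1 1).im, (U 1 2).im, ?_⟩
  have h22 : U 2 2 = I * (-((U 0 0).im : ℂ) - ((U 1 1).im : ℂ)) := by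
    have e1 := hf 0 0
    have e2 := hf 1 1
    linear_combination ht - e1 - e2
  ext i j
  fin_cases i <;> fin_cases j
  · exact hf 0 0
  · exact hf 0 1
  · exact hf 0 2
  · exact (hs 1 0).trans (hf 0 1)
  · exact hf 1 1
  · exact hf 1 2
  · exact (hs 2 0).trans (hf 0 2)
  · exact (hs 2 1).trans (hf 1 2)
  · exact h22

/-- `mip` in coordinates -/
theorem mip_coord (a b c d e a' b' c' d' e' : ℝ) :
    mip !![I * a, I * b, I * c; I * b, I * d, I * e; I * c, I * e, I * (-a - d)]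
      !![I * a', I * b', I * c'; I * b', I * d', I * e'; I * c', I * e', I * (-a' - d')] =
    a * a' + d * d' + (a + d) * (a' + d') + 2 * (b * b' + c * c' + e * e') := by
  unfold mip
  rw [trace_fin_three]
  simp [Matrix.mul_apply, Fin.sum_univ_three, conjTranspose_apply]
  ring

theorem P_coord (k : Fin 5) : P k = ![
    !![I * ((1 / Real.sqrt 2 : ℝ) : ℂ), I * ((0 : ℝ) : ℂ), I * ((0 : ℝ) : ℂ); I * ((0 : ℝ) : ℂ),
      I * ((-(1 / Real.sqrt 2) : ℝ) : ℂ), I * ((0 : ℝ) : ℂ); I * ((0 : ℝ) : ℂ), I * ((0 : ℝ) : ℂ),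
      I * (-((1 / Real.sqrt 2 : ℝ) : ℂ) - ((-(1 / Real.sqrt 2) : ℝ) : ℂ))],
    !![I * ((1 / Real.sqrt 6 : ℝ) : ℂ), I * ((0 : ℝ) : ℂ), I * ((0 : ℝ) : ℂ); I * ((0 : ℝ) : ℂ),
      I * ((1 / Real.sqrt 6 : ℝ) : ℂ), I * ((0 : ℝ) : ℂ); I * ((0 : ℝ) : ℂ), I * ((0 : ℝ) : ℂ),
      I * (-((1 / Real.sqrt 6 : ℝ) : ℂ) - ((1 / Real.sqrt 6 : ℝ) : ℂ))],
    !![I * ((0 : ℝ) : ℂ), I * ((1 / Real.sqrt 2 : ℝ) : ℂ), I * ((0 : ℝ) : ℂ);
      I * ((1 / Real.sqrt 2 : ℝ) : ℂ), I * ((0 : ℝ) : ℂ), I * ((0 : ℝ) : ℂ); I * ((0 : ℝ) : ℂ),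
      I * ((0 : ℝ) : ℂ), I * (-((0 : ℝ) : ℂ) - ((0 : ℝ) : ℂ))],
    !![I * ((0 : ℝ) : ℂ), I * ((0 : ℝ) : ℂ), I * ((1 / Real.sqrt 2 : ℝ) : ℂ); I * ((0 : ℝ) : ℂ),
      I * ((0 : ℝ) : ℂ), I * ((0 : ℝ) : ℂ); I * ((1 / Real.sqrt 2 : ℝ) : ℂ), I * ((0 : ℝ) : ℂ),
      I * (-((0 : ℝ) : ℂ) - ((0 : ℝ) : ℂ))],
    !![I * ((0 : ℝ) : ℂ), I * ((0 : ℝ) : ℂ), I * ((0 : ℝ) : ℂ); I * ((0 : ℝ) : ℂ),
      I * ((0 : ℝ) : ℂ), I * ((1 / Real.sqrt 2 : ℝ) : ℂ); I * ((0 : ℝ) : ℂ),
      I * ((1 / Real.sqrt 2 : ℝ) : ℂ), I * (-((0 : ℝ) : ℂ) - ((0 : ℝ) : ℂ))]] k := by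
  ext i j
  fin_cases k <;> fin_cases i <;> fin_cases j <;> simp [P] <;> ring

theorem mip_P_P (k l : Fin 5) : mip (P k) (P l) = if k = l then 1 else 0 := by
  have h2 : (1 / Real.sqrt 2) * (1 / Real.sqrt 2) = 1 / 2 := by
    rw [div_mul_div_comm, Real.mul_self_sqrt (by norm_num)]; norm_num
  have h6 : (1 / Real.sqrt 6) * (1 / Real.sqrt 6) = 1 / 6 := by
    rw [div_mul_div_comm, Real.mul_self_sqrt (by norm_num)]; norm_num
  rw [P_coord, P_coord]
  generalize 1 / Real.sqrt 2 = x at *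
  generalize 1 / Real.sqrt 6 = y at *
  fin_cases k <;> fin_cases l <;> simp only [Fin.zero_eta, Fin.mk_one, Fin.reduceFinMk,
    Matrix.cons_val, Matrix.cons_val_zero, Matrix.cons_val_one] <;> rw [mip_coord] <;> simp <;>
    nlinarith

/-- expansion of tangent vectors in the orthonormal basis `P` -/
theorem IsT.expand {U : M3} (h : IsT U) : U = ∑ k, mip U (P k) • P k := by
  have h2 : (1 / Real.sqrt 2) * (1 / Real.sqrt 2) = 1 / 2 := by
    rw [div_mul_div_comm, Real.mul_self_sqrt (by norm_num)]; norm_num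
  have h6 : (1 / Real.sqrt 6) * (1 / Real.sqrt 6) = 1 / 6 := by
    rw [div_mul_div_comm, Real.mul_self_sqrt (by norm_num)]; norm_num
  obtain ⟨a, b, c, d, e, rfl⟩ := h.form
  rw [Fin.sum_univ_five]
  rw [P_coord 0, P_coord 1, P_coord 2, P_coord 3, P_coord 4]
  generalize 1 / Real.sqrt 2 = x at *
  generalize 1 / Real.sqrt 6 = y at *
  simp only [Matrix.cons_val, Matrix.cons_val_zero, Matrix.cons_val_one]
  rw [mip_coord, mip_coord, mip_coord, mip_coord, mip_coord]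
  have h2' : (x : ℂ) * x = 1 / 2 := by
    rw [← Complex.ofReal_mul, h2]; push_cast; ring
  have h6' : (y : ℂ) * y = 1 / 6 := by
    rw [← Complex.ofReal_mul, h6]; push_cast; ring
  ext i j
  fin_cases i <;> fin_cases j <;> simp
  · linear_combination (-(a - d)) * I * h2' - 3 * (a + d) * I * h6'
  · linear_combination -2 * b * I * h2'
  · linear_combination -2 * c * I * h2'
  · linear_combination -2 * b * I * h2'
  · linear_combination (a - d) * I * h2' - 3 * (a + d) * I * h6'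
  · linear_combination -2 * e * I * h2'
  · linear_combination -2 * c * I * h2'
  · linear_combination -2 * e * I * h2'
  · linear_combination 6 * (a + d) * I * h6'

theorem mip_sq {U V : M3} (hU : IsT U) (hV : IsT V) : mip (U * U) V = 0 := by
  have h : (starRingEnd ℂ) (trace (U * U * Vᴴ)) = -trace (U * U * Vᴴ) := by
    have e1 : (starRingEnd ℂ) (trace (U * U * Vᴴ)) = trace ((U * U * Vᴴ)ᴴ) := by
      rw [trace_conjTranspose]; rfl
    rw [e1, conjTranspose_mul, conjTranspose_mul, conjTranspose_conjTranspose, hU.skew, hV.skew,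
      neg_mul_neg, mul_neg, trace_neg, neg_neg, trace_mul_comm]
  have h2 := congrArg Complex.re h
  simp only [Complex.conj_re, Complex.neg_re] at h2
  unfold mip
  linarith

theorem trace_conj_su {S : M3} (h : S ∈ Matrix.specialUnitaryGroup (Fin 3) ℂ) :
    2 * (starRingEnd ℂ) (trace S) = trace S * trace S - trace (S * S) := by
  have hs := Matrix.mem_specialUnitaryGroup_iff.1 h
  have hu : Sᴴ * S = 1 := Matrix.mem_unitaryGroup_iff'.1 hs.1
  have hadj : S.adjugate = Sᴴ := by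
    have h1 : S * S.adjugate = 1 := by rw [Matrix.mul_adjugate, hs.2, one_smul]
    calc S.adjugate = Sᴴ * S * S.adjugate := by rw [hu, Matrix.one_mul]
      _ = Sᴴ := by rw [Matrix.mul_assoc, h1, Matrix.mul_one]
  have h2 : (starRingEnd ℂ) (trace S) = trace S.adjugate := by
    rw [hadj, trace_conjTranspose]; rfl
  rw [h2, adjugate_fin_three, trace_fin_three, trace_fin_three, trace_fin_three]
  simp [Matrix.mul_apply, Fin.sum_univ_three]
  ring

theorem hasDerivAt_lin {E : Type*} [NormedAddCommGroup E] [NormedSpace ℝ E] (L : M3 →ₗ[ℝ] E)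
    {a : ℝ → M3} {a' : M3} {s : ℝ} (h : HasDerivAt a a' s) :
    HasDerivAt (fun r => L (a r)) (L a') s :=
  (LinearMap.toContinuousLinearMap L).hasFDerivAt.comp_hasDerivAt s h

/-- transposition as a real linear map -/
def trL : M3 →ₗ[ℝ] M3 where
  toFun A := Aᵀ
  map_add' A B := transpose_add A B
  map_smul' c A := transpose_smul c A

/-- the trace as a real linear map -/
def tcL : M3 →ₗ[ℝ] ℂ where
  toFun A := trace A
  map_add' A B := trace_add A B
  map_smul' c A := by rw [trace_smul]; rfl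

theorem hasDerivAt_mulM {a b : ℝ → M3} {a' b' : M3} {s : ℝ} (ha : HasDerivAt a a' s)
    (hb : HasDerivAt b b' s) :
    HasDerivAt (fun r => a r * b r) (a' * b s + a s * b') s := ha.mul hb

/-- first and second derivatives of a curve in `XX` through `1` -/
theorem isT_of_curve {d d1 : ℝ → M3} {d2 : M3}
    (hX : ∀ s, d s ∈ Matrix.specialUnitaryGroup (Fin 3) ℂ ∧ (d s)ᵀ = d s) (h0 : d 0 = 1)
    (h1 : ∀ s, HasDerivAt d (d1 s) s) (h2 : HasDerivAt d1 d2 0) :
    IsT (d1 0) ∧ IsT (d2 - d1 0 * d1 0) := by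
  have hu : ∀ s, d s * (d s)ᴴ = 1 := fun s =>
    Matrix.mem_unitaryGroup_iff.1 (Matrix.mem_specialUnitaryGroup_iff.1 (hX s).1).1
  -- unitarity
  have E1 : ∀ s, d1 s * (d s)ᴴ + d s * (d1 s)ᴴ = 0 := by
    intro s
    have k1 := hasDerivAt_mulM (h1 s) (hasDerivAt_lin ctL (h1 s))
    have k2 : HasDerivAt (fun r => d r * ctL (d r)) (0 : M3) s := by
      have : (fun r => d r * ctL (d r)) = fun _ => (1 : M3) := funext hu
      rw [this]; exact hasDerivAt_const s _
    exact k1.unique k2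
  have E2 : d2 * (d 0)ᴴ + d1 0 * (d1 0)ᴴ + (d1 0 * (d1 0)ᴴ + d 0 * d2ᴴ) = 0 := by
    have k1 := (hasDerivAt_mulM h2 (hasDerivAt_lin ctL (h1 0))).add
      (hasDerivAt_mulM (h1 0) (hasDerivAt_lin ctL h2))
    have k2 : HasDerivAt ((fun r => d1 r * ctL (d r)) + (fun r => d r * ctL (d1 r))) (0 : M3) 0 := by
      have : ((fun r => d1 r * ctL (d r)) + (fun r => d r * ctL (d1 r))) = fun _ => (0 : M3) :=
        funext E1
      rw [this]; exact hasDerivAt_const 0 _
    exact k1.unique k2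
  have e1 := E1 0
  rw [h0, conjTranspose_one, Matrix.mul_one, Matrix.one_mul] at e1
  have skew1 : (d1 0)ᴴ = -d1 0 := (neg_eq_of_add_eq_zero_right e1).symm
  rw [h0, conjTranspose_one, Matrix.mul_one, Matrix.one_mul, skew1] at E2
  -- symmetry
  have S1 : ∀ s, (d1 s)ᵀ = d1 s := by
    intro s
    have k1 := hasDerivAt_lin trL (h1 s)
    have : (fun r => trL (d r)) = d := funext fun r => (hX r).2
    rw [this] at k1
    exact k1.unique (h1 s)
  have S2 : d2ᵀ = d2 := by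
    have k1 := hasDerivAt_lin trL h2
    have : (fun r => trL (d1 r)) = d1 := funext S1
    rw [this] at k1
    exact k1.unique h2
  -- trace
  have hc : ∀ {a : ℝ → M3} {a' : M3} {s : ℝ}, HasDerivAt a a' s →
      HasDerivAt (fun r => (starRingEnd ℂ) (trace (a r))) ((starRingEnd ℂ) (trace a')) s := by
    intro a a' s h
    exact (hasDerivAt_lin tcL h).star
  have T1 : ∀ s, 2 * (starRingEnd ℂ) (trace (d1 s)) =
      (trace (d1 s) * trace (d s) + trace (d s) * trace (d1 s)) -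
        trace (d1 s * d s + d s * d1 s) := by
    intro s
    have k1 : HasDerivAt (fun r => 2 * (starRingEnd ℂ) (trace (d r)))
      (2 * (starRingEnd ℂ) (trace (d1 s))) s := (hc (h1 s)).const_mul 2
    have k2 : HasDerivAt (fun r => trace (d r) * trace (d r) - trace (d r * d r))
        ((trace (d1 s) * trace (d s) + trace (d s) * trace (d1 s)) -
        trace (d1 s * d s + d s * d1 s)) s :=
      ((hasDerivAt_lin tcL (h1 s)).mul (hasDerivAt_lin tcL (h1 s))).sub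
        (hasDerivAt_lin tcL (hasDerivAt_mulM (h1 s) (h1 s)))
    have : (fun r => 2 * (starRingEnd ℂ) (trace (d r))) =
      fun r => trace (d r) * trace (d r) - trace (d r * d r) :=
      funext fun r => trace_conj_su (hX r).1
    rw [this] at k1
    exact k1.unique k2
  have T2 : 2 * (starRingEnd ℂ) (trace d2) =
      ((trace d2 * trace (d 0) + trace (d1 0) * trace (d1 0)) +
        (trace (d1 0) * trace (d1 0) + trace (d 0) * trace d2)) -
        trace ((d2 * d 0 + d1 0 * d1 0) + (d1 0 * d1 0 + d 0 * d2)) := by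
    have k1 : HasDerivAt (fun r => 2 * (starRingEnd ℂ) (trace (d1 r)))
      (2 * (starRingEnd ℂ) (trace d2)) 0 := (hc h2).const_mul 2
    have k2 : HasDerivAt (fun r => (trace (d1 r) * trace (d r) + trace (d r) * trace (d1 r)) -
        trace (d1 r * d r + d r * d1 r))
        (((trace d2 * trace (d 0) + trace (d1 0) * trace (d1 0)) +
        (trace (d1 0) * trace (d1 0) + trace (d 0) * trace d2)) -
        trace ((d2 * d 0 + d1 0 * d1 0) + (d1 0 * d1 0 + d 0 * d2))) 0 :=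
      (((hasDerivAt_lin tcL h2).mul (hasDerivAt_lin tcL (h1 0))).add
        ((hasDerivAt_lin tcL (h1 0)).mul (hasDerivAt_lin tcL h2))).sub
        (hasDerivAt_lin tcL ((hasDerivAt_mulM h2 (h1 0)).add (hasDerivAt_mulM (h1 0) h2)))
    have : (fun r => 2 * (starRingEnd ℂ) (trace (d1 r))) =
      fun r => (trace (d1 r) * trace (d r) + trace (d r) * trace (d1 r)) -
        trace (d1 r * d r + d r * d1 r) := funext T1
    rw [this] at k1
    exact k1.unique k2
  have hone : trace (1 : M3) = 3 := by rw [trace_one]; simp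
  have t1 := T1 0
  rw [h0, Matrix.mul_one, Matrix.one_mul, trace_add, hone] at t1
  have c1 : (starRingEnd ℂ) (trace (d1 0)) = -trace (d1 0) := by
    have : (starRingEnd ℂ) (trace (d1 0)) = trace ((d1 0)ᴴ) := by rw [trace_conjTranspose]; rfl
    rw [this, skew1, trace_neg]
  rw [c1] at t1
  have tr1 : trace (d1 0) = 0 := by linear_combination (-1 / 6) * t1
  rw [h0, Matrix.mul_one, Matrix.one_mul, trace_add, trace_add, trace_add, hone, tr1] at T2
  have c2 := congrArg trace E2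
  rw [trace_add, trace_add, trace_add, trace_conjTranspose, Matrix.mul_neg, trace_neg,
    trace_zero] at c2
  have c2' : trace d2 + (starRingEnd ℂ) (trace d2) = 2 * trace (d1 0 * d1 0) := by
    have : star (trace d2) = (starRingEnd ℂ) (trace d2) := rfl
    rw [this] at c2
    linear_combination c2
  refine ⟨⟨skew1, S1 0, tr1⟩, ⟨?_, ?_, ?_⟩⟩
  · rw [conjTranspose_sub, conjTranspose_mul, skew1, neg_mul_neg]
    have : d2ᴴ = 2 • (d1 0 * d1 0) - d2 := by
      rw [Matrix.mul_neg] at E2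
      have e3 : d2ᴴ = d1 0 * d1 0 + d1 0 * d1 0 - d2 := by
        rw [← sub_eq_zero]
        rw [← E2]; abel
      rw [e3, two_smul]
    rw [this, two_smul]; abel
  · rw [transpose_sub, transpose_mul, S1 0, S2]
  · rw [trace_sub]
    linear_combination (-1 / 6) * T2 + (1 / 3) * c2'

/-! ### The derivative of an isometry -/

theorem der2_aux {E₁ E₂ : Type*} [NormedAddCommGroup E₁] [NormedSpace ℝ E₁]
    [NormedAddCommGroup E₂] [NormedSpace ℝ E₂] {F : E₁ → E₂} (hF : ContDiff ℝ ∞ F) :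
    ∃ (D : E₁ → E₁ → E₂) (B : E₁ → E₁ → E₁ → E₂),
      (∀ x u v, D x (u + v) = D x u + D x v) ∧ (∀ x (r : ℝ) u, D x (r • u) = r • D x u) ∧
      (∀ x u u' v, B x (u + u') v = B x u v + B x u' v) ∧
      (∀ x (r : ℝ) u v, B x (r • u) v = r • B x u v) ∧ (∀ x u v, B x u v = B x v u) ∧
      (∀ (c : ℝ → E₁) (c' : E₁) (s : ℝ), HasDerivAt c c' s →
        HasDerivAt (fun r => F (c r)) (D (c s) c') s) ∧
      (∀ (c v : ℝ → E₁) (c' v' : E₁) (s : ℝ), HasDerivAt c c' s → HasDerivAt v v' s →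
        HasDerivAt (fun r => D (c r) (v r)) (B (c s) c' (v s) + D (c s) v') s) := by
  have hF' : ContDiff ℝ ∞ (fderiv ℝ F) := hF.fderiv_right (by simp)
  have h1 : ∀ x, HasFDerivAt F (fderiv ℝ F x) x := fun x =>
    ((hF.differentiable (by simp)) x).hasFDerivAt
  have h2 : ∀ x, HasFDerivAt (fderiv ℝ F) (fderiv ℝ (fderiv ℝ F) x) x := fun x =>
    ((hF'.differentiable (by simp)) x).hasFDerivAt
  refine ⟨fun x v => fderiv ℝ F x v, fun x u v => fderiv ℝ (fderiv ℝ F) x u v, ?_, ?_, ?_, ?_, ?_,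
    ?_, ?_⟩
  · intro x u v; exact map_add _ _ _
  · intro x r u; exact map_smul _ _ _
  · intro x u u' v
    change fderiv ℝ (fderiv ℝ F) x (u + u') v = _
    rw [map_add]; rfl
  · intro x r u v
    change fderiv ℝ (fderiv ℝ F) x (r • u) v = _
    rw [map_smul]; rfl
  · intro x u v
    have h : IsSymmSndFDerivAt ℝ F x := hF.contDiffAt.isSymmSndFDerivAt (by
      rw [minSmoothness_of_isRCLikeNormedField]; exact two_le_infty)
    exact h u v
  · intro c c' s hc
    exact (h1 (c s)).comp_hasDerivAt s hc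
  · intro c v c' v' s hc hv
    exact ((h2 (c s)).comp_hasDerivAt s hc).clm_apply hv

/-- first and second derivatives along curves -/
structure Der2 {E : Type*} [NormedAddCommGroup E] [NormedSpace ℝ E] (F : M3 → E)
    (D : M3 → M3 → E) (B : M3 → M3 → M3 → E) : Prop where
  Dadd : ∀ x u v, D x (u + v) = D x u + D x v
  Dsmul : ∀ x (r : ℝ) u, D x (r • u) = r • D x u
  Badd : ∀ x u u' v, B x (u + u') v = B x u v + B x u' v
  Bsmul : ∀ x (r : ℝ) u v, B x (r • u) v = r • B x u v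
  Bsymm : ∀ x u v, B x u v = B x v u
  d1 : ∀ (c : ℝ → M3) (c' : M3) (s : ℝ), HasDerivAt c c' s →
    HasDerivAt (fun r => F (c r)) (D (c s) c') s
  d2 : ∀ (c v : ℝ → M3) (c' v' : M3) (s : ℝ), HasDerivAt c c' s → HasDerivAt v v' s →
    HasDerivAt (fun r => D (c r) (v r)) (B (c s) c' (v s) + D (c s) v') s

theorem exists_der2 {E : Type*} [NormedAddCommGroup E] [NormedSpace ℝ E] {F : M3 → E}
    (hF : ContDiff ℝ ∞ F) : ∃ D B, Der2 F D B := by
  obtain ⟨D, B, h1, h2, h3, h4, h5, h6, h7⟩ := der2_aux hF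
  exact ⟨D, B, h1, h2, h3, h4, h5, h6, h7⟩

theorem chain2 {F : M3 → ℂ} {D : M3 → M3 → ℂ} {B : M3 → M3 → M3 → ℂ} (hF : Der2 F D B)
    {c c1 : ℝ → M3} {c2 : M3}
    (h1 : ∀ s, HasDerivAt c (c1 s) s) (h2 : HasDerivAt c1 c2 0) :
    iteratedDeriv 2 (fun s => F (c s)) 0 = B (c 0) (c1 0) (c1 0) + D (c 0) c2 := by
  have e1 : deriv (fun s => F (c s)) = fun s => D (c s) (c1 s) :=
    funext fun s => (hF.d1 c (c1 s) s (h1 s)).deriv
  rw [iteratedDeriv_succ, iteratedDeriv_one, e1]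
  exact (hF.d2 c c1 (c1 0) c2 0 (h1 0) h2).deriv

theorem hasDerivAt_geo (g : M3) (k : Fin 5) (s : ℝ) :
    HasDerivAt (fun r : ℝ => g * NormedSpace.exp (r • P k) * gᵀ)
      (g * (NormedSpace.exp (s • P k) * P k) * gᵀ) s := by
  have := hasDerivAt_mulM (hasDerivAt_mulM (hasDerivAt_const s g) (hasDerivAt_expP k s))
    (hasDerivAt_const s gᵀ)
  refine this.congr_deriv ?_
  simp

theorem hasDerivAt_geo2 (g : M3) (k : Fin 5) :
    HasDerivAt (fun r : ℝ => g * (NormedSpace.exp (r • P k) * P k) * gᵀ)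
      (g * (P k * P k) * gᵀ) 0 := by
  have h1 := hasDerivAt_mulM (hasDerivAt_expP k 0) (hasDerivAt_const (0 : ℝ) (P k))
  have := hasDerivAt_mulM (hasDerivAt_mulM (hasDerivAt_const (0 : ℝ) g) h1)
    (hasDerivAt_const (0 : ℝ) gᵀ)
  refine this.congr_deriv ?_
  simp

theorem hasDerivAt_half (k : Fin 5) :
    HasDerivAt (fun r : ℝ => NormedSpace.exp ((r / 2) • P k)) ((1 / 2 : ℝ) • P k) 0 := by
  have h := (hasDerivAt_expP k (0 / 2)).scomp 0 ((hasDerivAt_id (0 : ℝ)).div_const 2)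
  refine h.congr_deriv ?_
  rw [zero_div, expP_zero, Matrix.one_mul]

/-- the symmetrised product -/
def sy (j k : Fin 5) : M3 := (1 / 2 : ℝ) • (P j * P k + P k * P j)

theorem sy_comm (j k : Fin 5) : sy j k = sy k j := by unfold sy; rw [add_comm]

theorem sy_self (k : Fin 5) : sy k k = P k * P k := by
  unfold sy
  rw [← two_smul ℝ, smul_smul]
  norm_num

theorem hasDerivAt_half2 (g : M3) (j k : Fin 5) :
    HasDerivAt (fun r : ℝ => g * NormedSpace.exp ((r / 2) • P j) * P k *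
      (g * NormedSpace.exp ((r / 2) • P j))ᵀ) (g * sy j k * gᵀ) 0 := by
  have h1 := hasDerivAt_mulM (hasDerivAt_const (0 : ℝ) g) (hasDerivAt_half j)
  have h2 := hasDerivAt_mulM h1 (hasDerivAt_const (0 : ℝ) (P k))
  have h3 := hasDerivAt_mulM h2 (hasDerivAt_lin trL h1)
  refine h3.congr_deriv ?_
  change (((0 * NormedSpace.exp (((0 : ℝ) / 2) • P j) + g * ((1 / 2 : ℝ) • P j)) * P k +
    g * NormedSpace.exp (((0 : ℝ) / 2) • P j) * 0) * (g * NormedSpace.exp (((0 : ℝ) / 2) • P j))ᵀ +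
    g * NormedSpace.exp (((0 : ℝ) / 2) • P j) * P k *
      (0 * NormedSpace.exp (((0 : ℝ) / 2) • P j) + g * ((1 / 2 : ℝ) • P j))ᵀ) = _
  rw [zero_div, expP_zero, Matrix.zero_mul, Matrix.mul_zero, Matrix.mul_one, zero_add, add_zero,
    transpose_mul, transpose_smul, P_transpose]
  unfold sy
  simp only [Matrix.mul_smul, Matrix.smul_mul, Matrix.mul_add, Matrix.add_mul, smul_add,
    Matrix.mul_assoc]

section Isometry

variable {φ : Equiv.Perm XX} {Φ : M3 → M3} {D : M3 → M3 → M3} {B : M3 → M3 → M3 → M3}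

/-- the speed condition in terms of the derivative of the extension -/
theorem isom_nsq (H : IsIsom φ) (hΦ : Der2 Φ D B)
    (hφ : ∀ S : XX, Φ S.1 = (φ S).1) {c : ℝ → XX} {m : ℝ → M3} (hm : ∀ s, (c s).1 = m s)
    (hc : ContDiff ℝ ∞ m) {v : M3} (hv : HasDerivAt m v 0) : nsq (D (m 0) v) = nsq v := by
  have e1 : (fun s => (c s).1) = m := funext hm
  have e2 : (fun s => (φ (c s)).1) = fun s => Φ (m s) := funext fun s => by rw [← hφ, hm]
  have h1 := H.speed c (by rw [e1]; exact hc) 0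
  rw [e1, e2] at h1
  have h3 := (hΦ.d1 m v 0 hv).deriv
  calc nsq (D (m 0) v) = nsq (deriv (fun s => Φ (m s)) 0) := congrArg nsq h3.symm
    _ = nsq (deriv m 0) := h1
    _ = nsq v := congrArg nsq hv.deriv

theorem isom_nsq_P (H : IsIsom φ) (hΦ : Der2 Φ D B)
    (hφ : ∀ S : XX, Φ S.1 = (φ S).1) (a : SU3) (k : Fin 5) :
    nsq (D (mk a).1 (a.1 * P k * a.1ᵀ)) = nsq (P k) := by
  have h := isom_nsq H hΦ hφ (c := fun s : ℝ => mk (a * eP k (s / 2)))
    (m := fun s : ℝ => a.1 * NormedSpace.exp (s • P k) * a.1ᵀ) (v := a.1 * P k * a.1ᵀ)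
    (fun s => (curve_eq a k s).symm) (curve_smooth a.1 (P k)) (by
      have := hasDerivAt_geo a.1 k 0
      rwa [expP_zero, Matrix.one_mul] at this)
  rw [expP_zero, Matrix.mul_one] at h
  change nsq (D (a.1 * a.1ᵀ) (a.1 * P k * a.1ᵀ)) = _
  rw [h, nsq_conj]

theorem isom_nsq_P_add (H : IsIsom φ) (hΦ : Der2 Φ D B)
    (hφ : ∀ S : XX, Φ S.1 = (φ S).1) (a : SU3) (k l : Fin 5) :
    nsq (D (mk a).1 (a.1 * (P k + P l) * a.1ᵀ)) = nsq (P k + P l) := by
  have hexp : ContDiff ℝ ∞ (fun X : M3 => NormedSpace.exp X) :=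
    contDiff_iff_contDiffAt.2 fun X => (NormedSpace.exp_analytic (𝕂 := ℝ) X).contDiffAt
  have hs1 : ContDiff ℝ ∞ (fun s : ℝ => a.1 * NormedSpace.exp ((s / 2) • P k)) :=
    contDiff_const.mul (hexp.comp ((contDiff_id.div_const 2).smul contDiff_const))
  have hs2 : ContDiff ℝ ∞ (fun s : ℝ => NormedSpace.exp (s • P l)) :=
    hexp.comp (contDiff_id.smul contDiff_const)
  have hs3 : ContDiff ℝ ∞ (fun s : ℝ => (a.1 * NormedSpace.exp ((s / 2) • P k))ᵀ) :=
    (LinearMap.toContinuousLinearMap trL).contDiff.comp hs1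
  have hd1 := hasDerivAt_mulM (hasDerivAt_const (0 : ℝ) a.1) (hasDerivAt_half k)
  have hd2 := hasDerivAt_mulM (hasDerivAt_mulM hd1 (hasDerivAt_expP l 0)) (hasDerivAt_lin trL hd1)
  have h := isom_nsq H hΦ hφ (c := fun s : ℝ => mk (a * eP k (s / 2) * eP l (s / 2)))
    (m := fun s : ℝ => (a.1 * NormedSpace.exp ((s / 2) • P k)) * NormedSpace.exp (s • P l) *
        (a.1 * NormedSpace.exp ((s / 2) • P k))ᵀ)
    (v := a.1 * (P k + P l) * a.1ᵀ) (fun s => (curve_eq (a * eP k (s / 2)) l s).symm)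
    ((hs1.mul hs2).mul hs3) (by
      refine hd2.congr_deriv ?_
      change (((0 * NormedSpace.exp (((0 : ℝ) / 2) • P k) + a.1 * ((1 / 2 : ℝ) • P k)) *
        NormedSpace.exp ((0 : ℝ) • P l) + a.1 * NormedSpace.exp (((0 : ℝ) / 2) • P k) *
        (NormedSpace.exp ((0 : ℝ) • P l) * P l)) * (a.1 * NormedSpace.exp (((0 : ℝ) / 2) • P k))ᵀ +
        a.1 * NormedSpace.exp (((0 : ℝ) / 2) • P k) * NormedSpace.exp ((0 : ℝ) • P l) *
        (0 * NormedSpace.exp (((0 : ℝ) / 2) • P k) + a.1 * ((1 / 2 : ℝ) • P k))ᵀ) = _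
      rw [zero_div, expP_zero, expP_zero]
      simp only [Matrix.mul_one, Matrix.one_mul, zero_add, transpose_mul,
        transpose_smul, P_transpose, Matrix.add_mul, Matrix.mul_add, Matrix.mul_smul,
        Matrix.smul_mul, Matrix.mul_assoc]
      module)
  have e0 : a.1 * NormedSpace.exp (((0 : ℝ) / 2) • P k) * NormedSpace.exp ((0 : ℝ) • P l) *
        (a.1 * NormedSpace.exp (((0 : ℝ) / 2) • P k))ᵀ = a.1 * a.1ᵀ := by
    rw [expP_zero, zero_div, expP_zero, Matrix.mul_one, Matrix.mul_one]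
  rw [e0] at h
  change nsq (D (a.1 * a.1ᵀ) (a.1 * (P k + P l) * a.1ᵀ)) = _
  rw [h, nsq_conj]

theorem isom_mip_P (H : IsIsom φ) (hΦ : Der2 Φ D B)
    (hφ : ∀ S : XX, Φ S.1 = (φ S).1) (a : SU3) (k l : Fin 5) :
    mip (D (mk a).1 (a.1 * P k * a.1ᵀ)) (D (mk a).1 (a.1 * P l * a.1ᵀ)) =
      mip (P k) (P l) := by
  have h1 := isom_nsq_P H hΦ hφ a k
  have h2 := isom_nsq_P H hΦ hφ a l
  have h3 := isom_nsq_P_add H hΦ hφ a k l
  rw [Matrix.mul_add, Matrix.add_mul, hΦ.Dadd, nsq_add, nsq_add, h1, h2] at h3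
  linarith

/-- second derivatives -/
def Acc (D : M3 → M3 → M3) (B : M3 → M3 → M3 → M3) (g : M3) (j k : Fin 5) : M3 :=
  B (g * gᵀ) (g * P j * gᵀ) (g * P k * gᵀ) + D (g * gᵀ) (g * sy j k * gᵀ)

theorem Acc_comm (hΦ : Der2 Φ D B) (g : M3) (j k : Fin 5) : Acc D B g j k = Acc D B g k j := by
  unfold Acc
  rw [sy_comm j k, hΦ.Bsymm]

theorem isom_koszul1 (H : IsIsom φ) (hΦ : Der2 Φ D B)
    (hφ : ∀ S : XX, Φ S.1 = (φ S).1) (g : SU3) (j k l : Fin 5) :
    mip (Acc D B g.1 j k) (D (mk g).1 (g.1 * P l * g.1ᵀ)) +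
      mip (D (mk g).1 (g.1 * P k * g.1ᵀ)) (Acc D B g.1 j l) = 0 := by
  have hm : HasDerivAt (fun s : ℝ => g.1 * NormedSpace.exp (s • P j) * g.1ᵀ)
      (g.1 * P j * g.1ᵀ) 0 := by
    have := hasDerivAt_geo g.1 j 0
    rwa [expP_zero, Matrix.one_mul] at this
  have hW : ∀ k, HasDerivAt (fun s : ℝ => D (g.1 * NormedSpace.exp (s • P j) * g.1ᵀ)
      (g.1 * NormedSpace.exp ((s / 2) • P j) * P k *
        (g.1 * NormedSpace.exp ((s / 2) • P j))ᵀ)) (Acc D B g.1 j k) 0 := by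
    intro k
    have := hΦ.d2 _ _ _ _ 0 hm (hasDerivAt_half2 g.1 j k)
    refine this.congr_deriv ?_
    unfold Acc
    rw [expP_zero, zero_div, expP_zero, Matrix.mul_one]
  have h1 := hasDerivAt_mip (hW k) (hW l)
  have h2 : HasDerivAt (fun s : ℝ => mip (D (g.1 * NormedSpace.exp (s • P j) * g.1ᵀ)
      (g.1 * NormedSpace.exp ((s / 2) • P j) * P k *
        (g.1 * NormedSpace.exp ((s / 2) • P j))ᵀ)) (D (g.1 * NormedSpace.exp (s • P j) * g.1ᵀ)
      (g.1 * NormedSpace.exp ((s / 2) • P j) * P l *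
        (g.1 * NormedSpace.exp ((s / 2) • P j))ᵀ))) 0 0 := by
    have : (fun s : ℝ => mip (D (g.1 * NormedSpace.exp (s • P j) * g.1ᵀ)
      (g.1 * NormedSpace.exp ((s / 2) • P j) * P k *
        (g.1 * NormedSpace.exp ((s / 2) • P j))ᵀ)) (D (g.1 * NormedSpace.exp (s • P j) * g.1ᵀ)
      (g.1 * NormedSpace.exp ((s / 2) • P j) * P l *
        (g.1 * NormedSpace.exp ((s / 2) • P j))ᵀ))) = fun _ => mip (P k) (P l) := by
      funext s
      have h := isom_mip_P H hΦ hφ (g * eP j (s / 2)) k l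
      have e := curve_eq g j s
      rw [← e] at h
      exact h
    rw [this]; exact hasDerivAt_const 0 _
  have h3 := h1.unique h2
  rw [expP_zero, zero_div, expP_zero, Matrix.mul_one] at h3
  exact h3

theorem isom_koszul (H : IsIsom φ) (hΦ : Der2 Φ D B)
    (hφ : ∀ S : XX, Φ S.1 = (φ S).1) (g : SU3) (j k l : Fin 5) :
    mip (Acc D B g.1 j k) (D (mk g).1 (g.1 * P l * g.1ᵀ)) = 0 := by
  set a : Fin 5 → Fin 5 → Fin 5 → ℝ := fun j k l =>
    mip (Acc D B g.1 j k) (D (mk g).1 (g.1 * P l * g.1ᵀ)) with ha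
  have h1 : ∀ j k l, a j k l = -a j l k := by
    intro j k l
    have := isom_koszul1 H hΦ hφ g j k l
    rw [mip_comm (D (mk g).1 (g.1 * P k * g.1ᵀ))] at this
    change a j k l + a j l k = 0 at this
    linarith
  have h2 : ∀ j k l, a j k l = a k j l := by
    intro j k l
    simp only [ha]
    rw [Acc_comm hΦ]
  have h3 : a j k l = -a j k l := by
    calc a j k l = -a j l k := h1 _ _ _
      _ = -a l j k := by rw [h2 j l k]
      _ = a l k j := by rw [h1 l j k, neg_neg]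
      _ = a k l j := h2 _ _ _
      _ = -a k j l := h1 _ _ _
      _ = -a j k l := by rw [h2 k j l]
  change a j k l = 0
  linarith

end Isometry

/-! ### Change of orthonormal basis -/

/-- `mip A` as a linear map -/
def mipR (A : M3) : M3 →ₗ[ℝ] ℝ where
  toFun B := mip A B
  map_add' B B' := mip_add_right A B B'
  map_smul' c B := mip_smul_right c A B

/-- coordinates of five tangent vectors -/
def Omat (w : Fin 5 → M3) : Matrix (Fin 5) (Fin 5) ℝ := Matrix.of fun k m => mip (w k) (P m)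

theorem mip_expand {w : Fin 5 → M3} (hT : ∀ k, IsT (w k)) (A : M3) (l : Fin 5) :
    mip A (w l) = ∑ m, Omat w l m * mip A (P m) := by
  conv_lhs => rw [(hT l).expand]
  change mipR A (∑ k, mip (w l) (P k) • P k) = _
  rw [map_sum]
  refine Finset.sum_congr rfl fun m _ => ?_
  rw [map_smul]; rfl

theorem Omat_orth {w : Fin 5 → M3} (hT : ∀ k, IsT (w k))
    (ho : ∀ k l, mip (w k) (w l) = if k = l then 1 else 0) : (Omat w)ᵀ * Omat w = 1 := by
  rw [mul_eq_one_comm]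
  ext k l
  rw [Matrix.mul_apply, Matrix.one_apply, ← ho, mip_expand hT]
  refine Finset.sum_congr rfl fun m _ => ?_
  rw [Matrix.transpose_apply, mul_comm]; rfl

theorem eq_zero_of_orth_w {w : Fin 5 → M3} (hT : ∀ k, IsT (w k))
    (ho : ∀ k l, mip (w k) (w l) = if k = l then 1 else 0) {r : M3} (hr : IsT r)
    (h : ∀ l, mip r (w l) = 0) : r = 0 := by
  have h1 : (Omat w).mulVec (fun m => mip r (P m)) = 0 := by
    funext l
    rw [Matrix.mulVec_eq_sum] 
    have := mip_expand hT r l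
    rw [h l] at this
    simp only [Finset.sum_apply, Pi.smul_apply, Matrix.transpose_apply, MulOpposite.smul_eq_mul_unop,
      MulOpposite.unop_op, Pi.zero_apply]
    exact this.symm
  have h2 : (fun m => mip r (P m)) = 0 := by
    have : ((Omat w)ᵀ * Omat w).mulVec (fun m => mip r (P m)) = 0 := by
      rw [← Matrix.mulVec_mulVec, h1, Matrix.mulVec_zero]
    rwa [Omat_orth hT ho, Matrix.one_mulVec] at this
  rw [hr.expand]
  refine Finset.sum_eq_zero fun m _ => ?_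
  have := congrFun h2 m
  simp only [Pi.zero_apply] at this
  rw [this, zero_smul]

theorem sum_bil (β : M3 →ₗ[ℝ] M3 →ₗ[ℝ] ℂ) {w : Fin 5 → M3} (hT : ∀ k, IsT (w k))
    (ho : ∀ k l, mip (w k) (w l) = if k = l then 1 else 0) :
    ∑ k, β (w k) (w k) = ∑ k, β (P k) (P k) := by
  have h1 : ∀ k, β (w k) (w k) = ∑ m, ∑ n, (Omat w k m * Omat w k n) • β (P m) (P n) := by
    intro k
    have e : w k = ∑ m, Omat w k m • P m := (hT k).expand
    conv_lhs => rw [e]
    rw [map_sum, Finset.sum_comm]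
    refine Finset.sum_congr rfl fun n _ => ?_
    rw [map_sum, LinearMap.sum_apply]
    refine Finset.sum_congr rfl fun m _ => ?_
    rw [map_smul, map_smul, LinearMap.smul_apply, smul_smul, mul_comm]
  simp only [h1]
  rw [Finset.sum_comm]
  refine Finset.sum_congr rfl fun m _ => ?_
  rw [Finset.sum_comm]
  have h2 : ∀ n, ∑ k, (Omat w k m * Omat w k n) • β (P m) (P n) =
      (if m = n then (1 : ℝ) else 0) • β (P m) (P n) := by
    intro n
    rw [← Finset.sum_smul]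
    congr 1
    have := congrFun (congrFun (Omat_orth hT ho) m) n
    rw [Matrix.mul_apply, Matrix.one_apply] at this
    exact this
  simp only [h2]
  simp

/-- the form of the second derivatives along geodesics -/
def bet (DF : M3 → M3 → ℂ) (BF : M3 → M3 → M3 → ℂ) (g : M3) (X Y : M3) : ℂ :=
  BF (g * gᵀ) (g * X * gᵀ) (g * Y * gᵀ) + DF (g * gᵀ) (g * (X * Y) * gᵀ)

/-- `bet` as a bilinear map -/
def betL {F : M3 → ℂ} {DF : M3 → M3 → ℂ} {BF : M3 → M3 → M3 → ℂ} (hF : Der2 F DF BF) (g : M3) :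
    M3 →ₗ[ℝ] M3 →ₗ[ℝ] ℂ :=
  LinearMap.mk₂ ℝ (bet DF BF g)
    (fun X X' Y => by
      unfold bet
      rw [Matrix.mul_add, Matrix.add_mul, hF.Badd, Matrix.add_mul, Matrix.mul_add, Matrix.add_mul,
        hF.Dadd]
      ring)
    (fun c X Y => by
      unfold bet
      rw [Matrix.mul_smul, Matrix.smul_mul, hF.Bsmul, Matrix.smul_mul, Matrix.mul_smul,
        Matrix.smul_mul, hF.Dsmul, smul_add])
    (fun X Y Y' => by
      unfold bet
      rw [Matrix.mul_add, Matrix.add_mul, hF.Bsymm, hF.Badd, Matrix.mul_add, Matrix.mul_add,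
        Matrix.add_mul, hF.Dadd, hF.Bsymm _ (g * Y * gᵀ), hF.Bsymm _ (g * Y' * gᵀ)]
      ring)
    (fun c X Y => by
      unfold bet
      rw [Matrix.mul_smul, Matrix.smul_mul, hF.Bsymm, hF.Bsmul, Matrix.mul_smul, Matrix.mul_smul,
        Matrix.smul_mul, hF.Dsmul, hF.Bsymm _ (g * Y * gᵀ), smul_add])

theorem isom_preservesLap {φ : Equiv.Perm XX} (H : IsIsom φ) : PreservesLap φ := by
  rintro f h ⟨F, hF, hf, hh⟩
  obtain ⟨Φ, hΦ, hφ⟩ := H.smooth
  obtain ⟨D, B, hD⟩ := exists_der2 hΦ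
  obtain ⟨DF, BF, hDF⟩ := exists_der2 hF
  refine ⟨F ∘ Φ, hF.comp hΦ, fun S => ?_, fun g => ?_⟩
  · change F (Φ S.1) = f (φ S)
    rw [hφ, hf]
  obtain ⟨g', hg'⟩ := mk_surj (φ (mk g))
  change h (φ (mk g)) = _
  rw [← hg', hh g']
  -- the second derivatives along geodesics through `g' g'ᵀ`
  have hR : ∀ k, iteratedDeriv 2 (fun s : ℝ => F (g'.1 * NormedSpace.exp (s • P k) * g'.1ᵀ)) 0 =
      betL hDF g'.1 (P k) (P k) := by
    intro k
    rw [chain2 hDF (fun s => hasDerivAt_geo g'.1 k s) (hasDerivAt_geo2 g'.1 k)]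
    simp only [expP_zero, Matrix.mul_one, Matrix.one_mul]
    rfl
  have hΦg : Φ (g.1 * g.1ᵀ) = g'.1 * g'.1ᵀ := by
    have h1 := hφ (mk g)
    rw [← hg'] at h1
    exact h1
  -- the images of the geodesics
  set c : Fin 5 → ℝ → M3 := fun k s => Φ (g.1 * NormedSpace.exp (s • P k) * g.1ᵀ) with hc
  set c1 : Fin 5 → ℝ → M3 := fun k s => D (g.1 * NormedSpace.exp (s • P k) * g.1ᵀ)
    (g.1 * (NormedSpace.exp (s • P k) * P k) * g.1ᵀ) with hc1
  have hc0 : ∀ k, c k 0 = g'.1 * g'.1ᵀ := by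
    intro k
    simp only [hc, expP_zero, Matrix.mul_one]
    exact hΦg
  have hc10 : ∀ k, c1 k 0 = D (mk g).1 (g.1 * P k * g.1ᵀ) := by
    intro k
    simp only [hc1, expP_zero, Matrix.mul_one, Matrix.one_mul]
    rfl
  have hd1 : ∀ k s, HasDerivAt (c k) (c1 k s) s := fun k s =>
    hD.d1 _ _ s (hasDerivAt_geo g.1 k s)
  have hd2 : ∀ k, HasDerivAt (c1 k) (Acc D B g.1 k k) 0 := by
    intro k
    have := hD.d2 _ _ _ _ 0 (hasDerivAt_geo g.1 k 0) (hasDerivAt_geo2 g.1 k)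
    refine this.congr_deriv ?_
    unfold Acc
    rw [expP_zero, sy_self, Matrix.mul_one, Matrix.one_mul]
  have hL : ∀ k, iteratedDeriv 2
      (fun s : ℝ => (F ∘ Φ) (g.1 * NormedSpace.exp (s • P k) * g.1ᵀ)) 0 =
      BF (g'.1 * g'.1ᵀ) (D (mk g).1 (g.1 * P k * g.1ᵀ)) (D (mk g).1 (g.1 * P k * g.1ᵀ)) +
        DF (g'.1 * g'.1ᵀ) (Acc D B g.1 k k) := by
    intro k
    have := chain2 hDF (hd1 k) (hd2 k)
    rw [hc0, hc10] at this
    exact this
  -- back to `1`
  set γ : SU3 := g'⁻¹ with hγ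
  have hγg : γ.1 * g'.1 = 1 := by
    have : γ * g' = 1 := by rw [hγ]; exact inv_mul_cancel g'
    exact congrArg Subtype.val this
  have hgγ : g'.1 * γ.1 = 1 := mul_eq_one_comm.1 hγg
  have hγt : g'.1ᵀ * γ.1ᵀ = 1 := by rw [← transpose_mul, hγg, transpose_one]
  have hγt' : γ.1ᵀ * g'.1ᵀ = 1 := by rw [← transpose_mul, hgγ, transpose_one]
  set w : Fin 5 → M3 := fun k => γ.1 * D (mk g).1 (g.1 * P k * g.1ᵀ) * γ.1ᵀ with hw
  have hcurve : ∀ k, IsT (w k) ∧ IsT (γ.1 * Acc D B g.1 k k * γ.1ᵀ - w k * w k) := by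
    intro k
    have k1 : ∀ s, HasDerivAt (fun r => γ.1 * c k r * γ.1ᵀ) (γ.1 * c1 k s * γ.1ᵀ) s := by
      intro s
      have := hasDerivAt_mulM (hasDerivAt_mulM (hasDerivAt_const s γ.1) (hd1 k s))
        (hasDerivAt_const s γ.1ᵀ)
      refine this.congr_deriv ?_
      simp
    have k2 : HasDerivAt (fun r => γ.1 * c1 k r * γ.1ᵀ) (γ.1 * Acc D B g.1 k k * γ.1ᵀ) 0 := by
      have := hasDerivAt_mulM (hasDerivAt_mulM (hasDerivAt_const (0 : ℝ) γ.1) (hd2 k))
        (hasDerivAt_const (0 : ℝ) γ.1ᵀ)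
      refine this.congr_deriv ?_
      simp
    have k3 : ∀ s, γ.1 * c k s * γ.1ᵀ ∈ Matrix.specialUnitaryGroup (Fin 3) ℂ ∧
        (γ.1 * c k s * γ.1ᵀ)ᵀ = γ.1 * c k s * γ.1ᵀ := by
      intro s
      have e : c k s = (φ (mk (g * eP k (s / 2)))).1 := by
        simp only [hc]
        rw [curve_eq, hφ]
      rw [e]
      exact (tau γ (φ (mk (g * eP k (s / 2))))).2
    have k4 : γ.1 * c k 0 * γ.1ᵀ = 1 := by
      rw [hc0, ← Matrix.mul_assoc, hγg, Matrix.one_mul, hγt]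
    have := isT_of_curve k3 k4 k1 k2
    simp only [hc10] at this
    exact this
  have hT : ∀ k, IsT (w k) := fun k => (hcurve k).1
  have ho : ∀ k l, mip (w k) (w l) = if k = l then 1 else 0 := by
    intro k l
    simp only [hw]
    rw [mip_conj, isom_mip_P H hD hφ, mip_P_P]
  have hz : ∀ k, γ.1 * Acc D B g.1 k k * γ.1ᵀ = w k * w k := by
    intro k
    rw [← sub_eq_zero]
    refine eq_zero_of_orth_w hT ho (hcurve k).2 fun l => ?_
    have e1 : mip (γ.1 * Acc D B g.1 k k * γ.1ᵀ) (w l) = 0 := by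
      simp only [hw]
      rw [mip_conj, isom_koszul H hD hφ]
    have e2 : mip (w k * w k) (w l) = 0 := mip_sq (hT k) (hT l)
    have e3 : mip (γ.1 * Acc D B g.1 k k * γ.1ᵀ) (w l) =
        mip (γ.1 * Acc D B g.1 k k * γ.1ᵀ - w k * w k) (w l) + mip (w k * w k) (w l) := by
      rw [← mip_add_left, sub_add_cancel]
    linarith
  have hback : ∀ A : M3, g'.1 * (γ.1 * A * γ.1ᵀ) * g'.1ᵀ = A := by
    intro A
    calc g'.1 * (γ.1 * A * γ.1ᵀ) * g'.1ᵀ = (g'.1 * γ.1) * A * (γ.1ᵀ * g'.1ᵀ) := by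
          simp only [Matrix.mul_assoc]
      _ = A := by rw [hgγ, hγt', Matrix.one_mul, Matrix.mul_one]
  have hL2 : ∀ k, iteratedDeriv 2
      (fun s : ℝ => (F ∘ Φ) (g.1 * NormedSpace.exp (s • P k) * g.1ᵀ)) 0 =
      betL hDF g'.1 (w k) (w k) := by
    intro k
    rw [hL]
    change _ = BF (g'.1 * g'.1ᵀ) (g'.1 * w k * g'.1ᵀ) (g'.1 * w k * g'.1ᵀ) +
      DF (g'.1 * g'.1ᵀ) (g'.1 * (w k * w k) * g'.1ᵀ)
    rw [← hz k, hback, hback]
  rw [Finset.sum_congr rfl fun k _ => hR k, Finset.sum_congr rfl fun k _ => hL2 k]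
  exact (sum_bil (betL hDF g'.1) hT ho).symm

/-! ### The maps `tau g` are isometries -/

theorem isIsom_tau (g : SU3) : IsIsom (tau g) := by
  have hs : ∀ g : SU3, ContDiff ℝ ∞ (fun A : M3 => g.1 * A * g.1ᵀ) := fun g =>
    (contDiff_const.mul contDiff_id).mul contDiff_const
  refine ⟨⟨fun A => g.1 * A * g.1ᵀ, hs g, fun S => rfl⟩,
    ⟨fun A => (g⁻¹).1 * A * (g⁻¹).1ᵀ, hs g⁻¹, fun S => rfl⟩, ?_⟩
  intro c hc s
  have h1 : HasDerivAt (fun s => (c s).1) (deriv (fun s => (c s).1) s) s :=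
    ((hc.differentiable (by simp)) s).hasDerivAt
  have h2 : HasDerivAt (fun s => (tau g (c s)).1) (g.1 * deriv (fun s => (c s).1) s * g.1ᵀ) s := by
    have := hasDerivAt_mulM (hasDerivAt_mulM (hasDerivAt_const s g.1) h1)
      (hasDerivAt_const s g.1ᵀ)
    refine this.congr_deriv ?_
    simp
  calc nsq (deriv (fun s => (tau g (c s)).1) s)
      = nsq (g.1 * deriv (fun s => (c s).1) s * g.1ᵀ) := congrArg nsq h2.deriv
    _ = nsq (deriv (fun s => (c s).1) s) := nsq_conj g _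

end Pool.Agent.Iso79
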