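import Pool.Agent.Iso79.Inj

/-!
# The Laplacian on polynomial functions is `Cas`

Proof.  For `Z : M3` put `D_Z = ∑_{ij} Z_ij Dd i j`.  For a symmetric matrix `S`
`d/ds p(exp(sZ) S exp(sZ)ᵀ) = (D_Z p)(exp(sZ) S exp(sZ)ᵀ)` (check on variables, product rule:
induction on `p`).  For `Z = (1/2) g (P k) g⁻¹`, `g exp(s P k) gᵀ = exp(sZ) (g gᵀ) exp(sZ)ᵀ`
(`P k` is symmetric), so that the second derivative at `0` is `(D_Z D_Z p)(g gᵀ)`.
Let `Q 0, Q 1, Q 2 = (E_ab - E_ba)/√2` be the orthonormal basis of `so(3)`.  For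
`W = g Q g⁻¹` the curve `exp(sW) g gᵀ exp(sW)ᵀ = g exp(sQ) exp(sQᵀ) gᵀ = g gᵀ` is constant, so
`(D_W D_W p)(g gᵀ) = 0`.  Hence
`4 (Δ p)(g gᵀ) = ∑_{B ∈ {P k} ∪ {Q k}} (D_{gBg⁻¹} D_{gBg⁻¹} p)(g gᵀ)`, and since
`∑_B B_ij B_kl = - δ_il δ_jk + (1/3) δ_ij δ_kl` (direct check) and therefore also
`∑_B (gBg⁻¹)_ij (gBg⁻¹)_kl = - δ_il δ_jk + (1/3) δ_ij δ_kl`, the right hand side is
`(-∑_{ij} Dd i j (Dd j i p) + (1/3) TT (TT p))(g gᵀ) = 4 (Cas p)(g gᵀ)`.
-/

set_option linter.all false

open Matrix Complex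
open scoped ContDiff

noncomputable section

namespace Pool.Agent.Iso79

attribute [local instance] Matrix.linftyOpNormedRing Matrix.linftyOpNormedAlgebra

theorem evM_X (S : M3) (a b : Fin 3) : evM S (MvPolynomial.X s(a, b)) = (S a b + S b a) / 2 :=
  evM_xv S a b

theorem entry_smooth (a b : Fin 3) : ContDiff ℝ ∞ (fun S : M3 => S a b) := by
  let L : M3 →ₗ[ℝ] ℂ :=
    { toFun := fun S => S a b
      map_add' := fun _ _ => rfl
      map_smul' := fun _ _ => rfl }
  exact (LinearMap.toContinuousLinearMap L).contDiff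

theorem smooth_evM (p : Pol) : ContDiff ℝ ∞ (fun S : M3 => evM S p) := by
  induction p using MvPolynomial.induction_on with
  | C c =>
    have : (fun S : M3 => evM S (MvPolynomial.C c)) = fun _ => c := by
      funext S
      exact MvPolynomial.aeval_C _ c
    rw [this]
    exact contDiff_const
  | add p q hp hq =>
    have : (fun S : M3 => evM S (p + q)) = fun S => evM S p + evM S q := by
      funext S
      exact map_add _ _ _
    rw [this]
    exact hp.add hq
  | mul_X p n hp =>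
    induction n using Sym2.inductionOn with
    | hf a b =>
      have : (fun S : M3 => evM S (p * MvPolynomial.X s(a, b))) =
          fun S => evM S p * ((S a b + S b a) / 2) := by
        funext S
        rw [map_mul, evM_X]
      rw [this]
      exact hp.mul (((entry_smooth a b).add (entry_smooth b a)).div_const 2)

/-- the derivation `D_Z = ∑ Z_ij Dd i j` -/
def DZ (Z : M3) : Derivation ℂ Pol Pol := ∑ i, ∑ j, Z i j • Dd i j

theorem DZ_apply (Z : M3) (p : Pol) : DZ Z p = ∑ i, ∑ j, Z i j • Dd i j p := by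
  unfold DZ
  simp only [Fin.sum_univ_three]
  rfl

theorem DZ_xv (Z : M3) (a b : Fin 3) :
    DZ Z (xv a b) = ∑ j, Z a j • xv j b + ∑ j, Z b j • xv a j := by
  rw [DZ_apply]
  simp only [Dd_xv, smul_add, Finset.sum_add_distrib, smul_ite, smul_zero]
  congr 1
  · rw [Finset.sum_comm]
    simp
  · rw [Finset.sum_comm]
    simp

theorem evM_DZ_xv (Z S : M3) (a b : Fin 3) :
    evM S (DZ Z (xv a b)) = ((Z * S + S * Zᵀ) a b + (Z * S + S * Zᵀ) b a) / 2 := by
  rw [DZ_xv]
  simp only [map_add, map_sum, map_smul, evM_xv, Matrix.add_apply, Matrix.mul_apply,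
    Matrix.transpose_apply, Fin.sum_univ_three, smul_eq_mul]
  ring

theorem hasDerivAt_entry {c : ℝ → M3} {c' : M3} {s : ℝ} (h : HasDerivAt c c' s) (a b : Fin 3) :
    HasDerivAt (fun s => c s a b) (c' a b) s := by
  let L : M3 →ₗ[ℝ] ℂ :=
    { toFun := fun S => S a b
      map_add' := fun _ _ => rfl
      map_smul' := fun _ _ => rfl }
  exact ((LinearMap.toContinuousLinearMap L).hasFDerivAt.comp_hasDerivAt s h)

theorem hasDerivAt_evM {c : ℝ → M3} {Z : M3} {s : ℝ} (h : HasDerivAt c (Z * c s + c s * Zᵀ) s)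
    (p : Pol) : HasDerivAt (fun s => evM (c s) p) (evM (c s) (DZ Z p)) s := by
  induction p using MvPolynomial.induction_on with
  | C a =>
    have : (fun s => evM (c s) (MvPolynomial.C a)) = fun _ => a := by
      funext S
      exact MvPolynomial.aeval_C _ a
    rw [this]
    have h0 : DZ Z (MvPolynomial.C a) = 0 := (DZ Z).map_algebraMap a
    rw [h0, map_zero]
    exact hasDerivAt_const _ _
  | add p q hp hq =>
    have : (fun s => evM (c s) (p + q)) = fun s => evM (c s) p + evM (c s) q := by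
      funext s
      exact map_add _ _ _
    rw [this, map_add, map_add]
    exact hp.add hq
  | mul_X p n hp =>
    induction n using Sym2.inductionOn with
    | hf a b =>
      have : (fun s => evM (c s) (p * MvPolynomial.X s(a, b))) =
          fun s => evM (c s) p * ((c s a b + c s b a) / 2) := by
        funext s
        rw [map_mul, evM_X]
      rw [this]
      have h1 : evM (c s) (DZ Z (p * MvPolynomial.X s(a, b))) =
          evM (c s) (DZ Z p) * ((c s a b + c s b a) / 2) + evM (c s) p *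
            (((Z * c s + c s * Zᵀ) a b + (Z * c s + c s * Zᵀ) b a) / 2) := by
        rw [(DZ Z).leibniz, map_add, smul_eq_mul, smul_eq_mul, map_mul, map_mul, evM_X]
        have := evM_DZ_xv Z (c s) a b
        unfold xv at this
        rw [this]
        ring
      rw [h1]
      exact hp.mul (((hasDerivAt_entry h a b).add (hasDerivAt_entry h b a)).div_const 2)

/-- a matrix which fixes `S` infinitesimally kills the polynomials at `S` -/
theorem evM_DZ_eq_zero {Z S : M3} (h : Z * S + S * Zᵀ = 0) (p : Pol) : evM S (DZ Z p) = 0 := by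
  have h1 : HasDerivAt (fun _ : ℝ => S) (Z * S + S * Zᵀ) 0 := by
    rw [h]
    exact hasDerivAt_const _ _
  exact (hasDerivAt_evM (c := fun _ => S) h1 p).unique (hasDerivAt_const _ _)

theorem hasDerivAt_exp (A : M3) (s : ℝ) :
    HasDerivAt (fun s : ℝ => NormedSpace.exp (s • A)) (A * NormedSpace.exp (s • A)) s := by
  exact hasDerivAt_exp_smul_const' A s

theorem exp_comm (A : M3) (s : ℝ) :
    A * NormedSpace.exp (s • A) = NormedSpace.exp (s • A) * A := by
  have : Commute A (s • A) := (Commute.refl A).smul_right s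
  exact (this.exp_right)

theorem second_deriv {g h A : M3} (hg : h * g = 1) (hA : Aᵀ = A) (p : Pol) :
    iteratedDeriv 2 (fun s : ℝ => evM (g * NormedSpace.exp (s • A) * gᵀ) p) 0 =
      evM (g * gᵀ) (DZ ((1 / 2 : ℂ) • (g * A * h)) (DZ ((1 / 2 : ℂ) • (g * A * h)) p)) := by
  set Z : M3 := (1 / 2 : ℂ) • (g * A * h) with hZ
  have hgt : gᵀ * hᵀ = 1 := by rw [← transpose_mul, hg, transpose_one]
  have h1 : ∀ s : ℝ, HasDerivAt (fun s : ℝ => g * NormedSpace.exp (s • A) * gᵀ)
      (Z * (g * NormedSpace.exp (s • A) * gᵀ) + (g * NormedSpace.exp (s • A) * gᵀ) * Zᵀ) s := by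
    intro s
    have h2 : HasDerivAt (fun s : ℝ => g * NormedSpace.exp (s • A) * gᵀ)
        (g * (A * NormedSpace.exp (s • A)) * gᵀ) s :=
      ((hasDerivAt_exp A s).const_mul g).mul_const gᵀ
    have h3 : Z * (g * NormedSpace.exp (s • A) * gᵀ) =
        (1 / 2 : ℂ) • (g * (A * NormedSpace.exp (s • A)) * gᵀ) := by
      rw [hZ, Matrix.smul_mul]
      congr 1
      calc g * A * h * (g * NormedSpace.exp (s • A) * gᵀ) =
          g * A * (h * g) * NormedSpace.exp (s • A) * gᵀ := by simp only [Matrix.mul_assoc]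
        _ = _ := by rw [hg, Matrix.mul_one]; simp only [Matrix.mul_assoc]
    have h4 : (g * NormedSpace.exp (s • A) * gᵀ) * Zᵀ =
        (1 / 2 : ℂ) • (g * (A * NormedSpace.exp (s • A)) * gᵀ) := by
      rw [hZ, transpose_smul, Matrix.mul_smul, transpose_mul, transpose_mul, hA]
      congr 1
      calc g * NormedSpace.exp (s • A) * gᵀ * (hᵀ * (A * gᵀ)) =
          g * NormedSpace.exp (s • A) * (gᵀ * hᵀ) * (A * gᵀ) := by simp only [Matrix.mul_assoc]
        _ = _ := by
          rw [hgt, Matrix.mul_one, exp_comm]; simp only [Matrix.mul_assoc]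
    have h5 : Z * (g * NormedSpace.exp (s • A) * gᵀ) + (g * NormedSpace.exp (s • A) * gᵀ) * Zᵀ =
        g * (A * NormedSpace.exp (s • A)) * gᵀ := by
      rw [h3, h4, ← add_smul]
      norm_num
    rw [h5]
    exact h2
  rw [iteratedDeriv_succ, iteratedDeriv_one]
  have h6 : deriv (fun s : ℝ => evM (g * NormedSpace.exp (s • A) * gᵀ) p) =
      fun s => evM (g * NormedSpace.exp (s • A) * gᵀ) (DZ Z p) := by
    funext s
    exact (hasDerivAt_evM (h1 s) p).deriv
  rw [h6]
  have h7 := (hasDerivAt_evM (h1 0) (DZ Z p)).deriv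
  rw [h7]
  simp

/-- an orthonormal basis of `so(3)` -/
def Qm : Fin 3 → M3 := ![
  (1 / (Real.sqrt 2 : ℂ)) • !![0, 1, 0; -1, 0, 0; 0, 0, 0],
  (1 / (Real.sqrt 2 : ℂ)) • !![0, 0, 1; 0, 0, 0; -1, 0, 0],
  (1 / (Real.sqrt 2 : ℂ)) • !![0, 0, 0; 0, 0, 1; 0, -1, 0]]

theorem lp_P_transpose (k : Fin 5) : (P k)ᵀ = P k := by
  fin_cases k <;> simp [P, transpose_smul] <;>
    (ext i j; fin_cases i <;> fin_cases j <;> simp)

theorem Qm_transpose (k : Fin 3) : (Qm k)ᵀ = -Qm k := by
  fin_cases k <;> simp [Qm, transpose_smul] <;>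
    (ext i j; fin_cases i <;> fin_cases j <;> simp)

theorem sq2 : (1 / (Real.sqrt 2 : ℂ)) * (1 / (Real.sqrt 2 : ℂ)) = 1 / 2 := by
  rw [← mul_div_mul_comm, ← ofReal_mul, Real.mul_self_sqrt (by norm_num)]
  norm_num

theorem sq6 : (1 / (Real.sqrt 6 : ℂ)) * (1 / (Real.sqrt 6 : ℂ)) = 1 / 6 := by
  rw [← mul_div_mul_comm, ← ofReal_mul, Real.mul_self_sqrt (by norm_num)]
  norm_num

theorem casimir_one (i j k l : Fin 3) :
    ∑ m, P m i j * P m k l + ∑ m, Qm m i j * Qm m k l =
      -(if i = l then (1 : ℂ) else 0) * (if j = k then (1 : ℂ) else 0) +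
        (1 / 3) * (if i = j then (1 : ℂ) else 0) * (if k = l then (1 : ℂ) else 0) := by
  have e2 : (1 / (Real.sqrt 2 : ℂ)) ^ 2 = 1 / 2 := by rw [pow_two]; exact sq2
  have e6 : (1 / (Real.sqrt 6 : ℂ)) ^ 2 = 1 / 6 := by rw [pow_two]; exact sq6
  set a : ℂ := 1 / (Real.sqrt 2 : ℂ) with ha
  set b : ℂ := 1 / (Real.sqrt 6 : ℂ) with hb
  have hP : P = ![(I * a) • !![1, 0, 0; 0, -1, 0; 0, 0, 0],
    (I * b) • !![1, 0, 0; 0, 1, 0; 0, 0, -2],
    (I * a) • !![0, 1, 0; 1, 0, 0; 0, 0, 0],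
    (I * a) • !![0, 0, 1; 0, 0, 0; 1, 0, 0],
    (I * a) • !![0, 0, 0; 0, 0, 1; 0, 1, 0]] := by
    unfold P
    rw [ha, hb]
    simp only [mul_one_div]
  rw [hP]
  simp only [Fin.sum_univ_succ, Qm, ← ha]
  fin_cases i <;> fin_cases j <;> fin_cases k <;> fin_cases l <;>
    simp <;> ring_nf <;> simp only [I_sq, e2, e6] <;> norm_num

theorem casimir_conj {g h : M3} (hg : g * h = 1) (i j k l : Fin 3) :
    ∑ m, (g * P m * h) i j * (g * P m * h) k l + ∑ m, (g * Qm m * h) i j * (g * Qm m * h) k l =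
      -(if i = l then (1 : ℂ) else 0) * (if j = k then (1 : ℂ) else 0) +
        (1 / 3) * (if i = j then (1 : ℂ) else 0) * (if k = l then (1 : ℂ) else 0) := by
  have e1 : ∀ (A : M3) (i j : Fin 3), (g * A * h) i j = ∑ a, ∑ b, g i a * h b j * A a b := by
    intro A i j
    simp only [Matrix.mul_apply, Finset.sum_mul]
    rw [Finset.sum_comm]
    refine Finset.sum_congr rfl fun a _ => Finset.sum_congr rfl fun b _ => by ring
  have e2 : ∀ (A : M3), (g * A * h) i j * (g * A * h) k l =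
      ∑ a, ∑ b, ∑ c, ∑ d, (g i a * h b j * g k c * h d l) * (A a b * A c d) := by
    intro A
    rw [e1, e1, Finset.sum_mul_sum]
    refine Finset.sum_congr rfl fun a _ => ?_
    simp only [Finset.sum_mul_sum]
    rw [Finset.sum_comm]
    refine Finset.sum_congr rfl fun b _ => Finset.sum_congr rfl fun c _ =>
      Finset.sum_congr rfl fun d _ => by ring
  have e3 : ∀ {ι : Type} [Fintype ι] (A : ι → M3), ∑ m, (g * A m * h) i j * (g * A m * h) k l =
      ∑ a, ∑ b, ∑ c, ∑ d, (g i a * h b j * g k c * h d l) * ∑ m, (A m a b * A m c d) := by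
    intro ι _ A
    simp only [e2]
    rw [Finset.sum_comm]
    refine Finset.sum_congr rfl fun a _ => ?_
    rw [Finset.sum_comm]
    refine Finset.sum_congr rfl fun b _ => ?_
    rw [Finset.sum_comm]
    refine Finset.sum_congr rfl fun c _ => ?_
    rw [Finset.sum_comm]
    refine Finset.sum_congr rfl fun d _ => ?_
    rw [Finset.mul_sum]
  rw [e3, e3]
  simp only [← Finset.sum_add_distrib, ← mul_add, casimir_one]
  have f1 : ∀ i l, ∑ a, g i a * h a l = if i = l then (1 : ℂ) else 0 := by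
    intro i l
    rw [← Matrix.mul_apply, hg, Matrix.one_apply]
  rw [← f1 i l, ← f1 i j, ← f1 k l]
  have f2 : (if j = k then (1 : ℂ) else 0) = ∑ a, g k a * h a j := by
    rw [f1]
    simp only [eq_comm]
  rw [f2]
  simp only [Fin.sum_univ_three, mul_add, add_mul]
  simp
  ring

theorem hasLap_ev (p : Pol) : HasLap (ev p) (ev (Cas p)) := by
  refine ⟨fun S => evM S p, smooth_evM p, fun S => rfl, fun g => ?_⟩
  set h : M3 := star g.1 with hh
  have hgh : g.1 * h = 1 := (Matrix.mem_unitaryGroup_iff).1 (Matrix.mem_specialUnitaryGroup_iff.1 g.2).1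
  have hhg : h * g.1 = 1 := mul_eq_one_comm.1 hgh
  have h1 : ∀ k, iteratedDeriv 2 (fun s : ℝ => evM (g.1 * NormedSpace.exp (s • P k) * g.1ᵀ) p) 0 =
      (1 / 4 : ℂ) * evM (g.1 * g.1ᵀ) (DZ (g.1 * P k * h) (DZ (g.1 * P k * h) p)) := by
    intro k
    rw [second_deriv hhg (lp_P_transpose k)]
    have e1 : ∀ (c : ℂ) (Z : M3) (q : Pol), DZ (c • Z) q = c • DZ Z q := by
      intro c Z q
      simp only [DZ_apply, Matrix.smul_apply, smul_eq_mul, mul_smul, Finset.smul_sum]
    rw [e1, e1, Derivation.map_smul, map_smul, map_smul, smul_smul, smul_eq_mul]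
    norm_num
  have h2 : ∀ k, evM (g.1 * g.1ᵀ) (DZ (g.1 * Qm k * h) (DZ (g.1 * Qm k * h) p)) = 0 := by
    intro k
    apply evM_DZ_eq_zero
    have e1 : g.1 * Qm k * h * (g.1 * g.1ᵀ) = g.1 * Qm k * g.1ᵀ := by
      calc g.1 * Qm k * h * (g.1 * g.1ᵀ) = g.1 * Qm k * (h * g.1) * g.1ᵀ := by
            simp only [Matrix.mul_assoc]
        _ = _ := by rw [hhg, Matrix.mul_one]
    have e2 : g.1 * g.1ᵀ * (g.1 * Qm k * h)ᵀ = -(g.1 * Qm k * g.1ᵀ) := by
      rw [transpose_mul, transpose_mul, Qm_transpose]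
      calc g.1 * g.1ᵀ * (hᵀ * (-Qm k * g.1ᵀ)) = g.1 * (g.1ᵀ * hᵀ) * (-Qm k * g.1ᵀ) := by
            simp only [Matrix.mul_assoc]
        _ = _ := by
          rw [← transpose_mul, hhg, transpose_one, Matrix.mul_one, Matrix.neg_mul,
            Matrix.mul_neg, Matrix.mul_assoc]
    rw [e1, e2, add_neg_cancel]
  simp only [h1]
  rw [← Finset.mul_sum]
  have h3 : ∑ k, evM (g.1 * g.1ᵀ) (DZ (g.1 * P k * h) (DZ (g.1 * P k * h) p)) =
      ∑ k, evM (g.1 * g.1ᵀ) (DZ (g.1 * P k * h) (DZ (g.1 * P k * h) p)) +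
      ∑ k, evM (g.1 * g.1ᵀ) (DZ (g.1 * Qm k * h) (DZ (g.1 * Qm k * h) p)) := by
    simp only [h2, Finset.sum_const_zero, add_zero]
  rw [h3]
  have h4 : ∀ Z : M3, evM (g.1 * g.1ᵀ) (DZ Z (DZ Z p)) =
      ∑ i, ∑ j, ∑ k, ∑ l, (Z i j * Z k l) * evM (g.1 * g.1ᵀ) (Dd i j (Dd k l p)) := by
    intro Z
    rw [DZ_apply]
    simp only [map_sum, map_smul, Derivation.map_smul, DZ_apply, smul_eq_mul, Finset.mul_sum, mul_assoc]
  simp only [h4]
  have h5 : ∀ {ι : Type} [Fintype ι] (A : ι → M3),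
      ∑ m, ∑ i, ∑ j, ∑ k, ∑ l, (A m i j * A m k l) * evM (g.1 * g.1ᵀ) (Dd i j (Dd k l p)) =
      ∑ i, ∑ j, ∑ k, ∑ l, (∑ m, A m i j * A m k l) * evM (g.1 * g.1ᵀ) (Dd i j (Dd k l p)) := by
    intro ι _ A
    rw [Finset.sum_comm]
    refine Finset.sum_congr rfl fun a _ => ?_
    rw [Finset.sum_comm]
    refine Finset.sum_congr rfl fun b _ => ?_
    rw [Finset.sum_comm]
    refine Finset.sum_congr rfl fun c _ => ?_
    rw [Finset.sum_comm]
    refine Finset.sum_congr rfl fun d _ => ?_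
    rw [Finset.sum_mul]
  rw [h5 (fun m => g.1 * P m * h), h5 (fun m => g.1 * Qm m * h)]
  simp only [← Finset.sum_add_distrib, ← add_mul, casimir_conj hgh]
  have h6 : ev (Cas p) (mk g) = evM (g.1 * g.1ᵀ) (Cas p) := rfl
  rw [h6]
  unfold Cas TT
  simp only [LinearMap.smul_apply, LinearMap.sub_apply, LinearMap.sum_apply, LinearMap.comp_apply,
    map_sub, map_smul, map_sum, Fin.sum_univ_three, Derivation.coeFn_coe, smul_eq_mul, map_add]
  simp
  ring

theorem Dd_detP (i j : Fin 3) : Dd i j detP = (if i = j then (2 : ℂ) else 0) • detP := by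
  have h01 : xv 1 0 = xv 0 1 := xv_symm _ _
  have h02 : xv 2 0 = xv 0 2 := xv_symm _ _
  have h12 : xv 2 1 = xv 1 2 := xv_symm _ _
  have h2 : ∀ q : Pol, (2 : ℂ) • q = 2 * q := fun q => by
    rw [two_smul, two_mul]
  have hD2 : Dd i j (2 : Pol) = 0 := by
    have := (Dd i j).map_natCast 2
    exact_mod_cast this
  unfold detP
  simp only [map_sub, map_add, Derivation.leibniz, Derivation.leibniz_pow, Dd_xv, hD2, smul_eq_mul]
  fin_cases i <;> fin_cases j <;> simp [h01, h02, h12, h2] <;> ring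

theorem lp_TT_apply (q : Pol) : TT q = Dd 0 0 q + Dd 1 1 q + Dd 2 2 q := by
  unfold TT
  rw [Fin.sum_univ_three]
  rfl

theorem Cas_detP_mul {d : ℕ} {p : Pol} (hp : p.IsHomogeneous d) :
    Cas (detP * p) = detP * Cas p := by
  have h1 : ∀ i j q, Dd i j (detP * q) = (if i = j then (2 : ℂ) else 0) • (detP * q) +
      detP * Dd i j q := by
    intro i j q
    rw [(Dd i j).leibniz, Dd_detP, smul_eq_mul, smul_eq_mul, mul_smul_comm, mul_comm q detP,
      add_comm]
  have h2 : ∀ i j, Dd i j (Dd j i (detP * p)) = (if i = j then (4 : ℂ) else 0) • (detP * p) +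
      (if i = j then (4 : ℂ) else 0) • (detP * Dd i j p) + detP * Dd i j (Dd j i p) := by
    intro i j
    rw [h1 j i, map_add, Derivation.map_smul, h1, h1]
    by_cases h : i = j
    · subst h
      simp only [if_true, smul_add, smul_smul]
      module
    · rw [if_neg h, if_neg h, if_neg (fun e => h e.symm)]
      simp
  have h5 : ∀ q, TT (detP * q) = (6 : ℂ) • (detP * q) + detP * TT q := by
    intro q
    simp only [lp_TT_apply, h1, if_true]
    rw [mul_add, mul_add]
    module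
  have h4 : TT (TT (detP * p)) = (36 : ℂ) • (detP * p) + (12 : ℂ) • (detP * TT p) +
      detP * TT (TT p) := by
    rw [h5, map_add, map_smul, h5, h5]
    module
  have h6 : ∀ q, Cas q = -(1 / 4 : ℂ) • ((∑ i, ∑ j, Dd i j (Dd j i q)) -
      (1 / 3 : ℂ) • TT (TT q)) := by
    intro q
    unfold Cas
    simp only [LinearMap.smul_apply, LinearMap.sub_apply, LinearMap.sum_apply,
      LinearMap.comp_apply, Derivation.coeFn_coe]
  have h7 : ∑ i, ∑ j, Dd i j (Dd j i (detP * p)) = (12 : ℂ) • (detP * p) +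
      (4 : ℂ) • (detP * TT p) + detP * ∑ i, ∑ j, Dd i j (Dd j i p) := by
    simp only [h2, Finset.sum_add_distrib]
    have e0 : ∀ y : Fin 3 → Pol, ∀ i, ∑ j : Fin 3, (if i = j then (4 : ℂ) else 0) • y j =
        (4 : ℂ) • y i := by
      intro y i
      simp [ite_smul]
    have e1 : ∑ i : Fin 3, ∑ j : Fin 3, (if i = j then (4 : ℂ) else 0) • (detP * p) =
        (12 : ℂ) • (detP * p) := by
      simp only [e0 (fun _ => detP * p)]
      rw [Fin.sum_univ_three]
      module
    have e2 : ∑ i : Fin 3, ∑ j : Fin 3, (if i = j then (4 : ℂ) else 0) • (detP * Dd i j p) =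
        (4 : ℂ) • (detP * TT p) := by
      rw [lp_TT_apply]
      simp [Fin.sum_univ_three, mul_add, smul_add]
    rw [e1, e2]
    congr 1
    simp only [Finset.mul_sum]
  rw [h6, h6, h7, h4, mul_smul_comm, mul_sub, mul_smul_comm]
  module

end Pool.Agent.Iso79
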