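import Pool.Agent.Iso79.Haar
import Pool.Agent.Iso79.LapPoly

/-!
# The Laplacian is symmetric

Proof.  Let `F, H` be the pull-backs to `SU(3)` (`F g = f (mk g)`), `e_s = eP k (s/2)`.  By right
invariance `∫ conj(F(g e_s)) H(g) dg = ∫ conj(F(g)) H(g e_{-s}) dg` for every `s`; differentiate
twice under the integral sign (the integrands are jointly smooth and `SU(3)` is compact).
-/

open Matrix Complex MeasureTheory
open scoped ContDiff

noncomputable section

namespace Pool.Agent.Iso79

attribute [local instance] Matrix.linftyOpNormedRing Matrix.linftyOpNormedAlgebra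

/-- the function `F (g exp (s P k) gᵀ)` of `(g, s)` -/
def pullB (F : M3 → ℂ) (k : Fin 5) (x : M3 × ℝ) : ℂ :=
  F (x.1 * NormedSpace.exp (x.2 • P k) * x.1ᵀ)

theorem transpose_contDiff : ContDiff ℝ ∞ (fun X : M3 => Xᵀ) := by
  have h1 : (fun X : M3 => Xᵀ) =
      fun X => (LinearMap.toContinuousLinearMap
        (Matrix.transposeLinearEquiv (Fin 3) (Fin 3) ℝ ℂ : M3 ≃ₗ[ℝ] M3).toLinearMap) X := by
    funext X; rfl
  rw [h1]
  exact ContinuousLinearMap.contDiff _

theorem pullB_contDiff {F : M3 → ℂ} (hF : ContDiff ℝ ∞ F) (k : Fin 5) :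
    ContDiff ℝ ∞ (pullB F k) := by
  have h1 : ContDiff ℝ ∞ (fun X : M3 => NormedSpace.exp X) :=
    contDiff_iff_contDiffAt.2 fun X => (NormedSpace.exp_analytic (𝕂 := ℝ) X).contDiffAt
  have h2 : ContDiff ℝ ∞ (fun x : M3 × ℝ => x.2 • P k) := contDiff_snd.smul contDiff_const
  have h3 : ContDiff ℝ ∞ (fun x : M3 × ℝ => x.1ᵀ) := transpose_contDiff.comp contDiff_fst
  exact hF.comp ((contDiff_fst.mul (h1.comp h2)).mul h3)

/-- the derivative in the second variable -/
def dS (G : M3 × ℝ → ℂ) (x : M3 × ℝ) : ℂ := deriv (fun t : ℝ => G (x.1, t)) x.2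

theorem dS_contDiff {G : M3 × ℝ → ℂ} (hG : ContDiff ℝ ∞ G) : ContDiff ℝ ∞ (dS G) := by
  have h1 : ContDiff ℝ ∞ (Function.uncurry fun (x : M3 × ℝ) (t : ℝ) => G (x.1, t)) := by
    have h2 : (Function.uncurry fun (x : M3 × ℝ) (t : ℝ) => G (x.1, t)) =
      G ∘ fun y : (M3 × ℝ) × ℝ => (y.1.1, y.2) := rfl
    rw [h2]
    exact hG.comp ((contDiff_fst.comp contDiff_fst).prodMk contDiff_snd)
  have h3 := ContDiff.fderiv (𝕜 := ℝ) (n := ∞) (m := ∞) h1
    (contDiff_snd (𝕜 := ℝ) (E := M3) (F := ℝ)) (by simp)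
  have h4 : dS G = fun x => fderiv ℝ ((fun (x : M3 × ℝ) (t : ℝ) => G (x.1, t)) x) x.2 1 := by
    funext x
    rfl
  rw [h4]
  exact h3.clm_apply contDiff_const

theorem dS_hasDerivAt {G : M3 × ℝ → ℂ} (hG : ContDiff ℝ ∞ G) (g : M3) (s : ℝ) :
    HasDerivAt (fun t : ℝ => G (g, t)) (dS G (g, s)) s := by
  have h1 : ContDiff ℝ ∞ (fun t : ℝ => G (g, t)) :=
    hG.comp (contDiff_const.prodMk contDiff_id)
  exact (h1.differentiable (by simp) s).hasDerivAt

theorem iteratedDeriv_two_eq {G : M3 × ℝ → ℂ} (hG : ContDiff ℝ ∞ G) (g : M3) (s : ℝ) :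
    iteratedDeriv 2 (fun t : ℝ => G (g, t)) s = dS (dS G) (g, s) := by
  rw [iteratedDeriv_succ, iteratedDeriv_one]
  have h1 : deriv (fun t : ℝ => G (g, t)) = fun t => dS G (g, t) :=
    funext fun t => (dS_hasDerivAt hG g t).deriv
  rw [h1]
  rfl

theorem HasLap.continuous_right {f h : XX → ℂ} (H : HasLap f h) :
    Continuous fun g : SU3 => h (mk g) := by
  obtain ⟨F, hF, h1, h2⟩ := H
  have h3 : (fun g : SU3 => h (mk g)) = fun g => ∑ k, dS (dS (pullB F k)) (g.1, 0) := by
    funext g
    rw [h2]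
    refine Finset.sum_congr rfl fun k _ => ?_
    exact iteratedDeriv_two_eq (pullB_contDiff hF k) g.1 0
  rw [h3]
  refine continuous_finsetSum _ fun k _ => ?_
  exact (dS_contDiff (dS_contDiff (pullB_contDiff hF k))).continuous.comp
    (continuous_subtype_val.prodMk continuous_const)

theorem integrable_cont {a : SU3 → ℂ} (ha : Continuous a) : Integrable a hm :=
  ha.integrable_of_hasCompactSupport (HasCompactSupport.of_compactSpace a)

/-- differentiation under the integral sign -/
theorem deriv_integral {G : SU3 × ℝ → ℂ} {G' : SU3 × ℝ → ℂ} (hG : Continuous G)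
    (hG' : Continuous G') (hd : ∀ g s, HasDerivAt (fun t => G (g, t)) (G' (g, s)) s) (s : ℝ) :
    HasDerivAt (fun t => ∫ g, G (g, t) ∂hm) (∫ g, G' (g, s) ∂hm) s := by
  have hc : IsCompact (Set.univ ×ˢ Metric.closedBall s 1 : Set (SU3 × ℝ)) :=
    isCompact_univ.prod (isCompact_closedBall s 1)
  obtain ⟨C, hC⟩ := hc.exists_bound_of_continuousOn hG'.continuousOn
  refine (hasDerivAt_integral_of_dominated_loc_of_deriv_le (μ := hm)
    (F := fun t g => G (g, t)) (F' := fun t g => G' (g, t)) (bound := fun _ => C)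
    (Metric.ball_mem_nhds s one_pos) ?_ ?_ ?_ ?_ ?_ ?_).2
  · exact Filter.Eventually.of_forall fun t =>
      (hG.comp (continuous_id.prodMk continuous_const)).aestronglyMeasurable
  · exact integrable_cont (hG.comp (continuous_id.prodMk continuous_const))
  · exact (hG'.comp (continuous_id.prodMk continuous_const)).aestronglyMeasurable
  · exact Filter.Eventually.of_forall fun g t ht =>
      hC (g, t) ⟨Set.mem_univ _, Metric.ball_subset_closedBall ht⟩
  · exact integrable_const _
  · exact Filter.Eventually.of_forall fun g t _ => hd g t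

theorem pullB_eq {F : M3 → ℂ} {f : XX → ℂ} (h1 : ∀ S : XX, F S.1 = f S) (k : Fin 5) (g : SU3)
    (s : ℝ) : pullB F k (g.1, s) = f (mk (g * eP k (s / 2))) := by
  unfold pullB
  rw [← h1, ← curve_eq]

theorem symm_step {F H : M3 → ℂ} {f h : XX → ℂ} (hF : ContDiff ℝ ∞ F) (hH : ContDiff ℝ ∞ H)
    (h1 : ∀ S : XX, F S.1 = f S) (h2 : ∀ S : XX, H S.1 = h S) (k : Fin 5) :
    ∫ g : SU3, starRingEnd ℂ (dS (dS (pullB F k)) (g.1, 0)) * h (mk g) ∂hm =
      ∫ g : SU3, starRingEnd ℂ (f (mk g)) * dS (dS (pullB H k)) (g.1, 0) ∂hm := by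
  have hf : Continuous fun g : SU3 => f (mk g) :=
    (Smooth.continuous ⟨F, hF, h1⟩).comp continuous_mk
  have hh : Continuous fun g : SU3 => h (mk g) :=
    (Smooth.continuous ⟨H, hH, h2⟩).comp continuous_mk
  have cF := pullB_contDiff hF k
  have cH := pullB_contDiff hH k
  have val : Continuous fun x : SU3 × ℝ => ((x.1.1, x.2) : M3 × ℝ) :=
    (continuous_subtype_val.comp continuous_fst).prodMk continuous_snd
  have valn : Continuous fun x : SU3 × ℝ => ((x.1.1, -x.2) : M3 × ℝ) :=
    (continuous_subtype_val.comp continuous_fst).prodMk continuous_snd.neg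
  have hh' : Continuous fun x : SU3 × ℝ => h (mk x.1) := hh.comp continuous_fst
  have hf' : Continuous fun x : SU3 × ℝ => f (mk x.1) := hf.comp continuous_fst
  -- left side
  have L1 : ∀ s, HasDerivAt (fun t => ∫ g : SU3, star (pullB F k (g.1, t)) * h (mk g) ∂hm)
      (∫ g : SU3, star (dS (pullB F k) (g.1, s)) * h (mk g) ∂hm) s := fun s =>
    deriv_integral (G := fun x => star (pullB F k (x.1.1, x.2)) * h (mk x.1))
      (G' := fun x => star (dS (pullB F k) (x.1.1, x.2)) * h (mk x.1))
      ((continuous_star.comp (cF.continuous.comp val)).mul hh')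
      ((continuous_star.comp ((dS_contDiff cF).continuous.comp val)).mul hh')
      (fun g s => (dS_hasDerivAt cF g.1 s).star.mul_const (h (mk g))) s
  have L2 : ∀ s, HasDerivAt (fun t => ∫ g : SU3, star (dS (pullB F k) (g.1, t)) * h (mk g) ∂hm)
      (∫ g : SU3, star (dS (dS (pullB F k)) (g.1, s)) * h (mk g) ∂hm) s := fun s =>
    deriv_integral (G := fun x => star (dS (pullB F k) (x.1.1, x.2)) * h (mk x.1))
      (G' := fun x => star (dS (dS (pullB F k)) (x.1.1, x.2)) * h (mk x.1))
      ((continuous_star.comp ((dS_contDiff cF).continuous.comp val)).mul hh')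
      ((continuous_star.comp ((dS_contDiff (dS_contDiff cF)).continuous.comp val)).mul hh')
      (fun g s => (dS_hasDerivAt (dS_contDiff cF) g.1 s).star.mul_const (h (mk g))) s
  -- right side
  have R1 : ∀ s, HasDerivAt (fun t => ∫ g : SU3, star (f (mk g)) * pullB H k (g.1, -t) ∂hm)
      (∫ g : SU3, star (f (mk g)) * (-dS (pullB H k) (g.1, -s)) ∂hm) s := fun s =>
    deriv_integral (G := fun x => star (f (mk x.1)) * pullB H k (x.1.1, -x.2))
      (G' := fun x => star (f (mk x.1)) * (-dS (pullB H k) (x.1.1, -x.2)))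
      ((continuous_star.comp hf').mul (cH.continuous.comp valn))
      ((continuous_star.comp hf').mul ((dS_contDiff cH).continuous.comp valn).neg)
      (fun g s => by
        have h5 := (dS_hasDerivAt cH g.1 (-s)).scomp s (hasDerivAt_neg s)
        rw [neg_one_smul] at h5
        exact h5.const_mul (star (f (mk g)))) s
  have R2 : ∀ s, HasDerivAt (fun t => ∫ g : SU3, star (f (mk g)) *
      (-dS (pullB H k) (g.1, -t)) ∂hm)
      (∫ g : SU3, star (f (mk g)) * (dS (dS (pullB H k)) (g.1, -s)) ∂hm) s := fun s =>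
    deriv_integral (G := fun x => star (f (mk x.1)) * (-dS (pullB H k) (x.1.1, -x.2)))
      (G' := fun x => star (f (mk x.1)) * (dS (dS (pullB H k)) (x.1.1, -x.2)))
      ((continuous_star.comp hf').mul ((dS_contDiff cH).continuous.comp valn).neg)
      ((continuous_star.comp hf').mul ((dS_contDiff (dS_contDiff cH)).continuous.comp valn))
      (fun g s => by
        have h5 := ((dS_hasDerivAt (dS_contDiff cH) g.1 (-s)).scomp s (hasDerivAt_neg s)).neg
        rw [neg_one_smul, neg_neg] at h5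
        exact h5.const_mul (star (f (mk g)))) s
  have E : (fun t : ℝ => ∫ g : SU3, star (pullB F k (g.1, t)) * h (mk g) ∂hm) =
      fun t => ∫ g : SU3, star (f (mk g)) * pullB H k (g.1, -t) ∂hm := by
    funext t
    have h5 : Continuous fun g : SU3 => star (f (mk g)) * pullB H k (g.1, -t) :=
      (continuous_star.comp hf).mul (cH.continuous.comp
        (continuous_subtype_val.prodMk continuous_const))
    rw [← hm_right (eP k (t / 2)) _ h5]
    refine integral_congr_ae (Filter.Eventually.of_forall fun g => ?_)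
    change star (pullB F k (g.1, t)) * h (mk g) = star (f (mk (g * eP k (t / 2)))) *
      pullB H k ((g * eP k (t / 2)).1, -t)
    rw [pullB_eq h1, pullB_eq h2, mul_assoc g, ← eP_add]
    have h6 : t / 2 + -t / 2 = 0 := by ring
    have h7 : eP k 0 = 1 := by
      apply Subtype.ext
      change NormedSpace.exp ((0 : ℝ) • P k) = (1 : M3)
      rw [zero_smul, NormedSpace.exp_zero]
    rw [h6, h7, mul_one]
  have E1 : (fun t : ℝ => ∫ g : SU3, star (dS (pullB F k) (g.1, t)) * h (mk g) ∂hm) =
      fun t => ∫ g : SU3, star (f (mk g)) * (-dS (pullB H k) (g.1, -t)) ∂hm := by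
    funext t
    have h5 := L1 t
    rw [E] at h5
    exact h5.unique (R1 t)
  have E2 := L2 0
  rw [E1] at E2
  have E3 := E2.unique (R2 0)
  rw [neg_zero] at E3
  exact E3

theorem ip_lap_symm {f f' h h' : XX → ℂ} (H : HasLap f f') (H' : HasLap h h') :
    ip f' h = ip f h' := by
  obtain ⟨F, hF, h1, h2⟩ := H
  obtain ⟨K, hK, k1, k2⟩ := H'
  have hf : Continuous fun g : SU3 => f (mk g) :=
    (Smooth.continuous ⟨F, hF, h1⟩).comp continuous_mk
  have hh : Continuous fun g : SU3 => h (mk g) :=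
    (Smooth.continuous ⟨K, hK, k1⟩).comp continuous_mk
  have a1 : ∀ g : SU3, f' (mk g) = ∑ k, dS (dS (pullB F k)) (g.1, 0) := by
    intro g
    rw [h2]
    refine Finset.sum_congr rfl fun k _ => ?_
    exact iteratedDeriv_two_eq (pullB_contDiff hF k) g.1 0
  have a2 : ∀ g : SU3, h' (mk g) = ∑ k, dS (dS (pullB K k)) (g.1, 0) := by
    intro g
    rw [k2]
    refine Finset.sum_congr rfl fun k _ => ?_
    exact iteratedDeriv_two_eq (pullB_contDiff hK k) g.1 0
  have c1 : ∀ (G : M3 → ℂ), ContDiff ℝ ∞ G → ∀ k : Fin 5,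
      Continuous fun g : SU3 => dS (dS (pullB G k)) (g.1, 0) := fun G hG k =>
    (dS_contDiff (dS_contDiff (pullB_contDiff hG k))).continuous.comp
      (continuous_subtype_val.prodMk continuous_const)
  unfold ip
  have b1 : (fun g : SU3 => starRingEnd ℂ (f' (mk g)) * h (mk g)) =
      fun g => ∑ k, starRingEnd ℂ (dS (dS (pullB F k)) (g.1, 0)) * h (mk g) := by
    funext g
    rw [a1, map_sum, Finset.sum_mul]
  have b2 : (fun g : SU3 => starRingEnd ℂ (f (mk g)) * h' (mk g)) =
      fun g => ∑ k, starRingEnd ℂ (f (mk g)) * dS (dS (pullB K k)) (g.1, 0) := by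
    funext g
    rw [a2, Finset.mul_sum]
  rw [b1, b2, integral_finsetSum, integral_finsetSum]
  · exact Finset.sum_congr rfl fun k _ => symm_step hF hK h1 k1 k
  · exact fun k _ => integrable_cont ((continuous_conj.comp hf).mul (c1 K hK k))
  · exact fun k _ => integrable_cont ((continuous_conj.comp (c1 F hF k)).mul hh)

end Pool.Agent.Iso79
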