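import Pool.Agent.Iso79.LatRed

/-!
# The lattice theorem for `q ≥ 29`

Notation: `A = Nf a`, `B = Nf b`, `C = Bf a b` for the reduced basis `(a, b)` of `Λ_v`
(`0 ≤ C ≤ A ≤ B`, `4AB - C² = 3q²`), `A', B', C'` for the reduced basis `(a', b')` of `Λ_w`.
From `4A·A ≤ 4AB = 3q² + C² ≤ 3q² + A²` one gets `A² ≤ q²`, `A ≤ q`, and `16 A < q²` as `q ≥ 29`.
`Nf (m a + n b) = A m² + C m n + B n²`.

`A_eq`: `A = A'`.  Let `A ≤ A'`, `k = A`.  If `A < A'` there is no vector of `Λ_w` with `Nf = k`, all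
vectors of `Λ_v` with `Nf = A` are primitive (`Nf < 4A`), hence not even (`RB.mt`), and `detect`
gives `a ∈ Λ_w`, a contradiction.  (`detect` is applied to `v, w` or `w, v`.)

**Case A = B, C = A** (hexagonal; `3A² = 3q²`, `A = q`).  The vectors with `Nf = A` are
`± a, ± b, ± (a-b)` and they are all in the orbit of `a` (`b` is the image of `a` under a rotation by
`± 60°`: `b = - cyc a` or `- cyc² a`).  `Λ_w`: `A' = q`, `4 A'B' - C'² = 3q²` and `C' ≤ A' ≤ B'` force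
`B' = C' = A'`.  If `a ∈ Λ_w` or `a' ∈ Λ_v` we are done below; in general: either some vector with
`Nf = A` is common, or the two sets are disjoint, all have the same `Bt` (or are walls) in each
lattice, and `SL`, `wall_transfer`, `Bt_orbit`, `wall_orbit` give `Orb a a'`.  After replacing `v`
by a permutation (`inLat_pm`, `equiv3_pm`), `a' ∈ Λ_v`, and `Λ_v = Λ_w` is generated by the rotations of `a'`
(the reduced basis of `Λ_v` consists of vectors in the orbit, i.e. rotations of `a'` by multiples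
of `60°`, or reflections; better: `Λ_v ∋ a'`, `Λ_v` hexagonal with `A = q` means that `Λ_v` is stable
under the rotation by `60°`, so it contains the rotations of `a'`).

**Case A = B, C < A** (rhombic).  `C > 0`, as `C = 0` gives `4A² = 3q²`, impossible.
First `B' = A`: suppose `B' > A`.  `c = a - b` has `Nf c = 2A - C ∈ (A, 2A)`.  If `Nf c < B'`: `detect`
with `k = Nf c` (`Λ_w` has no vector with this `Nf`: `A < k < B'`, `k < 4A`) gives `c ∈ Λ_w`,
contradiction.  If `B' < Nf c`: `detect` (`w, v`) with `k = B'` gives `b' ∈ Λ_v`, contradiction (the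
values of `A m² + C m n + A n²` in `(A, 2A)` are `2A - C` only).  So `B' = 2A - C` and
`4A(2A-C) - C'² = 4A² - C²`, i.e. `(2A - C)² = C'²`, `C' = 2A - C > A`: contradiction.
So `A = B = B'`, `C = C'`.  Now `Nf c = Nf c' = 2A - C =: k`; `4A² - C² = 3q²` gives
`(2A - C)² < 3q²`, so `16 k < q²` for `q ≥ 28`.  The vectors of `Λ_v` with `Nf = k` are `± c`,
those of `Λ_w` are `± c'`.  If `c = ± c'` fine, else `identify` gives `Orb c c'`, and `inLat_pm` etc.
reduce to the case `c' = c` (after renaming; note that then the reduced basis of the new `Λ_v` has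
the same `A, B, C`).  Then `2a - c` and `2a' - c` are both orthogonal to `c` (`Bf c c = 2k`,
`Bf a c = 2A - C = k`) and have the same norm, so `2a' - c = ± (2a - c)`, `a' = a` or
`a' = c - a = -b`, and `Λ_w ⊆ Λ_v`: `inLat q v1 v2 w1 w2`.

**Case A < B.**  First `A < B'` (otherwise exchange the roles and use the previous cases).  So `± a`
(`± a'`) are the only vectors with `Nf = A`; if `a' ≠ ± a`, `identify` gives `Orb a a'`; with
`inLat_pm` etc. we may assume `a' = a`.  If `a` is primitive at all primes dividing `q`: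
`eq_of_primitive`.  Otherwise `A ≥ 27` (`Nf_ge_of_not_primitive`), and
`4AB = 3q² + C² ≤ 3q² + A²` with `27 ≤ A ≤ q` gives `16 B < q²` for `q ≥ 27`
(`B ≤ max(3q²/108 + 27/4, q)`; convexity; e.g. `(A - 27)(A - q) ≤ 0` bounds `A² + …`).
`B = B'`: if `B < B'` apply `detect` with `k = B`: the vectors of `Λ_w` with `Nf = B` are multiples of
`a`, so they are in `Λ_v`; the vectors of `Λ_v` with `Nf = B` outside `ℤ a` are `± b` (and `± (a-b)` if
`C = A`), primitive; conclusion `b ∈ Λ_w`, contradiction.  So `B = B'`, `C = C'`.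
If `C = 0`: `b, b' ⊥ a`, same norm: `b' = ± b`.  If `C = A`: `2b - a, 2b' - a ⊥ a`, same norm:
`b' = b` or `b' = a - b`.  If `0 < C < A`: `b' = b` (done) or `b' = R b`, `R` the reflection in the
line of `a` (`Bf a b' = Bf a b`, `Nf b' = Nf b`; i.e. `b + b' = (C/A) a`).  In the latter case the
vectors of `Λ_v` with `Nf = B` outside `ℤ a` are `± b` (`A m² + C m n + B n² = B` with `n ≠ 0` forces
`n = ± 1`, `m = 0`), those of `Λ_w` are `± b'`; `identify`: `Orb b b'`, so `b' = g b` with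
`g = ±` a permutation.  `Bf b b' = C²/A - 2B` (times 1), so `-2B < Bf b b' < -B` (as
`C² < A² < AB`), so `g` is not a rotation by a multiple of `60°` (these give `Bf b b' ∈
{2B, B, -B, -2B}`), so `g` is a reflection, and as it maps `b` to `b' ≠ ± b`, it is the reflection `R`
(it fixes `b + b'`, a multiple of `a`); so `g a = a`, `Λ_w = g Λ_v`; by `inLat_pm` the
permuted lattice contains `g a = a` and `g b = b'`, hence `w`.
-/

open Complex

noncomputable section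

namespace Pool.Agent.Iso79

theorem SameWalls.symm {q : ℕ} {v1 v2 w1 w2 : ℤ} (h : SameWalls q v1 v2 w1 w2) :
    SameWalls q w1 w2 v1 v2 := fun e h1 h2 => (h e h1 h2).symm

theorem A_le {q : ℕ} {v1 v2 a1 a2 b1 b2 : ℤ} (h : RB q v1 v2 a1 a2 b1 b2) :
    Nf a1 a2 ≤ q := by
  have hG := Gram_det a1 a2 b1 b2
  rw [h.det] at hG
  have h1 := h.C0
  have h2 := h.C1
  have h3 := h.AB
  have h4 := h.A0
  have h5 : Bf a1 a2 b1 b2 ^ 2 ≤ Nf a1 a2 ^ 2 := pow_le_pow_left₀ h1 h2 2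
  have h6 : Nf a1 a2 ^ 2 ≤ Nf a1 a2 * Nf b1 b2 := by nlinarith
  have h7 : Nf a1 a2 ^ 2 ≤ (q : ℤ) ^ 2 := by nlinarith
  exact le_of_sq_le_sq₀' h7
where
  le_of_sq_le_sq₀' {a : ℤ} {q : ℕ} (h : a ^ 2 ≤ (q : ℤ) ^ 2) : a ≤ q :=
    le_of_abs_le (by
      have := sq_le_sq.1 h
      rwa [abs_of_nonneg (Int.natCast_nonneg q)] at this)

/-- values of the form outside `ℤ a` are at least `Nf b` -/
theorem RB.le_of_not_mul {q : ℕ} {v1 v2 a1 a2 b1 b2 : ℤ} (h : RB q v1 v2 a1 a2 b1 b2) {m n : ℤ}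
    (hn : n ≠ 0) : Nf b1 b2 ≤ m ^ 2 * Nf a1 a2 + m * n * Bf a1 a2 b1 b2 + n ^ 2 * Nf b1 b2 := by
  have h1 := h.C0
  have h2 := h.C1
  have h3 := h.AB
  have h4 := h.A0
  generalize Nf a1 a2 = A at *
  generalize Nf b1 b2 = B at *
  generalize Bf a1 a2 b1 b2 = C at *
  have h5 : -(|m * n| * A) ≤ m * n * C := by
    have e1 : |m * n * C| ≤ |m * n| * A := by
      rw [abs_mul, abs_of_nonneg h1]
      exact mul_le_mul_of_nonneg_left h2 (abs_nonneg _)
    exact (abs_le.1 e1).1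
  have h6 : 1 ≤ m ^ 2 - |m * n| + n ^ 2 := by
    have e1 : |m * n| = |m| * |n| := abs_mul m n
    have e2 : m ^ 2 = |m| ^ 2 := (sq_abs m).symm
    have e3 : n ^ 2 = |n| ^ 2 := (sq_abs n).symm
    have e4 : 1 ≤ |n| := Int.one_le_abs hn
    rw [e1, e2, e3]
    by_contra hcon
    have h0 : |m| ^ 2 - |m| * |n| + |n| ^ 2 ≤ 0 := by omega
    nlinarith [sq_nonneg (2 * |m| - |n|), sq_nonneg (|n|)]
  have h7 : 1 ≤ n ^ 2 := by
    have := sq_pos_of_ne_zero hn
    omega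
  have h8 : A * 1 ≤ A * (m ^ 2 - |m * n| + n ^ 2) := mul_le_mul_of_nonneg_left h6 h4.le
  have h9 : (B - A) * 1 ≤ (B - A) * n ^ 2 := mul_le_mul_of_nonneg_left h7 (by linarith)
  nlinarith

/-- `a` is a shortest vector -/
theorem RB.min {q : ℕ} {v1 v2 a1 a2 b1 b2 : ℤ} (h : RB q v1 v2 a1 a2 b1 b2) {y1 y2 : ℤ}
    (hy : inLat q v1 v2 y1 y2) (h0 : Nf y1 y2 ≠ 0) : Nf a1 a2 ≤ Nf y1 y2 := by
  obtain ⟨m, n, e1, e2⟩ := h.span y1 y2 hy
  have e3 : Nf y1 y2 = m ^ 2 * Nf a1 a2 + m * n * Bf a1 a2 b1 b2 + n ^ 2 * Nf b1 b2 := by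
    rw [e1, e2, Nf_comb]
  by_cases hn : n = 0
  · subst hn
    have hm : m ≠ 0 := by
      rintro rfl
      apply h0
      rw [e3]; ring
    have hm2 : 1 ≤ m ^ 2 := by
      have := sq_pos_of_ne_zero hm
      omega
    have hA := h.A0
    rw [e3]
    nlinarith
  · rw [e3]
    exact h.AB.trans (h.le_of_not_mul hn)

/-- vectors with `Nf < 4 Nf a` are not even -/
theorem RB.mt_of_lt {q : ℕ} {v1 v2 a1 a2 b1 b2 : ℤ} (hA : Adm q v1 v2)
    (h : RB q v1 v2 a1 a2 b1 b2) {y1 y2 : ℤ} (hy : inLat q v1 v2 y1 y2) (h0 : Nf y1 y2 ≠ 0)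
    (h4 : Nf y1 y2 < 4 * Nf a1 a2) : MT y1 y2 := by
  obtain ⟨m, n, e1, e2⟩ := h.span y1 y2 hy
  rw [e1, e2]
  refine RB.mt hA h ?_
  rintro ⟨⟨m', hm⟩, ⟨n', hn⟩⟩
  have hz : inLat q v1 v2 (m' * a1 + n' * b1) (m' * a2 + n' * b2) :=
    inLat_add (inLat_smul m' h.ha) (inLat_smul n' h.hb)
  have e3 : Nf y1 y2 = 4 * Nf (m' * a1 + n' * b1) (m' * a2 + n' * b2) := by
    rw [e1, e2, hm, hn]; unfold Nf; ring
  have h5 : Nf (m' * a1 + n' * b1) (m' * a2 + n' * b2) ≠ 0 := by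
    intro h6; apply h0; rw [e3, h6]; norm_num
  have := h.min hz h5
  omega

theorem A_eq_aux {q : ℕ} (hq : 29 ≤ q) {v1 v2 w1 w2 a1 a2 b1 b2 c1 c2 d1 d2 : ℤ}
    (hA : Adm q v1 v2) (hA' : Adm q w1 w2) (hS : SameWalls q v1 v2 w1 w2)
    (hSL : ∀ k, SL q v1 v2 k = SL q w1 w2 k)
    (h : RB q v1 v2 a1 a2 b1 b2) (h' : RB q w1 w2 c1 c2 d1 d2) : Nf c1 c2 ≤ Nf a1 a2 := by
  by_contra hcon
  push Not at hcon
  have hA0 := h.A0
  have hle := A_le h
  obtain ⟨k, hk⟩ := Int.eq_ofNat_of_zero_le hA0.le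
  have hkk : Nf a1 a2 = (k : ℤ) := hk
  have hq' : (29 : ℤ) ≤ q := by exact_mod_cast hq
  have h1 : inLat q w1 w2 a1 a2 := by
    refine detect hA hA' hS (k := k) (by omega) ?_ (hSL k) ?_ ?_ hkk h.ha
    · have : (k : ℤ) ≤ q := by omega
      nlinarith
    · intro y1 y2 hy hyw
      have := h'.min hyw (by omega)
      omega
    · intro y1 y2 hy hyv _
      exact h.mt_of_lt hA hyv (by omega) (by omega)
  have := h'.min h1 hA0.ne'
  omega

theorem A_eq {q : ℕ} (hq : 29 ≤ q) {v1 v2 w1 w2 a1 a2 b1 b2 c1 c2 d1 d2 : ℤ}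
    (hA : Adm q v1 v2) (hA' : Adm q w1 w2) (hS : SameWalls q v1 v2 w1 w2)
    (hSL : ∀ k, SL q v1 v2 k = SL q w1 w2 k)
    (h : RB q v1 v2 a1 a2 b1 b2) (h' : RB q w1 w2 c1 c2 d1 d2) : Nf a1 a2 = Nf c1 c2 :=
  le_antisymm (A_eq_aux hq hA' hA hS.symm (fun k => (hSL k).symm) h' h)
    (A_eq_aux hq hA hA' hS hSL h h')

end Pool.Agent.Iso79
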