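import Pool.Agent.Iso79.LatGen

/-! # Hexagonal and rhombic cases, see `LatCommon.lean` -/

open Complex

noncomputable section

namespace Pool.Agent.Iso79

/-! ### The hexagonal case -/

/-- the six vectors `± y`, `± z`, `± (y - z)` -/
def hrSix (a1 a2 : ℤ) : Finset (ℤ × ℤ) :=
  {(a1, a2), (-a2, a1 + a2), (-a1 - a2, a1), (-a1, -a2), (a2, -a1 - a2), (a1 + a2, -a1)}

theorem hrSix_orb {a1 a2 : ℤ} {x : ℤ × ℤ} (hx : x ∈ hrSix a1 a2) : Orb a1 a2 x.1 x.2 := by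
  simp only [hrSix, Finset.mem_insert, Finset.mem_singleton] at hx
  rw [Orb_iff]
  rcases hx with rfl | rfl | rfl | rfl | rfl | rfl <;>
    exact ⟨by simp only [Nf] <;> ring, by ring⟩

theorem hrSix_card {a1 a2 : ℤ} (h : Nf a1 a2 ≠ 0) : (hrSix a1 a2).card = 6 := by
  have h0 : ¬ (a1 = 0 ∧ a2 = 0) := by
    rintro ⟨rfl, rfl⟩
    exact h (by simp [Nf])
  unfold hrSix
  rw [Finset.card_insert_of_notMem, Finset.card_insert_of_notMem, Finset.card_insert_of_notMem,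
    Finset.card_insert_of_notMem, Finset.card_insert_of_notMem, Finset.card_singleton]
  all_goals
    simp only [Finset.mem_insert, Finset.mem_singleton, Prod.mk.injEq, not_or]
    omega

theorem hr_units {m n : ℤ} (e4 : m ^ 2 + m * n + n ^ 2 = 1) :
    (m = 1 ∧ n = 0) ∨ (m = -1 ∧ n = 0) ∨ (m = 0 ∧ n = 1) ∨ (m = 0 ∧ n = -1) ∨
        (m = 1 ∧ n = -1) ∨ (m = -1 ∧ n = 1) := by
  have hm : -1 ≤ m ∧ m ≤ 1 := by
    constructor <;> nlinarith [sq_nonneg (m + 2 * n), sq_nonneg (m - 1), sq_nonneg (m + 1)]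
  have hn : -1 ≤ n ∧ n ≤ 1 := by
    constructor <;> nlinarith [sq_nonneg (2 * m + n), sq_nonneg (n - 1), sq_nonneg (n + 1)]
  obtain ⟨hm1, hm2⟩ := hm
  obtain ⟨hn1, hn2⟩ := hn
  interval_cases m <;> interval_cases n <;> first | (exfalso; norm_num at e4; done) | norm_num

/-- the data of a hexagonal lattice -/
theorem hex_data {q : ℕ} {v1 v2 a1 a2 b1 b2 : ℤ} (h : RB q v1 v2 a1 a2 b1 b2)
    (h1 : Nf a1 a2 = Nf b1 b2) (h2 : Bf a1 a2 b1 b2 = Nf a1 a2) :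
    Nf a1 a2 = q ∧ (∀ y1 y2, inLat q v1 v2 y1 y2 → inLat q v1 v2 (-y2) (y1 + y2)) ∧
    (∀ y1 y2, (inLat q v1 v2 y1 y2 ∧ Nf y1 y2 = Nf a1 a2) ↔ (y1, y2) ∈ hrSix a1 a2) := by
  have hA0 := h.A0
  have hAq : Nf a1 a2 = q := by
    have hG := Gram_det a1 a2 b1 b2
    rw [h.det, ← h1, h2] at hG
    have : Nf a1 a2 ^ 2 = (q : ℤ) ^ 2 := by linarith
    exact (pow_left_inj₀ hA0.le (Int.natCast_nonneg q) two_ne_zero).1 this
  have hdet : (a1 * b2 - a2 * b1) ^ 2 = Nf a1 a2 ^ 2 := by rw [h.det, hAq]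
  -- the two possibilities for `b`
  have hb : (b1 = -a2 ∧ b2 = a1 + a2) ∨ (b1 = a1 + a2 ∧ b2 = -a1) := by
    rcases sq_eq_sq_iff_eq_or_eq_neg.1 hdet with hd | hd
    · left
      refine gen_eq_of hA0 ?_ ?_
      · rw [h2]; unfold Nf Bf; ring
      · rw [hd]; unfold Nf; ring
    · right
      refine gen_eq_of hA0 ?_ ?_
      · rw [h2]; unfold Nf Bf; ring
      · rw [hd]; unfold Nf; ring
  have hρa : inLat q v1 v2 (-a2) (a1 + a2) := by
    rcases hb with ⟨e1, e2⟩ | ⟨e1, e2⟩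
    · rw [← e1, ← e2]; exact h.hb
    · have := inLat_add h.ha (inLat_neg h.hb)
      rw [e1, e2] at this
      have f1 : a1 + -(a1 + a2) = -a2 := by ring
      have f2 : a2 + - -a1 = a1 + a2 := by ring
      rwa [f1, f2] at this
  have hρρa : inLat q v1 v2 (-a1 - a2) a1 := by
    have := inLat_add hρa (inLat_neg h.ha)
    have f1 : -a2 + -a1 = -a1 - a2 := by ring
    have f2 : a1 + a2 + -a2 = a1 := by ring
    rwa [f1, f2] at this
  have hρ : ∀ y1 y2, inLat q v1 v2 y1 y2 → inLat q v1 v2 (-y2) (y1 + y2) := by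
    intro y1 y2 hy
    obtain ⟨m, n, e1, e2⟩ := h.span y1 y2 hy
    have key : inLat q v1 v2 (-b2) (b1 + b2) := by
      rcases hb with ⟨e1, e2⟩ | ⟨e1, e2⟩
      · rw [e1, e2]
        have f1 : -(a1 + a2) = -a1 - a2 := by ring
        have f2 : -a2 + (a1 + a2) = a1 := by ring
        rw [f1, f2]; exact hρρa
      · rw [e1, e2]
        have f1 : - -a1 = a1 := by ring
        have f2 : a1 + a2 + -a1 = a2 := by ring
        rw [f1, f2]; exact h.ha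
    have := inLat_add (inLat_smul m hρa) (inLat_smul n key)
    rw [e1, e2]
    have f1 : -(m * a2 + n * b2) = m * -a2 + n * -b2 := by ring
    have f2 : m * a1 + n * b1 + (m * a2 + n * b2) = m * (a1 + a2) + n * (b1 + b2) := by ring
    rw [f1, f2]; exact this
  refine ⟨hAq, hρ, ?_⟩
  intro y1 y2
  constructor
  · rintro ⟨hy, hN⟩
    obtain ⟨m, n, e1, e2⟩ := h.span y1 y2 hy
    have e3 : Nf y1 y2 = m ^ 2 * Nf a1 a2 + m * n * Bf a1 a2 b1 b2 + n ^ 2 * Nf b1 b2 := by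
      rw [e1, e2, Nf_comb]
    rw [hN, h2, ← h1] at e3
    have e4 : m ^ 2 + m * n + n ^ 2 = 1 := by
      have : Nf a1 a2 * (m ^ 2 + m * n + n ^ 2) = Nf a1 a2 * 1 := by linarith
      exact mul_left_cancel₀ hA0.ne' this
    have hcase := hr_units e4
    simp only [hrSix, Finset.mem_insert, Finset.mem_singleton, Prod.mk.injEq]
    rcases hb with ⟨g1, g2⟩ | ⟨g1, g2⟩ <;>
      rcases hcase with ⟨rfl, rfl⟩ | ⟨rfl, rfl⟩ | ⟨rfl, rfl⟩ | ⟨rfl, rfl⟩ | ⟨rfl, rfl⟩ | ⟨rfl, rfl⟩ <;>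
      first
      | exact Or.inl ⟨by linarith, by linarith⟩
      | exact Or.inr (Or.inl ⟨by linarith, by linarith⟩)
      | exact Or.inr (Or.inr (Or.inl ⟨by linarith, by linarith⟩))
      | exact Or.inr (Or.inr (Or.inr (Or.inl ⟨by linarith, by linarith⟩)))
      | exact Or.inr (Or.inr (Or.inr (Or.inr (Or.inl ⟨by linarith, by linarith⟩))))
      | exact Or.inr (Or.inr (Or.inr (Or.inr (Or.inr ⟨by linarith, by linarith⟩))))
  · intro hy
    refine ⟨?_, ?_⟩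
    · simp only [hrSix, Finset.mem_insert, Finset.mem_singleton, Prod.mk.injEq] at hy
      rcases hy with ⟨k1, k2⟩ | ⟨k1, k2⟩ | ⟨k1, k2⟩ | ⟨k1, k2⟩ | ⟨k1, k2⟩ | ⟨k1, k2⟩ <;> rw [k1, k2]
      · exact h.ha
      · exact hρa
      · exact hρρa
      · exact inLat_neg h.ha
      · have := inLat_neg hρa
        have f2 : -(a1 + a2) = -a1 - a2 := by ring
        rwa [neg_neg, f2] at this
      · have := inLat_neg hρρa
        have f2 : -(-a1 - a2) = a1 + a2 := by ring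
        rwa [f2] at this
    · exact (Orb_iff.1 (hrSix_orb hy)).1.symm

/-- the shell sum of a hexagonal lattice -/
theorem hex_sum {q : ℕ} {v1 v2 a1 a2 b1 b2 : ℤ} (h : RB q v1 v2 a1 a2 b1 b2)
    (h1 : Nf a1 a2 = Nf b1 b2) (h2 : Bf a1 a2 b1 b2 = Nf a1 a2) (hq : 29 ≤ q) :
    (Wall a1 a2 → SL q v1 v2 q = 0) ∧ (¬ Wall a1 a2 → SL q v1 v2 q = 6 * Bt q a1 a2) := by
  obtain ⟨hAq, -, hsix⟩ := hex_data h h1 h2
  have hk : 16 * ((q : ℕ) : ℤ) < (q : ℤ) ^ 2 := by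
    have hq' : (29 : ℤ) ≤ q := by exact_mod_cast hq
    nlinarith
  have hSL : SL q v1 v2 q = ∑ y ∈ sg_VS q v1 v2 q, Bt q y.1 y.2 := rfl
  rw [hSL]
  constructor
  · intro hw
    have : sg_VS q v1 v2 q = ∅ := by
      rw [Finset.eq_empty_iff_forall_notMem]
      intro y hy
      rw [sg_mem_VS hk] at hy
      obtain ⟨e1, e2, e3⟩ := hy
      have h4 := (hsix y.1 y.2).1 ⟨e2, by rw [e1, hAq]⟩
      exact e3 ((Wall_orb (hrSix_orb h4)).1 hw)
    rw [this, Finset.sum_empty]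
  · intro hw
    have : sg_VS q v1 v2 q = hrSix a1 a2 := by
      ext y
      rw [sg_mem_VS hk]
      constructor
      · rintro ⟨e1, e2, -⟩
        exact (hsix y.1 y.2).1 ⟨e2, by rw [e1, hAq]⟩
      · intro hy
        obtain ⟨e2, e1⟩ := (hsix y.1 y.2).2 hy
        exact ⟨by rw [e1, hAq], e2, fun h => hw ((Wall_orb (hrSix_orb hy)).2 h)⟩
    rw [this, Finset.sum_congr rfl (fun y hy => (Bt_invariant (hrSix_orb hy)).symm),
      Finset.sum_const, hrSix_card h.A0.ne']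
    simp

/-- hexagonal case -/
theorem lat_hex {q : ℕ} (hq : 29 ≤ q) {v1 v2 w1 w2 a1 a2 b1 b2 c1 c2 d1 d2 : ℤ}
    (hA : Adm q v1 v2) (hA' : Adm q w1 w2) (hS : SameWalls q v1 v2 w1 w2)
    (hSL : ∀ k, SL q v1 v2 k = SL q w1 w2 k)
    (h : RB q v1 v2 a1 a2 b1 b2) (h' : RB q w1 w2 c1 c2 d1 d2)
    (h1 : Nf a1 a2 = Nf b1 b2) (h2 : Bf a1 a2 b1 b2 = Nf a1 a2) : Equiv3 q v1 v2 w1 w2 := by
  have hAA := A_eq hq hA hA' hS hSL h h'
  obtain ⟨hAq, hρ, hsix⟩ := hex_data h h1 h2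
  have hq' : (29 : ℤ) ≤ q := by exact_mod_cast hq
  -- `Λ_w` is hexagonal
  obtain ⟨h1', h2'⟩ : Nf c1 c2 = Nf d1 d2 ∧ Bf c1 c2 d1 d2 = Nf c1 c2 := by
    have hG := Gram_det c1 c2 d1 d2
    rw [h'.det] at hG
    have g1 := h'.C0
    have g2 := h'.C1
    have g3 := h'.AB
    have hc : Nf c1 c2 = q := by rw [← hAA, hAq]
    rw [hc] at hG g2 g3 ⊢
    have g4 : Bf c1 c2 d1 d2 ^ 2 ≤ (q : ℤ) ^ 2 := pow_le_pow_left₀ g1 g2 2
    have g5 : Nf d1 d2 ≤ q := by nlinarith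
    have g6 : Nf d1 d2 = q := le_antisymm g5 g3
    refine ⟨g6.symm, ?_⟩
    rw [g6] at hG
    have : Bf c1 c2 d1 d2 ^ 2 = (q : ℤ) ^ 2 := by linarith
    exact (pow_left_inj₀ g1 (Int.natCast_nonneg q) two_ne_zero).1 this
  obtain ⟨hAq', hρ', hsix'⟩ := hex_data h' h1' h2'
  -- `c` is in the orbit of `a`
  have hOrb : Orb a1 a2 c1 c2 := by
    have s1 := hex_sum h h1 h2 hq
    have s2 := hex_sum h' h1' h2' hq
    have hMa : MT a1 a2 := h.mt_of_lt hA h.ha h.A0.ne' (by have := h.A0; omega)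
    have hMc : MT c1 c2 := h'.mt_of_lt hA' h'.ha h'.A0.ne' (by have := h'.A0; omega)
    have hs : 16 * Nf a1 a2 < (q : ℤ) ^ 2 := by rw [hAq]; nlinarith
    have hs' : 16 * Nf c1 c2 < (q : ℤ) ^ 2 := by rw [hAq']; nlinarith
    by_cases hw : Wall a1 a2
    · by_cases hw' : Wall c1 c2
      · exact wall_orbit hw hw' hAA
      · have := Bt_neg hMc hs' hw'
        have e := hSL q
        rw [s1.1 hw, s2.2 hw'] at e
        linarith
    · by_cases hw' : Wall c1 c2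
      · have := Bt_neg hMa hs hw
        have e := hSL q
        rw [s1.2 hw, s2.1 hw'] at e
        linarith
      · have e := hSL q
        rw [s1.2 hw, s2.2 hw'] at e
        exact Bt_orbit hMa hMc hs hAA hw hw' (by linarith)
  -- so a permuted lattice contains `c`
  obtain ⟨i, hc⟩ : ∃ i, inLat q (pm i v1 v2).1 (pm i v1 v2).2 c1 c2 := by
    obtain ⟨i, hi | hi⟩ := hOrb
    · refine ⟨i, ?_⟩
      have := (inLat_pm (q := q) (v1 := v1) (v2 := v2) i a1 a2).2 h.ha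
      rwa [← hi] at this
    · refine ⟨i, ?_⟩
      have := inLat_neg ((inLat_pm (q := q) (v1 := v1) (v2 := v2) i a1 a2).2 h.ha)
      rw [← hi] at this
      simpa using this
  have hR := gen_RB_pm h i
  have hR1 : Nf (pm i a1 a2).1 (pm i a1 a2).2 = Nf (pm i b1 b2).1 (pm i b1 b2).2 := by
    rw [Nf_pm, Nf_pm, h1]
  have hR2 : Bf (pm i a1 a2).1 (pm i a1 a2).2 (pm i b1 b2).1 (pm i b1 b2).2 =
      Nf (pm i a1 a2).1 (pm i a1 a2).2 := by
    rw [gen_Bf_pm, Nf_pm, h2]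
  obtain ⟨-, hρi, -⟩ := hex_data hR hR1 hR2
  refine gen_of_basis hA hA' h' i hc ?_
  -- `d` is a rotation of `c`
  have hd : (d1, d2) ∈ hrSix c1 c2 := (hsix' d1 d2).1 ⟨h'.hb, h1'.symm⟩
  have r1 := hρi _ _ hc
  have r2 : inLat q (pm i v1 v2).1 (pm i v1 v2).2 (-c1 - c2) c1 := by
    have := inLat_add r1 (inLat_neg hc)
    have f1 : -c2 + -c1 = -c1 - c2 := by ring
    have f2 : c1 + c2 + -c2 = c1 := by ring
    rwa [f1, f2] at this
  simp only [hrSix, Finset.mem_insert, Finset.mem_singleton, Prod.mk.injEq] at hd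
  rcases hd with ⟨k1, k2⟩ | ⟨k1, k2⟩ | ⟨k1, k2⟩ | ⟨k1, k2⟩ | ⟨k1, k2⟩ | ⟨k1, k2⟩ <;> rw [k1, k2]
  · exact hc
  · exact r1
  · exact r2
  · exact inLat_neg hc
  · have := inLat_neg r1
    have f2 : -(c1 + c2) = -c1 - c2 := by ring
    rwa [neg_neg, f2] at this
  · have := inLat_neg r2
    have f2 : -(-c1 - c2) = c1 + c2 := by ring
    rwa [f2] at this

/-! ### The rhombic case -/

/-- small values of the form `A (m² + n²) + C m n` -/
theorem rh_values {A C m n : ℤ} (hC : 0 < C) (hCA : C < A)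
    (hmn : m ≠ 0 ∧ n ≠ 0) : 2 * A - C ≤ m ^ 2 * A + m * n * C + n ^ 2 * A ∧
    (m ^ 2 * A + m * n * C + n ^ 2 * A = 2 * A - C → (m = 1 ∧ n = -1) ∨ (m = -1 ∧ n = 1)) := by
  obtain ⟨hm, hn⟩ := hmn
  have e1 : m ^ 2 * A + m * n * C + n ^ 2 * A = (m + n) ^ 2 * A + (-(m * n)) * (2 * A - C) := by ring
  have e2 : m ^ 2 * A + m * n * C + n ^ 2 * A = (m - n) ^ 2 * A + (m * n) * (2 * A + C) := by ring
  have hne : m * n ≠ 0 := mul_ne_zero hm hn
  have hK : 0 < 2 * A - C := by linarith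
  have hA0 : 0 < A := by linarith
  rcases lt_or_gt_of_ne hne with hlt | hgt
  · have h1 : 1 ≤ -(m * n) := by omega
    have h2 : 0 ≤ (m + n) ^ 2 * A := by positivity
    have h3 : 2 * A - C ≤ (-(m * n)) * (2 * A - C) := by nlinarith
    refine ⟨by rw [e1]; linarith, fun h => ?_⟩
    rw [e1] at h
    have h4 : (m + n) ^ 2 * A = 0 := by linarith
    have h5 : m + n = 0 := by
      rcases mul_eq_zero.1 h4 with h | h
      · exact pow_eq_zero_iff (two_ne_zero) |>.1 h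
      · omega
    have h6 : (-(m * n)) * (2 * A - C) = 1 * (2 * A - C) := by linarith
    have h7 : -(m * n) = 1 := mul_right_cancel₀ hK.ne' h6
    have h8 : n = -m := by linarith
    rw [h8] at h7
    have h9 : (m - 1) * (m + 1) = 0 := by linarith
    rcases mul_eq_zero.1 h9 with h | h
    · left; constructor <;> omega
    · right; constructor <;> omega
  · have h1 : 1 ≤ m * n := by omega
    have h2 : 0 ≤ (m - n) ^ 2 * A := by positivity
    have h3 : 2 * A + C ≤ (m * n) * (2 * A + C) := by nlinarith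
    refine ⟨by rw [e2]; linarith, fun h => ?_⟩
    rw [e2] at h
    linarith

theorem rh_zero {A m n : ℤ} (hA0 : 0 < A) (hmn : m = 0 ∨ n = 0) (C : ℤ)
    (h1 : A < m ^ 2 * A + m * n * C + n ^ 2 * A) (h2 : m ^ 2 * A + m * n * C + n ^ 2 * A < 2 * A) :
    False := by
  have key : ∀ t : ℤ, A < t ^ 2 * A → t ^ 2 * A < 2 * A → False := by
    intro t h1 h2
    have h3 : 1 < t ^ 2 := by nlinarith
    have h4 : t ^ 2 < 2 := by nlinarith
    omega
  rcases hmn with rfl | rfl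
  · exact key n (by linarith) (by linarith)
  · exact key m (by linarith) (by linarith)

/-- the second minimum of `Λ_w` is `A` as well -/
theorem rh_B {q : ℕ} (hq : 29 ≤ q) {v1 v2 w1 w2 a1 a2 b1 b2 c1 c2 d1 d2 : ℤ}
    (hA : Adm q v1 v2) (hA' : Adm q w1 w2) (hS : SameWalls q v1 v2 w1 w2)
    (hSL : ∀ k, SL q v1 v2 k = SL q w1 w2 k)
    (h : RB q v1 v2 a1 a2 b1 b2) (h' : RB q w1 w2 c1 c2 d1 d2)
    (h1 : Nf a1 a2 = Nf b1 b2) (h2 : Bf a1 a2 b1 b2 < Nf a1 a2) :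
    0 < Bf a1 a2 b1 b2 ∧ 16 * (2 * Nf a1 a2 - Bf a1 a2 b1 b2) < (q : ℤ) ^ 2 ∧
      Nf c1 c2 = Nf a1 a2 ∧ Nf d1 d2 = Nf a1 a2 ∧ Bf c1 c2 d1 d2 = Bf a1 a2 b1 b2 := by
  have hAA := A_eq hq hA hA' hS hSL h h'
  have hq' : (29 : ℤ) ≤ q := by exact_mod_cast hq
  have hA0 := h.A0
  have hG := Gram_det a1 a2 b1 b2
  have hG' := Gram_det c1 c2 d1 d2
  rw [h.det, ← h1] at hG
  rw [h'.det, ← hAA] at hG'
  -- `C > 0`
  have hC : 0 < Bf a1 a2 b1 b2 := by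
    rcases h.C0.eq_or_lt with e | e
    · exfalso
      rw [← e] at hG
      obtain ⟨r, hr⟩ := hA.odd
      have hr' : (q : ℤ) = 2 * r + 1 := by exact_mod_cast hr
      rw [hr'] at hG
      have : 3 * (2 * (r : ℤ) + 1) ^ 2 = 2 * (6 * r ^ 2 + 6 * r + 1) + 1 := by ring
      rw [this] at hG
      have e2 : 4 * Nf a1 a2 * Nf a1 a2 - 0 ^ 2 = 2 * (2 * (Nf a1 a2 * Nf a1 a2)) := by ring
      rw [e2] at hG
      omega
    · exact e
  set A := Nf a1 a2 with hAd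
  set C := Bf a1 a2 b1 b2 with hCd
  have hKq : 16 * (2 * A - C) < (q : ℤ) ^ 2 := by
    have k1 : (2 * A - C) ^ 2 < 3 * (q : ℤ) ^ 2 := by nlinarith
    by_contra hcon
    push Not at hcon
    have k2 : ((q : ℤ) ^ 2) ^ 2 ≤ (16 * (2 * A - C)) ^ 2 :=
      pow_le_pow_left₀ (by positivity) hcon 2
    have k0 : (841 : ℤ) ≤ (q : ℤ) ^ 2 := by nlinarith
    have k3 : 841 * (q : ℤ) ^ 2 ≤ ((q : ℤ) ^ 2) ^ 2 := by nlinarith
    have k4 : (16 * (2 * A - C)) ^ 2 = 256 * (2 * A - C) ^ 2 := by ring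
    have k5 : 0 < (q : ℤ) ^ 2 := by positivity
    linarith
  refine ⟨hC, hKq, hAA.symm, ?_⟩
  have g0 := h'.C0
  have g1 := h'.C1
  have g2 := h'.AB
  rw [← hAA] at g1 g2
  set B' := Nf d1 d2 with hBd
  set C' := Bf c1 c2 d1 d2 with hCd'
  -- `B' = A`
  have hB : B' = A := by
    rcases g2.eq_or_lt with e | hlt
    · exact e.symm
    exfalso
    -- values of the form in `Λ_w`
    have hW : ∀ y1 y2, inLat q w1 w2 y1 y2 → A < Nf y1 y2 → Nf y1 y2 < 2 * A → B' ≤ Nf y1 y2 := by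
      intro y1 y2 hy l1 l2
      obtain ⟨m, n, e1, e2⟩ := h'.span y1 y2 hy
      have e3 : Nf y1 y2 = m ^ 2 * Nf c1 c2 + m * n * C' + n ^ 2 * B' := by
        rw [e1, e2, Nf_comb]
      by_cases hn : n = 0
      · exfalso
        subst hn
        rw [← hAA] at e3
        have k1 : 1 < m ^ 2 := by nlinarith
        have k2 : m ^ 2 < 2 := by nlinarith
        omega
      · rw [e3]; exact h'.le_of_not_mul hn
    have hV : ∀ y1 y2, inLat q v1 v2 y1 y2 → A < Nf y1 y2 → Nf y1 y2 < 2 * A →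
        2 * A - C ≤ Nf y1 y2 := by
      intro y1 y2 hy l1 l2
      obtain ⟨m, n, e1, e2⟩ := h.span y1 y2 hy
      have e3 : Nf y1 y2 = m ^ 2 * A + m * n * C + n ^ 2 * A := by
        rw [e1, e2, Nf_comb, ← h1]
      by_cases hmn : m = 0 ∨ n = 0
      · exact (rh_zero hA0 hmn C (by linarith) (by linarith)).elim
      · push Not at hmn
        rw [e3]
        exact (rh_values hC h2 hmn).1
    have hcN : Nf (a1 + -b1) (a2 + -b2) = 2 * A - C := by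
      have e := Nf_comb 1 (-1) a1 a2 b1 b2
      have f1 : (1 : ℤ) * a1 + -1 * b1 = a1 + -b1 := by ring
      have f2 : (1 : ℤ) * a2 + -1 * b2 = a2 + -b2 := by ring
      rw [f1, f2, ← h1] at e
      rw [e, ← hAd, ← hCd]
      ring
    have hcv : inLat q v1 v2 (a1 + -b1) (a2 + -b2) := inLat_add h.ha (inLat_neg h.hb)
    rcases lt_trichotomy (2 * A - C) B' with hK | hK | hK
    · -- `K < B'`
      obtain ⟨k, hk⟩ := Int.eq_ofNat_of_zero_le (show (0 : ℤ) ≤ 2 * A - C by linarith)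
      have hk' : 2 * A - C = (k : ℤ) := hk
      have h3 : inLat q w1 w2 (a1 + -b1) (a2 + -b2) := by
        refine detect hA hA' hS (k := k) (by omega) (by omega) (hSL k) ?_ ?_ (by omega) hcv
        · intro y1 y2 hy hyw
          have := hW y1 y2 hyw (by omega) (by omega)
          omega
        · intro y1 y2 hy hyv _
          exact h.mt_of_lt hA hyv (by omega) (by omega)
      have := hW _ _ h3 (by omega) (by omega)
      omega
    · -- `K = B'`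
      rw [← hK] at hG'
      have e : (2 * A - C) ^ 2 = C' ^ 2 := by linarith
      have := (pow_left_inj₀ (by linarith) g0 two_ne_zero).1 e
      linarith
    · -- `B' < K`
      obtain ⟨k, hk⟩ := Int.eq_ofNat_of_zero_le (show (0 : ℤ) ≤ B' by linarith)
      have hk' : B' = (k : ℤ) := hk
      have h3 : inLat q v1 v2 d1 d2 := by
        refine detect hA' hA hS.symm (k := k) (by omega) (by omega) (hSL k).symm ?_ ?_
          (by omega) h'.hb
        · intro y1 y2 hy hyv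
          have := hV y1 y2 hyv (by omega) (by omega)
          omega
        · intro y1 y2 hy hyw _
          exact h'.mt_of_lt hA' hyw (by omega) (by omega)
      have := hV _ _ h3 (by omega) (by omega)
      omega
  refine ⟨hB, ?_⟩
  rw [hB] at hG'
  have e : C' ^ 2 = C ^ 2 := by linarith
  exact (pow_left_inj₀ g0 h.C0 two_ne_zero).1 e

/-- the vectors with `Nf = 2A - C` -/
theorem rh_uniq {q : ℕ} {v1 v2 a1 a2 b1 b2 : ℤ} (h : RB q v1 v2 a1 a2 b1 b2)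
    (h1 : Nf a1 a2 = Nf b1 b2) (hC : 0 < Bf a1 a2 b1 b2) (h2 : Bf a1 a2 b1 b2 < Nf a1 a2)
    {y1 y2 : ℤ} (hy : inLat q v1 v2 y1 y2) (hN : Nf y1 y2 = 2 * Nf a1 a2 - Bf a1 a2 b1 b2) :
    (y1 = a1 - b1 ∧ y2 = a2 - b2) ∨ (y1 = -(a1 - b1) ∧ y2 = -(a2 - b2)) := by
  obtain ⟨m, n, e1, e2⟩ := h.span y1 y2 hy
  have e3 : Nf y1 y2 = m ^ 2 * Nf a1 a2 + m * n * Bf a1 a2 b1 b2 + n ^ 2 * Nf a1 a2 := by
    rw [e1, e2, Nf_comb, ← h1]
  by_cases hmn : m = 0 ∨ n = 0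
  · exact (rh_zero h.A0 hmn (Bf a1 a2 b1 b2) (by linarith) (by linarith)).elim
  · push Not at hmn
    rcases (rh_values hC h2 hmn).2 (by rw [← e3, hN]) with ⟨rfl, rfl⟩ | ⟨rfl, rfl⟩
    · left; constructor
      · rw [e1]; ring
      · rw [e2]; ring
    · right; constructor
      · rw [e1]; ring
      · rw [e2]; ring

theorem rh_same {q : ℕ} {v1 v2 w1 w2 a1 a2 b1 b2 c1 c2 d1 d2 : ℤ}
    (hA : Adm q v1 v2) (hA' : Adm q w1 w2) (i : Fin 6)
    (h : RB q (pm i v1 v2).1 (pm i v1 v2).2 a1 a2 b1 b2) (h' : RB q w1 w2 c1 c2 d1 d2)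
    (h1 : Nf a1 a2 = Nf b1 b2) (h1' : Nf c1 c2 = Nf d1 d2) (h2 : Bf a1 a2 b1 b2 < Nf a1 a2)
    (e1 : a1 - b1 = c1 - d1) (e2 : a2 - b2 = c2 - d2) : Equiv3 q v1 v2 w1 w2 := by
  -- `c + d = ± (a + b)`
  have hK : 0 < Nf (a1 - b1) (a2 - b2) := by
    have e := Nf_comb 1 (-1) a1 a2 b1 b2
    have f1 : (1 : ℤ) * a1 + -1 * b1 = a1 - b1 := by ring
    have f2 : (1 : ℤ) * a2 + -1 * b2 = a2 - b2 := by ring
    rw [f1, f2, ← h1] at e
    rw [e]
    have := h.A0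
    linarith
  have b1' : Bf (a1 - b1) (a2 - b2) (a1 + b1) (a2 + b2) = 0 := by
    have : Bf (a1 - b1) (a2 - b2) (a1 + b1) (a2 + b2) = 2 * Nf a1 a2 - 2 * Nf b1 b2 := by
      unfold Bf Nf; ring
    rw [this, h1]; ring
  have b2' : Bf (a1 - b1) (a2 - b2) (c1 + d1) (c2 + d2) = 0 := by
    rw [e1, e2]
    have : Bf (c1 - d1) (c2 - d2) (c1 + d1) (c2 + d2) = 2 * Nf c1 c2 - 2 * Nf d1 d2 := by
      unfold Bf Nf; ring
    rw [this, h1']; ring
  have d1' : (a1 - b1) * (a2 + b2) - (a2 - b2) * (a1 + b1) = 2 * (a1 * b2 - a2 * b1) := by ring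
  have d2' : (a1 - b1) * (c2 + d2) - (a2 - b2) * (c1 + d1) = 2 * (c1 * d2 - c2 * d1) := by
    rw [e1, e2]; ring
  have hdd : (a1 * b2 - a2 * b1) ^ 2 = (c1 * d2 - c2 * d1) ^ 2 := by rw [h.det, h'.det]
  rcases sq_eq_sq_iff_eq_or_eq_neg.1 hdd with hD | hD
  · obtain ⟨f1, f2⟩ := gen_eq_of (y1 := c1 + d1) (y2 := c2 + d2) (z1 := a1 + b1) (z2 := a2 + b2)
      hK (by rw [b1', b2']) (by rw [d1', d2', hD])
    have g1 : c1 = a1 := by linarith
    have g2 : c2 = a2 := by linarith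
    have g3 : d1 = b1 := by linarith
    have g4 : d2 = b2 := by linarith
    subst g1 g2 g3 g4
    exact gen_of_basis hA hA' h' i h.ha h.hb
  · obtain ⟨f1, f2⟩ := gen_eq_of (y1 := c1 + d1) (y2 := c2 + d2) (z1 := -(a1 + b1))
      (z2 := -(a2 + b2)) hK
      (by
        have : Bf (a1 - b1) (a2 - b2) (-(a1 + b1)) (-(a2 + b2)) =
          -Bf (a1 - b1) (a2 - b2) (a1 + b1) (a2 + b2) := by unfold Bf; ring
        rw [this, b1', b2']; ring)
      (by rw [d2']; linear_combination 2 * hD)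
    have g1 : c1 = -b1 := by linarith
    have g2 : c2 = -b2 := by linarith
    have g3 : d1 = -a1 := by linarith
    have g4 : d2 = -a2 := by linarith
    subst g1 g2 g3 g4
    exact gen_of_basis hA hA' h' i (inLat_neg h.hb) (inLat_neg h.ha)

/-- rhombic case -/
theorem lat_rhomb {q : ℕ} (hq : 29 ≤ q) {v1 v2 w1 w2 a1 a2 b1 b2 c1 c2 d1 d2 : ℤ}
    (hA : Adm q v1 v2) (hA' : Adm q w1 w2) (hS : SameWalls q v1 v2 w1 w2)
    (hSL : ∀ k, SL q v1 v2 k = SL q w1 w2 k)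
    (h : RB q v1 v2 a1 a2 b1 b2) (h' : RB q w1 w2 c1 c2 d1 d2)
    (h1 : Nf a1 a2 = Nf b1 b2) (h2 : Bf a1 a2 b1 b2 < Nf a1 a2) : Equiv3 q v1 v2 w1 w2 := by
  obtain ⟨hC, hKq, hAA, hBB, hCC⟩ := rh_B hq hA hA' hS hSL h h' h1 h2
  have hA0 := h.A0
  have h1' : Nf c1 c2 = Nf d1 d2 := by rw [hAA, hBB]
  have hC' : 0 < Bf c1 c2 d1 d2 := by rw [hCC]; exact hC
  have h2' : Bf c1 c2 d1 d2 < Nf c1 c2 := by rw [hCC, hAA]; exact h2
  have nf : ∀ x1 x2 y1 y2 : ℤ, Nf (x1 - y1) (x2 - y2) = Nf x1 x2 - Bf x1 x2 y1 y2 + Nf y1 y2 := by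
    intro x1 x2 y1 y2; unfold Nf Bf; ring
  have hK : Nf (a1 - b1) (a2 - b2) = 2 * Nf a1 a2 - Bf a1 a2 b1 b2 := by
    rw [nf, ← h1]; ring
  have hK' : Nf (c1 - d1) (c2 - d2) = 2 * Nf a1 a2 - Bf a1 a2 b1 b2 := by
    rw [nf, ← h1', hAA, hCC]; ring
  have lv : inLat q v1 v2 (a1 - b1) (a2 - b2) := by
    have := inLat_add h.ha (inLat_neg h.hb)
    rwa [← sub_eq_add_neg, ← sub_eq_add_neg] at this
  have lw : inLat q w1 w2 (c1 - d1) (c2 - d2) := by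
    have := inLat_add h'.ha (inLat_neg h'.hb)
    rwa [← sub_eq_add_neg, ← sub_eq_add_neg] at this
  have uv : ∀ y1 y2, inLat q v1 v2 y1 y2 → Nf y1 y2 = 2 * Nf a1 a2 - Bf a1 a2 b1 b2 →
      (y1 = a1 - b1 ∧ y2 = a2 - b2) ∨ (y1 = -(a1 - b1) ∧ y2 = -(a2 - b2)) :=
    fun y1 y2 hy hN => rh_uniq h h1 hC h2 hy hN
  have uw : ∀ y1 y2, inLat q w1 w2 y1 y2 → Nf y1 y2 = 2 * Nf a1 a2 - Bf a1 a2 b1 b2 →
      (y1 = c1 - d1 ∧ y2 = c2 - d2) ∨ (y1 = -(c1 - d1) ∧ y2 = -(c2 - d2)) :=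
    fun y1 y2 hy hN => rh_uniq h' h1' hC' h2' hy (by rw [hN, hAA, hCC])
  have key : ∀ {y1 y2 z1 z2 : ℤ}, ((z1 = y1 ∧ z2 = y2) ∨ (z1 = -y1 ∧ z2 = -y2)) →
      Orb y1 y2 z1 z2 := by
    rintro y1 y2 z1 z2 (⟨rfl, rfl⟩ | ⟨rfl, rfl⟩)
    · exact ⟨0, Or.inl rfl⟩
    · exact ⟨0, Or.inr (by simp [pm])⟩
  have hOrb : Orb (a1 - b1) (a2 - b2) (c1 - d1) (c2 - d2) := by
    by_cases hc : inLat q v1 v2 (c1 - d1) (c2 - d2)
    · exact key (uv _ _ hc hK')
    by_cases ha : inLat q w1 w2 (a1 - b1) (a2 - b2)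
    · exact (key (uw _ _ ha hK)).symm
    obtain ⟨k, hk⟩ := Int.eq_ofNat_of_zero_le
      (show (0 : ℤ) ≤ 2 * Nf a1 a2 - Bf a1 a2 b1 b2 by linarith)
    have hk' : 2 * Nf a1 a2 - Bf a1 a2 b1 b2 = (k : ℤ) := hk
    refine identify hA hA' hS (k := k) (by omega) (by omega) (hSL k) ?_ ?_ (by omega) (by omega)
      lv lw ha hc ?_ ?_
    · exact h.mt_of_lt hA lv (by omega) (by omega)
    · exact h'.mt_of_lt hA' lw (by omega) (by omega)
    · intro x1 x2 hx hxv _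
      exact uv x1 x2 hxv (by omega)
    · intro x1 x2 hx hxw _
      exact uw x1 x2 hxw (by omega)
  obtain ⟨i, hi⟩ := hOrb
  have hR := gen_RB_pm h i
  have hsub := gen_pm_comb i 1 (-1) a1 a2 b1 b2
  have f1 : (1 : ℤ) * a1 + -1 * b1 = a1 - b1 := by ring
  have f2 : (1 : ℤ) * a2 + -1 * b2 = a2 - b2 := by ring
  rw [f1, f2] at hsub
  rcases hi with hi | hi
  · rw [← hi, Prod.mk.injEq] at hsub
    refine rh_same hA hA' i hR h' ?_ h1' ?_ (by linarith [hsub.1]) (by linarith [hsub.2])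
    · rw [Nf_pm, Nf_pm, h1]
    · rw [gen_Bf_pm, Nf_pm]; exact h2
  · rw [← hi, Prod.mk.injEq] at hsub
    have hR' := gen_RB_neg hR
    refine rh_same hA hA' i hR' h' ?_ h1' ?_ (by linarith [hsub.1]) (by linarith [hsub.2])
    · rw [gen_Nf_neg, gen_Nf_neg, Nf_pm, Nf_pm, h1]
    · have : ∀ x1 x2 y1 y2 : ℤ, Bf (-x1) (-x2) (-y1) (-y2) = Bf x1 x2 y1 y2 := by
        intro x1 x2 y1 y2; unfold Bf; ring
      rw [this, gen_Nf_neg, gen_Bf_pm, Nf_pm]; exact h2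

end Pool.Agent.Iso79
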