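import Pool.Agent.Iso79.LatSig

/-!
# Reduced bases of `Λ = {y : q ∣ v₁ y₂ - v₂ y₁}`

`Bf a b = 2a₁b₁ + a₁b₂ + a₂b₁ + 2a₂b₂` is the inner product of `(a₁,a₂,-a₁-a₂)` and
`(b₁,b₂,-b₁-b₂)`; `Bf y y = 2 Nf y`, and
`4 Nf a Nf b - (Bf a b)² = 3 (a₁b₂ - a₂b₁)²`.

`reduced_basis`: a basis of `Λ` with minimal `Nf a + Nf b` is reduced, up to order and sign.
-/

open Complex

noncomputable section

namespace Pool.Agent.Iso79

/-- the inner product -/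
def Bf (a1 a2 b1 b2 : ℤ) : ℤ := 2 * a1 * b1 + a1 * b2 + a2 * b1 + 2 * a2 * b2

/-- a reduced basis -/
structure RB (q : ℕ) (v1 v2 a1 a2 b1 b2 : ℤ) : Prop where
  ha : inLat q v1 v2 a1 a2
  hb : inLat q v1 v2 b1 b2
  det : (a1 * b2 - a2 * b1) ^ 2 = (q : ℤ) ^ 2
  C0 : 0 ≤ Bf a1 a2 b1 b2
  C1 : Bf a1 a2 b1 b2 ≤ Nf a1 a2
  AB : Nf a1 a2 ≤ Nf b1 b2
  A0 : 0 < Nf a1 a2
  span : ∀ y1 y2, inLat q v1 v2 y1 y2 → ∃ m n : ℤ, y1 = m * a1 + n * b1 ∧ y2 = m * a2 + n * b2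

/-! ### Elementary facts on `inLat` -/

theorem inLat_add {q : ℕ} {v1 v2 y1 y2 z1 z2 : ℤ} (h : inLat q v1 v2 y1 y2)
    (h' : inLat q v1 v2 z1 z2) : inLat q v1 v2 (y1 + z1) (y2 + z2) := by
  unfold inLat at *
  have := dvd_add h h'
  rwa [show v1 * y2 - v2 * y1 + (v1 * z2 - v2 * z1) = v1 * (y2 + z2) - v2 * (y1 + z1) by ring]
    at this

theorem inLat_neg {q : ℕ} {v1 v2 y1 y2 : ℤ} (h : inLat q v1 v2 y1 y2) :
    inLat q v1 v2 (-y1) (-y2) := sg_inLat_neg h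

theorem inLat_smul {q : ℕ} {v1 v2 y1 y2 : ℤ} (m : ℤ) (h : inLat q v1 v2 y1 y2) :
    inLat q v1 v2 (m * y1) (m * y2) := by
  unfold inLat at *
  have := h.mul_left m
  rwa [show m * (v1 * y2 - v2 * y1) = v1 * (m * y2) - v2 * (m * y1) by ring] at this

theorem Nf_nonneg' (y1 y2 : ℤ) : 0 ≤ Nf y1 y2 := by
  have := sg_Nf3 y1 y2
  nlinarith [sq_nonneg (2 * y1 + y2), sq_nonneg y2]

theorem Nf_eq_zero' {y1 y2 : ℤ} (h : Nf y1 y2 = 0) : y1 = 0 ∧ y2 = 0 := by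
  have h3 := sg_Nf3 y1 y2
  have h2 := sg_Nf2 y1 y2
  rw [h] at h3 h2
  have e2 : y2 ^ 2 = 0 := by nlinarith [sq_nonneg (2 * y1 + y2), sq_nonneg y2]
  have e1 : y1 ^ 2 = 0 := by nlinarith [sq_nonneg (y1 + 2 * y2), sq_nonneg y1]
  exact ⟨by simpa using e1, by simpa using e2⟩

theorem Nf_comb (m n a1 a2 b1 b2 : ℤ) : Nf (m * a1 + n * b1) (m * a2 + n * b2) =
    m ^ 2 * Nf a1 a2 + m * n * Bf a1 a2 b1 b2 + n ^ 2 * Nf b1 b2 := by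
  unfold Nf Bf; ring

theorem Gram_det (a1 a2 b1 b2 : ℤ) : 4 * Nf a1 a2 * Nf b1 b2 - Bf a1 a2 b1 b2 ^ 2 =
    3 * (a1 * b2 - a2 * b1) ^ 2 := by
  unfold Nf Bf; ring

/-! ### Reduced bases -/

/-- a basis of the lattice -/
structure Bas (q : ℕ) (v1 v2 a1 a2 b1 b2 : ℤ) : Prop where
  ha : inLat q v1 v2 a1 a2
  hb : inLat q v1 v2 b1 b2
  det : (a1 * b2 - a2 * b1) ^ 2 = (q : ℤ) ^ 2
  span : ∀ y1 y2, inLat q v1 v2 y1 y2 → ∃ m n : ℤ, y1 = m * a1 + n * b1 ∧ y2 = m * a2 + n * b2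

theorem Bas.swap {q : ℕ} {v1 v2 a1 a2 b1 b2 : ℤ} (h : Bas q v1 v2 a1 a2 b1 b2) :
    Bas q v1 v2 b1 b2 a1 a2 := by
  refine ⟨h.hb, h.ha, ?_, ?_⟩
  · rw [← h.det]; ring
  · intro y1 y2 hy
    obtain ⟨m, n, e1, e2⟩ := h.span y1 y2 hy
    exact ⟨n, m, by rw [e1]; ring, by rw [e2]; ring⟩

theorem Bas.neg {q : ℕ} {v1 v2 a1 a2 b1 b2 : ℤ} (h : Bas q v1 v2 a1 a2 b1 b2) :
    Bas q v1 v2 a1 a2 (-b1) (-b2) := by
  refine ⟨h.ha, inLat_neg h.hb, ?_, ?_⟩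
  · rw [← h.det]; ring
  · intro y1 y2 hy
    obtain ⟨m, n, e1, e2⟩ := h.span y1 y2 hy
    exact ⟨m, -n, by rw [e1]; ring, by rw [e2]; ring⟩

theorem Bas.shear {q : ℕ} {v1 v2 a1 a2 b1 b2 : ℤ} (h : Bas q v1 v2 a1 a2 b1 b2) (c : ℤ) :
    Bas q v1 v2 a1 a2 (b1 + c * a1) (b2 + c * a2) := by
  refine ⟨h.ha, inLat_add h.hb (inLat_smul c h.ha), ?_, ?_⟩
  · rw [← h.det]; ring
  · intro y1 y2 hy
    obtain ⟨m, n, e1, e2⟩ := h.span y1 y2 hy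
    exact ⟨m - n * c, n, by rw [e1]; ring, by rw [e2]; ring⟩

theorem exists_bas {q : ℕ} {v1 v2 : ℤ} (hA : Adm q v1 v2) :
    ∃ a1 a2 b1 b2, Bas q v1 v2 a1 a2 b1 b2 := by
  obtain ⟨a, b, hab⟩ := hA.c1
  refine ⟨1, a * v2, 0, q, ?_, ?_, ?_, ?_⟩
  · refine ⟨-b * v2, ?_⟩
    linear_combination v2 * hab
  · exact ⟨v1, by ring⟩
  · ring
  · rintro y1 y2 ⟨k, hk⟩
    refine ⟨y1, a * k + b * y2, by ring, ?_⟩
    linear_combination -y2 * hab + a * hk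

theorem reduced_basis {q : ℕ} {v1 v2 : ℤ} (hA : Adm q v1 v2) :
    ∃ a1 a2 b1 b2, RB q v1 v2 a1 a2 b1 b2 := by
  classical
  -- a basis with minimal `Nf a + Nf b`
  have hex : ∃ n : ℕ, ∃ a1 a2 b1 b2, Bas q v1 v2 a1 a2 b1 b2 ∧ Nf a1 a2 + Nf b1 b2 = n := by
    obtain ⟨a1, a2, b1, b2, h⟩ := exists_bas hA
    obtain ⟨n, hn⟩ := Int.eq_ofNat_of_zero_le (add_nonneg (Nf_nonneg' a1 a2) (Nf_nonneg' b1 b2))
    exact ⟨n, a1, a2, b1, b2, h, hn⟩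
  obtain ⟨a1, a2, b1, b2, h, hn⟩ := Nat.find_spec hex
  have hmin : ∀ c1 c2 d1 d2, Bas q v1 v2 c1 c2 d1 d2 →
      Nf a1 a2 + Nf b1 b2 ≤ Nf c1 c2 + Nf d1 d2 := by
    intro c1 c2 d1 d2 h'
    obtain ⟨n, hn'⟩ := Int.eq_ofNat_of_zero_le (add_nonneg (Nf_nonneg' c1 c2) (Nf_nonneg' d1 d2))
    have h1 := Nat.find_min' hex ⟨c1, c2, d1, d2, h', hn'⟩
    rw [hn, hn']
    exact_mod_cast h1
  have main : ∀ a1 a2 b1 b2, Bas q v1 v2 a1 a2 b1 b2 →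
      (∀ c1 c2 d1 d2, Bas q v1 v2 c1 c2 d1 d2 → Nf a1 a2 + Nf b1 b2 ≤ Nf c1 c2 + Nf d1 d2) →
      Nf a1 a2 ≤ Nf b1 b2 → ∃ a1 a2 b1 b2, RB q v1 v2 a1 a2 b1 b2 := by
    clear hmin h hn
    intro a1 a2 b1 b2 h hmin hle
    have hpos : 0 < Nf a1 a2 := by
      rcases (Nf_nonneg' a1 a2).eq_or_lt with h0 | h0
      · exfalso
        obtain ⟨r1, r2⟩ := Nf_eq_zero' h0.symm
        have hd := h.det
        rw [r1, r2] at hd
        have : (q : ℤ) ^ 2 = 0 := by rw [← hd]; ring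
        have hq : (q : ℤ) = 0 := by simpa using this
        have := hA.pos
        omega
      · exact h0
    have k1 := hmin _ _ _ _ (h.shear 1)
    have k2 := hmin _ _ _ _ (h.shear (-1))
    have e1 : Nf (b1 + 1 * a1) (b2 + 1 * a2) = Nf a1 a2 + Bf a1 a2 b1 b2 + Nf b1 b2 := by
      unfold Nf Bf; ring
    have e2 : Nf (b1 + -1 * a1) (b2 + -1 * a2) = Nf a1 a2 - Bf a1 a2 b1 b2 + Nf b1 b2 := by
      unfold Nf Bf; ring
    rw [e1] at k1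
    rw [e2] at k2
    rcases le_total 0 (Bf a1 a2 b1 b2) with hB | hB
    · exact ⟨a1, a2, b1, b2, h.ha, h.hb, h.det, hB, by linarith, hle, hpos, h.span⟩
    · have h' := h.neg
      have e3 : Bf a1 a2 (-b1) (-b2) = -Bf a1 a2 b1 b2 := by unfold Bf; ring
      have e4 : Nf (-b1) (-b2) = Nf b1 b2 := by unfold Nf; ring
      exact ⟨a1, a2, -b1, -b2, h'.ha, h'.hb, h'.det, by rw [e3]; linarith, by rw [e3]; linarith,
        by rw [e4]; exact hle, hpos, h'.span⟩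
  rcases le_total (Nf a1 a2) (Nf b1 b2) with hle | hle
  · exact main _ _ _ _ h hmin hle
  · exact main _ _ _ _ h.swap (fun c1 c2 d1 d2 h' => by
      have := hmin c1 c2 d1 d2 h'; linarith) hle

/-- a vector of `Λ` in `2 A₂` is twice a vector of `Λ`, so primitive vectors are not even -/
theorem RB.mt {q : ℕ} {v1 v2 a1 a2 b1 b2 : ℤ} (hA : Adm q v1 v2) (h : RB q v1 v2 a1 a2 b1 b2)
    {m n : ℤ} (hmn : ¬ (Even m ∧ Even n)) : MT (m * a1 + n * b1) (m * a2 + n * b2) := by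
  rintro ⟨he1, he2⟩
  obtain ⟨z1, hz1⟩ := he1
  obtain ⟨z2, hz2⟩ := he2
  have hy : inLat q v1 v2 (m * a1 + n * b1) (m * a2 + n * b2) :=
    inLat_add (inLat_smul m h.ha) (inLat_smul n h.hb)
  have hc : IsCoprime (q : ℤ) 2 := by
    have h1 : Nat.Coprime q 2 := (Nat.coprime_two_right).2 hA.odd
    exact_mod_cast Nat.isCoprime_iff_coprime.2 h1
  have hz : inLat q v1 v2 z1 z2 := by
    unfold inLat at *
    rw [hz1, hz2] at hy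
    refine hc.dvd_of_dvd_mul_left (?_ : (q : ℤ) ∣ 2 * (v1 * z2 - v2 * z1))
    rwa [show 2 * (v1 * z2 - v2 * z1) = v1 * (z2 + z2) - v2 * (z1 + z1) by ring]
  obtain ⟨m', n', f1, f2⟩ := h.span z1 z2 hz
  have hdet : a1 * b2 - a2 * b1 ≠ 0 := by
    intro h0
    have hd := h.det
    rw [h0] at hd
    have : (q : ℤ) ^ 2 = 0 := by rw [← hd]; ring
    have hq : (q : ℤ) = 0 := by simpa using this
    have := hA.pos
    omega
  have g1 : (m - 2 * m') * a1 + (n - 2 * n') * b1 = 0 := by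
    linear_combination hz1 + 2 * f1
  have g2 : (m - 2 * m') * a2 + (n - 2 * n') * b2 = 0 := by
    linear_combination hz2 + 2 * f2
  have g3 : (m - 2 * m') * (a1 * b2 - a2 * b1) = 0 := by linear_combination b2 * g1 - b1 * g2
  have g4 : (n - 2 * n') * (a1 * b2 - a2 * b1) = 0 := by linear_combination a1 * g2 - a2 * g1
  have g5 : m - 2 * m' = 0 := (mul_eq_zero.1 g3).resolve_right hdet
  have g6 : n - 2 * n' = 0 := (mul_eq_zero.1 g4).resolve_right hdet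
  exact hmn ⟨⟨m', by linarith⟩, ⟨n', by linarith⟩⟩

theorem Adm.not_of_dvd {q : ℕ} {y N : ℤ} (h0 : 0 < N) (h : N < (q : ℤ) ^ 2)
    (hd : (q : ℤ) ∣ y) (hN : N = y ^ 2) : False := by
  obtain ⟨k, rfl⟩ := hd
  rw [hN] at h h0
  have hk : k ≠ 0 := by rintro rfl; simp at h0
  have h1 : 1 ≤ k ^ 2 := by
    have : 0 < k ^ 2 := by positivity
    omega
  nlinarith [sq_nonneg (q : ℤ)]

/-- short vectors of `Λ` have non zero coordinates -/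
theorem coord_ne_zero {q : ℕ} {v1 v2 y1 y2 : ℤ} (hA : Adm q v1 v2) (hy : inLat q v1 v2 y1 y2)
    (h0 : 0 < Nf y1 y2) (h : Nf y1 y2 < (q : ℤ) ^ 2) : y1 ≠ 0 ∧ y2 ≠ 0 ∧ y1 + y2 ≠ 0 := by
  unfold inLat at hy
  refine ⟨?_, ?_, ?_⟩
  · rintro rfl
    refine Adm.not_of_dvd h0 h (hA.c1.symm.dvd_of_dvd_mul_left (z := y2) ?_) (by unfold Nf; ring)
    simpa using hy
  · rintro rfl
    refine Adm.not_of_dvd h0 h (hA.c2.symm.dvd_of_dvd_mul_left (z := y1) ?_) (by unfold Nf; ring)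
    simpa using hy
  · intro h2
    have e : y2 = -y1 := by linarith
    subst e
    refine Adm.not_of_dvd h0 h (hA.c3.symm.dvd_of_dvd_mul_left (z := y1) ?_) (by unfold Nf; ring)
    have := (dvd_neg (α := ℤ)).2 hy
    rwa [show -(v1 * -y1 - v2 * y1) = (v1 + v2) * y1 by ring] at this

/-! ### Equality of the lattices -/

/-- equality of lattices (after permutation) gives the conclusion -/
theorem equiv3_of_lat {q : ℕ} {v1 v2 w1 w2 : ℤ} (hA : Adm q v1 v2) (_hA' : Adm q w1 w2) (i : Fin 6)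
    (h : inLat q (pm i v1 v2).1 (pm i v1 v2).2 w1 w2) : Equiv3 q v1 v2 w1 w2 := by
  have hc : IsCoprime (pm i v1 v2).1 (q : ℤ) := by
    have h3 := hA.c3.neg_left
    rw [neg_add'] at h3
    fin_cases i
    · exact hA.c1
    · exact hA.c2
    · exact hA.c1
    · exact h3
    · exact hA.c2
    · exact h3
  obtain ⟨a, b, hab⟩ := hc
  obtain ⟨k, hk⟩ := h
  refine ⟨a * w1, i, ⟨w1 * b, ?_⟩, ⟨a * k + b * w2, ?_⟩⟩
  · linear_combination -w1 * hab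
  · linear_combination -w2 * hab + a * hk

/-- if a vector `a ∈ Λ_v ∩ Λ_w` is not divisible by any prime divisor of `q` then
`Λ_v = Λ_w = ℤ a + q A₂` and `w` is a multiple of `v` -/
theorem eq_of_primitive {q : ℕ} {v1 v2 w1 w2 a1 a2 : ℤ} (hA : Adm q v1 v2) (hA' : Adm q w1 w2)
    (ha : inLat q v1 v2 a1 a2) (ha' : inLat q w1 w2 a1 a2)
    (hp : ∀ p : ℕ, p.Prime → p ∣ q → ¬ ((p : ℤ) ∣ a1 ∧ (p : ℤ) ∣ a2)) :
    Equiv3 q v1 v2 w1 w2 := by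
  refine equiv3_of_lat hA hA' 0 ?_
  have e : pm 0 v1 v2 = (v1, v2) := by simp [pm]
  rw [e]
  change inLat q v1 v2 w1 w2
  unfold inLat at *
  have h1 : (q : ℤ) ∣ a1 * (v1 * w2 - v2 * w1) := by
    have := dvd_sub (ha.mul_left w1) (ha'.mul_left v1)
    rwa [show w1 * (v1 * a2 - v2 * a1) - v1 * (w1 * a2 - w2 * a1) =
      a1 * (v1 * w2 - v2 * w1) by ring] at this
  have h2 : (q : ℤ) ∣ a2 * (v1 * w2 - v2 * w1) := by
    have := dvd_sub (ha.mul_left w2) (ha'.mul_left v2)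
    rwa [show w2 * (v1 * a2 - v2 * a1) - v2 * (w1 * a2 - w2 * a1) =
      a2 * (v1 * w2 - v2 * w1) by ring] at this
  have hc : Nat.Coprime (Int.gcd a1 a2) q := by
    by_contra hcon
    obtain ⟨p, hpp, hpd⟩ := Nat.exists_prime_and_dvd hcon
    have hd1 : p ∣ Int.gcd a1 a2 := hpd.trans (Nat.gcd_dvd_left _ _)
    have hd2 : p ∣ q := hpd.trans (Nat.gcd_dvd_right _ _)
    have hd1' : (p : ℤ) ∣ (Int.gcd a1 a2 : ℤ) := by exact_mod_cast hd1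
    exact hp p hpp hd2 ⟨hd1'.trans (Int.gcd_dvd_left ..), hd1'.trans (Int.gcd_dvd_right ..)⟩
  have hc' : IsCoprime (q : ℤ) (Int.gcd a1 a2 : ℤ) :=
    (Nat.isCoprime_iff_coprime.2 hc).symm
  refine hc'.dvd_of_dvd_mul_left ?_
  rw [Int.gcd_eq_gcd_ab]
  have := dvd_add (h1.mul_left (Int.gcdA a1 a2)) (h2.mul_left (Int.gcdB a1 a2))
  rwa [show Int.gcdA a1 a2 * (a1 * (v1 * w2 - v2 * w1)) +
    Int.gcdB a1 a2 * (a2 * (v1 * w2 - v2 * w1)) =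
    (a1 * Int.gcdA a1 a2 + a2 * Int.gcdB a1 a2) * (v1 * w2 - v2 * w1) by ring] at this

/-- otherwise `Nf a ≥ 27` -/
theorem Nf_ge_of_not_primitive {q : ℕ} {v1 v2 a1 a2 : ℤ} (hA : Adm q v1 v2)
    (ha : inLat q v1 v2 a1 a2) (h0 : 0 < Nf a1 a2) (h : Nf a1 a2 < (q : ℤ) ^ 2) {p : ℕ}
    (hp : p.Prime) (hpq : p ∣ q) (hpa : (p : ℤ) ∣ a1 ∧ (p : ℤ) ∣ a2) : 27 ≤ Nf a1 a2 := by
  have hc := coord_ne_zero hA ha h0 h
  have hp2 : p ≠ 2 := by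
    rintro rfl
    have := hA.odd
    rw [Nat.odd_iff] at this
    omega
  have hp3 : 3 ≤ p := by
    have := hp.two_le
    omega
  obtain ⟨⟨x, rfl⟩, ⟨y, rfl⟩⟩ := hpa
  have e : Nf (p * x) (p * y) = (p : ℤ) ^ 2 * Nf x y := by unfold Nf; ring
  have hp3' : (3 : ℤ) ≤ p := by exact_mod_cast hp3
  have hx : x ≠ 0 := by rintro rfl; simp at hc
  have hy : y ≠ 0 := by rintro rfl; simp at hc
  have hxy : x + y ≠ 0 := by
    intro h2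
    apply hc.2.2
    rw [← mul_add, h2, mul_zero]
  have hN : 3 ≤ Nf x y := by
    by_contra hcon
    push Not at hcon
    have n1 := sg_Nf1 x y
    have n2 := sg_Nf2 x y
    have n3 := sg_Nf3 x y
    have b1 : x ^ 2 ≤ 2 := by nlinarith [sq_nonneg (x + 2 * y)]
    have b2 : y ^ 2 ≤ 2 := by nlinarith [sq_nonneg (2 * x + y)]
    have c1 : x = 1 ∨ x = -1 := by
      have : -2 < x := by nlinarith
      have : x < 2 := by nlinarith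
      omega
    have c2 : y = 1 ∨ y = -1 := by
      have : -2 < y := by nlinarith
      have : y < 2 := by nlinarith
      omega
    rcases c1 with rfl | rfl <;> rcases c2 with rfl | rfl <;> simp [Nf] at hcon hxy
  rw [e]
  nlinarith

/-! ### Permuting the lattice -/

theorem inLat_pm {q : ℕ} {v1 v2 : ℤ} (i : Fin 6) (y1 y2 : ℤ) :
    inLat q (pm i v1 v2).1 (pm i v1 v2).2 (pm i y1 y2).1 (pm i y1 y2).2 ↔ inLat q v1 v2 y1 y2 := by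
  have h : (pm i v1 v2).1 * (pm i y1 y2).2 - (pm i v1 v2).2 * (pm i y1 y2).1 =
      v1 * y2 - v2 * y1 ∨ (pm i v1 v2).1 * (pm i y1 y2).2 - (pm i v1 v2).2 * (pm i y1 y2).1 =
      -(v1 * y2 - v2 * y1) := by
    fin_cases i
    · left; simp [pm]
    · right; simp [pm]
    · right; simp [pm]; ring
    · left; simp [pm]; ring
    · left; simp [pm]; ring
    · right; simp [pm]; ring
  unfold inLat
  rcases h with h | h
  · rw [h]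
  · rw [h, dvd_neg]

theorem Adm_pm {q : ℕ} {v1 v2 : ℤ} (hA : Adm q v1 v2) (i : Fin 6) :
    Adm q (pm i v1 v2).1 (pm i v1 v2).2 := by
  have h3 := hA.c3.neg_left
  rw [neg_add'] at h3
  have e1 : v1 + (-v1 - v2) = -v2 := by ring
  have e2 : -v1 - v2 + v1 = -v2 := by ring
  have e3 : v2 + (-v1 - v2) = -v1 := by ring
  have e4 : -v1 - v2 + v2 = -v1 := by ring
  fin_cases i
  · exact hA
  · exact ⟨hA.pos, hA.odd, hA.c2, hA.c1, by have := hA.c3; rwa [add_comm] at this⟩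
  · exact ⟨hA.pos, hA.odd, hA.c1, h3, by
      change IsCoprime (v1 + (-v1 - v2)) _; rw [e1]; exact hA.c2.neg_left⟩
  · exact ⟨hA.pos, hA.odd, h3, hA.c1, by
      change IsCoprime (-v1 - v2 + v1) _; rw [e2]; exact hA.c2.neg_left⟩
  · exact ⟨hA.pos, hA.odd, hA.c2, h3, by
      change IsCoprime (v2 + (-v1 - v2)) _; rw [e3]; exact hA.c1.neg_left⟩
  · exact ⟨hA.pos, hA.odd, h3, hA.c2, by
      change IsCoprime (-v1 - v2 + v2) _; rw [e4]; exact hA.c1.neg_left⟩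

theorem Nf_pm (i : Fin 6) (y1 y2 : ℤ) : Nf (pm i y1 y2).1 (pm i y1 y2).2 = Nf y1 y2 :=
  (sg_pm_inv i y1 y2).1

theorem roots_pm (i : Fin 6) (v1 v2 e : ℤ) :
    (e ∣ (pm i v1 v2).1 - (pm i v1 v2).2 ∨ e ∣ (pm i v1 v2).1 + 2 * (pm i v1 v2).2 ∨
      e ∣ 2 * (pm i v1 v2).1 + (pm i v1 v2).2) ↔
    (e ∣ v1 - v2 ∨ e ∣ v1 + 2 * v2 ∨ e ∣ 2 * v1 + v2) := by
  have k : ∀ a b : ℤ, a = -b → (e ∣ a ↔ e ∣ b) := by rintro a b rfl; exact dvd_neg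
  have k' : ∀ a b : ℤ, a = b → (e ∣ a ↔ e ∣ b) := by rintro a b rfl; exact Iff.rfl
  fin_cases i
  · exact Iff.rfl
  · change (e ∣ v2 - v1 ∨ e ∣ v2 + 2 * v1 ∨ e ∣ 2 * v2 + v1) ↔ _
    rw [k (v2 - v1) (v1 - v2) (by ring), k' (v2 + 2 * v1) (2 * v1 + v2) (by ring),
      k' (2 * v2 + v1) (v1 + 2 * v2) (by ring)]
    tauto
  · change (e ∣ v1 - (-v1 - v2) ∨ e ∣ v1 + 2 * (-v1 - v2) ∨ e ∣ 2 * v1 + (-v1 - v2)) ↔ _
    rw [k' (v1 - (-v1 - v2)) (2 * v1 + v2) (by ring), k (v1 + 2 * (-v1 - v2)) (v1 + 2 * v2) (by ring),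
      k' (2 * v1 + (-v1 - v2)) (v1 - v2) (by ring)]
    tauto
  · change (e ∣ (-v1 - v2) - v1 ∨ e ∣ (-v1 - v2) + 2 * v1 ∨ e ∣ 2 * (-v1 - v2) + v1) ↔ _
    rw [k ((-v1 - v2) - v1) (2 * v1 + v2) (by ring), k' ((-v1 - v2) + 2 * v1) (v1 - v2) (by ring),
      k (2 * (-v1 - v2) + v1) (v1 + 2 * v2) (by ring)]
    tauto
  · change (e ∣ v2 - (-v1 - v2) ∨ e ∣ v2 + 2 * (-v1 - v2) ∨ e ∣ 2 * v2 + (-v1 - v2)) ↔ _
    rw [k' (v2 - (-v1 - v2)) (v1 + 2 * v2) (by ring), k (v2 + 2 * (-v1 - v2)) (2 * v1 + v2) (by ring),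
      k (2 * v2 + (-v1 - v2)) (v1 - v2) (by ring)]
    tauto
  · change (e ∣ (-v1 - v2) - v2 ∨ e ∣ (-v1 - v2) + 2 * v2 ∨ e ∣ 2 * (-v1 - v2) + v2) ↔ _
    rw [k ((-v1 - v2) - v2) (v1 + 2 * v2) (by ring), k ((-v1 - v2) + 2 * v2) (v1 - v2) (by ring),
      k (2 * (-v1 - v2) + v2) (2 * v1 + v2) (by ring)]
    tauto

theorem SameWalls_pm {q : ℕ} {v1 v2 w1 w2 : ℤ} (h : SameWalls q v1 v2 w1 w2) (i : Fin 6) :
    SameWalls q (pm i v1 v2).1 (pm i v1 v2).2 w1 w2 := by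
  intro e he he3
  rw [roots_pm]
  exact h e he he3

theorem Regu_pm {q : ℕ} (i : Fin 6) (y1 y2 : ℤ) :
    Regu q (pm i y1 y2).1 (pm i y1 y2).2 ↔ Regu q y1 y2 := by
  have h := roots_pm i y1 y2 q
  unfold Regu
  rw [← not_or, ← not_or, ← not_or, ← not_or, h]

/-- an inverse of `pm i` -/
theorem pm_inverse (i : Fin 6) : ∃ j : Fin 6, ∀ y1 y2 : ℤ,
    pm i (pm j y1 y2).1 (pm j y1 y2).2 = (y1, y2) ∧ pm j (pm i y1 y2).1 (pm i y1 y2).2 = (y1, y2) := by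
  fin_cases i
  · exact ⟨0, fun y1 y2 => by simp [pm]⟩
  · exact ⟨1, fun y1 y2 => by simp [pm]⟩
  · exact ⟨2, fun y1 y2 => by simp [pm]⟩
  · exact ⟨4, fun y1 y2 => by simp [pm]; ring⟩
  · exact ⟨3, fun y1 y2 => by simp [pm]; ring⟩
  · exact ⟨5, fun y1 y2 => by simp [pm]⟩

theorem SL_pm (q : ℕ) (v1 v2 : ℤ) (i : Fin 6) (k : ℕ) :
    SL q (pm i v1 v2).1 (pm i v1 v2).2 k = SL q v1 v2 k := by
  classical
  obtain ⟨j, hj⟩ := pm_inverse i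
  unfold SL
  symm
  refine Finset.sum_bij' (fun y _ => pm i y.1 y.2) (fun y _ => pm j y.1 y.2) ?_ ?_ ?_ ?_ ?_
  · intro y hy
    rw [Finset.mem_filter] at hy ⊢
    obtain ⟨h1, h2, h3⟩ := hy
    refine ⟨?_, (inLat_pm i _ _).2 h2, (Regu_pm i _ _).2 h3⟩
    have h4 := sg_mem_boxN.1 h1
    exact sg_mem_boxN.2 ((Nf_pm i _ _).trans h4)
  · intro y hy
    rw [Finset.mem_filter] at hy ⊢
    obtain ⟨h1, h2, h3⟩ := hy
    have e := (hj y.1 y.2).1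
    refine ⟨?_, ?_, ?_⟩
    · have h4 := sg_mem_boxN.1 h1
      exact sg_mem_boxN.2 ((Nf_pm j _ _).trans h4)
    · rw [← inLat_pm (q := q) (v1 := v1) (v2 := v2) i, e]; exact h2
    · rw [← Regu_pm i, e]; exact h3
  · intro y _
    exact (hj y.1 y.2).2
  · intro y _
    exact (hj y.1 y.2).1
  · intro y _
    exact Bt_invariant ⟨i, Or.inl rfl⟩

theorem pm_pm (i j : Fin 6) : ∃ k : Fin 6, ∀ v1 v2 : ℤ,
    pm j (pm i v1 v2).1 (pm i v1 v2).2 = pm k v1 v2 := by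
  refine ⟨(![![0, 1, 2, 3, 4, 5], ![1, 0, 4, 5, 2, 3], ![2, 3, 0, 1, 5, 4], ![3, 2, 5, 4, 0, 1],
    ![4, 5, 1, 0, 3, 2], ![5, 4, 3, 2, 1, 0]] : Fin 6 → Fin 6 → Fin 6) i j, fun v1 v2 => ?_⟩
  fin_cases i <;> fin_cases j <;> simp [pm] <;> ring_nf

/-- conclusion for a permuted `v` -/
theorem equiv3_pm {q : ℕ} {v1 v2 w1 w2 : ℤ} (i : Fin 6)
    (h' : Equiv3 q (pm i v1 v2).1 (pm i v1 v2).2 w1 w2) : Equiv3 q v1 v2 w1 w2 := by
  obtain ⟨u, j, h1, h2⟩ := h'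
  obtain ⟨k, hk⟩ := pm_pm i j
  rw [hk] at h1 h2
  exact ⟨u, k, h1, h2⟩

theorem equiv3_symm {q : ℕ} {v1 v2 w1 w2 : ℤ} (hA : Adm q v1 v2) (hA' : Adm q w1 w2)
    (h : Equiv3 q v1 v2 w1 w2) : Equiv3 q w1 w2 v1 v2 := by
  obtain ⟨u, i, h1, h2⟩ := h
  obtain ⟨j, hj⟩ := pm_inverse i
  refine equiv3_of_lat hA' hA j ?_
  rw [← inLat_pm i, (hj w1 w2).1]
  change inLat q w1 w2 (pm i v1 v2).1 (pm i v1 v2).2
  unfold inLat
  have := dvd_sub (h1.mul_left (pm i v1 v2).2) (h2.mul_left (pm i v1 v2).1)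
  rwa [show (pm i v1 v2).2 * (w1 - u * (pm i v1 v2).1) - (pm i v1 v2).1 * (w2 - u * (pm i v1 v2).2) =
    w1 * (pm i v1 v2).2 - w2 * (pm i v1 v2).1 by ring] at this

end Pool.Agent.Iso79
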