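import Pool.Agent.Iso79.NTDefs

/-!
# Amplitudes of short vectors

All vectors `y` with `16 Nf y < q²` satisfy `|α(y)| < q/2` for the three root values `α(y)`
(`4 Nf y = (y₁-y₂)² + 3(y₁+y₂)²` etc.).

* `Bt_neg`: if `y` is regular and not all `y_c` are even, exactly one root value is even, and
  `Bt = -1/(sin(π|α|/2q) cos(πβ/2q) cos(πγ/2q)) < 0`.
* `Bt_orbit`: with `e` the index of the even coordinate, `α = y_a - y_b` the even root value,
  `1/|Bt| = (1/2) sin(π|α|/2q) [cos(πα/2q) + cos(3π y_e/2q)]`, and `4 Nf y = α² + 3 y_e²`.  For fixed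
  `Nf y` this is strictly increasing in `|α|` (`sin(πα/2q)cos(πα/2q) = sin(πα/q)/2` increases for
  `α < q/2`; `|y_e|` decreases and `cos(3π y_e/2q) ≥ 0` increases since `3 y_e² ≤ 4 Nf y < q²/4`,
  `|y_e| < q/3`).  So `Bt y = Bt y'` and `Nf y = Nf y'` give `|α| = |α'|`, `|y_e| = |y'_e|`, and `y'`
  is `±` a permutation of `y`.
* walls: a short vector with a root value divisible by `q` has this root value `0`, so it is
  `± k (1,1,-2)` up to permutation, `Nf = 3 k²`; it is in `Λ` iff `q ∣ k α(v)` for the corresponding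
  root, iff `q/gcd(q,k) ∣ α(v)`; as `3k² · 16 < q²`, `e = q/gcd(q,k) > 3`, and at most one root value
  of `v` is divisible by `e` (`e ∣ α(v), β(v)` implies `e ∣ 3 v_1`, `e ∣ 3`).
-/

open Complex

noncomputable section

namespace Pool.Agent.Iso79

/-- `z` is `±` a permutation of `y` -/
def Orb (y1 y2 z1 z2 : ℤ) : Prop :=
  ∃ i : Fin 6, (z1, z2) = pm i y1 y2 ∨ (-z1, -z2) = pm i y1 y2

/-- some root value is zero -/
def Wall (y1 y2 : ℤ) : Prop := y1 - y2 = 0 ∨ y1 + 2 * y2 = 0 ∨ 2 * y1 + y2 = 0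

/-- not all coordinates are even -/
def MT (y1 y2 : ℤ) : Prop := ¬ (Even y1 ∧ Even y2)

/-! ### Orbits -/

theorem sg_orb_of_eq {y1 y2 z1 z2 : ℤ} (hN : Nf y1 y2 = Nf z1 z2)
    (hE : y1 * y2 * (y1 + y2) = z1 * z2 * (z1 + z2)) : ∃ i : Fin 6, (z1, z2) = pm i y1 y2 := by
  unfold Nf at hN
  have h1 : (z1 - y1) * ((z1 - y2) * (z1 + y1 + y2)) = 0 := by
    have : (z1 - y1) * ((z1 - y2) * (z1 + y1 + y2)) =
      z1 ^ 3 - z1 * (y1 ^ 2 + y1 * y2 + y2 ^ 2) + y1 * y2 * (y1 + y2) := by ring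
    rw [this, hN, hE]; ring
  rcases mul_eq_zero.1 h1 with h | h
  · have hz : z1 = y1 := by linarith
    subst hz
    have h2 : (z2 - y2) * (z2 + y2 + z1) = 0 := by linear_combination -hN
    rcases mul_eq_zero.1 h2 with h' | h'
    · exact ⟨0, by simp [pm]; linarith⟩
    · exact ⟨2, by simp [pm]; linarith⟩
  · rcases mul_eq_zero.1 h with h | h
    · have hz : z1 = y2 := by linarith
      subst hz
      have h2 : (z2 - y1) * (z2 + y1 + z1) = 0 := by linear_combination -hN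
      rcases mul_eq_zero.1 h2 with h' | h'
      · exact ⟨1, by simp [pm]; linarith⟩
      · exact ⟨4, by simp [pm]; linarith⟩
    · have hz : z1 = -y1 - y2 := by linarith
      subst hz
      have h2 : (z2 - y1) * (z2 - y2) = 0 := by linear_combination -hN
      rcases mul_eq_zero.1 h2 with h' | h'
      · exact ⟨3, by simp [pm]; linarith⟩
      · exact ⟨5, by simp [pm]; linarith⟩

theorem sg_pm_inv (i : Fin 6) (y1 y2 : ℤ) :
    Nf (pm i y1 y2).1 (pm i y1 y2).2 = Nf y1 y2 ∧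
    (pm i y1 y2).1 * (pm i y1 y2).2 * ((pm i y1 y2).1 + (pm i y1 y2).2) =
      y1 * y2 * (y1 + y2) := by
  fin_cases i <;> simp [pm, Nf] <;> constructor <;> ring

theorem Orb_iff {y1 y2 z1 z2 : ℤ} : Orb y1 y2 z1 z2 ↔ Nf y1 y2 = Nf z1 z2 ∧
    (y1 * y2 * (y1 + y2)) ^ 2 = (z1 * z2 * (z1 + z2)) ^ 2 := by
  constructor
  · rintro ⟨i, h | h⟩
    · have h1 := sg_pm_inv i y1 y2
      rw [← h] at h1
      exact ⟨h1.1.symm, by rw [h1.2]⟩
    · have h1 := sg_pm_inv i y1 y2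
      rw [← h] at h1
      refine ⟨?_, ?_⟩
      · rw [← h1.1]; simp only [Nf]; ring
      · rw [← h1.2]; ring
  · rintro ⟨h1, h2⟩
    rcases sq_eq_sq_iff_eq_or_eq_neg.1 h2 with h | h
    · obtain ⟨i, hi⟩ := sg_orb_of_eq h1 h
      exact ⟨i, Or.inl hi⟩
    · have h3 : Nf y1 y2 = Nf (-z1) (-z2) := by rw [h1]; simp only [Nf]; ring
      have h4 : y1 * y2 * (y1 + y2) = (-z1) * (-z2) * ((-z1) + (-z2)) := by rw [h]; ring
      obtain ⟨i, hi⟩ := sg_orb_of_eq h3 h4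
      exact ⟨i, Or.inr hi⟩

theorem Orb.symm {y1 y2 z1 z2 : ℤ} (h : Orb y1 y2 z1 z2) : Orb z1 z2 y1 y2 := by
  rw [Orb_iff] at *; exact ⟨h.1.symm, h.2.symm⟩

theorem Orb.trans {y1 y2 z1 z2 x1 x2 : ℤ} (h : Orb y1 y2 z1 z2) (h' : Orb z1 z2 x1 x2) :
    Orb y1 y2 x1 x2 := by
  rw [Orb_iff] at *; exact ⟨h.1.trans h'.1, h.2.trans h'.2⟩

/-! ### Short vectors -/

theorem sg_Nf1 (y1 y2 : ℤ) : 4 * Nf y1 y2 = (y1 - y2) ^ 2 + 3 * (y1 + y2) ^ 2 := by
  simp only [Nf]; ring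

theorem sg_Nf2 (y1 y2 : ℤ) : 4 * Nf y1 y2 = (y1 + 2 * y2) ^ 2 + 3 * y1 ^ 2 := by
  simp only [Nf]; ring

theorem sg_Nf3 (y1 y2 : ℤ) : 4 * Nf y1 y2 = (2 * y1 + y2) ^ 2 + 3 * y2 ^ 2 := by
  simp only [Nf]; ring

theorem short_abs {q : ℕ} {a c N : ℤ} (h : 16 * N < (q : ℤ) ^ 2) (h4 : 4 * N = a ^ 2 + 3 * c ^ 2) :
    2 * |a| < q := by
  have h1 : (2 * |a|) ^ 2 < (q : ℤ) ^ 2 := by
    rw [mul_pow, sq_abs]; nlinarith [sq_nonneg c]
  exact lt_of_pow_lt_pow_left₀ 2 (by positivity) h1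

theorem short_abs3 {q : ℕ} {a c N : ℤ} (h : 16 * N < (q : ℤ) ^ 2)
    (h4 : 4 * N = a ^ 2 + 3 * c ^ 2) : 3 * |c| < q := by
  have h1 : (3 * |c|) ^ 2 < (q : ℤ) ^ 2 := by
    rw [mul_pow, sq_abs]; nlinarith [sq_nonneg a, sq_nonneg c]
  exact lt_of_pow_lt_pow_left₀ 2 (by positivity) h1

theorem sg_dvd_iff_zero {q : ℕ} {a : ℤ} (h : 2 * |a| < q) : (q : ℤ) ∣ a ↔ a = 0 := by
  constructor
  · intro hd
    by_contra h0
    have := Int.le_of_dvd (abs_pos.2 h0) ((dvd_abs _ _).2 hd)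
    have : 0 < |a| := abs_pos.2 h0
    linarith
  · rintro rfl; exact dvd_zero _

theorem regu_iff {q : ℕ} {y1 y2 : ℤ} (h : 16 * Nf y1 y2 < (q : ℤ) ^ 2) :
    Regu q y1 y2 ↔ ¬ Wall y1 y2 := by
  unfold Regu Wall
  rw [sg_dvd_iff_zero (short_abs h (sg_Nf1 y1 y2)), sg_dvd_iff_zero (short_abs h (sg_Nf2 y1 y2)),
    sg_dvd_iff_zero (short_abs h (sg_Nf3 y1 y2))]
  tauto

/-! ### Trigonometric factors -/

theorem sg_trg_neg (q : ℕ) (d : ℤ) : trg q (-d) = trg q d := by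
  unfold trg
  simp only [even_neg, Int.sign_neg, Int.cast_neg, mul_neg, neg_div, Real.sin_neg, Real.cos_neg,
    neg_mul, neg_neg]

theorem sg_trg_abs (q : ℕ) (d : ℤ) : trg q d = trg q |d| := by
  rcases abs_choice d with h | h <;> rw [h]
  rw [sg_trg_neg]

theorem qpos_of_short {q : ℕ} {a : ℤ} (h : 2 * |a| < q) : (0 : ℝ) < q := by
  have : (0 : ℤ) < q := lt_of_le_of_lt (by positivity) h
  exact_mod_cast this

theorem sg_ang_lt {q : ℕ} {a : ℤ} (h : 2 * |a| < q) :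
    |Real.pi * a / (2 * q)| < Real.pi / 4 := by
  have hq := qpos_of_short h
  have h2 : 2 * |(a : ℝ)| < q := by exact_mod_cast h
  rw [abs_div, abs_mul, abs_of_pos Real.pi_pos, abs_of_pos (by positivity : (0 : ℝ) < 2 * q),
    div_lt_div_iff₀ (by positivity) (by norm_num)]
  nlinarith [Real.pi_pos]

theorem sg_trg_odd_pos {q : ℕ} {a : ℤ} (h : 2 * |a| < q) (ho : ¬ Even a) : 0 < trg q a := by
  unfold trg
  rw [if_neg ho]
  have h1 := sg_ang_lt h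
  rw [abs_lt] at h1
  apply Real.cos_pos_of_mem_Ioo
  constructor <;> linarith [Real.pi_pos, h1.1, h1.2]

theorem sg_trg_even_eq {q : ℕ} {a : ℤ} (he : Even a) :
    trg q a = Real.sin (Real.pi * |(a : ℝ)| / (2 * q)) := by
  unfold trg
  rw [if_pos he]
  rcases lt_trichotomy a 0 with h | h | h
  · have h' : (a : ℝ) < 0 := by exact_mod_cast h
    rw [Int.sign_eq_neg_one_of_neg h, abs_of_neg h']
    simp only [Int.reduceNeg, Int.cast_neg, Int.cast_one, neg_mul, one_mul, mul_neg, neg_div,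
      Real.sin_neg]
  · subst h; simp
  · have h' : (0 : ℝ) < a := by exact_mod_cast h
    rw [Int.sign_eq_one_of_pos h, abs_of_pos h']
    simp

theorem sg_sin_pos_short {q : ℕ} {a : ℤ} (h : 2 * |a| < q) (h0 : a ≠ 0) :
    0 < Real.sin (Real.pi * |(a : ℝ)| / (2 * q)) := by
  have hq := qpos_of_short h
  have h2 : 2 * |(a : ℝ)| < q := by exact_mod_cast h
  have h3 : (0 : ℝ) < |(a : ℝ)| := abs_pos.2 (by exact_mod_cast h0)
  apply Real.sin_pos_of_pos_of_lt_pi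
  · positivity
  · rw [div_lt_iff₀ (by positivity)]
    nlinarith [Real.pi_pos]

theorem sg_trg_even_pos {q : ℕ} {a : ℤ} (h : 2 * |a| < q) (he : Even a) (h0 : a ≠ 0) :
    0 < trg q a := by
  rw [sg_trg_even_eq he]; exact sg_sin_pos_short h h0

theorem sg_trg_pos {q : ℕ} {a : ℤ} (h : 2 * |a| < q) (h0 : a ≠ 0) : 0 < trg q a := by
  by_cases he : Even a
  · exact sg_trg_even_pos h he h0
  · exact sg_trg_odd_pos h he

theorem Bt_neg {q : ℕ} {y1 y2 : ℤ} (hM : MT y1 y2) (h : 16 * Nf y1 y2 < (q : ℤ) ^ 2)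
    (hw : ¬ Wall y1 y2) : Bt q y1 y2 < 0 := by
  unfold Bt
  rw [if_neg hM]
  unfold Wall at hw
  push Not at hw
  have h1 := sg_trg_pos (short_abs h (sg_Nf1 y1 y2)) hw.1
  have h2 := sg_trg_pos (short_abs h (sg_Nf2 y1 y2)) hw.2.1
  have h3 := sg_trg_pos (short_abs h (sg_Nf3 y1 y2)) hw.2.2
  exact div_neg_of_neg_of_pos (by norm_num) (by positivity)

/-- `Bt` is invariant -/
theorem Bt_invariant {q : ℕ} {y1 y2 z1 z2 : ℤ} (h : Orb y1 y2 z1 z2) :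
    Bt q y1 y2 = Bt q z1 z2 := by
  have hneg : ∀ z1 z2 : ℤ, Bt q (-z1) (-z2) = Bt q z1 z2 := by
    intro z1 z2
    unfold Bt
    have e1 : -z1 - -z2 = -(z1 - z2) := by ring
    have e2 : -z1 + 2 * -z2 = -(z1 + 2 * z2) := by ring
    have e3 : 2 * -z1 + -z2 = -(2 * z1 + z2) := by ring
    rw [e1, e2, e3, sg_trg_neg, sg_trg_neg, sg_trg_neg]
    simp only [even_neg]
  have hperm : ∀ (i : Fin 6) (y1 y2 : ℤ), Bt q (pm i y1 y2).1 (pm i y1 y2).2 = Bt q y1 y2 := by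
    intro i y1 y2
    have hE : (Even (pm i y1 y2).1 ∧ Even (pm i y1 y2).2) ↔ (Even y1 ∧ Even y2) := by
      fin_cases i <;> simp [pm, Int.even_sub] <;> tauto
    unfold Bt
    simp only [hE]
    congr 1
    fin_cases i
    · simp [pm]
    · simp only [pm]
      show trg q (y2 - y1) * trg q (y2 + 2 * y1) * trg q (2 * y2 + y1) = _
      rw [show y2 - y1 = -(y1 - y2) by ring, sg_trg_neg, show y2 + 2 * y1 = 2 * y1 + y2 by ring,
        show 2 * y2 + y1 = y1 + 2 * y2 by ring]; ring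
    · simp only [pm]
      show trg q (y1 - (-y1 - y2)) * trg q (y1 + 2 * (-y1 - y2)) * trg q (2 * y1 + (-y1 - y2)) = _
      rw [show y1 - (-y1 - y2) = 2 * y1 + y2 by ring,
        show y1 + 2 * (-y1 - y2) = -(y1 + 2 * y2) by ring, sg_trg_neg,
        show 2 * y1 + (-y1 - y2) = y1 - y2 by ring]; ring
    · simp only [pm]
      show trg q (-y1 - y2 - y1) * trg q (-y1 - y2 + 2 * y1) * trg q (2 * (-y1 - y2) + y1) = _
      rw [show -y1 - y2 - y1 = -(2 * y1 + y2) by ring, sg_trg_neg,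
        show -y1 - y2 + 2 * y1 = y1 - y2 by ring,
        show 2 * (-y1 - y2) + y1 = -(y1 + 2 * y2) by ring, sg_trg_neg]; ring
    · simp only [pm]
      show trg q (y2 - (-y1 - y2)) * trg q (y2 + 2 * (-y1 - y2)) * trg q (2 * y2 + (-y1 - y2)) = _
      rw [show y2 - (-y1 - y2) = y1 + 2 * y2 by ring,
        show y2 + 2 * (-y1 - y2) = -(2 * y1 + y2) by ring, sg_trg_neg,
        show 2 * y2 + (-y1 - y2) = -(y1 - y2) by ring, sg_trg_neg]; ring
    · simp only [pm]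
      show trg q (-y1 - y2 - y2) * trg q (-y1 - y2 + 2 * y2) * trg q (2 * (-y1 - y2) + y2) = _
      rw [show -y1 - y2 - y2 = -(y1 + 2 * y2) by ring, sg_trg_neg,
        show -y1 - y2 + 2 * y2 = -(y1 - y2) by ring, sg_trg_neg,
        show 2 * (-y1 - y2) + y2 = -(2 * y1 + y2) by ring, sg_trg_neg]; ring
  obtain ⟨i, hi | hi⟩ := h
  · rw [← hperm i y1 y2, ← hi]
  · rw [← hperm i y1 y2, ← hi, hneg]

/-- the function `1/|Bt|` -/
def sg_GG (q : ℕ) (a c : ℤ) : ℝ :=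
  Real.sin (Real.pi * |(a : ℝ)| / (2 * q)) *
    (Real.cos (Real.pi * a / (2 * q)) + Real.cos (3 * Real.pi * c / (2 * q))) / 2

theorem Bt_odd {q : ℕ} {y1 y2 : ℤ} (h1 : ¬ Even y1) (h2 : ¬ Even y2) :
    Bt q y1 y2 = -(sg_GG q (y1 - y2) (y1 + y2))⁻¹ := by
  unfold Bt sg_GG
  have he : Even (y1 - y2) := by
    rw [Int.even_sub]; tauto
  have ho1 : ¬ Even (y1 + 2 * y2) := by
    simp only [Int.even_add, Int.even_mul]; simp; exact Int.not_even_iff_odd.1 h1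
  have ho2 : ¬ Even (2 * y1 + y2) := by
    simp only [Int.even_add, Int.even_mul]; simp; exact Int.not_even_iff_odd.1 h2
  rw [if_neg (fun h => h1 h.1), sg_trg_even_eq he]
  unfold trg
  rw [if_neg ho1, if_neg ho2, add_comm (Real.cos _) (Real.cos _), Real.cos_add_cos]
  have e1 : (3 * Real.pi * ((y1 + y2 : ℤ) : ℝ) / (2 * q) + Real.pi * ((y1 - y2 : ℤ) : ℝ) / (2 * q)) / 2
      = Real.pi * ((2 * y1 + y2 : ℤ) : ℝ) / (2 * q) := by push_cast; ring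
  have e2 : (3 * Real.pi * ((y1 + y2 : ℤ) : ℝ) / (2 * q) - Real.pi * ((y1 - y2 : ℤ) : ℝ) / (2 * q)) / 2
      = Real.pi * ((y1 + 2 * y2 : ℤ) : ℝ) / (2 * q) := by push_cast; ring
  rw [e1, e2, neg_div, one_div]
  congr 2
  ring

theorem sg_GG_lt {q : ℕ} {a c a' c' N : ℤ} (h : 16 * N < (q : ℤ) ^ 2)
    (h1 : 4 * N = a ^ 2 + 3 * c ^ 2) (h2 : 4 * N = a' ^ 2 + 3 * c' ^ 2) (hlt : |a| < |a'|) :
    sg_GG q a c < sg_GG q a' c' := by
  have hs := short_abs h h1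
  have hs' := short_abs h h2
  have ht := short_abs3 h h1
  have ht' := short_abs3 h h2
  have hcc : |c'| < |c| := by
    have h3 : a ^ 2 < a' ^ 2 := sq_lt_sq.2 hlt
    exact sq_lt_sq.1 (by linarith)
  have hq := qpos_of_short hs
  have hpi := Real.pi_pos
  have r1 : 2 * |(a' : ℝ)| < q := by exact_mod_cast hs'
  have r2 : |(a : ℝ)| < |(a' : ℝ)| := by exact_mod_cast hlt
  have r3 : 3 * |(c : ℝ)| < q := by exact_mod_cast ht
  have r4 : |(c' : ℝ)| < |(c : ℝ)| := by exact_mod_cast hcc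
  have key : ∀ a c : ℤ, sg_GG q a c = (Real.sin (2 * (Real.pi * |(a : ℝ)| / (2 * q))) / 2 +
      Real.sin (Real.pi * |(a : ℝ)| / (2 * q)) * Real.cos (3 * Real.pi * |(c : ℝ)| / (2 * q))) / 2 := by
    intro a c
    unfold sg_GG
    rw [Real.sin_two_mul]
    have e1 : Real.cos (Real.pi * a / (2 * q)) = Real.cos (Real.pi * |(a : ℝ)| / (2 * q)) := by
      rw [← Real.cos_abs, abs_div, abs_mul, abs_of_pos hpi,
        abs_of_pos (by positivity : (0 : ℝ) < 2 * q)]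
    have e2 : Real.cos (3 * Real.pi * c / (2 * q)) =
        Real.cos (3 * Real.pi * |(c : ℝ)| / (2 * q)) := by
      rw [← Real.cos_abs, abs_div, abs_mul, abs_of_pos (by positivity : 0 < 3 * Real.pi),
        abs_of_pos (by positivity : (0 : ℝ) < 2 * q)]
    rw [e1, e2]; ring
  rw [key, key]
  set s := Real.pi * |(a : ℝ)| / (2 * q) with hsd
  set s' := Real.pi * |(a' : ℝ)| / (2 * q) with hsd'
  set t := 3 * Real.pi * |(c : ℝ)| / (2 * q) with htd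
  set t' := 3 * Real.pi * |(c' : ℝ)| / (2 * q) with htd'
  have hs0 : 0 ≤ s := by positivity
  have ht0 : 0 ≤ t' := by positivity
  have hss : s < s' := by
    apply div_lt_div_of_pos_right _ (by positivity); nlinarith
  have htt : t' < t := by
    apply div_lt_div_of_pos_right _ (by positivity); nlinarith
  have hs4 : s' < Real.pi / 4 := by
    rw [hsd', div_lt_div_iff₀ (by positivity) (by norm_num)]; nlinarith
  have ht2 : t < Real.pi / 2 := by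
    rw [htd, div_lt_div_iff₀ (by positivity) (by norm_num)]; nlinarith
  have a1 : Real.sin (2 * s) < Real.sin (2 * s') :=
    Real.sin_lt_sin_of_lt_of_le_pi_div_two (by linarith) (by linarith) (by linarith)
  have a2 : Real.sin s < Real.sin s' :=
    Real.sin_lt_sin_of_lt_of_le_pi_div_two (by linarith) (by linarith) hss
  have a3 : Real.cos t < Real.cos t' :=
    Real.cos_lt_cos_of_nonneg_of_le_pi_div_two ht0 (by linarith) htt
  have a4 : 0 < Real.cos t := Real.cos_pos_of_mem_Ioo ⟨by linarith, ht2⟩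
  have a5 : 0 ≤ Real.sin s := Real.sin_nonneg_of_nonneg_of_le_pi hs0 (by linarith)
  have a6 : Real.sin s * Real.cos t ≤ Real.sin s' * Real.cos t' :=
    mul_le_mul a2.le a3.le a4.le (by linarith)
  linarith

theorem odd_rep {y1 y2 : ℤ} (hM : MT y1 y2) :
    ∃ z1 z2, Orb y1 y2 z1 z2 ∧ ¬ Even z1 ∧ ¬ Even z2 := by
  unfold MT at hM
  by_cases h1 : Even y1
  · have h2 : ¬ Even y2 := fun h => hM ⟨h1, h⟩
    refine ⟨y2, -y1 - y2, ⟨4, Or.inl rfl⟩, h2, ?_⟩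
    rw [Int.even_sub, even_neg]; tauto
  · by_cases h2 : Even y2
    · refine ⟨y1, -y1 - y2, ⟨2, Or.inl rfl⟩, h1, ?_⟩
      rw [Int.even_sub, even_neg]; tauto
    · exact ⟨y1, y2, ⟨0, Or.inl rfl⟩, h1, h2⟩

theorem Wall_iff_zero {y1 y2 : ℤ} :
    Wall y1 y2 ↔ 27 * (y1 * y2 * (y1 + y2)) ^ 2 = 4 * Nf y1 y2 ^ 3 := by
  have key : 4 * Nf y1 y2 ^ 3 - 27 * (y1 * y2 * (y1 + y2)) ^ 2 =
      ((y1 - y2) * ((y1 + 2 * y2) * (2 * y1 + y2))) ^ 2 := by
    simp only [Nf]; ring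
  unfold Wall
  rw [← mul_eq_zero, ← mul_eq_zero, ← sq_eq_zero_iff, ← key]
  constructor <;> intro h <;> linarith

theorem wall_orbit {y1 y2 z1 z2 : ℤ} (hw : Wall y1 y2) (hw' : Wall z1 z2)
    (hN : Nf y1 y2 = Nf z1 z2) : Orb y1 y2 z1 z2 := by
  rw [Wall_iff_zero] at hw hw'
  rw [Orb_iff]
  refine ⟨hN, ?_⟩
  rw [hN] at hw
  linarith

theorem Wall_orb {y1 y2 z1 z2 : ℤ} (h : Orb y1 y2 z1 z2) : Wall y1 y2 ↔ Wall z1 z2 := by
  rw [Orb_iff] at h
  rw [Wall_iff_zero, Wall_iff_zero, h.1, h.2]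

theorem Bt_orbit {q : ℕ} {y1 y2 z1 z2 : ℤ} (hM : MT y1 y2) (hM' : MT z1 z2)
    (h : 16 * Nf y1 y2 < (q : ℤ) ^ 2) (hN : Nf y1 y2 = Nf z1 z2) (hw : ¬ Wall y1 y2)
    (hw' : ¬ Wall z1 z2) (hB : Bt q y1 y2 = Bt q z1 z2) : Orb y1 y2 z1 z2 := by
  obtain ⟨a1, a2, hoy, ha1, ha2⟩ := odd_rep hM
  obtain ⟨b1, b2, hoz, hb1, hb2⟩ := odd_rep hM'
  have hNy := (Orb_iff.1 hoy).1
  have hNz := (Orb_iff.1 hoz).1
  rw [Bt_invariant hoy, Bt_invariant hoz, Bt_odd ha1 ha2, Bt_odd hb1 hb2, neg_inj, inv_inj] at hB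
  have h' : 16 * Nf y1 y2 < (q : ℤ) ^ 2 := h
  have e1 : 4 * Nf y1 y2 = (a1 - a2) ^ 2 + 3 * (a1 + a2) ^ 2 := by rw [hNy]; exact sg_Nf1 a1 a2
  have e2 : 4 * Nf y1 y2 = (b1 - b2) ^ 2 + 3 * (b1 + b2) ^ 2 := by rw [hN, hNz]; exact sg_Nf1 b1 b2
  have habs : |a1 - a2| = |b1 - b2| := by
    rcases lt_trichotomy |a1 - a2| |b1 - b2| with hlt | heq | hgt
    · exact absurd hB (sg_GG_lt h' e1 e2 hlt).ne
    · exact heq
    · exact absurd hB (sg_GG_lt h' e2 e1 hgt).ne'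
  have hsq : (a1 - a2) ^ 2 = (b1 - b2) ^ 2 := sq_eq_sq_iff_abs_eq_abs _ _ |>.2 habs
  have hsq2 : (a1 + a2) ^ 2 = (b1 + b2) ^ 2 := by linarith
  have hprod : a1 * a2 = b1 * b2 := by linarith [show (a1 + a2) ^ 2 - (a1 - a2) ^ 2 = 4 * (a1 * a2) by ring,
    show (b1 + b2) ^ 2 - (b1 - b2) ^ 2 = 4 * (b1 * b2) by ring]
  have hab : Orb a1 a2 b1 b2 := by
    rw [Orb_iff]
    refine ⟨by rw [← hNy, hN, hNz], ?_⟩
    rw [mul_pow (a1 * a2), mul_pow (b1 * b2), hprod, hsq2]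
  exact (hoy.trans hab).trans hoz.symm

/-! ### Walls -/

/-- a wall vector: `k` times a permutation of `(1, 1, -2)` -/
def sg_wv (t : Fin 3) (k : ℤ) : ℤ × ℤ := ![(k, k), (-2 * k, k), (k, -2 * k)] t

/-- the corresponding root -/
def sg_rt (t : Fin 3) (v1 v2 : ℤ) : ℤ := ![v1 - v2, v1 + 2 * v2, 2 * v1 + v2] t

theorem sg_wall_form {y1 y2 : ℤ} (hw : Wall y1 y2) : ∃ t k, (y1, y2) = sg_wv t k := by
  rcases hw with h | h | h
  · exact ⟨0, y1, by simp [sg_wv]; linarith⟩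
  · exact ⟨1, y2, by simp [sg_wv]; linarith⟩
  · exact ⟨2, y1, by simp [sg_wv]; linarith⟩

theorem sg_wv_wall (t : Fin 3) (k : ℤ) : Wall (sg_wv t k).1 (sg_wv t k).2 := by
  fin_cases t <;> simp [sg_wv, Wall]

theorem sg_wv_Nf (t : Fin 3) (k : ℤ) : Nf (sg_wv t k).1 (sg_wv t k).2 = 3 * k ^ 2 := by
  fin_cases t <;> simp [sg_wv, Nf] <;> ring

theorem sg_wv_inLat (q : ℕ) (v1 v2 : ℤ) (t : Fin 3) (k : ℤ) :
    inLat q v1 v2 (sg_wv t k).1 (sg_wv t k).2 ↔ (q : ℤ) ∣ k * sg_rt t v1 v2 := by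
  unfold inLat
  fin_cases t
  · simp only [sg_wv, sg_rt]
    show (q : ℤ) ∣ v1 * k - v2 * k ↔ (q : ℤ) ∣ k * (v1 - v2)
    rw [show v1 * k - v2 * k = k * (v1 - v2) by ring]
  · simp only [sg_wv, sg_rt]
    show (q : ℤ) ∣ v1 * k - v2 * (-2 * k) ↔ (q : ℤ) ∣ k * (v1 + 2 * v2)
    rw [show v1 * k - v2 * (-2 * k) = k * (v1 + 2 * v2) by ring]
  · simp only [sg_wv, sg_rt]
    show (q : ℤ) ∣ v1 * (-2 * k) - v2 * k ↔ (q : ℤ) ∣ k * (2 * v1 + v2)
    rw [show v1 * (-2 * k) - v2 * k = -(k * (2 * v1 + v2)) by ring, dvd_neg]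

theorem sg_rt_pair {q : ℕ} {v1 v2 : ℤ} (hA : Adm q v1 v2) {s t : Fin 3} (hst : s ≠ t) {k : ℤ}
    (h1 : (q : ℤ) ∣ k * sg_rt s v1 v2) (h2 : (q : ℤ) ∣ k * sg_rt t v1 v2) : (q : ℤ) ∣ 3 * k := by
  have c1 := hA.c1.symm
  have c2 := hA.c2.symm
  have c3 := hA.c3.symm
  have k1 : (q : ℤ) ∣ 3 * k * v1 → (q : ℤ) ∣ 3 * k := fun h => c1.dvd_of_dvd_mul_right h
  have k2 : (q : ℤ) ∣ 3 * k * v2 → (q : ℤ) ∣ 3 * k := fun h => c2.dvd_of_dvd_mul_right h
  have k3 : (q : ℤ) ∣ 3 * k * (v1 + v2) → (q : ℤ) ∣ 3 * k := fun h => c3.dvd_of_dvd_mul_right h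
  have key : ∀ a b : ℤ, (q : ℤ) ∣ k * a → (q : ℤ) ∣ k * b → (q : ℤ) ∣ k * (a + b) ∧
      (q : ℤ) ∣ k * (a - b) := fun a b ha hb =>
    ⟨by rw [mul_add]; exact dvd_add ha hb, by rw [mul_sub]; exact dvd_sub ha hb⟩
  fin_cases s <;> fin_cases t <;> simp only [sg_rt] at h1 h2
  · exact absurd rfl hst
  · apply k2
    have := (key _ _ h2 h1).2
    convert this using 1
    show 3 * k * v2 = k * (v1 + 2 * v2 - (v1 - v2)); ring
  · apply k1
    have := (key _ _ h1 h2).1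
    convert this using 1
    show 3 * k * v1 = k * (v1 - v2 + (2 * v1 + v2)); ring
  · apply k2
    have := (key _ _ h1 h2).2
    convert this using 1
    show 3 * k * v2 = k * (v1 + 2 * v2 - (v1 - v2)); ring
  · exact absurd rfl hst
  · apply k3
    have := (key _ _ h1 h2).1
    convert this using 1
    show 3 * k * (v1 + v2) = k * (v1 + 2 * v2 + (2 * v1 + v2)); ring
  · apply k1
    have := (key _ _ h1 h2).1
    convert this using 1
    show 3 * k * v1 = k * (2 * v1 + v2 + (v1 - v2)); ring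
  · apply k3
    have := (key _ _ h1 h2).1
    convert this using 1
    show 3 * k * (v1 + v2) = k * (2 * v1 + v2 + (v1 + 2 * v2)); ring
  · exact absurd rfl hst

theorem three_k_zero {q : ℕ} {k : ℤ} (h : 16 * (3 * k ^ 2) < (q : ℤ) ^ 2)
    (hd : (q : ℤ) ∣ 3 * k) : k = 0 := by
  have h1 : 3 * |k| < q := by
    have h1 : (3 * |k|) ^ 2 < (q : ℤ) ^ 2 := by
      rw [mul_pow, sq_abs]; nlinarith [sq_nonneg k]
    exact lt_of_pow_lt_pow_left₀ 2 (by positivity) h1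
  by_contra h0
  have h2 : (3 * k) ≠ 0 := by omega
  have := Int.le_of_dvd (abs_pos.2 h2) ((dvd_abs _ _).2 hd)
  rw [abs_mul] at this
  simp at this
  linarith

theorem wall_unique {q : ℕ} {v1 v2 : ℤ} (hA : Adm q v1 v2) {y1 y2 z1 z2 : ℤ}
    (hy : inLat q v1 v2 y1 y2) (hz : inLat q v1 v2 z1 z2) (hw : Wall y1 y2) (hw' : Wall z1 z2)
    (hN : Nf y1 y2 = Nf z1 z2) (h : 16 * Nf y1 y2 < (q : ℤ) ^ 2) :
    (z1 = y1 ∧ z2 = y2) ∨ (z1 = -y1 ∧ z2 = -y2) := by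
  obtain ⟨s, k, hk⟩ := sg_wall_form hw
  obtain ⟨t, l, hl⟩ := sg_wall_form hw'
  have ey1 : y1 = (sg_wv s k).1 := by rw [← hk]
  have ey2 : y2 = (sg_wv s k).2 := by rw [← hk]
  have ez1 : z1 = (sg_wv t l).1 := by rw [← hl]
  have ez2 : z2 = (sg_wv t l).2 := by rw [← hl]
  subst ey1 ey2 ez1 ez2
  rw [sg_wv_Nf, sg_wv_Nf] at hN
  rw [sg_wv_Nf] at h
  rw [sg_wv_inLat] at hy hz
  have hkl : k ^ 2 = l ^ 2 := by linarith
  have hkl' := sq_eq_sq_iff_eq_or_eq_neg.1 hkl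
  by_cases hst : s = t
  · subst hst
    rcases hkl' with rfl | rfl
    · left; exact ⟨rfl, rfl⟩
    · right; fin_cases s <;> simp [sg_wv]
  · have hzk : (q : ℤ) ∣ k * sg_rt t v1 v2 := by
      rcases hkl' with rfl | rfl
      · exact hz
      · rw [neg_mul, dvd_neg]; exact hz
    have h3 := sg_rt_pair hA hst hy hzk
    have hk0 := three_k_zero h h3
    subst hk0
    have hl0 : l = 0 := by
      have : l ^ 2 = 0 := by rw [← hkl]; ring
      exact pow_eq_zero_iff (two_ne_zero) |>.1 this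
    subst hl0
    left
    fin_cases s <;> fin_cases t <;> simp [sg_wv]

theorem sg_rt_or {e v1 v2 : ℤ} : (e ∣ v1 - v2 ∨ e ∣ v1 + 2 * v2 ∨ e ∣ 2 * v1 + v2) ↔
    ∃ t : Fin 3, e ∣ sg_rt t v1 v2 := by
  constructor
  · rintro (h | h | h)
    · exact ⟨0, h⟩
    · exact ⟨1, h⟩
    · exact ⟨2, h⟩
  · rintro ⟨t, h⟩
    fin_cases t
    · exact Or.inl h
    · exact Or.inr (Or.inl h)
    · exact Or.inr (Or.inr h)

theorem wall_transfer {q : ℕ} {v1 v2 w1 w2 : ℤ} (hA : Adm q v1 v2) (hA' : Adm q w1 w2)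
    (hS : SameWalls q v1 v2 w1 w2) {y1 y2 : ℤ} (hy : inLat q v1 v2 y1 y2) (hw : Wall y1 y2)
    (h0 : y1 ≠ 0) (h : 16 * Nf y1 y2 < (q : ℤ) ^ 2) :
    ∃ z1 z2, inLat q w1 w2 z1 z2 ∧ Wall z1 z2 ∧ Nf z1 z2 = Nf y1 y2 := by
  obtain ⟨s, k, hk⟩ := sg_wall_form hw
  have ey1 : y1 = (sg_wv s k).1 := by rw [← hk]
  have ey2 : y2 = (sg_wv s k).2 := by rw [← hk]
  have hk0 : k ≠ 0 := by
    rintro rfl
    apply h0
    rw [ey1]; fin_cases s <;> simp [sg_wv]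
  subst ey1 ey2
  rw [sg_wv_inLat] at hy
  rw [sg_wv_Nf] at h
  set g := Int.gcd k q with hg
  have hgpos : 0 < g := Int.gcd_pos_of_ne_zero_left _ hk0
  have hgq : g ∣ q := by
    have := Int.gcd_dvd_right k (q : ℤ)
    exact_mod_cast this
  obtain ⟨e, he⟩ := hgq
  have hgk : (g : ℤ) ∣ k := Int.gcd_dvd_left k (q : ℤ)
  obtain ⟨k', hk'⟩ := hgk
  have hcop : IsCoprime (e : ℤ) k' := by
    have h1 : Int.gcd (k / g) ((q : ℤ) / g) = 1 := Int.gcd_div_gcd_div_gcd hgpos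
    rw [Int.isCoprime_iff_gcd_eq_one, Int.gcd_comm]
    have e1 : k / (g : ℤ) = k' := by
      conv_lhs => rw [hk']
      exact Int.mul_ediv_cancel_left _ (by exact_mod_cast hgpos.ne')
    have e2 : (q : ℤ) / (g : ℤ) = e := by
      rw [he]; push_cast
      exact Int.mul_ediv_cancel_left _ (by exact_mod_cast hgpos.ne')
    rw [e1, e2] at h1
    exact h1
  have hiff : ∀ r : ℤ, (q : ℤ) ∣ k * r ↔ (e : ℤ) ∣ r := by
    intro r
    have e1 : (q : ℤ) = g * e := by rw [he]; push_cast; rfl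
    have hg0 : (g : ℤ) ≠ 0 := by exact_mod_cast hgpos.ne'
    rw [e1]
    conv_lhs => rw [hk', mul_assoc]
    rw [mul_dvd_mul_iff_left hg0]
    exact ⟨fun h => hcop.dvd_of_dvd_mul_left h, fun h => h.mul_left _⟩
  have he3 : ¬ e ∣ 3 := by
    intro h3
    have : (q : ℤ) ∣ 3 * k := by
      rw [mul_comm, hiff]
      exact_mod_cast h3
    exact hk0 (three_k_zero h this)
  have heq : e ∣ q := ⟨g, by rw [he, mul_comm]⟩
  have h1 := (hS e heq he3).1 (sg_rt_or.2 ⟨s, (hiff _).1 hy⟩)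
  obtain ⟨t, ht⟩ := sg_rt_or.1 h1
  exact ⟨(sg_wv t k).1, (sg_wv t k).2, (sg_wv_inLat q w1 w2 t k).2 ((hiff _).2 ht), sg_wv_wall t k,
    by rw [sg_wv_Nf, sg_wv_Nf]⟩

/-! ### Detection and identification -/

theorem sg_mem_boxN {k : ℕ} {y1 y2 : ℤ} : (y1, y2) ∈ boxN k ↔ Nf y1 y2 = k := by
  unfold boxN
  simp only [Finset.mem_filter, Finset.mem_product, Finset.mem_Icc]
  constructor
  · exact fun h => h.2
  · intro h
    refine ⟨?_, h⟩
    have b : ∀ a c : ℤ, 4 * (k : ℤ) = c ^ 2 + 3 * a ^ 2 → -(2 * (k : ℤ)) ≤ a ∧ a ≤ 2 * k := by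
      intro a c hac
      have hk : (0 : ℤ) ≤ k := Int.natCast_nonneg k
      have h1 : |a| ≤ 2 * (k : ℤ) := by
        by_contra hcon
        push Not at hcon
        have h2 : |a| ^ 2 = a ^ 2 := sq_abs a
        have h3 : 1 ≤ |a| := by omega
        nlinarith [sq_nonneg c]
      exact abs_le.1 h1
    exact ⟨b y1 (y1 + 2 * y2) (by rw [← h]; exact sg_Nf2 y1 y2),
      b y2 (2 * y1 + y2) (by rw [← h]; exact sg_Nf3 y1 y2)⟩

open scoped Classical in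
/-- the vectors which contribute to `SL` -/
def sg_VS (q : ℕ) (v1 v2 : ℤ) (k : ℕ) : Finset (ℤ × ℤ) :=
  (boxN k).filter (fun y => inLat q v1 v2 y.1 y.2 ∧ Regu q y.1 y.2)

open scoped Classical in
theorem sg_mem_VS {q : ℕ} {v1 v2 : ℤ} {k : ℕ} (hk : 16 * (k : ℤ) < (q : ℤ) ^ 2) {y : ℤ × ℤ} :
    y ∈ sg_VS q v1 v2 k ↔ Nf y.1 y.2 = k ∧ inLat q v1 v2 y.1 y.2 ∧ ¬ Wall y.1 y.2 := by
  unfold sg_VS
  rw [Finset.mem_filter]
  constructor
  · rintro ⟨h1, h2, h3⟩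
    have h4 : Nf y.1 y.2 = k := sg_mem_boxN.1 h1
    exact ⟨h4, h2, (regu_iff (by rw [h4]; exact hk)).1 h3⟩
  · rintro ⟨h1, h2, h3⟩
    exact ⟨sg_mem_boxN.2 h1, h2, (regu_iff (by rw [h1]; exact hk)).2 h3⟩

theorem sg_SL_diff {q : ℕ} {v1 v2 w1 w2 : ℤ} {k : ℕ} (hSL : SL q v1 v2 k = SL q w1 w2 k) :
    ∑ y ∈ sg_VS q v1 v2 k \ sg_VS q w1 w2 k, Bt q y.1 y.2 =
      ∑ y ∈ sg_VS q w1 w2 k \ sg_VS q v1 v2 k, Bt q y.1 y.2 := by
  have h1 : ∑ y ∈ sg_VS q v1 v2 k, Bt q y.1 y.2 = ∑ y ∈ sg_VS q w1 w2 k, Bt q y.1 y.2 := hSL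
  have h2 := Finset.sum_sdiff_sub_sum_sdiff (s₁ := sg_VS q w1 w2 k) (s₂ := sg_VS q v1 v2 k)
    (f := fun y => Bt q y.1 y.2)
  linarith

theorem sg_inLat_neg {q : ℕ} {v1 v2 y1 y2 : ℤ} (h : inLat q v1 v2 y1 y2) :
    inLat q v1 v2 (-y1) (-y2) := by
  unfold inLat at *
  rw [show v1 * -y2 - v2 * -y1 = -(v1 * y2 - v2 * y1) by ring, dvd_neg]
  exact h

/-- Lemma A (detection): if all the vectors of `Λ_w` of `Nf = k` are in `Λ_v` and those of
`Λ_v` which are not in `Λ_w` are not even, then there are none of the latter -/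
theorem detect {q : ℕ} {v1 v2 w1 w2 : ℤ} (hA : Adm q v1 v2) (hA' : Adm q w1 w2)
    (hS : SameWalls q v1 v2 w1 w2) {k : ℕ} (hk0 : 0 < k) (hk : 16 * (k : ℤ) < (q : ℤ) ^ 2)
    (hSL : SL q v1 v2 k = SL q w1 w2 k)
    (h1 : ∀ y1 y2, Nf y1 y2 = k → inLat q w1 w2 y1 y2 → inLat q v1 v2 y1 y2)
    (h2 : ∀ y1 y2, Nf y1 y2 = k → inLat q v1 v2 y1 y2 → ¬ inLat q w1 w2 y1 y2 → MT y1 y2)
    {y1 y2 : ℤ} (hy : Nf y1 y2 = k) (hyv : inLat q v1 v2 y1 y2) : inLat q w1 w2 y1 y2 := by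
  by_contra hyw
  have hempty : sg_VS q w1 w2 k \ sg_VS q v1 v2 k = ∅ := by
    rw [Finset.sdiff_eq_empty_iff_subset]
    intro y hy
    rw [sg_mem_VS hk] at hy ⊢
    exact ⟨hy.1, h1 _ _ hy.1 hy.2.1, hy.2.2⟩
  have hsum := sg_SL_diff hSL
  rw [hempty, Finset.sum_empty] at hsum
  have hneg : ∀ y ∈ sg_VS q v1 v2 k \ sg_VS q w1 w2 k, Bt q y.1 y.2 < 0 := by
    intro y hy
    rw [Finset.mem_sdiff, sg_mem_VS hk, sg_mem_VS hk] at hy
    obtain ⟨⟨a1, a2, a3⟩, a4⟩ := hy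
    have a5 : ¬ inLat q w1 w2 y.1 y.2 := fun h => a4 ⟨a1, h, a3⟩
    exact Bt_neg (h2 _ _ a1 a2 a5) (by rw [a1]; exact hk) a3
  by_cases hw : Wall y1 y2
  · have hy10 : y1 ≠ 0 := by
      rintro rfl
      have hy20 : y2 = 0 := by
        rcases hw with h | h | h <;> linarith
      subst hy20
      simp [Nf] at hy
      omega
    have hshort : 16 * Nf y1 y2 < (q : ℤ) ^ 2 := by rw [hy]; exact hk
    obtain ⟨z1, z2, hz, hzw, hzN⟩ := wall_transfer hA hA' hS hyv hw hy10 hshort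
    have hzv := h1 z1 z2 (by rw [hzN, hy]) hz
    rcases wall_unique hA hyv hzv hw hzw hzN.symm hshort with ⟨e1, e2⟩ | ⟨e1, e2⟩
    · rw [e1, e2] at hz; exact hyw hz
    · rw [e1, e2] at hz
      have := sg_inLat_neg hz
      rw [neg_neg, neg_neg] at this
      exact hyw this
  · have hmem : ((y1, y2) : ℤ × ℤ) ∈ sg_VS q v1 v2 k \ sg_VS q w1 w2 k := by
      rw [Finset.mem_sdiff, sg_mem_VS hk, sg_mem_VS hk]
      exact ⟨⟨hy, hyv, hw⟩, fun h => hyw h.2.1⟩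
    have := Finset.sum_neg hneg ⟨_, hmem⟩
    linarith

/-- Lemma B (identification): if `Λ_v` and `Λ_w` each contain exactly one pair `± y`, `± z` of
vectors of `Nf = k` outside the other lattice, then `z` is `±` a permutation of `y` -/
theorem identify {q : ℕ} {v1 v2 w1 w2 : ℤ} (hA : Adm q v1 v2) (hA' : Adm q w1 w2)
    (hS : SameWalls q v1 v2 w1 w2) {k : ℕ} (hk0 : 0 < k) (hk : 16 * (k : ℤ) < (q : ℤ) ^ 2)
    (hSL : SL q v1 v2 k = SL q w1 w2 k) {y1 y2 z1 z2 : ℤ} (hMy : MT y1 y2) (hMz : MT z1 z2)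
    (hNy : Nf y1 y2 = k) (hNz : Nf z1 z2 = k) (hyv : inLat q v1 v2 y1 y2)
    (hzw : inLat q w1 w2 z1 z2) (hyw : ¬ inLat q w1 w2 y1 y2) (hzv : ¬ inLat q v1 v2 z1 z2)
    (h1 : ∀ x1 x2, Nf x1 x2 = k → inLat q v1 v2 x1 x2 → ¬ inLat q w1 w2 x1 x2 →
      (x1 = y1 ∧ x2 = y2) ∨ (x1 = -y1 ∧ x2 = -y2))
    (h2 : ∀ x1 x2, Nf x1 x2 = k → inLat q w1 w2 x1 x2 → ¬ inLat q v1 v2 x1 x2 →
      (x1 = z1 ∧ x2 = z2) ∨ (x1 = -z1 ∧ x2 = -z2)) : Orb y1 y2 z1 z2 := by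
  have hNN : Nf y1 y2 = Nf z1 z2 := by rw [hNy, hNz]
  have hshort : 16 * Nf y1 y2 < (q : ℤ) ^ 2 := by rw [hNy]; exact hk
  have hshortz : 16 * Nf z1 z2 < (q : ℤ) ^ 2 := by rw [hNz]; exact hk
  have hsum := sg_SL_diff hSL
  -- the sum over the difference
  classical
  have gen : ∀ {v1 v2 w1 w2 y1 y2 : ℤ}, Nf y1 y2 = k → inLat q v1 v2 y1 y2 →
      ¬ inLat q w1 w2 y1 y2 → (∀ x1 x2, Nf x1 x2 = k → inLat q v1 v2 x1 x2 →
        ¬ inLat q w1 w2 x1 x2 → (x1 = y1 ∧ x2 = y2) ∨ (x1 = -y1 ∧ x2 = -y2)) →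
      ∑ y ∈ sg_VS q v1 v2 k \ sg_VS q w1 w2 k, Bt q y.1 y.2 =
        if Wall y1 y2 then 0 else 2 * Bt q y1 y2 := by
    intro v1 v2 w1 w2 y1 y2 hN hv hw huniq
    have hWneg : Wall (-y1) (-y2) ↔ Wall y1 y2 := by
      unfold Wall; constructor <;> rintro (h | h | h)
      · left; linarith
      · right; left; linarith
      · right; right; linarith
      · left; linarith
      · right; left; linarith
      · right; right; linarith
    by_cases hW : Wall y1 y2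
    · rw [if_pos hW]
      have : sg_VS q v1 v2 k \ sg_VS q w1 w2 k = ∅ := by
        rw [Finset.eq_empty_iff_forall_notMem]
        intro x hx
        rw [Finset.mem_sdiff, sg_mem_VS hk, sg_mem_VS hk] at hx
        obtain ⟨⟨a1, a2, a3⟩, a4⟩ := hx
        have a5 : ¬ inLat q w1 w2 x.1 x.2 := fun h => a4 ⟨a1, h, a3⟩
        rcases huniq _ _ a1 a2 a5 with ⟨e1, e2⟩ | ⟨e1, e2⟩
        · rw [e1, e2] at a3; exact a3 hW
        · rw [e1, e2, hWneg] at a3; exact a3 hW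
      rw [this, Finset.sum_empty]
    · rw [if_neg hW]
      have hne : ((y1, y2) : ℤ × ℤ) ≠ (-y1, -y2) := by
        intro h
        rw [Prod.mk.injEq] at h
        have h10 : y1 = 0 := by linarith [h.1]
        have h20 : y2 = 0 := by linarith [h.2]
        rw [h10, h20] at hN
        simp [Nf] at hN
        omega
      have : sg_VS q v1 v2 k \ sg_VS q w1 w2 k = {(y1, y2), (-y1, -y2)} := by
        ext x
        rw [Finset.mem_sdiff, sg_mem_VS hk, sg_mem_VS hk, Finset.mem_insert, Finset.mem_singleton]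
        constructor
        · rintro ⟨⟨a1, a2, a3⟩, a4⟩
          have a5 : ¬ inLat q w1 w2 x.1 x.2 := fun h => a4 ⟨a1, h, a3⟩
          rcases huniq _ _ a1 a2 a5 with ⟨e1, e2⟩ | ⟨e1, e2⟩
          · left; exact Prod.ext e1 e2
          · right; exact Prod.ext e1 e2
        · rintro (rfl | rfl)
          · exact ⟨⟨hN, hv, hW⟩, fun h => hw h.2.1⟩
          · refine ⟨⟨?_, sg_inLat_neg hv, fun h => hW (hWneg.1 h)⟩, fun h => hw ?_⟩
            · rw [← hN]; simp only [Nf]; ring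
            · have := sg_inLat_neg h.2.1
              simp only [neg_neg] at this
              exact this
      rw [this, Finset.sum_pair hne]
      have hinv : Bt q (-y1) (-y2) = Bt q y1 y2 :=
        (Bt_invariant (Orb_iff.2 ⟨by simp only [Nf]; ring, by ring⟩)).symm
      simp only [hinv]
      ring
  rw [gen hNy hyv hyw h1, gen hNz hzw hzv h2] at hsum
  by_cases hWy : Wall y1 y2
  · by_cases hWz : Wall z1 z2
    · exact wall_orbit hWy hWz hNN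
    · rw [if_pos hWy, if_neg hWz] at hsum
      have := Bt_neg hMz hshortz hWz
      linarith
  · by_cases hWz : Wall z1 z2
    · rw [if_neg hWy, if_pos hWz] at hsum
      have := Bt_neg hMy hshort hWy
      linarith
    · rw [if_neg hWy, if_neg hWz] at hsum
      exact Bt_orbit hMy hMz hshort hNN hWy hWz (by linarith)

end Pool.Agent.Iso79
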