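import Pool.Agent.Iso79.Scale

/-!
# Equality of the orders, and of the three parts of the trace sums

Hypothesis (`hiso`): `q' · Tsum χ q v N = q · Tsum χ q' v' N` for all `N`.

Proof.  By `ordj_cases` and `chi_scale`, for primes `k ≡ -1 mod 3 q q'` (infinitely many by
Dirichlet, `Nat.forall_exists_prime_gt_and_eq_mod`)
`Tsum χ q v (N k²) = k³ T₃ + k T₁ - T₀`, `T_o = Tpart χ q v o N`.  A polynomial identity in `k` valid
for infinitely many `k` gives `q' T_o = q T_o'` for `o = 0, 1, 3` and all `N`.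
`N = 3`: `T₃ = |Cen|`, where `Cen = {j < q : ordj = 3}`; `j ∈ Cen` iff `q ∣ 3 j` (as `v₁` is prime to
`q` and `3 v₁ = (v₁-v₂) + (2v₁+v₂)`; conversely if `3 ∣ q` then `v₁ ≡ v₂ ≡ v₃ mod 3`), so
`|Cen| = 1` or `3` (iff `3 ∣ q`).  `N = 13`: `χ 13 x y = ∑_{a≤b} e^{i(θ_a+θ_b)} + conj` (verify
`alt 1 1 · (..) = FF 13`, and use continuity); so `T₃ = 12` if `3 ∤ q` and `T₃ = 0` if `3 ∣ q`.
Hence `3 ∣ q ↔ 3 ∣ q'`, then `q' |Cen| = q |Cen'|` gives `q = q'`.
-/

open Complex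

noncomputable section

namespace Pool.Agent.Iso79

namespace PartsAux

theorem exists_prime (m n : ℕ) (hm : 0 < m) : ∃ k, n < k ∧ k.Prime ∧ m ∣ k + 1 := by
  have : NeZero m := ⟨hm.ne'⟩
  obtain ⟨p, hp, hpr, hpa⟩ := Nat.forall_exists_prime_gt_and_eq_mod (q := m) (a := -1)
    (isUnit_one.neg) n
  refine ⟨p, hp, hpr, ?_⟩
  have h1 : ((p + 1 : ℕ) : ZMod m) = 0 := by
    push_cast
    rw [hpa]
    ring
  exact (ZMod.natCast_eq_zero_iff _ _).1 h1

theorem Tsum_parts (χ : ℕ → ℝ → ℝ → ℂ) {q : ℕ} {v1 v2 : ℤ} (hA : Adm q v1 v2) (N : ℕ)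
    (f : ℕ → ℂ) :
    ∑ j ∈ Finset.range q, f (ordj q v1 v2 j) * χ N (tj q v1 j) (tj q v2 j) =
      f 0 * Tpart χ q v1 v2 0 N + f 1 * Tpart χ q v1 v2 1 N + f 3 * Tpart χ q v1 v2 3 N := by
  unfold Tpart
  rw [Finset.sum_filter, Finset.sum_filter, Finset.sum_filter, Finset.mul_sum, Finset.mul_sum,
    Finset.mul_sum, ← Finset.sum_add_distrib, ← Finset.sum_add_distrib]
  refine Finset.sum_congr rfl fun j _ => ?_
  rcases ordj_cases hA j with h | h | h <;> simp [h]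

theorem Tsum_scale {χ : ℕ → ℝ → ℝ → ℂ} (H : IsChi χ) {q : ℕ} {v1 v2 : ℤ} (hA : Adm q v1 v2)
    {k : ℕ} (hk : k.Prime) (hk2 : k ≠ 2) (hk3 : 3 * q ∣ k + 1) (N : ℕ) :
    Tsum χ q v1 v2 (N * k ^ 2) = -Tpart χ q v1 v2 0 N + (k : ℂ) * Tpart χ q v1 v2 1 N +
      (k : ℂ) ^ 3 * Tpart χ q v1 v2 3 N := by
  unfold Tsum
  rw [Finset.sum_congr rfl fun j _ => chi_scale H hA hk hk2 hk3 N j]
  have := Tsum_parts χ hA N (fun o => -(-(k : ℂ)) ^ o)
  rw [this]
  ring

end PartsAux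

open PartsAux

theorem parts_eq {χ : ℕ → ℝ → ℝ → ℂ} (H : IsChi χ) {q q' : ℕ} {v1 v2 w1 w2 : ℤ}
    (hA : Adm q v1 v2) (hA' : Adm q' w1 w2)
    (hiso : ∀ N, (q' : ℂ) * Tsum χ q v1 v2 N = (q : ℂ) * Tsum χ q' w1 w2 N) (N : ℕ) :
    (q' : ℂ) * Tpart χ q v1 v2 0 N = (q : ℂ) * Tpart χ q' w1 w2 0 N ∧
    (q' : ℂ) * Tpart χ q v1 v2 1 N = (q : ℂ) * Tpart χ q' w1 w2 1 N ∧
    (q' : ℂ) * Tpart χ q v1 v2 3 N = (q : ℂ) * Tpart χ q' w1 w2 3 N := by
  have hpos : 0 < 3 * q * q' := by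
    have := hA.pos
    have := hA'.pos
    positivity
  set a0 : ℂ := (q' : ℂ) * Tpart χ q v1 v2 0 N - (q : ℂ) * Tpart χ q' w1 w2 0 N with ha0
  set a1 : ℂ := (q' : ℂ) * Tpart χ q v1 v2 1 N - (q : ℂ) * Tpart χ q' w1 w2 1 N with ha1
  set a3 : ℂ := (q' : ℂ) * Tpart χ q v1 v2 3 N - (q : ℂ) * Tpart χ q' w1 w2 3 N with ha3
  have key : ∀ k : ℕ, 2 < k → k.Prime → 3 * q * q' ∣ k + 1 →
      -a0 + (k : ℂ) * a1 + (k : ℂ) ^ 3 * a3 = 0 := by
    intro k h2 hk hd
    have d1 : 3 * q ∣ k + 1 := (Dvd.intro _ rfl).trans hd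
    have d2 : 3 * q' ∣ k + 1 := (Dvd.intro q (by ring)).trans hd
    have h := hiso (N * k ^ 2)
    rw [Tsum_scale H hA hk h2.ne' d1, Tsum_scale H hA' hk h2.ne' d2] at h
    rw [ha0, ha1, ha3]
    linear_combination h
  obtain ⟨k1, g1, p1, m1⟩ := exists_prime (3 * q * q') 2 hpos
  obtain ⟨k2, g2, p2, m2⟩ := exists_prime (3 * q * q') k1 hpos
  obtain ⟨k3, g3, p3, m3⟩ := exists_prime (3 * q * q') k2 hpos
  have e1 := key k1 g1 p1 m1
  have e2 := key k2 (g1.trans g2) p2 m2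
  have e3 := key k3 (g1.trans (g2.trans g3)) p3 m3
  have n12 : (k2 : ℂ) - k1 ≠ 0 := sub_ne_zero.2 (by exact_mod_cast g2.ne')
  have n13 : (k3 : ℂ) - k1 ≠ 0 := sub_ne_zero.2 (by exact_mod_cast (g2.trans g3).ne')
  have n23 : (k3 : ℂ) - k2 ≠ 0 := sub_ne_zero.2 (by exact_mod_cast g3.ne')
  have f12 : a1 + a3 * ((k1 : ℂ) ^ 2 + k1 * k2 + k2 ^ 2) = 0 := by
    apply mul_left_cancel₀ n12
    linear_combination e2 - e1
  have f13 : a1 + a3 * ((k1 : ℂ) ^ 2 + k1 * k3 + k3 ^ 2) = 0 := by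
    apply mul_left_cancel₀ n13
    linear_combination e3 - e1
  have hs : ((k1 : ℂ) + k2 + k3) ≠ 0 := by
    have : k1 + k2 + k3 ≠ 0 := by omega
    exact_mod_cast this
  have h3 : a3 = 0 := by
    have : ((k3 : ℂ) - k2) * (((k1 : ℂ) + k2 + k3) * a3) = 0 := by
      linear_combination f13 - f12
    rcases mul_eq_zero.1 this with h | h
    · exact absurd h n23
    · rcases mul_eq_zero.1 h with h | h
      · exact absurd h hs
      · exact h
  have h1 : a1 = 0 := by rw [h3] at f12; simpa using f12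
  have h0 : a0 = 0 := by rw [h1, h3] at e1; simpa using e1
  exact ⟨sub_eq_zero.1 h0, sub_eq_zero.1 h1, sub_eq_zero.1 h3⟩

namespace PartsAux

/-- the trace of `SU(3)` on the eigenspace `N = 13` -/
def GG (x y : ℝ) : ℂ := ee (2 * x) + ee (2 * y) + ee (-2 * x - 2 * y) + ee (x + y) + ee (-y) +
  ee (-x) + (ee (-2 * x) + ee (-2 * y) + ee (2 * x + 2 * y) + ee (-x - y) + ee y + ee x)

theorem ee_ne (x : ℝ) : ee x ≠ 0 := exp_ne_zero _

theorem ee_lin (a b : ℤ) (x y : ℝ) : ee (a * x + b * y) = ee x ^ a * ee y ^ b := by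
  unfold ee
  rw [← Complex.exp_int_mul, ← Complex.exp_int_mul, ← Complex.exp_add]
  congr 1
  push_cast
  ring

theorem alt_zpow (m n : ℤ) (x y : ℝ) : alt m n x y =
    ee x ^ (m + n) * ee y ^ n - ee x ^ n * ee y ^ (m + n) - ee x ^ m * ee y ^ (-n) +
    ee x ^ (-m) * ee y ^ (-(m + n)) + ee x ^ (-n) * ee y ^ m -
    ee x ^ (-(m + n)) * ee y ^ (-m) := by
  simp only [← ee_lin]
  unfold alt
  push_cast
  congr 1
  · congr 1
    · congr 1
      · congr 1
        congr 1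
        ring
      · congr 1
        ring
    · congr 1
      ring
  · congr 1
    ring

theorem alt_mul_GG (x y : ℝ) : alt 1 1 x y * GG x y = FF 13 x y := by
  have h1 : FF 13 x y = alt 3 1 x y + alt 1 3 x y := by
    unfold FF
    rw [shell_thirteen, Finset.sum_pair (by decide)]
    norm_num
  have h2 : GG x y = ee x ^ (2 : ℤ) + ee y ^ (2 : ℤ) + ee x ^ (-2 : ℤ) * ee y ^ (-2 : ℤ) +
      ee x * ee y + ee y ^ (-1 : ℤ) + ee x ^ (-1 : ℤ) + (ee x ^ (-2 : ℤ) + ee y ^ (-2 : ℤ) +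
      ee x ^ (2 : ℤ) * ee y ^ (2 : ℤ) + ee x ^ (-1 : ℤ) * ee y ^ (-1 : ℤ) + ee y + ee x) := by
    have l := fun a b : ℤ => ee_lin a b x y
    have l1 := l 2 0
    have l2 := l 0 2
    have l3 := l (-2) (-2)
    have l4 := l 1 1
    have l5 := l 0 (-1)
    have l6 := l (-1) 0
    have l7 := l (-2) 0
    have l8 := l 0 (-2)
    have l9 := l 2 2
    have l10 := l (-1) (-1)
    simp only [zpow_zero, mul_one, one_mul, zpow_one] at l1 l2 l4 l5 l6 l7 l8
    rw [← l3, ← l9, ← l10, ← l4, ← l1, ← l2, ← l5, ← l6, ← l7, ← l8]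
    unfold GG
    push_cast
    ring_nf
  rw [h1, h2, alt_zpow, alt_zpow, alt_zpow]
  have hx := ee_ne x
  have hy := ee_ne y
  norm_num
  field_simp
  ring

theorem continuous_ee : Continuous ee := by unfold ee; fun_prop

theorem chi13 {χ : ℕ → ℝ → ℝ → ℂ} (H : IsChi χ) (x y : ℝ) : χ 13 x y = GG x y := by
  have H' : IsChi (fun N x y => if N = 3 then χ 13 x y - GG x y + 1 else χ N x y) := by
    constructor
    · intro N
      by_cases h : N = 3
      · simp only [h, if_true]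
        have h1 := H.cont 13
        have h2 : Continuous fun p : ℝ × ℝ => GG p.1 p.2 := by
          unfold GG
          have := continuous_ee
          fun_prop
        exact (h1.sub h2).add continuous_const
      · simp only [h, if_false]
        exact H.cont N
    · intro N x y
      by_cases h : N = 3
      · simp only [h, if_true]
        rw [FF_three, mul_add, mul_sub, H.rel, alt_mul_GG]
        ring
      · simp only [h, if_false]
        exact H.rel N x y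
  have h := chi3_eq_one H' x y
  simp only [if_true] at h
  linear_combination h

theorem ordj_three_iff {q : ℕ} {v1 v2 : ℤ} {j : ℕ} : ordj q v1 v2 j = 3 ↔
    (q : ℤ) ∣ j * (v1 - v2) ∧ (q : ℤ) ∣ j * (v1 + 2 * v2) ∧ (q : ℤ) ∣ j * (2 * v1 + v2) := by
  unfold ordj
  by_cases c1 : (q : ℤ) ∣ j * (v1 - v2) <;> by_cases c2 : (q : ℤ) ∣ j * (v1 + 2 * v2) <;>
    by_cases c3 : (q : ℤ) ∣ j * (2 * v1 + v2) <;> simp [c1, c2, c3]

theorem dvd_three_mul {q : ℕ} {v1 v2 : ℤ} (hA : Adm q v1 v2) {j : ℕ}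
    (h : ordj q v1 v2 j = 3) : q ∣ 3 * j := by
  rw [ordj_three_iff] at h
  have h1 : (q : ℤ) ∣ v1 * (3 * j) := by
    have := dvd_add h.1 h.2.2
    rwa [show (j : ℤ) * (v1 - v2) + j * (2 * v1 + v2) = v1 * (3 * j) by ring] at this
  have h2 := hA.c1.symm.dvd_of_dvd_mul_left h1
  exact_mod_cast h2

/-- residues modulo `3` -/
theorem mod_three {m : ℕ} {v1 v2 : ℤ} (hA : Adm (3 * m) v1 v2) :
    v1 % 3 ≠ 0 ∧ (3 : ℤ) ∣ v1 - v2 := by
  have key : ∀ a : ℤ, IsCoprime a ((3 * m : ℕ) : ℤ) → a % 3 ≠ 0 := by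
    intro a ha h0
    have h1 : (3 : ℤ) ∣ a := Int.dvd_of_emod_eq_zero h0
    have h2 : (3 : ℤ) ∣ ((3 * m : ℕ) : ℤ) := ⟨m, by push_cast; ring⟩
    have h3 := ha.isUnit_of_dvd' h1 h2
    have h4 := Int.isUnit_iff.1 h3
    omega
  have k1 := key _ hA.c1
  have k2 := key _ hA.c2
  have k3 := key _ hA.c3
  refine ⟨k1, ?_⟩
  have hv1 : v1 % 3 = 1 ∨ v1 % 3 = 2 := by omega
  have hv2 : v2 % 3 = 1 ∨ v2 % 3 = 2 := by omega
  rcases hv1 with h1 | h1 <;> rcases hv2 with h2 | h2 <;> omega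

theorem cen_not {q : ℕ} {v1 v2 : ℤ} (hA : Adm q v1 v2) (h3 : ¬ 3 ∣ q) :
    (Finset.range q).filter (fun j => ordj q v1 v2 j = 3) = {0} := by
  ext j
  rw [Finset.mem_filter, Finset.mem_range, Finset.mem_singleton]
  constructor
  · rintro ⟨hj, ho⟩
    have h1 := dvd_three_mul hA ho
    have hc : Nat.Coprime q 3 := ((Nat.Prime.coprime_iff_not_dvd Nat.prime_three).2 h3).symm
    have h2 := hc.dvd_of_dvd_mul_left h1
    exact Nat.eq_zero_of_dvd_of_lt h2 hj
  · rintro rfl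
    refine ⟨hA.pos, ?_⟩
    rw [ordj_three_iff]
    simp

theorem cen_three {m : ℕ} {v1 v2 : ℤ} (hA : Adm (3 * m) v1 v2) :
    (Finset.range (3 * m)).filter (fun j => ordj (3 * m) v1 v2 j = 3) = {0, m, 2 * m} := by
  have hm : 0 < m := by have := hA.pos; omega
  obtain ⟨-, e, he⟩ := mod_three hA
  ext j
  rw [Finset.mem_filter, Finset.mem_range, Finset.mem_insert, Finset.mem_insert,
    Finset.mem_singleton]
  constructor
  · rintro ⟨hj, ho⟩
    have h1 := dvd_three_mul hA ho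
    obtain ⟨c, hc⟩ := h1
    have h2 : j = m * c := by
      have : 3 * j = 3 * (m * c) := by rw [hc]; ring
      omega
    have h3 : c < 3 := by
      by_contra hge
      have : m * 3 ≤ m * c := Nat.mul_le_mul_left _ (by omega)
      omega
    interval_cases c
    · left; omega
    · right; left; omega
    · right; right; omega
  · intro hj
    have hjm : ∃ c : ℕ, c < 3 ∧ j = m * c := by
      rcases hj with h | h | h
      · exact ⟨0, by norm_num, by rw [h]; ring⟩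
      · exact ⟨1, by norm_num, by rw [h]; ring⟩
      · exact ⟨2, by norm_num, by rw [h]; ring⟩
    obtain ⟨c, hc3, rfl⟩ := hjm
    refine ⟨by nlinarith, ?_⟩
    rw [ordj_three_iff]
    have e1 : v1 = v2 + 3 * e := by linarith
    refine ⟨⟨c * e, ?_⟩, ⟨c * (v2 + e), ?_⟩, ⟨c * (v2 + 2 * e), ?_⟩⟩ <;>
    · rw [e1]; push_cast; ring

theorem ee_two_pi (k : ℤ) : ee (2 * Real.pi * k) = 1 := by
  unfold ee
  rw [show I * ((2 * Real.pi * k : ℝ) : ℂ) = k * (2 * Real.pi * I) by push_cast; ring]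
  exact Complex.exp_int_mul_two_pi_mul_I k

theorem GG_central {x y : ℝ} {z : ℂ} (hx : ee x = z) (hy : ee y = z) (hz : z ^ 3 = 1) :
    GG x y = 6 * (z ^ 2 + z) := by
  have z0 : z ≠ 0 := by rw [← hx]; exact ee_ne x
  have hi : z⁻¹ = z ^ 2 := by
    rw [inv_eq_iff_eq_inv]
    refine eq_inv_of_mul_eq_one_left ?_
    linear_combination hz
  have e1 : ∀ u : ℝ, ee (-u) = (ee u)⁻¹ := fun u => by
    unfold ee; rw [← Complex.exp_neg]; push_cast; ring_nf
  have e2 : ∀ u v : ℝ, ee (u + v) = ee u * ee v := fun u v => by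
    unfold ee; rw [← Complex.exp_add]; push_cast; ring_nf
  unfold GG
  rw [show (2 : ℝ) * x = x + x by ring, show (2 : ℝ) * y = y + y by ring,
    show -2 * x - (y + y) = -(x + (x + (y + y))) by ring,
    show -2 * x = -(x + x) by ring, show -2 * y = -(y + y) by ring,
    show -x - y = -(x + y) by ring]
  simp only [e1, e2, hx, hy, mul_inv, hi]
  have hz4 : z ^ 4 = z := by linear_combination z * hz
  have hz8 : z ^ 8 = z ^ 2 := by linear_combination (z ^ 5 + z ^ 2) * hz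
  ring_nf
  rw [show z ^ 8 = z ^ 2 from hz8, hz4]
  ring

theorem GG_zero : GG 0 0 = 12 := by
  rw [GG_central (z := 1) (by unfold ee; simp) (by unfold ee; simp) (by norm_num)]
  norm_num

theorem GG_third {m : ℕ} {v1 v2 : ℤ} (hA : Adm (3 * m) v1 v2) {c : ℕ} (hc : c = 1 ∨ c = 2) :
    GG (tj (3 * m) v1 (c * m)) (tj (3 * m) v2 (c * m)) = -6 := by
  have hm : 0 < m := by have := hA.pos; omega
  obtain ⟨h3, e, he⟩ := mod_three hA
  have hm' : (m : ℝ) ≠ 0 := by positivity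
  have t1 : ∀ v : ℤ, tj (3 * m) v (c * m) = 2 * Real.pi * ((c * v : ℤ) : ℝ) / 3 := by
    intro v
    unfold tj
    push_cast
    field_simp
  have hxy : ee (tj (3 * m) v2 (c * m)) = ee (tj (3 * m) v1 (c * m)) := by
    rw [t1, t1]
    have e1 : 2 * Real.pi * ((c * v1 : ℤ) : ℝ) / 3 =
        2 * Real.pi * ((c * v2 : ℤ) : ℝ) / 3 + 2 * Real.pi * ((c * e : ℤ) : ℝ) := by
      have : v1 = v2 + 3 * e := by linarith
      rw [this]; push_cast; ring
    rw [e1]
    have e2 : ∀ u v : ℝ, ee (u + v) = ee u * ee v := fun u v => by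
      unfold ee; rw [← Complex.exp_add]; push_cast; ring_nf
    rw [e2, ee_two_pi, mul_one]
  set z := ee (tj (3 * m) v1 (c * m)) with hz
  have hz3 : z ^ 3 = 1 := by
    rw [hz, t1]
    have h1 : ee (2 * Real.pi * ((c * v1 : ℤ) : ℝ) / 3) ^ 3 =
        ee (2 * Real.pi * ((c * v1 : ℤ) : ℝ)) := by
      unfold ee
      rw [← Complex.exp_nat_mul]
      congr 1
      push_cast
      ring
    rw [h1, ee_two_pi]
  have hz1 : z ≠ 1 := by
    rw [hz, t1]
    intro h0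
    unfold ee at h0
    rw [Complex.exp_eq_one_iff] at h0
    obtain ⟨n, hn⟩ := h0
    have h1 : ((c * v1 : ℤ) : ℂ) = 3 * n := by
      have hpi : (2 * Real.pi * I : ℂ) ≠ 0 := Complex.two_pi_I_ne_zero
      apply mul_left_cancel₀ hpi
      push_cast at hn ⊢
      linear_combination 3 * hn
    have h2 : (c : ℤ) * v1 = 3 * n := by exact_mod_cast h1
    rcases hc with rfl | rfl
    · push_cast at h2; omega
    · push_cast at h2; omega
  rw [GG_central (z := z) hz.symm hxy hz3]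
  have h1 : (z - 1) * (z ^ 2 + z + 1) = 0 := by linear_combination hz3
  rcases mul_eq_zero.1 h1 with h | h
  · exact absurd (sub_eq_zero.1 h) hz1
  · linear_combination 6 * h

theorem tj_zero (q : ℕ) (v : ℤ) : tj q v 0 = 0 := by unfold tj; simp

theorem T3_not {χ : ℕ → ℝ → ℝ → ℂ} (H : IsChi χ) {q : ℕ} {v1 v2 : ℤ} (hA : Adm q v1 v2)
    (h3 : ¬ 3 ∣ q) : Tpart χ q v1 v2 3 3 = 1 ∧ Tpart χ q v1 v2 3 13 = 12 := by
  unfold Tpart
  rw [cen_not hA h3, Finset.sum_singleton, Finset.sum_singleton, chi3_eq_one H, chi13 H,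
    tj_zero, tj_zero, GG_zero]
  exact ⟨rfl, rfl⟩

theorem T3_three {χ : ℕ → ℝ → ℝ → ℂ} (H : IsChi χ) {m : ℕ} {v1 v2 : ℤ}
    (hA : Adm (3 * m) v1 v2) :
    Tpart χ (3 * m) v1 v2 3 3 = 3 ∧ Tpart χ (3 * m) v1 v2 3 13 = 0 := by
  have hm : 0 < m := by have := hA.pos; omega
  unfold Tpart
  rw [cen_three hA]
  have n1 : (0 : ℕ) ∉ ({m, 2 * m} : Finset ℕ) := by simp; omega
  have n2 : m ∉ ({2 * m} : Finset ℕ) := by simp; omega
  rw [Finset.sum_insert n1, Finset.sum_insert n2, Finset.sum_singleton,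
    Finset.sum_insert n1, Finset.sum_insert n2, Finset.sum_singleton]
  simp only [chi3_eq_one H, chi13 H, tj_zero]
  have g1 := GG_third hA (c := 1) (Or.inl rfl)
  have g2 := GG_third hA (c := 2) (Or.inr rfl)
  rw [one_mul] at g1
  rw [g1, g2, GG_zero]
  norm_num

end PartsAux

theorem order_eq {χ : ℕ → ℝ → ℝ → ℂ} (H : IsChi χ) {q q' : ℕ} {v1 v2 w1 w2 : ℤ}
    (hA : Adm q v1 v2) (hA' : Adm q' w1 w2)
    (hiso : ∀ N, (q' : ℂ) * Tsum χ q v1 v2 N = (q : ℂ) * Tsum χ q' w1 w2 N) : q = q' := by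
  have a3 := (parts_eq H hA hA' hiso 3).2.2
  have a13 := (parts_eq H hA hA' hiso 13).2.2
  have hq := hA.pos
  have hq' := hA'.pos
  by_cases h : 3 ∣ q
  · obtain ⟨m, rfl⟩ := h
    obtain ⟨b3, b13⟩ := T3_three H hA
    by_cases h' : 3 ∣ q'
    · obtain ⟨m', rfl⟩ := h'
      obtain ⟨c3, c13⟩ := T3_three H hA'
      rw [b3, c3] at a3
      have := mul_right_cancel₀ (by norm_num) a3
      exact_mod_cast this.symm
    · obtain ⟨c3, c13⟩ := T3_not H hA' h'
      rw [b13, c13, mul_zero] at a13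
      have : ((3 * m : ℕ) : ℂ) = 0 := by
        rcases mul_eq_zero.1 a13.symm with h | h
        · exact h
        · norm_num at h
      have : 3 * m = 0 := by exact_mod_cast this
      omega
  · obtain ⟨b3, b13⟩ := T3_not H hA h
    by_cases h' : 3 ∣ q'
    · obtain ⟨m', rfl⟩ := h'
      obtain ⟨c3, c13⟩ := T3_three H hA'
      rw [b13, c13, mul_zero] at a13
      have : ((3 * m' : ℕ) : ℂ) = 0 := by
        rcases mul_eq_zero.1 a13 with h | h
        · exact h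
        · norm_num at h
      have : 3 * m' = 0 := by exact_mod_cast this
      omega
    · obtain ⟨c3, c13⟩ := T3_not H hA' h'
      rw [b3, c3] at a3
      have := mul_right_cancel₀ (by norm_num) a3
      exact_mod_cast this.symm

end Pool.Agent.Iso79
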