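import Pool.Agent.Iso79.AltBasic

/-!
# The scaling trick: primes `k ≡ -1 mod 3 q` separate regular, wall and central elements

Let `θ_j = (tj q v1 j, tj q v2 j)`, `η = (1, 0)` (as a point `(x, y)`; the root values of `η` are
`1, 1, 2`, all non zero), `o = ordj q v1 v2 j`.

`sinProd_lim`: `ε^{-o} sinProd (θ_j + c ε η) → c^o d`, `d ≠ 0`, as `ε → 0`, `ε ≠ 0` (`alt_eq_prod`: exactly `o` of
the three sines vanish at `θ_j`, with nonzero slope; here `o` counts the roots with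
`q ∣ j α(v)`, i.e. `α(θ_j) ∈ 2π ℤ`).

`chi_scale` (`k` prime, `k ≡ -1 mod 3 q`, so `k ≡ 2 mod 3`):
`alt 1 1 (θ_j + εη) χ_{Nk²}(θ_j + εη) = F_{Nk²}(θ_j + εη) = F_N(k θ_j + k ε η) = F_N(-θ_j + kεη)
  = - F_N(θ_j - kεη) = - alt 1 1 (θ_j - kεη) χ_N(θ_j - kεη)`.
Multiply by `ε^{-o}` and let `ε → 0`: `d χ_{Nk²}(θ_j) = -(-k)^o d χ_N(θ_j)`.

`chi3_scale` (`k` prime, `k ≡ 2 mod 3`, `k ≡ r mod q`, `r` prime to `q`, `N = 3`): in the same way
`alt 1 1 (θ_j + εη) χ_{3k²}(θ_j + εη) = alt 1 1 (k θ_j + kεη) = alt 1 1 (r θ_j + kεη)`.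
For `o = 3`: `χ_{3k²}(θ_j) = k³`.  For `o = 1`: let `α` be the root with `q ∣ j α(v)`, and let
`β` be one of the other two (their values at `j v` agree up to sign mod `q`);
`χ_{3k²}(θ_j) = k · sin²(π r j β(v)/q)/sin²(π j β(v)/q)`.  For `o = 0` the value depends only on
`r` (not on `k`).
-/

open Complex Filter Topology

noncomputable section

namespace Pool.Agent.Iso79

/-- the factor of the root value `a` in the wall formula: `1` if `q ∣ j a`, else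
`|sin(π r j a / q)| / |sin(π j a / q)|` -/
def wfac (q : ℕ) (r : ℤ) (j : ℕ) (a : ℤ) : ℝ :=
  if (q : ℤ) ∣ j * a then 1 else
    |Real.sin (Real.pi * (r * (j * a)) / q)| / |Real.sin (Real.pi * (j * a) / q)|

theorem sin_int_eq_zero {q : ℕ} (hq : 0 < q) (n : ℤ) :
    Real.sin (Real.pi * n / q) = 0 ↔ (q : ℤ) ∣ n := by
  have hq' : (q : ℝ) ≠ 0 := by exact_mod_cast hq.ne'
  rw [Real.sin_eq_zero_iff]
  constructor
  · rintro ⟨m, hm⟩
    refine ⟨m, ?_⟩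
    have h1 : (m : ℝ) * q = n := by
      have h2 : (m : ℝ) * Real.pi * q = Real.pi * n := by rw [hm]; field_simp
      have h3 : Real.pi * ((m : ℝ) * q) = Real.pi * n := by rw [← h2]; ring
      exact mul_left_cancel₀ Real.pi_ne_zero h3
    have h4 : m * (q : ℤ) = n := by exact_mod_cast h1
    rw [← h4]; ring
  · rintro ⟨m, rfl⟩
    refine ⟨m, ?_⟩
    push_cast
    field_simp

/-- leading coefficient of `sin (π n / q + ε e)` -/
def ledC (q : ℕ) (n : ℤ) (e : ℝ) : ℝ :=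
  if (q : ℤ) ∣ n then Real.cos (Real.pi * n / q) * e else Real.sin (Real.pi * n / q)

/-- order of vanishing of `sin (π n / q + ε e)` -/
def ordI (q : ℕ) (n : ℤ) : ℕ := if (q : ℤ) ∣ n then 1 else 0

theorem ledC_ne_zero {q : ℕ} (hq : 0 < q) (n : ℤ) {e : ℝ} (he : e ≠ 0) : ledC q n e ≠ 0 := by
  unfold ledC
  split_ifs with h
  · have h1 := (sin_int_eq_zero hq n).2 h
    refine mul_ne_zero (fun h2 => ?_) he
    have := Real.sin_sq_add_cos_sq (Real.pi * n / q)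
    rw [h1, h2] at this
    norm_num at this
  · exact fun h1 => h ((sin_int_eq_zero hq n).1 h1)

theorem sin_lim_ledC {q : ℕ} (hq : 0 < q) (n : ℤ) (c e : ℝ) :
    Tendsto (fun ε : ℝ => Real.sin (Real.pi * n / q + c * ε * e) / ε ^ ordI q n) (𝓝[≠] 0)
      (𝓝 (c ^ ordI q n * ledC q n e)) := by
  have hd : HasDerivAt (fun ε : ℝ => Real.sin (Real.pi * n / q + c * ε * e))
      (Real.cos (Real.pi * n / q + c * 0 * e) * (c * e)) 0 := by
    have h1 : HasDerivAt (fun ε : ℝ => Real.pi * n / q + c * ε * e) (c * e) 0 := by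
      have h2 := ((hasDerivAt_id (0 : ℝ)).const_mul c).mul_const e
      have h3 := h2.const_add (Real.pi * n / q)
      simpa using h3
    exact h1.sin
  unfold ordI ledC
  split_ifs with h
  · have h1 := (sin_int_eq_zero hq n).2 h
    have h2 := hasDerivAt_iff_tendsto_slope_zero.1 hd
    simp only [mul_zero, zero_mul, add_zero, zero_add, h1, sub_zero, smul_eq_mul] at h2
    have h3 : c ^ 1 * (Real.cos (Real.pi * n / q) * e) =
      Real.cos (Real.pi * n / q) * (c * e) := by ring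
    rw [h3]
    refine h2.congr fun ε => ?_
    rw [pow_one]; ring
  · have h2 : Tendsto (fun ε : ℝ => Real.sin (Real.pi * n / q + c * ε * e)) (𝓝[≠] 0)
      (𝓝 (Real.sin (Real.pi * n / q + c * 0 * e))) :=
      hd.continuousAt.tendsto.mono_left nhdsWithin_le_nhds
    simpa using h2

/-- the product of the three sines -/
def sinProd (x y : ℝ) : ℝ :=
  Real.sin ((x - y) / 2) * Real.sin ((x + 2 * y) / 2) * Real.sin ((2 * x + y) / 2)

theorem alt_eq_sinProd (x y : ℝ) : alt 1 1 x y = -8 * I * (sinProd x y : ℝ) := alt_eq_prod x y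

theorem continuous_sinProd : Continuous fun p : ℝ × ℝ => sinProd p.1 p.2 := by
  unfold sinProd; fun_prop

/-- leading coefficient of `sinProd` at `θ_j` -/
def ledJ (q : ℕ) (v1 v2 : ℤ) (j : ℕ) : ℝ :=
  ledC q (j * (v1 - v2)) (1 / 2) * ledC q (j * (v1 + 2 * v2)) (1 / 2) * ledC q (j * (2 * v1 + v2)) 1

theorem ledJ_ne_zero {q : ℕ} (hq : 0 < q) (v1 v2 : ℤ) (j : ℕ) : ledJ q v1 v2 j ≠ 0 :=
  mul_ne_zero (mul_ne_zero (ledC_ne_zero hq _ (by norm_num)) (ledC_ne_zero hq _ (by norm_num)))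
    (ledC_ne_zero hq _ (by norm_num))

theorem ordj_eq_ordI (q : ℕ) (v1 v2 : ℤ) (j : ℕ) : ordj q v1 v2 j =
    ordI q (j * (v1 - v2)) + ordI q (j * (v1 + 2 * v2)) + ordI q (j * (2 * v1 + v2)) := rfl

theorem sinProd_tj (q : ℕ) (v1 v2 : ℤ) (j : ℕ) (s : ℝ) : sinProd (tj q v1 j + s) (tj q v2 j) =
    Real.sin (Real.pi * ((j * (v1 - v2) : ℤ) : ℝ) / q + s / 2) *
    Real.sin (Real.pi * ((j * (v1 + 2 * v2) : ℤ) : ℝ) / q + s / 2) *
    Real.sin (Real.pi * ((j * (2 * v1 + v2) : ℤ) : ℝ) / q + s) := by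
  unfold sinProd tj
  push_cast
  congr 1
  · congr 1
    · congr 1; ring
    · congr 1; ring
  · congr 1; ring

theorem sinProd_lim {q : ℕ} (hq : 0 < q) (v1 v2 : ℤ) (j : ℕ) (c : ℝ) :
    Tendsto (fun ε : ℝ => sinProd (tj q v1 j + c * ε) (tj q v2 j) / ε ^ ordj q v1 v2 j) (𝓝[≠] 0)
      (𝓝 (c ^ ordj q v1 v2 j * ledJ q v1 v2 j)) := by
  have h1 := sin_lim_ledC hq (j * (v1 - v2)) c (1 / 2)
  have h2 := sin_lim_ledC hq (j * (v1 + 2 * v2)) c (1 / 2)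
  have h3 := sin_lim_ledC hq (j * (2 * v1 + v2)) c 1
  have h4 := (h1.mul h2).mul h3
  have e1 : c ^ ordj q v1 v2 j * ledJ q v1 v2 j =
      c ^ ordI q (j * (v1 - v2)) * ledC q (j * (v1 - v2)) (1 / 2) *
      (c ^ ordI q (j * (v1 + 2 * v2)) * ledC q (j * (v1 + 2 * v2)) (1 / 2)) *
      (c ^ ordI q (j * (2 * v1 + v2)) * ledC q (j * (2 * v1 + v2)) 1) := by
    rw [ordj_eq_ordI, pow_add, pow_add]; unfold ledJ; ring
  rw [e1]
  refine h4.congr fun ε => ?_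
  rw [sinProd_tj, ordj_eq_ordI, pow_add, pow_add]
  have a1 : c * ε * (1 / 2) = c * ε / 2 := by ring
  rw [a1, mul_one]
  generalize Real.sin _ = s1
  generalize Real.sin _ = s2
  generalize Real.sin _ = s3
  generalize ε ^ ordI q _ = t1
  generalize ε ^ ordI q _ = t2
  generalize ε ^ ordI q _ = t3
  rw [div_mul_div_comm, div_mul_div_comm]

theorem chi_tendsto {χ : ℕ → ℝ → ℝ → ℂ} (H : IsChi χ) (N : ℕ) (x y c : ℝ) :
    Tendsto (fun ε : ℝ => χ N (x + c * ε) y) (𝓝[≠] 0) (𝓝 (χ N x y)) := by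
  have h1 : Continuous fun ε : ℝ => χ N (x + c * ε) y :=
    (H.cont N).comp (f := fun ε : ℝ => (x + c * ε, y)) (by fun_prop)
  have h2 := (h1.tendsto 0).mono_left (nhdsWithin_le_nhds (s := {0}ᶜ))
  simpa using h2

/-- comparison of two leading coefficients -/
theorem ledJ_eq {χ : ℕ → ℝ → ℝ → ℂ} (H : IsChi χ) {q : ℕ} (hq : 0 < q) {v1 v2 : ℤ} {j j' M M' : ℕ}
    {c b : ℝ} {σ : ℂ} (ho : ordj q v1 v2 j' = ordj q v1 v2 j)
    (h : ∀ ε : ℝ, (sinProd (tj q v1 j + ε) (tj q v2 j) : ℂ) * χ M (tj q v1 j + ε) (tj q v2 j) =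
      σ * ((sinProd (tj q v1 j' + c * ε) (tj q v2 j') : ℂ) *
        χ M' (tj q v1 j' + b * ε) (tj q v2 j'))) :
    (ledJ q v1 v2 j : ℂ) * χ M (tj q v1 j) (tj q v2 j) =
      σ * ((c ^ ordj q v1 v2 j * ledJ q v1 v2 j' : ℝ) * χ M' (tj q v1 j') (tj q v2 j')) := by
  have h1 : Tendsto (fun ε : ℝ => ((sinProd (tj q v1 j + 1 * ε) (tj q v2 j) / ε ^ ordj q v1 v2 j : ℝ) : ℂ)
      * χ M (tj q v1 j + 1 * ε) (tj q v2 j)) (𝓝[≠] 0)
      (𝓝 (((1 ^ ordj q v1 v2 j * ledJ q v1 v2 j : ℝ) : ℂ) * χ M (tj q v1 j) (tj q v2 j))) :=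
    ((continuous_ofReal.tendsto _).comp (sinProd_lim hq v1 v2 j 1)).mul (chi_tendsto H M _ _ 1)
  have h2 : Tendsto (fun ε : ℝ => σ *
      (((sinProd (tj q v1 j' + c * ε) (tj q v2 j') / ε ^ ordj q v1 v2 j' : ℝ) : ℂ)
      * χ M' (tj q v1 j' + b * ε) (tj q v2 j'))) (𝓝[≠] 0)
      (𝓝 (σ * (((c ^ ordj q v1 v2 j' * ledJ q v1 v2 j' : ℝ) : ℂ) *
        χ M' (tj q v1 j') (tj q v2 j')))) :=
    (((continuous_ofReal.tendsto _).comp (sinProd_lim hq v1 v2 j' c)).mul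
      (chi_tendsto H M' _ _ b)).const_mul σ
  have h3 := tendsto_nhds_unique (h1.congr fun ε => ?_) h2
  · rw [one_pow, one_mul] at h3
    rw [h3, ho]
  · rw [one_mul, ofReal_div, ofReal_div, div_mul_eq_mul_div, h ε, ho]
    ring

theorem sin_eventually_ne (s e : ℝ) (he : e ≠ 0) :
    ∀ᶠ ε in 𝓝[≠] (0 : ℝ), Real.sin (s + ε * e) ≠ 0 := by
  have hd : HasDerivAt (fun ε : ℝ => Real.sin (s + ε * e)) (Real.cos (s + 0 * e) * e) 0 := by
    have h1 : HasDerivAt (fun ε : ℝ => s + ε * e) e 0 := by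
      simpa using ((hasDerivAt_id (0 : ℝ)).mul_const e).const_add s
    exact h1.sin
  by_cases h : Real.sin s = 0
  · refine hd.eventually_ne (mul_ne_zero (fun h2 => ?_) he)
    rw [zero_mul, add_zero] at h2
    have := Real.sin_sq_add_cos_sq s
    rw [h, h2] at this
    norm_num at this
  · have h2 : Tendsto (fun ε : ℝ => Real.sin (s + ε * e)) (𝓝[≠] 0)
      (𝓝 (Real.sin (s + 0 * e))) := hd.continuousAt.tendsto.mono_left nhdsWithin_le_nhds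
    rw [zero_mul, add_zero] at h2
    exact h2.eventually_ne h

theorem chi3_eq_one {χ : ℕ → ℝ → ℝ → ℂ} (H : IsChi χ) (x y : ℝ) : χ 3 x y = 1 := by
  have h1 : ∀ x y : ℝ, sinProd x y ≠ 0 → χ 3 x y = 1 := by
    intro x y h
    have h2 := H.rel 3 x y
    rw [FF_three] at h2
    have h3 : alt 1 1 x y ≠ 0 := by
      rw [alt_eq_sinProd]
      exact mul_ne_zero (mul_ne_zero (by norm_num) I_ne_zero) (by exact_mod_cast h)
    have h4 : alt 1 1 x y * χ 3 x y = alt 1 1 x y * 1 := by rw [h2, mul_one]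
    exact mul_left_cancel₀ h3 h4
  -- approach `(x, y)` along `(x + ε, y)`
  have h2 : ∀ᶠ ε in 𝓝[≠] (0 : ℝ), sinProd (x + ε) y ≠ 0 := by
    filter_upwards [sin_eventually_ne ((x - y) / 2) (1 / 2) (by norm_num),
      sin_eventually_ne ((x + 2 * y) / 2) (1 / 2) (by norm_num),
      sin_eventually_ne ((2 * x + y) / 2) 1 (by norm_num)] with ε e1 e2 e3
    have a1 : (x - y) / 2 + ε * (1 / 2) = (x + ε - y) / 2 := by ring
    have a2 : (x + 2 * y) / 2 + ε * (1 / 2) = (x + ε + 2 * y) / 2 := by ring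
    have a3 : (2 * x + y) / 2 + ε * 1 = (2 * (x + ε) + y) / 2 := by ring
    rw [a1] at e1; rw [a2] at e2; rw [a3] at e3
    exact mul_ne_zero (mul_ne_zero e1 e2) e3
  have h3 : Tendsto (fun ε : ℝ => χ 3 (x + 1 * ε) y) (𝓝[≠] 0) (𝓝 (χ 3 x y)) :=
    chi_tendsto H 3 x y 1
  have h4 : Tendsto (fun ε : ℝ => χ 3 (x + 1 * ε) y) (𝓝[≠] 0) (𝓝 1) := by
    refine Tendsto.congr' ?_ tendsto_const_nhds
    filter_upwards [h2] with ε hε
    rw [one_mul]
    exact (h1 _ _ hε).symm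
  exact tendsto_nhds_unique h3 h4

theorem sinProd_chi {χ : ℕ → ℝ → ℝ → ℂ} (H : IsChi χ) (N : ℕ) (x y : ℝ) :
    -8 * I * ((sinProd x y : ℂ) * χ N x y) = FF N x y := by
  rw [← H.rel, alt_eq_sinProd]; ring

theorem eight_I_ne : (-8 * I : ℂ) ≠ 0 := mul_ne_zero (by norm_num) I_ne_zero

theorem chi_scale {χ : ℕ → ℝ → ℝ → ℂ} (H : IsChi χ) {q : ℕ} {v1 v2 : ℤ} (hA : Adm q v1 v2)
    {k : ℕ} (hk : k.Prime) (hk2 : k ≠ 2) (hk3 : 3 * q ∣ k + 1) (N j : ℕ) :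
    χ (N * k ^ 2) (tj q v1 j) (tj q v2 j) =
      -(-(k : ℂ)) ^ ordj q v1 v2 j * χ N (tj q v1 j) (tj q v2 j) := by
  have hq := hA.pos
  have hq' : (q : ℝ) ≠ 0 := by exact_mod_cast hq.ne'
  have hk3' : k % 3 = 2 := by
    have h1 : 3 ∣ k + 1 := (dvd_mul_right 3 q).trans hk3
    omega
  obtain ⟨m, hm⟩ := (dvd_mul_left q 3).trans hk3
  have hm' : (k : ℝ) + 1 = q * m := by exact_mod_cast hm
  have key : ∀ ε : ℝ, (sinProd (tj q v1 j + ε) (tj q v2 j) : ℂ) *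
      χ (N * k ^ 2) (tj q v1 j + ε) (tj q v2 j) =
      (-1) * ((sinProd (tj q v1 j + (-(k : ℝ)) * ε) (tj q v2 j) : ℂ) *
        χ N (tj q v1 j + (-(k : ℝ)) * ε) (tj q v2 j)) := by
    intro ε
    apply mul_left_cancel₀ eight_I_ne
    rw [sinProd_chi H, FF_scale hk hk3' hk2]
    have e1 : (k : ℝ) * (tj q v1 j + ε) = -(tj q v1 j + -(k : ℝ) * ε) +
        2 * Real.pi * ((j * v1 * m : ℤ) : ℝ) := by
      have h1 : (k : ℝ) = q * m - 1 := by rw [← hm']; ring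
      unfold tj
      rw [h1]; push_cast; field_simp; ring
    have e2 : (k : ℝ) * tj q v2 j = -(tj q v2 j) + 2 * Real.pi * ((j * v2 * m : ℤ) : ℝ) := by
      have h1 : (k : ℝ) = q * m - 1 := by rw [← hm']; ring
      unfold tj
      rw [h1]; push_cast; field_simp; ring
    rw [e1, e2, FF_period, FF_neg, ← sinProd_chi H]
    ring
  have h1 := ledJ_eq H hq rfl key
  have hc : (ledJ q v1 v2 j : ℂ) ≠ 0 := by exact_mod_cast ledJ_ne_zero hq v1 v2 j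
  apply mul_left_cancel₀ hc
  rw [h1]
  push_cast
  ring

/-- `k θ_j = θ_{k j}` -/
theorem tj_mul (q : ℕ) (v : ℤ) (k j : ℕ) : tj q v (k * j) = k * tj q v j := by
  unfold tj; push_cast; ring

/-- the sign of `cos (π n / q)`, `q ∣ n` -/
theorem cos_int_mul {q : ℕ} (hq : 0 < q) {n : ℤ} (h : (q : ℤ) ∣ n) {k : ℕ} (hk : Odd k) :
    Real.cos (Real.pi * ((k * n : ℤ) : ℝ) / q) = Real.cos (Real.pi * n / q) := by
  have hq' : (q : ℝ) ≠ 0 := by exact_mod_cast hq.ne'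
  obtain ⟨m, rfl⟩ := h
  have e1 : Real.pi * ((k * ((q : ℤ) * m) : ℤ) : ℝ) / q = ((k * m : ℤ) : ℝ) * Real.pi := by
    push_cast; field_simp
  have e2 : Real.pi * (((q : ℤ) * m : ℤ) : ℝ) / q = (m : ℝ) * Real.pi := by
    push_cast; field_simp
  rw [e1, e2, Real.cos_int_mul_pi, Real.cos_int_mul_pi, zpow_mul, zpow_natCast, hk.neg_one_pow]

/-- the ratio of the leading coefficients -/
def ratR (q k : ℕ) (n : ℤ) : ℝ :=
  if (q : ℤ) ∣ n then 1 else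
    Real.sin (Real.pi * ((k * n : ℤ) : ℝ) / q) / Real.sin (Real.pi * n / q)

theorem ledC_mul {q : ℕ} (hq : 0 < q) {k : ℕ} (hk : Odd k) (n : ℤ) (e : ℝ)
    (h : (q : ℤ) ∣ k * n ↔ (q : ℤ) ∣ n) : ledC q (k * n) e = ratR q k n * ledC q n e := by
  unfold ledC ratR
  by_cases h1 : (q : ℤ) ∣ n
  · rw [if_pos (h.2 h1), if_pos h1, if_pos h1, cos_int_mul hq h1 hk, one_mul]
  · rw [if_neg (fun h2 => h1 (h.1 h2)), if_neg h1, if_neg h1]
    have h2 : Real.sin (Real.pi * n / q) ≠ 0 := fun h2 => h1 ((sin_int_eq_zero hq n).1 h2)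
    field_simp

theorem ledJ_mul {q : ℕ} (hq : 0 < q) {k : ℕ} (hk : Odd k) (v1 v2 : ℤ) (j : ℕ)
    (h : ∀ n : ℤ, (n = j * (v1 - v2) ∨ n = j * (v1 + 2 * v2) ∨ n = j * (2 * v1 + v2)) →
      ((q : ℤ) ∣ k * n ↔ (q : ℤ) ∣ n)) :
    ledJ q v1 v2 (k * j) = ratR q k (j * (v1 - v2)) * ratR q k (j * (v1 + 2 * v2)) *
      ratR q k (j * (2 * v1 + v2)) * ledJ q v1 v2 j := by
  unfold ledJ
  have e1 : ((k * j : ℕ) : ℤ) * (v1 - v2) = k * (j * (v1 - v2)) := by push_cast; ring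
  have e2 : ((k * j : ℕ) : ℤ) * (v1 + 2 * v2) = k * (j * (v1 + 2 * v2)) := by push_cast; ring
  have e3 : ((k * j : ℕ) : ℤ) * (2 * v1 + v2) = k * (j * (2 * v1 + v2)) := by push_cast; ring
  rw [e1, e2, e3, ledC_mul hq hk _ _ (h _ (Or.inl rfl)), ledC_mul hq hk _ _ (h _ (Or.inr (Or.inl rfl))),
    ledC_mul hq hk _ _ (h _ (Or.inr (Or.inr rfl)))]
  ring

theorem ordj_mul {q : ℕ} {k : ℕ} (v1 v2 : ℤ) (j : ℕ)
    (h : ∀ n : ℤ, (n = j * (v1 - v2) ∨ n = j * (v1 + 2 * v2) ∨ n = j * (2 * v1 + v2)) →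
      ((q : ℤ) ∣ k * n ↔ (q : ℤ) ∣ n)) : ordj q v1 v2 (k * j) = ordj q v1 v2 j := by
  unfold ordj
  have e1 : ((k * j : ℕ) : ℤ) * (v1 - v2) = k * (j * (v1 - v2)) := by push_cast; ring
  have e2 : ((k * j : ℕ) : ℤ) * (v1 + 2 * v2) = k * (j * (v1 + 2 * v2)) := by push_cast; ring
  have e3 : ((k * j : ℕ) : ℤ) * (2 * v1 + v2) = k * (j * (2 * v1 + v2)) := by push_cast; ring
  rw [e1, e2, e3]
  simp only [h _ (Or.inl rfl), h _ (Or.inr (Or.inl rfl)), h _ (Or.inr (Or.inr rfl))]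

theorem chi3_scale {χ : ℕ → ℝ → ℝ → ℂ} (H : IsChi χ) {q : ℕ} {v1 v2 : ℤ}
    (hA : Adm q v1 v2) {k : ℕ} (hk : k.Prime) (hk3 : k % 3 = 2) (hk2 : k ≠ 2) {j : ℕ}
    (h : ∀ n : ℤ, (n = j * (v1 - v2) ∨ n = j * (v1 + 2 * v2) ∨ n = j * (2 * v1 + v2)) →
      ((q : ℤ) ∣ k * n ↔ (q : ℤ) ∣ n)) :
    χ (3 * k ^ 2) (tj q v1 j) (tj q v2 j) = ((k : ℝ) ^ ordj q v1 v2 j *
      (ratR q k (j * (v1 - v2)) * ratR q k (j * (v1 + 2 * v2)) * ratR q k (j * (2 * v1 + v2))) : ℝ) := by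
  have hq := hA.pos
  have key : ∀ ε : ℝ, (sinProd (tj q v1 j + ε) (tj q v2 j) : ℂ) *
      χ (3 * k ^ 2) (tj q v1 j + ε) (tj q v2 j) =
      1 * ((sinProd (tj q v1 (k * j) + k * ε) (tj q v2 (k * j)) : ℂ) *
        χ 3 (tj q v1 (k * j) + k * ε) (tj q v2 (k * j))) := by
    intro ε
    apply mul_left_cancel₀ eight_I_ne
    rw [sinProd_chi H, FF_scale hk hk3 hk2, one_mul, sinProd_chi H, tj_mul, tj_mul, mul_add]
  have h1 := ledJ_eq H hq (ordj_mul v1 v2 j h) key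
  have hc : (ledJ q v1 v2 j : ℂ) ≠ 0 := by exact_mod_cast ledJ_ne_zero hq v1 v2 j
  apply mul_left_cancel₀ hc
  rw [h1, chi3_eq_one H, ledJ_mul hq (hk.odd_of_ne_two hk2) v1 v2 j h]
  push_cast
  ring

theorem chi3_scale_central {χ : ℕ → ℝ → ℝ → ℂ} (H : IsChi χ) {q : ℕ} {v1 v2 : ℤ}
    (hA : Adm q v1 v2) {k : ℕ} (hk : k.Prime) (hk3 : k % 3 = 2) (hk2 : k ≠ 2) {j : ℕ}
    (hj : ordj q v1 v2 j = 3) : χ (3 * k ^ 2) (tj q v1 j) (tj q v2 j) = (k : ℂ) ^ 3 := by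
  have h1 : (q : ℤ) ∣ j * (v1 - v2) ∧ (q : ℤ) ∣ j * (v1 + 2 * v2) ∧ (q : ℤ) ∣ j * (2 * v1 + v2) := by
    unfold ordj at hj
    refine ⟨?_, ?_, ?_⟩
    · by_contra a
      rw [if_neg a] at hj
      split_ifs at hj <;> omega
    · by_contra a
      rw [if_neg a] at hj
      split_ifs at hj <;> omega
    · by_contra a
      rw [if_neg a] at hj
      split_ifs at hj <;> omega
  rw [chi3_scale H hA hk hk3 hk2, hj]
  · simp [ratR, h1]
  · rintro n (rfl | rfl | rfl)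
    · exact ⟨fun _ => h1.1, fun h => Dvd.dvd.mul_left h _⟩
    · exact ⟨fun _ => h1.2.1, fun h => Dvd.dvd.mul_left h _⟩
    · exact ⟨fun _ => h1.2.2, fun h => Dvd.dvd.mul_left h _⟩

/-- `ratR` is periodic -/
theorem ratR_add {q : ℕ} (hq : 0 < q) {k : ℕ} (hk : Odd k) (n m : ℤ) (hm : (q : ℤ) ∣ m) :
    ratR q k (n + m) = ratR q k n := by
  have hq' : (q : ℝ) ≠ 0 := by exact_mod_cast hq.ne'
  unfold ratR
  by_cases h : (q : ℤ) ∣ n
  · rw [if_pos ((Int.dvd_add_left hm).2 h), if_pos h]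
  · rw [if_neg (fun h2 => h ((Int.dvd_add_left hm).1 h2)), if_neg h]
    obtain ⟨l, rfl⟩ := hm
    have e1 : Real.pi * ((k * (n + (q : ℤ) * l) : ℤ) : ℝ) / q =
        Real.pi * ((k * n : ℤ) : ℝ) / q + ((k * l : ℤ) : ℝ) * Real.pi := by
      push_cast; field_simp
    have e2 : Real.pi * ((n + (q : ℤ) * l : ℤ) : ℝ) / q =
        Real.pi * (n : ℝ) / q + (l : ℝ) * Real.pi := by
      push_cast; field_simp
    rw [e1, e2, Real.sin_add_int_mul_pi, Real.sin_add_int_mul_pi, zpow_mul, zpow_natCast,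
      hk.neg_one_pow]
    exact mul_div_mul_left _ _ (zpow_ne_zero _ (by norm_num))

theorem ratR_neg (q k : ℕ) (n : ℤ) : ratR q k (-n) = ratR q k n := by
  unfold ratR
  by_cases h : (q : ℤ) ∣ n
  · rw [if_pos ((Int.dvd_neg).2 h), if_pos h]
  · rw [if_neg (fun h2 => h ((Int.dvd_neg).1 h2)), if_neg h]
    have e1 : Real.pi * ((k * (-n) : ℤ) : ℝ) / q = -(Real.pi * ((k * n : ℤ) : ℝ) / q) := by
      push_cast; ring
    have e2 : Real.pi * ((-n : ℤ) : ℝ) / q = -(Real.pi * (n : ℝ) / q) := by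
      push_cast; ring
    rw [e1, e2, Real.sin_neg, Real.sin_neg, neg_div_neg_eq]

theorem abs_ratR {q : ℕ} (hq : 0 < q) {k : ℕ} {r : ℤ} (hkr : (q : ℤ) ∣ k - r) (j : ℕ) (a : ℤ) :
    |ratR q k (j * a)| = wfac q r j a := by
  have hq' : (q : ℝ) ≠ 0 := by exact_mod_cast hq.ne'
  unfold ratR wfac
  split_ifs with h
  · exact abs_one
  · obtain ⟨m, hm⟩ := hkr
    have hm' : (k : ℝ) = r + q * m := by
      have : (k : ℤ) = r + q * m := by rw [← hm]; ring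
      exact_mod_cast this
    have e1 : Real.pi * ((k * (j * a) : ℤ) : ℝ) / q =
        Real.pi * (r * (j * a)) / q + ((m * (j * a) : ℤ) : ℝ) * Real.pi := by
      push_cast; rw [hm']; field_simp
    rw [e1, Real.sin_add_int_mul_pi, abs_div, abs_mul, abs_zpow, abs_neg, abs_one, one_zpow, one_mul]
    push_cast
    rfl

theorem chi3_scale_wall {χ : ℕ → ℝ → ℝ → ℂ} (H : IsChi χ) {q : ℕ} {v1 v2 : ℤ}
    (hA : Adm q v1 v2) {k : ℕ} (hk : k.Prime) (hk3 : k % 3 = 2) (hk2 : k ≠ 2) {r : ℤ}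
    (hr : IsCoprime r q) (hkr : (q : ℤ) ∣ k - r) {j : ℕ} (hj : ordj q v1 v2 j = 1) :
    χ (3 * k ^ 2) (tj q v1 j) (tj q v2 j) = ((k : ℝ) *
      (wfac q r j (v1 - v2) * wfac q r j (v1 + 2 * v2) * wfac q r j (2 * v1 + v2)) : ℝ) := by
  have hq := hA.pos
  have hodd := hk.odd_of_ne_two hk2
  have hkq : IsCoprime (q : ℤ) k := by
    obtain ⟨m, hm⟩ := hkr
    have e : (k : ℤ) = r + q * m := by rw [← hm]; ring
    rw [e]
    exact (IsCoprime.add_mul_left_right hr.symm m)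
  have hdiv : ∀ n : ℤ, (q : ℤ) ∣ k * n ↔ (q : ℤ) ∣ n := fun n =>
    ⟨fun h => hkq.dvd_of_dvd_mul_left h, fun h => Dvd.dvd.mul_left h _⟩
  rw [chi3_scale H hA hk hk3 hk2 fun n _ => hdiv n, hj, pow_one]
  rw [← abs_ratR hq hkr, ← abs_ratR hq hkr, ← abs_ratR hq hkr, ← abs_mul, ← abs_mul]
  have hpos : 0 ≤ ratR q k (j * (v1 - v2)) * ratR q k (j * (v1 + 2 * v2)) *
      ratR q k (j * (2 * v1 + v2)) := by
    unfold ordj at hj
    have e3 : (j : ℤ) * (2 * v1 + v2) = j * (v1 + 2 * v2) + j * (v1 - v2) := by ring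
    have e3' : (j : ℤ) * (2 * v1 + v2) = j * (v1 - v2) + j * (v1 + 2 * v2) := by ring
    have e2 : (j : ℤ) * (v1 + 2 * v2) = -(j * (v1 - v2)) + j * (2 * v1 + v2) := by ring
    by_cases a : (q : ℤ) ∣ j * (v1 - v2)
    · have h1 : ratR q k (j * (v1 - v2)) = 1 := by unfold ratR; rw [if_pos a]
      have h2 : ratR q k (j * (2 * v1 + v2)) = ratR q k (j * (v1 + 2 * v2)) := by
        rw [e3, ratR_add hq hodd _ _ a]
      rw [h1, h2, one_mul]
      exact mul_self_nonneg _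
    · by_cases b : (q : ℤ) ∣ j * (v1 + 2 * v2)
      · have h1 : ratR q k (j * (v1 + 2 * v2)) = 1 := by unfold ratR; rw [if_pos b]
        have h2 : ratR q k (j * (2 * v1 + v2)) = ratR q k (j * (v1 - v2)) := by
          rw [e3', ratR_add hq hodd _ _ b]
        rw [h1, h2, mul_one]
        exact mul_self_nonneg _
      · by_cases c : (q : ℤ) ∣ j * (2 * v1 + v2)
        · have h1 : ratR q k (j * (2 * v1 + v2)) = 1 := by unfold ratR; rw [if_pos c]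
          have h2 : ratR q k (j * (v1 + 2 * v2)) = ratR q k (j * (v1 - v2)) := by
            rw [e2, ratR_add hq hodd _ _ c, ratR_neg]
          rw [h1, h2, mul_one]
          exact mul_self_nonneg _
        · rw [if_neg a, if_neg b, if_neg c] at hj
          omega
  rw [abs_of_nonneg hpos]

/-- regular elements: the value depends only on the class of `k` mod `q` -/
theorem chi3_scale_reg {χ : ℕ → ℝ → ℝ → ℂ} (H : IsChi χ) {q : ℕ} {v1 v2 : ℤ}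
    (hA : Adm q v1 v2) {k k' : ℕ} (hk : k.Prime) (hk3 : k % 3 = 2) (hk2 : k ≠ 2)
    (hk' : k'.Prime) (hk3' : k' % 3 = 2) (hk2' : k' ≠ 2) (hkr : (q : ℤ) ∣ (k : ℤ) - k') {j : ℕ}
    (hj : ordj q v1 v2 j = 0) :
    χ (3 * k ^ 2) (tj q v1 j) (tj q v2 j) = χ (3 * k' ^ 2) (tj q v1 j) (tj q v2 j) := by
  have hq := hA.pos
  have hq' : (q : ℝ) ≠ 0 := by exact_mod_cast hq.ne'
  have h0 : (sinProd (tj q v1 j) (tj q v2 j) : ℂ) ≠ 0 := by
    have h1 := sinProd_tj q v1 v2 j 0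
    simp only [add_zero, zero_div] at h1
    rw [h1]
    unfold ordj at hj
    have a : ¬ (q : ℤ) ∣ j * (v1 - v2) := fun h => by rw [if_pos h] at hj; omega
    have b : ¬ (q : ℤ) ∣ j * (v1 + 2 * v2) := fun h => by rw [if_pos h] at hj; omega
    have c : ¬ (q : ℤ) ∣ j * (2 * v1 + v2) := fun h => by rw [if_pos h] at hj; omega
    have := mul_ne_zero (mul_ne_zero (fun h => a ((sin_int_eq_zero hq _).1 h))
      (fun h => b ((sin_int_eq_zero hq _).1 h))) (fun h => c ((sin_int_eq_zero hq _).1 h))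
    exact_mod_cast this
  apply mul_left_cancel₀ h0
  apply mul_left_cancel₀ eight_I_ne
  rw [sinProd_chi H, sinProd_chi H, FF_scale hk hk3 hk2, FF_scale hk' hk3' hk2']
  obtain ⟨m, hm⟩ := hkr
  have hm' : (k : ℝ) = k' + q * m := by
    have : (k : ℤ) = k' + q * m := by rw [← hm]; ring
    exact_mod_cast this
  have e1 : (k : ℝ) * tj q v1 j = k' * tj q v1 j + 2 * Real.pi * ((j * v1 * m : ℤ) : ℝ) := by
    unfold tj; rw [hm']; push_cast; field_simp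
  have e2 : (k : ℝ) * tj q v2 j = k' * tj q v2 j + 2 * Real.pi * ((j * v2 * m : ℤ) : ℝ) := by
    unfold tj; rw [hm']; push_cast; field_simp
  rw [e1, e2, FF_period]

/-- `ordj` only takes the values `0, 1, 3` -/
theorem ordj_cases {q : ℕ} {v1 v2 : ℤ} (hA : Adm q v1 v2) (j : ℕ) :
    ordj q v1 v2 j = 0 ∨ ordj q v1 v2 j = 1 ∨ ordj q v1 v2 j = 3 := by
  unfold ordj
  have h12 : (q : ℤ) ∣ j * (v1 - v2) → (q : ℤ) ∣ j * (v1 + 2 * v2) →
      (q : ℤ) ∣ j * (2 * v1 + v2) := fun a b => by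
    have e : (j : ℤ) * (2 * v1 + v2) = j * (v1 - v2) + j * (v1 + 2 * v2) := by ring
    rw [e]; exact dvd_add a b
  have h13 : (q : ℤ) ∣ j * (v1 - v2) → (q : ℤ) ∣ j * (2 * v1 + v2) →
      (q : ℤ) ∣ j * (v1 + 2 * v2) := fun a b => by
    have e : (j : ℤ) * (v1 + 2 * v2) = j * (2 * v1 + v2) - j * (v1 - v2) := by ring
    rw [e]; exact dvd_sub b a
  have h23 : (q : ℤ) ∣ j * (v1 + 2 * v2) → (q : ℤ) ∣ j * (2 * v1 + v2) →
      (q : ℤ) ∣ j * (v1 - v2) := fun a b => by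
    have e : (j : ℤ) * (v1 - v2) = j * (2 * v1 + v2) - j * (v1 + 2 * v2) := by ring
    rw [e]; exact dvd_sub b a
  by_cases a : (q : ℤ) ∣ j * (v1 - v2)
  · by_cases b : (q : ℤ) ∣ j * (v1 + 2 * v2)
    · simp [a, b, h12 a b]
    · have c : ¬ (q : ℤ) ∣ j * (2 * v1 + v2) := fun c => b (h13 a c)
      simp [a, b, c]
  · by_cases b : (q : ℤ) ∣ j * (v1 + 2 * v2)
    · have c : ¬ (q : ℤ) ∣ j * (2 * v1 + v2) := fun c => a (h23 b c)
      simp [a, b, c]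
    · by_cases c : (q : ℤ) ∣ j * (2 * v1 + v2)
      · simp [a, b, c]
      · simp [a, b, c]

end Pool.Agent.Iso79
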