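import Pool.Agent.Iso79.Decomp
import Pool.Agent.Iso79.Dense

/-!
# Smooth eigenfunctions are polynomials

`Efun N d` = the functions `ev p`, `p` a sum of elements of `Ec (cN N) μ`, `|μ| = 2 d`.
By `EN_stab` and `ev_detP = 1`, `Efun N (d+3) = Efun N d` for `2 d ≥ 3 N + 6`, and always
`Efun N d ≤ Efun N (d+3)` (`detP_mul_mem`).

Proof of `smooth_eig`.  Let `E = Efun N d₀ + Efun N (d₀+1) + Efun N (d₀+2)`, finite dimensional,
`d₀` with `2 d₀ ≥ 3 N + 6`.  Let `f₁ = f - proj_E f` (projection for `ip`).  `f₁` is smooth with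
`Δ f₁ = cN N • f₁` and orthogonal to `E`.  For `p ∈ Ec c μ`: if `c ≠ cN N` then
`ip (ev p) f₁ = 0` since `conj c · ip (ev p) f₁ = ip (Δ ev p) f₁ = ip (ev p) (Δ f₁) = cN N · ip ..`
(`c` is real, or use: `c = cN N'` by `mE_zero`); if `c = cN N` then `ev p ∈ E` (go up by steps of `3`
and down again), so `ip (ev p) f₁ = 0` as well.  By `Cas_diag` (and `Vw_odd`, every polynomial is a
sum of elements of the `Vw μ`) `ip (ev p) f₁ = 0` for all `p`, so `f₁ = 0` by `eq_zero_of_orth`.

`Efun_indep`: the sum of the three spaces is direct and `ev` is injective on each of them: apply the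
central element `ω ∈ SU(3)`, `ω³ = 1`: `tau ω` multiplies `Efun N d` by `ω^{2d}`
(or `dg (2π/3) (2π/3)`, `ev_dg`).
-/

open Matrix Complex

noncomputable section

namespace Pool.Agent.Iso79

/-- polynomial eigenfunctions of degree `d` -/
def Efun (N d : ℕ) : Submodule ℂ (XX → ℂ) :=
  (⨆ μ ∈ wts d, Ec (cN N) μ).map ev.toLinearMap

theorem se_lap_ev {c : ℂ} {μ : Fin 3 →₀ ℕ} {p : Pol} (hp : p ∈ Ec c μ) :
    HasLap (ev p) (c • ev p) := by
  have h := hasLap_ev p
  rw [(mem_Ec.1 hp).2, map_smul] at h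
  exact h

/-- the functions with eigenvalue `c` -/
def se_EE (c : ℂ) : Submodule ℂ (XX → ℂ) where
  carrier := {f | HasLap f (c • f)}
  add_mem' {a b} ha hb := by
    change HasLap (a + b) (c • (a + b))
    rw [smul_add]
    exact HasLap.add ha hb
  zero_mem' := by
    change HasLap 0 (c • 0)
    rw [smul_zero]
    exact HasLap.zero
  smul_mem' r a ha := by
    change HasLap (r • a) (c • (r • a))
    rw [smul_comm]
    exact HasLap.smul r ha

theorem se_mem_EE {c : ℂ} {f : XX → ℂ} : f ∈ se_EE c ↔ HasLap f (c • f) := Iff.rfl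

theorem se_Efun_le {N d : ℕ} {L : Submodule ℂ (XX → ℂ)}
    (h : ∀ μ, deg3 μ = 2 * d → ∀ p ∈ Ec (cN N) μ, ev p ∈ L) : Efun N d ≤ L := by
  unfold Efun
  rw [Submodule.map_le_iff_le_comap]
  refine iSup₂_le fun μ hμ r hr => ?_
  rw [Submodule.mem_comap]
  exact h μ (mem_wts.1 hμ) r hr

theorem se_mem_Efun {N d : ℕ} {μ : Fin 3 →₀ ℕ} (hμ : deg3 μ = 2 * d) {p : Pol}
    (hp : p ∈ Ec (cN N) μ) : ev p ∈ Efun N d := by
  unfold Efun
  refine Submodule.mem_map_of_mem (f := ev.toLinearMap) ?_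
  exact (le_iSup₂_of_le μ (mem_wts.2 hμ) le_rfl :
    Ec (cN N) μ ≤ ⨆ μ ∈ wts d, Ec (cN N) μ) hp

/-- `f` has eigenvalue `cN N` -/
theorem Efun_lap {N d : ℕ} {f : XX → ℂ} (hf : f ∈ Efun N d) : HasLap f (cN N • f) := by
  have h : Efun N d ≤ se_EE (cN N) := se_Efun_le fun μ _ p hp => se_mem_EE.2 (se_lap_ev hp)
  exact h hf

theorem se_deg_w222 (μ : Fin 3 →₀ ℕ) : deg3 (μ + w222) = deg3 μ + 6 := by
  unfold deg3 w222
  simp
  ring

theorem se_Efun_mono (N d : ℕ) : Efun N d ≤ Efun N (d + 3) := by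
  refine se_Efun_le fun μ hμ p hp => ?_
  have h1 := se_mem_Efun (d := d + 3) (by rw [se_deg_w222, hμ]; ring) (detP_mul_mem hp)
  rw [map_mul, ev_detP, one_mul] at h1
  exact h1

theorem Efun_stab {N d : ℕ} (hd : 3 * N + 6 ≤ 2 * d) : Efun N (d + 3) = Efun N d := by
  refine le_antisymm (se_Efun_le fun μ hμ p hp => ?_) (se_Efun_mono N d)
  obtain ⟨ν, hν, p', hp', rfl⟩ := EN_stab hd hμ hp
  rw [map_mul, ev_detP, one_mul]
  exact se_mem_Efun hν hp'

theorem se_Efun_stab' {N d : ℕ} (hd : 3 * N + 6 ≤ 2 * d) (m : ℕ) :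
    Efun N (d + 3 * m) = Efun N d := by
  induction m with
  | zero => rfl
  | succ m ih =>
    have h := Efun_stab (N := N) (d := d + 3 * m) (by omega)
    rw [show d + 3 * (m + 1) = d + 3 * m + 3 by ring, h, ih]

theorem se_Efun_mono' (N d m : ℕ) : Efun N d ≤ Efun N (d + 3 * m) := by
  induction m with
  | zero => exact le_rfl
  | succ m ih => exact ih.trans (se_Efun_mono N (d + 3 * m))

/-- the sum of the three spaces -/
def se_E (N d : ℕ) : Submodule ℂ (XX → ℂ) := Efun N d ⊔ Efun N (d + 1) ⊔ Efun N (d + 2)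

theorem se_Efun_le_E {N d : ℕ} (hd : 3 * N + 6 ≤ 2 * d) (e : ℕ) : Efun N e ≤ se_E N d := by
  have h1 : ∃ k i m : ℕ, i < 3 ∧ e + 3 * k = d + i + 3 * m := by
    refine ⟨d, (e + 2 * d) % 3, (e + 2 * d) / 3, Nat.mod_lt _ (by norm_num), ?_⟩
    omega
  obtain ⟨k, i, m, hi, h⟩ := h1
  refine (se_Efun_mono' N e k).trans ?_
  rw [h, se_Efun_stab' (by omega)]
  unfold se_E
  interval_cases i
  · exact le_sup_of_le_left le_sup_left
  · exact le_sup_of_le_left le_sup_right
  · exact le_sup_right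

theorem se_Efun_fg (N d : ℕ) : (Efun N d).FG := by
  unfold Efun
  refine Submodule.FG.map _ (Submodule.fg_biSup _ _ fun μ _ => ?_)
  have : Module.Finite ℂ (Ec (cN N) μ) :=
    Submodule.finiteDimensional_of_le (show Ec (cN N) μ ≤ Vw μ from inf_le_left)
  exact Module.Finite.iff_fg.1 this

theorem se_E_finite (N d : ℕ) : FiniteDimensional ℂ (se_E N d) := by
  have : (se_E N d).FG := by
    unfold se_E
    exact ((se_Efun_fg N d).sup (se_Efun_fg N (d + 1))).sup (se_Efun_fg N (d + 2))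
  exact Module.Finite.iff_fg.2 this

theorem se_E_le_EE (N d : ℕ) : se_E N d ≤ se_EE (cN N) := by
  unfold se_E
  exact sup_le (sup_le (fun f hf => Efun_lap hf) (fun f hf => Efun_lap hf))
    (fun f hf => Efun_lap hf)

theorem se_cont {f h : XX → ℂ} (H : HasLap f h) : Continuous f := H.smooth.continuous

theorem se_ip_add_left {f h h' : XX → ℂ} (hf : Continuous f) (hh : Continuous h)
    (hh' : Continuous h') : ip (h + h') f = ip h f + ip h' f := by
  rw [← ip_conj f, ← ip_conj f, ← ip_conj f, ip_add_right hf hh hh', map_add]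

theorem se_ip_smul_left (c : ℂ) (f h : XX → ℂ) :
    ip (c • f) h = starRingEnd ℂ c * ip f h := by
  rw [← ip_conj h, ← ip_conj h, ip_smul_right, map_mul]

theorem se_ip_zero_left (f : XX → ℂ) : ip 0 f = 0 := by
  have h := se_ip_smul_left 0 0 f
  rwa [zero_smul, map_zero, zero_mul] at h

theorem se_ip_zero_right (f : XX → ℂ) : ip f 0 = 0 := by
  have h := ip_smul_right 0 f 0
  rwa [zero_smul, zero_mul] at h

theorem se_ip_sub_right {f h h' : XX → ℂ} (hf : Continuous f) (hh : Continuous h)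
    (hh' : Continuous h') : ip f (h - h') = ip f h - ip f h' := by
  have h1 : h - h' = h + (-1 : ℂ) • h' := by rw [neg_one_smul, sub_eq_add_neg]
  rw [h1, ip_add_right hf hh (hh'.const_smul _), ip_smul_right]
  ring

/-- orthogonal projection on a finite dimensional space of continuous functions -/
theorem se_proj (E : Submodule ℂ (XX → ℂ)) [FiniteDimensional ℂ E]
    (hE : ∀ f ∈ E, Continuous f) {f : XX → ℂ} (hf : Continuous f) :
    ∃ e ∈ E, ∀ x ∈ E, ip x (f - e) = 0 := by
  classical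
  let b := Module.finBasis ℂ E
  let n := Module.finrank ℂ E
  let T : E →ₗ[ℂ] (Fin n → ℂ) :=
    { toFun := fun e i => ip (b i).1 e.1
      map_add' := fun e e' => by
        funext i
        exact ip_add_right (hE _ (b i).2) (hE _ e.2) (hE _ e'.2)
      map_smul' := fun c e => by
        funext i
        exact ip_smul_right c _ _ }
  have hT : ∀ e i, T e i = ip (b i).1 e.1 := fun e i => rfl
  have key : ∀ e : XX → ℂ, (∀ i, ip (b i).1 e = 0) → ∀ x : E, Continuous e → ip x.1 e = 0 := by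
    intro e he x hc
    have h1 : x = ∑ i, b.repr x i • b i := (b.sum_repr x).symm
    have h2 : ∀ s : Finset (Fin n), ip (∑ i ∈ s, b.repr x i • b i : E).1 e = 0 := by
      intro s
      induction s using Finset.induction_on with
      | empty =>
        rw [Finset.sum_empty]
        exact se_ip_zero_left e
      | insert a s ha ih =>
        rw [Finset.sum_insert ha, Submodule.coe_add,
          se_ip_add_left hc (hE _ (Submodule.coe_mem _)) (hE _ (Submodule.coe_mem _)), ih,
          Submodule.coe_smul, se_ip_smul_left, he a, mul_zero, add_zero]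
    rw [h1]
    exact h2 _
  have hinj : Function.Injective T := by
    rw [injective_iff_map_eq_zero]
    intro e he
    have h1 : ip e.1 e.1 = 0 := key e.1 (fun i => congrFun he i) e (hE _ e.2)
    exact Subtype.ext (ip_self_eq_zero (hE _ e.2) h1)
  have hsurj : Function.Surjective T :=
    (LinearMap.injective_iff_surjective_of_finrank_eq_finrank (by
      rw [Module.finrank_fin_fun])).1 hinj
  obtain ⟨e, he⟩ := hsurj fun i => ip (b i).1 f
  refine ⟨e.1, e.2, fun x hx => ?_⟩
  refine key (f - e.1) (fun i => ?_) ⟨x, hx⟩ (hf.sub (hE _ e.2))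
  rw [se_ip_sub_right (hE _ (b i).2) hf (hE _ e.2)]
  have h1 := congrFun he i
  rw [hT] at h1
  rw [h1, sub_self]

/-- the polynomials orthogonal to `f` -/
def se_orth {f : XX → ℂ} (hf : Continuous f) : Submodule ℂ Pol where
  carrier := {p | ip (ev p) f = 0}
  add_mem' {a b} ha hb := by
    change ip (ev (a + b)) f = 0
    rw [map_add, se_ip_add_left hf (continuous_ev a) (continuous_ev b),
      show ip (ev a) f = 0 from ha, show ip (ev b) f = 0 from hb, add_zero]
  zero_mem' := by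
    change ip (ev 0) f = 0
    rw [map_zero, se_ip_zero_left]
  smul_mem' r a ha := by
    change ip (ev (r • a)) f = 0
    rw [map_smul, se_ip_smul_left, show ip (ev a) f = 0 from ha, mul_zero]

theorem se_top_le {L : Submodule ℂ Pol} (h : ∀ c μ, Ec c μ ≤ L) (p : Pol) : p ∈ L := by
  induction p using MvPolynomial.induction_on' with
  | monomial u a =>
    have h1 : MvPolynomial.monomial u a ∈ Vw (Finsupp.weight wt u) := by
      unfold Vw
      rw [MvPolynomial.mem_weightedHomogeneousSubmodule]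
      exact MvPolynomial.isWeightedHomogeneous_monomial _ _ _ rfl
    exact (iSup_le fun c => h c _ : (⨆ c : ℂ, Ec c (Finsupp.weight wt u)) ≤ L)
      (Cas_diag _ h1)
  | add p q hp hq => exact L.add_mem hp hq

theorem se_conj_cN (N : ℕ) : starRingEnd ℂ (cN N) = cN N := by
  unfold cN
  rw [map_neg, map_div₀, map_sub, map_natCast, map_ofNat, map_ofNat]

theorem smooth_eig {N d : ℕ} (hd : 3 * N + 6 ≤ 2 * d) {f : XX → ℂ} (hf : HasLap f (cN N • f)) :
    ∃ f0 ∈ Efun N d, ∃ f1 ∈ Efun N (d + 1), ∃ f2 ∈ Efun N (d + 2), f = f0 + f1 + f2 := by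
  have hfc := se_cont hf
  have := se_E_finite N d
  obtain ⟨e, he, horth⟩ := se_proj (se_E N d) (fun f hf => se_cont (se_E_le_EE N d hf)) hfc
  have hec : Continuous e := se_cont (se_E_le_EE N d he)
  have h1 : f - e ∈ se_EE (cN N) := Submodule.sub_mem _ hf (se_E_le_EE N d he)
  have h1c : Continuous (f - e) := se_cont h1
  have h2 : f - e = 0 := by
    refine eq_zero_of_orth h1c fun p => ?_
    refine se_top_le (L := se_orth h1c) (fun c μ p hp => ?_) p
    change ip (ev p) (f - e) = 0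
    by_cases hc : c = cN N
    · subst hc
      by_cases hμ : Even (deg3 μ)
      · obtain ⟨r, hr⟩ := hμ
        exact horth _ (se_Efun_le_E hd r (se_mem_Efun (by rw [hr]; ring) hp))
      · rw [Vw_odd hμ (mem_Ec.1 hp).1, map_zero]
        exact se_ip_zero_left _
    · by_cases hN : ∃ N', c = cN N'
      · obtain ⟨N', rfl⟩ := hN
        have h3 := ip_lap_symm (se_lap_ev hp) h1
        rw [se_ip_smul_left, ip_smul_right, se_conj_cN] at h3
        have h4 : (cN N' - cN N) * ip (ev p) (f - e) = 0 := by rw [sub_mul, h3, sub_self]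
        exact (mul_eq_zero.1 h4).resolve_left (sub_ne_zero.2 hc)
      · have h3 : mE c μ = 0 := mE_zero (fun N' h => hN ⟨N', h⟩) μ
        unfold mE at h3
        have : Module.Finite ℂ (Ec c μ) :=
          Submodule.finiteDimensional_of_le (show Ec c μ ≤ Vw μ from inf_le_left)
        have h4 := Submodule.finrank_eq_zero.1 h3
        rw [h4, Submodule.mem_bot] at hp
        rw [hp, map_zero]
        exact se_ip_zero_left _
  rw [sub_eq_zero] at h2
  unfold se_E at he
  obtain ⟨a, ha, f2, hf2, h3⟩ := Submodule.mem_sup.1 he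
  obtain ⟨f0, hf0, f1, hf1, h4⟩ := Submodule.mem_sup.1 ha
  exact ⟨f0, hf0, f1, hf1, f2, hf2, by rw [h2, ← h3, ← h4]⟩

/-- homogeneous polynomials at a multiple of a matrix -/
theorem se_evM_smul {d : ℕ} {p : Pol} (hp : p.IsHomogeneous d) (c : ℂ) (S : M3) :
    evM (c • S) p = c ^ d * evM S p := by
  have hF : ∀ z : Sym2 (Fin 3), Sym2.lift ⟨fun a b => ((c • S) a b + (c • S) b a) / 2,
      fun a b => congrArg (· / 2) (add_comm ((c • S) a b) ((c • S) b a))⟩ z =
      c * Sym2.lift ⟨fun a b => (S a b + S b a) / 2,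
        fun a b => congrArg (· / 2) (add_comm (S a b) (S b a))⟩ z := by
    intro z
    induction z using Sym2.ind with
    | _ a b =>
      change (c * S a b + c * S b a) / 2 = c * ((S a b + S b a) / 2)
      ring
  unfold evM
  rw [MvPolynomial.aeval_def, MvPolynomial.aeval_def, MvPolynomial.eval₂_eq',
    MvPolynomial.eval₂_eq', Finset.mul_sum]
  refine Finset.sum_congr rfl fun u hu => ?_
  simp only [hF]
  have h1 : ∑ i, u i = d := by
    have h2 : Finsupp.weight (fun _ : Sym2 (Fin 3) => 1) u = d :=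
      hp (MvPolynomial.mem_support_iff.1 hu)
    rw [← h2, ← Finsupp.degree_eq_weight_one, Finsupp.degree_eq_sum]
  simp only [mul_pow]
  rw [Finset.prod_mul_distrib, Finset.prod_pow_eq_pow_sum, h1]
  ring

/-- multiplication by a cube root of unity on `XX` -/
def se_mul (c : ℂ) (h1 : c * starRingEnd ℂ c = 1) (h3 : c ^ 3 = 1) (S : XX) : XX :=
  ⟨c • S.1, by
    have h := S.2.1
    rw [Matrix.mem_specialUnitaryGroup_iff, Matrix.mem_unitaryGroup_iff] at h ⊢
    refine ⟨?_, ?_⟩
    · rw [star_smul, Matrix.smul_mul, Matrix.mul_smul, h.1, smul_smul]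
      change (c * starRingEnd ℂ c) • (1 : M3) = 1
      rw [h1, one_smul]
    · rw [Matrix.det_smul, h.2, Fintype.card_fin, h3, one_mul], by
    rw [Matrix.transpose_smul, S.2.2]⟩

theorem se_ev_mul {d : ℕ} {p : Pol} (hp : p.IsHomogeneous d) (c : ℂ)
    (h1 : c * starRingEnd ℂ c = 1) (h3 : c ^ 3 = 1) (S : XX) :
    ev p (se_mul c h1 h3 S) = c ^ d * ev p S := se_evM_smul hp c S.1

/-- the decomposition by the centre is direct and `ev` is injective -/
theorem Efun_indep {d : ℕ} {p0 p1 p2 : Pol} (h0 : p0.IsHomogeneous d)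
    (h1 : p1.IsHomogeneous (d + 1)) (h2 : p2.IsHomogeneous (d + 2))
    (h : ev p0 + ev p1 + ev p2 = 0) : p0 = 0 ∧ p1 = 0 ∧ p2 = 0 := by
  obtain ⟨c, hc1, hc3, hcs⟩ : ∃ c : ℂ, c * starRingEnd ℂ c = 1 ∧ c ^ 3 = 1 ∧
      1 + c + c ^ 2 = 0 := by
    have hp := Complex.isPrimitiveRoot_exp 3 (by norm_num)
    have h3 := hp.pow_eq_one
    refine ⟨Complex.exp (2 * Real.pi * I / (3 : ℕ)), ?_, h3, ?_⟩
    · have h4 := Complex.norm_eq_one_of_pow_eq_one h3 (by norm_num)
      rw [Complex.mul_conj, Complex.normSq_eq_norm_sq, h4]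
      norm_num
    · have h5 := hp.geom_sum_eq_zero (by norm_num)
      simp only [Finset.sum_range_succ, Finset.sum_range_zero, zero_add, pow_zero,
        pow_one] at h5
      exact h5
  have hcd1 : (c ^ 2) * starRingEnd ℂ (c ^ 2) = 1 := by
    rw [map_pow, ← mul_pow, hc1, one_pow]
  have hcd3 : (c ^ 2) ^ 3 = 1 := by rw [← pow_mul, mul_comm, pow_mul, hc3, one_pow]
  have hcne : c ≠ 0 := by
    intro h
    rw [h] at hc3
    norm_num at hc3
  have key : ∀ S : XX, ev p0 S = 0 ∧ ev p1 S = 0 ∧ ev p2 S = 0 := by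
    intro S
    have k0 : ev p0 S + ev p1 S + ev p2 S = 0 := congrFun h S
    have k1 : ev p0 (se_mul c hc1 hc3 S) + ev p1 (se_mul c hc1 hc3 S) +
      ev p2 (se_mul c hc1 hc3 S) = 0 := congrFun h _
    have k2 : ev p0 (se_mul (c ^ 2) hcd1 hcd3 S) + ev p1 (se_mul (c ^ 2) hcd1 hcd3 S) +
      ev p2 (se_mul (c ^ 2) hcd1 hcd3 S) = 0 := congrFun h _
    rw [se_ev_mul h0, se_ev_mul h1, se_ev_mul h2] at k1 k2
    have hcd : c ^ d ≠ 0 := pow_ne_zero _ hcne
    have hcd' : (c ^ 2) ^ d ≠ 0 := pow_ne_zero _ (pow_ne_zero _ hcne)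
    have k1' : ev p0 S + c * ev p1 S + c ^ 2 * ev p2 S = 0 := by
      refine mul_left_cancel₀ hcd ?_
      rw [mul_zero, ← k1]
      ring
    have k2' : ev p0 S + c ^ 2 * ev p1 S + c ^ 4 * ev p2 S = 0 := by
      refine mul_left_cancel₀ hcd' ?_
      rw [mul_zero, ← k2]
      ring
    generalize ev p0 S = a at *
    generalize ev p1 S = b at *
    generalize ev p2 S = e at *
    have e1 : 3 * a = 0 := by
      linear_combination k0 + k1' + k2' - b * hcs - e * hcs - e * c * hc3
    have e2 : 3 * b = 0 := by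
      linear_combination k0 + c ^ 2 * k1' + c * k2' - a * hcs - 2 * b * hc3 - e * hcs -
        e * (c + c ^ 2) * hc3
    have a0 : a = 0 := by simpa using e1
    have b0 : b = 0 := by simpa using e2
    refine ⟨a0, b0, ?_⟩
    rw [a0, b0] at k0
    simpa using k0
  refine ⟨ev_inj h0 ?_, ev_inj h1 ?_, ev_inj h2 ?_⟩
  · funext S; exact (key S).1
  · funext S; exact (key S).2.1
  · funext S; exact (key S).2.2

end Pool.Agent.Iso79
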