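import Pool.Agent.Iso79.SmoothEig
import Pool.Agent.Iso79.NTDefs

/-!
# Multiplicities of the eigenvalues of `XX / Γ` for the diagonal cyclic groups

`chi N x y = ∑_{i=0,1,2} ∑_{|μ| = 2 (d₀+i)} mE (cN N) μ · e^{i (μ₀ x + μ₁ y - μ₂ (x+y))}` with
`d₀ = 3 N + 6` is the trace of `dg x y` on the space of smooth eigenfunctions for `cN N`.

Proof of `chi_rel`.  Evaluate `ch_formula` at `t = (e^{ix}, e^{iy}, e^{-i(x+y)})`: `vdm` becomes
`alt 1 1 x y`, `altJ d (m,n)` becomes `alt m n x y` (because `t₁t₂t₃ = 1`), and the three sets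
`{(m,n) ∈ Jd (d₀+i) : m²+mn+n² = N}` (`i = 0,1,2`; condition `3 ∣ 2d+3-(m+2n)`) form a partition of
`shell N`.

Proof of `rank_Eig`.  By `smooth_eig`, `Efun_indep` the space of smooth eigenfunctions is
isomorphic to `⊕_i ⊕_{|μ| = 2(d₀+i)} Ec (cN N) μ`, `tau (dg (tj q v1 1) (tj q v2 1))` acts on
`Ec (cN N) μ` by `exp (2π i ⟨μ, v⟩/q)`, `⟨μ,v⟩ = μ₀ v₁ + μ₁ v₂ - μ₂ (v₁+v₂)` (`ev_dg`), so `Eig` has
the dimension `r = ∑_{q ∣ ⟨μ,v⟩} mE (cN N) μ`, and `∑_{j<q} exp (2π i j ⟨μ,v⟩/q) = q` or `0`.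
-/

open Matrix Complex

noncomputable section

namespace Pool.Agent.Iso79

/-- the trace of `dg x y` on the eigenspace for `cN N` -/
def chi (N : ℕ) (x y : ℝ) : ℂ :=
  ∑ i ∈ Finset.range 3, ∑ μ ∈ wts (3 * N + 6 + i),
    (mE (cN N) μ : ℂ) * ee (μ 0 * x + μ 1 * y - μ 2 * (x + y))

theorem spec_ee_add (a b : ℝ) : ee (a + b) = ee a * ee b := by
  unfold ee
  rw [← Complex.exp_add]
  congr 1
  push_cast
  ring

theorem spec_ee_nat (n : ℕ) (a : ℝ) : ee (n * a) = ee a ^ n := by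
  unfold ee
  rw [← Complex.exp_nat_mul]
  congr 1
  push_cast
  ring

theorem spec_ee3 (x y : ℝ) (p q r : ℕ) :
    ee x ^ p * ee y ^ q * ee (-(x + y)) ^ r = ee (p * x + q * y - r * (x + y)) := by
  rw [← spec_ee_nat, ← spec_ee_nat, ← spec_ee_nat, ← spec_ee_add, ← spec_ee_add]
  congr 1
  ring

/-- evaluation at the torus element -/
def spec_phi (x y : ℝ) : MvPolynomial (Fin 3) ℤ →+* ℂ :=
  MvPolynomial.eval₂Hom (Int.castRingHom ℂ) ![ee x, ee y, ee (-(x + y))]

theorem spec_phi_X0 (x y : ℝ) : spec_phi x y (MvPolynomial.X 0) = ee x := by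
  unfold spec_phi; simp

theorem spec_phi_X1 (x y : ℝ) : spec_phi x y (MvPolynomial.X 1) = ee y := by
  unfold spec_phi; simp

theorem spec_phi_X2 (x y : ℝ) : spec_phi x y (MvPolynomial.X 2) = ee (-(x + y)) := by
  unfold spec_phi; simp

theorem spec_phi_monomial (x y : ℝ) (μ : Fin 3 →₀ ℕ) (k : ℤ) :
    spec_phi x y (MvPolynomial.monomial μ k) =
      (k : ℂ) * ee (μ 0 * x + μ 1 * y - μ 2 * (x + y)) := by
  rw [← spec_ee3]
  unfold spec_phi
  rw [MvPolynomial.coe_eval₂Hom, MvPolynomial.eval₂_monomial, Finsupp.prod_fintype _ _ (by simp),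
    Fin.prod_univ_three]
  simp

theorem spec_phi_altP (x y : ℝ) (m n l : ℕ) :
    spec_phi x y (altP (l + m + n) (l + n) l) = alt m n x y := by
  unfold altP alt
  simp only [map_add, map_sub, map_mul, map_pow, spec_phi_X0, spec_phi_X1, spec_phi_X2]
  have e1 : ee x ^ (l + m + n) * ee y ^ (l + n) * ee (-(x + y)) ^ l =
      ee (((m : ℤ) + (n : ℤ)) * x + (n : ℤ) * y) := by
    rw [spec_ee3]; congr 1; push_cast; ring
  have e2 : ee y ^ (l + m + n) * ee x ^ (l + n) * ee (-(x + y)) ^ l =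
      ee ((n : ℤ) * x + ((m : ℤ) + (n : ℤ)) * y) := by
    rw [mul_comm (ee y ^ (l + m + n)), spec_ee3]; congr 1; push_cast; ring
  have e3 : ee x ^ (l + m + n) * ee (-(x + y)) ^ (l + n) * ee y ^ l =
      ee ((m : ℤ) * x - (n : ℤ) * y) := by
    rw [mul_right_comm, spec_ee3]; congr 1; push_cast; ring
  have e4 : ee y ^ (l + m + n) * ee (-(x + y)) ^ (l + n) * ee x ^ l =
      ee (-((n : ℤ) * x) + (m : ℤ) * y) := by
    rw [mul_right_comm, mul_comm (ee y ^ (l + m + n)), spec_ee3]; congr 1; push_cast; ring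
  have e5 : ee (-(x + y)) ^ (l + m + n) * ee x ^ (l + n) * ee y ^ l =
      ee (-((m : ℤ) * x) - ((m : ℤ) + (n : ℤ)) * y) := by
    rw [mul_assoc, mul_comm, spec_ee3]; congr 1; push_cast; ring
  have e6 : ee (-(x + y)) ^ (l + m + n) * ee y ^ (l + n) * ee x ^ l =
      ee (-(((m : ℤ) + (n : ℤ)) * x) - (m : ℤ) * y) := by
    rw [mul_assoc, mul_comm, mul_comm (ee y ^ (l + n)), spec_ee3]; congr 1; push_cast; ring
  rw [e1, e2, e3, e4, e5, e6]
  ring

theorem spec_phi_vdm (x y : ℝ) : spec_phi x y vdm = alt 1 1 x y := by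
  have h := spec_phi_altP x y 1 1 0
  rw [show ((1 : ℕ) : ℤ) = 1 from rfl] at h
  rw [← h]
  congr 1
  unfold vdm altP
  ring

theorem spec_phi_chE (x y : ℝ) (c : ℂ) (d : ℕ) : spec_phi x y (chE c d) =
    ∑ μ ∈ wts d, (mE c μ : ℂ) * ee (μ 0 * x + μ 1 * y - μ 2 * (x + y)) := by
  unfold chE
  rw [map_sum]
  refine Finset.sum_congr rfl fun μ _ => ?_
  rw [spec_phi_monomial]
  push_cast
  rfl

theorem spec_filter (N i : ℕ) : (Jd (3 * N + 6 + i)).filter
    (fun p => p.1 ^ 2 + p.1 * p.2 + p.2 ^ 2 = N) =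
    (shell N).filter (fun p => (2 * i + 2 * p.1 + p.2) % 3 = 0) := by
  ext ⟨m, n⟩
  unfold Jd shell
  simp only [Finset.mem_filter, Finset.mem_product, Finset.mem_range]
  constructor
  · rintro ⟨⟨⟨h1, h2⟩, h3, h4, h5, h6⟩, h7⟩
    have hm : m ≤ N := by nlinarith [Nat.zero_le (m * n), Nat.zero_le (n ^ 2), h3.pos]
    have hn : n ≤ N := by nlinarith [Nat.zero_le (m * n), Nat.zero_le (m ^ 2), h4.pos]
    refine ⟨⟨⟨by omega, by omega⟩, h3, h4, h7⟩, by omega⟩
  · rintro ⟨⟨⟨h1, h2⟩, h3, h4, h7⟩, h6⟩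
    refine ⟨⟨⟨by omega, by omega⟩, h3, h4, by omega, by omega⟩, h7⟩

theorem chi_isChi : IsChi chi := by
  refine ⟨fun N => ?_, fun N x y => ?_⟩
  · unfold chi ee
    fun_prop
  · have h1 : alt 1 1 x y * chi N x y = ∑ i ∈ Finset.range 3,
        spec_phi x y (vdm * chE (cN N) (3 * N + 6 + i)) := by
      unfold chi
      rw [Finset.mul_sum]
      refine Finset.sum_congr rfl fun i _ => ?_
      rw [map_mul, spec_phi_vdm, spec_phi_chE]
    have h2 : ∀ i, spec_phi x y (vdm * chE (cN N) (3 * N + 6 + i)) =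
        ∑ p ∈ shell N, if (2 * i + 2 * p.1 + p.2) % 3 = 0 then alt p.1 p.2 x y else 0 := by
      intro i
      rw [ch_formula, spec_filter, map_sum, Finset.sum_filter]
      refine Finset.sum_congr rfl fun p _ => ?_
      rw [altJ, spec_phi_altP]
    rw [h1, Finset.sum_congr rfl fun i _ => h2 i, Finset.sum_comm]
    unfold FF
    refine Finset.sum_congr rfl fun p _ => ?_
    simp only [Finset.sum_range_succ, Finset.sum_range_zero]
    rcases (by omega : (2 * p.1 + p.2) % 3 = 0 ∨ (2 * p.1 + p.2) % 3 = 1 ∨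
      (2 * p.1 + p.2) % 3 = 2) with h | h | h
    · rw [if_pos (by omega), if_neg (by omega), if_neg (by omega)]; ring
    · rw [if_neg (by omega), if_pos (by omega), if_neg (by omega)]; ring
    · rw [if_neg (by omega), if_neg (by omega), if_pos (by omega)]; ring

/-! ### the rank of the invariant eigenspaces -/

theorem spec_sum_zero (s : Finset (Fin 3 →₀ ℕ)) (g : (Fin 3 →₀ ℕ) → Pol) (hg : ∀ μ, g μ ∈ Vw μ)
    (h : ∑ μ ∈ s, g μ = 0) : ∀ μ ∈ s, g μ = 0 := by
  intro μ hμ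
  ext a
  rw [MvPolynomial.coeff_zero]
  by_contra hne
  have hw : ∀ ν, MvPolynomial.coeff a (g ν) ≠ 0 → Finsupp.weight wt a = ν := fun ν hν =>
    (MvPolynomial.mem_weightedHomogeneousSubmodule _ _ _ _).1 (hg ν) hν
  have h1 : MvPolynomial.coeff a (∑ ν ∈ s, g ν) = MvPolynomial.coeff a (g μ) := by
    rw [MvPolynomial.coeff_sum]
    refine Finset.sum_eq_single_of_mem μ hμ fun ν _ hν => ?_
    by_contra hne'
    exact hν ((hw ν hne').symm.trans (hw μ hne))
  rw [h, MvPolynomial.coeff_zero] at h1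
  exact hne h1.symm

theorem spec_indep {d : ℕ} {g : (Fin 3 →₀ ℕ) → Pol} (hg : ∀ μ, g μ ∈ Vw μ)
    (h : ∑ i ∈ Finset.range 3, ∑ μ ∈ wts (d + i), ev (g μ) = 0) :
    ∀ i < 3, ∀ μ ∈ wts (d + i), g μ = 0 := by
  have hh : ∀ e, (∑ μ ∈ wts e, g μ).IsHomogeneous e := fun e =>
    MvPolynomial.IsHomogeneous.sum _ _ _ fun μ hμ => Vw_homog (mem_wts.1 hμ) (hg μ)
  have h1 := Efun_indep (hh d) (hh (d + 1)) (hh (d + 2)) (by
    simp only [Finset.sum_range_succ, Finset.sum_range_zero, zero_add, add_zero] at h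
    rw [map_sum, map_sum, map_sum]
    exact h)
  intro i hi
  apply spec_sum_zero _ g hg
  interval_cases i
  · exact h1.1
  · exact h1.2.1
  · exact h1.2.2

/-- all weights in the three degrees -/
def spec_W (N : ℕ) : Finset (Fin 3 →₀ ℕ) :=
  (Finset.range 3).biUnion fun i => wts (3 * N + 6 + i)

theorem spec_sum_W {M : Type*} [AddCommMonoid M] (N : ℕ) (f : (Fin 3 →₀ ℕ) → M) :
    ∑ μ ∈ spec_W N, f μ = ∑ i ∈ Finset.range 3, ∑ μ ∈ wts (3 * N + 6 + i), f μ := by
  unfold spec_W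
  refine Finset.sum_biUnion ?_
  intro i _ j _ hij
  rw [Function.onFun, Finset.disjoint_left]
  intro μ h1 h2
  have e1 := mem_wts.1 h1
  have e2 := mem_wts.1 h2
  exact hij (by omega)

theorem spec_indep' {N : ℕ} {g : (Fin 3 →₀ ℕ) → Pol} (hg : ∀ μ, g μ ∈ Vw μ)
    (h : ∑ μ ∈ spec_W N, ev (g μ) = 0) : ∀ μ ∈ spec_W N, g μ = 0 := by
  rw [spec_sum_W] at h
  intro μ hμ
  unfold spec_W at hμ
  rw [Finset.mem_biUnion] at hμ
  obtain ⟨i, hi, hμ⟩ := hμ
  exact spec_indep hg h i (Finset.mem_range.1 hi) μ hμ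

theorem spec_Efun {N d : ℕ} {f : XX → ℂ} (hf : f ∈ Efun N d) :
    ∃ g : (Fin 3 →₀ ℕ) → Pol, (∀ μ, g μ ∈ Ec (cN N) μ) ∧ f = ∑ μ ∈ wts d, ev (g μ) := by
  unfold Efun at hf
  obtain ⟨p, hp, rfl⟩ := hf
  obtain ⟨g, hg⟩ := (Submodule.mem_iSup_finset_iff_exists_sum _ _).1 hp
  refine ⟨fun μ => (g μ).1, fun μ => (g μ).2, ?_⟩
  rw [← hg]
  exact map_sum _ _ _

theorem spec_span {N : ℕ} {f : XX → ℂ} (hf : HasLap f (cN N • f)) :
    ∃ g : (Fin 3 →₀ ℕ) → Pol, (∀ μ, g μ ∈ Ec (cN N) μ) ∧ f = ∑ μ ∈ spec_W N, ev (g μ) := by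
  obtain ⟨f0, h0, f1, h1, f2, h2, rfl⟩ := smooth_eig (N := N) (d := 3 * N + 6) (by omega) hf
  obtain ⟨g0, k0, e0⟩ := spec_Efun h0
  obtain ⟨g1, k1, e1⟩ := spec_Efun h1
  obtain ⟨g2, k2, e2⟩ := spec_Efun h2
  refine ⟨fun μ => if deg3 μ = 2 * (3 * N + 6) then g0 μ else
    if deg3 μ = 2 * (3 * N + 6 + 1) then g1 μ else g2 μ, fun μ => ?_, ?_⟩
  · dsimp only
    split_ifs
    · exact k0 μ
    · exact k1 μ
    · exact k2 μ
  · rw [spec_sum_W]
    simp only [Finset.sum_range_succ, Finset.sum_range_zero, zero_add, add_zero]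
    rw [e0, e1, e2]
    congr 1
    · congr 1
      · refine Finset.sum_congr rfl fun μ hμ => ?_
        rw [if_pos (mem_wts.1 hμ)]
      · refine Finset.sum_congr rfl fun μ hμ => ?_
        rw [if_neg (by rw [mem_wts.1 hμ]; omega), if_pos (mem_wts.1 hμ)]
    · refine Finset.sum_congr rfl fun μ hμ => ?_
      rw [if_neg (by rw [mem_wts.1 hμ]; omega), if_neg (by rw [mem_wts.1 hμ]; omega)]

theorem spec_lap_ev {c : ℂ} {μ : Fin 3 →₀ ℕ} {p : Pol} (hp : p ∈ Ec c μ) :
    HasLap (ev p) (c • ev p) := by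
  have h := hasLap_ev p
  rw [(mem_Ec.1 hp).2, map_smul] at h
  exact h

theorem spec_lap_sum {ι : Type*} (s : Finset ι) (f : ι → XX → ℂ) (c : ℂ)
    (h : ∀ i ∈ s, HasLap (f i) (c • f i)) : HasLap (∑ i ∈ s, f i) (c • ∑ i ∈ s, f i) := by
  classical
  induction s using Finset.induction_on with
  | empty => rw [Finset.sum_empty, smul_zero]; exact HasLap.zero
  | insert a s ha ih =>
    rw [Finset.sum_insert ha, smul_add]
    exact (h a (Finset.mem_insert_self a s)).add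
      (ih fun i hi => h i (Finset.mem_insert_of_mem hi))

/-- the stabiliser of a function -/
def spec_stab (f : XX → ℂ) : Subgroup (Equiv.Perm XX) where
  carrier := {γ | f ∘ γ = f}
  mul_mem' {a b} ha hb := by
    change f ∘ (a * b) = f
    rw [Equiv.Perm.coe_mul, ← Function.comp_assoc, show f ∘ a = f from ha]
    exact hb
  one_mem' := rfl
  inv_mem' {a} ha := by
    change f ∘ (a⁻¹ : Equiv.Perm XX) = f
    conv_lhs => rw [← show f ∘ a = f from ha]
    rw [Function.comp_assoc, ← Equiv.Perm.coe_mul, mul_inv_cancel]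
    rfl

/-- the cyclic group generated by `S ↦ t S t`, `t = diag(e^{2π i v₁/q}, e^{2π i v₂/q}, ..)` -/
def Gam (q : ℕ) (v1 v2 : ℤ) : Subgroup (Equiv.Perm XX) :=
  Subgroup.zpowers (tau (dg (tj q v1 1) (tj q v2 1)))

theorem spec_mem_Eig {q : ℕ} {v1 v2 : ℤ} {N : ℕ} {f : XX → ℂ} :
    f ∈ Eig (Gam q v1 v2) (((N : ℝ) - 3) / 6) ↔
      HasLap f (cN N • f) ∧ f ∘ tau (dg (tj q v1 1) (tj q v2 1)) = f := by
  have hc : -((((N : ℝ) - 3) / 6 : ℝ) : ℂ) = cN N := by
    unfold cN; push_cast; rfl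
  have h1 : f ∈ Eig (Gam q v1 v2) (((N : ℝ) - 3) / 6) ↔
      HasLap f (-((((N : ℝ) - 3) / 6 : ℝ) : ℂ) • f) ∧ ∀ γ ∈ Gam q v1 v2, f ∘ γ = f := Iff.rfl
  rw [h1, hc]
  refine and_congr_right fun _ => ?_
  constructor
  · intro h
    exact h _ (Subgroup.mem_zpowers _)
  · intro h γ hγ
    have h2 : Gam q v1 v2 ≤ spec_stab f := Subgroup.zpowers_le.2 h
    exact h2 hγ

/-- the pairing of a weight and `v` -/
def spec_pair (μ : Fin 3 →₀ ℕ) (v1 v2 : ℤ) : ℤ := μ 0 * v1 + μ 1 * v2 - μ 2 * (v1 + v2)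

theorem spec_ee_tj (q : ℕ) (v1 v2 : ℤ) (μ : Fin 3 →₀ ℕ) (j : ℕ) :
    ee (μ 0 * tj q v1 j + μ 1 * tj q v2 j - μ 2 * (tj q v1 j + tj q v2 j)) =
      ee (2 * Real.pi * spec_pair μ v1 v2 / q) ^ j := by
  rw [← spec_ee_nat]
  congr 1
  unfold tj spec_pair
  push_cast
  ring

theorem spec_ee_one {q : ℕ} (hq : 0 < q) (k : ℤ) :
    ee (2 * Real.pi * k / q) = 1 ↔ (q : ℤ) ∣ k := by
  unfold ee
  rw [Complex.exp_eq_one_iff]
  have hq' : (q : ℂ) ≠ 0 := Nat.cast_ne_zero.2 hq.ne'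
  have hpi : (Real.pi : ℂ) ≠ 0 := Complex.ofReal_ne_zero.2 Real.pi_ne_zero
  constructor
  · rintro ⟨n, hn⟩
    refine ⟨n, ?_⟩
    have h1 : I * ((2 * Real.pi * k / q : ℝ) : ℂ) * q = n * (2 * Real.pi * I) * q := by rw [hn]
    have h2 : (2 * Real.pi * I : ℂ) * k = (2 * Real.pi * I : ℂ) * (q * n) := by
      push_cast at h1
      field_simp at h1
      linear_combination (2 * Real.pi * I : ℂ) * h1
    have h3 := mul_left_cancel₀ (by
      refine mul_ne_zero (mul_ne_zero two_ne_zero hpi) I_ne_zero) h2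
    exact_mod_cast h3
  · rintro ⟨n, rfl⟩
    refine ⟨n, ?_⟩
    push_cast
    field_simp

theorem spec_geom {q : ℕ} (hq : 0 < q) (k : ℤ) :
    ∑ j ∈ Finset.range q, ee (2 * Real.pi * k / q) ^ j = if (q : ℤ) ∣ k then (q : ℂ) else 0 := by
  split_ifs with h
  · rw [(spec_ee_one hq k).2 h]
    simp
  · have h1 : ee (2 * Real.pi * k / q) ≠ 1 := fun h' => h ((spec_ee_one hq k).1 h')
    have h2 : ee (2 * Real.pi * k / q) ^ q = 1 := by
      rw [← spec_ee_nat]
      have h3 := (spec_ee_one Nat.one_pos k).2 (by simp)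
      rw [← h3]
      congr 1
      have hq' : (q : ℝ) ≠ 0 := Nat.cast_ne_zero.2 hq.ne'
      push_cast
      field_simp
    rw [geom_sum_eq h1, h2, sub_self, zero_div]

/-- the sum map -/
def spec_Phi (c : ℂ) (s : Finset (Fin 3 →₀ ℕ)) :
    ((μ : s) → Ec c μ.1) →ₗ[ℂ] (XX → ℂ) :=
  ∑ μ : s, ev.toLinearMap ∘ₗ (Ec c μ.1).subtype ∘ₗ LinearMap.proj μ

theorem spec_Phi_apply (c : ℂ) (s : Finset (Fin 3 →₀ ℕ)) (g : (μ : s) → Ec c μ.1) :
    spec_Phi c s g = ∑ μ : s, ev (g μ).1 := by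
  unfold spec_Phi
  rw [LinearMap.sum_apply]
  rfl

open scoped Classical in
theorem spec_Phi_apply' (c : ℂ) (s t : Finset (Fin 3 →₀ ℕ)) (hst : s ⊆ t)
    (g : (μ : s) → Ec c μ.1) :
    spec_Phi c s g = ∑ μ ∈ t, ev (if h : μ ∈ s then (g ⟨μ, h⟩).1 else 0) := by
  rw [spec_Phi_apply]
  have h1 : ∑ μ ∈ t, ev (if h : μ ∈ s then (g ⟨μ, h⟩).1 else 0) =
      ∑ μ ∈ s, ev (if h : μ ∈ s then (g ⟨μ, h⟩).1 else 0) := by
    refine (Finset.sum_subset hst fun μ _ hμ => ?_).symm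
    rw [dif_neg hμ, map_zero]
  rw [h1, ← Finset.sum_attach s]
  refine Finset.sum_congr rfl fun μ _ => ?_
  rw [dif_pos μ.2]

theorem spec_tau {q : ℕ} {v1 v2 : ℤ} {μ : Fin 3 →₀ ℕ} {p : Pol} (hp : p ∈ Vw μ) :
    ev p ∘ tau (dg (tj q v1 1) (tj q v2 1)) =
      ee (2 * Real.pi * spec_pair μ v1 v2 / q) • ev p := by
  rw [ev_dg hp]
  have h := spec_ee_tj q v1 v2 μ 1
  rw [pow_one] at h
  rw [← h]
  unfold ee
  push_cast
  rfl

theorem rank_Eig (q : ℕ) (hq : 0 < q) (v1 v2 : ℤ) (N : ℕ) :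
    ∃ r : ℕ, Module.rank ℂ (Eig (Gam q v1 v2) (((N : ℝ) - 3) / 6)) = r ∧
      (q : ℂ) * r = Tsum chi q v1 v2 N := by
  classical
  set W' := (spec_W N).filter (fun μ => (q : ℤ) ∣ spec_pair μ v1 v2) with hW'
  have hsub : W' ⊆ spec_W N := Finset.filter_subset _ _
  refine ⟨∑ μ ∈ W', mE (cN N) μ, ?_, ?_⟩
  · have hinj : Function.Injective (spec_Phi (cN N) W') := by
      rw [injective_iff_map_eq_zero]
      intro g hg
      rw [spec_Phi_apply' _ _ _ hsub] at hg
      have h1 := spec_indep' (N := N)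
        (g := fun μ => if h : μ ∈ W' then (g ⟨μ, h⟩).1 else 0) (fun μ => by
          dsimp only
          split_ifs with h
          · exact (mem_Ec.1 (g ⟨μ, h⟩).2).1
          · exact Submodule.zero_mem _) hg
      funext μ
      have h2 := h1 μ.1 (hsub μ.2)
      dsimp only at h2
      rw [dif_pos μ.2] at h2
      exact Subtype.ext h2
    have hrange : LinearMap.range (spec_Phi (cN N) W') =
        Eig (Gam q v1 v2) (((N : ℝ) - 3) / 6) := by
      ext f
      rw [spec_mem_Eig, LinearMap.mem_range]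
      constructor
      · rintro ⟨g, rfl⟩
        rw [spec_Phi_apply]
        refine ⟨spec_lap_sum _ _ _ fun μ _ => spec_lap_ev (g μ).2, ?_⟩
        have h1 : (∑ μ : W', ev (g μ).1) ∘ tau (dg (tj q v1 1) (tj q v2 1)) =
            ∑ μ : W', (ev (g μ).1 ∘ tau (dg (tj q v1 1) (tj q v2 1))) := by
          funext S
          simp [Finset.sum_apply]
        rw [h1]
        refine Finset.sum_congr rfl fun μ _ => ?_
        rw [spec_tau (mem_Ec.1 (g μ).2).1,
          (spec_ee_one hq _).2 (Finset.mem_filter.1 μ.2).2, one_smul]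
      · rintro ⟨h1, h2⟩
        obtain ⟨g, hg, rfl⟩ := spec_span h1
        have h3 : (∑ μ ∈ spec_W N, ev (g μ)) ∘ tau (dg (tj q v1 1) (tj q v2 1)) =
            ∑ μ ∈ spec_W N, ee (2 * Real.pi * spec_pair μ v1 v2 / q) • ev (g μ) := by
          have h4 : (∑ μ ∈ spec_W N, ev (g μ)) ∘ tau (dg (tj q v1 1) (tj q v2 1)) =
              ∑ μ ∈ spec_W N, (ev (g μ) ∘ tau (dg (tj q v1 1) (tj q v2 1))) := by
            funext S
            simp [Finset.sum_apply]
          rw [h4]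
          exact Finset.sum_congr rfl fun μ _ => spec_tau (mem_Ec.1 (hg μ)).1
        have h5 : ∑ μ ∈ spec_W N,
            ev ((ee (2 * Real.pi * spec_pair μ v1 v2 / q) - 1) • g μ) = 0 := by
          have h6 : ∑ μ ∈ spec_W N,
              ev ((ee (2 * Real.pi * spec_pair μ v1 v2 / q) - 1) • g μ) =
              (∑ μ ∈ spec_W N, ee (2 * Real.pi * spec_pair μ v1 v2 / q) • ev (g μ)) -
                ∑ μ ∈ spec_W N, ev (g μ) := by
            rw [← Finset.sum_sub_distrib]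
            refine Finset.sum_congr rfl fun μ _ => ?_
            rw [map_smul, sub_smul, one_smul]
          rw [h6, ← h3, h2, sub_self]
        have h7 := spec_indep' (fun μ => Submodule.smul_mem _ _ (mem_Ec.1 (hg μ)).1) h5
        refine ⟨fun μ => ⟨g μ.1, hg μ.1⟩, ?_⟩
        rw [spec_Phi_apply' _ _ _ hsub]
        refine Finset.sum_congr rfl fun μ hμ => ?_
        split_ifs with h
        · rfl
        · have h8 : ee (2 * Real.pi * spec_pair μ v1 v2 / q) ≠ 1 := fun h' =>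
            h (Finset.mem_filter.2 ⟨hμ, (spec_ee_one hq _).1 h'⟩)
          have h9 := (smul_eq_zero.1 (h7 μ hμ)).resolve_left (sub_ne_zero.2 h8)
          rw [h9]
    rw [← hrange, ← (LinearEquiv.ofInjective _ hinj).rank_eq]
    have : ∀ μ : W', Module.Finite ℂ (Ec (cN N) μ.1) := fun μ =>
      Submodule.finiteDimensional_of_le (show Ec (cN N) μ.1 ≤ Vw μ.1 from inf_le_left)
    rw [← Module.finrank_eq_rank, Module.finrank_pi_fintype]
    congr 1
    unfold mE
    exact Finset.sum_attach W' (fun μ => Module.finrank ℂ (Ec (cN N) μ))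
  · unfold Tsum chi
    have h1 : ∀ j, ∑ i ∈ Finset.range 3, ∑ μ ∈ wts (3 * N + 6 + i),
        (mE (cN N) μ : ℂ) * ee (μ 0 * tj q v1 j + μ 1 * tj q v2 j -
          μ 2 * (tj q v1 j + tj q v2 j)) =
        ∑ μ ∈ spec_W N, (mE (cN N) μ : ℂ) * ee (2 * Real.pi * spec_pair μ v1 v2 / q) ^ j := by
      intro j
      rw [spec_sum_W]
      refine Finset.sum_congr rfl fun i _ => Finset.sum_congr rfl fun μ _ => ?_
      rw [spec_ee_tj]
    rw [Finset.sum_congr rfl fun j _ => h1 j, Finset.sum_comm]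
    have h2 : ∀ μ ∈ spec_W N, ∑ j ∈ Finset.range q,
        (mE (cN N) μ : ℂ) * ee (2 * Real.pi * spec_pair μ v1 v2 / q) ^ j =
        if (q : ℤ) ∣ spec_pair μ v1 v2 then (q : ℂ) * mE (cN N) μ else 0 := by
      intro μ _
      rw [← Finset.mul_sum, spec_geom hq]
      split_ifs
      · ring
      · ring
    rw [Finset.sum_congr rfl h2, ← Finset.sum_filter, ← Finset.mul_sum]
    push_cast
    rfl

/-! ### the eigenspace for `N = 13` -/

/-- the functions linear in `S` and `conj S` -/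
def spec_L : Submodule ℂ (XX → ℂ) where
  carrier := {f | ∃ A B : M3, ∀ S : XX, f S = Matrix.trace (A * S.1) +
      Matrix.trace (B * S.1.map (starRingEnd ℂ))}
  add_mem' := by
    rintro f g ⟨A, B, h⟩ ⟨A', B', h'⟩
    refine ⟨A + A', B + B', fun S => ?_⟩
    rw [Pi.add_apply, h, h', Matrix.add_mul, Matrix.add_mul, Matrix.trace_add, Matrix.trace_add]
    ring
  zero_mem' := ⟨0, 0, fun S => by simp⟩
  smul_mem' := by
    rintro c f ⟨A, B, h⟩
    refine ⟨c • A, c • B, fun S => ?_⟩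
    rw [Pi.smul_apply, h, Matrix.smul_mul, Matrix.smul_mul, Matrix.trace_smul,
      Matrix.trace_smul, smul_add]

theorem spec_vdm_ne : vdm ≠ 0 := by
  unfold vdm
  refine mul_ne_zero (mul_ne_zero ?_ ?_) ?_
  all_goals
    refine sub_ne_zero.2 fun h => ?_
    have h1 := MvPolynomial.X_injective h
    exact absurd h1 (by decide)

/-- the weights of the entries -/
def spec_w1 : Fin 6 → (Fin 3 →₀ ℕ) := ![Finsupp.single 0 1 + Finsupp.single 0 1,
  Finsupp.single 0 1 + Finsupp.single 1 1, Finsupp.single 0 1 + Finsupp.single 2 1,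
  Finsupp.single 1 1 + Finsupp.single 1 1, Finsupp.single 1 1 + Finsupp.single 2 1,
  Finsupp.single 2 1 + Finsupp.single 2 1]

/-- the entries -/
def spec_p1 : Fin 6 → Pol := ![xv 0 0, xv 0 1, xv 0 2, xv 1 1, xv 1 2, xv 2 2]

/-- the weights of the minors -/
def spec_w2 : Fin 6 → (Fin 3 →₀ ℕ) := ![
  Finsupp.single 1 2 + Finsupp.single 2 2,
  Finsupp.single 0 1 + Finsupp.single 1 1 + Finsupp.single 2 2,
  Finsupp.single 0 1 + Finsupp.single 1 2 + Finsupp.single 2 1,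
  Finsupp.single 0 2 + Finsupp.single 2 2,
  Finsupp.single 0 2 + Finsupp.single 1 1 + Finsupp.single 2 1,
  Finsupp.single 0 2 + Finsupp.single 1 2]

/-- the minors -/
def spec_p2 : Fin 6 → Pol := ![xv 1 1 * xv 2 2 - xv 1 2 * xv 1 2,
  xv 0 2 * xv 1 2 - xv 0 1 * xv 2 2, xv 0 1 * xv 1 2 - xv 0 2 * xv 1 1,
  xv 0 0 * xv 2 2 - xv 0 2 * xv 0 2, xv 0 1 * xv 0 2 - xv 0 0 * xv 1 2,
  xv 0 0 * xv 1 1 - xv 0 1 * xv 0 1]

theorem spec_w1_inj : Function.Injective spec_w1 := by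
  intro i j h
  have h0 := DFunLike.congr_fun h 0
  have h1 := DFunLike.congr_fun h 1
  have h2 := DFunLike.congr_fun h 2
  fin_cases i <;> fin_cases j <;> first | rfl | (exfalso; revert h0 h1 h2; simp [spec_w1])

theorem spec_w2_inj : Function.Injective spec_w2 := by
  intro i j h
  have h0 := DFunLike.congr_fun h 0
  have h1 := DFunLike.congr_fun h 1
  have h2 := DFunLike.congr_fun h 2
  fin_cases i <;> fin_cases j <;> first | rfl | (exfalso; revert h0 h1 h2; simp [spec_w2])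

theorem spec_ch24 : chE (cN 13) 24 = 0 := by
  have h := ch_formula 13 24
  have h1 : (Jd 24).filter (fun p => p.1 ^ 2 + p.1 * p.2 + p.2 ^ 2 = 13) = ∅ := by
    ext ⟨m, n⟩
    unfold Jd
    simp only [Finset.mem_filter, Finset.mem_product, Finset.mem_range, Finset.notMem_empty,
      iff_false]
    rintro ⟨⟨-, h3, h4, h5, h6⟩, h7⟩
    have hm : m ≤ 3 := by nlinarith
    have hn : n ≤ 3 := by nlinarith
    interval_cases m <;> interval_cases n <;> omega
  rw [h1, Finset.sum_empty] at h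
  exact (mul_eq_zero.1 h).resolve_left spec_vdm_ne


theorem spec_mono8 (w : Fin 3 →₀ ℕ) : (MvPolynomial.monomial (8 • w222 + w) 1 :
    MvPolynomial (Fin 3) ℤ) = (MvPolynomial.X 0 ^ 2 * MvPolynomial.X 1 ^ 2 *
      MvPolynomial.X 2 ^ 2) ^ 8 * MvPolynomial.monomial w 1 := by
  unfold w222
  rw [MvPolynomial.X_pow_eq_monomial, MvPolynomial.X_pow_eq_monomial,
    MvPolynomial.X_pow_eq_monomial, MvPolynomial.monomial_mul, MvPolynomial.monomial_mul,
    MvPolynomial.monomial_pow, MvPolynomial.monomial_mul]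
  simp

theorem spec_mon2 (i j : Fin 3) (a b : ℕ) : (MvPolynomial.monomial (Finsupp.single i a +
    Finsupp.single j b) 1 : MvPolynomial (Fin 3) ℤ) =
    MvPolynomial.X i ^ a * MvPolynomial.X j ^ b := by
  rw [MvPolynomial.X_pow_eq_monomial, MvPolynomial.X_pow_eq_monomial, MvPolynomial.monomial_mul,
    mul_one]

theorem spec_mon3 (i j k : Fin 3) (a b c : ℕ) : (MvPolynomial.monomial (Finsupp.single i a +
    Finsupp.single j b + Finsupp.single k c) 1 : MvPolynomial (Fin 3) ℤ) =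
    MvPolynomial.X i ^ a * MvPolynomial.X j ^ b * MvPolynomial.X k ^ c := by
  rw [MvPolynomial.X_pow_eq_monomial, MvPolynomial.X_pow_eq_monomial,
    MvPolynomial.X_pow_eq_monomial, MvPolynomial.monomial_mul, MvPolynomial.monomial_mul,
    mul_one, mul_one]

theorem spec_ch25 : chE (cN 13) 25 = ∑ k, MvPolynomial.monomial (8 • w222 + spec_w1 k) 1 := by
  have h := ch_formula 13 25
  have h1 : (Jd 25).filter (fun p => p.1 ^ 2 + p.1 * p.2 + p.2 ^ 2 = 13) = {(3, 1)} := by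
    ext ⟨m, n⟩
    unfold Jd
    simp only [Finset.mem_filter, Finset.mem_product, Finset.mem_range, Finset.mem_singleton,
      Prod.mk.injEq]
    constructor
    · rintro ⟨⟨-, h3, h4, h5, h6⟩, h7⟩
      have hm : m ≤ 3 := by nlinarith
      have hn : n ≤ 3 := by nlinarith
      interval_cases m <;> interval_cases n <;> omega
    · rintro ⟨rfl, rfl⟩
      exact ⟨⟨by decide, by decide, by decide, by decide, by decide⟩, by decide⟩
  rw [h1, Finset.sum_singleton] at h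
  refine mul_left_cancel₀ spec_vdm_ne (h.trans ?_)
  have h2 : altJ 25 (3, 1) = altP 20 17 16 := rfl
  rw [h2, Fin.sum_univ_six]
  simp only [spec_mono8]
  have e0 : spec_w1 0 = Finsupp.single 0 1 + Finsupp.single 0 1 := rfl
  have e1 : spec_w1 1 = Finsupp.single 0 1 + Finsupp.single 1 1 := rfl
  have e2 : spec_w1 2 = Finsupp.single 0 1 + Finsupp.single 2 1 := rfl
  have e3 : spec_w1 3 = Finsupp.single 1 1 + Finsupp.single 1 1 := rfl
  have e4 : spec_w1 4 = Finsupp.single 1 1 + Finsupp.single 2 1 := rfl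
  have e5 : spec_w1 5 = Finsupp.single 2 1 + Finsupp.single 2 1 := rfl
  rw [e0, e1, e2, e3, e4, e5]
  simp only [spec_mon2]
  unfold altP vdm
  ring

theorem spec_ch26 : chE (cN 13) 26 = ∑ k, MvPolynomial.monomial (8 • w222 + spec_w2 k) 1 := by
  have h := ch_formula 13 26
  have h1 : (Jd 26).filter (fun p => p.1 ^ 2 + p.1 * p.2 + p.2 ^ 2 = 13) = {(1, 3)} := by
    ext ⟨m, n⟩
    unfold Jd
    simp only [Finset.mem_filter, Finset.mem_product, Finset.mem_range, Finset.mem_singleton,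
      Prod.mk.injEq]
    constructor
    · rintro ⟨⟨-, h3, h4, h5, h6⟩, h7⟩
      have hm : m ≤ 3 := by nlinarith
      have hn : n ≤ 3 := by nlinarith
      interval_cases m <;> interval_cases n <;> omega
    · rintro ⟨rfl, rfl⟩
      exact ⟨⟨by decide, by decide, by decide, by decide, by decide⟩, by decide⟩
  rw [h1, Finset.sum_singleton] at h
  refine mul_left_cancel₀ spec_vdm_ne (h.trans ?_)
  have h2 : altJ 26 (1, 3) = altP 20 19 16 := rfl
  rw [h2, Fin.sum_univ_six]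
  simp only [spec_mono8]
  have e0 : spec_w2 0 = Finsupp.single 1 2 + Finsupp.single 2 2 := rfl
  have e1 : spec_w2 1 = Finsupp.single 0 1 + Finsupp.single 1 1 + Finsupp.single 2 2 := rfl
  have e2 : spec_w2 2 = Finsupp.single 0 1 + Finsupp.single 1 2 + Finsupp.single 2 1 := rfl
  have e3 : spec_w2 3 = Finsupp.single 0 2 + Finsupp.single 2 2 := rfl
  have e4 : spec_w2 4 = Finsupp.single 0 2 + Finsupp.single 1 1 + Finsupp.single 2 1 := rfl
  have e5 : spec_w2 5 = Finsupp.single 0 2 + Finsupp.single 1 2 := rfl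
  rw [e0, e1, e2, e3, e4, e5]
  simp only [spec_mon3]
  simp only [spec_mon2]
  unfold altP vdm
  ring

theorem spec_wtX (a b : Fin 3) : xv a b ∈ Vw (Finsupp.single a 1 + Finsupp.single b 1) := by
  unfold Vw xv
  rw [MvPolynomial.mem_weightedHomogeneousSubmodule]
  exact MvPolynomial.isWeightedHomogeneous_X _ _ _

theorem spec_mulV {μ ν : Fin 3 →₀ ℕ} {p r : Pol} (hp : p ∈ Vw μ) (hr : r ∈ Vw ν) :
    p * r ∈ Vw (μ + ν) := by
  unfold Vw at *
  rw [MvPolynomial.mem_weightedHomogeneousSubmodule] at *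
  exact hp.mul hr

theorem spec_p1_mem (k : Fin 6) : spec_p1 k ∈ Vw (spec_w1 k) := by
  fin_cases k
  · exact spec_wtX 0 0
  · exact spec_wtX 0 1
  · exact spec_wtX 0 2
  · exact spec_wtX 1 1
  · exact spec_wtX 1 2
  · exact spec_wtX 2 2

theorem spec_mulX (a b c d : Fin 3) {μ : Fin 3 →₀ ℕ} (h : μ = Finsupp.single a 1 +
    Finsupp.single b 1 + (Finsupp.single c 1 + Finsupp.single d 1)) : xv a b * xv c d ∈ Vw μ := by
  rw [h]
  exact spec_mulV (spec_wtX a b) (spec_wtX c d)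

theorem spec_single2 (a : Fin 3) : (Finsupp.single a 2 : Fin 3 →₀ ℕ) =
    Finsupp.single a 1 + Finsupp.single a 1 := by
  rw [← Finsupp.single_add]

theorem spec_p2_mem (k : Fin 6) : spec_p2 k ∈ Vw (spec_w2 k) := by
  fin_cases k
  · exact Submodule.sub_mem _ (spec_mulX _ _ _ _ (by
      change Finsupp.single 1 2 + Finsupp.single 2 2 = _
      rw [spec_single2, spec_single2])) (spec_mulX _ _ _ _ (by
      change Finsupp.single 1 2 + Finsupp.single 2 2 = _
      rw [spec_single2, spec_single2]; abel))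
  · exact Submodule.sub_mem _ (spec_mulX _ _ _ _ (by
      change Finsupp.single 0 1 + Finsupp.single 1 1 + Finsupp.single 2 2 = _
      rw [spec_single2]; abel)) (spec_mulX _ _ _ _ (by
      change Finsupp.single 0 1 + Finsupp.single 1 1 + Finsupp.single 2 2 = _
      rw [spec_single2]))
  · exact Submodule.sub_mem _ (spec_mulX _ _ _ _ (by
      change Finsupp.single 0 1 + Finsupp.single 1 2 + Finsupp.single 2 1 = _
      rw [spec_single2]; abel)) (spec_mulX _ _ _ _ (by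
      change Finsupp.single 0 1 + Finsupp.single 1 2 + Finsupp.single 2 1 = _
      rw [spec_single2]; abel))
  · exact Submodule.sub_mem _ (spec_mulX _ _ _ _ (by
      change Finsupp.single 0 2 + Finsupp.single 2 2 = _
      rw [spec_single2, spec_single2])) (spec_mulX _ _ _ _ (by
      change Finsupp.single 0 2 + Finsupp.single 2 2 = _
      rw [spec_single2, spec_single2]; abel))
  · exact Submodule.sub_mem _ (spec_mulX _ _ _ _ (by
      change Finsupp.single 0 2 + Finsupp.single 1 1 + Finsupp.single 2 1 = _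
      rw [spec_single2]; abel)) (spec_mulX _ _ _ _ (by
      change Finsupp.single 0 2 + Finsupp.single 1 1 + Finsupp.single 2 1 = _
      rw [spec_single2]; abel))
  · exact Submodule.sub_mem _ (spec_mulX _ _ _ _ (by
      change Finsupp.single 0 2 + Finsupp.single 1 2 = _
      rw [spec_single2, spec_single2])) (spec_mulX _ _ _ _ (by
      change Finsupp.single 0 2 + Finsupp.single 1 2 = _
      rw [spec_single2, spec_single2]; abel))

theorem spec_DD1 (k : Fin 6) : ∑ i, ∑ j, Dd i j (Dd j i (spec_p1 k)) = 8 * spec_p1 k := by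
  have s10 : xv 1 0 = xv 0 1 := xv_symm 1 0
  have s20 : xv 2 0 = xv 0 2 := xv_symm 2 0
  have s21 : xv 2 1 = xv 1 2 := xv_symm 2 1
  fin_cases k <;>
  · simp [spec_p1, Fin.sum_univ_three, Dd_xv, s10, s20, s21]
    ring

theorem spec_DD2 (k : Fin 6) : ∑ i, ∑ j, Dd i j (Dd j i (spec_p2 k)) = 12 * spec_p2 k := by
  have s10 : xv 1 0 = xv 0 1 := xv_symm 1 0
  have s20 : xv 2 0 = xv 0 2 := xv_symm 2 0
  have s21 : xv 2 1 = xv 1 2 := xv_symm 2 1
  fin_cases k <;>
  · simp [spec_p2, Fin.sum_univ_three, Dd_xv, s10, s20, s21]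
    ring

theorem spec_p1_Ec (k : Fin 6) : spec_p1 k ∈ Ec (cN 13) (spec_w1 k) := by
  refine mem_Ec.2 ⟨spec_p1_mem k, ?_⟩
  rw [Cas_on_weight (spec_p1_mem k), spec_DD1]
  have hd : deg3 (spec_w1 k) = 2 := by
    fin_cases k <;> simp [deg3, spec_w1]
  have h8 : (8 : Pol) * spec_p1 k = (8 : ℂ) • spec_p1 k := by
    rw [MvPolynomial.smul_eq_C_mul, map_ofNat]
  rw [hd, h8, ← sub_smul, smul_smul]
  congr 1
  unfold cN
  norm_num

theorem spec_p2_Ec (k : Fin 6) : spec_p2 k ∈ Ec (cN 13) (spec_w2 k) := by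
  refine mem_Ec.2 ⟨spec_p2_mem k, ?_⟩
  rw [Cas_on_weight (spec_p2_mem k), spec_DD2]
  have hd : deg3 (spec_w2 k) = 4 := by
    fin_cases k <;> simp [deg3, spec_w2]
  have h8 : (12 : Pol) * spec_p2 k = (12 : ℂ) • spec_p2 k := by
    rw [MvPolynomial.smul_eq_C_mul, map_ofNat]
  rw [hd, h8, ← sub_smul, smul_smul]
  congr 1
  unfold cN
  norm_num

theorem spec_detpow {c : ℂ} {μ : Fin 3 →₀ ℕ} {p : Pol} (hp : p ∈ Ec c μ) (n : ℕ) :
    detP ^ n * p ∈ Ec c (n • w222 + μ) := by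
  induction n with
  | zero => simpa using hp
  | succ n ih =>
    have h := detP_mul_mem ih
    have e1 : detP ^ (n + 1) * p = detP * (detP ^ n * p) := by ring
    have e2 : (n + 1) • w222 + μ = n • w222 + μ + w222 := by rw [add_smul, one_smul]; abel
    rw [e1, e2]
    exact h

theorem spec_ev_detpow (p : Pol) (n : ℕ) : ev (detP ^ n * p) = ev p := by
  rw [map_mul, map_pow, ev_detP, one_pow, one_mul]

/-- the values at suitable symmetric matrices -/
theorem spec_xv_ev (F : Fin 3 → Fin 3 → ℂ) (hF : ∀ a b, F a b = F b a) :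
    ∃ φ : Pol →ₐ[ℂ] ℂ, ∀ a b, φ (xv a b) = F a b := by
  refine ⟨MvPolynomial.aeval fun z => Sym2.lift ⟨F, hF⟩ z, fun a b => ?_⟩
  unfold xv
  rw [MvPolynomial.aeval_X]
  rfl

theorem spec_p1_ne (k : Fin 6) : spec_p1 k ≠ 0 := by
  fin_cases k <;> exact MvPolynomial.X_ne_zero _

theorem spec_p2_ne (k : Fin 6) : spec_p2 k ≠ 0 := by
  intro h
  obtain ⟨φ, hφ⟩ := spec_xv_ev (fun a b => if a = b then 2 else 1) (fun a b => by
    simp only [eq_comm])
  have h1 := congrArg φ h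
  revert h1
  fin_cases k <;> simp [spec_p2, hφ] <;> norm_num

theorem spec_coeff_chE (c : ℂ) {d : ℕ} {μ : Fin 3 →₀ ℕ} (hμ : μ ∈ wts d) :
    MvPolynomial.coeff μ (chE c d) = mE c μ := by
  unfold chE
  rw [MvPolynomial.coeff_sum, Finset.sum_eq_single_of_mem μ hμ]
  · rw [MvPolynomial.coeff_monomial, if_pos rfl]
  · intro ν _ hν
    rw [MvPolynomial.coeff_monomial, if_neg hν]

theorem spec_coeff (w : Fin 6 → (Fin 3 →₀ ℕ)) (hw : Function.Injective w) (d : ℕ)
    (hch : chE (cN 13) d = ∑ k, MvPolynomial.monomial (8 • w222 + w k) 1)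
    (μ : Fin 3 →₀ ℕ) (hμ : μ ∈ wts d) (hne : mE (cN 13) μ ≠ 0) :
    ∃ k, μ = 8 • w222 + w k ∧ mE (cN 13) μ = 1 := by
  have h1 := spec_coeff_chE (cN 13) hμ
  have h2 : MvPolynomial.coeff μ (chE (cN 13) d) =
      ∑ k, if 8 • w222 + w k = μ then (1 : ℤ) else 0 := by
    rw [hch, MvPolynomial.coeff_sum]
    exact Finset.sum_congr rfl fun k _ => MvPolynomial.coeff_monomial _ _ _
  by_cases hk : ∃ k, 8 • w222 + w k = μ
  · obtain ⟨k, hk⟩ := hk
    refine ⟨k, hk.symm, ?_⟩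
    rw [Finset.sum_eq_single_of_mem k (Finset.mem_univ k), if_pos hk] at h2
    · rw [h1] at h2
      exact_mod_cast h2
    · intro j _ hj
      rw [if_neg]
      intro h3
      exact hj (hw (add_left_cancel (h3.trans hk.symm)))
  · exfalso
    rw [Finset.sum_eq_zero] at h2
    · rw [h1] at h2
      exact hne (by exact_mod_cast h2)
    · intro k _
      rw [if_neg]
      intro h3
      exact hk ⟨k, h3⟩

theorem spec_Ec_L (w : Fin 6 → (Fin 3 →₀ ℕ)) (hw : Function.Injective w) (d : ℕ)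
    (hch : chE (cN 13) d = ∑ k, MvPolynomial.monomial (8 • w222 + w k) 1)
    (p : Fin 6 → Pol) (hp : ∀ k, p k ∈ Ec (cN 13) (w k)) (hne : ∀ k, p k ≠ 0)
    (hL : ∀ k, ev (p k) ∈ spec_L) : Efun 13 d ≤ spec_L := by
  unfold Efun
  rw [Submodule.map_le_iff_le_comap]
  refine iSup₂_le fun μ hμ r hr => ?_
  rw [Submodule.mem_comap]
  change ev r ∈ spec_L
  by_cases hm : mE (cN 13) μ = 0
  · unfold mE at hm
    have : Module.Finite ℂ (Ec (cN 13) μ) :=
      Submodule.finiteDimensional_of_le (show Ec (cN 13) μ ≤ Vw μ from inf_le_left)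
    have h1 := Submodule.finrank_eq_zero.1 hm
    rw [h1, Submodule.mem_bot] at hr
    rw [hr, map_zero]
    exact Submodule.zero_mem _
  · obtain ⟨k, hk, hk1⟩ := spec_coeff w hw d hch μ hμ hm
    have h1 : detP ^ 8 * p k ∈ Ec (cN 13) μ := by rw [hk]; exact spec_detpow (hp k) 8
    have hdet : detP ≠ 0 := by
      intro h0
      have h1 := congrFun (ev_detP) (mk 1)
      rw [h0, map_zero] at h1
      simp at h1
    have h2 : (⟨detP ^ 8 * p k, h1⟩ : Ec (cN 13) μ) ≠ 0 := by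
      intro h0
      have h3 := congrArg Subtype.val h0
      exact mul_ne_zero (pow_ne_zero _ hdet) (hne k) h3
    obtain ⟨a, ha⟩ := (finrank_eq_one_iff_of_nonzero' _ h2).1 hk1 ⟨r, hr⟩
    have h4 : r = a • (detP ^ 8 * p k) := (congrArg Subtype.val ha).symm
    rw [h4, map_smul, spec_ev_detpow]
    exact Submodule.smul_mem _ _ (hL k)

theorem spec_L1 (a b : Fin 3) : ev (xv a b) ∈ spec_L := by
  refine ⟨Matrix.single b a 1, 0, fun S => ?_⟩
  rw [ev_xv, Matrix.zero_mul, Matrix.trace_zero, add_zero, Matrix.trace_single_mul]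
  simp

theorem spec_conj (S : XX) : S.1.map (starRingEnd ℂ) = S.1.adjugate := by
  have h := S.2.1
  rw [Matrix.mem_specialUnitaryGroup_iff, Matrix.mem_unitaryGroup_iff] at h
  have h1 : S.1 * S.1.map (starRingEnd ℂ) = 1 := by
    have h2 : star S.1 = S.1.map (starRingEnd ℂ) := by
      rw [Matrix.star_eq_conjTranspose]
      conv_lhs => rw [← S.2.2]
      ext i j
      simp [Matrix.conjTranspose_apply]
    rw [← h2]
    exact h.1
  have h3 : S.1.adjugate * S.1 = 1 := by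
    rw [Matrix.adjugate_mul, h.2, one_smul]
  calc S.1.map (starRingEnd ℂ) = (S.1.adjugate * S.1) * S.1.map (starRingEnd ℂ) := by
        rw [h3, Matrix.one_mul]
    _ = S.1.adjugate := by rw [Matrix.mul_assoc, h1, Matrix.mul_one]

theorem spec_L2 (a b : Fin 3) {p : Pol} (h : ∀ S : XX, ev p S = S.1.adjugate a b) :
    ev p ∈ spec_L := by
  refine ⟨0, Matrix.single b a 1, fun S => ?_⟩
  rw [h, Matrix.zero_mul, Matrix.trace_zero, zero_add, spec_conj, Matrix.trace_single_mul]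
  simp

theorem spec_p1_L (k : Fin 6) : ev (spec_p1 k) ∈ spec_L := by
  fin_cases k <;> exact spec_L1 _ _

theorem spec_p2_L (k : Fin 6) : ev (spec_p2 k) ∈ spec_L := by
  have hs : ∀ (S : XX) (a b : Fin 3), S.1 a b = S.1 b a := fun S a b => by
    conv_lhs => rw [← S.2.2]
    rfl
  fin_cases k
  · refine spec_L2 0 0 fun S => ?_
    change ev (xv 1 1 * xv 2 2 - xv 1 2 * xv 1 2) S = _
    rw [Matrix.adjugate_fin_three]
    simp only [map_sub, map_mul, Pi.sub_apply, Pi.mul_apply, ev_xv]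
    simp [hs S 2 1]
  · refine spec_L2 0 1 fun S => ?_
    change ev (xv 0 2 * xv 1 2 - xv 0 1 * xv 2 2) S = _
    rw [Matrix.adjugate_fin_three]
    simp only [map_sub, map_mul, Pi.sub_apply, Pi.mul_apply, ev_xv]
    simp [hs S 2 1]
    ring
  · refine spec_L2 0 2 fun S => ?_
    change ev (xv 0 1 * xv 1 2 - xv 0 2 * xv 1 1) S = _
    rw [Matrix.adjugate_fin_three]
    simp only [map_sub, map_mul, Pi.sub_apply, Pi.mul_apply, ev_xv]
    simp
  · refine spec_L2 1 1 fun S => ?_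
    change ev (xv 0 0 * xv 2 2 - xv 0 2 * xv 0 2) S = _
    rw [Matrix.adjugate_fin_three]
    simp only [map_sub, map_mul, Pi.sub_apply, Pi.mul_apply, ev_xv]
    simp [hs S 2 0]
  · refine spec_L2 1 2 fun S => ?_
    change ev (xv 0 1 * xv 0 2 - xv 0 0 * xv 1 2) S = _
    rw [Matrix.adjugate_fin_three]
    simp only [map_sub, map_mul, Pi.sub_apply, Pi.mul_apply, ev_xv]
    simp [hs S 1 0]
    ring
  · refine spec_L2 2 2 fun S => ?_
    change ev (xv 0 0 * xv 1 1 - xv 0 1 * xv 0 1) S = _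
    rw [Matrix.adjugate_fin_three]
    simp only [map_sub, map_mul, Pi.sub_apply, Pi.mul_apply, ev_xv]
    simp [hs S 1 0]

theorem spec_Ec_L0 (d : ℕ) (hch : chE (cN 13) d = 0) : Efun 13 d ≤ spec_L := by
  unfold Efun
  rw [Submodule.map_le_iff_le_comap]
  refine iSup₂_le fun μ hμ r hr => ?_
  rw [Submodule.mem_comap]
  change ev r ∈ spec_L
  have h4 := spec_coeff_chE (cN 13) hμ
  rw [hch, MvPolynomial.coeff_zero] at h4
  have hm : mE (cN 13) μ = 0 := by exact_mod_cast h4.symm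
  unfold mE at hm
  have : Module.Finite ℂ (Ec (cN 13) μ) :=
    Submodule.finiteDimensional_of_le (show Ec (cN 13) μ ≤ Vw μ from inf_le_left)
  have h1 := Submodule.finrank_eq_zero.1 hm
  rw [h1, Submodule.mem_bot] at hr
  rw [hr, map_zero]
  exact Submodule.zero_mem _

/-- the eigenspace for `N = 13` consists of the real-linear functions -/
theorem eig13 {f : XX → ℂ} (hf : HasLap f (cN 13 • f)) :
    ∃ A B : M3, ∀ S : XX, f S = Matrix.trace (A * S.1) +
      Matrix.trace (B * S.1.map (starRingEnd ℂ)) := by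
  obtain ⟨f0, h0, f1, h1, f2, h2, rfl⟩ := smooth_eig (N := 13) (d := 24) (by omega) hf
  have k0 : f0 ∈ spec_L := spec_Ec_L0 24 spec_ch24 h0
  have k1 : f1 ∈ spec_L := spec_Ec_L spec_w1 spec_w1_inj 25 spec_ch25 spec_p1 spec_p1_Ec
    spec_p1_ne spec_p1_L h1
  have k2 : f2 ∈ spec_L := spec_Ec_L spec_w2 spec_w2_inj 26 spec_ch26 spec_p2 spec_p2_Ec
    spec_p2_ne spec_p2_L h2
  exact Submodule.add_mem _ (Submodule.add_mem _ k0 k1) k2

end Pool.Agent.Iso79
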