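import Pool.Agent.Iso79.Theta

/-! # Asymptotics of the false theta function: see the documentation of `Theta.lean`

Proof used here: `QQ * Bth a t = ∑_n ∫_ℝ AA a τ n y dy`, with a Gaussian integral over the whole
line (`v = τ² y²` in the notation of `Theta.lean`).  The part `|y| > 1/τ` is bounded; on
`|y| ≤ 1/τ` Poisson summation (`thetaB_poisson`) and the dominated limit of `Psi`. -/

open Complex Filter Topology MeasureTheory

noncomputable section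

namespace Pool.Agent.Iso79

namespace ThB

theorem thetaB_exp_id (a : ℝ) (s : ℂ) (hs : s ≠ 0) (n : ℤ) (z τ' : ℂ)
    (hz : z = a / Real.pi + 3 * s * I / (2 * Real.pi)) (hτ : τ' = 3 * s * I / Real.pi) :
    I * a - 3 / 4 * s + (-Real.pi * I * z ^ 2 / τ') +
      (2 * Real.pi * I * n * (z / τ') + Real.pi * I * n ^ 2 * (-1 / τ')) =
    n * (Real.pi * I) + -(((a - Real.pi * n) ^ 2 / 3 : ℝ) : ℂ) / s := by
  have hp : (Real.pi : ℂ) ≠ 0 := by exact_mod_cast Real.pi_ne_zero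
  subst hz hτ
  push_cast
  field_simp
  ring_nf
  simp only [I_sq]
  ring

theorem thetaB_poisson (a : ℝ) {s : ℂ} (hs : 0 < s.re) :
    ∑' n : ℤ, ((2 * n + 1 : ℂ)) * exp (I * (2 * n + 1) * a - 3 / 4 * s * (2 * n + 1) ^ 2) =
      (2 * I / (3 * s)) * (1 / (3 * s / Real.pi) ^ (1 / 2 : ℂ)) *
        ∑' l : ℤ, (-1 : ℂ) ^ l * ((a - Real.pi * l : ℝ) : ℂ) *
          exp (-(((a - Real.pi * l) ^ 2 / 3 : ℝ) : ℂ) / s) := by
  have hs0 : s ≠ 0 := by rintro rfl; simp at hs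
  have hp : (Real.pi : ℂ) ≠ 0 := by exact_mod_cast Real.pi_ne_zero
  set z : ℂ := a / Real.pi + 3 * s * I / (2 * Real.pi) with hz
  set τ' : ℂ := 3 * s * I / Real.pi with hτ
  have him : 0 < τ'.im := by
    have : τ' = ((3 / Real.pi : ℝ) : ℂ) * (s * I) := by rw [hτ]; push_cast; ring
    rw [this, Complex.im_ofReal_mul]
    simp only [mul_im, I_re, I_im, mul_zero, mul_one]
    have := Real.pi_pos
    positivity
  have hτ0 : τ' ≠ 0 := by rintro h; rw [h] at him; simp at him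
  have hinv : 0 < (-1 / τ').im := by
    rw [neg_div, neg_im, one_div, inv_im]
    have : 0 < normSq τ' := normSq_pos.mpr hτ0
    rw [neg_div, neg_neg]; positivity
  have e1 : ∀ n : ℤ, ((2 * n + 1 : ℂ)) * exp (I * (2 * n + 1) * a - 3 / 4 * s * (2 * n + 1) ^ 2) =
      exp (I * a - 3 / 4 * s) * (1 / (Real.pi * I) * jacobiTheta₂'_term n z τ' +
        jacobiTheta₂_term n z τ') := by
    intro n
    rw [jacobiTheta₂'_term, jacobiTheta₂_term]
    have : exp (I * (2 * n + 1) * a - 3 / 4 * s * (2 * n + 1) ^ 2) = exp (I * a - 3 / 4 * s) *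
        exp (2 * Real.pi * I * n * z + Real.pi * I * n ^ 2 * τ') := by
      rw [← exp_add]
      congr 1
      rw [hz, hτ]
      field_simp
      ring_nf
      simp only [I_sq]
      ring
    rw [this]
    field_simp
  have h1 := (hasSum_jacobiTheta₂'_term z him).mul_left (1 / (Real.pi * I))
  have h2 := hasSum_jacobiTheta₂_term z him
  have h3 := ((h1.add h2).mul_left (exp (I * a - 3 / 4 * s))).tsum_eq
  rw [tsum_congr e1, h3, jacobiTheta₂'_functional_equation z τ', jacobiTheta₂_functional_equation z τ']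
  have hI : -I * τ' = 3 * s / Real.pi := by
    rw [hτ]; field_simp; ring_nf; simp only [I_sq]; ring
  rw [hI]
  have g1 := (hasSum_jacobiTheta₂'_term (z / τ') hinv)
  have g2 := (hasSum_jacobiTheta₂_term (z / τ') hinv)
  have g3 := (g1.sub (g2.mul_left (2 * Real.pi * I * z))).mul_left (1 / (Real.pi * I) / τ')
  have g4 := ((g3.add g2).mul_left (exp (I * a - 3 / 4 * s) * exp (-Real.pi * I * z ^ 2 / τ'))).tsum_eq
  have e2 : ∀ n : ℤ, exp (I * a - 3 / 4 * s) * exp (-Real.pi * I * z ^ 2 / τ') *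
      (1 / (Real.pi * I) / τ' * (jacobiTheta₂'_term n (z / τ') (-1 / τ') -
        2 * Real.pi * I * z * jacobiTheta₂_term n (z / τ') (-1 / τ')) +
        jacobiTheta₂_term n (z / τ') (-1 / τ')) =
      (2 * I / (3 * s)) * ((-1 : ℂ) ^ n * ((a - Real.pi * n : ℝ) : ℂ) *
          exp (-(((a - Real.pi * n) ^ 2 / 3 : ℝ) : ℂ) / s)) := by
    intro n
    rw [jacobiTheta₂'_term, jacobiTheta₂_term]
    have k1 := thetaB_exp_id a s hs0 n z τ' hz hτ
    have k2 : exp (I * a - 3 / 4 * s) * exp (-Real.pi * I * z ^ 2 / τ') *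
        exp (2 * Real.pi * I * n * (z / τ') + Real.pi * I * n ^ 2 * (-1 / τ')) =
        (-1 : ℂ) ^ n * exp (-(((a - Real.pi * n) ^ 2 / 3 : ℝ) : ℂ) / s) := by
      rw [← exp_add, ← exp_add, k1, exp_add, exp_int_mul, exp_pi_mul_I]
    have k3 : (1 / (Real.pi * I) / τ' * (2 * Real.pi * I * n - 2 * Real.pi * I * z) + 1) =
        (2 * I / (3 * s)) * ((a - Real.pi * n : ℝ) : ℂ) := by
      rw [hz, hτ]; push_cast; field_simp; ring_nf; simp only [I_sq]; ring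
    calc _ = (1 / (Real.pi * I) / τ' * (2 * Real.pi * I * n - 2 * Real.pi * I * z) + 1) *
        (exp (I * a - 3 / 4 * s) * exp (-Real.pi * I * z ^ 2 / τ') *
        exp (2 * Real.pi * I * n * (z / τ') + Real.pi * I * n ^ 2 * (-1 / τ'))) := by ring
      _ = _ := by rw [k2, k3]; ring
  rw [tsum_congr e2, tsum_mul_left] at g4
  have : ∀ X Y E F G H : ℂ, E * (1 / (Real.pi * I) * (1 / X * F / τ' * (G - Y * H)) + 1 / X * F * H) =
      1 / X * (E * F * (1 / (Real.pi * I) / τ' * (G - Y * H) + H)) := by intros; ring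
  rw [this, ← g4]
  ring

/-- the kernel `σ^{-3/2}` -/
def kkB (σ : ℂ) : ℂ := σ⁻¹ * (σ ^ (1 / 2 : ℂ))⁻¹

theorem norm_kkB (σ : ℂ) : ‖kkB σ‖ = ‖σ‖⁻¹ * (‖σ‖ ^ (1 / 2 : ℝ))⁻¹ := by
  unfold kkB
  rw [norm_mul, norm_inv, norm_inv, show (1 / 2 : ℂ) = ((1 / 2 : ℝ) : ℂ) by push_cast; rfl,
    norm_cpow_real]

theorem norm_Ix (x : ℝ) : ‖I + (x : ℂ)‖ = Real.sqrt (1 + x ^ 2) := by
  rw [Complex.norm_eq_sqrt_sq_add_sq]
  congr 1
  simp
  ring

theorem one_le_norm_Ix (x : ℝ) : 1 ≤ ‖I + (x : ℂ)‖ := by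
  rw [norm_Ix, Real.one_le_sqrt]
  nlinarith [sq_nonneg x]

theorem le_norm_Ix (x : ℝ) : x ≤ ‖I + (x : ℂ)‖ := by
  have := abs_re_le_norm (I + (x : ℂ))
  simp at this
  exact le_trans (le_abs_self x) this

theorem Ix_ne (x : ℝ) : I + (x : ℂ) ≠ 0 := by
  intro h
  have := one_le_norm_Ix x
  rw [h, norm_zero] at this
  linarith

theorem norm_kkB_le_one (x : ℝ) : ‖kkB (I + (x : ℂ))‖ ≤ 1 := by
  rw [norm_kkB]
  have h := one_le_norm_Ix x
  have h1 : ‖I + (x : ℂ)‖⁻¹ ≤ 1 := inv_le_one_of_one_le₀ h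
  have h2 : (‖I + (x : ℂ)‖ ^ (1 / 2 : ℝ))⁻¹ ≤ 1 :=
    inv_le_one_of_one_le₀ (Real.one_le_rpow h (by norm_num))
  have h3 : 0 ≤ (‖I + (x : ℂ)‖ ^ (1 / 2 : ℝ))⁻¹ := by positivity
  have h4 : 0 ≤ ‖I + (x : ℂ)‖⁻¹ := by positivity
  nlinarith

theorem norm_kkB_le (x : ℝ) (hx : 0 < x) : ‖kkB (I + (x : ℂ))‖ ≤ x ^ (-(3 / 2) : ℝ) := by
  rw [norm_kkB]
  have h := le_norm_Ix x
  have h1 : ‖I + (x : ℂ)‖⁻¹ ≤ x⁻¹ := inv_anti₀ hx h
  have h2 : (‖I + (x : ℂ)‖ ^ (1 / 2 : ℝ))⁻¹ ≤ (x ^ (1 / 2 : ℝ))⁻¹ :=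
    inv_anti₀ (Real.rpow_pos_of_pos hx _) (Real.rpow_le_rpow hx.le h (by norm_num))
  calc _ ≤ x⁻¹ * (x ^ (1 / 2 : ℝ))⁻¹ := mul_le_mul h1 h2 (by positivity) (by positivity)
    _ = x ^ (-(3 / 2) : ℝ) := by
      rw [← Real.rpow_neg hx.le, ← Real.rpow_neg_one, ← Real.rpow_add hx]
      norm_num

/-- the integrand after scaling -/
def Psi (β τ y : ℝ) : ℂ :=
  kkB (I + ((τ * (1 + y ^ 2) : ℝ) : ℂ)) *
    exp (-I * ((β * (1 + y ^ 2) : ℝ) : ℂ) / (I + ((τ * (1 + y ^ 2) : ℝ) : ℂ)))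

theorem re_expo (B x : ℝ) : (-I * (B : ℂ) / (I + (x : ℂ))).re = -(B / (1 + x ^ 2)) := by
  have h0 := Ix_ne x
  have h1 : (1 + x ^ 2 : ℝ) ≠ 0 := by positivity
  have h1' : (1 + (x : ℂ) ^ 2) ≠ 0 := by exact_mod_cast h1
  have : -I * (B : ℂ) / (I + (x : ℂ)) = ((-(B / (1 + x ^ 2)) : ℝ) : ℂ) +
      ((-(B * x / (1 + x ^ 2)) : ℝ) : ℂ) * I := by
    push_cast
    field_simp
    ring_nf
    simp only [I_sq]
    ring
  rw [this, add_re, ofReal_re, mul_re, ofReal_re, ofReal_im, I_re, I_im]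
  ring

/-- the dominating function -/
def GG (β y : ℝ) : ℝ :=
  Real.exp (-(β / 2)) * Real.exp (-(β / 2) * y ^ 2) +
    2 * Real.exp (-(β / 8)) * (β / 2) ^ (-(3 / 4) : ℝ) * (1 + ‖y‖ ^ 2) ^ (-(3 / 2) / 2 : ℝ)

theorem exp_bound {Y : ℝ} (hY : 0 < Y) : Real.exp (-(Y / 2)) ≤ 2 * Y ^ (-(3 / 4) : ℝ) := by
  have h1 : Y ^ (3 / 4 : ℝ) ≤ 2 * Real.exp (Y / 2) := by
    have h2 : Y ^ (3 / 4 : ℝ) ≤ 1 + Y := by
      rcases le_total Y 1 with h | h
      · have := Real.rpow_le_one hY.le h (by norm_num : (0 : ℝ) ≤ 3 / 4)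
        linarith
      · have := Real.rpow_le_rpow_of_exponent_le h (by norm_num : (3 / 4 : ℝ) ≤ 1)
        rw [Real.rpow_one] at this
        linarith
    have := Real.add_one_le_exp (Y / 2)
    linarith
  rw [Real.rpow_neg hY.le, Real.exp_neg, ← div_eq_mul_inv, le_div_iff₀ (by positivity),
    inv_mul_le_iff₀ (by positivity)]
  linarith

theorem Psi_bound {β τ y : ℝ} (hβ : 0 < β) (hτ : 0 < τ) (hτ1 : τ ≤ 1) (hy : |y| ≤ 1 / τ) :
    ‖Psi β τ y‖ ≤ GG β y := by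
  set W : ℝ := 1 + y ^ 2 with hW
  have hWp : 0 < W := by positivity
  have hW1 : 1 ≤ W := by rw [hW]; nlinarith [sq_nonneg y]
  set x : ℝ := τ * W with hx
  have hxp : 0 < x := by positivity
  have hn : ‖Psi β τ y‖ = ‖kkB (I + (x : ℂ))‖ * Real.exp (-(β * W / (1 + x ^ 2))) := by
    unfold Psi
    rw [norm_mul, norm_exp, re_expo]
  have e1 : Real.exp (-(β / 2)) * Real.exp (-(β / 2) * y ^ 2) = Real.exp (-(β * W / 2)) := by
    rw [← Real.exp_add]; congr 1; rw [hW]; ring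
  have p1 : 0 ≤ Real.exp (-(β * W / 2)) := (Real.exp_pos _).le
  have p2 : 0 ≤ 2 * Real.exp (-(β / 8)) * (β / 2) ^ (-(3 / 4) : ℝ) *
      (1 + ‖y‖ ^ 2) ^ (-(3 / 2) / 2 : ℝ) := by positivity
  rw [hn, GG, e1]
  rcases le_total x 1 with h | h
  · have h1 : Real.exp (-(β * W / (1 + x ^ 2))) ≤ Real.exp (-(β * W / 2)) := by
      apply Real.exp_le_exp.mpr
      apply neg_le_neg
      apply div_le_div_of_nonneg_left (by positivity) (by positivity)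
      nlinarith
    have := mul_le_mul (norm_kkB_le_one x) h1 (Real.exp_pos _).le zero_le_one
    linarith
  · set Y : ℝ := β / (2 * τ ^ 2 * W) with hY
    have hYp : 0 < Y := by positivity
    have hY4 : β / 4 ≤ Y := by
      rw [hY]
      apply div_le_div_of_nonneg_left hβ.le (by positivity)
      have : τ * |y| ≤ 1 := by
        rw [le_div_iff₀ hτ] at hy; linarith
      have h2 : τ ^ 2 * y ^ 2 ≤ 1 := by
        have : (τ * |y|) ^ 2 ≤ 1 := by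
          have h0 : 0 ≤ τ * |y| := by positivity
          nlinarith
        rw [mul_pow, sq_abs] at this
        exact this
      have h3 : τ ^ 2 ≤ 1 := by nlinarith
      rw [hW]
      nlinarith
    have h1 : Real.exp (-(β * W / (1 + x ^ 2))) ≤ Real.exp (-Y) := by
      apply Real.exp_le_exp.mpr
      apply neg_le_neg
      rw [hY, div_le_div_iff₀ (by positivity) (by positivity)]
      have : 1 + x ^ 2 ≤ 2 * x ^ 2 := by nlinarith
      calc β * (1 + x ^ 2) ≤ β * (2 * x ^ 2) := by gcongr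
        _ = β * W * (2 * τ ^ 2 * W) := by rw [hx]; ring
    have h2 : Real.exp (-Y) ≤ Real.exp (-(β / 8)) * (2 * Y ^ (-(3 / 4) : ℝ)) := by
      calc Real.exp (-Y) = Real.exp (-(Y / 2)) * Real.exp (-(Y / 2)) := by
            rw [← Real.exp_add]; congr 1; ring
        _ ≤ Real.exp (-(β / 8)) * (2 * Y ^ (-(3 / 4) : ℝ)) := by
            apply mul_le_mul _ (exp_bound hYp) (Real.exp_pos _).le (Real.exp_pos _).le
            apply Real.exp_le_exp.mpr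
            linarith
    have h3 : x ^ (-(3 / 2) : ℝ) * Y ^ (-(3 / 4) : ℝ) =
        (β / 2) ^ (-(3 / 4) : ℝ) * W ^ (-(3 / 4) : ℝ) := by
      have hYe : Y = (β / 2) / (τ ^ 2 * W) := by rw [hY]; field_simp
      rw [hYe, Real.div_rpow (by positivity) (by positivity),
        Real.mul_rpow (x := τ) hτ.le hWp.le, Real.mul_rpow (x := τ ^ 2) (sq_nonneg τ) hWp.le,
        ← Real.rpow_natCast τ 2, ← Real.rpow_mul hτ.le]
      have t1 : τ ^ ((2 : ℕ) * -(3 / 4) : ℝ) = τ ^ (-(3 / 2) : ℝ) := by norm_num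
      rw [t1]
      have t2 : W ^ (-(3 / 2) : ℝ) = W ^ (-(3 / 4) : ℝ) * W ^ (-(3 / 4) : ℝ) := by
        rw [← Real.rpow_add hWp]; norm_num
      rw [t2]
      have : τ ^ (-(3 / 2) : ℝ) ≠ 0 := (Real.rpow_pos_of_pos hτ _).ne'
      have : W ^ (-(3 / 4) : ℝ) ≠ 0 := (Real.rpow_pos_of_pos hWp _).ne'
      field_simp
    have h4 : (1 + ‖y‖ ^ 2) ^ (-(3 / 2) / 2 : ℝ) = W ^ (-(3 / 4) : ℝ) := by
      rw [Real.norm_eq_abs, sq_abs, ← hW]; norm_num
    calc ‖kkB (I + (x : ℂ))‖ * Real.exp (-(β * W / (1 + x ^ 2)))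
        ≤ x ^ (-(3 / 2) : ℝ) * (Real.exp (-(β / 8)) * (2 * Y ^ (-(3 / 4) : ℝ))) :=
          mul_le_mul (norm_kkB_le x hxp) (h1.trans h2) (Real.exp_pos _).le (by positivity)
      _ = 2 * Real.exp (-(β / 8)) * (x ^ (-(3 / 2) : ℝ) * Y ^ (-(3 / 4) : ℝ)) := by ring
      _ = 2 * Real.exp (-(β / 8)) * (β / 2) ^ (-(3 / 4) : ℝ) *
          (1 + ‖y‖ ^ 2) ^ (-(3 / 2) / 2 : ℝ) := by rw [h3, h4]; ring
      _ ≤ _ := by linarith

theorem integrable_one_add : Integrable fun y : ℝ => (1 + ‖y‖ ^ 2) ^ (-(3 / 2) / 2 : ℝ) :=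
  integrable_rpow_neg_one_add_norm_sq (by simp; norm_num)

theorem integrable_GG {β : ℝ} (hβ : 0 < β) : Integrable (GG β) := by
  apply Integrable.add
  · exact (integrable_exp_neg_mul_sq (by positivity)).const_mul _
  · exact integrable_one_add.const_mul _

theorem integral_GG {β : ℝ} (hβ : 0 < β) : ∫ y, GG β y =
    Real.exp (-(β / 2)) * Real.sqrt (Real.pi / (β / 2)) +
    2 * Real.exp (-(β / 8)) * (β / 2) ^ (-(3 / 4) : ℝ) *
      ∫ y : ℝ, (1 + ‖y‖ ^ 2) ^ (-(3 / 2) / 2 : ℝ) := by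
  unfold GG
  rw [integral_add ((integrable_exp_neg_mul_sq (by positivity)).const_mul _)
    (integrable_one_add.const_mul _), integral_const_mul, integral_const_mul, integral_gaussian]

theorem ofReal_mul_cpow_half {r : ℝ} (hr : 0 < r) {σ : ℂ} (hσ : σ ≠ 0) (w : ℂ) :
    ((r : ℂ) * σ) ^ w = (r : ℂ) ^ w * σ ^ w := by
  have hr0 : (r : ℂ) ≠ 0 := by exact_mod_cast hr.ne'
  rw [cpow_def_of_ne_zero (mul_ne_zero hr0 hσ), cpow_def_of_ne_zero hr0, cpow_def_of_ne_zero hσ,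
    Complex.log_ofReal_mul hr hσ, Complex.ofReal_log hr.le, ← exp_add]
  congr 1
  ring

theorem cpow_half_ne {σ : ℂ} (hσ : σ ≠ 0) : σ ^ (1 / 2 : ℂ) ≠ 0 := by
  rw [Ne, cpow_eq_zero_iff]
  tauto

theorem continuous_Psi (β : ℝ) : Continuous fun p : ℝ × ℝ => Psi β p.1 p.2 := by
  unfold Psi kkB
  have hc : Continuous fun p : ℝ × ℝ => I + ((p.1 * (1 + p.2 ^ 2) : ℝ) : ℂ) := by fun_prop
  refine Continuous.mul (Continuous.mul ?_ ?_) ?_
  · exact hc.inv₀ fun p => Ix_ne _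
  · refine Continuous.inv₀ ?_ fun p => cpow_half_ne (Ix_ne _)
    refine hc.cpow continuous_const fun p => ?_
    right
    rw [add_im, I_im, ofReal_im]
    norm_num
  · refine Complex.continuous_exp.comp ?_
    refine Continuous.div (by fun_prop) hc fun p => Ix_ne _

theorem cont_right {f : ℝ → ℝ → ℂ} (hf : Continuous fun p : ℝ × ℝ => f p.1 p.2) (τ : ℝ) :
    Continuous (f τ) := by
  have h : Continuous fun y : ℝ => ((τ, y) : ℝ × ℝ) := by fun_prop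
  exact hf.comp h

theorem cont_left {f : ℝ → ℝ → ℂ} (hf : Continuous fun p : ℝ × ℝ => f p.1 p.2) (y : ℝ) :
    Continuous (fun τ => f τ y) := by
  have h : Continuous fun τ : ℝ => ((τ, y) : ℝ × ℝ) := by fun_prop
  exact hf.comp h

theorem continuous_Psi_right (β τ : ℝ) : Continuous (Psi β τ) :=
  cont_right (f := Psi β) (continuous_Psi β) τ

theorem continuous_Psi_left (β y : ℝ) : Continuous fun τ => Psi β τ y :=
  cont_left (f := Psi β) (continuous_Psi β) y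

theorem Psi_zero (β y : ℝ) : Psi β 0 y = kkB I * (Real.exp (-β * (1 + y ^ 2)) : ℂ) := by
  unfold Psi
  have : -I * ((β * (1 + y ^ 2) : ℝ) : ℂ) / (I + ((0 * (1 + y ^ 2) : ℝ) : ℂ)) =
      ((-β * (1 + y ^ 2) : ℝ) : ℂ) := by
    push_cast
    have := I_ne_zero
    rw [zero_mul, add_zero]
    field_simp
  rw [this, Complex.ofReal_exp]
  simp

/-- the integral over the truncated line -/
def JJ (β τ : ℝ) : ℂ := ∫ y in Set.Icc (-(1 / τ)) (1 / τ), Psi β τ y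

/-- its limit -/
def J0 (β : ℝ) : ℂ := kkB I * ((Real.exp (-β) * Real.sqrt (Real.pi / β) : ℝ) : ℂ)

theorem integral_Psi_zero (β : ℝ) : ∫ y, Psi β 0 y = J0 β := by
  unfold J0
  rw [← integral_gaussian, ← integral_const_mul, ← integral_complex_ofReal, ← integral_const_mul]
  apply integral_congr_ae
  refine Eventually.of_forall fun y => ?_
  show Psi β 0 y = _
  rw [Psi_zero]
  congr 1
  rw [← Real.exp_add]
  congr 2
  ring

theorem integrableOn_Psi {β τ : ℝ} : IntegrableOn (Psi β τ) (Set.Icc (-(1 / τ)) (1 / τ)) := by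
  exact (continuous_Psi_right β τ).integrableOn_Icc

theorem norm_Psi_int {β τ : ℝ} (hβ : 0 < β) (hτ : 0 < τ) (hτ1 : τ ≤ 1) :
    ∫ y in Set.Icc (-(1 / τ)) (1 / τ), ‖Psi β τ y‖ ≤ ∫ y, GG β y := by
  have h0 : ∀ y, 0 ≤ GG β y := fun y => by unfold GG; positivity
  calc ∫ y in Set.Icc (-(1 / τ)) (1 / τ), ‖Psi β τ y‖
      ≤ ∫ y in Set.Icc (-(1 / τ)) (1 / τ), GG β y := by
        apply setIntegral_mono_on integrableOn_Psi.norm (integrable_GG hβ).integrableOn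
          measurableSet_Icc
        intro y hy
        exact Psi_bound hβ hτ hτ1 (abs_le.mpr hy)
    _ ≤ ∫ y, GG β y := setIntegral_le_integral (integrable_GG hβ) (Eventually.of_forall h0)

theorem norm_JJ_le {β τ : ℝ} (hβ : 0 < β) (hτ : 0 < τ) (hτ1 : τ ≤ 1) :
    ‖JJ β τ‖ ≤ ∫ y, GG β y :=
  (norm_integral_le_integral_norm _).trans (norm_Psi_int hβ hτ hτ1)

theorem tendsto_JJ {β : ℝ} (hβ : 0 < β) : Tendsto (JJ β) (𝓝[>] 0) (𝓝 (J0 β)) := by
  rw [← integral_Psi_zero]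
  have e : JJ β = fun τ => ∫ y, (Set.Icc (-(1 / τ)) (1 / τ)).indicator (Psi β τ) y := by
    funext τ
    rw [integral_indicator measurableSet_Icc]
    rfl
  rw [e]
  apply tendsto_integral_filter_of_dominated_convergence (GG β)
  · refine Eventually.of_forall fun τ => ?_
    exact ((continuous_Psi_right β τ).measurable.indicator measurableSet_Icc).aestronglyMeasurable
  · have h1 : ∀ᶠ τ : ℝ in 𝓝[>] 0, τ ∈ Set.Ioc (0 : ℝ) 1 :=
      Ioc_mem_nhdsGT one_pos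
    filter_upwards [h1] with τ hτ
    refine Eventually.of_forall fun y => ?_
    by_cases hy : y ∈ Set.Icc (-(1 / τ)) (1 / τ)
    · rw [Set.indicator_of_mem hy]
      exact Psi_bound hβ hτ.1 hτ.2 (abs_le.mpr hy)
    · rw [Set.indicator_of_notMem hy, norm_zero]
      unfold GG
      positivity
  · exact integrable_GG hβ
  · refine Eventually.of_forall fun y => ?_
    have h1 : Tendsto (fun τ => Psi β τ y) (𝓝[>] 0) (𝓝 (Psi β 0 y)) := by
      exact ((continuous_Psi_left β y).tendsto 0).mono_left nhdsWithin_le_nhds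
    apply h1.congr'
    have h2 : ∀ᶠ τ : ℝ in 𝓝[>] 0, τ ∈ Set.Ioo (0 : ℝ) (1 / (|y| + 1)) :=
      Ioo_mem_nhdsGT (by positivity)
    filter_upwards [h2] with τ hτ
    rw [Set.indicator_of_mem]
    have h3 : |y| ≤ 1 / τ := by
      rw [le_div_iff₀ hτ.1]
      have := hτ.2
      rw [lt_div_iff₀ (by positivity)] at this
      nlinarith [hτ.1, abs_nonneg y]
    exact abs_le.mp h3

theorem summable_exp_neg_abs {ε : ℝ} (hε : 0 < ε) :
    Summable fun n : ℤ => Real.exp (-ε * |(n : ℝ)|) := by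
  apply Summable.of_nat_of_neg
  · have := Real.summable_exp_nat_mul_iff.mpr (neg_lt_zero.mpr hε)
    refine this.congr fun n => ?_
    simp [mul_comm]
  · have := Real.summable_exp_nat_mul_iff.mpr (neg_lt_zero.mpr hε)
    refine this.congr fun n => ?_
    simp [mul_comm]

theorem summable_gauss {ε : ℝ} (hε : 0 < ε) (c : ℝ) :
    Summable fun n : ℤ => Real.exp (-ε * ((n : ℝ) - c) ^ 2) := by
  have h := (summable_exp_neg_abs hε).mul_left (Real.exp (ε * (c ^ 2 + 1 / 2)))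
  refine h.of_nonneg_of_le (fun n => (Real.exp_pos _).le) fun n => ?_
  rw [← Real.exp_add]
  apply Real.exp_le_exp.mpr
  have h1 : |(n : ℝ)| ≤ ((n : ℝ) - c) ^ 2 + (c ^ 2 + 1 / 2) := by
    have h2 : |(n : ℝ)| ≤ (n : ℝ) ^ 2 / 2 + 1 / 2 := by
      have := sq_abs (n : ℝ)
      nlinarith [sq_nonneg (|(n : ℝ)| - 1)]
    nlinarith [sq_nonneg ((n : ℝ) - 2 * c)]
  nlinarith

theorem odd_sq_ge_one (n : ℤ) : (1 : ℝ) ≤ (2 * (n : ℝ) + 1) ^ 2 := by
  have : (1 : ℤ) ≤ (2 * n + 1) ^ 2 := by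
    rcases le_or_gt 0 n with h | h
    · nlinarith
    · have : 2 * n + 1 ≤ -1 := by omega
      nlinarith
  exact_mod_cast this

theorem odd_ne (n : ℤ) : (2 * (n : ℝ) + 1) ≠ 0 := by
  intro h
  have := odd_sq_ge_one n
  rw [h] at this
  norm_num at this

theorem summable_odd_gauss {ε : ℝ} (hε : 0 < ε) :
    Summable fun n : ℤ => Real.exp (-ε * (2 * (n : ℝ) + 1) ^ 2) := by
  refine (summable_gauss (ε := 4 * ε) (by positivity) (-(1 / 2))).congr fun n => ?_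
  congr 1
  ring

/-- the bound for the `l`-th term -/
theorem bnd_l {b δ : ℝ} (hδ : 0 < δ) (hb : δ ≤ |b|) :
    |b| * ∫ y, GG (b ^ 2 / 3) y ≤ (Real.sqrt (6 * Real.pi) + 96 * (δ ^ 2 / 6) ^ (-(3 / 4) : ℝ) *
      ∫ y : ℝ, (1 + ‖y‖ ^ 2) ^ (-(3 / 2) / 2 : ℝ)) * Real.exp (-(b ^ 2 / 48)) := by
  have hb0 : 0 < |b| := lt_of_lt_of_le hδ hb
  have hb2 : 0 < b ^ 2 := by rw [← sq_abs]; positivity
  rw [integral_GG (by positivity)]
  set K : ℝ := ∫ y : ℝ, (1 + ‖y‖ ^ 2) ^ (-(3 / 2) / 2 : ℝ) with hK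
  have hK0 : 0 ≤ K := integral_nonneg fun y => by positivity
  have h1 : |b| * Real.sqrt (Real.pi / (b ^ 2 / 3 / 2)) = Real.sqrt (6 * Real.pi) := by
    rw [← Real.sqrt_sq hb0.le, ← Real.sqrt_mul (by positivity), sq_abs]
    congr 1
    have hbne : b ≠ 0 := abs_pos.mp hb0
    field_simp
    norm_num
  have h2 : (b ^ 2 / 3 / 2) ^ (-(3 / 4) : ℝ) ≤ (δ ^ 2 / 6) ^ (-(3 / 4) : ℝ) := by
    apply Real.rpow_le_rpow_of_nonpos (by positivity) _ (by norm_num)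
    have : δ ^ 2 ≤ b ^ 2 := by rw [← sq_abs b]; gcongr
    linarith
  have h3 : |b| * Real.exp (-(b ^ 2 / 3 / 8)) ≤ 48 * Real.exp (-(b ^ 2 / 48)) := by
    have e : Real.exp (-(b ^ 2 / 3 / 8)) = Real.exp (-(b ^ 2 / 48)) * Real.exp (-(b ^ 2 / 48)) := by
      rw [← Real.exp_add]; congr 1; ring
    rw [e, ← mul_assoc]
    apply mul_le_mul_of_nonneg_right _ (Real.exp_pos _).le
    rw [Real.exp_neg, ← div_eq_mul_inv, div_le_iff₀ (Real.exp_pos _)]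
    have := Real.add_one_le_exp (b ^ 2 / 48)
    have h4 : |b| ≤ 1 + b ^ 2 := by
      have := sq_abs b
      nlinarith [sq_nonneg (|b| - 1)]
    nlinarith
  have h5 : Real.exp (-(b ^ 2 / 3 / 2)) ≤ Real.exp (-(b ^ 2 / 48)) := by
    apply Real.exp_le_exp.mpr
    nlinarith
  calc |b| * (Real.exp (-(b ^ 2 / 3 / 2)) * Real.sqrt (Real.pi / (b ^ 2 / 3 / 2)) +
        2 * Real.exp (-(b ^ 2 / 3 / 8)) * (b ^ 2 / 3 / 2) ^ (-(3 / 4) : ℝ) * K)
      = Real.exp (-(b ^ 2 / 3 / 2)) * (|b| * Real.sqrt (Real.pi / (b ^ 2 / 3 / 2))) +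
        2 * (|b| * Real.exp (-(b ^ 2 / 3 / 8))) * (b ^ 2 / 3 / 2) ^ (-(3 / 4) : ℝ) * K := by ring
    _ ≤ Real.exp (-(b ^ 2 / 48)) * Real.sqrt (6 * Real.pi) +
        2 * (48 * Real.exp (-(b ^ 2 / 48))) * (δ ^ 2 / 6) ^ (-(3 / 4) : ℝ) * K := by
        rw [h1]
        gcongr
    _ = _ := by ring

theorem dist_pos {a : ℝ} (ha : ∀ k : ℤ, a ≠ Real.pi * k) :
    ∃ δ : ℝ, 0 < δ ∧ ∀ l : ℤ, δ ≤ |a - Real.pi * l| := by
  refine ⟨Real.pi * |a / Real.pi - round (a / Real.pi)|, ?_, fun l => ?_⟩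
  · have hp := Real.pi_pos
    have : a / Real.pi - round (a / Real.pi) ≠ 0 := by
      intro h
      apply ha (round (a / Real.pi))
      have h1 : a / Real.pi = round (a / Real.pi) := by linarith
      field_simp at h1
      linarith
    positivity
  · have hp := Real.pi_pos
    have h1 := round_le (a / Real.pi) l
    have h2 : |a - Real.pi * l| = Real.pi * |a / Real.pi - l| := by
      rw [← abs_of_pos hp, ← abs_mul, abs_of_pos hp]
      congr 1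
      field_simp
    rw [h2]
    exact mul_le_mul_of_nonneg_left h1 hp.le

theorem summable_bnd {a : ℝ} (ha : ∀ k : ℤ, a ≠ Real.pi * k) :
    Summable fun l : ℤ => |a - Real.pi * l| * ∫ y, GG ((a - Real.pi * l) ^ 2 / 3) y := by
  obtain ⟨δ, hδ, h⟩ := dist_pos ha
  have hs := (summable_gauss (ε := Real.pi ^ 2 / 48) (by have := Real.pi_pos; positivity)
    (a / Real.pi)).mul_left (Real.sqrt (6 * Real.pi) + 96 * (δ ^ 2 / 6) ^ (-(3 / 4) : ℝ) *
      ∫ y : ℝ, (1 + ‖y‖ ^ 2) ^ (-(3 / 2) / 2 : ℝ))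
  refine hs.of_nonneg_of_le (fun l => ?_) fun l => ?_
  · refine mul_nonneg (abs_nonneg _) (integral_nonneg fun y => ?_)
    unfold GG
    have := h l
    positivity
  · refine (bnd_l hδ (h l)).trans_eq ?_
    congr 2
    have := Real.pi_ne_zero
    field_simp
    ring

/-- the constant `∫ exp(-(3/4) y²) dy` -/
def QQ : ℝ := Real.sqrt (4 * Real.pi / 3)

theorem QQ_pos : 0 < QQ := Real.sqrt_pos.mpr (by have := Real.pi_pos; positivity)

/-- the integrand -/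
def AA (a τ : ℝ) (n : ℤ) (y : ℝ) : ℂ :=
  (τ : ℂ) * ((2 * n + 1 : ℂ) * exp (I * (2 * n + 1) * a -
    3 / 4 * (tt τ + ((τ ^ 2 * y ^ 2 : ℝ) : ℂ)) * (2 * n + 1) ^ 2))

theorem AA_eq (a τ : ℝ) (n : ℤ) (y : ℝ) : AA a τ n y =
    ((τ : ℂ) * ((2 * n + 1 : ℂ) * exp (I * (2 * n + 1) * a - 3 / 4 * tt τ * (2 * n + 1) ^ 2))) *
      ((Real.exp (-(3 / 4 * τ ^ 2 * (2 * (n : ℝ) + 1) ^ 2) * y ^ 2) : ℝ) : ℂ) := by
  unfold AA
  have e : exp (I * (2 * n + 1) * a -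
      3 / 4 * (tt τ + ((τ ^ 2 * y ^ 2 : ℝ) : ℂ)) * (2 * n + 1) ^ 2) =
      exp (I * (2 * n + 1) * a - 3 / 4 * tt τ * (2 * n + 1) ^ 2) *
      exp ((-(3 / 4 * τ ^ 2 * (2 * (n : ℝ) + 1) ^ 2) * y ^ 2 : ℝ) : ℂ) := by
    rw [← exp_add]
    congr 1
    push_cast
    ring
  rw [Complex.ofReal_exp, e]
  ring

theorem integral_AA (a : ℝ) {τ : ℝ} (hτ : 0 < τ) (n : ℤ) : ∫ y, AA a τ n y =
    (QQ : ℂ) * ((Int.sign (2 * n + 1) : ℂ) *
      exp (I * (2 * n + 1) * a - 3 / 4 * tt τ * (2 * n + 1) ^ 2)) := by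
  have h : ∀ y, AA a τ n y = ((τ : ℂ) * ((2 * n + 1 : ℂ) *
      exp (I * (2 * n + 1) * a - 3 / 4 * tt τ * (2 * n + 1) ^ 2))) *
      ((Real.exp (-(3 / 4 * τ ^ 2 * (2 * (n : ℝ) + 1) ^ 2) * y ^ 2) : ℝ) : ℂ) := AA_eq a τ n
  rw [integral_congr_ae (Eventually.of_forall h), integral_const_mul, integral_complex_ofReal,
    integral_gaussian]
  have e : Real.sqrt (Real.pi / (3 / 4 * τ ^ 2 * (2 * (n : ℝ) + 1) ^ 2)) =
      QQ / (τ * |2 * (n : ℝ) + 1|) := by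
    have : Real.pi / (3 / 4 * τ ^ 2 * (2 * (n : ℝ) + 1) ^ 2) =
        (4 * Real.pi / 3) / (τ * |2 * (n : ℝ) + 1|) ^ 2 := by
      rw [mul_pow, sq_abs]
      have := odd_ne n
      field_simp
    rw [this, Real.sqrt_div (by have := Real.pi_pos; positivity), Real.sqrt_sq (by positivity), QQ]
  have hs : (Int.sign (2 * n + 1) : ℂ) * ((|2 * (n : ℝ) + 1| : ℝ) : ℂ) = 2 * n + 1 := by
    have h1 := Int.sign_mul_abs (2 * n + 1)
    have h2 : ((2 * n + 1 : ℤ).sign : ℝ) * |2 * (n : ℝ) + 1| = 2 * n + 1 := by exact_mod_cast h1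
    exact_mod_cast h2
  have h1 : ((|2 * (n : ℝ) + 1| : ℝ) : ℂ) ≠ 0 := by
    have := abs_pos.mpr (odd_ne n)
    exact_mod_cast this.ne'
  have h2 : (τ : ℂ) ≠ 0 := by exact_mod_cast hτ.ne'
  rw [e]
  push_cast at h1 hs ⊢
  rw [← hs]
  field_simp

theorem norm_AA (a : ℝ) {τ : ℝ} (hτ : 0 < τ) (n : ℤ) (y : ℝ) : ‖AA a τ n y‖ =
    τ * |2 * (n : ℝ) + 1| * Real.exp (-(3 / 4 * τ ^ 2 * (2 * (n : ℝ) + 1) ^ 2) * (1 + y ^ 2)) := by
  unfold AA
  rw [norm_mul, norm_mul, norm_exp, Complex.norm_real, Real.norm_of_nonneg hτ.le, ← mul_assoc]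
  congr 2
  · have : (2 * n + 1 : ℂ) = ((2 * (n : ℝ) + 1 : ℝ) : ℂ) := by push_cast; rfl
    rw [this, Complex.norm_real, Real.norm_eq_abs]
  · have : I * (2 * n + 1) * a - 3 / 4 * (tt τ + ((τ ^ 2 * y ^ 2 : ℝ) : ℂ)) * (2 * n + 1) ^ 2 =
        ((-(3 / 4 * τ ^ 2 * (2 * (n : ℝ) + 1) ^ 2) * (1 + y ^ 2) : ℝ) : ℂ) +
        (((2 * n + 1) * a - 3 / 4 * τ * (2 * n + 1) ^ 2 : ℝ) : ℂ) * I := by
      unfold tt
      push_cast
      ring
    rw [this, add_re, ofReal_re, mul_re, ofReal_re, ofReal_im, I_re, I_im]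
    ring

theorem integrable_AA (a : ℝ) {τ : ℝ} (hτ : 0 < τ) (n : ℤ) : Integrable (AA a τ n) := by
  have h : AA a τ n = fun y => ((τ : ℂ) * ((2 * n + 1 : ℂ) *
      exp (I * (2 * n + 1) * a - 3 / 4 * tt τ * (2 * n + 1) ^ 2))) *
      ((Real.exp (-(3 / 4 * τ ^ 2 * (2 * (n : ℝ) + 1) ^ 2) * y ^ 2) : ℝ) : ℂ) := by
    funext y; exact AA_eq a τ n y
  rw [h]
  have h1 := odd_sq_ge_one n
  exact (integrable_exp_neg_mul_sq (by positivity)).ofReal.const_mul _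

theorem integral_norm_AA (a : ℝ) {τ : ℝ} (hτ : 0 < τ) (n : ℤ) : ∫ y, ‖AA a τ n y‖ =
    QQ * Real.exp (-(3 / 4 * τ ^ 2) * (2 * (n : ℝ) + 1) ^ 2) := by
  have h : ∀ y, ‖AA a τ n y‖ = (τ * |2 * (n : ℝ) + 1| *
      Real.exp (-(3 / 4 * τ ^ 2) * (2 * (n : ℝ) + 1) ^ 2)) *
      Real.exp (-(3 / 4 * τ ^ 2 * (2 * (n : ℝ) + 1) ^ 2) * y ^ 2) := by
    intro y
    rw [norm_AA a hτ, mul_assoc (τ * _), ← Real.exp_add]
    congr 2
    ring
  rw [integral_congr_ae (Eventually.of_forall h), integral_const_mul, integral_gaussian]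
  have e : Real.sqrt (Real.pi / (3 / 4 * τ ^ 2 * (2 * (n : ℝ) + 1) ^ 2)) =
      QQ / (τ * |2 * (n : ℝ) + 1|) := by
    have : Real.pi / (3 / 4 * τ ^ 2 * (2 * (n : ℝ) + 1) ^ 2) =
        (4 * Real.pi / 3) / (τ * |2 * (n : ℝ) + 1|) ^ 2 := by
      rw [mul_pow, sq_abs]
      have := odd_ne n
      field_simp
    rw [this, Real.sqrt_div (by have := Real.pi_pos; positivity), Real.sqrt_sq (by positivity), QQ]
  rw [e]
  have := abs_pos.mpr (odd_ne n)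
  field_simp

/-- tail of the integral -/
theorem tail_AA (a : ℝ) {τ : ℝ} (hτ : 0 < τ) (n : ℤ) :
    ∫ y in (Set.Icc (-(1 / τ)) (1 / τ))ᶜ, ‖AA a τ n y‖ ≤
      Real.sqrt (8 * Real.pi / 3) * Real.exp (-(3 / 8) * (2 * (n : ℝ) + 1) ^ 2) := by
  have hm := odd_sq_ge_one n
  have hi : Integrable fun y : ℝ => (τ * |2 * (n : ℝ) + 1| *
      Real.exp (-(3 / 8) * (2 * (n : ℝ) + 1) ^ 2)) *
      Real.exp (-(3 / 8 * τ ^ 2 * (2 * (n : ℝ) + 1) ^ 2) * y ^ 2) :=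
    (integrable_exp_neg_mul_sq (by positivity)).const_mul _
  calc ∫ y in (Set.Icc (-(1 / τ)) (1 / τ))ᶜ, ‖AA a τ n y‖
      ≤ ∫ y in (Set.Icc (-(1 / τ)) (1 / τ))ᶜ, (τ * |2 * (n : ℝ) + 1| *
      Real.exp (-(3 / 8) * (2 * (n : ℝ) + 1) ^ 2)) *
      Real.exp (-(3 / 8 * τ ^ 2 * (2 * (n : ℝ) + 1) ^ 2) * y ^ 2) := by
        apply setIntegral_mono_on (integrable_AA a hτ n).norm.integrableOn hi.integrableOn
          measurableSet_Icc.compl
        intro y hy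
        rw [norm_AA a hτ, mul_assoc (τ * _), ← Real.exp_add]
        have hy1 : 1 / τ < |y| := by
          by_contra h
          exact hy (abs_le.mp (not_lt.mp h))
        have hy2 : 1 < τ ^ 2 * y ^ 2 := by
          rw [div_lt_iff₀ hτ] at hy1
          have : 1 < (|y| * τ) ^ 2 := by nlinarith
          rw [mul_pow, sq_abs] at this
          linarith
        apply mul_le_mul_of_nonneg_left _ (by positivity)
        apply Real.exp_le_exp.mpr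
        nlinarith [mul_nonneg (sq_nonneg τ) (sq_nonneg (2 * (n : ℝ) + 1)),
          mul_nonneg (sq_nonneg (2 * (n : ℝ) + 1)) (sub_nonneg.mpr hy2.le)]
    _ ≤ ∫ y, (τ * |2 * (n : ℝ) + 1| *
      Real.exp (-(3 / 8) * (2 * (n : ℝ) + 1) ^ 2)) *
      Real.exp (-(3 / 8 * τ ^ 2 * (2 * (n : ℝ) + 1) ^ 2) * y ^ 2) :=
        setIntegral_le_integral hi (Eventually.of_forall fun y => by positivity)
    _ = _ := by
      rw [integral_const_mul, integral_gaussian]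
      have e : Real.sqrt (Real.pi / (3 / 8 * τ ^ 2 * (2 * (n : ℝ) + 1) ^ 2)) =
          Real.sqrt (8 * Real.pi / 3) / (τ * |2 * (n : ℝ) + 1|) := by
        have : Real.pi / (3 / 8 * τ ^ 2 * (2 * (n : ℝ) + 1) ^ 2) =
            (8 * Real.pi / 3) / (τ * |2 * (n : ℝ) + 1|) ^ 2 := by
          rw [mul_pow, sq_abs]
          have := odd_ne n
          field_simp
        rw [this, Real.sqrt_div (by have := Real.pi_pos; positivity), Real.sqrt_sq (by positivity)]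
      rw [e]
      have := abs_pos.mpr (odd_ne n)
      field_simp

/-- a constant -/
def C1 : ℂ := (2 * I / 3) * (1 / ((3 / Real.pi : ℝ) : ℂ) ^ (1 / 2 : ℂ))

theorem C1_ne : C1 ≠ 0 := by
  unfold C1
  have h : ((3 / Real.pi : ℝ) : ℂ) ≠ 0 := by
    have := Real.pi_pos
    exact_mod_cast (by positivity : (3 / Real.pi : ℝ) ≠ 0)
  exact mul_ne_zero (by simp) (one_div_ne_zero (cpow_half_ne h))

theorem kkB_I_ne : kkB I ≠ 0 := by
  unfold kkB
  exact mul_ne_zero (inv_ne_zero I_ne_zero) (inv_ne_zero (cpow_half_ne I_ne_zero))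

theorem sigma_id (τ y : ℝ) : tt τ + ((τ ^ 2 * y ^ 2 : ℝ) : ℂ) =
    (τ : ℂ) * (I + ((τ * (1 + y ^ 2) : ℝ) : ℂ)) := by
  unfold tt
  push_cast
  ring

theorem kernel_id {τ : ℝ} (hτ : 0 < τ) {σ : ℂ} (hσ : σ ≠ 0) :
    (Real.sqrt τ : ℂ) * ((τ : ℂ) * ((2 * I / (3 * (τ * σ))) *
      (1 / (3 * (τ * σ) / Real.pi) ^ (1 / 2 : ℂ)))) = C1 * kkB σ := by
  have hp := Real.pi_pos
  have h1 : (3 * (τ * σ) / Real.pi : ℂ) = ((3 / Real.pi : ℝ) : ℂ) * ((τ : ℂ) * σ) := by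
    push_cast; ring
  have h2 : (τ : ℂ) ≠ 0 := by exact_mod_cast hτ.ne'
  have h3 : (Real.sqrt τ : ℂ) = (τ : ℂ) ^ (1 / 2 : ℂ) := by
    rw [Real.sqrt_eq_rpow, Complex.ofReal_cpow hτ.le]
    norm_num
  rw [h1, ofReal_mul_cpow_half (by positivity) (mul_ne_zero h2 hσ), ofReal_mul_cpow_half hτ hσ, h3]
  unfold C1 kkB
  have h4 := cpow_half_ne hσ
  have h5 := cpow_half_ne h2
  have h6 : ((3 / Real.pi : ℝ) : ℂ) ≠ 0 := by
    exact_mod_cast (by positivity : (3 / Real.pi : ℝ) ≠ 0)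
  have h7 := cpow_half_ne h6
  field_simp

theorem expo_id {τ : ℝ} (hτ : 0 < τ) (β y : ℝ) :
    exp (-(β : ℂ) / ((τ : ℂ) * (I + ((τ * (1 + y ^ 2) : ℝ) : ℂ)))) =
      exp ((β : ℂ) * (I * ((1 / τ : ℝ) : ℂ))) *
      exp (-I * ((β * (1 + y ^ 2) : ℝ) : ℂ) / (I + ((τ * (1 + y ^ 2) : ℝ) : ℂ))) := by
  rw [← exp_add]
  congr 1
  have h1 := Ix_ne (τ * (1 + y ^ 2))
  have h2 : (τ : ℂ) ≠ 0 := by exact_mod_cast hτ.ne'
  push_cast at h1 ⊢
  field_simp
  ring_nf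
  simp only [I_sq]
  ring

/-- coefficient of the `l`-th term -/
def cl (a τ : ℝ) (l : ℤ) : ℂ := (-1 : ℂ) ^ l * ((a - Real.pi * l : ℝ) : ℂ) *
  exp ((((a - Real.pi * l) ^ 2 / 3 : ℝ) : ℂ) * (I * ((1 / τ : ℝ) : ℂ)))

theorem norm_cl (a τ : ℝ) (l : ℤ) : ‖cl a τ l‖ = |a - Real.pi * l| := by
  unfold cl
  rw [norm_mul, norm_mul, norm_zpow, norm_neg, norm_one, one_zpow, one_mul, Complex.norm_real,
    Real.norm_eq_abs]
  have : (((a - Real.pi * l) ^ 2 / 3 : ℝ) : ℂ) * (I * ((1 / τ : ℝ) : ℂ)) =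
      (((a - Real.pi * l) ^ 2 / 3 * (1 / τ) : ℝ) : ℂ) * I := by push_cast; ring
  rw [this, norm_exp_ofReal_mul_I, mul_one]

theorem tsum_AA (a : ℝ) {τ : ℝ} (hτ : 0 < τ) (y : ℝ) : (Real.sqrt τ : ℂ) * ∑' n : ℤ, AA a τ n y =
    C1 * ∑' l : ℤ, cl a τ l * Psi ((a - Real.pi * l) ^ 2 / 3) τ y := by
  unfold AA
  have hre : 0 < (tt τ + ((τ ^ 2 * y ^ 2 : ℝ) : ℂ)).re := by
    have : (tt τ + ((τ ^ 2 * y ^ 2 : ℝ) : ℂ)).re = τ ^ 2 + τ ^ 2 * y ^ 2 := by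
      unfold tt
      rw [add_re, add_re, ofReal_re, ← ofReal_pow, ofReal_re]
      simp
    rw [this]
    positivity
  rw [tsum_mul_left, thetaB_poisson a hre, sigma_id]
  have h2 := kernel_id hτ (Ix_ne (τ * (1 + y ^ 2)))
  have h3 : ∀ l : ℤ, (-1 : ℂ) ^ l * ((a - Real.pi * l : ℝ) : ℂ) *
      exp (-(((a - Real.pi * l) ^ 2 / 3 : ℝ) : ℂ) / ((τ : ℂ) * (I + ((τ * (1 + y ^ 2) : ℝ) : ℂ)))) =
      cl a τ l * exp (-I * (((a - Real.pi * l) ^ 2 / 3 * (1 + y ^ 2) : ℝ) : ℂ) /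
        (I + ((τ * (1 + y ^ 2) : ℝ) : ℂ))) := by
    intro l
    rw [expo_id hτ]
    unfold cl
    ring
  rw [tsum_congr h3]
  have h4 : ∀ l : ℤ, cl a τ l * Psi ((a - Real.pi * l) ^ 2 / 3) τ y =
      kkB (I + ((τ * (1 + y ^ 2) : ℝ) : ℂ)) * (cl a τ l *
      exp (-I * (((a - Real.pi * l) ^ 2 / 3 * (1 + y ^ 2) : ℝ) : ℂ) /
        (I + ((τ * (1 + y ^ 2) : ℝ) : ℂ)))) := by
    intro l
    unfold Psi
    ring
  rw [tsum_congr h4, tsum_mul_left, ← mul_assoc C1, ← h2]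
  ring

theorem beta_pos {a : ℝ} (ha : ∀ k : ℤ, a ≠ Real.pi * k) (l : ℤ) : 0 < (a - Real.pi * l) ^ 2 / 3 := by
  have : a - Real.pi * l ≠ 0 := sub_ne_zero.mpr (ha l)
  positivity

theorem norm_int_AA_le (a : ℝ) {τ : ℝ} (hτ : 0 < τ) (n : ℤ) (S : Set ℝ) :
    ∫ y in S, ‖AA a τ n y‖ ≤ QQ * Real.exp (-(3 / 4 * τ ^ 2) * (2 * (n : ℝ) + 1) ^ 2) := by
  rw [← integral_norm_AA a hτ n]
  exact setIntegral_le_integral (integrable_AA a hτ n).norm
    (Eventually.of_forall fun y => norm_nonneg _)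

theorem summable_norm_int_AA (a : ℝ) {τ : ℝ} (hτ : 0 < τ) (S : Set ℝ) :
    Summable fun n : ℤ => ∫ y in S, ‖AA a τ n y‖ := by
  refine ((summable_odd_gauss (ε := 3 / 4 * τ ^ 2) (by positivity)).mul_left QQ).of_nonneg_of_le
    (fun n => integral_nonneg fun y => norm_nonneg _) fun n => norm_int_AA_le a hτ n S

theorem summable_int_AA (a : ℝ) {τ : ℝ} (hτ : 0 < τ) (S : Set ℝ) :
    Summable fun n : ℤ => ∫ y in S, AA a τ n y :=
  Summable.of_norm_bounded (summable_norm_int_AA a hτ S) fun _ => norm_integral_le_integral_norm _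

theorem main_part {a : ℝ} (ha : ∀ k : ℤ, a ≠ Real.pi * k) {τ : ℝ} (hτ : 0 < τ) (hτ1 : τ ≤ 1) :
    (Real.sqrt τ : ℂ) * ∑' n : ℤ, ∫ y in Set.Icc (-(1 / τ)) (1 / τ), AA a τ n y =
      C1 * ∑' l : ℤ, cl a τ l * JJ ((a - Real.pi * l) ^ 2 / 3) τ := by
  have h1 := (hasSum_integral_of_summable_integral_norm
    (μ := volume.restrict (Set.Icc (-(1 / τ)) (1 / τ))) (F := fun n y => AA a τ n y)
    (fun n => (integrable_AA a hτ n).integrableOn) (summable_norm_int_AA a hτ _)).tsum_eq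
  rw [h1, ← integral_const_mul]
  have h2 : ∀ y, (Real.sqrt τ : ℂ) * ∑' n : ℤ, AA a τ n y =
    C1 * ∑' l : ℤ, cl a τ l * Psi ((a - Real.pi * l) ^ 2 / 3) τ y := tsum_AA a hτ
  rw [integral_congr_ae (Eventually.of_forall h2), integral_const_mul]
  congr 1
  have h3 : ∀ l : ℤ, IntegrableOn (fun y => cl a τ l * Psi ((a - Real.pi * l) ^ 2 / 3) τ y)
      (Set.Icc (-(1 / τ)) (1 / τ)) := fun l => integrableOn_Psi.const_mul _
  have h4 : Summable fun l : ℤ => ∫ y in Set.Icc (-(1 / τ)) (1 / τ),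
      ‖cl a τ l * Psi ((a - Real.pi * l) ^ 2 / 3) τ y‖ := by
    refine (summable_bnd ha).of_nonneg_of_le (fun l => integral_nonneg fun y => norm_nonneg _)
      fun l => ?_
    simp_rw [norm_mul, norm_cl]
    rw [integral_const_mul]
    exact mul_le_mul_of_nonneg_left (norm_Psi_int (beta_pos ha l) hτ hτ1) (abs_nonneg _)
  rw [← (hasSum_integral_of_summable_integral_norm h3 h4).tsum_eq]
  refine tsum_congr fun l => ?_
  rw [integral_const_mul]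
  rfl

theorem QQ_mul_Bth (a : ℝ) {τ : ℝ} (hτ : 0 < τ) : (QQ : ℂ) * Bth a (tt τ) =
    (∑' n : ℤ, ∫ y in Set.Icc (-(1 / τ)) (1 / τ), AA a τ n y) +
    ∑' n : ℤ, ∫ y in (Set.Icc (-(1 / τ)) (1 / τ))ᶜ, AA a τ n y := by
  rw [← (summable_int_AA a hτ _).tsum_add (summable_int_AA a hτ _)]
  unfold Bth
  rw [← tsum_mul_left]
  refine tsum_congr fun n => ?_
  rw [integral_add_compl measurableSet_Icc (integrable_AA a hτ n), integral_AA a hτ n]

theorem norm_tail_le (a : ℝ) {τ : ℝ} (hτ : 0 < τ) :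
    ‖∑' n : ℤ, ∫ y in (Set.Icc (-(1 / τ)) (1 / τ))ᶜ, AA a τ n y‖ ≤
      ∑' n : ℤ, Real.sqrt (8 * Real.pi / 3) * Real.exp (-(3 / 8) * (2 * (n : ℝ) + 1) ^ 2) := by
  refine tsum_of_norm_bounded
    ((summable_odd_gauss (ε := 3 / 8) (by norm_num)).mul_left _).hasSum fun n => ?_
  exact (norm_integral_le_integral_norm _).trans (tail_AA a hτ n)

theorem norm_J0_le {β : ℝ} (hβ : 0 < β) : ‖J0 β‖ ≤ ∫ y, GG β y := by
  refine le_of_tendsto (tendsto_JJ hβ).norm ?_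
  filter_upwards [Ioc_mem_nhdsGT (one_pos : (0 : ℝ) < 1)] with τ hτ
  exact norm_JJ_le hβ hτ.1 hτ.2

theorem sign_id {b : ℝ} (hb : b ≠ 0) :
    (SignType.sign b : ℂ) * ((Real.sqrt (3 * Real.pi) : ℝ) : ℂ) =
      (b : ℂ) * ((Real.sqrt (Real.pi / (b ^ 2 / 3)) : ℝ) : ℂ) := by
  have h1 : Real.sqrt (Real.pi / (b ^ 2 / 3)) = Real.sqrt (3 * Real.pi) / |b| := by
    have : Real.pi / (b ^ 2 / 3) = 3 * Real.pi / |b| ^ 2 := by
      rw [sq_abs]; field_simp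
    rw [this, Real.sqrt_div (by have := Real.pi_pos; positivity), Real.sqrt_sq (abs_nonneg b)]
  rw [h1]
  rcases lt_or_gt_of_ne hb with h | h
  · rw [sign_neg h, abs_of_neg h]
    have : (b : ℂ) ≠ 0 := by exact_mod_cast hb
    push_cast
    field_simp
    simp
  · rw [sign_pos h, abs_of_pos h]
    have : (b : ℂ) ≠ 0 := by exact_mod_cast hb
    push_cast
    field_simp
    simp

theorem PB_id {a : ℝ} (ha : ∀ k : ℤ, a ≠ Real.pi * k) (τ : ℝ) :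
    kkB I * ((Real.sqrt (3 * Real.pi) : ℝ) : ℂ) * PB a (1 / τ) =
      ∑' l : ℤ, cl a τ l * J0 ((a - Real.pi * l) ^ 2 / 3) := by
  unfold PB
  rw [← tsum_mul_left]
  refine tsum_congr fun l => ?_
  have hb : a - Real.pi * l ≠ 0 := sub_ne_zero.mpr (ha l)
  have h1 := sign_id hb
  unfold cl J0
  have h2 : exp (((a - Real.pi * l) ^ 2 / 3 : ℝ) * (-1 + I * ((1 / τ : ℝ) : ℂ))) =
      exp ((((a - Real.pi * l) ^ 2 / 3 : ℝ) : ℂ) * (I * ((1 / τ : ℝ) : ℂ))) *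
      ((Real.exp (-((a - Real.pi * l) ^ 2 / 3)) : ℝ) : ℂ) := by
    rw [Complex.ofReal_exp, ← exp_add]
    congr 1
    push_cast
    ring
  rw [h2, Complex.ofReal_mul]
  calc _ = kkB I * (-1 : ℂ) ^ l * exp ((((a - Real.pi * l) ^ 2 / 3 : ℝ) : ℂ) *
        (I * ((1 / τ : ℝ) : ℂ))) * ((Real.exp (-((a - Real.pi * l) ^ 2 / 3)) : ℝ) : ℂ) *
        ((SignType.sign (a - Real.pi * l) : ℂ) * ((Real.sqrt (3 * Real.pi) : ℝ) : ℂ)) := by ring
    _ = _ := by rw [h1]; ring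

end ThB

open ThB in
theorem Bth_asymp : ∃ cB : ℂ, cB ≠ 0 ∧ ∀ a : ℝ, (∀ k : ℤ, a ≠ Real.pi * k) →
    Tendsto (fun τ : ℝ => (Real.sqrt τ : ℂ) * Bth a (tt τ) - cB * PB a (1 / τ)) (𝓝[>] 0) (𝓝 0) := by
  have hQ : (QQ : ℂ) ≠ 0 := by exact_mod_cast QQ_pos.ne'
  have h3 : ((Real.sqrt (3 * Real.pi) : ℝ) : ℂ) ≠ 0 := by
    have := Real.pi_pos
    exact_mod_cast (Real.sqrt_pos.mpr (by positivity : 0 < 3 * Real.pi)).ne'
  refine ⟨(QQ : ℂ)⁻¹ * C1 * (kkB I * ((Real.sqrt (3 * Real.pi) : ℝ) : ℂ)),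
    mul_ne_zero (mul_ne_zero (inv_ne_zero hQ) C1_ne) (mul_ne_zero kkB_I_ne h3), fun a ha => ?_⟩
  -- main sum
  have hmain : Tendsto (fun τ : ℝ => ∑' l : ℤ, cl a τ l * (JJ ((a - Real.pi * l) ^ 2 / 3) τ -
      J0 ((a - Real.pi * l) ^ 2 / 3))) (𝓝[>] 0) (𝓝 (∑' _ : ℤ, (0 : ℂ))) := by
    apply tendsto_tsum_of_dominated_convergence
      (bound := fun l : ℤ => 2 * (|a - Real.pi * l| * ∫ y, GG ((a - Real.pi * l) ^ 2 / 3) y))
    · exact (summable_bnd ha).mul_left 2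
    · intro l
      rw [tendsto_zero_iff_norm_tendsto_zero]
      have h := (((tendsto_JJ (beta_pos ha l)).sub_const
        (J0 ((a - Real.pi * l) ^ 2 / 3))).norm).const_mul |a - Real.pi * l|
      rw [sub_self, norm_zero, mul_zero] at h
      refine h.congr fun τ => ?_
      rw [norm_mul, norm_cl]
    · filter_upwards [Ioc_mem_nhdsGT (one_pos : (0 : ℝ) < 1)] with τ hτ
      intro l
      rw [norm_mul, norm_cl]
      have h1 := norm_JJ_le (beta_pos ha l) hτ.1 hτ.2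
      have h2 := norm_J0_le (beta_pos ha l)
      have h4 := norm_sub_le (JJ ((a - Real.pi * l) ^ 2 / 3) τ) (J0 ((a - Real.pi * l) ^ 2 / 3))
      have h5 : ‖JJ ((a - Real.pi * l) ^ 2 / 3) τ - J0 ((a - Real.pi * l) ^ 2 / 3)‖ ≤
          2 * ∫ y, GG ((a - Real.pi * l) ^ 2 / 3) y := by linarith
      calc _ ≤ |a - Real.pi * l| * (2 * ∫ y, GG ((a - Real.pi * l) ^ 2 / 3) y) :=
            mul_le_mul_of_nonneg_left h5 (abs_nonneg _)
        _ = _ := by ring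
  rw [tsum_zero] at hmain
  -- tail
  have htail : Tendsto (fun τ : ℝ => (Real.sqrt τ : ℂ) *
      ∑' n : ℤ, ∫ y in (Set.Icc (-(1 / τ)) (1 / τ))ᶜ, AA a τ n y) (𝓝[>] 0) (𝓝 0) := by
    rw [tendsto_zero_iff_norm_tendsto_zero]
    have hs : Tendsto (fun τ : ℝ => Real.sqrt τ * ∑' n : ℤ, Real.sqrt (8 * Real.pi / 3) *
        Real.exp (-(3 / 8) * (2 * (n : ℝ) + 1) ^ 2)) (𝓝[>] 0) (𝓝 0) := by
      have h : Tendsto Real.sqrt (𝓝[>] 0) (𝓝 0) := by
        have := (Real.continuous_sqrt.tendsto 0).mono_left (nhdsWithin_le_nhds (s := Set.Ioi 0))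
        rwa [Real.sqrt_zero] at this
      have := h.mul_const (∑' n : ℤ, Real.sqrt (8 * Real.pi / 3) *
        Real.exp (-(3 / 8) * (2 * (n : ℝ) + 1) ^ 2))
      rwa [zero_mul] at this
    refine tendsto_of_tendsto_of_tendsto_of_le_of_le' tendsto_const_nhds hs
      (Eventually.of_forall fun τ => norm_nonneg _) ?_
    filter_upwards [self_mem_nhdsWithin] with τ hτ
    rw [norm_mul, Complex.norm_real, Real.norm_of_nonneg (Real.sqrt_nonneg _)]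
    exact mul_le_mul_of_nonneg_left (norm_tail_le a hτ) (Real.sqrt_nonneg _)
  have hfin := ((hmain.const_mul C1).add htail).const_mul (QQ : ℂ)⁻¹
  rw [mul_zero, add_zero, mul_zero] at hfin
  refine hfin.congr' ?_
  filter_upwards [Ioc_mem_nhdsGT (one_pos : (0 : ℝ) < 1)] with τ hτ
  have e1 := QQ_mul_Bth a hτ.1
  have e2 := main_part ha hτ.1 hτ.2
  have e3 := PB_id ha τ
  have s1 : Summable fun l : ℤ => cl a τ l * JJ ((a - Real.pi * l) ^ 2 / 3) τ := by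
    refine Summable.of_norm_bounded (summable_bnd ha) fun l => ?_
    rw [norm_mul, norm_cl]
    exact mul_le_mul_of_nonneg_left (norm_JJ_le (beta_pos ha l) hτ.1 hτ.2) (abs_nonneg _)
  have s2 : Summable fun l : ℤ => cl a τ l * J0 ((a - Real.pi * l) ^ 2 / 3) := by
    refine Summable.of_norm_bounded (summable_bnd ha) fun l => ?_
    rw [norm_mul, norm_cl]
    exact mul_le_mul_of_nonneg_left (norm_J0_le (beta_pos ha l)) (abs_nonneg _)
  have e4 : ∑' l : ℤ, cl a τ l * (JJ ((a - Real.pi * l) ^ 2 / 3) τ -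
      J0 ((a - Real.pi * l) ^ 2 / 3)) = (∑' l : ℤ, cl a τ l * JJ ((a - Real.pi * l) ^ 2 / 3) τ) -
      ∑' l : ℤ, cl a τ l * J0 ((a - Real.pi * l) ^ 2 / 3) := by
    rw [← s1.tsum_sub s2]
    exact tsum_congr fun l => by ring
  have e5 : (Real.sqrt τ : ℂ) * Bth a (tt τ) = (QQ : ℂ)⁻¹ * ((Real.sqrt τ : ℂ) *
      ((QQ : ℂ) * Bth a (tt τ))) := by field_simp
  rw [e4, e5, e1, ← e3]
  linear_combination (-(QQ : ℂ)⁻¹) * e2

end Pool.Agent.Iso79
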